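import Mathlib
import Pool.Agent.Lib.MP_12adaf_nt.Disc

/-!
# Norm forms of quadratic extensions: basic facts
-/

namespace Pool.Agent.Lib.MP_12adaf_nt.HM

open NumberField IsDedekindDomain

/-- `a` is a value of the form `x ^ 2 - b * y ^ 2`. -/
def NF {K : Type*} [Field K] (b a : K) : Prop := ∃ x y : K, a = x ^ 2 - b * y ^ 2

section Field

variable {K : Type*} [Field K] {a b c : K}

lemma NF.of_isSquare (b : K) (h : IsSquare a) : NF b a := by
  obtain ⟨x, rfl⟩ := h
  exact ⟨x, 0, by ring⟩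

lemma NF.one (b : K) : NF b 1 := NF.of_isSquare b ⟨1, by ring⟩

lemma NF.mul {a' : K} (h : NF b a) (h' : NF b a') : NF b (a * a') := by
  obtain ⟨x, y, rfl⟩ := h
  obtain ⟨z, t, rfl⟩ := h'
  exact ⟨x * z + b * y * t, x * t + y * z, by ring⟩

lemma NF.inv (h : NF b a) : NF b a⁻¹ := by
  by_cases ha : a = 0
  · subst ha; simpa using h
  · have h1 : a⁻¹ = a * (a⁻¹ * a⁻¹) := by field_simp
    rw [h1]
    exact h.mul (NF.of_isSquare b ⟨a⁻¹, rfl⟩)

lemma NF.map {L : Type*} [Field L] (φ : K →+* L) (h : NF b a) : NF (φ b) (φ a) := by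
  obtain ⟨x, y, rfl⟩ := h
  exact ⟨φ x, φ y, by simp⟩

lemma NF.of_left_isSquare (h2 : (2 : K) ≠ 0) (hb : b ≠ 0) (h : IsSquare b) (a : K) : NF b a := by
  obtain ⟨c, rfl⟩ := h
  have hc : c ≠ 0 := fun h => hb (by rw [h]; ring)
  refine ⟨(a + 1) / 2, (a - 1) / (2 * c), ?_⟩
  field_simp
  ring

lemma NF.symm (h2 : (2 : K) ≠ 0) (ha : a ≠ 0) (h : NF b a) : NF a b := by
  obtain ⟨x, y, h1⟩ := h
  by_cases hy : y = 0
  · subst hy
    exact NF.of_left_isSquare h2 ha ⟨x, by rw [h1]; ring⟩ b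
  · refine ⟨x / y, 1 / y, ?_⟩
    field_simp
    rw [h1]; ring

lemma nf_comm (h2 : (2 : K) ≠ 0) (ha : a ≠ 0) (hb : b ≠ 0) : NF b a ↔ NF a b :=
  ⟨NF.symm h2 ha, NF.symm h2 hb⟩

lemma nf_one_sub (b : K) : NF b (1 - b) := ⟨1, 1, by ring⟩

lemma nf_neg (b : K) : NF b (-b) := ⟨0, 1, by ring⟩

lemma nf_mul_sq_left (hc : c ≠ 0) : NF (b * c ^ 2) a ↔ NF b a := by
  constructor
  · rintro ⟨x, y, h⟩
    exact ⟨x, c * y, by rw [h]; ring⟩
  · rintro ⟨x, y, h⟩
    exact ⟨x, y / c, by rw [h]; field_simp⟩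

lemma nf_mul_sq_right (hc : c ≠ 0) : NF b (a * c ^ 2) ↔ NF b a := by
  constructor
  · rintro ⟨x, y, h⟩
    refine ⟨x / c, y / c, ?_⟩
    field_simp
    linear_combination h
  · rintro ⟨x, y, h⟩
    exact ⟨x * c, y * c, by rw [h]; ring⟩

/-- The subgroup of the values of the norm form. -/
def NS (b : K) : Subgroup Kˣ where
  carrier := {u | NF b (u : K)}
  mul_mem' := by
    intro u v hu hv
    rw [Set.mem_ofPred_eq, Units.val_mul]
    exact NF.mul hu hv
  one_mem' := by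
    rw [Set.mem_ofPred_eq, Units.val_one]
    exact NF.one b
  inv_mem' := by
    intro u hu
    rw [Set.mem_ofPred_eq, Units.val_inv_eq_inv_val]
    exact NF.inv hu

@[simp] lemma mem_NS {u : Kˣ} : u ∈ NS b ↔ NF b (u : K) := Iff.rfl

/-- The index of the subgroup of squares. -/
noncomputable def sqI (M : Type*) [CommGroup M] : ℕ := (powMonoidHom 2 : M →* M).range.index

lemma mem_range_pow_two {u : Kˣ} : u ∈ (powMonoidHom 2 : Kˣ →* Kˣ).range ↔ IsSquare (u : K) := by
  constructor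
  · rintro ⟨v, rfl⟩
    exact ⟨v, by simp [powMonoidHom_apply, sq]⟩
  · rintro ⟨x, hx⟩
    have hx0 : x ≠ 0 := fun h => u.ne_zero (by rw [hx, h]; ring)
    refine ⟨Units.mk0 x hx0, Units.ext ?_⟩
    simp [powMonoidHom_apply, sq, hx]

end Field

section Places

variable (k : Type*) [Field k] [NumberField k]

/-- The infinite places and the finite places of a finite set. -/
noncomputable def SP (T : Finset (HeightOneSpectrum (𝓞 k))) : Finset (Pl k) := Finset.univ.disjSum T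

/-- The units outside the finite set `T` of finite places. -/
noncomputable abbrev SU (T : Finset (HeightOneSpectrum (𝓞 k))) : Subgroup kˣ :=
  (T : Set (HeightOneSpectrum (𝓞 k))).unit k

/-- Every finite place outside `T` is principal up to the places of `T`. -/
def Cl1 (T : Finset (HeightOneSpectrum (𝓞 k))) : Prop :=
  ∀ v ∉ T, ∃ p : k, v.valuation k p = WithZero.exp (-1 : ℤ) ∧
    ∀ v' ∉ T, v' ≠ v → v'.valuation k p = 1

variable {k}

lemma mem_SP_inl (T : Finset (HeightOneSpectrum (𝓞 k))) (v : InfinitePlace k) :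
    Sum.inl v ∈ SP k T := by simp [SP]

lemma mem_SP_inr {T : Finset (HeightOneSpectrum (𝓞 k))} {w : HeightOneSpectrum (𝓞 k)} :
    Sum.inr w ∈ SP k T ↔ w ∈ T := by simp [SP]

lemma mem_SU {T : Finset (HeightOneSpectrum (𝓞 k))} {u : kˣ} :
    u ∈ SU k T ↔ ∀ v ∉ T, v.valuation k (u : k) = 1 := Iff.rfl

open Classical in
/-- The number of infinite places and places of `T` where `x` is not a square. -/
noncomputable def nsq (T : Finset (HeightOneSpectrum (𝓞 k))) (x : k) : ℕ :=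
  ((SP k T).filter fun i => ¬ IsSquare (plEmb k i x)).card

end Places

end Pool.Agent.Lib.MP_12adaf_nt.HM
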