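import Mathlib
import Pool.Agent.Lib.MP_12adaf_nt.TF.OWeak
import Pool.Agent.Lib.MP_12adaf_nt.HM.Basic

section

/-!
# Every nonzero element has a valuation
-/

namespace Pool.Agent.Lib.MP_12adaf_nt.HM

open IsLocalRing

section DVR

variable {O K : Type*} [CommRing O] [IsDomain O] [IsDiscreteValuationRing O]
  [HenselianLocalRing O] [Finite (ResidueField O)] [Field K] [Algebra O K] [IsFractionRing O K]

/-- **Job HM-10.** Every nonzero element has a valuation. -/
theorem exists_hasOrd {p : O} (hp : Irreducible p) {x : K} (hx : x ≠ 0) :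
    ∃ n : ℤ, HasOrd p x n := by
  have hinj : Function.Injective (algebraMap O K) := IsFractionRing.injective O K
  have hp0 : algebraMap O K p ≠ 0 := fun h => hp.ne_zero (hinj (by rw [h, map_zero]))
  obtain ⟨a, b, hb, rfl⟩ := IsFractionRing.div_surjective (A := O) x
  have hb0 : b ≠ 0 := nonZeroDivisors.ne_zero hb
  have ha0 : a ≠ 0 := by
    rintro rfl
    apply hx
    rw [map_zero, zero_div]
  obtain ⟨m, u, hu⟩ := IsDiscreteValuationRing.eq_unit_mul_pow_irreducible ha0 hp
  obtain ⟨n, v, hv⟩ := IsDiscreteValuationRing.eq_unit_mul_pow_irreducible hb0 hp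
  refine ⟨(m : ℤ) - n, u * v⁻¹, ?_⟩
  have hv0 : algebraMap O K (v : O) ≠ 0 := fun h => v.ne_zero (hinj (by rw [h, map_zero]))
  have hvi : algebraMap O K (((v⁻¹ : Oˣ) : O)) = (algebraMap O K (v : O))⁻¹ := by
    apply eq_inv_of_mul_eq_one_left
    rw [← map_mul, Units.inv_mul, map_one]
  rw [Units.val_mul, map_mul, hvi, hu, hv, map_mul, map_mul, map_pow, map_pow,
    zpow_sub₀ hp0, zpow_natCast, zpow_natCast]
  field_simp

/-- The valuation is unique. (Same job, HM-10.) -/
theorem HasOrd.unique {p : O} (hp : Irreducible p) {x : K} {m n : ℤ} (hm : HasOrd p x m)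
    (hn : HasOrd p x n) : m = n := by
  have hinj : Function.Injective (algebraMap O K) := IsFractionRing.injective O K
  have hp0 : algebraMap O K p ≠ 0 := fun h => hp.ne_zero (hinj (by rw [h, map_zero]))
  have key : ∀ (m n : ℤ), HasOrd p x m → HasOrd p x n → ¬ m < n := by
    rintro m n ⟨u, hu⟩ ⟨v, hv⟩ hlt
    obtain ⟨d, hd⟩ := Int.eq_ofNat_of_zero_le (show 0 ≤ n - m - 1 by omega)
    have hn1 : n = m + ((d + 1 : ℕ) : ℤ) := by
      push_cast
      omega
    rw [hn1, zpow_add₀ hp0, zpow_natCast, hu, mul_assoc] at hv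
    have h1 := mul_left_cancel₀ (zpow_ne_zero m hp0) hv
    rw [← map_pow, ← map_mul] at h1
    have h2 := hinj h1
    apply hp.not_isUnit
    have h3 : p ∣ (u : O) := by
      rw [h2, pow_succ]
      exact ⟨p ^ d * v, by ring⟩
    exact isUnit_of_dvd_unit h3 u.isUnit
  rcases lt_trichotomy m n with h | h | h
  · exact absurd h (key m n hm hn)
  · exact h
  · exact absurd h (key n m hn hm)

end DVR

end Pool.Agent.Lib.MP_12adaf_nt.HM
end

section

section

/-!
# Squares and subgroups of finite index
-/

namespace Pool.Agent.Lib.MP_12adaf_nt.HM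

/-- **Job HM-01.** Comparison of the index of the squares for a subgroup `H` of finite index of a
commutative group `G`.

Proof. All indices are finite. `[G : H²] = [G : G²] [G² : H²]` and `[G : H²] = [G : H] [H : H²]`.
The squaring map `G → G²` is surjective with kernel `G[2]`, and maps `H` onto `H²`, so
`[G² : H²] = [G : H G[2]]`, and `[G : H] = [G : H G[2]] [H G[2] : H]`, with
`[H G[2] : H] = [G[2] : H ∩ G[2]] = |G[2]| / |H[2]|`. Multiply out. (If `G` is infinite this is
still fine: the hypotheses make every factor used finite.) -/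
theorem index_sq_finite {G : Type*} [CommGroup G] (H : Subgroup G) (hH : H.index ≠ 0)
    (hG : sqI G ≠ 0) (h2 : Nat.card {x : G // x ^ 2 = 1} ≠ 0) :
    sqI G * Nat.card {x : H // x ^ 2 = 1} = sqI H * Nat.card {x : G // x ^ 2 = 1} := by
  set f : G →* G := powMonoidHom 2 with hf
  have e1 : ((powMonoidHom 2 : H →* H).range.map H.subtype) = H.map f := by
    ext x
    constructor
    · rintro ⟨y, ⟨z, rfl⟩, rfl⟩
      exact ⟨z, z.2, by simp [hf]⟩
    · rintro ⟨z, hz, rfl⟩
      exact ⟨⟨z, hz⟩ ^ 2, ⟨⟨z, hz⟩, by simp⟩, by simp [hf]⟩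
  have e2 : sqI H * H.index = (H ⊔ f.ker).index * sqI G := by
    have := Subgroup.index_map_subtype (powMonoidHom 2 : H →* H).range
    rw [e1, Subgroup.index_map] at this
    exact this.symm
  have e3 : H.relIndex f.ker * (H ⊔ f.ker).index = H.index := by
    have h := Subgroup.relIndex_mul_index (le_sup_left : H ≤ H ⊔ f.ker)
    rwa [Subgroup.relIndex_sup_left] at h
  have c1 : Nat.card {x : G // x ^ 2 = 1} = Nat.card f.ker := by
    refine Nat.card_congr (Equiv.subtypeEquivRight fun x => ?_)
    simp [hf, MonoidHom.mem_ker]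
  have c2 : Nat.card {x : H // x ^ 2 = 1} = Nat.card (H.subgroupOf f.ker) := by
    refine Nat.card_congr ⟨fun x => ⟨⟨x.1.1, ?_⟩, ?_⟩, fun x => ⟨⟨x.1.1, ?_⟩, ?_⟩, ?_, ?_⟩
    · rw [MonoidHom.mem_ker, hf]
      have := congrArg (Subtype.val) x.2
      simpa using this
    · rw [Subgroup.mem_subgroupOf]; exact x.1.2
    · have := x.2
      rwa [Subgroup.mem_subgroupOf] at this
    · have h := x.1.2
      rw [MonoidHom.mem_ker] at h
      have h' : (x.1.1 : G) ^ 2 = 1 := h
      exact Subtype.ext (by simpa using h')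
    · intro x; rfl
    · intro x; rfl
  have e4 : Nat.card (H.subgroupOf f.ker) * H.relIndex f.ker = Nat.card f.ker :=
    Subgroup.card_mul_index _
  have hne : (H ⊔ f.ker).index ≠ 0 := by
    intro h0
    rw [h0, mul_zero] at e3
    exact hH e3.symm
  have e5 : sqI H * H.relIndex f.ker = sqI G := by
    have : sqI H * H.relIndex f.ker * (H ⊔ f.ker).index = sqI G * (H ⊔ f.ker).index := by
      rw [mul_assoc, e3, e2, mul_comm]
    exact Nat.eq_of_mul_eq_mul_right (Nat.pos_of_ne_zero hne) this
  rw [c1, c2, ← e4, ← e5]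
  ring

end Pool.Agent.Lib.MP_12adaf_nt.HM
end

section

/-!
# Products of nonsquare units
-/

namespace Pool.Agent.Lib.MP_12adaf_nt.HM

open IsLocalRing

section DVR

variable {O K : Type*} [CommRing O] [IsDomain O] [IsDiscreteValuationRing O]
  [HenselianLocalRing O] [Finite (ResidueField O)] [Field K] [Algebra O K] [IsFractionRing O K]

/-- **Job HM-12.** The units modulo squares have order two, odd residue characteristic (first half).

Proof. If `u` is not a square in `K` then it is not a square in `O`, so its residue is not a square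
(HM-11); in the finite residue field of odd characteristic the product of two nonsquares is a square
(`FiniteField.isSquare_iff`, or the quadratic character); HM-11 again. -/
theorem isSquare_mul_of_not (h2 : IsUnit (2 : O)) (u v : Oˣ)
    (hu : ¬ IsSquare (algebraMap O K (u : O))) (hv : ¬ IsSquare (algebraMap O K (v : O))) :
    IsSquare ((u : O) * (v : O)) := by
  classical
  have : Fintype (ResidueField O) := Fintype.ofFinite _
  have hchar : ringChar (ResidueField O) ≠ 2 := by
    intro h
    have h1 : (2 : ResidueField O) = 0 := by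
      have := ringChar.Nat.cast_ringChar (R := ResidueField O)
      rw [h] at this
      exact_mod_cast this
    have h3 : IsUnit (residue O 2) := h2.map _
    rw [map_ofNat, h1] at h3
    exact not_isUnit_zero h3
  have key : ∀ w : Oˣ, ¬ IsSquare (algebraMap O K (w : O)) →
      ¬ IsSquare (residue O (w : O)) := by
    intro w hw hr
    apply hw
    exact (isSquare_of_residue h2 w hr).map (algebraMap O K)
  have hne : ∀ w : Oˣ, residue O (w : O) ≠ 0 := by
    intro w
    exact (w.isUnit.map (residue O)).ne_zero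
  have hu' := key u hu
  have hv' := key v hv
  have e1 : quadraticChar (ResidueField O) (residue O (u : O)) = -1 :=
    quadraticChar_neg_one_iff_not_isSquare.mpr hu'
  have e2 : quadraticChar (ResidueField O) (residue O (v : O)) = -1 :=
    quadraticChar_neg_one_iff_not_isSquare.mpr hv'
  have e3 : quadraticChar (ResidueField O) (residue O ((u * v : Oˣ) : O)) = 1 := by
    rw [Units.val_mul, map_mul, map_mul, e1, e2]
    norm_num
  have e4 : IsSquare (residue O ((u * v : Oˣ) : O)) :=
    (quadraticChar_one_iff_isSquare (hne (u * v))).mp e3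
  have e5 := isSquare_of_residue h2 (u * v) e4
  rwa [Units.val_mul] at e5

end DVR

end Pool.Agent.Lib.MP_12adaf_nt.HM
end
end

section

/-!
# Valuations in extensions
-/

namespace Pool.Agent.Lib.MP_12adaf_nt.HM

open NumberField IsDedekindDomain IsDedekindDomain.HeightOneSpectrum

variable {k E : Type*} [Field k] [NumberField k] [Field E] [NumberField E] [Algebra k E]

/-- **Job HM-33.** Valuations of elements of `k` in `E` (`valuation_liesOver`; the ramification
index is positive). -/
theorem valuation_one_iff_under (w : HeightOneSpectrum (𝓞 E)) (x : k) :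
    w.valuation E (algebraMap k E x) = 1 ↔ (w.under (𝓞 k)).valuation k x = 1 := by
  have : w.asIdeal.LiesOver (w.under (𝓞 k)).asIdeal := ⟨rfl⟩
  have h := valuation_liesOver (K := k) E (w.under (𝓞 k)) w x
  rw [← h]
  have hne : (w.under (𝓞 k)).asIdeal.ramificationIdx' w.asIdeal ≠ 0 :=
    Ideal.IsDedekindDomain.ramificationIdx'_ne_zero_of_liesOver w.asIdeal (w.under (𝓞 k)).ne_bot
  constructor
  · intro h1
    rcases lt_trichotomy ((w.under (𝓞 k)).valuation k x) 1 with h2 | h2 | h2
    · exact absurd h1 (pow_lt_one₀ zero_le h2 hne).ne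
    · exact h2
    · exact absurd h1 (one_lt_pow₀ h2 hne).ne'
  · intro h1
    rw [h1, one_pow]

end Pool.Agent.Lib.MP_12adaf_nt.HM
end

section

/-!
# Isotropic forms: elementary facts
-/

namespace Pool.Agent.Lib.MP_12adaf_nt.HM

open TF Matrix

private lemma q02_form {ι K : Type*} [Fintype ι] [DecidableEq ι] [Field K] (a x : ι → K) :
    ∑ i, a i * x i ^ 2 = x ⬝ᵥ (diagonal a *ᵥ x) := by
  rw [dotProduct]
  apply Finset.sum_congr rfl
  intro i _
  rw [mulVec_diagonal]
  ring

private lemma q02_trans {ι κ K : Type*} [Fintype ι] [DecidableEq ι] [Fintype κ] [DecidableEq κ]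
    [Field K] (M : Matrix ι κ K) (A : Matrix ι ι K) (y : κ → K) :
    y ⬝ᵥ ((Mᵀ * A * M) *ᵥ y) = (M *ᵥ y) ⬝ᵥ (A *ᵥ (M *ᵥ y)) := by
  rw [← mulVec_mulVec, ← mulVec_mulVec, dotProduct_mulVec, vecMul_transpose]

/-- **Job Q02.** A form with an isotropic subform is isotropic (extend the vector by zero). -/
theorem Isot.of_comp {ι κ K : Type*} [Fintype ι] [Fintype κ] [Field K] {a : κ → K} (f : ι → κ)
    (hf : Function.Injective f) (h : Isot fun i => a (f i)) : Isot a := by
  classical
  obtain ⟨x, hx, hq⟩ := h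
  have hext : ∀ i, Function.extend f x 0 (f i) = x i := fun i => hf.extend_apply x 0 i
  refine ⟨Function.extend f x 0, ?_, ?_⟩
  · intro h0
    apply hx
    funext i
    rw [← hext i, h0]
    rfl
  · rw [← hq]
    have h1 : ∑ i, a (f i) * x i ^ 2 = ∑ j ∈ Finset.univ.image f, a j * Function.extend f x 0 j ^ 2 := by
      rw [Finset.sum_image (fun i _ j _ hij => hf hij)]
      exact Finset.sum_congr rfl fun i _ => by rw [hext i]
    rw [h1]
    symm
    apply Finset.sum_subset (Finset.subset_univ _)
    intro j _ hj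
    have h2 : ¬ ∃ i, f i = j := by
      rintro ⟨i, rfl⟩
      exact hj (Finset.mem_image_of_mem f (Finset.mem_univ i))
    rw [Function.extend_apply' _ _ _ h2]
    simp

/-- An isotropic form with nonzero coefficients is universal. (Same job.)

Proof. `q x = 0`, `x i ≠ 0`. For `y = t x + e_i`: `q y = 2 t a_i x_i + a_i` takes every value. -/
theorem Isot.reps {ι K : Type*} [Fintype ι] [Field K] (h2 : (2 : K) ≠ 0) {a : ι → K}
    (ha : ∀ i, a i ≠ 0) (h : Isot a) (c : K) : Reps a c := by
  classical
  obtain ⟨x, hx, hq⟩ := h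
  obtain ⟨i, hi⟩ : ∃ i, x i ≠ 0 := by
    by_contra hcon
    push Not at hcon
    exact hx (funext hcon)
  refine ⟨fun j => (c - a i) / (2 * a i * x i) * x j + (if j = i then 1 else 0), ?_⟩
  have key : ∀ t : K, ∑ j, a j * (t * x j + (if j = i then 1 else 0)) ^ 2 =
      t ^ 2 * ∑ j, a j * x j ^ 2 + (2 * t * a i * x i + a i) := by
    intro t
    have e : ∀ j, a j * (t * x j + (if j = i then 1 else 0)) ^ 2 =
        t ^ 2 * (a j * x j ^ 2) + (if j = i then (2 * t * a j * x j + a j) else 0) := by
      intro j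
      split_ifs <;> ring
    rw [Finset.sum_congr rfl fun j _ => e j, Finset.sum_add_distrib, ← Finset.mul_sum,
      Finset.sum_ite_eq' Finset.univ i]
    simp
  rw [key, hq]
  have hai := ha i
  field_simp
  ring

/-- `q - c t²` isotropic, `c ≠ 0`: then `q` represents `c`. (Same job.) -/
theorem reps_of_isot {n : ℕ} {K : Type*} [Field K] (h2 : (2 : K) ≠ 0) {a : Fin n → K}
    (ha : ∀ i, a i ≠ 0) {c : K} (hc : c ≠ 0) (h : Isot (Fin.cons (-c) a : Fin (n + 1) → K)) :
    Reps a c := by
  obtain ⟨x, hx, hq⟩ := h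
  rw [Fin.sum_univ_succ] at hq
  simp only [Fin.cons_zero, Fin.cons_succ] at hq
  by_cases h0 : x 0 = 0
  · apply Isot.reps h2 ha
    refine ⟨fun j => x j.succ, ?_, ?_⟩
    · intro h1
      apply hx
      funext j
      refine Fin.cases ?_ ?_ j
      · exact h0
      · intro i
        exact congrFun h1 i
    · rw [h0] at hq
      linear_combination hq
  · refine ⟨fun j => x j.succ / x 0, ?_⟩
    have e : ∀ j : Fin n, a j * (x j.succ / x 0) ^ 2 = (a j * x j.succ ^ 2) / x 0 ^ 2 := by
      intro j
      field_simp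
    rw [Finset.sum_congr rfl fun j _ => e j, ← Finset.sum_div]
    have h3 : ∑ i : Fin n, a i * x i.succ ^ 2 = c * x 0 ^ 2 := by linear_combination hq
    rw [h3]
    field_simp

/-- The converse. (Same job.) -/
theorem isot_of_reps {n : ℕ} {K : Type*} [Field K] {a : Fin n → K} {c : K} (h : Reps a c) :
    Isot (Fin.cons (-c) a : Fin (n + 1) → K) := by
  obtain ⟨x, hx⟩ := h
  refine ⟨Fin.cons 1 x, ?_, ?_⟩
  · intro h0
    have h1 := congrFun h0 0
    rw [Fin.cons_zero] at h1
    exact one_ne_zero h1
  · rw [Fin.sum_univ_succ]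
    simp only [Fin.cons_zero, Fin.cons_succ]
    rw [hx]
    ring

/-- Isometric forms are simultaneously isotropic. (Same job; `Cong` gives an invertible change of
variables.) -/
theorem CD.isot {ι κ K : Type*} [Fintype ι] [DecidableEq ι] [Fintype κ] [DecidableEq κ] [Field K]
    {a : ι → K} {b : κ → K} (h : CD a b) (ha : Isot a) : Isot b := by
  obtain ⟨M, M', h1, h2, h3⟩ := h
  obtain ⟨x, hx, hq⟩ := ha
  have hM : M *ᵥ (M' *ᵥ x) = x := by rw [mulVec_mulVec, h1, one_mulVec]
  refine ⟨M' *ᵥ x, ?_, ?_⟩
  · intro h0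
    apply hx
    rw [← hM, h0, mulVec_zero]
  · rw [q02_form b, ← h3, q02_trans, hM, ← q02_form a, hq]

/-- Isometric forms represent the same elements. (Same job.) -/
theorem CD.reps {ι κ K : Type*} [Fintype ι] [DecidableEq ι] [Fintype κ] [DecidableEq κ] [Field K]
    {a : ι → K} {b : κ → K} (h : CD a b) {c : K} (ha : Reps a c) : Reps b c := by
  obtain ⟨M, M', h1, h2, h3⟩ := h
  obtain ⟨x, hq⟩ := ha
  have hM : M *ᵥ (M' *ᵥ x) = x := by rw [mulVec_mulVec, h1, one_mulVec]
  refine ⟨M' *ᵥ x, ?_⟩
  rw [q02_form b, ← h3, q02_trans, hM, ← q02_form a, hq]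

end Pool.Agent.Lib.MP_12adaf_nt.HM
end
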