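import Mathlib
import Pool.Agent.Lib.MP_12adaf_nt.HM.Basic
import Pool.Agent.Lib.MP_12adaf_nt.TF.OWeak
import Pool.Agent.Lib.MP_12adaf_nt.HM.Q02

section

/-!
# Squares of units
-/

namespace Pool.Agent.Lib.MP_12adaf_nt.HM

open NumberField IsDedekindDomain

variable {k : Type*} [Field k] [NumberField k]

private lemma sqI_congr04 {G H : Type*} [CommGroup G] [CommGroup H] (e : G ≃* H) :
    sqI G = sqI H := by
  have h1 : (powMonoidHom 2 : G →* G).range = ((powMonoidHom 2 : H →* H).range).comap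
      (e : G →* H) := by
    ext x
    rw [Subgroup.mem_comap]
    constructor
    · rintro ⟨y, rfl⟩
      exact ⟨e y, by simp [powMonoidHom_apply]⟩
    · rintro ⟨y, hy⟩
      refine ⟨e.symm y, ?_⟩
      rw [powMonoidHom_apply] at hy ⊢
      rw [← map_pow, hy]
      simp
  unfold sqI
  rw [h1]
  exact Subgroup.index_comap_of_surjective _ e.surjective

private lemma sqI_prod04 (G H : Type*) [CommGroup G] [CommGroup H] :
    sqI (G × H) = sqI G * sqI H := by
  have h1 : (powMonoidHom 2 : G × H →* G × H).range =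
      ((powMonoidHom 2 : G →* G).range).prod ((powMonoidHom 2 : H →* H).range) := by
    ext x
    rw [Subgroup.mem_prod]
    constructor
    · rintro ⟨y, rfl⟩
      exact ⟨⟨y.1, rfl⟩, ⟨y.2, rfl⟩⟩
    · rintro ⟨⟨y, hy⟩, ⟨z, hz⟩⟩
      exact ⟨(y, z), Prod.ext hy hz⟩
  unfold sqI
  rw [h1, Subgroup.index_prod]

private lemma sqI_int04 : sqI (Multiplicative ℤ) = 2 := by
  unfold sqI
  rw [Subgroup.index_eq_two_iff]
  refine ⟨Multiplicative.ofAdd 1, fun b => ?_⟩
  have h1 : ∀ c : Multiplicative ℤ,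
      c ∈ (powMonoidHom 2 : Multiplicative ℤ →* Multiplicative ℤ).range ↔
        Even (Multiplicative.toAdd c) := by
    intro c
    constructor
    · rintro ⟨d, rfl⟩
      exact ⟨Multiplicative.toAdd d, by rw [powMonoidHom_apply, sq, toAdd_mul]⟩
    · rintro ⟨d, hd⟩
      refine ⟨Multiplicative.ofAdd d, ?_⟩
      rw [powMonoidHom_apply, sq, ← ofAdd_add, ← hd, ofAdd_toAdd]
  rw [h1, h1, toAdd_mul, toAdd_ofAdd]
  rcases Int.even_or_odd (Multiplicative.toAdd b) with h | h
  · right
    refine ⟨h, ?_⟩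
    rw [Int.not_even_iff_odd]
    exact h.add_odd odd_one
  · left
    refine ⟨h.add_odd odd_one, ?_⟩
    rwa [Int.not_even_iff_odd]

private lemma sqI_pi04 (r : ℕ) (G : Type*) [CommGroup G] :
    sqI (Fin r → G) = (sqI G) ^ r := by
  have h1 : (powMonoidHom 2 : (Fin r → G) →* (Fin r → G)).range =
      Subgroup.pi Set.univ (fun _ : Fin r => (powMonoidHom 2 : G →* G).range) := by
    ext x
    rw [Subgroup.mem_pi]
    constructor
    · rintro ⟨y, rfl⟩ i _
      exact ⟨y i, rfl⟩
    · intro h
      choose y hy using fun i => h i (Set.mem_univ i)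
      exact ⟨y, funext hy⟩
  unfold sqI
  rw [h1, Subgroup.index_pi]
  simp

private lemma sqI_units04 : sqI (𝓞 k)ˣ = 2 ^ Fintype.card (InfinitePlace k) := by
  classical
  let φ : (Units.torsion k) × (Fin (Units.rank k) → Multiplicative ℤ) →* (𝓞 k)ˣ :=
    { toFun := fun x => (x.1 : (𝓞 k)ˣ) *
        ∏ i, (Units.fundSystem k i) ^ (Multiplicative.toAdd (x.2 i))
      map_one' := by simp
      map_mul' := by
        intro x y
        simp only [Prod.fst_mul, Prod.snd_mul, Subgroup.coe_mul, Pi.mul_apply, toAdd_mul, zpow_add,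
          Finset.prod_mul_distrib]
        exact mul_mul_mul_comm _ _ _ _ }
  have hφ : Function.Bijective φ := by
    constructor
    · intro x y hxy
      obtain ⟨ζe, -, huniq⟩ := Units.exist_unique_eq_mul_prod k (φ x)
      have h1 := huniq (x.1, fun i => Multiplicative.toAdd (x.2 i)) rfl
      have h2 := huniq (y.1, fun i => Multiplicative.toAdd (y.2 i)) hxy
      have h3 := h1.trans h2.symm
      have h4 := congrArg Prod.fst h3
      have h5 := congrArg Prod.snd h3
      refine Prod.ext h4 (funext fun i => ?_)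
      exact Multiplicative.toAdd.injective (congrFun h5 i)
    · intro u
      obtain ⟨ζe, h, -⟩ := Units.exist_unique_eq_mul_prod k u
      exact ⟨(ζe.1, fun i => Multiplicative.ofAdd (ζe.2 i)), h.symm⟩
  rw [← sqI_congr04 (MulEquiv.ofBijective φ hφ), sqI_prod04, sqI_pi04, sqI_int04]
  have h1 : sqI (Units.torsion k) = 2 := by
    unfold sqI
    rw [IsCyclic.index_powMonoidHom_range]
    have h2 : 2 ∣ Nat.card (Units.torsion k) := even_iff_two_dvd.1 (Units.even_torsionOrder k)
    exact Nat.gcd_eq_right h2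
  rw [h1, Units.rank, ← pow_succ', Nat.sub_add_cancel Fintype.card_pos]

/-- **Job HM-04.** Squares of units.

Proof. `SU k ∅` is the group of `u : kˣ` with all valuations `1`, i.e. the image of `(𝓞 k)ˣ`
(`Units.map (algebraMap (𝓞 k) k)`, injective; `HeightOneSpectrum.mem_integers_of_valuation_le_one`
for `u` and `u⁻¹`). By Dirichlet's unit theorem (`NumberField.Units.basisModTorsion`,
`NumberField.Units.exist_unique_eq_mul_prod`, `NumberField.Units.rank`,
`rank k = card (InfinitePlace k) - 1`) `(𝓞 k)ˣ = torsion k × ℤ^r`, and the torsion group is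
cyclic and finite of even order (`NumberField.Units.torsion`, it contains `-1`), so its index of
squares is `2`; total `2 ^ (r + 1)`. -/
theorem sqI_SU_empty : sqI (SU k (∅ : Finset (HeightOneSpectrum (𝓞 k)))) =
    2 ^ Fintype.card (InfinitePlace k) := by
  have hmem : ∀ u : (𝓞 k)ˣ, Units.map (algebraMap (𝓞 k) k : 𝓞 k →* k) u ∈
      SU k (∅ : Finset (HeightOneSpectrum (𝓞 k))) := by
    intro u
    rw [mem_SU]
    intro v _
    have h1 : ∀ w : (𝓞 k)ˣ, v.valuation k (algebraMap (𝓞 k) k (w : 𝓞 k)) ≤ 1 := fun w =>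
      v.valuation_le_one _
    have h2 : v.valuation k (algebraMap (𝓞 k) k (u : 𝓞 k)) *
        v.valuation k (algebraMap (𝓞 k) k ((u⁻¹ : (𝓞 k)ˣ) : 𝓞 k)) = 1 := by
      rw [← map_mul, ← map_mul, Units.mul_inv, map_one, map_one]
    have h3 : (1 : WithZero (Multiplicative ℤ)) ≤ v.valuation k (algebraMap (𝓞 k) k (u : 𝓞 k)) := by
      calc (1 : WithZero (Multiplicative ℤ)) = v.valuation k (algebraMap (𝓞 k) k (u : 𝓞 k)) *
            v.valuation k (algebraMap (𝓞 k) k ((u⁻¹ : (𝓞 k)ˣ) : 𝓞 k)) := h2.symm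
        _ ≤ v.valuation k (algebraMap (𝓞 k) k (u : 𝓞 k)) := mul_le_of_le_one_right' (h1 u⁻¹)
    exact le_antisymm (h1 u) h3
  let φ : (𝓞 k)ˣ →* SU k (∅ : Finset (HeightOneSpectrum (𝓞 k))) :=
    (Units.map (algebraMap (𝓞 k) k : 𝓞 k →* k)).codRestrict _ hmem
  have hφ : Function.Bijective φ := by
    constructor
    · intro x y hxy
      have h1 : Units.map (algebraMap (𝓞 k) k : 𝓞 k →* k) x =
        Units.map (algebraMap (𝓞 k) k : 𝓞 k →* k) y := congrArg Subtype.val hxy
      exact Units.map_injective (RingOfIntegers.coe_injective) h1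
    · intro u
      have h1 : ∀ v : HeightOneSpectrum (𝓞 k), v.valuation k ((u : kˣ) : k) = 1 :=
        fun v => (mem_SU.1 u.2) v (by simp)
      obtain ⟨x, hx⟩ := HeightOneSpectrum.mem_integers_of_valuation_le_one k ((u : kˣ) : k)
        (fun v => (h1 v).le)
      obtain ⟨y, hy⟩ := HeightOneSpectrum.mem_integers_of_valuation_le_one k
        (((u : kˣ)⁻¹ : kˣ) : k) (fun v => by rw [Units.val_inv_eq_inv_val, map_inv₀, h1 v, inv_one])
      have hxy : x * y = 1 := by
        apply RingOfIntegers.coe_injective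
        rw [map_mul, hx, hy, map_one, Units.mul_inv]
      have hyx : y * x = 1 := by rw [mul_comm]; exact hxy
      refine ⟨⟨x, y, hxy, hyx⟩, ?_⟩
      apply Subtype.ext
      apply Units.ext
      exact hx
  rw [← sqI_congr04 (MulEquiv.ofBijective φ hφ), sqI_units04]

end Pool.Agent.Lib.MP_12adaf_nt.HM
end

section

/-!
# Elements with given valuations
-/

namespace Pool.Agent.Lib.MP_12adaf_nt.HM

open NumberField IsDedekindDomain

variable {k : Type*} [Field k] [NumberField k]

/-- **Job HM-07.** With trivial class group, every family of valuations outside `T`, almost all of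
them trivial, is that of an element.

Proof. Let `p_v` (`v ∉ T`) be as in `Cl1`, and put `y = ∏ p_v ^ (- n v)` over the finite set of the
`v ∉ T` with `n v ≠ 0`. -/
theorem Cl1.exists_elt {T : Finset (HeightOneSpectrum (𝓞 k))} (h : Cl1 k T)
    (n : HeightOneSpectrum (𝓞 k) → ℤ) (hn : {v | v ∉ T ∧ n v ≠ 0}.Finite) :
    ∃ y : k, y ≠ 0 ∧ ∀ v ∉ T, v.valuation k y = WithZero.exp (n v) := by
  classical
  have h0 : ∀ v : HeightOneSpectrum (𝓞 k), ∃ p : k, v ∉ T →
      v.valuation k p = WithZero.exp (-1 : ℤ) ∧ ∀ v' ∉ T, v' ≠ v → v'.valuation k p = 1 := by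
    intro v
    by_cases hv : v ∈ T
    · exact ⟨1, fun h1 => absurd hv h1⟩
    · obtain ⟨p, hp⟩ := h v hv
      exact ⟨p, fun _ => hp⟩
  choose p hp using h0
  have hmem : ∀ v, v ∈ hn.toFinset ↔ v ∉ T ∧ n v ≠ 0 := fun v => by
    rw [Set.Finite.mem_toFinset]; exact Iff.rfl
  have hne : ∀ v ∉ T, p v ≠ 0 := by
    intro v hv h1
    have h2 := (hp v hv).1
    rw [h1, map_zero] at h2
    exact WithZero.exp_ne_zero h2.symm
  refine ⟨∏ v ∈ hn.toFinset, p v ^ (-n v), ?_, ?_⟩
  · exact Finset.prod_ne_zero_iff.mpr fun v hv => zpow_ne_zero _ (hne v ((hmem v).mp hv).1)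
  · intro v hv
    rw [map_prod]
    by_cases hnv : n v = 0
    · rw [hnv, WithZero.exp_zero]
      apply Finset.prod_eq_one
      intro w hw
      have hwv : v ≠ w := fun h1 => ((hmem w).mp hw).2 (h1 ▸ hnv)
      rw [map_zpow₀, (hp w ((hmem w).mp hw).1).2 v hv hwv, one_zpow]
    · rw [Finset.prod_eq_single v]
      · rw [map_zpow₀, (hp v hv).1, ← WithZero.exp_zsmul]
        simp
      · intro w hw hwv
        rw [map_zpow₀, (hp w ((hmem w).mp hw).1).2 v hv hwv.symm, one_zpow]
      · intro h1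
        exact absurd ((hmem v).mpr ⟨hv, hnv⟩) h1

end Pool.Agent.Lib.MP_12adaf_nt.HM
end

section

/-!
# Adding one place
-/

namespace Pool.Agent.Lib.MP_12adaf_nt.HM

open NumberField IsDedekindDomain

variable {k : Type*} [Field k] [NumberField k]

private lemma sqI_congr05 {G H : Type*} [CommGroup G] [CommGroup H] (e : G ≃* H) :
    sqI G = sqI H := by
  have h1 : (powMonoidHom 2 : G →* G).range = ((powMonoidHom 2 : H →* H).range).comap
      (e : G →* H) := by
    ext x
    rw [Subgroup.mem_comap]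
    constructor
    · rintro ⟨y, rfl⟩
      exact ⟨e y, by simp [powMonoidHom_apply]⟩
    · rintro ⟨y, hy⟩
      refine ⟨e.symm y, ?_⟩
      rw [powMonoidHom_apply] at hy ⊢
      rw [← map_pow, hy]
      simp
  unfold sqI
  rw [h1]
  exact Subgroup.index_comap_of_surjective _ e.surjective

/-- an element which is a unit outside `v` but not at `v` -/
private lemma exists_unit05 (v : HeightOneSpectrum (𝓞 k)) :
    ∃ u : kˣ, v.valuation k (u : k) ≠ 1 ∧
      ∀ v' : HeightOneSpectrum (𝓞 k), v' ≠ v → v'.valuation k (u : k) = 1 := by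
  classical
  have hv0 : v.asIdeal ∈ nonZeroDivisors (Ideal (𝓞 k)) := mem_nonZeroDivisors_of_ne_zero v.ne_bot
  set h := Fintype.card (ClassGroup (𝓞 k)) with hh
  have hpos : h ≠ 0 := Fintype.card_ne_zero
  have h1 : ClassGroup.mk0 (⟨v.asIdeal, hv0⟩ ^ h) = 1 := by
    rw [map_pow, hh, pow_card_eq_one]
  have h2 : (v.asIdeal ^ h).IsPrincipal := by
    have h3 := (ClassGroup.mk0_eq_one_iff (pow_mem hv0 h)).1 h1
    exact h3
  obtain ⟨p, hp⟩ := h2
  have hp' : v.asIdeal ^ h = Ideal.span {p} := hp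
  have hp0 : p ≠ 0 := by
    rintro rfl
    have h3 : v.asIdeal ^ h = ⊥ := by rw [hp']; simp
    exact (pow_ne_zero h v.ne_bot) h3
  have hpk : algebraMap (𝓞 k) k p ≠ 0 := by
    simpa using hp0
  refine ⟨Units.mk0 (algebraMap (𝓞 k) k p) hpk, ?_, ?_⟩
  · rw [Units.val_mk0, HeightOneSpectrum.valuation_of_algebraMap, ne_eq,
      HeightOneSpectrum.intValuation_eq_one_iff, not_not, ← Ideal.dvd_span_singleton, ← hp']
    exact dvd_pow_self _ hpos
  · intro v' hne
    rw [Units.val_mk0, HeightOneSpectrum.valuation_of_algebraMap,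
      HeightOneSpectrum.intValuation_eq_one_iff, ← Ideal.dvd_span_singleton, ← hp']
    intro h3
    apply hne
    have h4 := v'.prime.dvd_of_dvd_pow h3
    have hle : v.asIdeal ≤ v'.asIdeal := Ideal.dvd_iff_le.1 h4
    exact HeightOneSpectrum.ext (v.isMaximal.eq_of_le v'.isPrime.ne_top hle).symm

/-- **Job HM-05.** Adding one place doubles the index of the squares.

Proof. The valuation at `v` gives a homomorphism `f₀ : SU k (insert v T) → Multiplicative ℤ`
(`WithZero.log`, or `WithZero.unitsWithZeroEquiv`) with kernel `SU k T`; it is not trivial, since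
some positive power `v ^ h` (`h` the class number) is principal, generated by a `v`-unit only
at the other places. So its image is a nontrivial subgroup of `ℤ`, isomorphic to `ℤ`; composing with
such an isomorphism we get a surjection onto `Multiplicative ℤ` with the same kernel; use
`sqI_of_surj` and an isomorphism of the kernel with `SU k T` (`sqI` is invariant under
isomorphisms). -/
theorem sqI_SU_insert [DecidableEq (HeightOneSpectrum (𝓞 k))]
    (T : Finset (HeightOneSpectrum (𝓞 k))) {v : HeightOneSpectrum (𝓞 k)} (hv : v ∉ T) :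
    sqI (SU k (insert v T)) = 2 * sqI (SU k T) := by
  let g : kˣ →* Multiplicative ℤ :=
    (WithZero.unitsWithZeroEquiv : (WithZero (Multiplicative ℤ))ˣ ≃* Multiplicative ℤ).toMonoidHom.comp
      (Units.map (v.valuation k : k →* WithZero (Multiplicative ℤ)))
  have hg : ∀ u : kˣ, ((g u : Multiplicative ℤ) : WithZero (Multiplicative ℤ)) =
      v.valuation k (u : k) := fun u => WithZero.coe_unitsWithZeroEquiv_eq_units_val _
  have hg1 : ∀ u : kˣ, g u = 1 ↔ v.valuation k (u : k) = 1 := by
    intro u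
    rw [← hg u, ← WithZero.coe_one, WithZero.coe_inj]
  let f0 : SU k (insert v T) →* Multiplicative ℤ := g.comp (SU k (insert v T)).subtype
  obtain ⟨u0, hu0, hu1⟩ := exists_unit05 v
  have hmem : u0 ∈ SU k (insert v T) := by
    rw [mem_SU]
    intro w hw
    exact hu1 w (fun h => hw (by rw [h]; exact Finset.mem_insert_self _ _))
  have hinf : Infinite f0.range := by
    have hx : f0 ⟨u0, hmem⟩ ≠ 1 := fun h => hu0 ((hg1 u0).1 h)
    have hxr : f0 ⟨u0, hmem⟩ ∈ f0.range := MonoidHom.mem_range.2 ⟨⟨u0, hmem⟩, rfl⟩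
    have hxn : ∀ n : ℕ, f0 ⟨u0, hmem⟩ ^ n ∈ f0.range := fun n => Subgroup.pow_mem _ hxr n
    refine Infinite.of_injective (fun n : ℕ => (⟨f0 ⟨u0, hmem⟩ ^ n, hxn n⟩ : f0.range)) ?_
    intro m n hmn
    have h1 : f0 ⟨u0, hmem⟩ ^ m = f0 ⟨u0, hmem⟩ ^ n := congrArg Subtype.val hmn
    have h2 := congrArg Multiplicative.toAdd h1
    rw [toAdd_pow, toAdd_pow, nsmul_eq_mul, nsmul_eq_mul] at h2
    have h3 : Multiplicative.toAdd (f0 ⟨u0, hmem⟩) ≠ 0 := fun h => hx (by
      rw [← ofAdd_toAdd (f0 ⟨u0, hmem⟩), h, ofAdd_zero])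
    exact_mod_cast mul_right_cancel₀ h3 h2
  let e : Multiplicative ℤ ≃* f0.range := intCyclicMulEquiv (G := f0.range)
  let f : SU k (insert v T) →* Multiplicative ℤ := e.symm.toMonoidHom.comp f0.rangeRestrict
  have hf : Function.Surjective f :=
    e.symm.surjective.comp f0.rangeRestrict_surjective
  have hker : ∀ x : SU k (insert v T), x ∈ f.ker ↔ v.valuation k ((x : kˣ) : k) = 1 := by
    intro x
    rw [← hg1, MonoidHom.mem_ker]
    change e.symm (f0.rangeRestrict x) = 1 ↔ f0 x = 1
    rw [EmbeddingLike.map_eq_one_iff, ← Subtype.coe_inj]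
    rfl
  rw [sqI_of_surj f hf]
  congr 1
  have hT : ∀ x : f.ker, ((SU k (insert v T)).subtype.comp f.ker.subtype) x ∈ SU k T := by
    intro x
    rw [mem_SU]
    intro w hw
    by_cases hwv : w = v
    · rw [hwv]; exact (hker _).1 x.2
    · exact (mem_SU.1 x.1.2) w (fun h => (Finset.mem_insert.1 h).elim hwv hw)
  let φ : f.ker →* SU k T :=
    ((SU k (insert v T)).subtype.comp f.ker.subtype).codRestrict (SU k T) hT
  have hφ : Function.Bijective φ := by
    constructor
    · intro x y hxy
      have h1 : ((x : SU k (insert v T)) : kˣ) = ((y : SU k (insert v T)) : kˣ) :=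
        congrArg (fun z : SU k T => (z : kˣ)) hxy
      exact Subtype.ext (Subtype.ext h1)
    · intro y
      have h1 : (y : kˣ) ∈ SU k (insert v T) := by
        rw [mem_SU]
        intro w hw
        exact (mem_SU.1 y.2) w (fun h => hw (Finset.mem_insert_of_mem h))
      have h2 : (⟨(y : kˣ), h1⟩ : SU k (insert v T)) ∈ f.ker := by
        rw [hker]
        exact (mem_SU.1 y.2) v hv
      exact ⟨⟨⟨(y : kˣ), h1⟩, h2⟩, Subtype.ext rfl⟩
  exact sqI_congr05 (MulEquiv.ofBijective φ hφ)

end Pool.Agent.Lib.MP_12adaf_nt.HM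
end

section

/-!
# Conjugate primes
-/

namespace Pool.Agent.Lib.MP_12adaf_nt.HM

open NumberField IsDedekindDomain IsDedekindDomain.HeightOneSpectrum

variable {k E : Type*} [Field k] [NumberField k] [Field E] [NumberField E] [Algebra k E]

private lemma h36_int_le {R : Type*} [CommRing R] [IsDedekindDomain R] (w w' : HeightOneSpectrum R)
    (τ : R ≃+* R) (h : w'.asIdeal ≤ w.asIdeal.comap τ) (r : R) :
    w.intValuation (τ r) ≤ w'.intValuation r := by
  by_cases hr : r = 0
  · subst hr
    simp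
  · obtain ⟨n, hn⟩ : ∃ n : ℕ, w'.intValuation r = WithZero.exp (-(n : ℤ)) :=
      ⟨_, w'.intValuation_if_neg hr⟩
    have h1 : r ∈ w'.asIdeal ^ n := by
      rw [← w'.intValuation_le_pow_iff_mem]
      exact hn.le
    have h2 : r ∈ (w.asIdeal ^ n).comap τ :=
      Ideal.le_comap_pow _ _ (Ideal.pow_right_mono h n h1)
    rw [Ideal.mem_comap] at h2
    rw [hn]
    exact (w.intValuation_le_pow_iff_mem _ _).mpr h2

private lemma h36_int_eq {R : Type*} [CommRing R] [IsDedekindDomain R] (w w' : HeightOneSpectrum R)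
    (τ : R ≃+* R) (h : w'.asIdeal = w.asIdeal.comap τ) (r : R) :
    w'.intValuation r = w.intValuation (τ r) := by
  apply le_antisymm
  · have h1 := h36_int_le w' w τ.symm (by
      intro y hy
      rw [h, Ideal.mem_comap]
      show τ (τ.symm y) ∈ w.asIdeal
      rw [τ.apply_symm_apply]
      exact hy) (τ r)
    rwa [τ.symm_apply_apply] at h1
  · exact h36_int_le w w' τ h.le r

private lemma h36_val_eq {E : Type*} [Field E] [NumberField E] (w w' : HeightOneSpectrum (𝓞 E))
    (σ : E ≃+* E) (h : w'.asIdeal = w.asIdeal.comap (RingOfIntegers.mapRingEquiv σ)) (z : E) :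
    w'.valuation E z = w.valuation E (σ z) := by
  obtain ⟨a, b, hb, rfl⟩ := IsFractionRing.div_surjective (A := 𝓞 E) z
  have e : ∀ c : 𝓞 E, w'.valuation E (algebraMap (𝓞 E) E c) =
      w.valuation E (σ (algebraMap (𝓞 E) E c)) := by
    intro c
    have h1 : σ (algebraMap (𝓞 E) E c) =
        algebraMap (𝓞 E) E (RingOfIntegers.mapRingEquiv σ c) := rfl
    rw [h1, valuation_of_algebraMap, valuation_of_algebraMap]
    exact h36_int_eq w w' _ h c
  rw [map_div₀, map_div₀, map_div₀, e, e]

private lemma h36_fixed {x : k} (Q : QExt k E x) (y : E) (hy : Q.σ y = y) :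
    ∃ a : k, y = algebraMap k E a := by
  obtain ⟨a, b, hab⟩ := Q.gen y
  refine ⟨a, ?_⟩
  have h1 : Q.σ y = algebraMap k E a - algebraMap k E b * Q.θ := by
    rw [hab, map_add, map_mul, AlgEquiv.commutes, AlgEquiv.commutes, Q.σθ]
    ring
  have h2 : (2 : E) * (algebraMap k E b * Q.θ) = 0 := by
    rw [hy, hab] at h1
    linear_combination h1
  have h3 := (mul_eq_zero.mp h2).resolve_left two_ne_zero
  rw [hab, h3, add_zero]

private lemma h36_invol {x : k} (Q : QExt k E x) (y : E) : Q.σ (Q.σ y) = y := by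
  obtain ⟨a, b, hab⟩ := Q.gen y
  rw [hab]
  simp only [map_add, map_mul, AlgEquiv.commutes, Q.σθ, map_neg]
  ring

/-- **Job HM-36.** Conjugation permutes the primes over a prime `v`: if `w.under = w'.under` then
`w' = w` or `w' = σ w`; in the form needed: an element `z` of `E` with
`w.valuation z = w.valuation (σ z)` for all `w` outside `T'` has the same valuation at all primes
`w ∉ T'` over the same prime of `k`.

Proof. The Galois group of `E / k` (of order two, generated by `σ`) acts transitively on the primes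
over `v` (`Ideal.exists_smul_eq_of_isGaloisGroup`, or `IsGalois` version,
`Mathlib/NumberTheory/RamificationInertia/Galois.lean`); the valuation at `σ w` of `σ z` is the
valuation at `w` of `z`. A direct proof is also possible: if `w ≠ w'` are both over `v` and
`w' ≠ σ w`, choose `z ∈ 𝓞 E` in `w'` but not in `w` nor in `σ w`; then
`z * σ z ∈ 𝓞 k ∩ w' = v ⊆ w`: contradiction. -/
theorem valuation_eq_of_under_eq {x : k} (Q : QExt k E x) {T' : Finset (HeightOneSpectrum (𝓞 E))}
    {T : Finset (HeightOneSpectrum (𝓞 k))}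
    (hT' : ∀ w, w ∈ T' ↔ w.under (𝓞 k) ∈ T) {z : E}
    (hz : ∀ w ∉ T', w.valuation E z = w.valuation E (Q.σ z)) {w w' : HeightOneSpectrum (𝓞 E)}
    (hw : w ∉ T') (h : w.under (𝓞 k) = w'.under (𝓞 k)) : w.valuation E z = w'.valuation E z := by
  let τ := RingOfIntegers.mapRingEquiv (Q.σ : E ≃+* E)
  have hcases : w'.asIdeal ≤ w.asIdeal ∨ w'.asIdeal ≤ w.asIdeal.comap τ := by
    rw [← Ideal.subset_union]
    intro t ht
    by_contra hcon
    rw [Set.mem_union, not_or] at hcon
    have hc1 : t ∉ w.asIdeal := hcon.1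
    have hc2 : τ t ∉ w.asIdeal := hcon.2
    have hfix : Q.σ ((t : E) * Q.σ (t : E)) = (t : E) * Q.σ (t : E) := by
      rw [map_mul, h36_invol, mul_comm]
    obtain ⟨a, ha⟩ := h36_fixed Q _ hfix
    have hτ : ((τ t : 𝓞 E) : E) = Q.σ (t : E) := rfl
    have hint : IsIntegral ℤ a := by
      have h1 : IsIntegral ℤ (algebraMap k E a) := by
        rw [← ha, ← hτ]
        exact (t.isIntegral_coe).mul ((τ t).isIntegral_coe)
      exact (isIntegral_algebraMap_iff (algebraMap k E).injective).mp h1
    let n : 𝓞 k := ⟨a, hint⟩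
    have hn : algebraMap (𝓞 k) (𝓞 E) n = t * τ t := by
      apply RingOfIntegers.ext
      show algebraMap k E a = (t : E) * ((τ t : 𝓞 E) : E)
      rw [hτ, ha]
    have h1 : n ∈ (w'.under (𝓞 k)).asIdeal := by
      rw [HeightOneSpectrum.under_asIdeal, Ideal.mem_comap, hn]
      exact Ideal.mul_mem_right _ _ ht
    rw [← h, HeightOneSpectrum.under_asIdeal, Ideal.mem_comap, hn] at h1
    rcases w.isPrime.mem_or_mem h1 with h2 | h2
    · exact hc1 h2
    · exact hc2 h2
  rcases hcases with h1 | h1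
  · have h2 : w'.asIdeal = w.asIdeal := w'.isMaximal.eq_of_le w.isPrime.ne_top h1
    rw [HeightOneSpectrum.ext h2]
  · have hp : (w.asIdeal.comap τ).IsPrime := Ideal.comap_isPrime _ _
    have h2 : w'.asIdeal = w.asIdeal.comap τ := w'.isMaximal.eq_of_le hp.ne_top h1
    rw [h36_val_eq w w' (Q.σ : E ≃+* E) h2 z]
    exact hz w hw

end Pool.Agent.Lib.MP_12adaf_nt.HM
end

section

/-!
# Unramified primes
-/

namespace Pool.Agent.Lib.MP_12adaf_nt.HM

open NumberField IsDedekindDomain IsDedekindDomain.HeightOneSpectrum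

variable {k E : Type*} [Field k] [NumberField k] [Field E] [NumberField E] [Algebra k E]

private lemma h37_int_le {R : Type*} [CommRing R] [IsDedekindDomain R] (w w' : HeightOneSpectrum R)
    (τ : R ≃+* R) (h : w'.asIdeal ≤ w.asIdeal.comap τ) (r : R) :
    w.intValuation (τ r) ≤ w'.intValuation r := by
  by_cases hr : r = 0
  · subst hr
    simp
  · obtain ⟨n, hn⟩ : ∃ n : ℕ, w'.intValuation r = WithZero.exp (-(n : ℤ)) :=
      ⟨_, w'.intValuation_if_neg hr⟩
    have h1 : r ∈ w'.asIdeal ^ n := by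
      rw [← w'.intValuation_le_pow_iff_mem]
      exact hn.le
    have h2 : r ∈ (w.asIdeal ^ n).comap τ :=
      Ideal.le_comap_pow _ _ (Ideal.pow_right_mono h n h1)
    rw [Ideal.mem_comap] at h2
    rw [hn]
    exact (w.intValuation_le_pow_iff_mem _ _).mpr h2

private lemma h37_int_eq {R : Type*} [CommRing R] [IsDedekindDomain R] (w w' : HeightOneSpectrum R)
    (τ : R ≃+* R) (h : w'.asIdeal = w.asIdeal.comap τ) (r : R) :
    w'.intValuation r = w.intValuation (τ r) := by
  apply le_antisymm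
  · have h1 := h37_int_le w' w τ.symm (by
      intro y hy
      rw [h, Ideal.mem_comap]
      show τ (τ.symm y) ∈ w.asIdeal
      rw [τ.apply_symm_apply]
      exact hy) (τ r)
    rwa [τ.symm_apply_apply] at h1
  · exact h37_int_le w w' τ h.le r

private lemma h37_val_eq {E : Type*} [Field E] [NumberField E] (w w' : HeightOneSpectrum (𝓞 E))
    (σ : E ≃+* E) (h : w'.asIdeal = w.asIdeal.comap (RingOfIntegers.mapRingEquiv σ)) (z : E) :
    w'.valuation E z = w.valuation E (σ z) := by
  obtain ⟨a, b, hb, rfl⟩ := IsFractionRing.div_surjective (A := 𝓞 E) z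
  have e : ∀ c : 𝓞 E, w'.valuation E (algebraMap (𝓞 E) E c) =
      w.valuation E (σ (algebraMap (𝓞 E) E c)) := by
    intro c
    have h1 : σ (algebraMap (𝓞 E) E c) =
        algebraMap (𝓞 E) E (RingOfIntegers.mapRingEquiv σ c) := rfl
    rw [h1, valuation_of_algebraMap, valuation_of_algebraMap]
    exact h37_int_eq w w' _ h c
  rw [map_div₀, map_div₀, map_div₀, e, e]

private lemma h37_fixed {x : k} (Q : QExt k E x) (y : E) (hy : Q.σ y = y) :
    ∃ a : k, y = algebraMap k E a := by
  obtain ⟨a, b, hab⟩ := Q.gen y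
  refine ⟨a, ?_⟩
  have h1 : Q.σ y = algebraMap k E a - algebraMap k E b * Q.θ := by
    rw [hab, map_add, map_mul, AlgEquiv.commutes, AlgEquiv.commutes, Q.σθ]
    ring
  have h2 : (2 : E) * (algebraMap k E b * Q.θ) = 0 := by
    rw [hy, hab] at h1
    linear_combination h1
  have h3 := (mul_eq_zero.mp h2).resolve_left two_ne_zero
  rw [hab, h3, add_zero]

private lemma h37_invol {x : k} (Q : QExt k E x) (y : E) : Q.σ (Q.σ y) = y := by
  obtain ⟨a, b, hab⟩ := Q.gen y
  rw [hab]
  simp only [map_add, map_mul, AlgEquiv.commutes, Q.σθ, map_neg]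
  ring

/-- **Job HM-37.** `E / k` is unramified at the odd primes where `x` is a unit.

Proof. Suppose that the ramification index of `w` over `v` is at least two (`v := w.under`,
`v.valuation 2 = 1`, `v.valuation x = 1`). As `e f g = 2` (`QExt` gives `finrank k E = 2`), `e = 2`,
`f = g = 1`: so `σ w = w` and the residue field of `w` is that of `v`. Choose `c ∈ 𝓞 k`, `c ∉ v`
with `c θ` integral (`x = a / c` with `c ∉ v`, `a, c ∈ 𝓞 k`, as `x` is a `v`-unit; then
`(c θ) ^ 2 = c a`). There is `z₀ ∈ 𝓞 k` with `c θ - z₀ ∈ w`; conjugating (`σ w = w`)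
`- c θ - z₀ ∈ w`, so `2 c θ ∈ w`, so `4 c ^ 2 x ∈ w`, but it has `v`-valuation one: contradiction. -/
theorem ramificationIdx_eq_one {x : k} (Q : QExt k E x) (w : HeightOneSpectrum (𝓞 E))
    (h2 : (w.under (𝓞 k)).valuation k 2 = 1) (hx : (w.under (𝓞 k)).valuation k x = 1) (a : k) :
    w.valuation E (algebraMap k E a) = (w.under (𝓞 k)).valuation k a := by
  have hover : w.asIdeal.LiesOver (w.under (𝓞 k)).asIdeal := ⟨rfl⟩
  set v := w.under (𝓞 k) with hv
  set e := v.asIdeal.ramificationIdx' w.asIdeal with he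
  have hval : ∀ c : k, w.valuation E (algebraMap k E c) = v.valuation k c ^ e := fun c =>
    (valuation_liesOver E v w c).symm
  have he0 : e ≠ 0 := Ideal.IsDedekindDomain.ramificationIdx'_ne_zero_of_liesOver w.asIdeal v.ne_bot
  suffices h1 : e = 1 by rw [hval, h1, pow_one]
  let τ := RingOfIntegers.mapRingEquiv (Q.σ : E ≃+* E)
  -- valuations of nonzero elements of `k`
  have hexp : ∀ c : k, c ≠ 0 → ∃ m : ℤ, v.valuation k c = WithZero.exp m := by
    intro c hc
    exact ⟨WithZero.log (v.valuation k c), (WithZero.exp_log ((Valuation.ne_zero_iff _).mpr hc)).symm⟩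
  obtain ⟨π, hπ⟩ := w.intValuation_exists_uniformizer
  have hp : (w.asIdeal.comap τ).IsPrime := Ideal.comap_isPrime _ _
  by_cases hcase : w.asIdeal = w.asIdeal.comap τ
  · -- `σ w = w`
    have hconj : ∀ z : E, w.valuation E z = w.valuation E (Q.σ z) := fun z =>
      h37_val_eq w w (Q.σ : E ≃+* E) hcase z
    by_contra hne
    have he2 : 2 ≤ e := by omega
    obtain ⟨c, d, hcd⟩ := Q.gen (algebraMap (𝓞 E) E π)
    have hw2 : w.valuation E 2 = 1 := by
      have := hval 2
      rwa [map_ofNat, h2, one_pow] at this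
    have hθ : w.valuation E Q.θ = 1 := by
      have h3 : w.valuation E Q.θ ^ 2 = 1 := by
        rw [← map_pow, Q.θ_sq, hval, hx, one_pow]
      have hθ0 : Q.θ ≠ 0 := by
        intro h0
        rw [h0, map_zero] at h3
        norm_num at h3
      have h4 := WithZero.exp_log ((Valuation.ne_zero_iff (w.valuation E)).mpr hθ0)
      rw [← h4, ← WithZero.exp_nsmul, ← WithZero.exp_zero, WithZero.exp_inj, nsmul_eq_mul] at h3
      rw [← h4]
      have h5 : WithZero.log (w.valuation E Q.θ) = 0 := by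
        push_cast at h3
        omega
      rw [h5, WithZero.exp_zero]
    have hπv : w.valuation E (algebraMap (𝓞 E) E π) = WithZero.exp (-1 : ℤ) := by
      rw [valuation_of_algebraMap, hπ]
    have hσπ : w.valuation E (Q.σ (algebraMap (𝓞 E) E π)) = WithZero.exp (-1 : ℤ) := by
      rw [← hconj, hπv]
    have hσ : Q.σ (algebraMap (𝓞 E) E π) = algebraMap k E c - algebraMap k E d * Q.θ := by
      rw [hcd, map_add, map_mul, AlgEquiv.commutes, AlgEquiv.commutes, Q.σθ]
      ring
    have hsmall : ∀ c : k, w.valuation E (algebraMap k E c) ≤ WithZero.exp (-1 : ℤ) →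
        w.valuation E (algebraMap k E c) ≤ WithZero.exp (-2 : ℤ) := by
      intro c hc
      by_cases hc0 : c = 0
      · rw [hc0, map_zero, map_zero]
        exact zero_le
      · obtain ⟨m, hm⟩ := hexp c hc0
        rw [hval, hm, ← WithZero.exp_nsmul, WithZero.exp_le_exp, nsmul_eq_mul] at hc ⊢
        have he2' : (2 : ℤ) ≤ (e : ℤ) := by exact_mod_cast he2
        have hm1 : m ≤ -1 := by
          by_contra hm0
          push Not at hm0
          have : 0 ≤ (e : ℤ) * m := by
            apply mul_nonneg <;> omega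
          omega
        nlinarith
    have hc1 : w.valuation E (algebraMap k E c) ≤ WithZero.exp (-1 : ℤ) := by
      have h3 : w.valuation E (2 * algebraMap k E c) ≤ WithZero.exp (-1 : ℤ) := by
        have h4 : 2 * algebraMap k E c = algebraMap (𝓞 E) E π + Q.σ (algebraMap (𝓞 E) E π) := by
          rw [hσ, hcd]
          ring
        rw [h4]
        exact Valuation.map_add_le _ hπv.le hσπ.le
      rwa [map_mul, hw2, one_mul] at h3
    have hd1 : w.valuation E (algebraMap k E d) ≤ WithZero.exp (-1 : ℤ) := by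
      have h3 : w.valuation E (2 * (algebraMap k E d * Q.θ)) ≤ WithZero.exp (-1 : ℤ) := by
        have h4 : 2 * (algebraMap k E d * Q.θ) =
            algebraMap (𝓞 E) E π - Q.σ (algebraMap (𝓞 E) E π) := by
          rw [hσ, hcd]
          ring
        rw [h4]
        exact Valuation.map_sub_le _ hπv.le hσπ.le
      rwa [map_mul, map_mul, hw2, hθ, one_mul, mul_one] at h3
    have h5 : w.valuation E (algebraMap (𝓞 E) E π) ≤ WithZero.exp (-2 : ℤ) := by
      rw [hcd]
      apply Valuation.map_add_le _ (hsmall c hc1)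
      rw [map_mul, hθ, mul_one]
      exact hsmall d hd1
    rw [hπv, WithZero.exp_le_exp] at h5
    omega
  · -- `σ w ≠ w`
    obtain ⟨t, ht1, ht2⟩ : ∃ t : 𝓞 E, w.intValuation t = WithZero.exp (-1 : ℤ) ∧
        τ t ∉ w.asIdeal := by
      by_cases hπ1 : τ π ∈ w.asIdeal
      · have hnle : ¬ w.asIdeal ^ 2 ≤ w.asIdeal.comap τ := by
          intro hle
          have h3 := hp.le_of_pow_le hle
          exact hcase (w.isMaximal.eq_of_le hp.ne_top h3)
        obtain ⟨c, hc, hc'⟩ := SetLike.not_le_iff_exists.mp hnle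
        refine ⟨π + c, ?_, ?_⟩
        · have h3 : w.intValuation c < w.intValuation π := by
            rw [hπ]
            refine lt_of_le_of_lt ((w.intValuation_le_pow_iff_mem c 2).mpr hc) ?_
            rw [WithZero.exp_lt_exp]
            norm_num
          rw [Valuation.map_add_eq_of_lt_left _ h3, hπ]
        · rw [map_add]
          intro h3
          exact hc' ((Ideal.add_mem_iff_right _ hπ1).mp h3)
      · exact ⟨π, hπ, hπ1⟩
    have hfix : Q.σ ((t : E) * Q.σ (t : E)) = (t : E) * Q.σ (t : E) := by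
      rw [map_mul, h37_invol, mul_comm]
    obtain ⟨n, hn⟩ := h37_fixed Q _ hfix
    have h3 : w.valuation E (algebraMap k E n) = WithZero.exp (-1 : ℤ) := by
      rw [← hn, map_mul]
      have h4 : w.valuation E (t : E) = WithZero.exp (-1 : ℤ) := by
        rw [← ht1]
        exact valuation_of_algebraMap w t
      have h5 : w.valuation E (Q.σ (t : E)) = 1 := by
        have h6 : Q.σ (t : E) = algebraMap (𝓞 E) E (τ t) := rfl
        rw [h6, valuation_of_algebraMap]
        exact (w.intValuation_eq_one_iff_mem_primeCompl _).mpr ht2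
      rw [h4, h5, mul_one]
    have hn0 : n ≠ 0 := by
      rintro rfl
      rw [map_zero, map_zero] at h3
      exact WithZero.exp_ne_zero h3.symm
    obtain ⟨m, hm⟩ := hexp n hn0
    rw [hval, hm, ← WithZero.exp_nsmul, WithZero.exp_inj, nsmul_eq_mul] at h3
    have h7 : (e : ℤ) ∣ 1 := ⟨-m, by linarith⟩
    have h8 := Int.eq_one_of_dvd_one (by positivity) h7
    exact_mod_cast h8

end Pool.Agent.Lib.MP_12adaf_nt.HM
end

section

/-!
# Fixed units
-/

namespace Pool.Agent.Lib.MP_12adaf_nt.HM

open NumberField IsDedekindDomain IsDedekindDomain.HeightOneSpectrum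

variable {k E : Type*} [Field k] [NumberField k] [Field E] [NumberField E] [Algebra k E]

/-- **Job HM-35.** Fixed `T`-units come from `k`.

Proof. `σ u = u` and `QExt.gen` give `u = algebraMap a` (`u = a + b θ`, `σ u = a - b θ`, so
`2 b θ = 0`, `θ ≠ 0` as `x ≠ 0`). For `v ∉ T` choose a prime `w` of `E` over `v`
(`Ideal.exists_ideal_over_prime_of_isIntegral...`), `w ∉ T'`, `w.valuation u = 1`, so
`v.valuation a = 1` (HM-33). -/
theorem exists_of_fixed {x : k} (hx0 : x ≠ 0) (Q : QExt k E x)
    {T : Finset (HeightOneSpectrum (𝓞 k))} {T' : Finset (HeightOneSpectrum (𝓞 E))}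
    (hT' : ∀ w, w ∈ T' ↔ w.under (𝓞 k) ∈ T) {u : Eˣ} (hu : u ∈ SU E T')
    (hσ : Q.σ (u : E) = u) : ∃ a ∈ SU k T, (u : E) = algebraMap k E (a : k) := by
  have hθ0 : Q.θ ≠ 0 := by
    intro h
    have h1 := Q.θ_sq
    rw [h] at h1
    apply hx0
    have h2 : algebraMap k E x = 0 := by rw [← h1]; ring
    exact (map_eq_zero (algebraMap k E)).mp h2
  obtain ⟨a, b, hab⟩ := Q.gen (u : E)
  have h1 : Q.σ (u : E) = algebraMap k E a - algebraMap k E b * Q.θ := by
    rw [hab, map_add, map_mul, AlgEquiv.commutes, AlgEquiv.commutes, Q.σθ]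
    ring
  have h2 : (2 : E) * algebraMap k E b * Q.θ = 0 := by
    rw [hσ, hab] at h1
    linear_combination h1
  have hb : algebraMap k E b = 0 := by
    rcases mul_eq_zero.mp h2 with h | h
    · exact (mul_eq_zero.mp h).resolve_left two_ne_zero
    · exact absurd h hθ0
  have hua : (u : E) = algebraMap k E a := by rw [hab, hb]; ring
  have ha0 : a ≠ 0 := by
    rintro rfl
    exact u.ne_zero (by rw [hua, map_zero])
  refine ⟨Units.mk0 a ha0, ?_, hua⟩
  rw [mem_SU]
  intro v hv
  obtain ⟨P, hPm, hP⟩ := Ideal.exists_maximal_ideal_liesOver_of_isIntegral (S := 𝓞 E) v.asIdeal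
  have hPb : P ≠ ⊥ := by
    rintro rfl
    apply v.ne_bot
    rw [hP.over]
    exact Ideal.under_bot _ _
  have hw : (⟨P, hPm.isPrime, hPb⟩ : HeightOneSpectrum (𝓞 E)).under (𝓞 k) = v :=
    HeightOneSpectrum.ext hP.over.symm
  have hwT : (⟨P, hPm.isPrime, hPb⟩ : HeightOneSpectrum (𝓞 E)) ∉ T' := by
    rw [hT', hw]
    exact hv
  have h3 := (mem_SU.mp hu) _ hwT
  rw [hua, valuation_one_iff_under, hw] at h3
  exact h3

end Pool.Agent.Lib.MP_12adaf_nt.HM
end

section

/-!
# Units outside a finite set of places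
-/

namespace Pool.Agent.Lib.MP_12adaf_nt.HM

open NumberField IsDedekindDomain

variable {k : Type*} [Field k] [NumberField k]

/-- The index of the squares in the group of `T`-units. -/
theorem sqI_SU (T : Finset (HeightOneSpectrum (𝓞 k))) :
    sqI (SU k T) = 2 ^ (Fintype.card (InfinitePlace k) + T.card) := by
  classical
  induction T using Finset.induction_on with
  | empty => rw [sqI_SU_empty, Finset.card_empty, add_zero]
  | insert v T hv ih =>
    rw [sqI_SU_insert T hv, ih, Finset.card_insert_of_notMem hv]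
    ring

lemma card_SU_two (T : Finset (HeightOneSpectrum (𝓞 k))) :
    Nat.card {u : SU k T // u ^ 2 = 1} = 2 := by
  have hmem : (-1 : kˣ) ∈ SU k T := by
    intro v _
    simp
  rw [Nat.card_eq_two_iff]
  refine ⟨⟨1, one_pow 2⟩, ⟨⟨-1, hmem⟩, by ext; simp⟩, ?_, ?_⟩
  · intro h
    have h1 := congrArg (fun x : {u : SU k T // u ^ 2 = 1} => (((x : SU k T) : kˣ) : k)) h
    simp only [OneMemClass.coe_one, Units.val_one, Units.val_neg] at h1
    norm_num at h1
  · rw [Set.eq_univ_iff_forall]
    rintro ⟨⟨u, hu⟩, hu2⟩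
    have h2 : ((u : k)) ^ 2 = 1 := by
      have := congrArg (fun x : SU k T => ((x : kˣ) : k)) hu2
      simpa using this
    have h3 : (u : k) * (u : k) = 1 := by rw [← sq]; exact h2
    rcases mul_self_eq_one_iff.mp h3 with h | h
    · left
      ext
      simpa using h
    · right
      ext
      simpa using h

lemma Cl1.mono {T T' : Finset (HeightOneSpectrum (𝓞 k))} (h : Cl1 k T) (hT : T ⊆ T') :
    Cl1 k T' := by
  intro v hv
  obtain ⟨p, h1, h2⟩ := h v fun h' => hv (hT h')
  exact ⟨p, h1, fun v' hv' hne => h2 v' (fun h' => hv' (hT h')) hne⟩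

/-- An element of `SU k T` which is a square in `k` is a square in `SU k T`. -/
lemma isSquare_of_SU {T : Finset (HeightOneSpectrum (𝓞 k))} {u : SU k T}
    (h : IsSquare ((u : kˣ) : k)) : IsSquare u := by
  obtain ⟨y, hy⟩ := h
  have hy0 : y ≠ 0 := fun h => (u : kˣ).ne_zero (by rw [hy, h]; ring)
  have hmem : Units.mk0 y hy0 ∈ SU k T := by
    intro v hv
    have h1 := u.2 v hv
    rw [hy, map_mul, ← sq] at h1
    rw [Units.val_mk0]
    exact (pow_eq_one_iff.mp h1).resolve_right two_ne_zero
  refine ⟨⟨_, hmem⟩, ?_⟩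
  ext
  simpa using hy

end Pool.Agent.Lib.MP_12adaf_nt.HM
end

section

/-!
# Theorem 90 for units
-/

namespace Pool.Agent.Lib.MP_12adaf_nt.HM

open NumberField IsDedekindDomain IsDedekindDomain.HeightOneSpectrum

variable {k E : Type*} [Field k] [NumberField k] [Field E] [NumberField E] [Algebra k E]

/-- **Job HM-38.** Hilbert's theorem 90 for `T`-units.

Proof. Let `u` be a `T'`-unit with `u * σ u = 1`. There is `z ≠ 0` in `E` with `u = z / σ z`:
`z = 1 + u` if `u ≠ -1` (`σ z = 1 + u⁻¹ = z / u`), and `z = θ` if `u = -1`. For `w ∉ T'`,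
`w.valuation z = w.valuation (σ z)`. So by HM-36 `w.valuation z` depends only on `v = w.under` for
`w ∉ T'`: it is `exp (n v)`, `n v = 0` for almost all `v`. By `Cl1.exists_elt` there is `y : k` with
`v.valuation y = exp (n v)` for `v ∉ T`, and by HM-37 `w.valuation (algebraMap y) = exp (n v)` for
`w ∉ T'`. So `z / y` is a `T'`-unit and `u = (z / y) / σ (z / y)`. -/
theorem hilbert90 {x : k} (hx : ¬ IsSquare x) (Q : QExt k E x)
    {T : Finset (HeightOneSpectrum (𝓞 k))} {T' : Finset (HeightOneSpectrum (𝓞 E))}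
    (hT' : ∀ w, w ∈ T' ↔ w.under (𝓞 k) ∈ T) (h2 : ∀ w ∉ T, w.valuation k 2 = 1)
    (hxT : ∀ w ∉ T, w.valuation k x = 1) (hcl : Cl1 k T) {u : Eˣ} (hu : u ∈ SU E T')
    (hN : (u : E) * Q.σ u = 1) : ∃ y ∈ SU E T', (u : E) = y / Q.σ (y : E) := by
  classical
  have hx0 : x ≠ 0 := by
    rintro rfl
    exact hx ⟨0, by ring⟩
  have hu0 : (u : E) ≠ 0 := u.ne_zero
  have hθ0 : Q.θ ≠ 0 := by
    intro h
    have h1 := Q.θ_sq
    rw [h] at h1
    apply hx0
    have h2 : algebraMap k E x = 0 := by rw [← h1]; ring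
    exact (map_eq_zero (algebraMap k E)).mp h2
  -- field version
  obtain ⟨z, hz0, hz⟩ : ∃ z : E, z ≠ 0 ∧ (u : E) * Q.σ z = z := by
    by_cases hu1 : (u : E) = -1
    · refine ⟨Q.θ, hθ0, ?_⟩
      rw [hu1, Q.σθ]
      ring
    · refine ⟨1 + u, ?_, ?_⟩
      · intro h
        apply hu1
        linear_combination h
      · rw [map_add, map_one]
        linear_combination hN
  have hσz0 : Q.σ z ≠ 0 := by
    intro h
    exact hz0 ((map_eq_zero Q.σ).mp h)
  have hval : ∀ w ∉ T', w.valuation E z = w.valuation E (Q.σ z) := by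
    intro w hw
    have h1 := (mem_SU.mp hu) w hw
    conv_lhs => rw [← hz]
    rw [map_mul, h1, one_mul]
  -- descend the valuations
  have hsurj : ∀ v : HeightOneSpectrum (𝓞 k), ∃ w : HeightOneSpectrum (𝓞 E), w.under (𝓞 k) = v := by
    intro v
    obtain ⟨P, hPm, hP⟩ := Ideal.exists_maximal_ideal_liesOver_of_isIntegral (S := 𝓞 E) v.asIdeal
    refine ⟨⟨P, hPm.isPrime, ?_⟩, ?_⟩
    · rintro rfl
      apply v.ne_bot
      rw [hP.over]
      exact Ideal.under_bot _ _
    · apply HeightOneSpectrum.ext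
      exact hP.over.symm
  choose ww hww using hsurj
  have hvne : ∀ w : HeightOneSpectrum (𝓞 E), w.valuation E z ≠ 0 := by
    intro w
    exact (Valuation.ne_zero_iff _).mpr hz0
  have hfin : {w : HeightOneSpectrum (𝓞 E) | w.valuation E z ≠ 1}.Finite := by
    have h1 := HeightOneSpectrum.Support.finite (𝓞 E) (z : E)
    have h3 := HeightOneSpectrum.Support.finite (𝓞 E) (z⁻¹ : E)
    refine (h1.union h3).subset ?_
    intro w hw
    rw [Set.mem_ofPred_eq] at hw
    rcases lt_or_gt_of_ne hw with h4 | h4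
    · right
      show 1 < w.valuation E z⁻¹
      rw [map_inv₀]
      exact (one_lt_inv₀ (zero_lt_iff.mpr (hvne w))).mpr h4
    · left
      exact h4
  obtain ⟨y, hy0, hy⟩ := hcl.exists_elt (fun v => WithZero.log ((ww v).valuation E z)) (by
    refine Set.Finite.subset (hfin.image (fun w => w.under (𝓞 k))) ?_
    rintro v ⟨_, hv⟩
    refine ⟨ww v, ?_, hww v⟩
    intro h1
    apply hv
    simp only [h1, WithZero.log_one])
  have hy0' : algebraMap k E y ≠ 0 := (map_ne_zero _).mpr hy0
  refine ⟨Units.mk0 (z / algebraMap k E y) (div_ne_zero hz0 hy0'), ?_, ?_⟩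
  · rw [mem_SU]
    intro w hw
    have hwT : w.under (𝓞 k) ∉ T := fun h => hw ((hT' w).mpr h)
    have hwwT : ww (w.under (𝓞 k)) ∉ T' := by
      intro h
      rw [hT', hww] at h
      exact hwT h
    have h1 : w.valuation E z = (ww (w.under (𝓞 k))).valuation E z :=
      valuation_eq_of_under_eq Q hT' hval hw (hww _).symm
    have h3 : w.valuation E (algebraMap k E y) = (w.under (𝓞 k)).valuation k y :=
      ramificationIdx_eq_one Q w (h2 _ hwT) (hxT _ hwT) y
    rw [Units.val_mk0, map_div₀, h3, hy _ hwT, WithZero.exp_log (hvne _), h1]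
    exact div_self (hvne _)
  · rw [Units.val_mk0, map_div₀, AlgEquiv.commutes]
    field_simp
    rw [mul_comm] at hz
    rw [mul_comm]
    linear_combination hz

end Pool.Agent.Lib.MP_12adaf_nt.HM
end

section

/-!
# Quaternary forms and their discriminant extension
-/

namespace Pool.Agent.Lib.MP_12adaf_nt.HM

open TF Matrix

section aux

variable {K : Type*} [Field K] {m n : Type*} [Fintype m] [DecidableEq m] [Fintype n]
  [DecidableEq n]

private lemma q04_inv (hcard : Fintype.card n = Fintype.card m) (M : Matrix n m K)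
    (hinj : ∀ x, M *ᵥ x = 0 → x = 0) : ∃ M' : Matrix m n K, M * M' = 1 ∧ M' * M = 1 := by
  let e : n ≃ m := Fintype.equivOfCardEq hcard
  let N : Matrix m m K := M.submatrix e.symm id
  have hN : N.det ≠ 0 := by
    intro h0
    obtain ⟨x, hx, hx0⟩ := Matrix.exists_mulVec_eq_zero_iff.2 h0
    apply hx
    apply hinj
    funext i
    have := congrFun hx0 (e i)
    simpa [N, Matrix.mulVec, dotProduct] using this
  have h1 : N * N⁻¹ = 1 := Matrix.mul_nonsing_inv N (Ne.isUnit hN)
  have h2 : N⁻¹ * N = 1 := Matrix.nonsing_inv_mul N (Ne.isUnit hN)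
  have h3 : M = N.submatrix e id := by
    ext i j
    simp [N]
  refine ⟨N⁻¹.submatrix id e, ?_, ?_⟩
  · rw [h3, ← Matrix.submatrix_mul _ _ e id e Function.bijective_id, h1, submatrix_one_equiv]
  · rw [h3, submatrix_mul_equiv, h2, submatrix_id_id]

/-- completion of a partial isometry -/
private lemma q04_split [CharZero K] {r : ℕ} (hcard : Fintype.card n = Fintype.card m + r)
    {S : Matrix n n K} (hS : S.IsSymm) (hdet : S.det ≠ 0) {E : Matrix n m K} {D : Matrix m m K}
    (hE : Eᵀ * S * E = D) (hD : D.det ≠ 0) :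
    ∃ u : Fin r → K, (∀ i, u i ≠ 0) ∧ Cong S (osum D (diagonal u)) := by
  let φ : (n → K) →ₗ[K] (m → K) := Matrix.toLin' (Eᵀ * S)
  have hφE : ∀ z : m → K, φ (E *ᵥ z) = D *ᵥ z := by
    intro z
    show (Matrix.toLin' (Eᵀ * S)) (E *ᵥ z) = D *ᵥ z
    rw [Matrix.toLin'_apply, mulVec_mulVec, hE]
  have hrank : Module.finrank K (LinearMap.ker φ) = r := by
    have h1 := LinearMap.finrank_range_add_finrank_ker φ
    have h2 : LinearMap.range φ = ⊤ := by
      rw [LinearMap.range_eq_top]
      intro z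
      refine ⟨E *ᵥ (D⁻¹ *ᵥ z), ?_⟩
      rw [hφE, mulVec_mulVec, Matrix.mul_nonsing_inv D (Ne.isUnit hD), one_mulVec]
    rw [h2, finrank_top, Module.finrank_fintype_fun_eq_card, Module.finrank_fintype_fun_eq_card,
      hcard] at h1
    omega
  let b := Module.finBasisOfFinrankEq K (LinearMap.ker φ) hrank
  let W : Matrix n (Fin r) K := Matrix.of fun i j => (b j : n → K) i
  have hEW : Eᵀ * S * W = 0 := by
    ext i j
    have h1 : φ (b j) = 0 := (b j).2
    have h2 := congrFun h1 i
    exact h2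
  have hWE : Wᵀ * S * E = 0 := by
    have h1 := congrArg transpose hEW
    rw [transpose_mul, transpose_mul, transpose_transpose, hS.eq, transpose_zero,
      ← Matrix.mul_assoc] at h1
    exact h1
  let M : Matrix n (m ⊕ Fin r) K := Matrix.fromCols E W
  have hMSM : Mᵀ * S * M = osum D (Wᵀ * S * W) := by
    change (Matrix.fromCols E W)ᵀ * S * Matrix.fromCols E W = _
    rw [transpose_fromCols, fromRows_mul, fromRows_mul_fromCols, hE, hEW, hWE, osum]
  have hinj : ∀ x, M *ᵥ x = 0 → x = 0 := by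
    intro x hx
    have h1 : E *ᵥ (fun i => x (Sum.inl i)) + W *ᵥ (fun i => x (Sum.inr i)) = 0 := by
      rw [← hx]
      change _ = (Matrix.fromCols E W) *ᵥ x
      rw [fromCols_mulVec]
      rfl
    have hW : W *ᵥ (fun i => x (Sum.inr i)) =
        ((∑ j, x (Sum.inr j) • b j : LinearMap.ker φ) : n → K) := by
      rw [Submodule.coe_sum]
      funext i
      rw [Finset.sum_apply]
      simp only [W, Matrix.mulVec, dotProduct, of_apply, Submodule.coe_smul, Pi.smul_apply,
        smul_eq_mul]
      exact Finset.sum_congr rfl fun j _ => mul_comm _ _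
    have h2 : D *ᵥ (fun i => x (Sum.inl i)) = 0 := by
      have h3 := congrArg φ h1
      rw [map_add, hφE, hW, (∑ j, x (Sum.inr j) • b j : LinearMap.ker φ).2, map_zero,
        add_zero] at h3
      exact h3
    have h3 : (fun i => x (Sum.inl i)) = 0 := by
      by_contra hne
      exact hD (Matrix.exists_mulVec_eq_zero_iff.1 ⟨_, hne, h2⟩)
    rw [h3, mulVec_zero, zero_add, hW] at h1
    have h4 : ∑ j, x (Sum.inr j) • b j = 0 := Subtype.ext h1
    have h5 := Fintype.linearIndependent_iff.1 b.linearIndependent _ h4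
    funext i
    rcases i with i | i
    · exact congrFun h3 i
    · exact h5 i
  obtain ⟨M', hM1, hM2⟩ := q04_inv (by simp [hcard]) M hinj
  have hcong : Cong S (osum D (Wᵀ * S * W)) := ⟨M, M', hM1, hM2, hMSM⟩
  have hS' : (Wᵀ * S * W).IsSymm := by
    unfold Matrix.IsSymm
    rw [transpose_mul, transpose_mul, transpose_transpose, hS.eq, Matrix.mul_assoc]
  have hdet' : (Wᵀ * S * W).det ≠ 0 := by
    obtain ⟨k, hk0, hk⟩ := hcong.det_eq
    rw [det_osum] at hk
    intro h0
    rw [h0, mul_zero] at hk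
    exact mul_ne_zero hdet (pow_ne_zero 2 hk0) hk.symm
  obtain ⟨u, hu, hcu⟩ := exists_diagonal hS' hdet'
  exact ⟨u, hu, hcong.trans ((Cong.refl _).osum hcu)⟩

end aux

/-- **Job Q04.** Subspaces: a form of rank `n + 2` with two orthogonal vectors of nonzero values.

Proof. `exists_split` twice: first `S ≅ <α> ⊥ <u₁, ..., u_{n+1}>` by an isometry sending `x` to the
first basis vector; alternatively use the orthogonal complement of the span of `x, y`, or
`cong_of_partial`-like arguments, or `QuadraticForm`s. -/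
theorem exists_split_two {K : Type*} [Field K] [CharZero K] {n : ℕ} {a : Fin (n + 2) → K}
    (ha : ∀ i, a i ≠ 0) {x y : Fin (n + 2) → K} {α β : K} (hα : α ≠ 0) (hβ : β ≠ 0)
    (hx : ∑ i, a i * x i ^ 2 = α) (hy : ∑ i, a i * y i ^ 2 = β) (hxy : ∑ i, a i * x i * y i = 0) :
    ∃ u : Fin n → K, (∀ i, u i ≠ 0) ∧ CD a (Sum.elim ![α, β] u) := by
  let E : Matrix (Fin (n + 2)) (Fin 2) K := Matrix.of fun i j => (![x, y] j) i
  have hE : Eᵀ * diagonal a * E = diagonal ![α, β] := by
    ext i j
    rw [Matrix.mul_apply]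
    have h1 : ∀ k, (Eᵀ * diagonal a) i k = (![x, y] i) k * a k := by
      intro k
      rw [Matrix.mul_diagonal]
      rfl
    simp_rw [h1]
    have h2 : ∀ k, E k j = (![x, y] j) k := fun _ => rfl
    simp_rw [h2]
    fin_cases i <;> fin_cases j
    · simp only [Fin.zero_eta, Fin.isValue, cons_val_zero, diagonal_apply_eq]
      rw [← hx]
      exact Finset.sum_congr rfl fun k _ => by ring
    · simp only [Fin.zero_eta, Fin.mk_one, Fin.isValue, cons_val_zero, cons_val_one, ne_eq,
        zero_ne_one, not_false_eq_true, diagonal_apply_ne]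
      rw [← hxy]
      exact Finset.sum_congr rfl fun k _ => by ring
    · simp only [Fin.zero_eta, Fin.mk_one, Fin.isValue, cons_val_zero, cons_val_one, ne_eq,
        one_ne_zero, not_false_eq_true, diagonal_apply_ne]
      rw [← hxy]
      exact Finset.sum_congr rfl fun k _ => by ring
    · simp only [Fin.mk_one, Fin.isValue, cons_val_one, cons_val_fin_one, diagonal_apply_eq]
      rw [← hy]
      exact Finset.sum_congr rfl fun k _ => by ring
  have hD : (diagonal ![α, β] : Matrix (Fin 2) (Fin 2) K).det ≠ 0 := by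
    rw [det_diagonal, Fin.prod_univ_two]
    exact mul_ne_zero hα hβ
  have hS : (diagonal a).det ≠ 0 := by
    rw [det_diagonal]
    exact Finset.prod_ne_zero_iff.2 fun i _ => ha i
  obtain ⟨u, hu, hc⟩ := q04_split (r := n) (by simp [Nat.add_comm]) (diagonal_transpose a) hS hE hD
  refine ⟨u, hu, ?_⟩
  rw [osum_diagonal] at hc
  exact hc

/-- **Job Q04, second part.** A form which is isotropic over `K(√D)` but not over `K` contains
`<μ, -D μ>`.

Proof. Let `z = x + θ y` (`x, y ∈ K^n`; `QExt.gen`) be an isotropic vector over `L`: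
`q(x) + D q(y) = 0`, `b(x, y) = 0` (as `1, θ` are independent over `K`: `D` is not a square). If
`q(y) = 0` then `q(x) = 0` and one of `x`, `y` is not zero, so `a` is isotropic. Otherwise
`β := q(y) ≠ 0`, `q(x) = -D β`, and `exists_split_two`. -/
theorem exists_split_ext {K L : Type*} [Field K] [CharZero K] [Field L] [Algebra K L] {D : K}
    (hD : ¬ IsSquare D) (Q : QExt K L D) {n : ℕ} {a : Fin (n + 2) → K} (ha : ∀ i, a i ≠ 0)
    (h : ¬ Isot a) (hL : Isot fun i => algebraMap K L (a i)) :
    ∃ (μ : K) (u : Fin n → K), μ ≠ 0 ∧ (∀ i, u i ≠ 0) ∧ CD a (Sum.elim ![μ, -(D * μ)] u) := by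
  have hD0 : D ≠ 0 := by
    rintro rfl
    exact hD ⟨0, by ring⟩
  have hinj : Function.Injective (algebraMap K L) := (algebraMap K L).injective
  -- linear independence
  have hli : ∀ A B : K, algebraMap K L A + algebraMap K L B * Q.θ = 0 → A = 0 ∧ B = 0 := by
    intro A B hAB
    have hB : B = 0 := by
      by_contra hB
      have hB' : algebraMap K L B ≠ 0 := fun h => hB (hinj (by rw [h, map_zero]))
      apply hD
      refine ⟨A / B, ?_⟩
      apply hinj
      have h1 : Q.θ = -(algebraMap K L A / algebraMap K L B) := by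
        field_simp
        linear_combination hAB
      have h2 := Q.θ_sq
      rw [h1] at h2
      rw [← h2, map_mul, map_div₀]
      ring
    refine ⟨?_, hB⟩
    rw [hB, map_zero, zero_mul, add_zero] at hAB
    exact hinj (by rw [hAB, map_zero])
  obtain ⟨z, hz0, hz⟩ := hL
  choose x y hxy using fun i => Q.gen (z i)
  have key : algebraMap K L (∑ i, a i * x i ^ 2 + D * ∑ i, a i * y i ^ 2) +
      algebraMap K L (2 * ∑ i, a i * x i * y i) * Q.θ = 0 := by
    rw [← hz]
    simp_rw [hxy]
    rw [map_add, map_mul, map_mul, map_sum, map_sum, map_sum, Finset.mul_sum, Finset.mul_sum,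
      Finset.sum_mul, ← Finset.sum_add_distrib, ← Finset.sum_add_distrib]
    refine Finset.sum_congr rfl fun i _ => ?_
    simp only [map_mul, map_pow]
    rw [← Q.θ_sq, map_ofNat]
    ring
  obtain ⟨k1, k2⟩ := hli _ _ key
  have hb : ∑ i, a i * y i * x i = 0 := by
    have h3 : ∑ i, a i * x i * y i = 0 := (mul_eq_zero.1 k2).resolve_left two_ne_zero
    rw [← h3]
    exact Finset.sum_congr rfl fun i _ => by ring
  have hxy0 : x ≠ 0 ∨ y ≠ 0 := by
    by_contra hcon
    push Not at hcon
    apply hz0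
    funext i
    rw [hxy i, hcon.1, hcon.2]
    simp
  have hqy : ∑ i, a i * y i ^ 2 ≠ 0 := by
    intro h4
    rw [h4, mul_zero, add_zero] at k1
    rcases hxy0 with h5 | h5
    · exact h ⟨x, h5, k1⟩
    · exact h ⟨y, h5, h4⟩
  obtain ⟨u, hu, hc⟩ := exists_split_two ha hqy
    (neg_ne_zero.2 (mul_ne_zero hD0 hqy)) rfl (by linear_combination k1) hb
  exact ⟨_, u, hqy, hu, hc⟩

/-- **Job Q04, third part.** A quaternary form which is isotropic over the quadratic extension
generated by the square root of its discriminant is isotropic.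

Proof. Otherwise `a ≅ <μ, -D μ, u₀, u₁>` with `D = a₀ a₁ a₂ a₃`; comparing determinants
(`Cong.det_eq`), `- D μ² u₀ u₁ = D * square`, so `-(u₀ u₁)` is a square and `<u₀, u₁>` is
isotropic. -/
theorem isot_four_ext {K L : Type*} [Field K] [CharZero K] [Field L] [Algebra K L]
    {a : Fin 4 → K} (ha : ∀ i, a i ≠ 0) (hD : ¬ IsSquare (a 0 * a 1 * a 2 * a 3))
    (Q : QExt K L (a 0 * a 1 * a 2 * a 3)) (h : Isot fun i => algebraMap K L (a i)) : Isot a := by
  by_contra hn
  obtain ⟨μ, u, hμ, hu, hc⟩ := exists_split_ext hD Q ha hn h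
  obtain ⟨c, hc0, hdet⟩ := Cong.det_eq hc
  rw [det_diagonal, det_diagonal, Fintype.prod_sum_type] at hdet
  simp only [Sum.elim_inl, Sum.elim_inr, Fin.prod_univ_two, Fin.isValue,
    cons_val_zero, cons_val_one] at hdet
  have h4 : ∏ i, a i = a 0 * a 1 * a 2 * a 3 := Fin.prod_univ_four a
  have hdet : μ * -(a 0 * a 1 * a 2 * a 3 * μ) * (u 0 * u 1) = a 0 * a 1 * a 2 * a 3 * c ^ 2 := by
    rw [hdet, ← h4]
  set D := a 0 * a 1 * a 2 * a 3 with hDdef
  have hD0 : D ≠ 0 := by
    intro h0
    exact hD ⟨0, by rw [h0]; ring⟩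
  have h1 : -(u 0 * u 1) = (c / μ) ^ 2 := by
    have h2 : D * (-(u 0 * u 1) * μ ^ 2) = D * c ^ 2 := by
      linear_combination hdet
    have h3 := mul_left_cancel₀ hD0 h2
    field_simp
    linear_combination h3
  apply hn
  refine CD.isot hc.symm ?_
  refine Isot.of_comp (Sum.inr : Fin 2 → Fin 2 ⊕ Fin 2) Sum.inr_injective ?_
  refine ⟨![c / μ, u 0], ?_, ?_⟩
  · intro h0
    have := congrFun h0 1
    exact hu 0 this
  · rw [Fin.sum_univ_two]
    simp only [Sum.elim_inr, Fin.isValue, cons_val_zero, cons_val_one]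
    linear_combination (-(u 0)) * h1

end Pool.Agent.Lib.MP_12adaf_nt.HM
end
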