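import Mathlib
import Pool.Agent.Lib.MP_12adaf_nt.TF.OWeak
import Pool.Agent.Lib.MP_12adaf_nt.HM.Q02
import Pool.Agent.Lib.MP_12adaf_nt.OddNF

section

/-!
# Weak approximation for square classes
-/

namespace Pool.Agent.Lib.MP_12adaf_nt.HM

open NumberField IsDedekindDomain IsDedekindDomain.HeightOneSpectrum

variable {k : Type*} [Field k] [NumberField k]

/-- Elements of a completion at a finite place which are close to `1` are squares. -/
private lemma isSquare_near_one_fin (w : HeightOneSpectrum (𝓞 k)) (y : w.adicCompletion k)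
    (hy : ‖y - 1‖ < ‖(4 : w.adicCompletion k)‖) : IsSquare y := by
  have h4 : (4 : w.adicCompletion k) ≠ 0 := by norm_num
  have h4' : 0 < ‖(4 : w.adicCompletion k)‖ := norm_pos_iff.mpr h4
  have hc : ‖(y - 1) / 4‖ < 1 := by
    rw [norm_div, div_lt_one h4']
    exact hy
  obtain ⟨c, hcc⟩ := (norm_le_one_iff w ((y - 1) / 4)).mp hc.le
  have hcm : c ∈ IsLocalRing.maximalIdeal (w.adicCompletionIntegers k) := by
    rw [IsLocalRing.mem_maximalIdeal, mem_nonunits_iff]
    intro hu
    have h1 := (norm_eq_one_iff w ((y - 1) / 4)).mpr ⟨hu.unit, by rw [← hcc]; rfl⟩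
    exact hc.ne h1
  let f : Polynomial (w.adicCompletionIntegers k) :=
    Polynomial.X ^ 2 + Polynomial.X - Polynomial.C c
  have hf : f.Monic := by
    simp only [f]
    monicity!
  obtain ⟨t, ht, -⟩ := HenselianLocalRing.is_henselian f hf 0 (by simpa [f] using hcm)
    (by simp [f])
  have ht' : t ^ 2 + t - c = 0 := by
    simpa [f, Polynomial.IsRoot] using ht
  refine ⟨1 + 2 * algebraMap (w.adicCompletionIntegers k) (w.adicCompletion k) t, ?_⟩
  have h5 := congrArg (algebraMap (w.adicCompletionIntegers k) (w.adicCompletion k)) ht'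
  rw [map_sub, map_add, map_pow, map_zero, hcc] at h5
  field_simp at h5
  linear_combination -h5

/-- Elements of a completion which are close to `1` are squares. -/
private lemma isSquare_near_one (i : Pl k) :
    ∃ ε : ℝ, 0 < ε ∧ ε ≤ 1 ∧ ∀ y : PlC k i, ‖y - 1‖ < ε → IsSquare y := by
  rcases i with v | w
  · refine ⟨1, one_pos, le_rfl, ?_⟩
    intro y hy
    change v.Completion at y
    change ‖(y : v.Completion) - 1‖ < 1 at hy
    change IsSquare (y : v.Completion)
    rcases exists_equiv_real_or_complex v with ⟨e, he⟩ | ⟨e, he⟩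
    · have h1 : |e y - 1| < 1 := by
        rw [← he, map_sub, map_one, Real.norm_eq_abs] at hy
        exact hy
      have h2 : 0 ≤ e y := by
        have := (abs_lt.mp h1).1
        linarith
      have h3 : IsSquare (e y) := ⟨Real.sqrt (e y), (Real.mul_self_sqrt h2).symm⟩
      have h4 := h3.map e.symm
      rwa [RingEquiv.symm_apply_apply] at h4
    · have h3 : IsSquare (e y) := by
        obtain ⟨z, hz⟩ := IsAlgClosed.exists_pow_nat_eq (e y) (n := 2) (by norm_num)
        exact ⟨z, by rw [← hz, sq]⟩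
      have h4 := h3.map e.symm
      rwa [RingEquiv.symm_apply_apply] at h4
  · have h4 : 0 < ‖(4 : w.adicCompletion k)‖ := norm_pos_iff.mpr (by norm_num)
    refine ⟨min 1 ‖(4 : w.adicCompletion k)‖, lt_min one_pos h4, min_le_left _ _, ?_⟩
    intro y hy
    exact isSquare_near_one_fin w y (lt_of_lt_of_le hy (min_le_right _ _))

/-- **Job HM-50.** Weak approximation for square classes: for finitely many distinct places and
nonzero elements `c i` of the completions there is `y ≠ 0` in `k` with `y * c i` a nonzero square in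
`PlC k i`.

Proof. `denseRange_places`; near `(c i)⁻¹`... precisely: `y` close to `c i` has `y / c i` close to
`1`, and elements close to `1` are squares in each completion (real and complex clear; finite:
`openCong_place` for `1 × 1` matrices, or Hensel); then `y * c i = (y / c i) * (c i) ^ 2`. -/
theorem exists_sq_class (S : Finset (Pl k)) (c : ∀ i : Pl k, PlC k i) (hc : ∀ i, c i ≠ 0) :
    ∃ y : k, y ≠ 0 ∧ ∀ i ∈ S, IsSquare (plEmb k i y * c i) := by
  classical
  choose ε hε hε1 hsq using fun i : Pl k => isSquare_near_one i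
  rcases S.eq_empty_or_nonempty with rfl | hS
  · exact ⟨1, one_ne_zero, by simp⟩
  obtain ⟨i₀, hi₀⟩ := hS
  let f : {i // i ∈ S} → Pl k := Subtype.val
  have hf : Function.Injective f := Subtype.val_injective
  have hpos : ∀ i : Pl k, 0 < ε i * ‖c i‖ := fun i => mul_pos (hε i) (norm_pos_iff.mpr (hc i))
  obtain ⟨δ, hδ, hδle⟩ : ∃ δ : ℝ, 0 < δ ∧ ∀ i ∈ S, δ ≤ ε i * ‖c i‖ := by
    obtain ⟨j, hj, hmin⟩ := S.exists_min_image (fun i => ε i * ‖c i‖) ⟨i₀, hi₀⟩
    exact ⟨ε j * ‖c j‖, hpos j, hmin⟩
  obtain ⟨q, hq⟩ := (denseRange_places k f hf).exists_dist_lt (fun i => c (f i)) hδ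
  rw [dist_pi_lt_iff hδ] at hq
  have hclose : ∀ i ∈ S, ‖plEmb k i q / c i - 1‖ < ε i := by
    intro i hi
    have h1 := hq ⟨i, hi⟩
    rw [dist_comm, dist_eq_norm] at h1
    have h2 : ‖plEmb k i q - c i‖ < ε i * ‖c i‖ := lt_of_lt_of_le h1 (hδle i hi)
    have h3 : plEmb k i q / c i - 1 = (plEmb k i q - c i) / c i := by
      rw [sub_div, div_self (hc i)]
    rw [h3, norm_div, div_lt_iff₀ (norm_pos_iff.mpr (hc i))]
    exact h2
  refine ⟨q, ?_, ?_⟩
  · rintro rfl
    have h1 := hclose i₀ hi₀
    rw [map_zero, zero_div, zero_sub, norm_neg, norm_one] at h1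
    exact absurd (hε1 i₀) (not_le.mpr h1)
  · intro i hi
    obtain ⟨s, hs⟩ := hsq i _ (hclose i hi)
    refine ⟨s * c i, ?_⟩
    have h1 : plEmb k i q = s * s * c i := by
      rw [← hs, div_mul_cancel₀ _ (hc i)]
    rw [h1]
    ring

end Pool.Agent.Lib.MP_12adaf_nt.HM
end

section

section

/-!
# Isotropic forms over Henselian rings of odd residue characteristic
-/

namespace Pool.Agent.Lib.MP_12adaf_nt.HM

open IsLocalRing

section DVR

variable {O K : Type*} [CommRing O] [IsDomain O] [IsDiscreteValuationRing O]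
  [HenselianLocalRing O] [Finite (ResidueField O)] [Field K] [Algebra O K] [IsFractionRing O K]

private lemma q06_sol (h2 : IsUnit (2 : O)) (u v w : Oˣ) :
    ∃ x y : O, (x ≠ 0 ∨ y ≠ 0) ∧ (u : O) * x ^ 2 + (v : O) * y ^ 2 + (w : O) = 0 := by
  classical
  have hfin : Fintype (ResidueField O) := Fintype.ofFinite _
  have hr2 : (2 : ResidueField O) ≠ 0 := by
    have h := (residue_ne_zero_iff_isUnit (2 : O)).2 h2
    rwa [map_ofNat] at h
  have hodd : Fintype.card (ResidueField O) % 2 = 1 := by
    apply FiniteField.odd_card_of_char_ne_two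
    intro hc
    apply hr2
    have h := CharP.cast_eq_zero (ResidueField O) (ringChar (ResidueField O))
    rw [hc] at h
    exact_mod_cast h
  have hru : ∀ t : Oˣ, residue O (t : O) ≠ 0 := fun t =>
    (residue_ne_zero_iff_isUnit _).2 t.isUnit
  -- a solution in the residue field
  obtain ⟨α, β, hαβ⟩ : ∃ α β : ResidueField O, residue O (u : O) * α ^ 2 +
      residue O (v : O) * β ^ 2 + residue O (w : O) = 0 := by
    obtain ⟨α, β, h⟩ := FiniteField.exists_root_sum_quadratic
      (f := Polynomial.C (residue O (u : O)) * Polynomial.X ^ 2 +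
        Polynomial.C 0 * Polynomial.X + Polynomial.C 0)
      (g := Polynomial.C (residue O (v : O)) * Polynomial.X ^ 2 +
        Polynomial.C 0 * Polynomial.X + Polynomial.C (residue O (w : O)))
      (Polynomial.degree_quadratic (hru u)) (Polynomial.degree_quadratic (hru v)) hodd
    refine ⟨α, β, ?_⟩
    simp only [Polynomial.eval_add, Polynomial.eval_mul, Polynomial.eval_C, Polynomial.eval_pow,
      Polynomial.eval_X, zero_mul, add_zero] at h
    linear_combination h
  -- lifting
  have lift : ∀ (u v : Oˣ) (α β : ResidueField O), α ≠ 0 → residue O (u : O) * α ^ 2 +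
      residue O (v : O) * β ^ 2 + residue O (w : O) = 0 →
      ∃ x y : O, x ≠ 0 ∧ (u : O) * x ^ 2 + (v : O) * y ^ 2 + (w : O) = 0 := by
    intro u v α β hα h
    obtain ⟨y, rfl⟩ := residue_surjective (R := O) β
    have hres : residue O (-((v : O) * y ^ 2 + w) * (u⁻¹ : Oˣ)) = α ^ 2 := by
      have hinv : residue O (u : O) * residue O ((u⁻¹ : Oˣ) : O) = 1 := by
        rw [← map_mul, Units.mul_inv, map_one]
      rw [map_mul, map_neg, map_add, map_mul, map_pow]
      linear_combination (-(residue O ((u⁻¹ : Oˣ) : O))) * h + α ^ 2 * hinv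
    have hunit : IsUnit (-((v : O) * y ^ 2 + w) * (u⁻¹ : Oˣ)) := by
      rw [← residue_ne_zero_iff_isUnit, hres]
      exact pow_ne_zero 2 hα
    obtain ⟨t, ht⟩ := hunit
    obtain ⟨s, hs⟩ := isSquare_of_residue h2 t (by rw [ht, hres]; exact ⟨α, by ring⟩)
    refine ⟨s, y, ?_, ?_⟩
    · rintro rfl
      exact t.ne_zero (by rw [hs]; ring)
    · have h3 : s ^ 2 = -((v : O) * y ^ 2 + w) * (u⁻¹ : Oˣ) := by rw [← ht, hs]; ring
      rw [h3]
      have := Units.mul_inv u
      linear_combination (-((v : O) * y ^ 2 + w)) * this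
  by_cases hα : α = 0
  · have hβ : β ≠ 0 := by
      rintro rfl
      rw [hα] at hαβ
      apply hru w
      linear_combination hαβ
    obtain ⟨x, y, hx, h⟩ := lift v u β α hβ (by linear_combination hαβ)
    exact ⟨y, x, Or.inr hx, by linear_combination h⟩
  · obtain ⟨x, y, hx, h⟩ := lift u v α β hα hαβ
    exact ⟨x, y, Or.inl hx, h⟩

/-- **Job Q06.** Ternary forms with unit coefficients are isotropic, odd residue characteristic.

Proof. In the finite residue field the conic `ū₀ x² + ū₁ y² + ū₂ = 0` has a solution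
(`FiniteField.exists_root_sum_quadratic` or Chevalley-Warning). Lift `x, y` to `O`; not both
are in the maximal ideal (`u₂` is a unit), say `x` is a unit (the other case is symmetric):
`-(u₁ y² + u₂) / u₀` is a unit with square residue `x̄²`, so it is a square (HM-11). -/
theorem isot_units (h2 : IsUnit (2 : O)) (u : Fin 3 → Oˣ) :
    Isot fun i => algebraMap O K (u i : O) := by
  obtain ⟨x, y, -, h⟩ := q06_sol h2 (u 0) (u 1) (u 2)
  refine ⟨![algebraMap O K x, algebraMap O K y, 1], ?_, ?_⟩
  · intro h0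
    exact one_ne_zero (congrFun h0 2)
  · rw [Fin.sum_univ_three]
    simp only [Fin.isValue, Matrix.cons_val_zero, Matrix.cons_val_one, Matrix.cons_val]
    have h3 := congrArg (algebraMap O K) h
    simp only [map_add, map_mul, map_pow, map_zero] at h3
    linear_combination h3

/-- **Job Q06, second part.** Forms of rank `≥ 5` with nonzero coefficients are isotropic.

Proof. Every coefficient is `p ^ n * unit` (HM-10); among five coefficients three have valuations
of the same parity; that subform is, up to squares, a multiple (by `1` or `p`) of a ternary form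
with unit coefficients. -/
theorem isot_five (h2 : IsUnit (2 : O)) {ι : Type*} [Fintype ι] (hι : 5 ≤ Fintype.card ι)
    (a : ι → K) (ha : ∀ i, a i ≠ 0) : Isot a := by
  classical
  obtain ⟨p, hp⟩ := IsDiscreteValuationRing.exists_irreducible O
  have hinj : Function.Injective (algebraMap O K) := IsFractionRing.injective O K
  have hp0 : algebraMap O K p ≠ 0 := fun h => hp.ne_zero (hinj (by rw [h, map_zero]))
  choose n hn using fun i => exists_hasOrd (K := K) hp (ha i)
  choose u hu using hn
  -- three coefficients with valuations of the same parity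
  obtain ⟨ε, hε⟩ : ∃ ε : Bool, 2 < (Finset.univ.filter fun i => decide (n i % 2 = 0) = ε).card := by
    by_contra hcon
    push Not at hcon
    have h1 := hcon true
    have h3 := hcon false
    have h4 : (Finset.univ.filter fun i => decide (n i % 2 = 0) = true).card +
        (Finset.univ.filter fun i => decide (n i % 2 = 0) = false).card = Fintype.card ι := by
      rw [← Finset.card_univ, ← Finset.card_filter_add_card_filter_not
        (s := (Finset.univ : Finset ι)) (p := fun i => decide (n i % 2 = 0) = true)]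
      congr 2
      ext i
      simp
    omega
  obtain ⟨f, hf⟩ : ∃ f : Fin 3 → ι, Function.Injective f ∧
      ∀ j, decide (n (f j) % 2 = 0) = ε := by
    obtain ⟨T, hT, hTc⟩ := Finset.exists_subset_card_eq (n := 3) hε
    let e := T.equivFinOfCardEq hTc
    refine ⟨fun j => (e.symm j : ι), ?_, ?_⟩
    · intro i j hij
      exact e.symm.injective (Subtype.ext hij)
    · intro j
      have h1 := hT (e.symm j).2
      exact (Finset.mem_filter.1 h1).2
  obtain ⟨hfi, hfe⟩ := hf
  obtain ⟨c, m, hm⟩ : ∃ (c : ℤ) (m : Fin 3 → ℤ), ∀ j, n (f j) = c + (m j + m j) := by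
    cases ε with
    | true =>
      refine ⟨0, fun j => n (f j) / 2, fun j => ?_⟩
      have h1 := of_decide_eq_true (hfe j)
      show n (f j) = 0 + (n (f j) / 2 + n (f j) / 2)
      omega
    | false =>
      refine ⟨1, fun j => n (f j) / 2, fun j => ?_⟩
      have h1 := of_decide_eq_false (hfe j)
      show n (f j) = 1 + (n (f j) / 2 + n (f j) / 2)
      omega
  refine Isot.of_comp f hfi ?_
  obtain ⟨x, hx0, hx⟩ := isot_units (K := K) h2 fun j => u (f j)
  refine ⟨fun j => x j * (algebraMap O K p ^ m j)⁻¹, ?_, ?_⟩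
  · intro h0
    apply hx0
    funext j
    have h1 := congrFun h0 j
    simp only [Pi.zero_apply, mul_eq_zero, inv_eq_zero] at h1
    rcases h1 with h1 | h1
    · exact h1
    · exact absurd h1 (zpow_ne_zero _ hp0)
  · have h5 : ∀ j, a (f j) * (x j * (algebraMap O K p ^ m j)⁻¹) ^ 2 =
        algebraMap O K p ^ c * (algebraMap O K (u (f j) : O) * x j ^ 2) := by
      intro j
      have h6 : algebraMap O K p ^ m j ≠ 0 := zpow_ne_zero _ hp0
      rw [hu (f j), hm j, zpow_add₀ hp0, zpow_add₀ hp0]
      field_simp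
    rw [Finset.sum_congr rfl fun j _ => h5 j, ← Finset.mul_sum, hx, mul_zero]

end DVR

end Pool.Agent.Lib.MP_12adaf_nt.HM
end

section

/-!
# Isotropic forms at the finite places
-/

namespace Pool.Agent.Lib.MP_12adaf_nt.HM

open NumberField IsDedekindDomain IsDedekindDomain.HeightOneSpectrum TF Matrix

variable {k : Type*} [Field k] [NumberField k]

/-- **Job Q07.** Forms with at least three unit coefficients are isotropic at odd places. -/
theorem isot_fin_three {w : HeightOneSpectrum (𝓞 k)} (h2 : w.valuation k 2 = 1)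
    (u : Fin 3 → w.adicCompletion k) (hu : ∀ i, ‖u i‖ = 1) : Isot u := by
  choose v hv using fun i => (norm_eq_one_iff w (u i)).1 (hu i)
  have h := isot_units (O := w.adicCompletionIntegers k) (K := w.adicCompletion k)
    (isUnit_two_fin h2) v
  have he : u = fun i => algebraMap (w.adicCompletionIntegers k) (w.adicCompletion k) (v i) :=
    funext hv
  rw [he]
  exact h

/-- Forms of rank at least five are isotropic at odd places. (Same job.) -/
theorem isot_fin_five {w : HeightOneSpectrum (𝓞 k)} (h2 : w.valuation k 2 = 1) {ι : Type*}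
    [Fintype ι] (hι : 5 ≤ Fintype.card ι) (a : ι → w.adicCompletion k) (ha : ∀ i, a i ≠ 0) :
    Isot a :=
  isot_five (O := w.adicCompletionIntegers k) (K := w.adicCompletion k)
    (isUnit_two_fin h2) hι a ha

end Pool.Agent.Lib.MP_12adaf_nt.HM
end

section

/-!
# Hasse-Minkowski: the induction step
-/

namespace Pool.Agent.Lib.MP_12adaf_nt.HM

open NumberField IsDedekindDomain IsDedekindDomain.HeightOneSpectrum TF Matrix

variable {k : Type*} [Field k] [NumberField k]

/-- The local part: a value of the binary subform and its negative. -/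
private lemma q08_local {K : Type*} [Field K] (h2 : (2 : K) ≠ 0) {n : ℕ} (hn : 0 < n)
    {c : Fin (n + 2) → K} (hc : ∀ i, c i ≠ 0) (h : Isot c) :
    ∃ x y : K, c 0 * x ^ 2 + c 1 * y ^ 2 ≠ 0 ∧
      Reps (fun j : Fin n => c j.succ.succ) (-(c 0 * x ^ 2 + c 1 * y ^ 2)) := by
  classical
  obtain ⟨z, hz, hq⟩ := h
  rw [Fin.sum_univ_succ, Fin.sum_univ_succ] at hq
  have h01 : (Fin.succ 0 : Fin (n + 2)) = 1 := rfl
  rw [h01] at hq
  by_cases ht : c 0 * z 0 ^ 2 + c 1 * z 1 ^ 2 = 0
  · by_cases hz0 : z 0 = 0 ∧ z 1 = 0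
    · refine ⟨1, 0, ?_, ?_⟩
      · have h0 := hc 0
        simpa using h0
      · apply Isot.reps h2 (fun j => hc _)
        refine ⟨fun j => z j.succ.succ, ?_, ?_⟩
        · intro h1
          apply hz
          funext j
          refine Fin.cases hz0.1 (fun j => ?_) j
          refine Fin.cases hz0.2 (fun j => ?_) j
          exact congrFun h1 j
        · linear_combination hq - ht
    · have hi : Isot (![c 0, c 1] : Fin 2 → K) := by
        refine ⟨![z 0, z 1], ?_, ?_⟩
        · intro h1
          exact hz0 ⟨congrFun h1 0, congrFun h1 1⟩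
        · rw [Fin.sum_univ_two]
          exact ht
      have hne : ∀ i, (![c 0, c 1] : Fin 2 → K) i ≠ 0 := by
        intro i
        fin_cases i
        · exact hc 0
        · exact hc 1
      obtain ⟨u, hu⟩ := hi.reps h2 hne (-(c (⟨0, hn⟩ : Fin n).succ.succ))
      rw [Fin.sum_univ_two] at hu
      have hu' : c 0 * u 0 ^ 2 + c 1 * u 1 ^ 2 = -(c (⟨0, hn⟩ : Fin n).succ.succ) := hu
      refine ⟨u 0, u 1, ?_, ?_⟩
      · rw [hu']
        exact neg_ne_zero.mpr (hc _)
      · rw [hu', neg_neg]
        refine ⟨fun j => if j = ⟨0, hn⟩ then 1 else 0, ?_⟩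
        have e : ∀ j : Fin n, c j.succ.succ * (if j = ⟨0, hn⟩ then (1 : K) else 0) ^ 2 =
            if j = ⟨0, hn⟩ then c j.succ.succ else 0 := by
          intro j
          split_ifs <;> ring
        rw [Finset.sum_congr rfl fun j _ => e j, Finset.sum_ite_eq' Finset.univ]
        simp
  · refine ⟨z 0, z 1, ht, fun j => z j.succ.succ, ?_⟩
    linear_combination hq

/-- Elements near a nonzero element are in its square class. -/
private lemma q08_near (i : Pl k) {t : PlC k i} (ht : t ≠ 0) :
    ∃ δ : ℝ, 0 < δ ∧ ∀ t' : PlC k i, ‖t' - t‖ < δ → ∃ s : PlC k i, s ≠ 0 ∧ t' = t * s ^ 2 := by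
  obtain ⟨δ, hδ, H⟩ := openCong_place i 1 !![t] (by ext a b; fin_cases a; fin_cases b; rfl)
    (by rw [det_fin_one_of]; exact ht) 1 one_pos
  refine ⟨δ, hδ, fun t' ht' => ?_⟩
  obtain ⟨Y, hY, hYS⟩ := H !![t'] (by ext a b; fin_cases a; fin_cases b; rfl) (by
    intro a b
    fin_cases a
    fin_cases b
    exact ht')
  refine ⟨Y 0 0, ?_, ?_⟩
  · intro h0
    have h1 := hY 0 0
    rw [h0, one_apply_eq, zero_sub, norm_neg, norm_one] at h1
    exact lt_irrefl _ h1
  · have h1 := congrFun (congrFun hYS 0) 0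
    simp only [mul_apply, Fin.sum_univ_one, transpose_apply, of_apply, cons_val_fin_one] at h1
    linear_combination -h1

/-- The binary form is continuous. -/
private lemma q08_cont {K : Type*} [NormedField K] (a b x y : K) {δ : ℝ} (hδ : 0 < δ) :
    ∃ ε : ℝ, 0 < ε ∧ ∀ x' y' : K, ‖x' - x‖ < ε → ‖y' - y‖ < ε →
      ‖(a * x' ^ 2 + b * y' ^ 2) - (a * x ^ 2 + b * y ^ 2)‖ < δ := by
  have hc : ContinuousAt (fun p : K × K => a * p.1 ^ 2 + b * p.2 ^ 2) (x, y) := by
    apply Continuous.continuousAt
    fun_prop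
  obtain ⟨ε, hε, H⟩ := Metric.continuousAt_iff.mp hc δ hδ
  refine ⟨ε, hε, fun x' y' hx hy => ?_⟩
  have h1 : dist ((x', y') : K × K) (x, y) < ε := by
    rw [Prod.dist_eq, max_lt_iff, dist_eq_norm, dist_eq_norm]
    exact ⟨hx, hy⟩
  have h3 := H h1
  rw [dist_eq_norm] at h3
  exact h3

/-- Simultaneous approximation. -/
private lemma q08_approx (S : Finset (Pl k)) (ε : Pl k → ℝ) (hε : ∀ i, 0 < ε i)
    (c : ∀ i : Pl k, PlC k i) : ∃ q : k, ∀ i ∈ S, ‖plEmb k i q - c i‖ < ε i := by
  classical
  rcases S.eq_empty_or_nonempty with rfl | hS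
  · exact ⟨0, by simp⟩
  let f : {i // i ∈ S} → Pl k := Subtype.val
  have hf : Function.Injective f := Subtype.val_injective
  obtain ⟨δ, hδ, hδle⟩ : ∃ δ : ℝ, 0 < δ ∧ ∀ i ∈ S, δ ≤ ε i := by
    obtain ⟨j, hj, hmin⟩ := S.exists_min_image ε hS
    exact ⟨ε j, hε j, hmin⟩
  obtain ⟨q, hq⟩ := (denseRange_places k f hf).exists_dist_lt (fun i => c (f i)) hδ
  rw [dist_pi_lt_iff hδ] at hq
  refine ⟨q, fun i hi => ?_⟩
  have h1 := hq ⟨i, hi⟩
  rw [dist_comm, dist_eq_norm] at h1
  exact lt_of_lt_of_le h1 (hδle i hi)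

/-- **Job Q08.** From rank `n + 1` to rank `n + 2`, `n ≥ 3`.

Proof. Let `a = (a₀, a₁, a₂, ..., a_{n+1})`. Let `S` be the finite set of places: the infinite ones,
those with `2` or some `a_j` not a unit. For `i ∈ S` there is `t i ≠ 0` in `PlC k i`, represented by
`<a₀, a₁>` at `(x_i, y_i)` and such that `<a₂, ..., a_{n+1}>` represents `-(t i)`: from an isotropic
vector `z` put `t := a₀ z₀² + a₁ z₁²`; if `t = 0` and `(z₀, z₁) ≠ 0` then `<a₀, a₁>` is universal
(`Isot.reps`), take `t := -a₂`; if `t = 0` and `(z₀, z₁) = 0` then `<a₂, ...>` is isotropic, hence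
universal; take `t := a₀`. By weak approximation (`denseRange_places`) choose `x, y ∈ k` so close to
`x_i, y_i` (`i ∈ S`) that `t := a₀ x² + a₁ y²` is not zero and `t / t i` is a (nonzero) square in
`PlC k i` for `i ∈ S` (elements close to `1` are squares: `exists_sq_class` gives a template).
The form `<t, a₂, ..., a_{n+1}>` of rank `n + 1` is isotropic at all places: at `i ∈ S` as
`-t = -(t i) * square` is represented by `<a₂, ...>`; at the others by `isot_fin_three` for three of
the `a_j`, `j ≥ 2` (`n ≥ 3`). So it is isotropic over `k`: `t s² + q' = 0`; substitute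
`x₀ = x s, x₁ = y s`. -/
theorem hm_step {n : ℕ} (hn : 3 ≤ n)
    (ih : ∀ b : Fin (n + 1) → k, (∀ i, b i ≠ 0) → (∀ i : Pl k, Isot fun j => plEmb k i (b j)) →
      Isot b) {a : Fin (n + 2) → k} (ha : ∀ i, a i ≠ 0)
    (h : ∀ i : Pl k, Isot fun j => plEmb k i (a j)) : Isot a := by
  classical
  -- the local values
  have hloc : ∀ i : Pl k, ∃ x y : PlC k i, plEmb k i (a 0) * x ^ 2 + plEmb k i (a 1) * y ^ 2 ≠ 0 ∧
      Reps (fun j : Fin n => plEmb k i (a j.succ.succ))
        (-(plEmb k i (a 0) * x ^ 2 + plEmb k i (a 1) * y ^ 2)) := fun i =>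
    q08_local (c := fun j => plEmb k i (a j)) two_ne_zero (by omega)
      (fun j => (map_ne_zero _).mpr (ha j)) (h i)
  choose X Y ht hr using hloc
  choose δ hδ hsq using fun i => q08_near i (ht i)
  choose ε hε hcont using fun i => q08_cont (plEmb k i (a 0)) (plEmb k i (a 1)) (X i) (Y i) (hδ i)
  -- the finite set of places
  let T : Finset (HeightOneSpectrum (𝓞 k)) :=
    (finite_valuation_ne_one (two_ne_zero : (2 : k) ≠ 0)).toFinset ∪
      Finset.univ.biUnion fun j => (finite_valuation_ne_one (ha j)).toFinset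
  have hT2 : ∀ w ∉ T, w.valuation k 2 = 1 := by
    intro w hw
    by_contra hne
    exact hw (by simp [T, hne])
  have hTa : ∀ w ∉ T, ∀ j, w.valuation k (a j) = 1 := by
    intro w hw j
    by_contra hne
    apply hw
    refine Finset.mem_union_right _ (Finset.mem_biUnion.mpr ⟨j, Finset.mem_univ _, ?_⟩)
    rw [Set.Finite.mem_toFinset]
    exact hne
  obtain ⟨x, hx⟩ := q08_approx (SP k T) ε hε X
  obtain ⟨y, hy⟩ := q08_approx (SP k T) ε hε Y
  have hS : ∀ i ∈ SP k T, ∃ s : PlC k i, s ≠ 0 ∧ plEmb k i (a 0 * x ^ 2 + a 1 * y ^ 2) =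
      (plEmb k i (a 0) * X i ^ 2 + plEmb k i (a 1) * Y i ^ 2) * s ^ 2 := by
    intro i hi
    apply hsq i
    rw [map_add, map_mul, map_mul, map_pow, map_pow]
    exact hcont i _ _ (hx i hi) (hy i hi)
  have ht0 : a 0 * x ^ 2 + a 1 * y ^ 2 ≠ 0 := by
    intro h0
    obtain ⟨v⟩ := (inferInstance : Nonempty (InfinitePlace k))
    obtain ⟨s, hs, h1⟩ := hS (Sum.inl v) (mem_SP_inl T v)
    rw [h0, map_zero] at h1
    exact mul_ne_zero (ht _) (pow_ne_zero _ hs) h1.symm
  -- the smaller form
  have key : Isot (Fin.cons (a 0 * x ^ 2 + a 1 * y ^ 2) (fun j : Fin n => a j.succ.succ) :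
      Fin (n + 1) → k) := by
    apply ih
    · intro j
      refine Fin.cases ?_ (fun j => ?_) j
      · rw [Fin.cons_zero]
        exact ht0
      · rw [Fin.cons_succ]
        exact ha _
    · intro i
      have e : (fun j => plEmb k i ((Fin.cons (a 0 * x ^ 2 + a 1 * y ^ 2)
          (fun j : Fin n => a j.succ.succ) : Fin (n + 1) → k) j)) =
          (Fin.cons (plEmb k i (a 0 * x ^ 2 + a 1 * y ^ 2))
            (fun j : Fin n => plEmb k i (a j.succ.succ)) : Fin (n + 1) → PlC k i) := by
        funext j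
        refine Fin.cases ?_ (fun j => ?_) j
        · rw [Fin.cons_zero, Fin.cons_zero]
        · rw [Fin.cons_succ, Fin.cons_succ]
      rw [e]
      by_cases hi : i ∈ SP k T
      · obtain ⟨s, hs, h1⟩ := hS i hi
        obtain ⟨z, hz⟩ := hr i
        have h2 : Reps (fun j : Fin n => plEmb k i (a j.succ.succ))
            (-(plEmb k i (a 0 * x ^ 2 + a 1 * y ^ 2))) := by
          refine ⟨fun j => z j * s, ?_⟩
          have e2 : ∀ j : Fin n, plEmb k i (a j.succ.succ) * (z j * s) ^ 2 =
              plEmb k i (a j.succ.succ) * z j ^ 2 * s ^ 2 := by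
            intro j
            ring
          rw [Finset.sum_congr rfl fun j _ => e2 j, ← Finset.sum_mul, hz, h1]
          ring
        have h3 := isot_of_reps h2
        rwa [neg_neg] at h3
      · rcases i with v | w
        · exact absurd (mem_SP_inl T v) hi
        · rw [mem_SP_inr] at hi
          have h3 : Isot (fun l : Fin 3 =>
              algebraMap k (w.adicCompletion k) (a (Fin.castLE hn l).succ.succ)) := by
            apply isot_fin_three (hT2 w hi)
            intro l
            rw [← valuation_eq_one_iff]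
            exact hTa w hi _
          apply Isot.of_comp (fun l : Fin 3 => (Fin.castLE hn l).succ)
          · intro l l' hl
            exact Fin.castLE_injective hn (Fin.succ_injective _ hl)
          · exact h3
  obtain ⟨z, hz, hq⟩ := key
  rw [Fin.sum_univ_succ] at hq
  simp only [Fin.cons_zero, Fin.cons_succ] at hq
  refine ⟨Fin.cons (x * z 0) (Fin.cons (y * z 0) (fun j : Fin n => z j.succ)), ?_, ?_⟩
  · intro h0
    have h1 : x * z 0 = 0 := congrFun h0 0
    have h2 : y * z 0 = 0 := congrFun h0 1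
    have hz0 : z 0 = 0 := by
      by_contra hne
      have hx0 : x = 0 := (mul_eq_zero.mp h1).resolve_right hne
      have hy0 : y = 0 := (mul_eq_zero.mp h2).resolve_right hne
      apply ht0
      rw [hx0, hy0]
      ring
    apply hz
    funext j
    refine Fin.cases hz0 (fun j => ?_) j
    exact congrFun h0 j.succ.succ
  · rw [Fin.sum_univ_succ, Fin.sum_univ_succ]
    simp only [Fin.cons_zero, Fin.cons_succ]
    have h01 : (Fin.succ 0 : Fin (n + 2)) = 1 := rfl
    rw [h01]
    linear_combination hq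

end Pool.Agent.Lib.MP_12adaf_nt.HM
end
end
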