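import Mathlib
import Pool.Agent.Lib.MP_12adaf_nt.HM.Basic
import Pool.Agent.Lib.MP_12adaf_nt.HM.Q02
import Pool.Agent.Lib.MP_12adaf_nt.TF.OWeak

section

/-!
# The unramified quadratic extension
-/

namespace Pool.Agent.Lib.MP_12adaf_nt.HM

open IsLocalRing

section DVR

variable {O K : Type*} [CommRing O] [IsDomain O] [IsDiscreteValuationRing O]
  [HenselianLocalRing O] [Finite (ResidueField O)] [Field K] [Algebra O K] [IsFractionRing O K]

/-- **Job HM-15.** The constant of the unramified quadratic extension: there is `r` such that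
`X ^ 2 + X - r` has no root modulo the maximal ideal.

Proof. `x ↦ x ^ 2 + x` takes the same value `0` at `0` and `-1`, so it is not injective on the
finite residue field, hence not surjective. -/
theorem exists_unram : ∃ r : O, ∀ x : ResidueField O, x ^ 2 + x ≠ residue O r := by
  classical
  have hinj : ¬ Function.Injective (fun x : ResidueField O => x ^ 2 + x) := by
    intro h
    have h1 : (0 : ResidueField O) = -1 := h (by simp)
    exact (neg_ne_zero.mpr (one_ne_zero (α := ResidueField O))) h1.symm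
  have hsurj : ¬ Function.Surjective (fun x : ResidueField O => x ^ 2 + x) := fun h =>
    hinj (Finite.injective_iff_surjective.mpr h)
  rw [Function.Surjective] at hsurj
  push Not at hsurj
  obtain ⟨y, hy⟩ := hsurj
  obtain ⟨r, hr⟩ := residue_surjective y
  exact ⟨r, fun x hx => hy x (by rw [← hr]; exact hx)⟩

end DVR

end Pool.Agent.Lib.MP_12adaf_nt.HM
end

section

/-!
# The index of the squares at an infinite place
-/

namespace Pool.Agent.Lib.MP_12adaf_nt.HM

open NumberField IsDedekindDomain IsDedekindDomain.HeightOneSpectrum IsLocalRing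

variable {k : Type*} [Field k] [NumberField k]

private theorem h27_equiv {M N : Type*} [CommGroup M] [CommGroup N] (e : M ≃* N) :
    sqI M = sqI N := by
  have h : (powMonoidHom 2 : N →* N).range =
      (powMonoidHom 2 : M →* M).range.map (e : M →* N) := by
    ext x
    constructor
    · rintro ⟨y, rfl⟩
      refine ⟨(e.symm y) ^ 2, ⟨e.symm y, rfl⟩, ?_⟩
      simp
    · rintro ⟨y, ⟨z, rfl⟩, rfl⟩
      exact ⟨e z, by simp⟩
  rw [sqI, sqI, h, Subgroup.index_map_equiv]

private theorem h27_real : sqI ℝˣ = 2 := by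
  rw [sqI, Subgroup.index_eq_two_iff]
  refine ⟨-1, fun b => ?_⟩
  rw [mem_range_pow_two, mem_range_pow_two, Real.isSquare_iff, Real.isSquare_iff]
  have hb : (b : ℝ) ≠ 0 := b.ne_zero
  have e : ((b * -1 : ℝˣ) : ℝ) = -b := by simp
  rw [e]
  rcases lt_or_gt_of_ne hb with h | h
  · exact Or.inl ⟨by linarith, by linarith⟩
  · exact Or.inr ⟨by linarith, by linarith⟩

private theorem h27_complex : sqI ℂˣ = 1 := by
  rw [sqI, Subgroup.index_eq_one, Subgroup.eq_top_iff']
  intro x
  rw [mem_range_pow_two]
  obtain ⟨z, hz⟩ := IsAlgClosed.exists_pow_nat_eq (x : ℂ) (n := 2) (by norm_num)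
  exact ⟨z, by rw [← hz]; ring⟩

/-- **Job HM-27.** The index of the squares at the infinite places: `2` at the real ones and `1` at
the complex ones. -/
theorem sqI_inf (v : InfinitePlace k) :
    (v.IsReal → sqI (v.Completion)ˣ = 2) ∧ (v.IsComplex → sqI (v.Completion)ˣ = 1) := by
  constructor
  · intro h
    rw [h27_equiv (Units.mapEquiv
      (InfinitePlace.Completion.ringEquivRealOfIsReal h).toMulEquiv), h27_real]
  · intro h
    rw [h27_equiv (Units.mapEquiv
      (InfinitePlace.Completion.ringEquivComplexOfIsComplex h).toMulEquiv), h27_complex]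

end Pool.Agent.Lib.MP_12adaf_nt.HM
end

section

/-!
# The index of the squares of the units
-/

namespace Pool.Agent.Lib.MP_12adaf_nt.HM

open IsLocalRing

section DVR

variable {O K : Type*} [CommRing O] [IsDomain O] [IsDiscreteValuationRing O]
  [HenselianLocalRing O] [Finite (ResidueField O)] [Field K] [Algebra O K] [IsFractionRing O K]

omit [Finite (ResidueField O)] in
private lemma h19_dvd_iff {p : O} (hp : Irreducible p) (x : O) :
    p ∣ x ↔ residue O x = 0 := by
  rw [residue_eq_zero_iff, hp.maximalIdeal_eq, Ideal.mem_span_singleton]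

omit [Finite (ResidueField O)] in
private lemma h19_isUnit {p : O} (hp : Irreducible p) {x : O} (h : p ∣ x) : IsUnit (1 + x) := by
  have h1 : residue O (1 + x) = 1 := by rw [map_add, (h19_dvd_iff hp x).1 h, map_one, add_zero]
  have h2 : residue O (1 + x) ≠ 0 := by rw [h1]; exact one_ne_zero
  exact (residue_ne_zero_iff_isUnit _).1 h2

/-- the higher unit groups -/
private def h19U (p : O) (m : ℕ) : Subgroup Oˣ where
  carrier := {u | p ^ m ∣ (u : O) - 1}
  mul_mem' := by
    intro u v hu hv
    rw [Set.mem_ofPred_eq] at *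
    have h : ((u * v : Oˣ) : O) - 1 = ((u : O) - 1) * v + ((v : O) - 1) := by
      rw [Units.val_mul]; ring
    rw [h]
    exact dvd_add (Dvd.dvd.mul_right hu _) hv
  one_mem' := by
    rw [Set.mem_ofPred_eq, Units.val_one, sub_self]
    exact dvd_zero _
  inv_mem' := by
    intro u hu
    rw [Set.mem_ofPred_eq] at *
    have h : ((u⁻¹ : Oˣ) : O) - 1 = -(((u : O) - 1) * (u⁻¹ : Oˣ)) := by
      have := Units.mul_inv u
      linear_combination this
    rw [h]
    exact (Dvd.dvd.mul_right hu _).neg_right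

omit [IsDomain O] [IsDiscreteValuationRing O] [HenselianLocalRing O]
  [Finite (ResidueField O)] in
private lemma h19_mem {p : O} {m : ℕ} {u : Oˣ} : u ∈ h19U p m ↔ p ^ m ∣ (u : O) - 1 := Iff.rfl

omit [IsDomain O] [IsDiscreteValuationRing O] [HenselianLocalRing O]
  [Finite (ResidueField O)] in
private lemma h19_le (p : O) {m n : ℕ} (h : m ≤ n) : h19U p n ≤ h19U p m := by
  intro u hu
  rw [h19_mem] at *
  exact (pow_dvd_pow p h).trans hu

private noncomputable def h19f {p : O} (hp : Irreducible p) {m : ℕ} (hm : 1 ≤ m) :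
    h19U p m →* Multiplicative (ResidueField O) where
  toFun u := Multiplicative.ofAdd (residue O (Classical.choose (h19_mem.1 u.2)))
  map_one' := by
    have h := Classical.choose_spec (h19_mem.1 (1 : h19U p m).2)
    set z := Classical.choose (h19_mem.1 (1 : h19U p m).2)
    have h1 : p ^ m * z = 0 := by rw [← h]; simp
    have h2 : z = 0 := (mul_eq_zero.1 h1).resolve_left (pow_ne_zero _ hp.ne_zero)
    rw [h2, map_zero]; rfl
  map_mul' := by
    intro u v
    have h := Classical.choose_spec (h19_mem.1 (u * v).2)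
    have hu := Classical.choose_spec (h19_mem.1 u.2)
    have hv := Classical.choose_spec (h19_mem.1 v.2)
    set z := Classical.choose (h19_mem.1 (u * v).2)
    set a := Classical.choose (h19_mem.1 u.2)
    set b := Classical.choose (h19_mem.1 v.2)
    have h1 : p ^ m * z = p ^ m * (a + b + p ^ m * (a * b)) := by
      rw [← h]
      have hu' : ((u : Oˣ) : O) = 1 + p ^ m * a := by rw [← hu]; ring
      have hv' : ((v : Oˣ) : O) = 1 + p ^ m * b := by rw [← hv]; ring
      rw [Subgroup.coe_mul, Units.val_mul, hu', hv']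
      ring
    have h2 : z = a + b + p ^ m * (a * b) := mul_left_cancel₀ (pow_ne_zero _ hp.ne_zero) h1
    have h3 : residue O (p ^ m * (a * b)) = 0 :=
      (h19_dvd_iff hp _).1 (Dvd.dvd.mul_right (dvd_pow_self p (by omega)) _)
    have h4 : residue O z = residue O a + residue O b := by
      rw [h2, map_add, map_add, h3, add_zero]
    show Multiplicative.ofAdd (residue O z) = Multiplicative.ofAdd (residue O a) *
      Multiplicative.ofAdd (residue O b)
    rw [h4]; rfl

omit [Finite (ResidueField O)] in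
private lemma h19f_surj {p : O} (hp : Irreducible p) {m : ℕ} (hm : 1 ≤ m) :
    Function.Surjective (h19f hp hm) := by
  intro t
  obtain ⟨z, hz⟩ := residue_surjective (Multiplicative.toAdd t)
  have hu : IsUnit (1 + p ^ m * z) :=
    h19_isUnit hp (Dvd.dvd.mul_right (dvd_pow_self p (by omega)) _)
  obtain ⟨u, hu⟩ := hu
  have hmem : u ∈ h19U p m := by
    rw [h19_mem, hu]
    exact ⟨z, by ring⟩
  refine ⟨⟨u, hmem⟩, ?_⟩
  have h := Classical.choose_spec (h19_mem.1 hmem)
  have h1 : Classical.choose (h19_mem.1 hmem) = z := by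
    apply mul_left_cancel₀ (pow_ne_zero m hp.ne_zero)
    rw [← h, hu]; ring
  show Multiplicative.ofAdd (residue O (Classical.choose (h19_mem.1 hmem))) = t
  rw [h1, hz]; rfl

omit [Finite (ResidueField O)] in
private lemma h19f_ker {p : O} (hp : Irreducible p) {m : ℕ} (hm : 1 ≤ m) :
    (h19f hp hm).ker = (h19U p (m + 1)).subgroupOf (h19U p m) := by
  ext ⟨u, hmem⟩
  have h := Classical.choose_spec (h19_mem.1 hmem)
  have h1 : (⟨u, hmem⟩ : h19U p m) ∈ (h19f hp hm).ker ↔
      residue O (Classical.choose (h19_mem.1 hmem)) = 0 := Iff.rfl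
  have h2 : (⟨u, hmem⟩ : h19U p m) ∈ (h19U p (m + 1)).subgroupOf (h19U p m) ↔
      p ^ (m + 1) ∣ (u : O) - 1 := Iff.rfl
  rw [h1, h2, ← h19_dvd_iff hp]
  generalize Classical.choose (h19_mem.1 hmem) = z at h
  rw [h, pow_succ]
  exact (mul_dvd_mul_iff_left (pow_ne_zero m hp.ne_zero)).symm

private lemma h19_relIndex {p : O} (hp : Irreducible p) {m : ℕ} (hm : 1 ≤ m) :
    (h19U p (m + 1)).relIndex (h19U p m) = Nat.card (ResidueField O) := by
  rw [Subgroup.relIndex, ← h19f_ker hp hm, Subgroup.index_ker,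
    MonoidHom.range_eq_top.2 (h19f_surj hp hm)]
  rw [Subgroup.card_top]
  exact Nat.card_congr Multiplicative.toAdd

private lemma h19_relIndex_add {p : O} (hp : Irreducible p) {m : ℕ} (hm : 1 ≤ m) (k : ℕ) :
    (h19U p (m + k)).relIndex (h19U p m) = Nat.card (ResidueField O) ^ k := by
  induction k with
  | zero => rw [add_zero, Subgroup.relIndex_self, pow_zero]
  | succ k ih =>
    rw [pow_succ', ← ih, ← h19_relIndex hp (m := m + k) (by omega)]
    exact (Subgroup.relIndex_mul_relIndex _ _ _ (h19_le p (by omega)) (h19_le p (by omega))).symm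

private lemma h19_index_ne {p : O} (hp : Irreducible p) {m : ℕ} (hm : 1 ≤ m) :
    (h19U p m).index ≠ 0 := by
  have h1 : (h19U p 1).index ≠ 0 := by
    have h : h19U p 1 = (Units.map (residue O : O →* ResidueField O)).ker := by
      ext u
      rw [h19_mem, pow_one, MonoidHom.mem_ker, h19_dvd_iff hp, map_sub, map_one, sub_eq_zero,
        Units.ext_iff]
      rfl
    rw [h, Subgroup.index_ker]
    have : Finite (ResidueField O)ˣ := inferInstance
    exact Nat.card_pos.ne'
  have h2 := Subgroup.relIndex_mul_index (h19_le p hm)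
  obtain ⟨k, rfl⟩ : ∃ k, m = 1 + k := ⟨m - 1, by omega⟩
  rw [← h2, h19_relIndex_add hp le_rfl]
  exact mul_ne_zero (pow_ne_zero _ Nat.card_pos.ne') h1

omit [Finite (ResidueField O)] in
private lemma h19_sqrt {p : O} (hp : Irreducible p) {e n : ℕ} (he : Associated (2 : O) (p ^ e))
    (hn : e < n) {u : Oˣ} (hu : u ∈ h19U p (n + e)) : ∃ v ∈ h19U p n, v ^ 2 = u := by
  obtain ⟨ε, hε⟩ := he.symm
  obtain ⟨t, ht⟩ := h19_mem.1 hu
  obtain ⟨k, rfl⟩ : ∃ k, n = e + (k + 1) := ⟨n - e - 1, by omega⟩
  have hmax : ∀ x : O, x ∈ maximalIdeal O ↔ p ∣ x := by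
    intro x
    rw [hp.maximalIdeal_eq, Ideal.mem_span_singleton]
  -- Hensel
  obtain ⟨y, hy, hy0⟩ : ∃ y : O, y * (y + ε) = t * p ^ (k + 1) ∧ p ∣ y := by
    let f : Polynomial O := Polynomial.X ^ 2 + (Polynomial.C (ε : O) * Polynomial.X +
      Polynomial.C (-(t * p ^ (k + 1))))
    have hf : f.Monic := by
      apply Polynomial.monic_X_pow_add
      refine lt_of_le_of_lt Polynomial.degree_linear_le ?_
      norm_num
    have h0 : f.eval 0 ∈ maximalIdeal O := by
      rw [hmax]
      simp only [f, Polynomial.eval_add, Polynomial.eval_mul, Polynomial.eval_C,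
        Polynomial.eval_X, Polynomial.eval_pow, mul_zero, zero_add]
      rw [zero_pow (by norm_num), zero_add, dvd_neg]
      exact Dvd.dvd.mul_left (dvd_pow_self p (by omega)) _
    have h1 : IsUnit (f.derivative.eval 0) := by
      have : f.derivative.eval 0 = (ε : O) := by
        simp only [f, Polynomial.derivative_add, Polynomial.derivative_X_pow,
          Polynomial.derivative_C_mul, Polynomial.derivative_X, Polynomial.derivative_C,
          Polynomial.eval_add, Polynomial.eval_mul, Polynomial.eval_C, Polynomial.eval_X,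
          Polynomial.eval_pow, mul_one, add_zero]
        norm_num
      rw [this]
      exact ε.isUnit
    obtain ⟨y, hy, hy0⟩ := HenselianLocalRing.is_henselian f hf 0 h0 h1
    refine ⟨y, ?_, ?_⟩
    · have h2 : f.eval y = 0 := hy
      simp only [f, Polynomial.eval_add, Polynomial.eval_mul, Polynomial.eval_C,
        Polynomial.eval_X, Polynomial.eval_pow] at h2
      linear_combination h2
    · rw [sub_zero, hmax] at hy0
      exact hy0
  have hunit : IsUnit (y + ε) := by
    have h3 : y + (ε : O) = ε * (1 + y * (ε⁻¹ : Oˣ)) := by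
      have := Units.mul_inv ε
      linear_combination (-y) * this
    rw [h3]
    exact ε.isUnit.mul (h19_isUnit hp (Dvd.dvd.mul_right hy0 _))
  obtain ⟨z, hz⟩ : p ^ (k + 1) ∣ y := by
    have h4 : p ^ (k + 1) ∣ y * (y + ε) := ⟨t, by rw [hy]; ring⟩
    exact (hunit.dvd_mul_right).1 h4
  have hzt : z * (p ^ (k + 1) * z + ε) = t := by
    apply mul_left_cancel₀ (pow_ne_zero (k + 1) hp.ne_zero)
    rw [hz] at hy
    linear_combination hy
  have hv : IsUnit (1 + p ^ (e + (k + 1)) * z) :=
    h19_isUnit hp (Dvd.dvd.mul_right (dvd_pow_self p (by omega)) _)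
  obtain ⟨v, hv⟩ := hv
  refine ⟨v, ?_, ?_⟩
  · rw [h19_mem, hv]
    exact ⟨z, by ring⟩
  · apply Units.ext
    rw [Units.val_pow_eq_pow_val, hv]
    have h5 : (u : O) = 1 + p ^ (e + (k + 1) + e) * t := by rw [← ht]; ring
    rw [h5, ← hzt]
    have h6 : (2 : O) = p ^ e * ε := hε.symm
    have h7 : (1 + p ^ (e + (k + 1)) * z) ^ 2 =
        1 + 2 * (p ^ (e + (k + 1)) * z) + (p ^ (e + (k + 1)) * z) ^ 2 := by ring
    rw [h7, h6]
    ring

/-- **Job HM-19.** The index of the squares of the units.

`q` is the number of elements of the residue field and `2 = p ^ e * unit`.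
Proof. Let `U n := {u ∈ Oˣ | p ^ n ∣ u - 1}`, `n ≥ 1`. It is a subgroup of finite index of `Oˣ`
(the quotient embeds in `(O ⧸ p ^ n)ˣ`, finite). For `n > e` the squaring map is an injection of
`U n` onto `U (n + e)`: `(1 + p ^ n z) ^ 2 = 1 + 2 p ^ n z + p ^ (2 n) z ^ 2 ∈ U (n + e)`, and given
`1 + p ^ (n + e) t` the equation `2 p ^ n z + p ^ (2 n) z ^ 2 = p ^ (n + e) t` becomes, with
`2 = p ^ e ε`, `ε z + p ^ (n - e) z ^ 2 = t`, which has a solution by Hensel's lemma; `-1 ∉ U n` for
`n > e` (`p ^ n ∤ 2`). So `sqI (U n) = [U n : U (n + e)] = q ^ e` (`[U m : U (m + 1)] = q` for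
`m ≥ 1`, `U m → κ`, `1 + p ^ m z ↦ z`). By `index_sq_finite` for `U n ⊆ Oˣ`,
`sqI Oˣ = |Oˣ[2]| * q ^ e = 2 * q ^ e`. -/
theorem sqI_units {p : O} (hp : Irreducible p) (h2 : (2 : O) ≠ 0) {e : ℕ}
    (he : Associated (2 : O) (p ^ e)) : sqI Oˣ = 2 * Nat.card (ResidueField O) ^ e := by
  have hn : e < e + 1 := Nat.lt_succ_self e
  have hidx := h19_index_ne hp (m := e + 1) (by omega)
  have hsqle : h19U p (e + 1 + e) ≤ (powMonoidHom 2 : Oˣ →* Oˣ).range := by
    intro u hu
    obtain ⟨v, -, hv⟩ := h19_sqrt hp he hn hu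
    exact ⟨v, by rw [powMonoidHom_apply, hv]⟩
  have hG : sqI Oˣ ≠ 0 := by
    intro h0
    have h1 := Subgroup.index_dvd_of_le hsqle
    rw [show (powMonoidHom 2 : Oˣ →* Oˣ).range.index = sqI Oˣ from rfl, h0, zero_dvd_iff] at h1
    exact h19_index_ne hp (m := e + 1 + e) (by omega) h1
  -- two roots of unity
  have hpm : ∀ x : Oˣ, x ^ 2 = 1 ↔ x = 1 ∨ x = -1 := by
    intro x
    constructor
    · intro h
      have h1 : ((x : O) - 1) * ((x : O) + 1) = 0 := by
        have h2 : (x : O) ^ 2 = 1 := by
          rw [← Units.val_pow_eq_pow_val, h, Units.val_one]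
        linear_combination h2
      rcases mul_eq_zero.1 h1 with h1 | h1
      · left; apply Units.ext; rw [Units.val_one]; linear_combination h1
      · right; apply Units.ext; rw [Units.val_neg, Units.val_one]; linear_combination h1
    · rintro (rfl | rfl) <;> simp
  have hne : (1 : Oˣ) ≠ -1 := by
    intro h
    have h1 := congrArg (fun x : Oˣ => (x : O)) h
    simp only [Units.val_one, Units.val_neg] at h1
    apply h2
    linear_combination h1
  have hc2 : Nat.card {x : Oˣ // x ^ 2 = 1} = 2 := by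
    have : {x : Oˣ | x ^ 2 = 1} = {1, -1} := by
      ext x
      rw [Set.mem_ofPred_eq, hpm x]
      simp
    calc Nat.card {x : Oˣ // x ^ 2 = 1} = Set.ncard {x : Oˣ | x ^ 2 = 1} := rfl
      _ = 2 := by rw [this]; exact Set.ncard_pair hne
  have hc1 : Nat.card {x : h19U p (e + 1) // x ^ 2 = 1} = 1 := by
    rw [Nat.card_eq_one_iff_unique]
    refine ⟨⟨?_⟩, ⟨⟨1, one_pow 2⟩⟩⟩
    have h1 : ∀ x : h19U p (e + 1), x ^ 2 = 1 → x = 1 := by
      rintro ⟨x, hx⟩ h
      have h3 : x ^ 2 = 1 := congrArg Subtype.val h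
      rcases (hpm x).1 h3 with h4 | h4
      · exact Subtype.ext h4
      · exfalso
        rw [h4, h19_mem, Units.val_neg, Units.val_one] at hx
        have h5 : p ^ (e + 1) ∣ (2 : O) := by
          have : (2 : O) = -(-1 - 1) := by ring
          rw [this]
          exact hx.neg_right
        have h6 : p ^ (e + 1) ∣ p ^ e := h5.trans he.dvd
        rw [pow_dvd_pow_iff hp.ne_zero hp.not_isUnit] at h6
        omega
    rintro ⟨x, hx⟩ ⟨y, hy⟩
    apply Subtype.ext
    show x = y
    rw [h1 x hx, h1 y hy]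
  have hrange : (powMonoidHom 2 : h19U p (e + 1) →* h19U p (e + 1)).range =
      (h19U p (e + 1 + e)).subgroupOf (h19U p (e + 1)) := by
    ext ⟨u, hu⟩
    rw [Subgroup.mem_subgroupOf]
    constructor
    · rintro ⟨⟨v, hv⟩, hvu⟩
      have hvu' : v ^ 2 = u := congrArg Subtype.val hvu
      show u ∈ h19U p (e + 1 + e)
      rw [h19_mem, ← hvu', Units.val_pow_eq_pow_val]
      have h7 : (v : O) ^ 2 - 1 = ((v : O) - 1) * ((v : O) - 1 + 2) := by ring
      rw [h7, pow_add]
      refine mul_dvd_mul (h19_mem.1 hv) (dvd_add ?_ he.symm.dvd)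
      exact (pow_dvd_pow p (by omega)).trans (h19_mem.1 hv)
    · intro h
      obtain ⟨v, hv, hvu⟩ := h19_sqrt hp he hn h
      exact ⟨⟨v, hv⟩, Subtype.ext hvu⟩
  have hU : sqI (h19U p (e + 1)) = Nat.card (ResidueField O) ^ e := by
    rw [sqI, hrange]
    exact h19_relIndex_add hp (by omega) e
  have key := index_sq_finite (h19U p (e + 1)) hidx hG (by rw [hc2]; norm_num)
  rw [hc1, hc2, hU, mul_one] at key
  rw [key]; ring

end DVR

end Pool.Agent.Lib.MP_12adaf_nt.HM
end

section

/-!
# Norms from the unramified extension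
-/

namespace Pool.Agent.Lib.MP_12adaf_nt.HM

open IsLocalRing

section DVR

variable {O K : Type*} [CommRing O] [IsDomain O] [IsDiscreteValuationRing O]
  [HenselianLocalRing O] [Finite (ResidueField O)] [Field K] [Algebra O K] [IsFractionRing O K]

/-- **Job HM-16.** Norms from the unramified quadratic extension have even valuation.

Let `w = 1 + 4 r`. Let `c = x ^ 2 - w y ^ 2`, `c ≠ 0`. With `X := x - y`, `Y := 2 y` we have
`c = X ^ 2 + X Y - r Y ^ 2`. [Check: `x = X + Y / 2`, `y = Y / 2`, and
`x ^ 2 - (1 + 4 r) y ^ 2 = X ^ 2 + X Y + Y ^ 2 / 4 - Y ^ 2 / 4 - r Y ^ 2`.] Divide `X, Y` by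
`p ^ m`, `m` the minimum of their valuations: `X = p ^ m X'`, `Y = p ^ m Y'` with `X', Y' ∈ O` not
both in the maximal ideal. Then `c = p ^ (2 m) (X' ^ 2 + X' Y' - r Y' ^ 2)` and the second factor is
a unit: if its residue vanished, then either `Y' ≡ 0`, so `X' ≡ 0`, excluded, or `t := -X' / Y'`...
more precisely with `t = X' / Y'` modulo the maximal ideal `t ^ 2 + t = r`, excluded by the choice
of `r`. So the valuation of `c` is `2 m`. -/
theorem even_of_nf_unram {p : O} (hp : Irreducible p) {r : O}
    (hr : ∀ x : ResidueField O, x ^ 2 + x ≠ residue O r) {c : K} {n : ℤ} (hc : HasOrd p c n)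
    (h : NF (algebraMap O K (1 + 4 * r)) c) : Even n := by
  obtain ⟨x, y, hxy⟩ := h
  have hinj : Function.Injective (algebraMap O K) := IsFractionRing.injective O K
  have hp0 : algebraMap O K p ≠ 0 := by
    intro h0
    exact hp.ne_zero (hinj (by rw [h0, map_zero]))
  have hc0 : c ≠ 0 := by
    obtain ⟨u, hu⟩ := hc
    rw [hu]
    refine mul_ne_zero (zpow_ne_zero _ hp0) ?_
    intro h0
    exact u.ne_zero (hinj (by rw [h0, map_zero]))
  set X : K := x - y with hX
  set Y : K := 2 * y with hY
  have e1 : c = X ^ 2 + X * Y - algebraMap O K r * Y ^ 2 := by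
    rw [hxy, hX, hY]
    simp only [map_add, map_mul, map_one, map_ofNat]
    ring
  have hunit : ∀ z : O, residue O z ≠ 0 → IsUnit z := by
    intro z hz
    by_contra hn
    apply hz
    rw [residue_eq_zero_iff, mem_maximalIdeal]
    exact hn
  -- the common power of the uniformizer
  have key : ∃ (m : ℤ) (X' Y' : O), X = algebraMap O K p ^ m * algebraMap O K X' ∧
      Y = algebraMap O K p ^ m * algebraMap O K Y' ∧ (IsUnit X' ∨ IsUnit Y') := by
    by_cases hX0 : X = 0
    · have hY0 : Y ≠ 0 := by
        intro hY0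
        apply hc0
        rw [e1, hX0, hY0]
        ring
      obtain ⟨m, u, hu⟩ := exists_hasOrd hp hY0
      exact ⟨m, 0, u, by rw [hX0, map_zero, mul_zero], hu, Or.inr u.isUnit⟩
    by_cases hY0 : Y = 0
    · obtain ⟨m, u, hu⟩ := exists_hasOrd hp hX0
      exact ⟨m, u, 0, hu, by rw [hY0, map_zero, mul_zero], Or.inl u.isUnit⟩
    obtain ⟨a, u, hu⟩ := exists_hasOrd hp hX0
    obtain ⟨b, v, hv⟩ := exists_hasOrd hp hY0
    rcases le_total a b with hab | hab
    · obtain ⟨k, hk⟩ := Int.le.dest hab
      refine ⟨a, u, p ^ k * v, hu, ?_, Or.inl u.isUnit⟩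
      rw [hv, ← hk, zpow_add₀ hp0, zpow_natCast, map_mul, map_pow]
      ring
    · obtain ⟨k, hk⟩ := Int.le.dest hab
      refine ⟨b, p ^ k * u, v, ?_, hv, Or.inr v.isUnit⟩
      rw [hu, ← hk, zpow_add₀ hp0, zpow_natCast, map_mul, map_pow]
      ring
  obtain ⟨m, X', Y', hX', hY', hor⟩ := key
  have hz : IsUnit (X' ^ 2 + X' * Y' - r * Y' ^ 2) := by
    apply hunit
    intro h0
    rw [map_sub, map_add, map_mul, map_mul, map_pow, map_pow] at h0
    by_cases hY0 : residue O Y' = 0
    · rw [hY0] at h0
      have hX0 : residue O X' = 0 := by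
        have : residue O X' ^ 2 = 0 := by linear_combination h0
        exact pow_eq_zero_iff (by norm_num) |>.1 this
      rcases hor with hu | hu
      · exact (hu.map (residue O)).ne_zero hX0
      · exact (hu.map (residue O)).ne_zero hY0
    · apply hr (residue O X' / residue O Y')
      field_simp
      linear_combination h0
  have hord : HasOrd p c (m + m) := by
    refine ⟨hz.unit, ?_⟩
    rw [IsUnit.unit_spec, e1, hX', hY', zpow_add₀ hp0, map_sub, map_add, map_mul, map_mul, map_pow,
      map_pow]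
    ring
  exact ⟨m, hc.unique hp hord⟩

end DVR

end Pool.Agent.Lib.MP_12adaf_nt.HM
end

section

/-!
# The residue field of the completion
-/

namespace Pool.Agent.Lib.MP_12adaf_nt.HM

open NumberField IsDedekindDomain IsDedekindDomain.HeightOneSpectrum IsLocalRing

variable {k : Type*} [Field k] [NumberField k]

/-- **Job HM-22.** The residue field of the completion has the right number of elements.
(`𝓞 k ⧸ w.asIdeal → ResidueField`, see the proof of `finite_residue_fin`, is bijective.) -/
theorem card_residue_fin (w : HeightOneSpectrum (𝓞 k)) :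
    Nat.card (ResidueField (w.adicCompletionIntegers k)) = Ideal.absNorm w.asIdeal := by
  let f : 𝓞 k →+* IsLocalRing.ResidueField (w.adicCompletionIntegers k) :=
    (IsLocalRing.residue (w.adicCompletionIntegers k)).comp
      (algebraMap (𝓞 k) (w.adicCompletionIntegers k))
  have hf : ∀ r, f r = 0 ↔ r ∈ w.asIdeal := by
    intro r
    change IsLocalRing.residue _ (algebraMap (𝓞 k) (w.adicCompletionIntegers k) r) = 0 ↔ _
    rw [residue_eq_zero_fin, algebraMap_adicCompletionIntegers_apply,
      valuedAdicCompletion_eq_valuation']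
    exact w.valuation_lt_one_iff_mem r
  have hsurj : Function.Surjective f := by
    intro y
    obtain ⟨x, rfl⟩ := IsLocalRing.residue_surjective y
    obtain ⟨q, hq⟩ : ∃ q : k, ‖(x : w.adicCompletion k) - algebraMap k (w.adicCompletion k) q‖ < 1 := by
      obtain ⟨q, hq⟩ := (w.denseRange_algebraMap k).exists_dist_lt (x : w.adicCompletion k)
        one_pos
      rw [dist_eq_norm] at hq
      exact ⟨q, hq⟩
    have hq1 : Valued.v ((x : w.adicCompletion k) - algebraMap k (w.adicCompletion k) q) < 1 :=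
      Valued.toNormedField.norm_lt_one_iff.1 hq
    have hq2 : w.valuation k q ≤ 1 := by
      rw [← valuedAdicCompletion_eq_valuation']
      have e : (algebraMap k (w.adicCompletion k) q) =
          (x : w.adicCompletion k) - ((x : w.adicCompletion k) - algebraMap k _ q) := by ring
      change Valued.v (algebraMap k (w.adicCompletion k) q) ≤ 1
      rw [e]
      exact (Valuation.map_sub _ _ _).trans (max_le x.2 hq1.le)
    obtain ⟨r, hr⟩ := w.exists_valuation_sub_lt_of_integer hq2 1
    refine ⟨r, ?_⟩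
    change IsLocalRing.residue _ (algebraMap (𝓞 k) (w.adicCompletionIntegers k) r) = _
    rw [← sub_eq_zero, ← map_sub, residue_eq_zero_fin]
    have e : ((algebraMap (𝓞 k) (w.adicCompletionIntegers k) r - x : w.adicCompletionIntegers k) :
        w.adicCompletion k) = algebraMap k (w.adicCompletion k) (algebraMap (𝓞 k) k r - q) -
        ((x : w.adicCompletion k) - algebraMap k (w.adicCompletion k) q) := by
      rw [map_sub]
      push_cast
      rw [algebraMap_adicCompletionIntegers_apply]
      change algebraMap k (w.adicCompletion k) (algebraMap (𝓞 k) k r) - _ = _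
      ring
    rw [e]
    refine lt_of_le_of_lt (Valuation.map_sub _ _ _) (max_lt ?_ hq1)
    have := valuedAdicCompletion_eq_valuation' (v := w) (algebraMap (𝓞 k) k r - q)
    change Valued.v (algebraMap k (w.adicCompletion k) (algebraMap (𝓞 k) k r - q)) = _ at this
    rw [this]
    simpa using hr
  have hker : RingHom.ker f = w.asIdeal := by
    ext r
    rw [RingHom.mem_ker, hf]
  have e := (Ideal.quotEquivOfEq hker.symm).trans (RingHom.quotientKerEquivOfSurjective hsurj)
  rw [← Nat.card_congr e.toEquiv, Ideal.absNorm_apply, Submodule.cardQuot_apply]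

end Pool.Agent.Lib.MP_12adaf_nt.HM
end

section

/-!
# The quadratic defect
-/

namespace Pool.Agent.Lib.MP_12adaf_nt.HM

open IsLocalRing

section DVR

variable {O K : Type*} [CommRing O] [IsDomain O] [IsDiscreteValuationRing O]
  [HenselianLocalRing O] [Finite (ResidueField O)] [Field K] [Algebra O K] [IsFractionRing O K]

private lemma h17_hensel {c : O} (hc : c ∈ maximalIdeal O) : ∃ z : O, z ^ 2 + z = c := by
  have hm : (Polynomial.X ^ 2 + (Polynomial.X - Polynomial.C c) : Polynomial O).Monic := by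
    monicity!
  obtain ⟨z, hz, -⟩ := HenselianLocalRing.is_henselian
    (Polynomial.X ^ 2 + (Polynomial.X - Polynomial.C c) : Polynomial O) hm 0
    (by simpa using hc) (by simp)
  refine ⟨z, ?_⟩
  rw [Polynomial.IsRoot.def] at hz
  simp only [Polynomial.eval_add, Polynomial.eval_pow, Polynomial.eval_X, Polynomial.eval_sub,
    Polynomial.eval_C] at hz
  linear_combination hz

private lemma h17_isSquare {x : O} (h : IsSquare (algebraMap O K x)) : IsSquare x := by
  obtain ⟨t, ht⟩ := h
  obtain ⟨y, hy⟩ := IsIntegrallyClosed.exists_algebraMap_eq_of_isIntegral_pow (R := O) (x := t)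
    (n := 2) (by norm_num) (by rw [pow_two, ← ht]; exact isIntegral_algebraMap)
  refine ⟨y, IsFractionRing.injective O K ?_⟩
  rw [map_mul, hy, ht]

private lemma h17_index {κ : Type*} [Field κ] [Finite κ] [CharP κ 2] {v r : κ}
    (hv : ∀ z : κ, z ^ 2 + z ≠ v) (hr : ∀ z : κ, z ^ 2 + z ≠ r) : ∃ z : κ, z ^ 2 + z = v + r := by
  have h2 : (2 : κ) = 0 := by exact_mod_cast CharP.cast_eq_zero κ 2
  let φ : κ →+ κ := AddMonoidHom.mk' (fun z => z ^ 2 + z) (by
    intro a b
    linear_combination (a * b) * h2)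
  have hφ : ∀ z, φ z = z ^ 2 + z := fun z => rfl
  have hker : Nat.card φ.ker = 2 := by
    have h1 : (φ.ker : Set κ) = {0, 1} := by
      ext z
      simp only [SetLike.mem_coe, AddMonoidHom.mem_ker, hφ, Set.mem_insert_iff,
        Set.mem_singleton_iff]
      constructor
      · intro h
        have h3 : z * (z - 1) = 0 := by linear_combination h - z * h2
        rcases mul_eq_zero.mp h3 with h | h
        · exact Or.inl h
        · exact Or.inr (sub_eq_zero.mp h)
      · rintro (rfl | rfl)
        · ring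
        · linear_combination h2
    have h3 : Nat.card φ.ker = Set.ncard (φ.ker : Set κ) := rfl
    rw [h3, h1, Set.ncard_pair zero_ne_one]
  have hidx : φ.range.index = 2 := by
    have h3 := AddSubgroup.card_mul_index φ.ker
    rw [AddSubgroup.index_ker, hker] at h3
    have h4 := AddSubgroup.index_mul_card φ.range
    have h5 : 0 < Nat.card φ.range := Nat.card_pos
    rw [← h3] at h4
    exact Nat.eq_of_mul_eq_mul_right h5 h4
  have hv' : v ∉ φ.range := by
    rintro ⟨z, hz⟩
    exact hv z hz
  have hr' : r ∉ φ.range := by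
    rintro ⟨z, hz⟩
    exact hr z hz
  have h6 := (AddSubgroup.add_mem_iff_of_index_two hidx (a := v) (b := r)).mpr
    ⟨fun h => absurd h hv', fun h => absurd h hr'⟩
  obtain ⟨z, hz⟩ := h6
  exact ⟨z, hz⟩

/-- If `4 p ∣ x` then `1 + x` is the square of a unit of the form `1 + 2 z`. -/
private lemma h17_a {p : O} (hp : Irreducible p) {x : O} (hx : 4 * p ∣ x) :
    ∃ z : O, 1 + x = (1 + 2 * z) ^ 2 := by
  obtain ⟨c, rfl⟩ := hx
  obtain ⟨z, hz⟩ := h17_hensel (O := O) (c := p * c) (by
    rw [hp.maximalIdeal_eq]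
    exact Ideal.mem_span_singleton.mpr (dvd_mul_right _ _))
  exact ⟨z, by linear_combination (-4) * hz⟩

private lemma h17_unit_or {p : O} (hp : Irreducible p) (v : O) : IsUnit v ∨ p ∣ v := by
  by_cases h : IsUnit v
  · exact Or.inl h
  · right
    have h1 : v ∈ maximalIdeal O := (mem_maximalIdeal v).mpr h
    rw [hp.maximalIdeal_eq] at h1
    exact Ideal.mem_span_singleton.mp h1

private lemma h17_mem {p : O} (hp : Irreducible p) {v : O} : residue O v = 0 ↔ p ∣ v := by
  rw [residue_eq_zero_iff, hp.maximalIdeal_eq, Ideal.mem_span_singleton]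

/-- The representation with error divisible by `p ^ n`, `n` increasing. -/
private lemma h17_main {p : O} (hp : Irreducible p) {r : O}
    (hr : ∀ x : ResidueField O, x ^ 2 + x ≠ residue O r) {e : ℕ} (he : 1 ≤ e) {ε : Oˣ}
    (hε : (2 : O) = ε * p ^ e) (u : O) (k : ℕ) :
    ∀ n : ℕ, 1 ≤ n → 2 * e + 1 ≤ n + k → ∀ s x : O, u = s ^ 2 * (1 + x) → p ^ n ∣ x →
    IsSquare u ∨ (∃ s : O, u = (1 + 4 * r) * s ^ 2) ∨
      ∃ (s x y : O) (j : ℕ), u = s ^ 2 * (1 + x) ∧ x * y = 4 ∧ y ∈ maximalIdeal O ∧
        HasOrd p (algebraMap O K x) (2 * (j : ℤ) + 1) := by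
  have h4 : (4 : O) = ε ^ 2 * p ^ (2 * e) := by
    have h5 : (4 : O) = 2 * 2 := by norm_num
    rw [h5, hε]; ring
  have hpu : ¬ IsUnit p := hp.not_isUnit
  have h4p : (4 : O) * p ∣ p ^ (2 * e + 1) := by
    refine ⟨((ε⁻¹ : Oˣ) : O) ^ 2, ?_⟩
    have h6 : (ε : O) * ((ε⁻¹ : Oˣ) : O) = 1 := Units.mul_inv ε
    rw [h4, pow_succ]
    linear_combination (-(p ^ (2 * e) * p * ((ε : O) * ((ε⁻¹ : Oˣ) : O) + 1))) * h6
  have hchar : CharP (ResidueField O) 2 := by
    refine (CharP.charP_iff_prime_eq_zero Nat.prime_two).mpr ?_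
    have h7 : residue O (2 : O) = 0 := by
      rw [h17_mem hp, hε]
      exact Dvd.dvd.mul_left (dvd_pow_self p (by omega)) _
    rw [map_ofNat] at h7
    exact_mod_cast h7
  have hsq : ∀ v : O, ∃ t : O, p ∣ v - t ^ 2 := by
    intro v
    obtain ⟨t', ht'⟩ := FiniteField.isSquare_of_char_two (ringChar.eq (ResidueField O) 2)
      (residue O v)
    obtain ⟨t, rfl⟩ := residue_surjective t'
    refine ⟨t, (h17_mem hp).mp ?_⟩
    rw [map_sub, ht', map_pow]; ring
  have hbig : ∀ s x : O, u = s ^ 2 * (1 + x) → p ^ (2 * e + 1) ∣ x → IsSquare u := by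
    intro s x hu hx
    obtain ⟨z, hz⟩ := h17_a hp (h4p.trans hx)
    exact ⟨s * (1 + 2 * z), by rw [hu, hz]; ring⟩
  have h1p : ∀ z : O, IsUnit (1 + p * z) := by
    intro z
    rcases h17_unit_or hp (1 + p * z) with h | h
    · exact h
    · exact absurd (isUnit_of_dvd_one ((dvd_add_left (dvd_mul_right p z)).mp h)) hpu
  have h12 : ∀ z : O, IsUnit (1 + 2 * z) := by
    intro z
    have h8 : 1 + 2 * z = 1 + p * (ε * p ^ (e - 1) * z) := by
      rw [hε]
      have h9 : p ^ e = p * p ^ (e - 1) := by
        rw [← pow_succ']; congr 1; omega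
      rw [h9]; ring
    rw [h8]; exact h1p _
  induction k with
  | zero =>
    intro n hn hnk s x hu hx
    exact Or.inl (hbig s x hu ((pow_dvd_pow p hnk).trans hx))
  | succ k ih =>
    intro n hn hnk s x hu hx
    by_cases hnk' : 2 * e + 1 ≤ n + k
    · exact ih n hn hnk' s x hu hx
    have hn2 : n ≤ 2 * e := by omega
    obtain ⟨v, rfl⟩ := hx
    rcases h17_unit_or hp v with hv | hv
    swap
    · obtain ⟨v', rfl⟩ := hv
      refine ih (n + 1) (by omega) (by omega) s _ hu ⟨v', by ring⟩
    -- generic step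
    have hstep : ∀ g x' : O, IsUnit g → p ^ (n + 1) ∣ x' → 1 + p ^ n * v = g ^ 2 + x' →
        IsSquare u ∨ (∃ s : O, u = (1 + 4 * r) * s ^ 2) ∨
        ∃ (s x y : O) (j : ℕ), u = s ^ 2 * (1 + x) ∧ x * y = 4 ∧ y ∈ maximalIdeal O ∧
        HasOrd p (algebraMap O K x) (2 * (j : ℤ) + 1) := by
      intro g x' hg hx' hgx
      obtain ⟨g', rfl⟩ := hg
      have h10 : (g' : O) * ((g'⁻¹ : Oˣ) : O) = 1 := Units.mul_inv g'
      refine ih (n + 1) (by omega) (by omega) (s * g') (x' * ((g'⁻¹ : Oˣ) : O) ^ 2) ?_
        (hx'.mul_right _)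
      rw [hu, hgx]
      linear_combination (-(s ^ 2 * x' * ((g' : O) * ((g'⁻¹ : Oˣ) : O) + 1))) * h10
    rcases Nat.even_or_odd n with ⟨i, hi⟩ | ⟨j, hj⟩
    · by_cases hie : i < e
      · obtain ⟨t, c, hc⟩ := hsq v
        refine hstep (1 + p ^ i * t) (p ^ n * (v - t ^ 2) - 2 * t * p ^ i) ?_ ?_ ?_
        · have h11 : p ^ i = p * p ^ (i - 1) := by
            rw [← pow_succ']; congr 1; omega
          rw [h11, mul_assoc]
          exact h1p _
        · refine dvd_sub ?_ ?_
          · rw [hc]
            exact ⟨c, by ring⟩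
          · have h12' : 2 * t * p ^ i = p ^ (e + i) * (ε * t) := by
              rw [hε, pow_add]; ring
            rw [h12']
            exact Dvd.dvd.mul_right (pow_dvd_pow p (by omega)) _
        · rw [hi]; ring
      · have hie' : n = 2 * e := by omega
        -- x = 4 v'
        obtain ⟨v', hv'⟩ : ∃ v' : O, p ^ n * v = 4 * v' := by
          refine ⟨((ε⁻¹ : Oˣ) : O) ^ 2 * v, ?_⟩
          have h6 : (ε : O) * ((ε⁻¹ : Oˣ) : O) = 1 := Units.mul_inv ε
          rw [h4, hie']
          linear_combination (-(p ^ (2 * e) * v * ((ε : O) * ((ε⁻¹ : Oˣ) : O) + 1))) * h6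
        by_cases hz : ∃ z : ResidueField O, z ^ 2 + z = residue O v'
        · obtain ⟨z', hz'⟩ := hz
          obtain ⟨z, rfl⟩ := residue_surjective z'
          refine hstep (1 + 2 * z) (4 * (v' - z - z ^ 2)) (h12 z) ?_ ?_
          · have h13 : p ∣ v' - z - z ^ 2 := by
              rw [← h17_mem hp, map_sub, map_sub, map_pow, ← hz']; ring
            obtain ⟨c, hc⟩ := h13
            rw [hc, h4, hie']
            exact ⟨ε ^ 2 * c, by ring⟩
          · rw [hv']; ring
        · push Not at hz
          obtain ⟨z', hz'⟩ := h17_index hz hr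
          obtain ⟨z, rfl⟩ := residue_surjective z'
          -- 1 + 4 v' = (1 + 4 r) (1 + 2 z) ^ 2 + 4 p (...)
          have h13 : p ∣ z ^ 2 + z - v' - r := by
            rw [← h17_mem hp, map_sub, map_sub, map_add, map_pow, hz']; ring
          have h2p : p ∣ 2 := by
            rw [hε]; exact Dvd.dvd.mul_left (dvd_pow_self p (by omega)) _
          have hw : IsUnit (1 + 4 * r) := by
            have h14 : (1 : O) + 4 * r = 1 + 2 * (2 * r) := by ring
            rw [h14]; exact h12 _
          have hg : IsUnit ((1 + 4 * r) * (1 + 2 * z) ^ 2) := hw.mul ((h12 z).pow 2)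
          obtain ⟨g, hg'⟩ := hg
          have h15 : 4 * p ∣ (1 + 4 * v') - (1 + 4 * r) * (1 + 2 * z) ^ 2 := by
            have h16 : (1 + 4 * v') - (1 + 4 * r) * (1 + 2 * z) ^ 2
                = 4 * (-(z ^ 2 + z - v' - r) - 2 * (r + 2 * r * (z ^ 2 + z) * 1)
                  + 0) := by
              ring
            rw [h16]
            refine mul_dvd_mul_left 4 ?_
            refine dvd_add (dvd_sub (h13.neg_right) (h2p.mul_right _)) (dvd_zero _)
          obtain ⟨c, hc⟩ := h15
          obtain ⟨z₂, hz₂⟩ := h17_a hp (x := 4 * p * c * ((g⁻¹ : Oˣ) : O)) ⟨c * ((g⁻¹ : Oˣ) : O),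
            by ring⟩
          right; left
          refine ⟨s * (1 + 2 * z) * (1 + 2 * z₂), ?_⟩
          have h17 : (1 + 4 * r) * (s * (1 + 2 * z) * (1 + 2 * z₂)) ^ 2
              = s ^ 2 * (((1 + 4 * r) * (1 + 2 * z) ^ 2) * (1 + 2 * z₂) ^ 2) := by ring
          have h18 : (g : O) * ((g⁻¹ : Oˣ) : O) = 1 := Units.mul_inv g
          rw [h17, ← hz₂, ← hg', hu, hv']
          have h19 : (1 : O) + 4 * v' = g + 4 * p * c := by
            rw [← hc, hg']; ring
          rw [h19]
          linear_combination (-(s ^ 2 * 4 * p * c)) * h18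
    · right; right
      obtain ⟨v', rfl⟩ := hv
      refine ⟨s, p ^ n * v', ((v'⁻¹ : Oˣ) : O) * (ε ^ 2 * p ^ (2 * e - n)), j, hu, ?_, ?_, ?_⟩
      · have h6 : (v' : O) * ((v'⁻¹ : Oˣ) : O) = 1 := Units.mul_inv v'
        have h20 : p ^ (2 * e) = p ^ n * p ^ (2 * e - n) := by
          rw [← pow_add]; congr 1; omega
        rw [h4, h20]
        linear_combination (p ^ n * ε ^ 2 * p ^ (2 * e - n)) * h6
      · rw [hp.maximalIdeal_eq]
        refine Ideal.mem_span_singleton.mpr ?_
        exact Dvd.dvd.mul_left (Dvd.dvd.mul_left (dvd_pow_self p (by omega)) _) _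
      · refine ⟨v', ?_⟩
        rw [map_mul, map_pow, hj, ← zpow_natCast]
        push_cast
        rfl

/-- **Job HM-17.** Units modulo squares: the quadratic defect.

Let `r` be as in HM-15, `w = 1 + 4 r`. Every unit `u` of `O` is a square, or `w` times a square, or
of the form `s ^ 2 (1 + x)` with `x` of odd valuation and `4 = x y`, `y` in the maximal ideal.

Proof. Odd residue characteristic: by HM-15 `w` is a unit and not a square (`X ^ 2 + X - r` has
discriminant `w`), so by HM-12 `u` or `u w` is a square. [If `u` is not a square then `u w` is a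
square `t ^ 2`, and `u = w (t / w) ^ 2`.]
Even residue characteristic (`2` in the maximal ideal): the residue field `κ` is a finite field of
characteristic two, so every element of `κ` is a square: there is a unit `s₀` with
`u = s₀ ^ 2 (1 + x₀)`, `x₀` in the maximal ideal. Among all representations `u = s ^ 2 (1 + x)` with
`s` a unit and `x` in the maximal ideal:
(a) if there is one with `4 p ∣ x` (`p` a uniformizer) then `1 + x` is a square by Hensel's lemma
    (`(1 + 2 z) ^ 2 = 1 + 4 (z + z ^ 2)`, and `Z ^ 2 + Z = x / 4` has a solution with `z` in the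
    maximal ideal), so `u` is a square.
(b) Otherwise the valuation of `x` is at most that of `4`, so it is bounded: take a representation
    with the valuation of `x` maximal (`x ≠ 0`, as `0` is divisible by `4 p`). Let `2 e` be the
    valuation of `4` and `n` that of `x`, `n ≤ 2 e`.
    - `n` odd: then `n < 2 e` and we are in the third case.
    - `n = 2 i < 2 e` even: `x = p ^ (2 i) v`, `v` a unit, `v ≡ t ^ 2` modulo the maximal ideal.
      `(1 + x) - (1 + t p ^ i) ^ 2 = (v - t ^ 2) p ^ (2 i) - 2 t p ^ i` has valuation `> 2 i` (the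
      second term has valuation `≥ e + i > 2 i`), so `1 + x = (1 + t p ^ i) ^ 2 (1 + x')` with the
      valuation of `x'` bigger than `n` (here `i ≥ 1`, so `1 + t p ^ i` is a unit): contradiction.
    - `n = 2 e`: `x = 4 v`, `v` a unit. If `z ^ 2 + z ≡ v` modulo the maximal ideal has a solution
      then `1 + x = (1 + 2 z) ^ 2 + 4 (v - z - z ^ 2) = (1 + 2 z) ^ 2 (1 + x')` with `4 p ∣ x'`:
      contradiction to (b). Otherwise, the image of `z ↦ z ^ 2 + z` on `κ` is a subgroup of index
      two (additive map with kernel `{0, 1}`), and neither `v` nor `r` belongs to it, so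
      `v - r ≡ z ^ 2 + z` for some `z`; then `(1 + 4 r) (1 + 2 z) ^ 2 ≡ 1 + 4 (r + z + z ^ 2) ≡ 1 + x`
      modulo `4 p`, so `1 + x = w (1 + 2 z) ^ 2 (1 + x')`, `4 p ∣ x'`, and `1 + x'` is a square as
      in (a). So `u` is `w` times a square. -/
theorem unit_trichotomy {p : O} (hp : Irreducible p) {r : O}
    (hr : ∀ x : ResidueField O, x ^ 2 + x ≠ residue O r) (h2 : (2 : O) ≠ 0) (u : Oˣ) :
    IsSquare (u : O) ∨ (∃ s : O, (u : O) = (1 + 4 * r) * s ^ 2) ∨
      ∃ (s x y : O) (j : ℕ), (u : O) = s ^ 2 * (1 + x) ∧ x * y = 4 ∧ y ∈ maximalIdeal O ∧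
        HasOrd p (algebraMap O K x) (2 * (j : ℤ) + 1) := by
  by_cases h2u : IsUnit (2 : O)
  · -- odd residue characteristic
    obtain ⟨i2, hi2⟩ := h2u.exists_right_inv
    have hw : IsUnit (1 + 4 * r) := by
      rcases h17_unit_or hp (1 + 4 * r) with h | h
      · exact h
      · exfalso
        rw [← h17_mem hp] at h
        refine hr (residue O (-i2)) ?_
        rw [← map_pow, ← map_add, ← sub_eq_zero, ← map_sub]
        have h3 : (-i2) ^ 2 + -i2 - r = -(i2 ^ 2) * (1 + 4 * r) := by
          linear_combination (i2 + r * (2 * i2 + 1)) * hi2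
        rw [h3, map_mul, h, mul_zero]
    obtain ⟨w, hw'⟩ := hw
    have hwK : ¬ IsSquare (algebraMap O K (w : O)) := by
      intro h
      obtain ⟨t, ht⟩ := h17_isSquare h
      refine hr (residue O ((t - 1) * i2)) ?_
      rw [← map_pow, ← map_add]
      congr 1
      have h4 : t * t = 1 + 4 * r := by rw [← ht, hw']
      have h5 : 2 * (2 * (((t - 1) * i2) ^ 2 + (t - 1) * i2)) = 2 * (2 * r) := by
        linear_combination ((t - 1) ^ 2 * (2 * i2 + 1) + 2 * (t - 1)) * hi2 + h4
      exact mul_left_cancel₀ h2 (mul_left_cancel₀ h2 h5)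
    by_cases hu : IsSquare (algebraMap O K (u : O))
    · exact Or.inl (h17_isSquare hu)
    · right; left
      obtain ⟨t, ht⟩ := isSquare_mul_of_not (K := K) h2u w u hwK hu
      refine ⟨t * ((w⁻¹ : Oˣ) : O), ?_⟩
      have h6 : (w : O) * ((w⁻¹ : Oˣ) : O) = 1 := Units.mul_inv w
      rw [← hw']
      have h7 : (w : O) * (t * ((w⁻¹ : Oˣ) : O)) ^ 2
          = (t * t) * ((w : O) * ((w⁻¹ : Oˣ) : O)) * ((w⁻¹ : Oˣ) : O) := by ring
      rw [h7, ← ht, h6]
      linear_combination (-(u : O)) * h6
  · -- even residue characteristic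
    obtain ⟨e, ε, hε⟩ := IsDiscreteValuationRing.eq_unit_mul_pow_irreducible h2 hp
    have he : 1 ≤ e := by
      rcases Nat.eq_zero_or_pos e with h | h
      · exfalso; apply h2u; rw [hε, h, pow_zero, mul_one]; exact ε.isUnit
      · exact h
    have h2p : p ∣ 2 := by
      rw [hε]; exact Dvd.dvd.mul_left (dvd_pow_self p (by omega)) _
    have hchar : CharP (ResidueField O) 2 := by
      refine (CharP.charP_iff_prime_eq_zero Nat.prime_two).mpr ?_
      have h7 : residue O (2 : O) = 0 := (h17_mem hp).mpr h2p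
      rw [map_ofNat] at h7
      exact_mod_cast h7
    obtain ⟨t', ht'⟩ := FiniteField.isSquare_of_char_two (ringChar.eq (ResidueField O) 2)
      (residue O (u : O))
    obtain ⟨s, rfl⟩ := residue_surjective t'
    have hsu : p ∣ (u : O) - s ^ 2 := by
      rw [← h17_mem hp, map_sub, ht', map_pow]; ring
    have hs : IsUnit s := by
      rcases h17_unit_or hp s with h | h
      · exact h
      · exfalso
        have h8 : p ∣ (u : O) := by
          have h9 := dvd_add hsu (Dvd.dvd.pow h (two_ne_zero))
          simpa using h9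
        exact hp.not_isUnit (isUnit_of_dvd_unit h8 u.isUnit)
    obtain ⟨s', rfl⟩ := hs
    obtain ⟨c, hc⟩ := hsu
    have h10 : (s' : O) * ((s'⁻¹ : Oˣ) : O) = 1 := Units.mul_inv s'
    refine h17_main (K := K) hp hr he hε (u : O) (2 * e) 1 le_rfl (by omega) (s' : O)
      (p * c * ((s'⁻¹ : Oˣ) : O) ^ 2) ?_ ⟨c * ((s'⁻¹ : Oˣ) : O) ^ 2, by ring⟩
    linear_combination hc - (p * c * ((s' : O) * ((s'⁻¹ : Oˣ) : O) + 1)) * h10

end DVR

end Pool.Agent.Lib.MP_12adaf_nt.HM
end

section

/-!
# The index of the squares of the field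
-/

namespace Pool.Agent.Lib.MP_12adaf_nt.HM

open IsLocalRing

private lemma sqI_equiv {M N : Type*} [CommGroup M] [CommGroup N] (e : M ≃* N) :
    sqI M = sqI N := by
  unfold sqI
  rw [← Subgroup.index_map_equiv (powMonoidHom 2 : M →* M).range e]
  congr 1
  ext y
  simp only [Subgroup.mem_map, MonoidHom.mem_range, powMonoidHom_apply]
  constructor
  · rintro ⟨x, ⟨z, rfl⟩, rfl⟩
    exact ⟨e z, by simp⟩
  · rintro ⟨z, rfl⟩
    exact ⟨(e.symm z) ^ 2, ⟨e.symm z, rfl⟩, by simp⟩

section DVR

variable {O K : Type*} [CommRing O] [IsDomain O] [IsDiscreteValuationRing O]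
  [HenselianLocalRing O] [Finite (ResidueField O)] [Field K] [Algebra O K] [IsFractionRing O K]

/-- **Job HM-20.** The index of the squares of the field: `Kˣ = p ^ ℤ × Oˣ`
(`sqI_of_surj` for the valuation, whose kernel is isomorphic to `Oˣ`). -/
theorem sqI_field {p : O} (hp : Irreducible p) (h2 : (2 : O) ≠ 0) {e : ℕ}
    (he : Associated (2 : O) (p ^ e)) : sqI Kˣ = 4 * Nat.card (ResidueField O) ^ e := by
  classical
  have hinj : Function.Injective (algebraMap O K) := IsFractionRing.injective O K
  have hp0 : algebraMap O K p ≠ 0 := by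
    rw [Ne, map_eq_zero_iff _ hinj]
    exact hp.ne_zero
  have hex : ∀ x : Kˣ, ∃ n : ℤ, HasOrd p (x : K) n := fun x => exists_hasOrd hp x.ne_zero
  choose v hv using hex
  have hmul : ∀ x y : Kˣ, v (x * y) = v x + v y := by
    intro x y
    obtain ⟨a, ha⟩ := hv x
    obtain ⟨b, hb⟩ := hv y
    refine HasOrd.unique hp (hv (x * y)) ⟨a * b, ?_⟩
    rw [Units.val_mul, ha, hb, zpow_add₀ hp0, Units.val_mul, map_mul]
    ring
  have hone : v 1 = 0 := by
    have := hmul 1 1
    rw [mul_one] at this
    omega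
  let f : Kˣ →* Multiplicative ℤ :=
    { toFun := fun x => Multiplicative.ofAdd (v x)
      map_one' := by rw [hone]; rfl
      map_mul' := fun x y => by rw [hmul, ofAdd_add] }
  have hf : Function.Surjective f := by
    intro n
    refine ⟨Units.mk0 (algebraMap O K p ^ (Multiplicative.toAdd n)) (zpow_ne_zero _ hp0), ?_⟩
    change Multiplicative.ofAdd (v _) = n
    rw [HasOrd.unique hp (hv _) (n := Multiplicative.toAdd n) ⟨1, by simp⟩]
    rfl
  have hker : ∀ x : Kˣ, x ∈ f.ker ↔ v x = 0 := by
    intro x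
    rw [MonoidHom.mem_ker]
    exact ⟨fun h => Multiplicative.ofAdd.injective h, fun h => by
      change Multiplicative.ofAdd (v x) = 1
      rw [h]; rfl⟩
  let g : Oˣ →* f.ker := (Units.map (algebraMap O K : O →* K)).codRestrict f.ker (by
    intro u
    rw [hker]
    exact HasOrd.unique hp (hv _) ⟨u, by simp⟩)
  have hg : Function.Bijective g := by
    constructor
    · intro a b hab
      have h1 : ((g a : Kˣ) : K) = ((g b : Kˣ) : K) := by rw [hab]
      exact Units.ext (hinj h1)
    · rintro ⟨x, hx⟩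
      obtain ⟨u, hu⟩ := hv x
      rw [(hker x).1 hx, zpow_zero, one_mul] at hu
      refine ⟨u, Subtype.ext (Units.ext ?_)⟩
      exact hu.symm
  have h3 := sqI_equiv (MulEquiv.ofBijective g hg)
  rw [sqI_of_surj f hf, ← h3, sqI_units hp h2 he]
  ring

end DVR

end Pool.Agent.Lib.MP_12adaf_nt.HM
end

section

/-!
# Every nonsquare has a non-norm
-/

namespace Pool.Agent.Lib.MP_12adaf_nt.HM

open IsLocalRing

section DVR

variable {O K : Type*} [CommRing O] [IsDomain O] [IsDiscreteValuationRing O]
  [HenselianLocalRing O] [Finite (ResidueField O)] [Field K] [Algebra O K] [IsFractionRing O K]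

/-- **Job HM-18.** Every nonsquare `b` has a non-norm.

Proof. (`NF b c` means that `c` is a norm from `K(√b)`; `NS b` is a group; `nf_comm`; `1 - b` and
`-b` are norms; `nf_mul_sq_left`.) Let `r`, `w = 1 + 4 r` be as in HM-15, `p` a uniformizer; `w ≠ 0`
(if `w = 0`, then `2` is a unit and `x = -1/2` solves `x ^ 2 + x = r`), and elements of odd
valuation are not norms from `K(√w)` (HM-16).
- `b` of odd valuation: `c := w`. If `NF b w` then `NF w b` (`nf_comm`), contradicting HM-16.
- `b` of even valuation: dividing by the square `p ^ (2 m)` we may assume that `b = u` is a unit.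
  By HM-17: `u` a square is excluded. If `u = w s ^ 2` then `c := p` works, by HM-16.
  Otherwise `u = s ^ 2 (1 + x)`, `x` of odd valuation, `4 = x y'`, `y'` in the maximal ideal. We may
  replace `b` by `1 + x`. Let `y := r y' (1 + x)`, in the maximal ideal, so `1 + y` is a unit, and
  `x y = 4 r (1 + x)`. Put `c := 1 + y`. Suppose `NF (1 + x) (1 + y)`. As `NF (1 + x) (-x)`
  (`1 - b = -x`), `NF (1 + x) (-x (1 + y))`, so with `g := -x (1 + y)` (nonzero, of odd valuation):
  `NF g (1 + x)`. Also `NF g (1 - g)` and `1 - g = 1 + x + x y = (1 + x) (1 + 4 r) = (1 + x) w`. So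
  `NF g w` (`NS g` is a group), so `NF w g`, contradicting HM-16. -/
theorem exists_not_nf_dvr (h2 : (2 : O) ≠ 0) {b : K} (hb : ¬ IsSquare b) :
    ∃ c : K, c ≠ 0 ∧ ¬ NF b c := by
  obtain ⟨p, hp⟩ := IsDiscreteValuationRing.exists_irreducible O
  obtain ⟨r, hr⟩ := exists_unram (O := O)
  have hinj : Function.Injective (algebraMap O K) := IsFractionRing.injective O K
  have h2K : (2 : K) ≠ 0 := by
    intro h
    apply h2
    apply hinj
    rw [map_ofNat, map_zero]
    exact h
  have hp0 : algebraMap O K p ≠ 0 := fun h => hp.ne_zero (hinj (by rw [h, map_zero]))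
  have hunit0 : ∀ u : Oˣ, algebraMap O K (u : O) ≠ 0 := fun u h =>
    u.ne_zero (hinj (by rw [h, map_zero]))
  have hw0 : algebraMap O K (1 + 4 * r) ≠ 0 := by
    intro h
    have h1 : (1 : O) + 4 * r = 0 := hinj (by rw [h, map_zero])
    apply hr (residue O (2 * r))
    rw [← map_pow, ← map_add]
    congr 1
    linear_combination r * h1
  have h16 : ∀ (c : K) (n : ℤ), HasOrd p c n → ¬ Even n →
      ¬ NF (algebraMap O K (1 + 4 * r)) c := fun c n hc hn h =>
    hn (even_of_nf_unram hp hr hc h)
  have hb0 : b ≠ 0 := by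
    intro h
    apply hb
    rw [h]
    exact ⟨0, by ring⟩
  obtain ⟨n, hn⟩ := exists_hasOrd (K := K) hp hb0
  by_cases hev : Even n
  · obtain ⟨m, rfl⟩ := hev
    obtain ⟨u, hu⟩ := hn
    have hpm : algebraMap O K p ^ m ≠ 0 := zpow_ne_zero _ hp0
    have hb1 : b = algebraMap O K (u : O) * (algebraMap O K p ^ m) ^ 2 := by
      rw [hu, zpow_add₀ hp0]
      ring
    have hu1 : ¬ IsSquare (algebraMap O K (u : O)) := by
      rintro ⟨z, hz⟩
      exact hb ⟨z * algebraMap O K p ^ m, by rw [hb1, hz]; ring⟩
    suffices H : ∃ c : K, c ≠ 0 ∧ ¬ NF (algebraMap O K (u : O)) c by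
      obtain ⟨c, hc0, hc⟩ := H
      exact ⟨c, hc0, by rw [hb1, nf_mul_sq_left hpm]; exact hc⟩
    rcases unit_trichotomy (K := K) hp hr h2 u with h | ⟨s, hs⟩ | ⟨s, x, y, j, hs, hxy, hy, hx⟩
    · obtain ⟨z, hz⟩ := h
      exact absurd ⟨algebraMap O K z, by rw [hz, map_mul]⟩ hu1
    · refine ⟨algebraMap O K p, hp0, ?_⟩
      have hs0 : algebraMap O K s ≠ 0 := by
        intro h
        apply hunit0 u
        rw [hs, map_mul, map_pow, h]
        ring
      rw [hs, map_mul, map_pow, nf_mul_sq_left hs0]
      exact h16 _ 1 ⟨1, by rw [zpow_one, Units.val_one, map_one, mul_one]⟩ (by decide)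
    · have hs0 : algebraMap O K s ≠ 0 := by
        intro h
        apply hunit0 u
        rw [hs, map_mul, map_pow, h]
        ring
      have hx1 : (1 : K) + algebraMap O K x ≠ 0 := by
        intro h
        apply hunit0 u
        rw [hs, map_mul, map_add, map_one, h, mul_zero]
      obtain ⟨Y, hY⟩ : ∃ Y : O, Y = r * y * (1 + x) := ⟨_, rfl⟩
      have hYm : Y ∈ maximalIdeal O := by
        rw [hY]
        exact Ideal.mul_mem_right _ _ (Ideal.mul_mem_left _ _ hy)
      have hYu : IsUnit (1 + Y) := by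
        by_contra hcon
        have h3 : (1 + Y) ∈ maximalIdeal O := (mem_maximalIdeal _).mpr hcon
        have h4 : (1 : O) ∈ maximalIdeal O := by
          have h5 := Ideal.sub_mem _ h3 hYm
          rwa [add_sub_cancel_right] at h5
        exact (Ideal.ne_top_iff_one _).mp (maximalIdeal.isMaximal O).ne_top h4
      obtain ⟨v, hv⟩ := hYu
      have hc0 : (1 : K) + algebraMap O K Y ≠ 0 := by
        intro h
        apply hunit0 v
        rw [hv, map_add, map_one, h]
      refine ⟨1 + algebraMap O K Y, hc0, ?_⟩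
      have hu2 : algebraMap O K (u : O) = (1 + algebraMap O K x) * (algebraMap O K s) ^ 2 := by
        rw [hs, map_mul, map_pow, map_add, map_one]
        ring
      rw [hu2, nf_mul_sq_left hs0]
      intro hnf
      have hA : NF (1 + algebraMap O K x) (-algebraMap O K x) := by
        have h3 := nf_one_sub (1 + algebraMap O K x)
        have h4 : (1 : K) - (1 + algebraMap O K x) = -algebraMap O K x := by ring
        rwa [h4] at h3
      obtain ⟨t, ht⟩ := hx
      have hx0 : algebraMap O K x ≠ 0 := by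
        rw [ht]
        exact mul_ne_zero (zpow_ne_zero _ hp0) (hunit0 t)
      set g : K := -algebraMap O K x * (1 + algebraMap O K Y) with hg
      have hg0 : g ≠ 0 := mul_ne_zero (neg_ne_zero.mpr hx0) hc0
      have hB : NF (1 + algebraMap O K x) g := hA.mul hnf
      have hC : NF g (1 + algebraMap O K x) := NF.symm h2K hg0 hB
      have hD : NF g (1 - g) := nf_one_sub g
      have hXY : algebraMap O K x * algebraMap O K Y =
          4 * algebraMap O K r * (1 + algebraMap O K x) := by
        rw [hY, map_mul, map_mul, map_add, map_one]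
        have h6 : algebraMap O K x * algebraMap O K y = 4 := by
          rw [← map_mul, hxy, map_ofNat]
        linear_combination (algebraMap O K r * (1 + algebraMap O K x)) * h6
      have hE : (1 - g) * (1 + algebraMap O K x)⁻¹ = algebraMap O K (1 + 4 * r) := by
        have hw1 : algebraMap O K (1 + 4 * r) = 1 + 4 * algebraMap O K r := by
          rw [map_add, map_one, map_mul, map_ofNat]
        rw [hw1, hg, ← div_eq_mul_inv, div_eq_iff hx1]
        linear_combination hXY
      have hF : NF g (algebraMap O K (1 + 4 * r)) := by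
        rw [← hE]
        exact hD.mul hC.inv
      have hG : NF (algebraMap O K (1 + 4 * r)) g := NF.symm h2K hw0 hF
      refine h16 g (2 * (j : ℤ) + 1) ⟨-(t * v), ?_⟩ ?_ hG
      · have hv1 : algebraMap O K (v : O) = 1 + algebraMap O K Y := by
          rw [hv, map_add, map_one]
        rw [hg, ht, Units.val_neg, Units.val_mul, map_neg, map_mul, hv1]
        ring
      · rw [Int.not_even_iff_odd]
        exact ⟨j, rfl⟩
  · exact ⟨algebraMap O K (1 + 4 * r), hw0, fun h =>
      h16 b n hn hev (NF.symm h2K hw0 h)⟩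

end DVR

end Pool.Agent.Lib.MP_12adaf_nt.HM
end

section

/-!
# The index of the squares at a finite place
-/

namespace Pool.Agent.Lib.MP_12adaf_nt.HM

open NumberField IsDedekindDomain IsDedekindDomain.HeightOneSpectrum IsLocalRing

variable {k : Type*} [Field k] [NumberField k]

private lemma exists_irr_fin (w : HeightOneSpectrum (𝓞 k)) :
    ∃ p : w.adicCompletionIntegers k, Irreducible p ∧
      Valued.v (p : w.adicCompletion k) = WithZero.exp (-1 : ℤ) := by
  obtain ⟨π, hπ⟩ := w.valuation_exists_uniformizer k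
  have h1 : Valued.v (algebraMap k (w.adicCompletion k) π) = WithZero.exp (-1 : ℤ) := by
    have := valuedAdicCompletion_eq_valuation' (v := w) π
    change Valued.v (algebraMap k (w.adicCompletion k) π) = _ at this
    rw [this, hπ]
  have hlt : WithZero.exp (-1 : ℤ) < 1 := by
    rw [← WithZero.exp_zero, WithZero.exp_lt_exp]
    norm_num
  refine ⟨⟨algebraMap k (w.adicCompletion k) π, ?_⟩, ?_, h1⟩
  · rw [mem_adicCompletionIntegers, h1]
    exact hlt.le
  · rw [irreducible_iff]
    refine ⟨?_, ?_⟩
    · rw [adicCompletionIntegers.isUnit_iff_valued_eq_one]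
      change ¬ Valued.v (algebraMap k (w.adicCompletion k) π) = 1
      rw [h1]
      exact hlt.ne
    · intro a b hab
      rw [adicCompletionIntegers.isUnit_iff_valued_eq_one,
        adicCompletionIntegers.isUnit_iff_valued_eq_one]
      have h2 : Valued.v (a : w.adicCompletion k) * Valued.v (b : w.adicCompletion k) =
          WithZero.exp (-1 : ℤ) := by
        rw [← map_mul, ← h1]
        congr 1
        exact (congrArg Subtype.val hab).symm
      have ha : Valued.v (a : w.adicCompletion k) ≤ 1 := a.2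
      have hb : Valued.v (b : w.adicCompletion k) ≤ 1 := b.2
      have ha0 : Valued.v (a : w.adicCompletion k) ≠ 0 := by
        intro h; rw [h, zero_mul] at h2; exact WithZero.exp_ne_zero h2.symm
      have hb0 : Valued.v (b : w.adicCompletion k) ≠ 0 := by
        intro h; rw [h, mul_zero] at h2; exact WithZero.exp_ne_zero h2.symm
      obtain ⟨m, hm⟩ : ∃ m : ℤ, Valued.v (a : w.adicCompletion k) = WithZero.exp m :=
        ⟨_, (WithZero.exp_log ha0).symm⟩
      obtain ⟨n, hn⟩ : ∃ n : ℤ, Valued.v (b : w.adicCompletion k) = WithZero.exp n :=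
        ⟨_, (WithZero.exp_log hb0).symm⟩
      rw [hm, hn, ← WithZero.exp_add, WithZero.exp_inj] at h2
      rw [hm, ← WithZero.exp_zero, WithZero.exp_le_exp] at ha
      rw [hn, ← WithZero.exp_zero, WithZero.exp_le_exp] at hb
      rw [hm, hn, ← WithZero.exp_zero, WithZero.exp_inj, WithZero.exp_inj]
      omega

/-- **Job HM-26.** The index of the squares at a finite place: `4 * N(w) ^ e`, where `e` is the
valuation of `2`. (HM-20, HM-22; `2 = p ^ e * unit` in the integers of the completion.) -/
theorem sqI_fin (w : HeightOneSpectrum (𝓞 k)) {e : ℕ}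
    (he : w.valuation k 2 = WithZero.exp (-(e : ℤ))) :
    sqI (w.adicCompletion k)ˣ = 4 * Ideal.absNorm w.asIdeal ^ e := by
  obtain ⟨p, hp, hpv⟩ := exists_irr_fin w
  have h2 : (2 : w.adicCompletionIntegers k) ≠ 0 := by
    intro h
    have h' : ((2 : w.adicCompletionIntegers k) : w.adicCompletion k) = 0 := by rw [h]; rfl
    exact two_ne_zero (α := w.adicCompletion k) h'
  have hv2 : Valued.v ((2 : w.adicCompletionIntegers k) : w.adicCompletion k) =
      WithZero.exp (-(e : ℤ)) := by
    have := valuedAdicCompletion_eq_valuation' (v := w) (2 : k)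
    change Valued.v (algebraMap k (w.adicCompletion k) 2) = _ at this
    rw [map_ofNat] at this
    rw [← he, ← this]
    rfl
  have hve : Valued.v ((p ^ e : w.adicCompletionIntegers k) : w.adicCompletion k) =
      WithZero.exp (-(e : ℤ)) := by
    have : ((p ^ e : w.adicCompletionIntegers k) : w.adicCompletion k) =
      (p : w.adicCompletion k) ^ e := rfl
    rw [this, map_pow, hpv, ← WithZero.exp_nsmul]
    congr 1
    simp
  have hI := adicCompletionIntegers.integers k w
  have hass : Associated (2 : w.adicCompletionIntegers k) (p ^ e) := by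
    apply associated_of_dvd_dvd
    · rw [hI.dvd_iff_le]
      change Valued.v ((p ^ e : w.adicCompletionIntegers k) : w.adicCompletion k) ≤
        Valued.v ((2 : w.adicCompletionIntegers k) : w.adicCompletion k)
      rw [hv2, hve]
    · rw [hI.dvd_iff_le]
      change Valued.v ((2 : w.adicCompletionIntegers k) : w.adicCompletion k) ≤
        Valued.v ((p ^ e : w.adicCompletionIntegers k) : w.adicCompletion k)
      rw [hv2, hve]
  rw [sqI_field (K := w.adicCompletion k) hp h2 hass, card_residue_fin]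

end Pool.Agent.Lib.MP_12adaf_nt.HM
end

section

/-!
# The product of the indices of the squares
-/

namespace Pool.Agent.Lib.MP_12adaf_nt.HM

open NumberField IsDedekindDomain IsDedekindDomain.HeightOneSpectrum IsLocalRing

variable {k : Type*} [Field k] [NumberField k]

/-- The exponent of `w` in the ideal `(2)`. -/
private noncomputable def eTwo (w : HeightOneSpectrum (𝓞 k)) : ℕ :=
  (Associates.mk w.asIdeal).count (Associates.mk (Ideal.span {(2 : 𝓞 k)})).factors

private lemma valuation_two (w : HeightOneSpectrum (𝓞 k)) :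
    w.valuation k 2 = WithZero.exp (-(eTwo w : ℤ)) := by
  have h1 : (2 : k) = algebraMap (𝓞 k) k 2 := by rw [map_ofNat]
  rw [h1, valuation_of_algebraMap, intValuation_if_neg _ two_ne_zero]
  rfl

/-- The norm of the ideal `(2)`. -/
private lemma prod_norm (T : Finset (HeightOneSpectrum (𝓞 k)))
    (hT : ∀ w ∉ T, w.valuation k 2 = 1) :
    ∏ w ∈ T, Ideal.absNorm w.asIdeal ^ eTwo w = 2 ^ Module.finrank ℚ k := by
  have h0 : (Ideal.span {(2 : 𝓞 k)}) ≠ 0 := by
    rw [Ne, Ideal.zero_eq_bot, Ideal.span_singleton_eq_bot]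
    exact two_ne_zero
  have h1 := Ideal.finprod_heightOneSpectrum_factorization h0
  have h2 : Function.mulSupport
      (fun v : HeightOneSpectrum (𝓞 k) => v.maxPowDividing (Ideal.span {(2 : 𝓞 k)})) ⊆
        (T : Set (HeightOneSpectrum (𝓞 k))) := by
    intro v hv
    by_contra hvT
    apply hv
    have h3 : eTwo v = 0 := by
      have h4 := hT v hvT
      rw [valuation_two, ← WithZero.exp_zero] at h4
      have h5 := WithZero.exp_injective h4
      omega
    show v.asIdeal ^ eTwo v = 1
    rw [h3, pow_zero]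
  rw [finprod_eq_prod_of_mulSupport_subset _ h2] at h1
  have h3 := congrArg Ideal.absNorm h1
  rw [map_prod, Ideal.absNorm_span_singleton] at h3
  have h4 : (Algebra.norm ℤ) (2 : 𝓞 k) = 2 ^ Module.finrank ℚ k := by
    have h5 := Algebra.norm_algebraMap (R := ℤ) (S := 𝓞 k) 2
    rw [map_ofNat, RingOfIntegers.rank] at h5
    exact h5
  rw [h4] at h3
  rw [Int.natAbs_pow] at h3
  rw [← show ((2 : ℤ).natAbs) = 2 from rfl, ← h3]
  refine Finset.prod_congr rfl fun w _ => ?_
  show _ = Ideal.absNorm (w.asIdeal ^ eTwo w)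
  rw [map_pow]

/-- The product of the indices at the infinite places. -/
private lemma prod_inf : ∏ v : InfinitePlace k, sqI (v.Completion)ˣ =
    2 ^ InfinitePlace.nrRealPlaces k := by
  classical
  have h1 : ∀ v : InfinitePlace k, sqI (v.Completion)ˣ = if v.IsReal then 2 else 1 := by
    intro v
    split_ifs with h
    · exact (sqI_inf v).1 h
    · exact (sqI_inf v).2 (InfinitePlace.not_isReal_iff_isComplex.mp h)
  rw [Finset.prod_congr rfl fun v _ => h1 v, Finset.prod_ite, Finset.prod_const,
    Finset.prod_const_one, mul_one]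
  congr 1
  rw [InfinitePlace.nrRealPlaces, Fintype.card_subtype]

/-- **Job HM-28.** The product of the indices of the squares.

Proof. Let `e w` be the valuation of `2` at `w` (`w.valuation k 2 = exp (- e w)`, `e w ≥ 0`, `= 0`
outside `T`). By HM-26 and HM-27 the product is `2 ^ r₁ * 4 ^ |T| * ∏_{w ∈ T} N(w) ^ (e w)`. The
ideal `(2)` of `𝓞 k` is `∏ w ^ (e w)` and has norm `2 ^ n`, `n = [k : ℚ] = r₁ + 2 r₂`
(`Ideal.absNorm_span_singleton`, `Algebra.norm_algebraMap`; or use the product formula
`NumberField.prod_abs_eq_one` for `x = 2`). The total is `2 ^ (2 r₁ + 2 r₂) * 4 ^ |T|`. -/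
theorem prod_sqI (T : Finset (HeightOneSpectrum (𝓞 k)))
    (hT : ∀ w ∉ T, w.valuation k 2 = 1) :
    ∏ i ∈ SP k T, sqI (PlC k i)ˣ = 4 ^ (SP k T).card := by
  have h1 : ∏ i ∈ SP k T, sqI (PlC k i)ˣ =
      (∏ v : InfinitePlace k, sqI (v.Completion)ˣ) * ∏ w ∈ T, sqI (w.adicCompletion k)ˣ :=
    Finset.prod_disjSum _ _ _
  have h2 : ∏ w ∈ T, sqI (w.adicCompletion k)ˣ = 4 ^ T.card * 2 ^ Module.finrank ℚ k := by
    rw [← prod_norm T hT, ← Finset.prod_const, ← Finset.prod_mul_distrib]
    exact Finset.prod_congr rfl fun w _ => sqI_fin w (valuation_two w)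
  have h3 : (SP k T).card = InfinitePlace.nrRealPlaces k + InfinitePlace.nrComplexPlaces k +
      T.card := by
    rw [SP, Finset.card_disjSum, Finset.card_univ,
      InfinitePlace.card_eq_nrRealPlaces_add_nrComplexPlaces]
  have h4 : ∀ n : ℕ, (4 : ℕ) ^ n = 2 ^ (2 * n) := fun n => by
    rw [pow_mul]
    norm_num
  rw [h1, h2, prod_inf, h3, ← InfinitePlace.card_add_two_mul_card_eq_rank k, h4, h4]
  simp only [← pow_add]
  congr 1
  ring

end Pool.Agent.Lib.MP_12adaf_nt.HM
end

section

/-!
# Non-norms in the completions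
-/

namespace Pool.Agent.Lib.MP_12adaf_nt.HM

open NumberField IsDedekindDomain IsDedekindDomain.HeightOneSpectrum IsLocalRing

variable {k : Type*} [Field k] [NumberField k]

private lemma h24_real {F : Type*} [Field F] (e : F ≃+* ℝ) {b : F} (hb : ¬ IsSquare b) :
    ∃ c : F, c ≠ 0 ∧ ¬ NF b c := by
  have hneg : e b < 0 := by
    by_contra hcon
    push Not at hcon
    apply hb
    refine ⟨e.symm (Real.sqrt (e b)), ?_⟩
    apply e.injective
    rw [map_mul, e.apply_symm_apply, Real.mul_self_sqrt hcon]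
  refine ⟨-1, neg_ne_zero.mpr one_ne_zero, ?_⟩
  rintro ⟨x, y, h⟩
  have h1 : e (-1) = e x ^ 2 - e b * e y ^ 2 := by
    rw [h, map_sub, map_mul, map_pow, map_pow]
  rw [map_neg, map_one] at h1
  nlinarith [sq_nonneg (e x), mul_nonneg (neg_nonneg.mpr hneg.le) (sq_nonneg (e y))]

private lemma h24_complex {F : Type*} [Field F] (e : F ≃+* ℂ) {b : F} (hb : ¬ IsSquare b) :
    False := by
  apply hb
  obtain ⟨z, hz⟩ := IsAlgClosed.exists_pow_nat_eq (e b) (n := 2) (by norm_num)
  refine ⟨e.symm z, ?_⟩
  apply e.injective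
  rw [map_mul, e.apply_symm_apply, ← hz, sq]

/-- **Job HM-24.** Every nonsquare in a completion has a non-norm. Finite places: HM-18. Complex
places: every element is a square. Real places: `b < 0`, `c = -1`
(`exists_equiv_real_or_complex`). -/
theorem exists_not_nf (i : Pl k) {b : PlC k i} (hb : ¬ IsSquare b) : ∃ c, c ≠ 0 ∧ ¬ NF b c := by
  rcases i with v | w
  · rcases exists_equiv_real_or_complex v with ⟨e, _⟩ | ⟨e, _⟩
    · exact h24_real (F := v.Completion) e hb
    · exact absurd (h24_complex (F := v.Completion) e hb) not_false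
  · have h2 : (2 : w.adicCompletionIntegers k) ≠ 0 := two_ne_zero
    exact exists_not_nf_dvr (O := w.adicCompletionIntegers k) (K := w.adicCompletion k) h2 hb

end Pool.Agent.Lib.MP_12adaf_nt.HM
end
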