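import Mathlib
import Pool.Agent.Lib.MP_12adaf_nt.HM.Basic
import Pool.Agent.Lib.MP_12adaf_nt.HM.Q02
import Pool.Agent.Lib.MP_12adaf_nt.TF.OWeak

section

/-!
# Trivial class groups
-/

namespace Pool.Agent.Lib.MP_12adaf_nt.HM

open NumberField IsDedekindDomain

variable {k : Type*} [Field k] [NumberField k]

/-- **Job HM-06.** Finite sets of places with trivial class group.

Proof. `ClassGroup (𝓞 k)` is finite; choose for every class a nonzero integral ideal
(`ClassGroup.mk0_surjective`), and let `T` be `T₀` together with all prime divisors of these ideals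
(finite). Given `v ∉ T` let `J` be the chosen ideal in the class inverse to that of `v.asIdeal`:
`v.asIdeal * J = (p)` is principal, `p ∈ 𝓞 k`, and the valuation of `p` at `v' ∉ T` is that of
`v.asIdeal * J`, i.e. `exp (-1)` for `v' = v` and `1` otherwise (as `v' ∤ J`). -/
theorem exists_Cl1 (T₀ : Finset (HeightOneSpectrum (𝓞 k))) :
    ∃ T : Finset (HeightOneSpectrum (𝓞 k)), T₀ ⊆ T ∧ Cl1 k T := by
  classical
  choose J hJ using (ClassGroup.mk0_surjective (R := 𝓞 k))
  have hfin : ∀ c, {v : HeightOneSpectrum (𝓞 k) | v.asIdeal ∣ (J c : Ideal (𝓞 k))}.Finite :=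
    fun c => Ideal.finite_factors (nonZeroDivisors.ne_zero (J c).2)
  refine ⟨T₀ ∪ Finset.univ.biUnion (fun c => (hfin c).toFinset), Finset.subset_union_left, ?_⟩
  have hT : ∀ v : HeightOneSpectrum (𝓞 k),
      v ∉ T₀ ∪ Finset.univ.biUnion (fun c => (hfin c).toFinset) →
      ∀ c, ¬ v.asIdeal ∣ (J c : Ideal (𝓞 k)) := by
    intro v hv c hc
    apply hv
    refine Finset.mem_union_right _ (Finset.mem_biUnion.2 ⟨c, Finset.mem_univ _, ?_⟩)
    rw [Set.Finite.mem_toFinset]
    exact hc
  intro v hv
  have hv2 := hT v hv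
  have hv0 : v.asIdeal ∈ nonZeroDivisors (Ideal (𝓞 k)) := mem_nonZeroDivisors_of_ne_zero v.ne_bot
  set c : ClassGroup (𝓞 k) := (ClassGroup.mk0 ⟨v.asIdeal, hv0⟩)⁻¹ with hc
  have h1 : ClassGroup.mk0 (⟨v.asIdeal, hv0⟩ * J c) = 1 := by
    rw [map_mul, hJ, hc, mul_inv_cancel]
  have h2 : (v.asIdeal * (J c : Ideal (𝓞 k))).IsPrincipal :=
    (ClassGroup.mk0_eq_one_iff (mul_mem hv0 (J c).2)).1 h1
  obtain ⟨p, hp⟩ := h2
  have hp' : v.asIdeal * (J c : Ideal (𝓞 k)) = Ideal.span {p} := hp
  refine ⟨algebraMap (𝓞 k) k p, ?_, ?_⟩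
  · rw [HeightOneSpectrum.valuation_of_algebraMap]
    apply le_antisymm
    · have h3 := (v.intValuation_le_pow_iff_dvd p 1).2
        (by rw [pow_one, ← hp']; exact dvd_mul_right _ _)
      simpa using h3
    · have h3 := (HeightOneSpectrum.exp_le_intValuation_iff_emultiplicity_le (v := v) (r := p)
        (n := 1)).2 ?_
      · simpa using h3
      · rw [← ENat.lt_natCast_add_one_iff, ← ENat.natCast_one, ← ENat.natCast_add,
          emultiplicity_lt_iff_not_dvd, ← hp']
        intro h4
        rw [show 1 + 1 = 2 from rfl, sq] at h4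
        exact hv2 c ((mul_dvd_mul_iff_left v.ne_bot).1 h4)
  · intro v' hv' hne
    rw [HeightOneSpectrum.valuation_of_algebraMap]
    rw [HeightOneSpectrum.intValuation_eq_one_iff]
    intro hmem
    rw [← Ideal.dvd_span_singleton, ← hp'] at hmem
    rcases (v'.prime.dvd_mul).1 hmem with h | h
    · apply hne
      have hle : v.asIdeal ≤ v'.asIdeal := Ideal.dvd_iff_le.1 h
      have := v.isMaximal.eq_of_le v'.isPrime.ne_top hle
      exact HeightOneSpectrum.ext this.symm
    · exact hT v' hv' c h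

end Pool.Agent.Lib.MP_12adaf_nt.HM
end

section

/-!
# An index computation
-/

namespace Pool.Agent.Lib.MP_12adaf_nt.HM

open NumberField IsDedekindDomain IsDedekindDomain.HeightOneSpectrum

variable {k : Type*} [Field k] [NumberField k]

/-- The index of a product of subgroups. -/
private lemma index_pi_dep {ι : Type*} [Fintype ι] {V : ι → Type*} [∀ i, CommGroup (V i)]
    (H : ∀ i, Subgroup (V i)) : (Subgroup.pi Set.univ H).index = ∏ i, (H i).index := by
  let g : (∀ i, V i) →* ∀ i, V i ⧸ H i :=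
    MonoidHom.mk' (fun v i => (QuotientGroup.mk (v i) : V i ⧸ H i)) (by
      intro a b
      rfl)
  have hker : g.ker = Subgroup.pi Set.univ H := by
    ext v
    rw [MonoidHom.mem_ker, Subgroup.mem_pi]
    constructor
    · intro h i _
      have h1 := congrFun h i
      exact (QuotientGroup.eq_one_iff (v i)).mp h1
    · intro h
      funext i
      exact (QuotientGroup.eq_one_iff (v i)).mpr (h i (Set.mem_univ i))
  have hsurj : Function.Surjective g := by
    intro q
    have h1 : ∀ i, ∃ a : V i, (QuotientGroup.mk a : V i ⧸ H i) = q i := fun i =>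
      QuotientGroup.mk_surjective (q i)
    choose a ha using h1
    exact ⟨a, funext ha⟩
  rw [← hker, Subgroup.index_ker, MonoidHom.range_eq_top.mpr hsurj]
  simp only [Subgroup.index]
  rw [← Nat.card_pi]
  exact Nat.card_congr Subgroup.topEquiv.toEquiv

/-- **Job HM-55.** Index computation in the product of the completions: abstract group theory.

`V i` (`i ∈ ι` finite) are commutative groups, `N i` subgroups containing the squares, `U → ∏ V i` a
homomorphism `φ` such that only squares of `U` become squares in all `V i`. If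
`∏ [V i : V i²] = 2 * [U : U²]` (all finite) then the index in `U` of the preimage of `∏ N i`, times
two, is at least `∏ [V i : N i]`.

Proof. Let `V = ∏ V i`, `N = ∏ N i ⊇ V²`, `[V : V²] = ∏ [V i : V i²]`, `[V : N] = ∏ [V i : N i]`. As
`φ⁻¹(V²) = U²`, `[φ(U) V² : V²] = [U : U²]`, so `[V : φ(U) V²] = 2` and `[V : φ(U) N]` is `1` or
`2`. `[V : N] = [V : φ(U) N] [φ(U) N : N]`, and `[φ(U) N : N] = [U : φ⁻¹ N]`. -/
theorem index_preimage {ι : Type*} [Fintype ι] {V : ι → Type*} [∀ i, CommGroup (V i)]
    {U : Type*} [CommGroup U] (φ : U →* ∀ i, V i) (N : ∀ i, Subgroup (V i))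
    (hN : ∀ i (x : V i), x ^ 2 ∈ N i) (hsq : ∀ u : U, (∀ i, IsSquare (φ u i)) → IsSquare u)
    (hfin : sqI U ≠ 0) (hcard : ∏ i, sqI (V i) = 2 * sqI U) :
    ∏ i, (N i).index ≤ 2 * (⨅ i, (N i).comap ((Pi.evalMonoidHom V i).comp φ)).index := by
  classical
  set P : Subgroup (∀ i, V i) := Subgroup.pi Set.univ N with hP
  set S : Subgroup (∀ i, V i) :=
    Subgroup.pi Set.univ (fun i => (powMonoidHom 2 : V i →* V i).range) with hS
  have hSP : S ≤ P := by
    intro v hv
    rw [hP, Subgroup.mem_pi]
    rw [hS, Subgroup.mem_pi] at hv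
    intro i hi
    obtain ⟨x, hx⟩ := hv i hi
    rw [← hx]
    exact hN i x
  have hinf : (⨅ i, (N i).comap ((Pi.evalMonoidHom V i).comp φ)) = P.comap φ := by
    ext u
    rw [Subgroup.mem_iInf, Subgroup.mem_comap, hP, Subgroup.mem_pi]
    constructor
    · intro h i _
      exact h i
    · intro h i
      exact h i (Set.mem_univ i)
  have hScomap : S.comap φ = (powMonoidHom 2 : U →* U).range := by
    ext u
    rw [Subgroup.mem_comap, hS, Subgroup.mem_pi]
    constructor
    · intro h
      obtain ⟨w, hw⟩ := hsq u (fun i => by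
        obtain ⟨x, hx⟩ := h i (Set.mem_univ i)
        exact ⟨x, by rw [← hx, powMonoidHom_apply, sq]⟩)
      exact ⟨w, by rw [powMonoidHom_apply, sq, ← hw]⟩
    · rintro ⟨w, hw⟩ i _
      refine ⟨φ w i, ?_⟩
      rw [← hw, powMonoidHom_apply, powMonoidHom_apply, map_pow]
      rfl
  have hSindex : S.index = 2 * sqI U := by
    rw [hS, index_pi_dep]
    exact hcard
  have hPindex : P.index = ∏ i, (N i).index := by
    rw [hP, index_pi_dep]
  have h1 : S.relIndex φ.range = sqI U := by
    rw [← Subgroup.index_comap, hScomap]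
    rfl
  have h2 : S.relIndex (φ.range ⊔ S) = sqI U := by
    rw [Subgroup.relIndex_sup_right, h1]
  have h3 : (φ.range ⊔ S).index = 2 := by
    have h4 := Subgroup.relIndex_mul_index (le_sup_right : S ≤ φ.range ⊔ S)
    rw [h2, hSindex, mul_comm 2] at h4
    exact Nat.eq_of_mul_eq_mul_left (Nat.pos_of_ne_zero hfin) h4
  have h5 : (φ.range ⊔ P).index ≤ 2 := by
    have h6 := Subgroup.index_dvd_of_le (sup_le_sup_left hSP φ.range)
    rw [h3] at h6
    exact Nat.le_of_dvd (by norm_num) h6
  have h7 := Subgroup.relIndex_mul_index (le_sup_right : P ≤ φ.range ⊔ P)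
  rw [Subgroup.relIndex_sup_right, ← Subgroup.index_comap, hPindex] at h7
  rw [hinf, ← h7, mul_comm]
  exact Nat.mul_le_mul_right _ h5

end Pool.Agent.Lib.MP_12adaf_nt.HM
end

section

/-!
# The Herbrand quotient of an involution
-/

namespace Pool.Agent.Lib.MP_12adaf_nt.HM

/-- **Job HM-03.** The Herbrand quotient for an involution, by counting.

Here `M` is a commutative group with an involution `σ`, `P` is (identified by `ι` with) the group of
fixed points, `N x = x * σ x` the norm, and `H^{-1} = 0`. Write `P ⊆ M`, `Mi := {x | x σ x = 1}` (the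
kernel of `N`), `I := N M ⊆ P`, `D x := x / σ x`. All indices below are finite (`I ⊇ N P = P²`).
(1) `[P : P²] = [P : I] [I : P²]`, and `N P = P²`, so `[I : P²] = [N M : N P] = [M : P Mi]`.
(2) `D` maps `M` onto `Mi` (hypothesis `h90`) with kernel `P`, and `D Mi = Mi²` as `σ x = x⁻¹` on
    `Mi`. So `[Mi : Mi²] = [M : P Mi]`. Hence `[P : I] = [P : P²] / [Mi : Mi²]`.
(3) `[M : M²] = [M : M² Mi] [M² Mi : M²] = [I : I²] [Mi : Mi ∩ M²]` (apply `N` for the first
    factor). The squaring map sends `J := {x | (N x)² = 1}` onto `Mi ∩ M²` with kernel `M[2]`, and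
    `Mi` onto `Mi²`; as `M[2] ⊆ P` and `x σ x = x² = 1` for `x ∈ M[2]`, `M[2] ⊆ Mi`. So
    `[Mi ∩ M² : Mi²] = [J : Mi] = |N J| = |I[2]|`.
    So `[Mi : Mi²] = [M : M²] |I[2]| / [I : I²]`.
(4) `[I : I²] |P[2]| = [P : P²] |I[2]|` (`index_sq_finite`), `|P[2]| = 2`. So
    `[Mi : Mi²] = 2 [M : M²] / [P : P²]` and `[P : I] = [P : P²]² / (2 [M : M²])`. -/
theorem herbrand {M P : Type*} [CommGroup M] [CommGroup P] (ι : P →* M) (σ : M →* M) (N : M →* P)
    (hι : Function.Injective ι) (hfix : ∀ x, σ x = x ↔ x ∈ ι.range) (hσ : ∀ x, σ (σ x) = x)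
    (hN : ∀ x, ι (N x) = x * σ x) (h90 : ∀ x, x * σ x = 1 → ∃ y, x = y / σ y)
    (h2 : ∀ x : M, x ^ 2 = 1 → x ∈ ι.range) (h2c : Nat.card {p : P // p ^ 2 = 1} = 2)
    (hM : sqI M ≠ 0) (hP : sqI P ≠ 0) :
    N.range.index ≠ 0 ∧ N.range.index * 2 * sqI M = sqI P ^ 2 := by
  set sM : M →* M := powMonoidHom 2 with hsM
  set sP : P →* P := powMonoidHom 2 with hsP
  have hsMx : ∀ x, sM x = x ^ 2 := fun x => rfl
  have hsPx : ∀ x, sP x = x ^ 2 := fun x => rfl
  have hιfix : ∀ p, σ (ι p) = ι p := fun p => (hfix _).2 ⟨p, rfl⟩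
  have hNι : ∀ p, N (ι p) = p ^ 2 := by
    intro p
    apply hι
    rw [hN, hιfix, map_pow, sq]
  have hkerN : ∀ x, x ∈ N.ker ↔ x * σ x = 1 := by
    intro x
    rw [MonoidHom.mem_ker, ← hN, ← hι.eq_iff, map_one]
  -- the map `D`
  let D : M →* M :=
    { toFun := fun x => x / σ x
      map_one' := by simp
      map_mul' := fun x y => by rw [map_mul, mul_div_mul_comm] }
  have hD : ∀ x, D x = x / σ x := fun x => rfl
  have hDker : D.ker = ι.range := by
    ext x
    rw [MonoidHom.mem_ker, hD, div_eq_one, ← hfix]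
    exact eq_comm
  have hDrange : D.range = N.ker := by
    ext x
    rw [hkerN]
    constructor
    · rintro ⟨y, rfl⟩
      rw [hD, map_div, hσ, div_mul_div_comm, mul_comm, div_self']
    · intro h
      obtain ⟨y, hy⟩ := h90 x h
      exact ⟨y, by rw [hD, hy]⟩
  -- (1)
  have e1 : ι.range.map N = sP.range := by
    ext p
    constructor
    · rintro ⟨_, ⟨q, rfl⟩, rfl⟩
      exact ⟨q, by rw [hsPx, hNι]⟩
    · rintro ⟨q, rfl⟩
      exact ⟨ι q, ⟨q, rfl⟩, by rw [hsPx, hNι]⟩
  have e1' : sqI P = (ι.range ⊔ N.ker).index * N.range.index := by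
    rw [← Subgroup.index_map, e1]
    rfl
  -- (2)
  have e2 : N.ker.map D = N.ker.map sM := by
    ext x
    constructor
    · rintro ⟨y, hy, rfl⟩
      refine ⟨y, hy, ?_⟩
      have h := (hkerN y).1 hy
      rw [hsMx, hD, sq, div_eq_mul_inv, eq_inv_of_mul_eq_one_right h, inv_inv]
    · rintro ⟨y, hy, rfl⟩
      refine ⟨y, hy, ?_⟩
      have h := (hkerN y).1 hy
      rw [hsMx, hD, sq, div_eq_mul_inv, eq_inv_of_mul_eq_one_right h, inv_inv]
  have e2' : (N.ker.map sM).relIndex N.ker = (ι.range ⊔ N.ker).index := by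
    have h := Subgroup.relIndex_map_map D N.ker ⊤
    rw [e2, ← MonoidHom.range_eq_map, hDrange, hDker, top_sup_eq, Subgroup.relIndex_top_right,
      sup_comm] at h
    exact h
  -- (3a)
  have e3 : sM.range.map N = (powMonoidHom 2 : N.range →* N.range).range.map N.range.subtype := by
    ext p
    constructor
    · rintro ⟨_, ⟨q, rfl⟩, rfl⟩
      refine ⟨⟨N q, ⟨q, rfl⟩⟩ ^ 2, ⟨⟨N q, ⟨q, rfl⟩⟩, rfl⟩, ?_⟩
      simp [hsMx]
    · rintro ⟨_, ⟨⟨_, ⟨q, rfl⟩⟩, rfl⟩, rfl⟩
      refine ⟨sM q, ⟨q, rfl⟩, ?_⟩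
      simp [hsMx]
  have hNi : N.range.index ≠ 0 := by
    intro h
    rw [h, mul_zero] at e1'
    exact hP e1'
  have e3' : (sM.range ⊔ N.ker).index = sqI N.range := by
    have h := Subgroup.index_map sM.range N
    rw [e3, Subgroup.index_map_subtype] at h
    exact (Nat.eq_of_mul_eq_mul_right (Nat.pos_of_ne_zero hNi) h).symm
  have e3a : sqI M = sM.range.relIndex N.ker * sqI N.range := by
    rw [← e3']
    have h := Subgroup.relIndex_mul_index (le_sup_left : sM.range ≤ sM.range ⊔ N.ker)
    rw [Subgroup.relIndex_sup_left] at h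
    exact h.symm
  -- (3b)
  have hle1 : N.ker.map sM ≤ sM.range ⊓ N.ker := by
    rintro _ ⟨y, hy, rfl⟩
    refine ⟨⟨y, rfl⟩, ?_⟩
    exact Subgroup.pow_mem _ hy 2
  have e3b : (N.ker.map sM).relIndex (sM.range ⊓ N.ker) * sM.range.relIndex N.ker =
      (N.ker.map sM).relIndex N.ker := by
    rw [← Subgroup.inf_relIndex_right sM.range N.ker]
    exact Subgroup.relIndex_mul_relIndex _ _ _ hle1 inf_le_right
  -- (3c)
  have e3c : sM.range ⊓ N.ker = (N.ker.comap sM).map sM := by
    rw [Subgroup.map_comap_eq]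
  have hk1 : sM.ker ≤ N.ker := by
    intro x hx
    have hx' : x ^ 2 = 1 := hx
    rw [hkerN, (hfix x).2 (h2 x hx'), ← sq, hx']
  have hk2 : N.ker ≤ N.ker.comap sM := by
    intro x hx
    exact Subgroup.pow_mem _ hx 2
  have e3d : (N.ker.map sM).relIndex (sM.range ⊓ N.ker) =
      Nat.card ((N.ker.comap sM).map N) := by
    rw [e3c, Subgroup.relIndex_map_map, sup_of_le_left hk1, sup_of_le_left (hk1.trans hk2),
      Subgroup.relIndex_ker]
  have e3e : Nat.card ((N.ker.comap sM).map N) = Nat.card {x : N.range // x ^ 2 = 1} := by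
    refine Nat.card_congr ⟨fun x => ⟨⟨x.1, ?_⟩, ?_⟩, fun x => ⟨x.1.1, ?_⟩, ?_, ?_⟩
    · obtain ⟨y, _, hy⟩ := x.2
      exact ⟨y, hy⟩
    · obtain ⟨y, hy1, hy⟩ := x.2
      refine Subtype.ext ?_
      have h : N (y ^ 2) = 1 := hy1
      rw [map_pow, hy] at h
      simpa using h
    · obtain ⟨y, hy⟩ := x.1.2
      refine ⟨y, ?_, hy⟩
      have h := congrArg Subtype.val x.2
      have h' : (x.1.1 : P) ^ 2 = 1 := by simpa using h
      change N (y ^ 2) = 1
      rw [map_pow, hy, h']
    · intro x; rfl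
    · intro x; rfl
  -- (4)
  have e4 := index_sq_finite N.range hNi hP (by rw [h2c]; norm_num)
  rw [h2c] at e4
  set A := (ι.range ⊔ N.ker).index
  set B := Nat.card {x : N.range // x ^ 2 = 1} with hB
  have hBne : B ≠ 0 := by
    have : Finite {p : P // p ^ 2 = 1} := Nat.finite_of_card_ne_zero (by rw [h2c]; norm_num)
    have : Finite {x : N.range // x ^ 2 = 1} := by
      refine Finite.of_injective (β := {p : P // p ^ 2 = 1})
        (fun x => ⟨x.1.1, by simpa using congrArg Subtype.val x.2⟩) ?_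
      intro x y h
      have h' : x.1.1 = y.1.1 := congrArg (fun z : {p : P // p ^ 2 = 1} => z.1) h
      exact Subtype.ext (Subtype.ext h')
    have : Nonempty {x : N.range // x ^ 2 = 1} := ⟨⟨1, one_pow 2⟩⟩
    exact Nat.card_pos.ne'
  rw [e3d, e3e, e2'] at e3b
  -- e3b : B * r = A
  have e5 : A * sqI P = 2 * sqI M := by
    have : A * sqI P * B = 2 * sqI M * B := by
      calc A * sqI P * B = A * (sqI P * B) := by ring
        _ = A * (sqI N.range * 2) := by rw [e4]
        _ = (B * sM.range.relIndex N.ker) * (sqI N.range * 2) := by rw [e3b]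
        _ = 2 * (sM.range.relIndex N.ker * sqI N.range) * B := by ring
        _ = 2 * sqI M * B := by rw [← e3a]
    exact Nat.eq_of_mul_eq_mul_right (Nat.pos_of_ne_zero hBne) this
  refine ⟨hNi, ?_⟩
  calc N.range.index * 2 * sqI M = N.range.index * (2 * sqI M) := by ring
    _ = N.range.index * (A * sqI P) := by rw [e5]
    _ = (A * N.range.index) * sqI P := by ring
    _ = sqI P ^ 2 := by rw [← e1', sq]

end Pool.Agent.Lib.MP_12adaf_nt.HM
end

section

/-!
# Units are norms
-/

namespace Pool.Agent.Lib.MP_12adaf_nt.HM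

open IsLocalRing

section DVR

variable {O K : Type*} [CommRing O] [IsDomain O] [IsDiscreteValuationRing O]
  [HenselianLocalRing O] [Finite (ResidueField O)] [Field K] [Algebra O K] [IsFractionRing O K]

/-- **Job HM-14.** Units are norms from unramified extensions, odd residue characteristic.

Proof. In the residue field `κ` (finite, odd) every element is of the form `x ^ 2 - b * y ^ 2` for
`b ≠ 0` (`FiniteField.exists_root_sum_quadratic` or counting). So `c ≡ x₀ ^ 2 - b y₀ ^ 2` modulo the
maximal ideal with `x₀, y₀ ∈ O` not both in it (as `c` is a unit). If `x₀` is a unit then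
`c + b y₀ ^ 2` is a unit with square residue, so it is a square by HM-11. Otherwise `y₀` is a unit
and `-(c - x₀ ^ 2) / b` is a unit with square residue `y₀ ^ 2`. -/
theorem nf_units (h2 : IsUnit (2 : O)) (b c : Oˣ) :
    NF (algebraMap O K (b : O)) (algebraMap O K (c : O)) := by
  classical
  have : Fintype (ResidueField O) := Fintype.ofFinite _
  have hchar : ringChar (ResidueField O) ≠ 2 := by
    intro h
    have h1 : (2 : ResidueField O) = 0 := by
      have := ringChar.Nat.cast_ringChar (R := ResidueField O)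
      rw [h] at this
      exact_mod_cast this
    have h3 : IsUnit (residue O 2) := h2.map _
    rw [map_ofNat, h1] at h3
    exact not_isUnit_zero h3
  have hodd : Fintype.card (ResidueField O) % 2 = 1 := FiniteField.odd_card_of_char_ne_two hchar
  have hb : residue O (b : O) ≠ 0 := (b.isUnit.map (residue O)).ne_zero
  have hc : residue O (c : O) ≠ 0 := (c.isUnit.map (residue O)).ne_zero
  have hunit : ∀ z : O, residue O z ≠ 0 → IsUnit z := by
    intro z hz
    by_contra hn
    apply hz
    rw [residue_eq_zero_iff, mem_maximalIdeal]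
    exact hn
  obtain ⟨x', y', hxy⟩ := FiniteField.exists_root_sum_quadratic
    (f := Polynomial.X ^ 2 - Polynomial.C (residue O (c : O)))
    (g := Polynomial.C (-(residue O (b : O))) * Polynomial.X ^ 2)
    (Polynomial.degree_X_pow_sub_C (by norm_num) _)
    (by
      rw [Polynomial.degree_C_mul_X_pow 2 (neg_ne_zero.2 hb)]
      rfl) hodd
  obtain ⟨x, rfl⟩ := residue_surjective x'
  obtain ⟨y, rfl⟩ := residue_surjective y'
  simp only [Polynomial.eval_sub, Polynomial.eval_pow, Polynomial.eval_X, Polynomial.eval_C,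
    Polynomial.eval_mul] at hxy
  by_cases hx : residue O x = 0
  · have hy : residue O y ≠ 0 := by
      intro hy
      rw [hx, hy] at hxy
      apply hc
      linear_combination -hxy
    -- `(x ^ 2 - c) / b` has residue `y ^ 2`
    have e1 : residue O ((x ^ 2 - c) * (b⁻¹ : Oˣ)) = residue O y * residue O y := by
      have e2 : residue O ((b⁻¹ : Oˣ) : O) * residue O (b : O) = 1 := by
        rw [← map_mul, Units.inv_mul, map_one]
      rw [map_mul, map_sub, map_pow]
      linear_combination (residue O ((b⁻¹ : Oˣ) : O)) * hxy + (residue O y) ^ 2 * e2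
    have e3 : IsUnit ((x ^ 2 - c) * (b⁻¹ : Oˣ) : O) := by
      apply hunit
      rw [e1]
      exact mul_ne_zero hy hy
    obtain ⟨z, hz⟩ := isSquare_of_residue h2 e3.unit ⟨_, e1⟩
    rw [IsUnit.unit_spec] at hz
    refine ⟨algebraMap O K x, algebraMap O K z, ?_⟩
    rw [← map_pow, ← map_pow, ← map_mul, ← map_sub]
    congr 1
    have e4 : ((b⁻¹ : Oˣ) : O) * (b : O) = 1 := Units.inv_mul b
    linear_combination (x ^ 2 - c) * e4 - (b : O) * hz
  · have e1 : residue O (c + b * y ^ 2) = residue O x * residue O x := by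
      rw [map_add, map_mul, map_pow]
      linear_combination -hxy
    have e3 : IsUnit ((c : O) + b * y ^ 2) := by
      apply hunit
      rw [e1]
      exact mul_ne_zero hx hx
    obtain ⟨z, hz⟩ := isSquare_of_residue h2 e3.unit ⟨_, e1⟩
    rw [IsUnit.unit_spec] at hz
    refine ⟨algebraMap O K z, algebraMap O K y, ?_⟩
    rw [← map_pow, ← map_pow, ← map_mul, ← map_sub]
    congr 1
    linear_combination hz

end DVR

end Pool.Agent.Lib.MP_12adaf_nt.HM
end

section

/-!
# Existence of quadratic extensions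
-/

namespace Pool.Agent.Lib.MP_12adaf_nt.HM

open NumberField IsDedekindDomain IsDedekindDomain.HeightOneSpectrum

universe u

/-- **Job HM-30.** Existence of the quadratic extension: `AdjoinRoot (X ^ 2 - C x)`, or
`IntermediateField.adjoin`. -/
theorem exists_qext {k : Type u} [Field k] [NumberField k] {x : k} (hx : ¬ IsSquare x) :
    ∃ (E : Type u) (_ : Field E) (_ : NumberField E) (_ : Algebra k E), Nonempty (QExt k E x) := by
  classical
  set f : Polynomial k := Polynomial.X ^ 2 - Polynomial.C x with hf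
  have hirr : Irreducible f := by
    refine X_pow_sub_C_irreducible_of_prime Nat.prime_two ?_
    intro b hb
    exact hx ⟨b, by rw [← hb]; ring⟩
  have hmon : f.Monic := Polynomial.monic_X_pow_sub_C x (by norm_num)
  have : Fact (Irreducible f) := ⟨hirr⟩
  have hfin : Module.Finite k (AdjoinRoot f) := hmon.finite_adjoinRoot
  have hnf : NumberField (AdjoinRoot f) := NumberField.of_module_finite k (AdjoinRoot f)
  have hroot : (AdjoinRoot.root f) ^ 2 = algebraMap k (AdjoinRoot f) x := by
    have h := AdjoinRoot.eval₂_root f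
    rw [hf, Polynomial.eval₂_sub, Polynomial.eval₂_pow, Polynomial.eval₂_X, Polynomial.eval₂_C,
      sub_eq_zero] at h
    exact h
  have haev : Polynomial.aeval (-(AdjoinRoot.root f)) f = 0 := by
    have h4 : ∀ y : AdjoinRoot f, Polynomial.aeval y f = y ^ 2 - algebraMap k (AdjoinRoot f) x := by
      intro y
      have h5 : Polynomial.aeval y f = Polynomial.aeval y (Polynomial.X ^ 2 - Polynomial.C x) := rfl
      rw [h5, map_sub, map_pow, Polynomial.aeval_X, Polynomial.aeval_C]
    rw [h4, neg_sq, hroot, sub_self]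
  let s : AdjoinRoot f →ₐ[k] AdjoinRoot f :=
    AdjoinRoot.liftAlgHom f (Algebra.ofId k (AdjoinRoot f)) (-(AdjoinRoot.root f)) haev
  have hs : s (AdjoinRoot.root f) = -(AdjoinRoot.root f) := by
    simp [s]
  have hss : s.comp s = AlgHom.id k (AdjoinRoot f) := by
    apply AdjoinRoot.algHom_ext
    simp [hs]
  let σ : AdjoinRoot f ≃ₐ[k] AdjoinRoot f := AlgEquiv.ofAlgHom s s hss hss
  refine ⟨AdjoinRoot f, inferInstance, hnf, inferInstance, ⟨⟨AdjoinRoot.root f, σ, hroot, hs, ?_⟩⟩⟩
  intro z
  obtain ⟨g, rfl⟩ := AdjoinRoot.mk_surjective z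
  have h1 : AdjoinRoot.mk f g = AdjoinRoot.mk f (g %ₘ f) := by
    rw [AdjoinRoot.mk_eq_mk]
    exact ⟨g /ₘ f, by
      have := Polynomial.modByMonic_add_div g f
      linear_combination (-1 : Polynomial k) * this⟩
  have hdeg : (g %ₘ f).natDegree ≤ 1 := by
    have h2 : f.natDegree = 2 := by rw [hf]; exact Polynomial.natDegree_X_pow_sub_C
    have h3 := Polynomial.natDegree_modByMonic_lt g hmon (by
      intro h
      rw [h, Polynomial.natDegree_one] at h2
      omega)
    omega
  obtain ⟨a, b, hab⟩ := Polynomial.exists_eq_X_add_C_of_natDegree_le_one hdeg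
  refine ⟨b, a, ?_⟩
  rw [h1, hab, map_add, map_mul, AdjoinRoot.mk_C, AdjoinRoot.mk_C, AdjoinRoot.mk_X]
  rw [add_comm]
  rfl

end Pool.Agent.Lib.MP_12adaf_nt.HM
end

section

/-!
# Places over a finite set
-/

namespace Pool.Agent.Lib.MP_12adaf_nt.HM

open NumberField IsDedekindDomain IsDedekindDomain.HeightOneSpectrum

variable {k E : Type*} [Field k] [NumberField k] [Field E] [NumberField E] [Algebra k E]

/-- **Job HM-34.** Finitely many places lie over a finite set of places. -/
theorem exists_over (T : Finset (HeightOneSpectrum (𝓞 k))) :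
    ∃ T' : Finset (HeightOneSpectrum (𝓞 E)), ∀ w, w ∈ T' ↔ w.under (𝓞 k) ∈ T := by
  classical
  have hfin : {w : HeightOneSpectrum (𝓞 E) | w.under (𝓞 k) ∈ T}.Finite := by
    have h1 : ∀ v : HeightOneSpectrum (𝓞 k),
        {w : HeightOneSpectrum (𝓞 E) | w.under (𝓞 k) = v}.Finite := by
      intro v
      haveI : v.asIdeal.IsMaximal := v.isMaximal
      have h2 : (Ideal.primesOver v.asIdeal (𝓞 E)).Finite :=
        IsDedekindDomain.primesOver_finite v.asIdeal (𝓞 E)
      refine Set.Finite.of_finite_image (f := fun w : HeightOneSpectrum (𝓞 E) => w.asIdeal)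
        (h2.subset ?_) ?_
      · rintro _ ⟨w, hw, rfl⟩
        refine ⟨w.isPrime, ⟨?_⟩⟩
        have h3 : w.under (𝓞 k) = v := hw
        rw [← h3]
        rfl
      · intro w _ w' _ h
        exact HeightOneSpectrum.ext h
    have h4 : {w : HeightOneSpectrum (𝓞 E) | w.under (𝓞 k) ∈ T} =
        ⋃ v ∈ T, {w : HeightOneSpectrum (𝓞 E) | w.under (𝓞 k) = v} := by
      ext w
      simp
    rw [h4]
    exact T.finite_toSet.biUnion fun v _ => h1 v
  refine ⟨hfin.toFinset, fun w => ?_⟩
  rw [Set.Finite.mem_toFinset]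
  rfl

end Pool.Agent.Lib.MP_12adaf_nt.HM
end

section

/-!
# Counting infinite places
-/

namespace Pool.Agent.Lib.MP_12adaf_nt.HM

open NumberField IsDedekindDomain IsDedekindDomain.HeightOneSpectrum

variable {k E : Type*} [Field k] [NumberField k] [Field E] [NumberField E] [Algebra k E]

omit [NumberField k] [NumberField E] in
private lemma cio_two {x : k} (hx : ¬ IsSquare x) (Q : QExt k E x) (v : InfinitePlace k)
    (hv : IsSquare (algebraMap k v.Completion x)) (w : InfinitePlace E)
    (hw : w.comap (algebraMap k E) = v) : w.comap (Q.σ : E →+* E) ≠ w := by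
  intro he
  have hx0 : x ≠ 0 := by
    rintro rfl
    exact hx ⟨0, by simp⟩
  have hθ0 : Q.θ ≠ 0 := by
    intro h
    have h1 := Q.θ_sq
    rw [h, zero_pow two_ne_zero, eq_comm, map_eq_zero] at h1
    exact hx0 h1
  set φ := w.embedding with hφ
  have h1 : InfinitePlace.mk (φ.comp (Q.σ : E →+* E)) = InfinitePlace.mk φ := by
    rw [← InfinitePlace.comap_mk, hφ, InfinitePlace.mk_embedding, he]
  have hφθ : φ Q.θ ≠ 0 := by
    intro h
    exact hθ0 ((map_eq_zero φ).1 h)
  rw [InfinitePlace.mk_eq_iff] at h1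
  rcases h1 with h1 | h1
  · have h2 := congrArg (fun ψ : E →+* ℂ => ψ Q.θ) h1
    have h3 : φ (Q.σ Q.θ) = φ Q.θ := h2
    rw [Q.σθ, map_neg] at h3
    have h4 : (2 : ℂ) * φ Q.θ = 0 := by linear_combination -h3
    rcases mul_eq_zero.1 h4 with h5 | h5
    · norm_num at h5
    · exact hφθ h5
  · have h2 : ∀ z : E, (starRingEnd ℂ) (φ (Q.σ z)) = φ z := by
      intro z
      have := congrArg (fun ψ : E →+* ℂ => ψ z) h1
      exact this
    have hreal : ComplexEmbedding.IsReal (φ.comp (algebraMap k E)) := by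
      rw [ComplexEmbedding.isReal_iff]
      ext a
      have := h2 (algebraMap k E a)
      rw [Q.σ.commutes] at this
      exact this
    have hvmk : v = InfinitePlace.mk (φ.comp (algebraMap k E)) := by
      rw [← InfinitePlace.comap_mk, hφ, InfinitePlace.mk_embedding, hw]
    have hvr : v.IsReal := ⟨_, hreal, hvmk.symm⟩
    have hemb : v.embedding = φ.comp (algebraMap k E) := by
      rw [hvmk]
      exact InfinitePlace.embedding_mk_eq_of_isReal hreal
    obtain ⟨ξ, hξ⟩ := hv
    set ψ := InfinitePlace.Completion.extensionEmbeddingOfIsReal hvr with hψ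
    have h3 : ψ (algebraMap k v.Completion x) = InfinitePlace.embedding_of_isReal hvr x := by
      rw [InfinitePlace.Completion.algebraMap_apply, hψ,
        InfinitePlace.Completion.extensionEmbeddingOfIsReal_coe]
      rfl
    have h4 : InfinitePlace.embedding_of_isReal hvr x = ψ ξ * ψ ξ := by
      rw [← h3, hξ, map_mul]
    have h5 : φ (algebraMap k E x) = ((ψ ξ * ψ ξ : ℝ) : ℂ) := by
      rw [← h4, InfinitePlace.embedding_of_isReal_apply, hemb]
      rfl
    rw [← Q.θ_sq, map_pow] at h5
    have h6 := h2 Q.θ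
    rw [Q.σθ, map_neg, map_neg] at h6
    have hre : (φ Q.θ).re = 0 := by
      have := congrArg Complex.re h6
      rw [Complex.neg_re, Complex.conj_re] at this
      linarith
    have h7 := congrArg Complex.re h5
    rw [sq, Complex.mul_re, hre, Complex.ofReal_re] at h7
    have h8 : (φ Q.θ).im = 0 := by
      have h9 : (φ Q.θ).im * (φ Q.θ).im = 0 := by
        nlinarith [mul_self_nonneg (ψ ξ), mul_self_nonneg (φ Q.θ).im]
      exact mul_self_eq_zero.1 h9
    exact hφθ (Complex.ext hre h8)

open Classical in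
/-- **Job HM-41.** Counting infinite places: if `x` is a square in the completion at `v` then there
are two infinite places over `v`.

Proof. `E / k` is Galois of degree two; over `v` there is one place `w` iff the stabilizer of `w` is
the whole group. See `Mathlib/NumberTheory/NumberField/InfinitePlace/Ramification.lean` and
`unramifedPlacesOver_ncard_add_eq_finrank` (or `sum_inertiaDeg_eq_finrank`): the number of
unramified places over `v` plus twice the number of ramified places is `2`. If `x` is a square in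
`v.Completion` then no place `w` over `v` is ramified: a ramified `w` is complex over a real `v`;
`x` is a square of a real number, so the image of `θ` under the embedding of `w` is real (its square
is the square `ξ ^ 2` of a real number, so it is `± ξ`), and as the embedding of `k` is real, the
embedding of `E = k(θ)` is real: contradiction. Sum over `v`. -/
theorem card_infinite_over {x : k} (hx : ¬ IsSquare x) (Q : QExt k E x) :
    Fintype.card (InfinitePlace k) +
      (Finset.univ.filter fun v : InfinitePlace k =>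
        IsSquare (algebraMap k v.Completion x)).card ≤ Fintype.card (InfinitePlace E) := by
  have : Algebra.IsAlgebraic k E := inferInstance
  have h1 : Fintype.card (InfinitePlace E) = ∑ v : InfinitePlace k,
      (Finset.univ.filter fun w : InfinitePlace E => w.comap (algebraMap k E) = v).card := by
    rw [← Finset.card_univ]
    exact Finset.card_eq_sum_card_fiberwise (fun _ _ => Finset.mem_coe.2 (Finset.mem_univ _))
  rw [h1, ← Finset.card_univ, Finset.card_eq_sum_ones, Finset.card_filter,
    ← Finset.sum_add_distrib]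
  apply Finset.sum_le_sum
  intro v _
  obtain ⟨w, hw⟩ := InfinitePlace.comap_surjective (K := E) v
  have hw' : w.comap (algebraMap k E) = v := hw
  split_ifs with hsq
  · have h2 := cio_two hx Q v hsq w hw'
    have h3 : (w.comap (Q.σ : E →+* E)).comap (algebraMap k E) = v := by
      rw [← InfinitePlace.comap_comp, ← hw']
      congr 1
      ext a
      exact Q.σ.commutes a
    rw [show 1 + 1 = 2 from rfl]
    refine Finset.one_lt_card.2 ⟨w.comap (Q.σ : E →+* E), ?_, w, ?_, h2⟩
    · rw [Finset.mem_filter]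
      exact ⟨Finset.mem_univ _, h3⟩
    · rw [Finset.mem_filter]
      exact ⟨Finset.mem_univ _, hw'⟩
  · rw [add_zero, Nat.one_le_iff_ne_zero, ← Nat.pos_iff_ne_zero, Finset.card_pos]
    exact ⟨w, by rw [Finset.mem_filter]; exact ⟨Finset.mem_univ _, hw'⟩⟩

end Pool.Agent.Lib.MP_12adaf_nt.HM
end

section

/-!
# Completions at finite places in extensions
-/

namespace Pool.Agent.Lib.MP_12adaf_nt.HM

open NumberField IsDedekindDomain IsDedekindDomain.HeightOneSpectrum

variable {k E : Type*} [Field k] [NumberField k] [Field E] [NumberField E] [Algebra k E]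

private lemma h31_norm_le {K : Type*} [Field K] [NumberField K] (w : HeightOneSpectrum (𝓞 K))
    (x : w.adicCompletion K) : ‖x‖ ≤ 1 ↔ Valued.v x ≤ 1 :=
  Valued.toNormedField.norm_le_one_iff

/-- the norm of a sum of an element and a small element -/
private lemma h31_ultra {K : Type*} [Field K] [NumberField K] (w : HeightOneSpectrum (𝓞 K))
    (x y : w.adicCompletion K) (h : ‖x - y‖ < 1) : ‖x‖ ≤ 1 ↔ ‖y‖ ≤ 1 := by
  constructor
  · intro hx
    have e : y = x + (y - x) := by ring
    rw [e]
    refine (IsUltrametricDist.norm_add_le_max _ _).trans (max_le hx ?_)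
    rw [norm_sub_rev]
    exact h.le
  · intro hy
    have e : x = y + (x - y) := by ring
    rw [e]
    exact (IsUltrametricDist.norm_add_le_max _ _).trans (max_le hy h.le)

/-- **Job HM-31.** The embedding of completions at finite places.

Proof. `uniformContinuous_algebraMap_liesOver` (in
`Mathlib/NumberTheory/RamificationInertia/Valuation.lean`) gives a ring homomorphism of the
completions (`UniformSpace.Completion.mapRingHom`), and `adicCompletion` is a structure wrapping the
completion (`adicCompletion.equiv`). By density and continuity the relation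
`w.valuation (algebraMap x) = v.valuation x ^ e` extends to the completions, so `‖ρ x‖ ≤ 1` iff
`‖x‖ ≤ 1`. (Alternatively: `ρ` is continuous and maps elements of norm `< 1` to such elements: if
`‖x‖ < 1` then `x ^ n → 0`, so `ρ x ^ n → 0`, so `‖ρ x‖ < 1`; and the same for `x⁻¹`; together with
`‖x‖ = 1`: approximate `x` by an element `q` of `k` with `‖x - q‖ < 1`, `v.valuation q = 1`.) -/
theorem exists_map_fin (w : HeightOneSpectrum (𝓞 E)) :
    ∃ ρ : (w.under (𝓞 k)).adicCompletion k →+* w.adicCompletion E,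
      (∀ x : k, ρ (algebraMap k _ x) = algebraMap E _ (algebraMap k E x)) ∧
      ∀ x, ‖ρ x‖ ≤ 1 ↔ ‖x‖ ≤ 1 := by
  classical
  set v := w.under (𝓞 k) with hv
  have hlo : w.asIdeal.LiesOver v.asIdeal := ⟨rfl⟩
  have huc := uniformContinuous_algebraMap_liesOver (K := k) (L := E) v w
  let f := UniformSpace.Completion.mapRingHom
    (algebraMap (WithVal (v.valuation k)) (WithVal (w.valuation E))) huc.continuous
  let ρ : v.adicCompletion k →+* w.adicCompletion E :=
    ((adicCompletion.equiv E w).symm.toRingHom.comp f).comp (adicCompletion.equiv k v).toRingHom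
  have hρc : Continuous ρ := by
    have h1 : Continuous f := UniformSpace.Completion.continuous_map
    exact (adicCompletion.continuous_ofCompletion E w).comp
      (h1.comp (adicCompletion.continuous_toCompletion k v))
  have hρk : ∀ x : k, ρ (algebraMap k _ x) = algebraMap E _ (algebraMap k E x) := by
    intro x
    apply adicCompletion.ext
    change f ((algebraMap k (v.adicCompletion k) x).toCompletion) = _
    rw [algebraMap_adicCompletion_toCompletion, algebraMap_adicCompletion_toCompletion]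
    exact UniformSpace.Completion.mapRingHom_coe huc.continuous (WithVal.toVal _ x)
  refine ⟨ρ, hρk, fun x => ?_⟩
  obtain ⟨q, hq1, hq2⟩ : ∃ q : k, ‖x - algebraMap k _ q‖ < 1 ∧ ‖ρ x - ρ (algebraMap k _ q)‖ < 1 := by
    have h1 : IsOpen {y : v.adicCompletion k | ‖x - y‖ < 1 ∧ ‖ρ x - ρ y‖ < 1} := by
      apply IsOpen.inter
      · exact isOpen_lt (continuous_norm.comp (continuous_const.sub continuous_id))
          continuous_const
      · exact isOpen_lt (continuous_norm.comp (continuous_const.sub hρc)) continuous_const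
    obtain ⟨y, hy⟩ := (v.denseRange_algebraMap k).exists_mem_open h1 ⟨x, by simp⟩
    exact ⟨y, hy⟩
  rw [h31_ultra w _ _ hq2, h31_ultra v _ _ hq1, hρk, h31_norm_le, h31_norm_le]
  have h1 := valuedAdicCompletion_eq_valuation' (v := w) (algebraMap k E q)
  have h2 := valuedAdicCompletion_eq_valuation' (v := v) q
  change Valued.v (algebraMap E (w.adicCompletion E) (algebraMap k E q)) = _ at h1
  change Valued.v (algebraMap k (v.adicCompletion k) q) = _ at h2
  rw [h1, h2, ← valuation_liesOver E v w q]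
  exact pow_le_one_iff (Ideal.IsDedekindDomain.ramificationIdx'_ne_zero_of_liesOver w.asIdeal v.ne_bot)

end Pool.Agent.Lib.MP_12adaf_nt.HM
end

section

/-!
# Ternary forms and norms
-/

namespace Pool.Agent.Lib.MP_12adaf_nt.HM

/-- **Job Q01.** A ternary form is isotropic iff a norm condition holds.

Proof. `a₀ x² + a₁ y² + a₂ z² = 0` iff `(a₀ x)² + a₀ a₁ y² = - a₀ a₂ z²`. If `z ≠ 0` divide by `z²`.
If `z = 0` then `y ≠ 0` and `-(a₀ a₁) = (a₀ x / y)²` is a square: `NF.of_left_isSquare`. Conversely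
take `z = 1`. -/
theorem isot_three {K : Type*} [Field K] (h2 : (2 : K) ≠ 0) {a : Fin 3 → K} (ha : ∀ i, a i ≠ 0) :
    Isot a ↔ NF (-(a 0 * a 1)) (-(a 0 * a 2)) := by
  constructor
  · rintro ⟨x, hx, h⟩
    rw [Fin.sum_univ_three] at h
    by_cases hz : x 2 = 0
    · rw [hz] at h
      have hy : x 1 ≠ 0 := by
        intro hy
        rw [hy] at h
        have h0 : a 0 * x 0 ^ 2 = 0 := by linear_combination h
        have h1 : x 0 = 0 := by
          rcases mul_eq_zero.mp h0 with h1 | h1
          · exact absurd h1 (ha 0)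
          · exact pow_eq_zero_iff (two_ne_zero) |>.mp h1
        apply hx
        ext i
        fin_cases i
        · exact h1
        · exact hy
        · exact hz
      apply NF.of_left_isSquare h2
      · exact neg_ne_zero.mpr (mul_ne_zero (ha 0) (ha 1))
      · refine ⟨a 0 * x 0 / x 1, ?_⟩
        field_simp
        linear_combination (-a 0) * h
    · refine ⟨a 0 * x 0 / x 2, x 1 / x 2, ?_⟩
      field_simp
      linear_combination (-a 0) * h
  · rintro ⟨X, Y, h⟩
    refine ⟨![X / a 0, Y, 1], ?_, ?_⟩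
    · intro h0
      have := congrFun h0 2
      simp at this
    · rw [Fin.sum_univ_three]
      simp only [Matrix.cons_val_zero, Matrix.cons_val_one, Matrix.cons_val]
      have h0 := ha 0
      field_simp
      linear_combination (-1 : K) * h

/-- Binary forms. (Same job.) -/
theorem isot_two {K : Type*} [Field K] {a : Fin 2 → K} (ha : ∀ i, a i ≠ 0) :
    Isot a ↔ IsSquare (-(a 0 * a 1)) := by
  constructor
  · rintro ⟨x, hx, h⟩
    rw [Fin.sum_univ_two] at h
    have hy : x 1 ≠ 0 := by
      intro hy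
      rw [hy] at h
      have h0 : a 0 * x 0 ^ 2 = 0 := by linear_combination h
      have h1 : x 0 = 0 := by
        rcases mul_eq_zero.mp h0 with h1 | h1
        · exact absurd h1 (ha 0)
        · exact pow_eq_zero_iff (two_ne_zero) |>.mp h1
      apply hx
      ext i
      fin_cases i
      · exact h1
      · exact hy
    refine ⟨a 0 * x 0 / x 1, ?_⟩
    field_simp
    linear_combination (-a 0) * h
  · rintro ⟨c, h⟩
    refine ⟨![c, a 0], ?_, ?_⟩
    · intro h0
      have := congrFun h0 1
      simp at this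
      exact ha 0 this
    · rw [Fin.sum_univ_two]
      simp only [Matrix.cons_val_zero, Matrix.cons_val_one]
      linear_combination (-a 0) * h

end Pool.Agent.Lib.MP_12adaf_nt.HM
end

section

/-!
# Splitting of primes
-/

namespace Pool.Agent.Lib.MP_12adaf_nt.HM

open NumberField IsDedekindDomain IsDedekindDomain.HeightOneSpectrum

variable {k E : Type*} [Field k] [NumberField k] [Field E] [NumberField E] [Algebra k E]

private lemma h39_int (w : HeightOneSpectrum (𝓞 E)) (τ : 𝓞 E ≃+* 𝓞 E)
    (hw : w.asIdeal.comap (τ : 𝓞 E →+* 𝓞 E) = w.asIdeal) (r : 𝓞 E) :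
    w.intValuation (τ r) = w.intValuation r := by
  by_cases hr : r = 0
  · rw [hr, map_zero]
  have hr' : τ r ≠ 0 := fun h => hr (τ.injective (by rw [h, map_zero]))
  have hpow : ∀ n : ℕ, (τ r ∈ w.asIdeal ^ n ↔ r ∈ w.asIdeal ^ n) := by
    intro n
    have h1 : (w.asIdeal ^ n).comap (τ : 𝓞 E →+* 𝓞 E) = w.asIdeal ^ n := by
      have h2 : ∀ I : Ideal (𝓞 E), I.comap (τ : 𝓞 E →+* 𝓞 E) =
          I.map (τ.symm : 𝓞 E →+* 𝓞 E) := fun I => (Ideal.map_symm (I := I) τ).symm
      rw [h2, Ideal.map_pow, ← h2, hw]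
    constructor
    · intro h
      rw [← h1]
      exact h
    · intro h
      rw [← h1] at h
      exact h
  have hem : emultiplicity w.asIdeal (Ideal.span {τ r}) =
      emultiplicity w.asIdeal (Ideal.span {r}) := by
    rw [emultiplicity_eq_emultiplicity_iff]
    intro n
    rw [Ideal.dvd_span_singleton, Ideal.dvd_span_singleton]
    exact hpow n
  rw [intValuation_eq_exp_neg_multiplicity w hr', intValuation_eq_exp_neg_multiplicity w hr,
    multiplicity_eq_of_emultiplicity_eq hem]

private lemma h39_val (w : HeightOneSpectrum (𝓞 E)) (σ : E ≃+* E)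
    (hw : w.asIdeal.comap (RingOfIntegers.mapRingEquiv σ : 𝓞 E →+* 𝓞 E) = w.asIdeal) (z : E) :
    w.valuation E (σ z) = w.valuation E z := by
  obtain ⟨a, b, hb, rfl⟩ := IsFractionRing.div_surjective (A := 𝓞 E) z
  have h1 : ∀ c : 𝓞 E, σ (algebraMap (𝓞 E) E c) =
      algebraMap (𝓞 E) E (RingOfIntegers.mapRingEquiv σ c) := fun c => rfl
  rw [map_div₀, map_div₀, map_div₀, h1, h1, valuation_of_algebraMap, valuation_of_algebraMap,
    valuation_of_algebraMap, valuation_of_algebraMap, h39_int w _ hw, h39_int w _ hw]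

private lemma h39_dense (v : HeightOneSpectrum (𝓞 k)) (ξ η : v.adicCompletion k) (hη : η ≠ 0) :
    ∃ a : k, Valued.v (algebraMap k (v.adicCompletion k) a - ξ) < Valued.v η := by
  have hmem : {y : v.adicCompletion k | Valued.v (y - ξ) < Valued.v η} ∈ nhds ξ := by
    rw [Valued.mem_nhds]
    have h' : (Valued.v (R := v.adicCompletion k)).restrict η ≠ 0 := by simp [hη]
    refine ⟨Units.mk0 _ h', ?_⟩
    rw [Units.val_mk0]
    intro y hy
    exact (Valuation.restrict_lt_iff _).mp hy
  exact (v.denseRange_algebraMap k).mem_nhds hmem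

/-- **Job HM-39.** Splitting: if `x` is a square in the completion at `v` then there are two primes
over `v`.

Proof. Suppose that there is only one prime `w` of `E` over `v`; then `σ w = w`, so
`w.valuation (σ z) = w.valuation z` for all `z ∈ E`. Let `ξ ^ 2 = x` in the completion, `ξ ≠ 0`
(`x` is not a square in `k`, so `x ≠ 0`). Choose
`a ∈ k` so close to `ξ` that `|a - ξ| < |2 ξ|`; then `|a + ξ| = |2 ξ|`, `|2 a| = |2 ξ|` [as
`|2 a - 2 ξ| ≤ |a - ξ| < |2 ξ|`] and
`|a ^ 2 - x| = |a - ξ| |a + ξ| < |2 ξ| ^ 2 = |2 a| ^ 2`, i.e.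
`v.valuation (a ^ 2 - x) < v.valuation (2 a) ^ 2`. Put `z := a + θ ∈ E`. `z * σ z = a ^ 2 - x`,
`z + σ z = 2 a`. With `V := w.valuation E`: `V z = V (σ z)`, so
`V (2 a) ≤ V z` and `V z ^ 2 = V (a ^ 2 - x) < V (2 a) ^ 2` (`valuation_liesOver`; powers with
positive exponent are strictly monotone): contradiction. -/
theorem exists_two_over {x : k} (hx : ¬ IsSquare x) (Q : QExt k E x)
    (v : HeightOneSpectrum (𝓞 k)) (hv : IsSquare (algebraMap k (v.adicCompletion k) x)) :
    ∃ w w' : HeightOneSpectrum (𝓞 E), w ≠ w' ∧ w.under (𝓞 k) = v ∧ w'.under (𝓞 k) = v := by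
  obtain ⟨w, hw⟩ : ∃ w : HeightOneSpectrum (𝓞 E), w.under (𝓞 k) = v := by
    obtain ⟨P, hP, hPv⟩ :=
      v.asIdeal.exists_ideal_over_prime_of_isIntegral_of_isDomain (S := 𝓞 E) (by simp)
    refine ⟨⟨P, hP, ?_⟩, ?_⟩
    · rintro rfl
      apply v.ne_bot
      rw [← hPv]
      exact Ideal.comap_bot_of_injective _ (FaithfulSMul.algebraMap_injective (𝓞 k) (𝓞 E))
    · exact HeightOneSpectrum.ext hPv
  by_contra hcon
  push Not at hcon
  set τ : 𝓞 E ≃+* 𝓞 E := RingOfIntegers.mapRingEquiv (Q.σ : E ≃+* E) with hτ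
  have hτk : ∀ c : 𝓞 k, τ (algebraMap (𝓞 k) (𝓞 E) c) = algebraMap (𝓞 k) (𝓞 E) c := by
    intro c
    apply RingOfIntegers.ext
    exact Q.σ.commutes (c : k)
  set w' : HeightOneSpectrum (𝓞 E) := HeightOneSpectrum.comap (τ : 𝓞 E →+* 𝓞 E) τ.surjective w
    with hw'
  have hw'v : w'.under (𝓞 k) = v := by
    rw [← hw]
    apply HeightOneSpectrum.ext
    ext c
    show τ (algebraMap (𝓞 k) (𝓞 E) c) ∈ w.asIdeal ↔ algebraMap (𝓞 k) (𝓞 E) c ∈ w.asIdeal
    rw [hτk]
  have hww' : w' = w := by
    by_contra hne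
    exact hcon w w' (fun h => hne h.symm) hw hw'v
  have hcomap : w.asIdeal.comap (τ : 𝓞 E →+* 𝓞 E) = w.asIdeal := congrArg (·.asIdeal) hww'
  have hval : ∀ z : E, w.valuation E (Q.σ z) = w.valuation E z :=
    fun z => h39_val w (Q.σ : E ≃+* E) hcomap z
  have hlies : w.asIdeal.LiesOver v.asIdeal := ⟨by rw [← hw]; rfl⟩
  have hx0 : x ≠ 0 := fun h => hx (by rw [h]; exact ⟨0, by simp⟩)
  obtain ⟨ξ, hξ⟩ := hv
  have hξ0 : ξ ≠ 0 := by
    rintro rfl
    rw [mul_zero, map_eq_zero] at hξ
    exact hx0 hξ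
  have h20 : (2 : v.adicCompletion k) ≠ 0 := by simp
  obtain ⟨a, ha⟩ := h39_dense v ξ (2 * ξ) (mul_ne_zero h20 hξ0)
  set A := algebraMap k (v.adicCompletion k) a with hA
  have h2le : (Valued.v (2 : v.adicCompletion k)) ≤ 1 := by
    have h1 : (2 : v.adicCompletion k) = 1 + 1 := by norm_num
    rw [h1]
    refine (Valuation.map_add _ _ _).trans ?_
    simp
  have e1 : Valued.v (2 * A) = Valued.v (2 * ξ) := by
    apply Valuation.map_eq_of_sub_lt
    have h1 : 2 * A - 2 * ξ = 2 * (A - ξ) := by ring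
    rw [h1, map_mul]
    calc Valued.v 2 * Valued.v (A - ξ) ≤ 1 * Valued.v (A - ξ) := mul_le_mul_left h2le _
      _ = Valued.v (A - ξ) := one_mul _
      _ < _ := ha
  have e2 : Valued.v (A + ξ) = Valued.v (2 * ξ) := by
    apply Valuation.map_eq_of_sub_lt
    have h1 : A + ξ - 2 * ξ = A - ξ := by ring
    rw [h1]
    exact ha
  have e3 : v.valuation k (a ^ 2 - x) < v.valuation k (2 * a) ^ 2 := by
    have h1 : Valued.v (algebraMap k (v.adicCompletion k) (a ^ 2 - x)) =
        v.valuation k (a ^ 2 - x) := valuedAdicCompletion_eq_valuation' v _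
    have h2 : Valued.v (algebraMap k (v.adicCompletion k) (2 * a)) =
        v.valuation k (2 * a) := valuedAdicCompletion_eq_valuation' v _
    rw [← h1, ← h2, map_sub, map_pow, map_mul (algebraMap k (v.adicCompletion k)), hξ, ← hA,
      map_ofNat, e1]
    have h3 : A ^ 2 - ξ * ξ = (A - ξ) * (A + ξ) := by ring
    rw [h3, map_mul, e2, sq]
    have h4 : (0 : WithZero (Multiplicative ℤ)) < Valued.v (2 * ξ) :=
      zero_lt_iff.2 ((Valuation.ne_zero_iff _).2 (mul_ne_zero h20 hξ0))
    exact mul_lt_mul_of_pos_right ha h4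
  set z : E := algebraMap k E a + Q.θ with hz
  have hσz : Q.σ z = algebraMap k E a - Q.θ := by
    rw [hz, map_add, Q.σ.commutes, Q.σθ]
    ring
  have hsum : algebraMap k E (2 * a) = z + Q.σ z := by
    rw [hσz, hz, map_mul, map_ofNat]
    ring
  have hprod : algebraMap k E (a ^ 2 - x) = z * Q.σ z := by
    rw [hσz, hz, map_sub, map_pow, ← Q.θ_sq]
    ring
  have f1 := valuation_liesOver (K := k) E v w (2 * a)
  have f2 := valuation_liesOver (K := k) E v w (a ^ 2 - x)
  have he : v.asIdeal.ramificationIdx' w.asIdeal ≠ 0 :=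
    Ideal.IsDedekindDomain.ramificationIdx'_ne_zero_of_liesOver w.asIdeal v.ne_bot
  have f3 : w.valuation E (algebraMap k E (2 * a)) ≤ w.valuation E z := by
    rw [hsum]
    refine (Valuation.map_add _ _ _).trans ?_
    rw [hval, max_self]
  have f4 : w.valuation E (algebraMap k E (a ^ 2 - x)) = w.valuation E z ^ 2 := by
    rw [hprod, map_mul, hval, sq]
  have f5 : v.valuation k (a ^ 2 - x) ^ v.asIdeal.ramificationIdx' w.asIdeal <
      (v.valuation k (2 * a) ^ 2) ^ v.asIdeal.ramificationIdx' w.asIdeal :=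
    pow_lt_pow_left₀ e3 zero_le he
  rw [f2, f4, pow_right_comm, f1] at f5
  exact absurd f5 (not_lt.2 (pow_le_pow_left₀ zero_le f3 2))

end Pool.Agent.Lib.MP_12adaf_nt.HM
end

section

/-!
# Quaternary forms with square discriminant
-/

namespace Pool.Agent.Lib.MP_12adaf_nt.HM

/-- **Job Q03.** An isotropic quaternary form with square discriminant has its ternary subforms
isotropic.

Proof. Let `b := -(a₀ a₁)`, so `-(a₂ a₃) = b * square` (nonzero squares). If `b` is a square then
`NF b` holds for everything (`NF.of_left_isSquare`) and `isot_three` gives the claim. Otherwise `b`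
and `-(a₂ a₃)` are nonsquares and the binary forms `<a₀, a₁>`, `<a₂, a₃>` are anisotropic. Let `x` be
an isotropic vector, `v := a₀ x₀² + a₁ x₁² = -(a₂ x₂² + a₃ x₃²)`; `v ≠ 0` (otherwise `x₀ = x₁ = 0`
and `x₂ = x₃ = 0`). `NF b (a₀ v)` and `NF (-(a₂ a₃)) (-(a₂ v))`, so `NF b (-(a₂ v))`
(`nf_mul_sq_left`), so `NF b (-(a₀ a₂) v²)`, so `NF b (-(a₀ a₂))`: `isot_three`. -/
theorem isot_four_sq {K : Type*} [Field K] (h2 : (2 : K) ≠ 0) {a : Fin 4 → K}
    (ha : ∀ i, a i ≠ 0) (hsq : IsSquare (a 0 * a 1 * a 2 * a 3)) (h : Isot a) :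
    Isot (![a 0, a 1, a 2] : Fin 3 → K) := by
  have h0 := ha 0
  have h1 := ha 1
  have h22 := ha 2
  have h3 := ha 3
  have ha3 : ∀ i, (![a 0, a 1, a 2] : Fin 3 → K) i ≠ 0 := by
    intro i
    fin_cases i <;> simp [h0, h1, h22]
  rw [isot_three h2 ha3]
  change NF (-(a 0 * a 1)) (-(a 0 * a 2))
  have hb : -(a 0 * a 1) ≠ 0 := neg_ne_zero.2 (mul_ne_zero h0 h1)
  obtain ⟨s, hs⟩ := hsq
  have hs0 : s ≠ 0 := by
    rintro rfl
    rw [mul_zero] at hs
    exact mul_ne_zero (mul_ne_zero (mul_ne_zero h0 h1) h22) h3 hs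
  obtain ⟨x, hx0, hx⟩ := h
  rw [Fin.sum_univ_four] at hx
  have hc : -(a 2 * a 3) = -(a 0 * a 1) * (s / (a 0 * a 1)) ^ 2 := by
    field_simp
    linear_combination -hs
  by_cases hv : a 0 * x 0 ^ 2 + a 1 * x 1 ^ 2 = 0
  · apply NF.of_left_isSquare h2 hb
    by_cases hx1 : x 1 = 0
    · have hx00 : x 0 = 0 := by
        rw [hx1] at hv
        have : a 0 * x 0 ^ 2 = 0 := by linear_combination hv
        rcases mul_eq_zero.1 this with h | h
        · exact absurd h h0
        · exact pow_eq_zero_iff (two_ne_zero) |>.1 h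
      have hv2 : a 2 * x 2 ^ 2 + a 3 * x 3 ^ 2 = 0 := by linear_combination hx - hv
      have hx3 : x 3 ≠ 0 := by
        intro h
        rw [h] at hv2
        have h5 : a 2 * x 2 ^ 2 = 0 := by linear_combination hv2
        have h6 : x 2 = 0 := by
          rcases mul_eq_zero.1 h5 with h | h
          · exact absurd h h22
          · exact pow_eq_zero_iff (two_ne_zero) |>.1 h
        apply hx0
        funext i
        fin_cases i
        · exact hx00
        · exact hx1
        · exact h6
        · exact h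
      refine ⟨(a 0 * a 1) / s * (a 2 * x 2 / x 3), ?_⟩
      have h7 : -(a 2 * a 3) * x 3 ^ 2 = (a 2 * x 2) ^ 2 := by linear_combination (-(a 2)) * hv2
      rw [hc] at h7
      field_simp at h7 ⊢
      linear_combination h7
    · refine ⟨a 0 * x 0 / x 1, ?_⟩
      field_simp
      linear_combination -hv
  · have n1 : NF (-(a 0 * a 1)) (a 0 * (a 0 * x 0 ^ 2 + a 1 * x 1 ^ 2)) :=
      ⟨a 0 * x 0, x 1, by ring⟩
    have n2 : NF (-(a 2 * a 3)) (-(a 2 * (a 0 * x 0 ^ 2 + a 1 * x 1 ^ 2))) :=
      ⟨a 2 * x 2, x 3, by linear_combination (-(a 2)) * hx⟩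
    rw [hc, nf_mul_sq_left (div_ne_zero hs0 (mul_ne_zero h0 h1))] at n2
    have n3 := n1.mul n2
    have h8 : a 0 * (a 0 * x 0 ^ 2 + a 1 * x 1 ^ 2) * -(a 2 * (a 0 * x 0 ^ 2 + a 1 * x 1 ^ 2)) =
        -(a 0 * a 2) * (a 0 * x 0 ^ 2 + a 1 * x 1 ^ 2) ^ 2 := by ring
    rw [h8, nf_mul_sq_right hv] at n3
    exact n3

end Pool.Agent.Lib.MP_12adaf_nt.HM
end

section

/-!
# Counting primes
-/

namespace Pool.Agent.Lib.MP_12adaf_nt.HM

open NumberField IsDedekindDomain IsDedekindDomain.HeightOneSpectrum

variable {k E : Type*} [Field k] [NumberField k] [Field E] [NumberField E] [Algebra k E]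

/-- There is a prime over every prime. -/
private lemma exists_one_over (v : HeightOneSpectrum (𝓞 k)) :
    ∃ w : HeightOneSpectrum (𝓞 E), w.under (𝓞 k) = v := by
  have : v.asIdeal.IsPrime := v.isPrime
  obtain ⟨⟨P, hP⟩⟩ := Ideal.nonempty_primesOver (S := 𝓞 E) v.asIdeal
  obtain ⟨hP1, hP2⟩ := hP
  refine ⟨⟨P, hP1, Ideal.ne_bot_of_liesOver_of_ne_bot v.ne_bot P⟩, ?_⟩
  exact HeightOneSpectrum.ext hP2.over.symm

open Classical in
/-- **Job HM-40.** Counting primes over `T`. (HM-39, and at least one prime over every prime; split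
`T'` in fibres over `T`.) -/
theorem card_over {x : k} (hx : ¬ IsSquare x) (Q : QExt k E x)
    {T : Finset (HeightOneSpectrum (𝓞 k))} {T' : Finset (HeightOneSpectrum (𝓞 E))}
    (hT' : ∀ w, w ∈ T' ↔ w.under (𝓞 k) ∈ T) :
    T.card + (T.filter fun v => IsSquare (algebraMap k (v.adicCompletion k) x)).card ≤ T'.card := by
  have hmaps : Set.MapsTo (fun w : HeightOneSpectrum (𝓞 E) => w.under (𝓞 k)) (T' : Set _)
      (T : Set (HeightOneSpectrum (𝓞 k))) := by
    intro w hw
    exact (hT' w).mp hw
  rw [Finset.card_eq_sum_card_fiberwise hmaps, Finset.card_filter, Finset.card_eq_sum_ones,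
    ← Finset.sum_add_distrib]
  refine Finset.sum_le_sum fun v hv => ?_
  split_ifs with hsq
  · obtain ⟨w, w', hne, hw, hw'⟩ := exists_two_over hx Q v hsq
    have h1 : ({w, w'} : Finset (HeightOneSpectrum (𝓞 E))) ⊆
        T'.filter (fun w => w.under (𝓞 k) = v) := by
      intro z hz
      rw [Finset.mem_filter, hT' z]
      rw [Finset.mem_insert, Finset.mem_singleton] at hz
      rcases hz with rfl | rfl
      · exact ⟨hw.symm ▸ hv, hw⟩
      · exact ⟨hw'.symm ▸ hv, hw'⟩
    have h2 := Finset.card_le_card h1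
    rw [Finset.card_pair hne] at h2
    exact h2
  · obtain ⟨w, hw⟩ := exists_one_over (E := E) v
    have h1 : w ∈ T'.filter (fun w => w.under (𝓞 k) = v) := by
      rw [Finset.mem_filter, hT' w]
      exact ⟨hw.symm ▸ hv, hw⟩
    have h2 := Finset.card_pos.mpr ⟨w, h1⟩
    exact h2

end Pool.Agent.Lib.MP_12adaf_nt.HM
end

section

/-!
# Units at odd places
-/

namespace Pool.Agent.Lib.MP_12adaf_nt.HM

open NumberField IsDedekindDomain IsDedekindDomain.HeightOneSpectrum IsLocalRing

variable {k : Type*} [Field k] [NumberField k]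

/-- **Job HM-25.** At the places outside `T ⊇ {v | 2}` the square classes of units form a group of
order two, and units are norms. -/
theorem isSquare_mul_fin {w : HeightOneSpectrum (𝓞 k)} (h2 : w.valuation k 2 = 1)
    {x y : w.adicCompletion k} (hx : ‖x‖ = 1) (hy : ‖y‖ = 1) (hx' : ¬ IsSquare x)
    (hy' : ¬ IsSquare y) : IsSquare (x * y) := by
  obtain ⟨u, rfl⟩ := (norm_eq_one_iff w x).1 hx
  obtain ⟨v, rfl⟩ := (norm_eq_one_iff w y).1 hy
  have h := isSquare_mul_of_not (K := w.adicCompletion k) (isUnit_two_fin h2) u v hx' hy'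
  rw [← map_mul]
  exact h.map (algebraMap (w.adicCompletionIntegers k) (w.adicCompletion k))

/-- Units are norms at unramified odd places. (Same job, HM-25.) -/
theorem nf_fin {w : HeightOneSpectrum (𝓞 k)} (h2 : w.valuation k 2 = 1)
    {x y : w.adicCompletion k} (hx : ‖x‖ = 1) (hy : ‖y‖ = 1) : NF x y := by
  obtain ⟨u, rfl⟩ := (norm_eq_one_iff w x).1 hx
  obtain ⟨v, rfl⟩ := (norm_eq_one_iff w y).1 hy
  exact nf_units (isUnit_two_fin h2) u v

end Pool.Agent.Lib.MP_12adaf_nt.HM
end

section

/-!
# Completions at infinite places in extensions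
-/

namespace Pool.Agent.Lib.MP_12adaf_nt.HM

open NumberField IsDedekindDomain IsDedekindDomain.HeightOneSpectrum

variable {k E : Type*} [Field k] [NumberField k] [Field E] [NumberField E] [Algebra k E]

/-- **Job HM-32.** The embedding of completions at infinite places
(`NumberField.LiesOver.completionMap`, with `v = w.comap (algebraMap k E)`). -/
theorem exists_map_inf (w : InfinitePlace E) :
    ∃ ρ : (w.comap (algebraMap k E)).Completion →+* w.Completion,
      ∀ x : k, ρ (algebraMap k _ x) = algebraMap E _ (algebraMap k E x) := by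
  have : w.LiesOver (w.comap (algebraMap k E)) := ⟨rfl⟩
  refine ⟨NumberField.LiesOver.completionMap, fun x => ?_⟩
  have h : algebraMap k (w.comap (algebraMap k E)).Completion x =
      ((WithAbs.toAbs (w.comap (algebraMap k E)).1 x : WithAbs (w.comap (algebraMap k E)).1) :
        (w.comap (algebraMap k E)).Completion) := rfl
  rw [h, NumberField.LiesOver.completionMap_coe]
  rfl

end Pool.Agent.Lib.MP_12adaf_nt.HM
end
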