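import Mathlib
import Pool.Agent.Lib.MP_12adaf_nt.TF.Defs
import Pool.Agent.Lib.MP_12adaf_nt.HM.H32
import Pool.Agent.Lib.MP_12adaf_nt.HM.Q04
import Pool.Agent.Lib.MP_12adaf_nt.TF.OWeak
import Pool.Agent.Lib.MP_12adaf_nt.HM.H24
import Pool.Agent.Lib.MP_12adaf_nt.HM.Q08
import Pool.Agent.Lib.MP_12adaf_nt.HM.Q02

section

/-!
# Basic properties of the matrix of traces
-/

namespace Pool.Agent.Lib.MP_12adaf_nt.TF

set_option linter.unusedSectionVars false
set_option linter.unusedVariables false

open Finset Polynomial Filter Topology Matrix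

section Map

variable {R : Type*} [CommRing R] {S : Type*} [CommRing S] (φ : R →+* S) {f : R[X]}

lemma map_tr (hf : f.Monic) (n : ℕ) (p : R[X]) :
    φ (tr n f p) = tr n (f.map φ) (p.map φ) := by
  rw [tr, tr, map_Mmat φ hf, Matrix.trace, Matrix.trace, map_sum]
  rfl

lemma map_HH (hf : f.Monic) (n : ℕ) : (HH n f).map φ = HH n (f.map φ) := by
  ext i j
  simp only [HH, Matrix.map_apply, Matrix.of_apply, map_tr φ hf, Polynomial.map_pow,
    Polynomial.map_X]

lemma map_cm {m : Type*} (hf : f.Monic) (n : ℕ) (w : m → R[X]) :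
    (cm n f w).map φ = cm n (f.map φ) fun j => (w j).map φ := by
  ext i j
  simp only [cm, Matrix.map_apply, Matrix.of_apply]
  rw [← coeff_map, map_modByMonic _ hf]

lemma HH_isSymm (n : ℕ) (f : R[X]) : (HH n f).IsSymm := by
  ext i j
  simp only [HH, Matrix.transpose_apply, Matrix.of_apply]
  rw [add_comm]

end Map

section Roots

variable {L : Type*} [Field L] {n : ℕ}

lemma tr_nod {θ : Fin n → L} (hθ : Function.Injective θ) (p : L[X]) :
    tr n (nod θ) p = ∑ a, p.eval (θ a) := by
  have hV : (Matrix.vandermonde θ).det ≠ 0 := Matrix.det_vandermonde_ne_zero_iff.mpr hθ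
  have hu : IsUnit (Matrix.vandermonde θ) := by
    rw [Matrix.isUnit_iff_isUnit_det]; exact hV.isUnit
  obtain ⟨V, hV'⟩ := hu
  have h1 := vandermonde_mul_Mmat θ p
  rw [← hV'] at h1
  have h2 : Mmat n (nod θ) p = V⁻¹.val * (Matrix.diagonal (fun i => p.eval (θ i)) * V.val) := by
    rw [← h1, ← Matrix.mul_assoc, Units.inv_mul, Matrix.one_mul]
  rw [tr, h2, Matrix.trace_mul_comm, Matrix.mul_assoc, Units.mul_inv, Matrix.mul_one,
    Matrix.trace_diagonal]

lemma HH_nod {θ : Fin n → L} (hθ : Function.Injective θ) :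
    HH n (nod θ) = (Matrix.vandermonde θ)ᵀ * Matrix.vandermonde θ := by
  ext i j
  rw [HH, Matrix.of_apply, tr_nod hθ, Matrix.mul_apply]
  refine Finset.sum_congr rfl fun a _ => ?_
  rw [Matrix.transpose_apply, Matrix.vandermonde_apply, Matrix.vandermonde_apply, eval_pow,
    eval_X, pow_add]

lemma vandermonde_mul_cm {m : Type*} (θ : Fin n → L) (w : m → L[X]) :
    Matrix.vandermonde θ * cm n (nod θ) w = Matrix.of fun a j => (w j).eval (θ a) := by
  ext a j
  rw [Matrix.mul_apply, Matrix.of_apply]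
  simp only [Matrix.vandermonde_apply, cm, Matrix.of_apply]
  rw [← eval_of_degree_lt (degree_modByMonic_nod_lt θ _) (θ a),
    eval_modByMonic_root _ (eval_nod_self θ a)]

end Roots

section Field

variable {K : Type*} [Field K] {n : ℕ} {f : K[X]}

/-- The trace form in terms of polynomials. -/
theorem cm_form {m : Type*} [Fintype m] (hf : f.Monic) (hn : f.natDegree = n)
    (hsep : f.Separable) (w : m → K[X]) :
    (cm n f w)ᵀ * HH n f * cm n f w = Matrix.of fun i j => tr n f (w i * w j) := by
  let L := AlgebraicClosure K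
  let φ : K →+* L := algebraMap K L
  obtain ⟨θ, hθ, h1⟩ := exists_nod φ hf hn hsep
  have hinj : Function.Injective φ := φ.injective
  apply Matrix.map_injective hinj
  change ((cm n f w)ᵀ * HH n f * cm n f w).map φ = (Matrix.of fun i j => tr n f (w i * w j)).map φ
  ext i j
  rw [Matrix.map_mul, Matrix.map_mul, transpose_map, map_cm φ hf, map_HH φ hf, h1, HH_nod hθ]
  have h2 : (cm n (nod θ) fun j => (w j).map φ)ᵀ *
      ((vandermonde θ)ᵀ * vandermonde θ) * (cm n (nod θ) fun j => (w j).map φ) =
      (vandermonde θ * cm n (nod θ) fun j => (w j).map φ)ᵀ *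
        (vandermonde θ * cm n (nod θ) fun j => (w j).map φ) := by
    rw [transpose_mul]
    simp only [Matrix.mul_assoc]
  rw [h2, vandermonde_mul_cm, Matrix.mul_apply, Matrix.map_apply, Matrix.of_apply,
    map_tr φ hf, h1, tr_nod hθ]
  refine Finset.sum_congr rfl fun a _ => ?_
  rw [Matrix.transpose_apply, Matrix.of_apply, Matrix.of_apply, Polynomial.map_mul, eval_mul]

theorem det_HH (hf : f.Monic) (hn : f.natDegree = n) (hsep : f.Separable) :
    (HH n f).det = f.discr := by
  let L := AlgebraicClosure K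
  let φ : K →+* L := algebraMap K L
  obtain ⟨θ, hθ, h1⟩ := exists_nod φ hf hn hsep
  apply φ.injective
  rw [← discr_map_monic φ hf, h1, discr_nod,
    show φ (HH n f).det = ((HH n f).map φ).det by rw [RingHom.map_det]; rfl, map_HH φ hf, h1,
    HH_nod hθ, det_mul, det_transpose, sq]

lemma det_HH_ne_zero (hf : f.Monic) (hn : f.natDegree = n) (hsep : f.Separable) :
    (HH n f).det ≠ 0 := by
  rw [det_HH hf hn hsep]
  exact discr_ne_zero_of_separable hf hsep

/-- Change of generator. -/
theorem HH_charT (hf : f.Monic) (hn : f.natDegree = n) (hsep : f.Separable) {T : K[X]}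
    (h : (charT n f T).Separable) :
    (Bmat n f T)ᵀ * HH n f * Bmat n f T = HH n (charT n f T) := by
  let L := AlgebraicClosure K
  let φ : K →+* L := algebraMap K L
  obtain ⟨θ, hθ, h1⟩ := exists_nod φ hf hn hsep
  have hinj : Function.Injective φ := φ.injective
  have h2 : (charT n f T).map φ = nod fun i => (T.map φ).eval (θ i) := by
    rw [map_charT φ hf, h1, charT_nod hθ]
  have h3 : Function.Injective fun i => (T.map φ).eval (θ i) := by
    rw [← Matrix.det_vandermonde_ne_zero_iff]
    intro h4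
    have h5 := discr_ne_zero_of_separable ((charT_monic n f T).map φ) h.map
    rw [h2, discr_nod, h4, zero_pow two_ne_zero] at h5
    exact h5 rfl
  apply Matrix.map_injective hinj
  change ((Bmat n f T)ᵀ * HH n f * Bmat n f T).map φ = (HH n (charT n f T)).map φ
  rw [Matrix.map_mul, Matrix.map_mul, transpose_map, ← map_Bmat φ hf, map_HH φ hf,
    map_HH φ (charT_monic n f T), h2, HH_nod h3, h1, HH_nod hθ, ← vandermonde_mul_Bmat,
    transpose_mul]
  simp only [Matrix.mul_assoc]

theorem cong_charT (hf : f.Monic) (hn : f.natDegree = n) (hsep : f.Separable) {T : K[X]}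
    (h : (charT n f T).Separable) : Cong (HH n f) (HH n (charT n f T)) := by
  have h1 := discr_charT hf hn hsep T
  have h2 := discr_ne_zero_of_separable (charT_monic n f T) h
  rw [h1] at h2
  have h3 : (Bmat n f T).det ≠ 0 := by
    intro h4
    rw [h4] at h2
    simp at h2
  refine ⟨Bmat n f T, (Bmat n f T)⁻¹, Matrix.mul_nonsing_inv _ h3.isUnit,
    Matrix.nonsing_inv_mul _ h3.isUnit, HH_charT hf hn hsep h⟩

end Field

section Cont

variable {α : Type*} {l : Filter α} {K : Type*} [NormedField K] {n : ℕ} {f : α → K[X]}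
  {f0 : K[X]}

/-- Continuity of the trace. -/
lemma tendsto_tr (hf : CT l f f0) (hm : ∀ a, (f a).Monic) (hd : ∀ a, (f a).natDegree = n)
    (hm0 : f0.Monic) (hd0 : f0.natDegree = n) {p : α → K[X]} {p0 : K[X]} (hp : CTB l p p0) :
    Tendsto (fun a => tr n (f a) (p a)) l (𝓝 (tr n f0 p0)) := by
  simp only [tr, Matrix.trace, Matrix.diag_apply, Mmat, Matrix.of_apply]
  exact tendsto_finsetSum _ fun i _ =>
    (CTB.modByMonic hf hm hd hm0 hd0 ((CTB.const _).mul hp)).coeff _

/-- Continuity of the matrix of traces. -/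
lemma tendsto_HH (hf : CT l f f0) (hm : ∀ a, (f a).Monic) (hd : ∀ a, (f a).natDegree = n)
    (hm0 : f0.Monic) (hd0 : f0.natDegree = n) (i j : Fin n) :
    Tendsto (fun a => HH n (f a) i j) l (𝓝 (HH n f0 i j)) := by
  simp only [HH, Matrix.of_apply]
  exact tendsto_tr hf hm hd hm0 hd0 (CTB.const _)

end Cont

end Pool.Agent.Lib.MP_12adaf_nt.TF
end

section

section

/-!
# The embedding of completions
-/

namespace Pool.Agent.Lib.MP_12adaf_nt.HM

open NumberField IsDedekindDomain IsDedekindDomain.HeightOneSpectrum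

variable {k E : Type*} [Field k] [NumberField k] [Field E] [NumberField E] [Algebra k E]

/-- The embedding of completions. -/
theorem exists_map_place (i : Pl E) :
    ∃ ρ : PlC k (plUnder k i) →+* PlC E i, ∀ x : k, ρ (plEmb k _ x) = plEmb E i (algebraMap k E x) := by
  rcases i with w | w
  · exact exists_map_inf w
  · obtain ⟨ρ, h, -⟩ := exists_map_fin (k := k) w
    exact ⟨ρ, h⟩

end Pool.Agent.Lib.MP_12adaf_nt.HM
end

section

/-!
# The first inequality
-/

namespace Pool.Agent.Lib.MP_12adaf_nt.HM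

open NumberField IsDedekindDomain IsDedekindDomain.HeightOneSpectrum

section FirstIneqAux

variable {k E : Type*} [Field k] [NumberField k] [Field E] [NumberField E] [Algebra k E]

/-- The conjugate of a unit outside `T'` is a unit outside `T'`. -/
private lemma fi_conj {x : k} (Q : QExt k E x) {T : Finset (HeightOneSpectrum (𝓞 k))}
    {T' : Finset (HeightOneSpectrum (𝓞 E))} (hT' : ∀ w, w ∈ T' ↔ w.under (𝓞 k) ∈ T) {u : Eˣ}
    (hu : u ∈ SU E T') : Units.map (Q.σ : E →* E) u ∈ SU E T' := by
  intro w hw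
  let e : 𝓞 E ≃ₐ[𝓞 k] 𝓞 E := RingOfIntegers.mapAlgEquiv Q.σ
  have he : ∀ r : 𝓞 E, ((e r : 𝓞 E) : E) = Q.σ (r : E) := fun r => rfl
  let w' : HeightOneSpectrum (𝓞 E) :=
    HeightOneSpectrum.comap (e : 𝓞 E →+* 𝓞 E) e.surjective w
  have hmem : ∀ r : 𝓞 E, r ∈ w'.asIdeal ↔ e r ∈ w.asIdeal := fun r => Iff.rfl
  have hw' : w' ∉ T' := by
    rw [Finset.mem_coe, hT'] at hw
    rw [hT']
    have h1 : w'.under (𝓞 k) = w.under (𝓞 k) := by
      ext r
      change e (algebraMap (𝓞 k) (𝓞 E) r) ∈ w.asIdeal ↔ algebraMap (𝓞 k) (𝓞 E) r ∈ w.asIdeal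
      rw [e.commutes]
    rwa [h1]
  have h1 : w'.valuation E (u : E) = 1 := hu w' hw'
  obtain ⟨n, d, hnd⟩ := w'.exists_primeCompl_mul_eq_of_integer (u : E) h1.le
  have hd : (d : 𝓞 E) ∉ w'.asIdeal := d.2
  have hd1 : w'.valuation E (algebraMap (𝓞 E) E d) = 1 :=
    (w'.valuation_eq_one_iff_notMem).2 hd
  have hn1 : w'.valuation E (algebraMap (𝓞 E) E n) = 1 := by
    rw [← hnd, map_mul, h1, hd1, one_mul]
  have hn : n ∉ w'.asIdeal := (w'.valuation_eq_one_iff_notMem).1 hn1
  have h2 : Q.σ (u : E) * algebraMap (𝓞 E) E (e d) = algebraMap (𝓞 E) E (e n) := by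
    have := congrArg Q.σ hnd
    rw [map_mul] at this
    exact this
  have h3 := congrArg (w.valuation E) h2
  rw [map_mul, (w.valuation_eq_one_iff_notMem).2 (fun h => hd ((hmem _).2 h)),
    (w.valuation_eq_one_iff_notMem).2 (fun h => hn ((hmem _).2 h)), mul_one] at h3
  exact h3

omit [NumberField k] [NumberField E] in
private lemma fi_invol {x : k} (Q : QExt k E x) (z : E) : Q.σ (Q.σ z) = z := by
  obtain ⟨a, b, rfl⟩ := Q.gen z
  simp [Q.σθ]

open Classical in
private lemma fi_nsq (T : Finset (HeightOneSpectrum (𝓞 k))) (x : k) :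
    nsq T x + ((Finset.univ.filter fun v : InfinitePlace k =>
        IsSquare (algebraMap k v.Completion x)).card +
      (T.filter fun v => IsSquare (algebraMap k (v.adicCompletion k) x)).card) =
      Fintype.card (InfinitePlace k) + T.card := by
  have h1 : ((SP k T).filter fun i => IsSquare (plEmb k i x)).card =
      (Finset.univ.filter fun v : InfinitePlace k =>
        IsSquare (algebraMap k v.Completion x)).card +
      (T.filter fun v => IsSquare (algebraMap k (v.adicCompletion k) x)).card := by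
    rw [Finset.card_filter, Finset.card_filter, Finset.card_filter, SP, Finset.sum_disjSum]
    rfl
  have h2 : (SP k T).card = Fintype.card (InfinitePlace k) + T.card := by
    rw [SP, Finset.card_disjSum, Finset.card_univ]
  rw [← h1, ← h2, nsq, add_comm]
  exact Finset.card_filter_add_card_filter_not _

end FirstIneqAux

/-- **Job HM-42.** The first inequality.

Proof. Choose `E`, `Q : QExt k E x` (HM-30), `T'` (HM-34). Let `M := SU E T'`, `P := SU k T`,
`ι : P → M` the inclusion, `σ : M → M` the conjugation (the valuations of `σ u`: a prime `w ∉ T'`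
has `σ⁻¹ w ∉ T'`), `N : M → P`, `ι (N u) = u * σ u` (HM-35). `herbrand` applies (HM-35, HM-38,
`card_SU_two`, `sqI_SU`): with `c := card (InfinitePlace k) + T.card`,
`c' := card (InfinitePlace E) + T'.card`, `[P : N M] * 2 * 2 ^ c' = 2 ^ (2 c)`. By HM-40, HM-41
`c' ≥ c + s`, `s` the number of places in `SP k T` where `x` is a square, and
`nsq T x = c - s`. So `[P : N M] * 2 ≤ 2 ^ (c - s)`. Finally `N M ⊆ NS x`:
`u = algebraMap a + algebraMap b * θ` has `u * σ u = a ^ 2 - x b ^ 2`. So the index of
`(NS x).subgroupOf P` divides that of `N M`. -/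
theorem first_ineq {k : Type*} [Field k] [NumberField k] {x : k} (hx : ¬ IsSquare x)
    (T : Finset (HeightOneSpectrum (𝓞 k))) (h2 : ∀ w ∉ T, w.valuation k 2 = 1)
    (hxT : ∀ w ∉ T, w.valuation k x = 1) (hcl : Cl1 k T) :
    ((NS x).subgroupOf (SU k T)).index ≠ 0 ∧
      ((NS x).subgroupOf (SU k T)).index * 2 ≤ 2 ^ nsq T x := by
  classical
  have hx0 : x ≠ 0 := by
    rintro rfl
    exact hx ⟨0, by simp⟩
  obtain ⟨E, _, _, _, ⟨Q⟩⟩ := exists_qext hx
  obtain ⟨T', hT'⟩ := exists_over (k := k) (E := E) T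
  have hemb : ∀ u ∈ SU k T, Units.map (algebraMap k E : k →* E) u ∈ SU E T' := by
    intro u hu w hw
    rw [Finset.mem_coe, hT'] at hw
    exact (valuation_one_iff_under w (u : k)).2 (hu _ hw)
  let ι : SU k T →* SU E T' :=
    ((Units.map (algebraMap k E : k →* E)).comp (SU k T).subtype).codRestrict (SU E T')
      (fun u => hemb u.1 u.2)
  have hιv : ∀ u : SU k T, (((ι u : SU E T') : Eˣ) : E) = algebraMap k E ((u : kˣ) : k) :=
    fun u => rfl
  let σ : SU E T' →* SU E T' :=
    ((Units.map (Q.σ : E →* E)).comp (SU E T').subtype).codRestrict (SU E T')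
      (fun u => fi_conj Q hT' u.2)
  have hσv : ∀ u : SU E T', (((σ u : SU E T') : Eˣ) : E) = Q.σ ((u : Eˣ) : E) := fun u => rfl
  have hι : Function.Injective ι := by
    intro a b hab
    apply Subtype.ext
    apply Units.ext
    apply (algebraMap k E).injective
    rw [← hιv, ← hιv, hab]
  have hfix : ∀ u, σ u = u ↔ u ∈ ι.range := by
    intro u
    constructor
    · intro hu
      have h1 : Q.σ ((u : Eˣ) : E) = ((u : Eˣ) : E) := by rw [← hσv, hu]
      obtain ⟨a, ha, hau⟩ := exists_of_fixed hx0 Q hT' u.2 h1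
      refine ⟨⟨a, ha⟩, ?_⟩
      apply Subtype.ext
      apply Units.ext
      rw [hιv, hau]
    · rintro ⟨a, rfl⟩
      apply Subtype.ext
      apply Units.ext
      rw [hσv, hιv, Q.σ.commutes]
  have hσ : ∀ u, σ (σ u) = u := by
    intro u
    apply Subtype.ext
    apply Units.ext
    rw [hσv, hσv, fi_invol]
  let N0 : SU E T' →* SU E T' := MonoidHom.id _ * σ
  have hN0 : ∀ u, N0 u = u * σ u := fun u => rfl
  have hN0r : ∀ u, N0 u ∈ ι.range := by
    intro u
    rw [← hfix, hN0, map_mul, hσ, mul_comm]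
  let N : SU E T' →* SU k T :=
    (MonoidHom.ofInjective hι).symm.toMonoidHom.comp (N0.codRestrict ι.range hN0r)
  have hN : ∀ u, ι (N u) = u * σ u := by
    intro u
    rw [← hN0]
    exact MonoidHom.apply_ofInjective_symm hι ⟨N0 u, hN0r u⟩
  have h90 : ∀ u, u * σ u = 1 → ∃ y, u = y / σ y := by
    intro u hu
    have h1 : ((u : Eˣ) : E) * Q.σ ((u : Eˣ) : E) = 1 := by
      have := congrArg (fun z : SU E T' => ((z : Eˣ) : E)) hu
      exact this
    obtain ⟨y, hy, hyu⟩ := hilbert90 hx Q hT' h2 hxT hcl u.2 h1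
    refine ⟨⟨y, hy⟩, ?_⟩
    apply Subtype.ext
    apply Units.ext
    rw [Subgroup.coe_div, Units.val_div_eq_div_val, hσv]
    exact hyu
  have h2r : ∀ u : SU E T', u ^ 2 = 1 → u ∈ ι.range := by
    intro u hu
    have h1 : ((u : Eˣ) : E) * ((u : Eˣ) : E) = 1 := by
      have := congrArg (fun z : SU E T' => ((z : Eˣ) : E)) hu
      rw [← sq]
      exact this
    rw [← hfix]
    apply Subtype.ext
    apply Units.ext
    rw [hσv]
    rcases mul_self_eq_one_iff.mp h1 with h | h
    · rw [h, map_one]
    · rw [h, map_neg, map_one]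
  have hM : sqI (SU E T') ≠ 0 := by
    rw [sqI_SU]
    positivity
  have hP : sqI (SU k T) ≠ 0 := by
    rw [sqI_SU]
    positivity
  obtain ⟨hI0, hI⟩ := herbrand ι σ N hι hfix hσ hN h90 h2r (card_SU_two T) hM hP
  rw [sqI_SU, sqI_SU] at hI
  have hle : N.range ≤ (NS x).subgroupOf (SU k T) := by
    rintro _ ⟨u, rfl⟩
    rw [Subgroup.mem_subgroupOf, mem_NS]
    obtain ⟨a, b, hab⟩ := Q.gen ((u : Eˣ) : E)
    refine ⟨a, b, ?_⟩
    apply (algebraMap k E).injective
    rw [← hιv, hN]
    change ((u : Eˣ) : E) * Q.σ ((u : Eˣ) : E) = _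
    rw [hab]
    simp only [map_add, map_mul, map_sub, map_pow, AlgEquiv.commutes, Q.σθ]
    rw [← Q.θ_sq]
    ring
  have hdvd := Subgroup.index_dvd_of_le hle
  have hne : ((NS x).subgroupOf (SU k T)).index ≠ 0 := by
    intro h0
    rw [h0, zero_dvd_iff] at hdvd
    exact hI0 hdvd
  refine ⟨hne, ?_⟩
  have hidx : ((NS x).subgroupOf (SU k T)).index ≤ N.range.index :=
    Nat.le_of_dvd (Nat.pos_of_ne_zero hI0) hdvd
  have hc1 := card_infinite_over hx Q
  have hc2 := card_over hx Q hT'
  have hc3 := fi_nsq T x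
  set s := (Finset.univ.filter fun v : InfinitePlace k =>
        IsSquare (algebraMap k v.Completion x)).card +
      (T.filter fun v => IsSquare (algebraMap k (v.adicCompletion k) x)).card with hs
  set c := Fintype.card (InfinitePlace k) + T.card with hc
  set c' := Fintype.card (InfinitePlace E) + T'.card with hc'
  have h5 : c + s ≤ c' := by omega
  have h6 : N.range.index * 2 * 2 ^ (c + s) ≤ 2 ^ nsq T x * 2 ^ (c + s) := by
    calc N.range.index * 2 * 2 ^ (c + s) ≤ N.range.index * 2 * 2 ^ c' :=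
          Nat.mul_le_mul_left _ (Nat.pow_le_pow_right (by norm_num) h5)
      _ = (2 ^ c) ^ 2 := hI
      _ = 2 ^ nsq T x * 2 ^ (c + s) := by
          rw [← pow_mul, ← pow_add]
          congr 1
          omega
  have h7 : N.range.index * 2 ≤ 2 ^ nsq T x := Nat.le_of_mul_le_mul_right h6 (by positivity)
  omega

end Pool.Agent.Lib.MP_12adaf_nt.HM
end

section

/-!
# The global square theorem
-/

namespace Pool.Agent.Lib.MP_12adaf_nt.HM

open NumberField IsDedekindDomain IsDedekindDomain.HeightOneSpectrum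

variable {k : Type*} [Field k] [NumberField k]

private lemma nf_key {K : Type*} [Field K] {a y y' c : K} (hy : y ≠ 0) (hy' : y' ≠ 0)
    (h : IsSquare (y * c)) (h' : IsSquare y') (hn : NF a (y⁻¹ * y')) : NF a c := by
  have h1 := (hn.mul (NF.of_isSquare a h)).mul (NF.of_isSquare a h').inv
  have h2 : y⁻¹ * y' * (y * c) * y'⁻¹ = c := by
    field_simp
  rwa [h2] at h1

/-- Two different sets give different cosets. -/
private lemma coset_key {x : k} {A J J' : Finset (Pl k)} (hJ : J ⊆ A) {y y' : k} (hy : y ≠ 0)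
    (hy' : y' ≠ 0) {c : ∀ i : Pl k, PlC k i} (hc : ∀ i ∈ A, ¬ NF (plEmb k i x) (c i))
    (h : ∀ i ∈ J, IsSquare (plEmb k i y * c i)) (h' : ∀ i ∈ A, i ∉ J' → IsSquare (plEmb k i y'))
    (hn : NF x (y⁻¹ * y')) : J ⊆ J' := by
  intro i hi
  by_contra hi'
  apply hc i (hJ hi)
  have h1 := hn.map (plEmb k i)
  rw [map_mul, map_inv₀] at h1
  exact nf_key ((map_ne_zero _).mpr hy) ((map_ne_zero _).mpr hy') (h i hi) (h' i (hJ hi) hi') h1

/-- **Job HM-51.** The global square theorem: an element which is a square at almost all finite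
places is a square.

Proof. Suppose that `x ≠ 0` is not a square. Let `T` be a finite set containing `T₀`, the `v` with
`v.valuation 2 ≠ 1` or `v.valuation x ≠ 1`, and with `Cl1 k T` (`exists_Cl1`). Let
`A := {i ∈ SP k T | x is not a square at i}`, `nsq T x = |A|`. For `i ∈ A` let `c i ≠ 0` be a
non-norm: `¬ NF (x_i) (c i)` (`exists_not_nf`); `c i = 1` otherwise. For `J ⊆ A` choose (HM-50)
`y_J ≠ 0` in `k` with `y_J * c i` a square in `PlC k i` for `i ∈ J` and `y_J` a square for
`i ∈ A \ J`. Let `T' ⊇ T` contain all the `v` with `v.valuation y_J ≠ 1` for some `J`; `Cl1 k T'`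
(`Cl1.mono`). `nsq T' x = nsq T x`, as `x` is a square at the places outside `T₀`. By `first_ineq`
the index of `NS x` in `SU k T'` is at most `2 ^ |A| / 2` (and not zero). But the `y_J`
(`2 ^ |A|` of them) lie in `SU k T'` and in different cosets: for `J ≠ J'` let `i` be in one
and not in the other, say in `J`: if `y_J / y_J' ∈ NS x` then `NF x_i (y_J / y_J')`, and so
`NF x_i (c i)`, as `y_J * c i` and `y_J'` are squares (nonzero). Contradiction: `2 ^ |A|` distinct
cosets. -/
theorem global_square {x : k} (T₀ : Finset (HeightOneSpectrum (𝓞 k)))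
    (h : ∀ w ∉ T₀, IsSquare (algebraMap k (w.adicCompletion k) x)) : IsSquare x := by
  classical
  by_contra hx
  have hx0 : x ≠ 0 := by
    rintro rfl
    exact hx ⟨0, by ring⟩
  obtain ⟨T, hTsub, hcl⟩ := exists_Cl1 (T₀ ∪ (finite_valuation_ne_one (k := k) two_ne_zero).toFinset
    ∪ (finite_valuation_ne_one hx0).toFinset)
  have hT0 : ∀ w ∉ T, w ∉ T₀ := fun w hw hw' =>
    hw (hTsub (Finset.mem_union_left _ (Finset.mem_union_left _ hw')))
  have hT2 : ∀ w ∉ T, w.valuation k 2 = 1 := by
    intro w hw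
    by_contra hcon
    exact hw (hTsub (Finset.mem_union_left _ (Finset.mem_union_right _
      ((Set.Finite.mem_toFinset _).mpr hcon))))
  have hTx : ∀ w ∉ T, w.valuation k x = 1 := by
    intro w hw
    by_contra hcon
    exact hw (hTsub (Finset.mem_union_right _ ((Set.Finite.mem_toFinset _).mpr hcon)))
  set A : Finset (Pl k) := (SP k T).filter fun i => ¬ IsSquare (plEmb k i x) with hA
  have hc : ∀ i : Pl k, ∃ c : PlC k i, c ≠ 0 ∧ (i ∈ A → ¬ NF (plEmb k i x) c) := by
    intro i
    by_cases hi : i ∈ A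
    · obtain ⟨c, hc1, hc2⟩ := exists_not_nf i (Finset.mem_filter.mp hi).2
      exact ⟨c, hc1, fun _ => hc2⟩
    · exact ⟨1, one_ne_zero, fun h => absurd h hi⟩
  choose c hc0 hcn using hc
  have hy : ∀ J : Finset (Pl k), ∃ y : k, y ≠ 0 ∧
      ∀ i ∈ A, IsSquare (plEmb k i y * (if i ∈ J then c i else 1)) := by
    intro J
    apply exists_sq_class
    intro i
    split_ifs
    · exact hc0 i
    · exact one_ne_zero
  choose y hy0 hysq using hy
  have hy1 : ∀ J ⊆ A, ∀ i ∈ J, IsSquare (plEmb k i (y J) * c i) := by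
    intro J hJ i hi
    have h1 := hysq J i (hJ hi)
    rwa [if_pos hi] at h1
  have hy2 : ∀ J : Finset (Pl k), ∀ i ∈ A, i ∉ J → IsSquare (plEmb k i (y J)) := by
    intro J i hi hiJ
    have h1 := hysq J i hi
    rwa [if_neg hiJ, mul_one] at h1
  set T' : Finset (HeightOneSpectrum (𝓞 k)) :=
    T ∪ A.powerset.biUnion fun J => (finite_valuation_ne_one (hy0 J)).toFinset with hT'
  have hTT' : T ⊆ T' := Finset.subset_union_left
  have hyT' : ∀ J ∈ A.powerset, ∀ w ∉ T', w.valuation k (y J) = 1 := by
    intro J hJ w hw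
    by_contra hcon
    apply hw
    rw [hT', Finset.mem_union, Finset.mem_biUnion]
    exact Or.inr ⟨J, hJ, (Set.Finite.mem_toFinset _).mpr hcon⟩
  obtain ⟨hi0, hile⟩ := first_ineq hx T' (fun w hw => hT2 w fun h => hw (hTT' h))
    (fun w hw => hTx w fun h => hw (hTT' h)) (hcl.mono hTT')
  have hnsq : nsq T' x ≤ A.card := by
    unfold nsq
    apply Finset.card_le_card
    intro i hi
    rw [Finset.mem_filter] at hi
    rw [hA, Finset.mem_filter]
    refine ⟨?_, hi.2⟩
    rcases i with v | w
    · exact mem_SP_inl T v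
    · rw [mem_SP_inr]
      by_contra hw
      exact hi.2 (h w (hT0 w hw))
  -- the cosets
  have hmem : ∀ J : {J // J ∈ A.powerset}, Units.mk0 (y J.1) (hy0 J.1) ∈ SU k T' :=
    fun J w hw => hyT' J.1 J.2 w hw
  let F : {J // J ∈ A.powerset} → SU k T' ⧸ (NS x).subgroupOf (SU k T') :=
    fun J => QuotientGroup.mk ⟨Units.mk0 (y J.1) (hy0 J.1), hmem J⟩
  have hF : Function.Injective F := by
    intro J J' hJJ'
    have h1 := QuotientGroup.eq.mp hJJ'
    rw [Subgroup.mem_subgroupOf] at h1
    have h2 : NF x ((y J.1)⁻¹ * y J'.1) := by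
      have h3 := mem_NS.mp h1
      simpa using h3
    have h3 : NF x ((y J'.1)⁻¹ * y J.1) := by
      have h4 := h2.inv
      rwa [mul_inv, inv_inv, mul_comm] at h4
    have hJA := Finset.mem_powerset.mp J.2
    have hJA' := Finset.mem_powerset.mp J'.2
    exact Subtype.ext (Finset.Subset.antisymm
      (coset_key hJA (hy0 _) (hy0 _) (fun i hi => hcn i hi) (hy1 _ hJA) (hy2 _) h2)
      (coset_key hJA' (hy0 _) (hy0 _) (fun i hi => hcn i hi) (hy1 _ hJA') (hy2 _) h3))
  have hfin : Finite (SU k T' ⧸ (NS x).subgroupOf (SU k T')) :=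
    Nat.finite_of_card_ne_zero hi0
  have hcard := Nat.card_le_card_of_injective F hF
  rw [Nat.card_eq_fintype_card, Fintype.card_coe, Finset.card_powerset] at hcard
  have h5 : 2 ^ A.card * 2 ≤ 2 ^ A.card :=
    ((Nat.mul_le_mul_right 2 hcard).trans hile).trans (Nat.pow_le_pow_right (by norm_num) hnsq)
  have h6 : 0 < 2 ^ A.card := by positivity
  omega

end Pool.Agent.Lib.MP_12adaf_nt.HM
end

section

/-!
# Squares at the places of T
-/

namespace Pool.Agent.Lib.MP_12adaf_nt.HM

open NumberField IsDedekindDomain IsDedekindDomain.HeightOneSpectrum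

variable {k : Type*} [Field k] [NumberField k]

/-- Adjusting by a power of a uniformizer. -/
private lemma exists_zpow_norm_one {v : HeightOneSpectrum (𝓞 k)} {p : k}
    (hp : v.valuation k p = WithZero.exp (-1 : ℤ)) {c : v.adicCompletion k} (hc : c ≠ 0) :
    ∃ n : ℤ, ‖algebraMap k (v.adicCompletion k) (p ^ n) * c‖ = 1 := by
  obtain ⟨q, hq⟩ : ∃ q : k, ‖c - algebraMap k (v.adicCompletion k) q‖ < ‖c‖ := by
    obtain ⟨q, hq⟩ := (v.denseRange_algebraMap k).exists_dist_lt c (norm_pos_iff.2 hc)
    rw [dist_eq_norm] at hq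
    exact ⟨q, hq⟩
  have hqc : ‖algebraMap k (v.adicCompletion k) q‖ = ‖c‖ := by
    have e : algebraMap k (v.adicCompletion k) q = c - (c - algebraMap k (v.adicCompletion k) q) := by
      ring
    have h1 : ‖c - (c - algebraMap k (v.adicCompletion k) q)‖ =
        max ‖c‖ ‖c - algebraMap k (v.adicCompletion k) q‖ := by
      rw [sub_eq_add_neg, ← norm_neg (c - algebraMap k (v.adicCompletion k) q)]
      refine IsUltrametricDist.norm_add_eq_max_of_norm_ne_norm ?_
      rw [norm_neg]
      exact hq.ne'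
    rw [← e] at h1
    rw [h1, max_eq_left hq.le]
  have hq0 : q ≠ 0 := by
    rintro rfl
    rw [map_zero, norm_zero] at hqc
    exact hc (norm_eq_zero.1 hqc.symm)
  have hvq : v.valuation k q ≠ 0 := by
    rw [Valuation.ne_zero_iff]
    exact hq0
  refine ⟨WithZero.log (v.valuation k q), ?_⟩
  rw [norm_mul, ← hqc, ← norm_mul, ← map_mul, ← valuation_eq_one_iff, map_mul, map_zpow₀, hp,
    ← WithZero.exp_zsmul]
  conv_lhs => rw [← WithZero.exp_log hvq]
  rw [WithZero.log_exp, ← WithZero.exp_add]
  simp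

private lemma isSquare_mul_iff_aux2 {K : Type*} [Field K] {x y : K} (hx0 : x ≠ 0) (hy0 : y ≠ 0)
    (h : ¬ IsSquare x → ¬ IsSquare y → IsSquare (x * y)) :
    IsSquare (x * y) ↔ (IsSquare x ↔ IsSquare y) := by
  have e1 : IsSquare x → IsSquare (x * y) → IsSquare y := fun h1 h2 => by
    have := h2.div h1
    rwa [mul_div_cancel_left₀ _ hx0] at this
  have e2 : IsSquare y → IsSquare (x * y) → IsSquare x := fun h1 h2 => by
    have := h2.div h1
    rwa [mul_div_cancel_right₀ _ hy0] at this
  have e3 : IsSquare x → IsSquare y → IsSquare (x * y) := fun h1 h2 => h1.mul h2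
  tauto

/-- Units outside `T ∪ A` with given square classes at the places of `A`. -/
private lemma exists_class {T A : Finset (HeightOneSpectrum (𝓞 k))} (hTA : Disjoint A T)
    [DecidableEq (HeightOneSpectrum (𝓞 k))]
    (h2 : ∀ w ∉ T, w.valuation k 2 = 1) (hcl : Cl1 k T)
    (hA : ∀ J ⊆ A, ∃ u ∈ SU k T, ∀ v ∈ A,
        (IsSquare (algebraMap k (v.adicCompletion k) (u : k)) ↔ v ∉ J))
    (c : ∀ v : HeightOneSpectrum (𝓞 k), v.adicCompletion k) (hc : ∀ v, c v ≠ 0) :
    ∃ y ∈ SU k (T ∪ A), ∀ v ∈ A,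
      IsSquare (algebraMap k (v.adicCompletion k) (y : k) * c v) := by
  classical
  have hvT : ∀ v ∈ A, v ∉ T := fun v hv => Finset.disjoint_left.1 hTA hv
  have h1 : ∀ v : HeightOneSpectrum (𝓞 k), ∃ p : kˣ, v ∈ A →
      (v.valuation k (p : k) = WithZero.exp (-1 : ℤ) ∧
        ∀ v' ∉ T, v' ≠ v → v'.valuation k (p : k) = 1) := by
    intro v
    by_cases hv : v ∈ A
    · obtain ⟨p, hp1, hp2⟩ := hcl v (hvT v hv)
      have hp0 : p ≠ 0 := by
        rintro rfl
        rw [map_zero] at hp1
        exact WithZero.exp_ne_zero hp1.symm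
      exact ⟨Units.mk0 p hp0, fun _ => ⟨hp1, hp2⟩⟩
    · exact ⟨1, fun h => absurd h hv⟩
  choose p hp using h1
  have h3 : ∀ v : HeightOneSpectrum (𝓞 k), ∃ n : ℤ, v ∈ A →
      ‖algebraMap k (v.adicCompletion k) (((p v) ^ n : kˣ) : k) * c v‖ = 1 := by
    intro v
    by_cases hv : v ∈ A
    · obtain ⟨n, hn⟩ := exists_zpow_norm_one (hp v hv).1 (hc v)
      refine ⟨n, fun _ => ?_⟩
      rw [Units.val_zpow_eq_zpow_val]
      exact hn
    · exact ⟨0, fun h => absurd h hv⟩
  choose n hn using h3
  set y' : kˣ := ∏ v ∈ A, (p v) ^ (n v) with hy'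
  have hval : ∀ v' ∉ T, ∀ v ∈ A, v' ≠ v → v'.valuation k (((p v) ^ (n v) : kˣ) : k) = 1 := by
    intro v' hv' v hv hne
    rw [Units.val_zpow_eq_zpow_val, map_zpow₀, (hp v hv).2 v' hv' hne, one_zpow]
  have hy'1 : y' ∈ SU k (T ∪ A) := by
    intro v' hv'
    rw [Finset.mem_coe, Finset.mem_union, not_or] at hv'
    rw [hy', Units.coe_prod, map_prod]
    refine Finset.prod_eq_one fun v hv => hval v' hv'.1 v hv fun h => hv'.2 (h ▸ hv)
  have hy'2 : ∀ v ∈ A, ‖algebraMap k (v.adicCompletion k) (y' : k) * c v‖ = 1 := by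
    intro v hv
    rw [hy', Units.coe_prod, ← Finset.mul_prod_erase A _ hv, map_mul]
    have h4 : ‖algebraMap k (v.adicCompletion k)
        (∏ x ∈ A.erase v, (((p x) ^ (n x) : kˣ) : k))‖ = 1 := by
      rw [← valuation_eq_one_iff, map_prod]
      refine Finset.prod_eq_one fun w hw => ?_
      rw [Finset.mem_erase] at hw
      exact hval v (hvT v hv) w hw.2 fun h => hw.1 h.symm
    rw [mul_assoc, mul_comm (algebraMap k (v.adicCompletion k)
        (∏ x ∈ A.erase v, (((p x) ^ (n x) : kˣ) : k))) (c v), ← mul_assoc, norm_mul, h4, mul_one]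
    exact hn v hv
  obtain ⟨u, huT, hu⟩ := hA (A.filter fun v =>
    ¬ IsSquare (algebraMap k (v.adicCompletion k) (y' : k) * c v)) (Finset.filter_subset _ _)
  refine ⟨y' * u, mul_mem hy'1 fun v hv => huT v fun h => hv ?_, fun v hv => ?_⟩
  · rw [Finset.mem_coe, Finset.mem_union]
    exact Or.inl h
  · have hu1 := huT v (hvT v hv)
    have h5 := hu v hv
    rw [Finset.mem_filter] at h5
    have h6 : algebraMap k (v.adicCompletion k) ((y' * u : kˣ) : k) * c v =
        (algebraMap k (v.adicCompletion k) (y' : k) * c v) *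
          algebraMap k (v.adicCompletion k) (u : k) := by
      rw [Units.val_mul, map_mul]
      ring
    have hn1 := hy'2 v hv
    have hn2 := (valuation_eq_one_iff v (u : k)).1 hu1
    rw [h6, isSquare_mul_iff_aux2]
    · tauto
    · intro h
      rw [h, norm_zero] at hn1
      exact zero_ne_one hn1
    · intro h
      rw [h, norm_zero] at hn2
      exact zero_ne_one hn2
    · intro h7 h8
      exact isSquare_mul_fin (h2 v (hvT v hv)) hn1 hn2 h7 h8

/-- **Job HM-54.** The key step: with `|SP k T| - 1` auxiliary places, a unit outside `T ∪ A` which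
is a square at the places of `T` and at the infinite places is a square.

Proof. Suppose that `x` is not a square. Let `B ⊆ A` be the set of `v ∈ A` where `x` is not a
square. Then `nsq (T ∪ A) x = |B|` and by `first_ineq` (for `T ∪ A`) the index of `NS x` in
`SU k (T ∪ A)` is nonzero and `≤ 2 ^ |B| / 2`. For `v ∈ B` let `c v` be a non-norm at `v`
(`exists_not_nf`), and for `J ⊆ B` construct `y_J ∈ SU k (T ∪ A)` with `y_J * c v` a square at
`v ∈ J` and `y_J` a square at `v ∈ B \ J`: let `n v` be the valuation of `c v` (an integer), let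
`p_v ∈ k` (`Cl1 k T`) have valuation `exp (-1)` at `v` and `1` at the other places outside `T`;
let `y' := ∏_{v ∈ J} p_v ^ (± n v)`, such that `y' * c v` is a unit for `v ∈ J`, and `y'` is a unit
at the other places of `A`. Let `J' ⊆ A` be the set of `v ∈ A` where `y' * c v` (`v ∈ J`), resp.
`y'` (`v ∈ A \ J`), is not a square; choose `u ∈ SU k T` for `J'` as in `hA`, and `y_J := y' u`: use
HM-25. As in HM-51 the `2 ^ |B|` elements `y_J` lie in different cosets of `NS x`:
contradiction. -/
theorem isSquare_of_aux {T A : Finset (HeightOneSpectrum (𝓞 k))} (hTA : Disjoint A T)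
    [DecidableEq (HeightOneSpectrum (𝓞 k))]
    (h2 : ∀ w ∉ T, w.valuation k 2 = 1) (hcl : Cl1 k T)
    (hA : ∀ J ⊆ A, ∃ u ∈ SU k T, ∀ v ∈ A,
        (IsSquare (algebraMap k (v.adicCompletion k) (u : k)) ↔ v ∉ J))
    {x : kˣ} (hx : x ∈ SU k (T ∪ A)) (hxT : ∀ i ∈ SP k T, IsSquare (plEmb k i (x : k))) :
    IsSquare (x : k) := by
  classical
  by_contra hxs
  have h2' : ∀ w ∉ T ∪ A, w.valuation k 2 = 1 := by
    intro w hw
    rw [Finset.mem_union, not_or] at hw
    exact h2 w hw.1
  obtain ⟨hI0, hI⟩ := first_ineq hxs (T ∪ A) h2' (fun w hw => hx w hw)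
    (hcl.mono Finset.subset_union_left)
  set B := A.filter fun v => ¬ IsSquare (algebraMap k (v.adicCompletion k) (x : k)) with hB
  have hnsq : nsq (T ∪ A) (x : k) ≤ B.card := by
    rw [nsq]
    calc _ ≤ (B.map ⟨(Sum.inr : HeightOneSpectrum (𝓞 k) → Pl k), Sum.inr_injective⟩).card := by
          refine Finset.card_le_card fun i hi => ?_
          rw [Finset.mem_filter] at hi
          rcases i with i | v
          · exact absurd (hxT _ (mem_SP_inl T i)) hi.2
          · rw [Finset.mem_map]
            refine ⟨v, ?_, rfl⟩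
            have h3 := mem_SP_inr.1 hi.1
            rw [Finset.mem_union] at h3
            rcases h3 with h3 | h3
            · exact absurd (hxT _ (mem_SP_inr.2 h3)) hi.2
            · rw [hB, Finset.mem_filter]
              exact ⟨h3, hi.2⟩
      _ = B.card := Finset.card_map _
  have hnn : ∀ v : HeightOneSpectrum (𝓞 k), ∃ c : v.adicCompletion k, c ≠ 0 ∧
      (v ∈ B → ¬ NF (algebraMap k (v.adicCompletion k) (x : k)) c) := by
    intro v
    by_cases hv : v ∈ B
    · obtain ⟨c, hc1, hc2⟩ := exists_not_nf (k := k) (Sum.inr v)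
        (b := algebraMap k (v.adicCompletion k) (x : k)) (Finset.mem_filter.1 hv).2
      exact ⟨c, hc1, fun _ => hc2⟩
    · exact ⟨1, one_ne_zero, fun h => absurd h hv⟩
  choose c hc0 hc using hnn
  have hy : ∀ J : Finset (HeightOneSpectrum (𝓞 k)), ∃ y ∈ SU k (T ∪ A), ∀ v ∈ A,
      IsSquare (algebraMap k (v.adicCompletion k) (y : k) * if v ∈ J then c v else 1) := by
    intro J
    refine exists_class hTA h2 hcl hA (fun v => if v ∈ J then c v else 1) ?_
    intro v
    by_cases hv : v ∈ J
    · simpa [hv] using hc0 v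
    · simp [hv]
  choose y hyT hy using hy
  have hkey : ∀ (J J' : Finset (HeightOneSpectrum (𝓞 k))) (v : HeightOneSpectrum (𝓞 k)),
      v ∈ B → v ∈ J → v ∉ J' → ¬ ((y J)⁻¹ * y J') ∈ NS (x : k) := by
    intro J J' v hvB hvJ hvJ' hmem
    rw [mem_NS] at hmem
    have hvA : v ∈ A := (Finset.mem_filter.1 hvB).1
    apply hc v hvB
    have h3 := hmem.map (algebraMap k (v.adicCompletion k))
    rw [Units.val_mul, Units.val_inv_eq_inv_val, map_mul, map_inv₀] at h3
    have h4 := hy J v hvA
    have h5 := hy J' v hvA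
    rw [if_pos hvJ] at h4
    rw [if_neg hvJ', mul_one] at h5
    obtain ⟨s, hs⟩ := h4
    obtain ⟨t, ht⟩ := h5
    have hinj := (algebraMap k (v.adicCompletion k)).injective
    have h6 : algebraMap k (v.adicCompletion k) ((y J : kˣ) : k) ≠ 0 := by
      rw [Ne, map_eq_zero_iff _ hinj]
      exact (y J).ne_zero
    have h7 : algebraMap k (v.adicCompletion k) ((y J' : kˣ) : k) ≠ 0 := by
      rw [Ne, map_eq_zero_iff _ hinj]
      exact (y J').ne_zero
    have h8 : t ≠ 0 := by
      rintro rfl
      apply h7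
      rw [ht, mul_zero]
    have h9 : c v = (s / t * (s / t)) * ((algebraMap k (v.adicCompletion k) ((y J : kˣ) : k))⁻¹ *
        algebraMap k (v.adicCompletion k) ((y J' : kˣ) : k)) := by
      rw [ht]
      field_simp
      linear_combination hs
    rw [h9]
    exact (NF.of_isSquare _ ⟨s / t, rfl⟩).mul h3
  set H := (NS (x : k)).subgroupOf (SU k (T ∪ A)) with hH
  haveI : H.FiniteIndex := ⟨hI0⟩
  haveI : Finite (SU k (T ∪ A) ⧸ H) := Subgroup.finite_quotient_of_finiteIndex
  haveI := Fintype.ofFinite (SU k (T ∪ A) ⧸ H)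
  have hinj : Set.InjOn (fun J : Finset (HeightOneSpectrum (𝓞 k)) =>
      ((⟨y J, hyT J⟩ : SU k (T ∪ A)) : SU k (T ∪ A) ⧸ H)) (B.powerset : Set _) := by
    intro J hJ J' hJ' hJJ'
    rw [Finset.mem_coe, Finset.mem_powerset] at hJ hJ'
    have h3 := QuotientGroup.eq.1 hJJ'
    have h4 := QuotientGroup.eq.1 hJJ'.symm
    rw [hH, Subgroup.mem_subgroupOf] at h3 h4
    ext v
    constructor
    · intro hv
      by_contra hv'
      exact hkey J J' v (hJ hv) hv hv' h3
    · intro hv
      by_contra hv'
      exact hkey J' J v (hJ' hv) hv hv' h4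
  have hcard := Finset.card_le_card_of_injOn _
    (fun J _ => Finset.mem_univ (((⟨y J, hyT J⟩ : SU k (T ∪ A)) : SU k (T ∪ A) ⧸ H))) hinj
  rw [Finset.card_powerset, Finset.card_univ, ← Nat.card_eq_fintype_card] at hcard
  have h10 : 2 ^ B.card ≤ H.index := hcard
  have h11 : 2 ^ nsq (T ∪ A) (x : k) ≤ 2 ^ B.card := Nat.pow_le_pow_right (by norm_num) hnsq
  have h12 : 0 < 2 ^ B.card := by positivity
  omega

end Pool.Agent.Lib.MP_12adaf_nt.HM
end

section

/-!
# Independent places
-/

namespace Pool.Agent.Lib.MP_12adaf_nt.HM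

open NumberField IsDedekindDomain IsDedekindDomain.HeightOneSpectrum

variable {k : Type*} [Field k] [NumberField k]

/-- **Job HM-52.** Independence: there are infinitely many places where `b` is a square and `u` is
not, unless `u` or `b u` is a square.

Proof. Suppose that all `v ∉ T₀` where `b` is a square have `u` a square. If `b` is a square, use
`global_square` for `u`. Otherwise let `E`, `Q : QExt k E b` (HM-30). Claim: `u` is a square at
almost all finite places `w` of `E`: let `v = w.under` be such that `v ∉ T₀`, `v.valuation 2 = 1`,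
`v.valuation b = 1`, `v.valuation u = 1` (almost all `w`: `exists_over`). If `u` is a square in the
completion `k_v` then also in `E_w` (`exists_map_fin`). Otherwise `b` is not a square in `k_v` by
hypothesis, so `b u` is a square in `k_v` (HM-25), hence in `E_w`, where `b = θ ^ 2` is a nonzero
square; so `u` is a square in `E_w`. By `global_square` for `E`: `u = (a + c θ) ^ 2` with
`a, c ∈ k`, so `2 a c = 0` (`θ ∉ k`), and `u = a ^ 2` or `u = b c ^ 2`, so `u` or `b u` is a square
in `k`: contradiction. -/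
theorem exists_place_sq_not_sq {b u : k} (hb : b ≠ 0) (hu : u ≠ 0) (h1 : ¬ IsSquare u)
    (h2 : ¬ IsSquare (b * u)) (T₀ : Finset (HeightOneSpectrum (𝓞 k))) :
    ∃ v ∉ T₀, IsSquare (algebraMap k (v.adicCompletion k) b) ∧
      ¬ IsSquare (algebraMap k (v.adicCompletion k) u) := by
  classical
  by_contra hcon
  push Not at hcon
  by_cases hbs : IsSquare b
  · exact h1 (global_square T₀ fun w hw => hcon w hw (hbs.map _))
  obtain ⟨E, _, _, _, ⟨Q⟩⟩ := exists_qext hbs
  have h20 : (2 : k) ≠ 0 := two_ne_zero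
  let T₁ : Finset (HeightOneSpectrum (𝓞 k)) :=
    ((T₀ ∪ (finite_valuation_ne_one h20).toFinset) ∪ (finite_valuation_ne_one hb).toFinset) ∪
      (finite_valuation_ne_one hu).toFinset
  obtain ⟨T', hT'⟩ := exists_over (k := k) (E := E) T₁
  have hθ0 : Q.θ ≠ 0 := by
    intro h
    apply hb
    apply (algebraMap k E).injective
    rw [← Q.θ_sq, h, map_zero]
    ring
  have hsq : IsSquare (algebraMap k E u) := by
    refine global_square T' fun w hw => ?_
    rw [hT'] at hw
    have hw' : (w.under (𝓞 k)) ∉ T₀ ∧ (w.under (𝓞 k)).valuation k 2 = 1 ∧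
        (w.under (𝓞 k)).valuation k b = 1 ∧ (w.under (𝓞 k)).valuation k u = 1 := by
      simp only [T₁, Finset.mem_union, Set.Finite.mem_toFinset, Set.mem_ofPred_eq, not_or,
        not_not] at hw
      exact ⟨hw.1.1.1, hw.1.1.2, hw.1.2, hw.2⟩
    obtain ⟨hv0, hv2, hvb, hvu⟩ := hw'
    obtain ⟨ρ, hρ, -⟩ := exists_map_fin (k := k) w
    by_cases hus : IsSquare (algebraMap k ((w.under (𝓞 k)).adicCompletion k) u)
    · rw [← hρ]
      exact hus.map ρ
    · have hbns : ¬ IsSquare (algebraMap k ((w.under (𝓞 k)).adicCompletion k) b) :=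
        fun h => hus (hcon _ hv0 h)
      obtain ⟨c, hc⟩ := isSquare_mul_fin hv2 ((valuation_eq_one_iff _ b).1 hvb)
        ((valuation_eq_one_iff _ u).1 hvu) hbns hus
      have hθ : algebraMap E (w.adicCompletion E) Q.θ ≠ 0 := by
        rw [Ne, map_eq_zero_iff _ (algebraMap E (w.adicCompletion E)).injective]
        exact hθ0
      have h3 := congrArg ρ hc
      rw [map_mul, map_mul, hρ, hρ, ← Q.θ_sq, map_pow] at h3
      refine ⟨ρ c / algebraMap E (w.adicCompletion E) Q.θ, ?_⟩
      field_simp
      linear_combination h3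
  obtain ⟨z, hz⟩ := hsq
  obtain ⟨a, c, rfl⟩ := Q.gen z
  have h3 := congrArg Q.σ hz
  simp only [map_add, map_mul, AlgEquiv.commutes, Q.σθ] at h3
  have h4 : algebraMap k E (a * c) = 0 := by
    have h5 : (4 * Q.θ) * algebraMap k E (a * c) = 0 := by
      rw [map_mul]
      linear_combination h3 - hz
    exact (mul_eq_zero.1 h5).resolve_left (mul_ne_zero (by norm_num) hθ0)
  rw [map_eq_zero_iff _ (algebraMap k E).injective, mul_eq_zero] at h4
  rcases h4 with rfl | rfl
  · apply h2
    refine ⟨b * c, (algebraMap k E).injective ?_⟩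
    have h6 := Q.θ_sq
    simp only [map_mul, map_zero, zero_add] at hz ⊢
    rw [hz, ← h6]
    ring
  · apply h1
    refine ⟨a, (algebraMap k E).injective ?_⟩
    simp only [map_mul, map_zero, zero_mul, add_zero] at hz ⊢
    exact hz

end Pool.Agent.Lib.MP_12adaf_nt.HM
end

section

/-!
# Auxiliary places
-/

namespace Pool.Agent.Lib.MP_12adaf_nt.HM

open NumberField IsDedekindDomain IsDedekindDomain.HeightOneSpectrum

variable {k : Type*} [Field k] [NumberField k]

private lemma isSquare_mul_iff_aux {K : Type*} [Field K] {x y : K} (hx0 : x ≠ 0) (hy0 : y ≠ 0)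
    (h : ¬ IsSquare x → ¬ IsSquare y → IsSquare (x * y)) :
    IsSquare (x * y) ↔ (IsSquare x ↔ IsSquare y) := by
  have e1 : IsSquare x → IsSquare (x * y) → IsSquare y := fun h1 h2 => by
    have := h2.div h1
    rwa [mul_div_cancel_left₀ _ hx0] at this
  have e2 : IsSquare y → IsSquare (x * y) → IsSquare x := fun h1 h2 => by
    have := h2.div h1
    rwa [mul_div_cancel_right₀ _ hy0] at this
  have e3 : IsSquare x → IsSquare y → IsSquare (x * y) := fun h1 h2 => h1.mul h2
  tauto

private lemma isSquare_mul_iff_su {v : HeightOneSpectrum (𝓞 k)} (h2 : v.valuation k 2 = 1)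
    {x y : kˣ} (hx : v.valuation k (x : k) = 1) (hy : v.valuation k (y : k) = 1) :
    IsSquare (algebraMap k (v.adicCompletion k) ((x * y : kˣ) : k)) ↔
      (IsSquare (algebraMap k (v.adicCompletion k) (x : k)) ↔
        IsSquare (algebraMap k (v.adicCompletion k) (y : k))) := by
  have hinj := (algebraMap k (v.adicCompletion k)).injective
  rw [Units.val_mul, map_mul]
  refine isSquare_mul_iff_aux ?_ ?_ fun h3 h4 => isSquare_mul_fin h2
    ((valuation_eq_one_iff v _).1 hx) ((valuation_eq_one_iff v _).1 hy) h3 h4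
  · rw [Ne, map_eq_zero_iff _ hinj]
    exact x.ne_zero
  · rw [Ne, map_eq_zero_iff _ hinj]
    exact y.ne_zero

/-- **Job HM-53.** Auxiliary places, one step (induction on `j`).

`A` is a finite set of auxiliary places, disjoint from `T`, of cardinality `j`, where `b` is a square
and such that the `T`-units take all values in `∏_{v ∈ A} {square, nonsquare}`.

Proof by induction. `A = ∅` for `j = 0`. Given `A` for `j`, with `j + 2 ≤ |SP k T|`: let
`ker ⊆ SU k T` be the subgroup of the `u` which are squares at all `v ∈ A`. The index of `ker` in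
`SU k T` is `≤ 2 ^ j` (the map `u ↦ (is u a square at v)_{v ∈ A}` to `(ℤˣ)^A` is a homomorphism with
kernel `ker`, by HM-25, as `T`-units are units at `v ∈ A`). The index of the squares in `SU k T` is
`2 ^ |SP k T| ≥ 4 * 2 ^ j` (`sqI_SU`; `(SP k T).card = card (InfinitePlace k) + T.card`). So the
subgroup of squares has index at least `4` in `ker`, hence `ker` is not contained in the union of
the two cosets of `1` and `b` modulo squares: there is `u ∈ ker` such that neither `u` nor `b u` is
a square (`isSquare_of_SU`). By HM-52 there is a place `v ∉ T ∪ A` where `b` is a square and `u` is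
not. Put `A' := A ∪ {v}`. Given `J ⊆ A'` take `u'` for `J ∩ A`; if `u'` has not the right behaviour
at `v` replace it by `u' u` (`u` is a square on `A`, and at `v`: nonsquare times square is a
nonsquare, nonsquare times nonsquare is a square by HM-25). -/
theorem exists_aux (T : Finset (HeightOneSpectrum (𝓞 k))) (h2 : ∀ w ∉ T, w.valuation k 2 = 1)
    {b : kˣ} (hb : b ∈ SU k T) (j : ℕ) (hj : j + 1 ≤ (SP k T).card) :
    ∃ A : Finset (HeightOneSpectrum (𝓞 k)), Disjoint A T ∧ A.card = j ∧
      (∀ v ∈ A, IsSquare (algebraMap k (v.adicCompletion k) (b : k))) ∧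
      ∀ J ⊆ A, ∃ u ∈ SU k T, ∀ v ∈ A,
        (IsSquare (algebraMap k (v.adicCompletion k) (u : k)) ↔ v ∉ J) := by
  classical
  induction j with
  | zero =>
    refine ⟨∅, by simp, by simp, by simp, fun J _ => ⟨1, one_mem _, by simp⟩⟩
  | succ j ih =>
    obtain ⟨A, hAT, hAc, hAb, hA⟩ := ih (by omega)
    have hvT : ∀ v ∈ A, v ∉ T := fun v hv => Finset.disjoint_left.1 hAT hv
    -- the character
    let χ : SU k T →* (A → ℤˣ) :=
      { toFun := fun u v => if IsSquare (algebraMap k (v.1.adicCompletion k) ((u : kˣ) : k))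
          then 1 else -1
        map_one' := by
          funext v
          simp
        map_mul' := by
          intro x y
          funext v
          have h3 := isSquare_mul_iff_su (h2 v.1 (hvT _ v.2)) (x.2 v.1 (hvT _ v.2))
            (y.2 v.1 (hvT _ v.2))
          simp only [Pi.mul_apply, Subgroup.coe_mul, h3]
          by_cases h4 : IsSquare (algebraMap k (v.1.adicCompletion k) ((x : kˣ) : k)) <;>
            by_cases h5 : IsSquare (algebraMap k (v.1.adicCompletion k) ((y : kˣ) : k)) <;>
            simp [h4, h5] }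
    have hχ : ∀ u : SU k T, u ∈ χ.ker ↔ ∀ v ∈ A,
        IsSquare (algebraMap k (v.adicCompletion k) ((u : kˣ) : k)) := by
      intro u
      rw [MonoidHom.mem_ker]
      constructor
      · intro h v hv
        have h4 := congrFun h ⟨v, hv⟩
        by_contra h5
        simp only [χ, MonoidHom.coe_mk, OneHom.coe_mk, h5, if_false, Pi.one_apply] at h4
        exact absurd h4 (show ¬ ((-1 : ℤˣ) = 1) by decide)
      · intro h
        funext v
        simp [χ, h v.1 v.2]
    have hidx : χ.ker.index ≤ 2 ^ j := by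
      rw [Subgroup.index_ker]
      refine (Nat.card_le_card_of_injective (Subtype.val : χ.range → (A → ℤˣ))
        Subtype.val_injective).trans ?_
      rw [Nat.card_eq_fintype_card, Fintype.card_fun, Fintype.card_units_int,
        Fintype.card_coe, hAc]
    have hidx0 : χ.ker.index ≠ 0 := by
      rw [Subgroup.index_ker]
      exact Nat.card_pos.ne'
    set R : Subgroup (SU k T) := (powMonoidHom 2 : SU k T →* SU k T).range with hR
    have hRidx : R.index = 2 ^ (SP k T).card := by
      have h3 : (SP k T).card = Fintype.card (InfinitePlace k) + T.card := by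
        rw [SP, Finset.card_disjSum, Finset.card_univ]
      rw [h3]
      exact sqI_SU T
    have hRle : R ≤ χ.ker := by
      rintro _ ⟨u, rfl⟩
      rw [hχ]
      intro v _
      refine ⟨algebraMap k (v.adicCompletion k) ((u : kˣ) : k), ?_⟩
      rw [powMonoidHom_apply, Subgroup.coe_pow, Units.val_pow_eq_pow_val, map_pow, sq]
    have hmul := Subgroup.relIndex_mul_index hRle
    have hfour : 4 ≤ R.relIndex χ.ker := by
      by_contra h3
      push Not at h3
      have h4 : 2 ^ (j + 2) ≤ R.index := by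
        rw [hRidx]
        exact Nat.pow_le_pow_right (by norm_num) (by omega)
      have h5 : R.relIndex χ.ker * χ.ker.index < 4 * 2 ^ j :=
        calc R.relIndex χ.ker * χ.ker.index < 4 * χ.ker.index :=
              Nat.mul_lt_mul_of_pos_right h3 (Nat.pos_of_ne_zero hidx0)
          _ ≤ 4 * 2 ^ j := Nat.mul_le_mul_left _ hidx
      rw [hmul] at h5
      have h6 : 2 ^ (j + 2) = 4 * 2 ^ j := by ring
      omega
    -- the special unit
    let b' : SU k T := ⟨b, hb⟩
    have hb' : b' ∈ χ.ker := (hχ b').2 hAb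
    obtain ⟨u, huker, hu1, hu2⟩ : ∃ u : SU k T, u ∈ χ.ker ∧ ¬ IsSquare (((u : kˣ) : k)) ∧
        ¬ IsSquare ((b : k) * ((u : kˣ) : k)) := by
      by_contra hcon
      push Not at hcon
      have h3 : ∀ u : χ.ker, (u : χ.ker ⧸ R.subgroupOf χ.ker) = ((1 : χ.ker) : χ.ker ⧸ R.subgroupOf χ.ker) ∨
          (u : χ.ker ⧸ R.subgroupOf χ.ker) = ((⟨b', hb'⟩ : χ.ker) : χ.ker ⧸ R.subgroupOf χ.ker) := by
        intro u
        by_cases h4 : IsSquare ((((u : SU k T) : kˣ)) : k)
        · left
          rw [QuotientGroup.eq, Subgroup.mem_subgroupOf, mul_one]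
          obtain ⟨y, hy⟩ := isSquare_of_SU h4
          refine ⟨y⁻¹, ?_⟩
          rw [powMonoidHom_apply, inv_pow, sq, ← hy]
          rfl
        · right
          have h5 := hcon u.1 u.2 h4
          rw [QuotientGroup.eq, Subgroup.mem_subgroupOf]
          obtain ⟨y, hy⟩ : IsSquare (b' * u.1) := isSquare_of_SU (by
            rw [Subgroup.coe_mul, Units.val_mul]
            exact h5)
          refine ⟨(u.1)⁻¹ * y, ?_⟩
          rw [powMonoidHom_apply, mul_pow, sq y, ← hy]
          change _ = (u.1)⁻¹ * b'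
          rw [sq]
          calc (u.1)⁻¹ * (u.1)⁻¹ * (b' * u.1) = (u.1)⁻¹ * b' * ((u.1)⁻¹ * u.1) := by
                rw [mul_comm b' u.1, mul_assoc, mul_assoc]
                congr 1
                rw [← mul_assoc, inv_mul_cancel, one_mul, mul_one]
            _ = _ := by rw [inv_mul_cancel, mul_one]
      have h4 : Nat.card (χ.ker ⧸ R.subgroupOf χ.ker) ≤ 2 := by
        have h5 : Function.Surjective (fun c : Bool => if c then
            ((1 : χ.ker) : χ.ker ⧸ R.subgroupOf χ.ker) else
            ((⟨b', hb'⟩ : χ.ker) : χ.ker ⧸ R.subgroupOf χ.ker)) := by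
          intro q
          obtain ⟨u, rfl⟩ := QuotientGroup.mk_surjective q
          rcases h3 u with h | h
          · exact ⟨true, by simpa using h.symm⟩
          · exact ⟨false, by simpa using h.symm⟩
        have := Nat.card_le_card_of_surjective _ h5
        simpa using this
      have h5 : R.relIndex χ.ker = Nat.card (χ.ker ⧸ R.subgroupOf χ.ker) := rfl
      omega
    -- the new place
    obtain ⟨v, hv, hvb, hvu⟩ := exists_place_sq_not_sq (b.ne_zero) (u : kˣ).ne_zero hu1 hu2 (T ∪ A)
    rw [Finset.mem_union, not_or] at hv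
    have hu3 := (hχ u).1 huker
    refine ⟨insert v A, ?_, ?_, ?_, ?_⟩
    · rw [Finset.disjoint_insert_left]
      exact ⟨hv.1, hAT⟩
    · rw [Finset.card_insert_of_notMem hv.2, hAc]
    · intro w hw
      rcases Finset.mem_insert.1 hw with rfl | hw
      · exact hvb
      · exact hAb w hw
    · intro J hJ
      obtain ⟨u', hu'T, hu'⟩ := hA (J.erase v) (by
        intro w hw
        rw [Finset.mem_erase] at hw
        exact (Finset.mem_insert.1 (hJ hw.2)).resolve_left hw.1)
      have hu'2 : ∀ w ∈ A, (IsSquare (algebraMap k (w.adicCompletion k) (u' : k)) ↔ w ∉ J) := by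
        intro w hw
        rw [hu' w hw, Finset.mem_erase]
        have : w ≠ v := fun h => hv.2 (h ▸ hw)
        tauto
      by_cases h3 : IsSquare (algebraMap k (v.adicCompletion k) (u' : k)) ↔ v ∉ J
      · refine ⟨u', hu'T, fun w hw => ?_⟩
        rcases Finset.mem_insert.1 hw with rfl | hw
        · exact h3
        · exact hu'2 w hw
      · refine ⟨u' * u, mul_mem hu'T u.2, fun w hw => ?_⟩
        have hwT : w ∉ T := by
          rcases Finset.mem_insert.1 hw with rfl | hw
          · exact hv.1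
          · exact hvT w hw
        rw [isSquare_mul_iff_su (h2 w hwT) (hu'T w hwT) (u.2 w hwT)]
        rcases Finset.mem_insert.1 hw with rfl | hw
        · tauto
        · have h4 := hu3 w hw
          have h5 := hu'2 w hw
          tauto

end Pool.Agent.Lib.MP_12adaf_nt.HM
end

section

/-!
# The Hasse norm theorem for quadratic extensions
-/

namespace Pool.Agent.Lib.MP_12adaf_nt.HM

open NumberField IsDedekindDomain IsDedekindDomain.HeightOneSpectrum

variable {k : Type*} [Field k] [NumberField k]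

/-- **Job HM-56.** The Hasse norm theorem for quadratic extensions.

Proof. If `b` is a square, `NF.of_left_isSquare`. Let `b` be a nonsquare. Let `T` be a finite set
containing the `v` where `2`, `a` or `b` is not a unit, with `Cl1 k T`. Let `A` be as in HM-53 for
`j = |SP k T| - 1`. Let `U := SU k (T ∪ A)`, `V i := (PlC k i)ˣ` (`i ∈ SP k T`), `N i := NS (b_i)`,
`φ : U → ∏ V i`. By HM-54 the hypothesis `hsq` of HM-55 holds (an element of `U` which is a square
in `k` is a square in `U`: `isSquare_of_SU`). `sqI U = 2 ^ (|SP k T| + |A|) = 2 ^ (2 |SP k T| - 1)`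
(`sqI_SU`) and `∏ sqI (V i) = 4 ^ |SP k T|` (`prod_sqI`), so `hcard` holds. So
`∏_i [V i : N i] ≤ 2 [U : U']`, `U'` the group of the `u ∈ U` with `NF b_i u_i` for all
`i ∈ SP k T`. For `i` with `b_i` not a square `[V i : N i] ≥ 2` (`exists_not_nf`; the index is not
zero as `N i` contains the squares and their index is finite). So `2 ^ nsq T b ≤ 2 [U : U']`. As
`b` is a square at the places of `A`, `nsq (T ∪ A) b = nsq T b`, and `first_ineq` gives
`2 [U : U ∩ NS b] ≤ 2 ^ nsq T b`. As `U ∩ NS b ⊆ U'` and the indices are finite, equality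
holds: `U' = U ∩ NS b`. Finally `a ∈ U'`. -/
theorem norm_theorem {a b : k} (ha : a ≠ 0) (hb : b ≠ 0)
    (h : ∀ i : Pl k, NF (plEmb k i b) (plEmb k i a)) : NF b a := by
  classical
  by_cases hbs : IsSquare b
  · exact NF.of_left_isSquare two_ne_zero hb hbs a
  obtain ⟨T, hT₀, hcl⟩ := exists_Cl1 (k := k)
    ((finite_valuation_ne_one (two_ne_zero : (2 : k) ≠ 0)).toFinset ∪
      (finite_valuation_ne_one ha).toFinset ∪ (finite_valuation_ne_one hb).toFinset)
  have h2 : ∀ w ∉ T, w.valuation k 2 = 1 := by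
    intro w hw
    by_contra hne
    exact hw (hT₀ (by simp [hne]))
  have haT : ∀ w ∉ T, w.valuation k a = 1 := by
    intro w hw
    by_contra hne
    exact hw (hT₀ (by simp [hne]))
  have hbT : ∀ w ∉ T, w.valuation k b = 1 := by
    intro w hw
    by_contra hne
    exact hw (hT₀ (by simp [hne]))
  have hcard : (SP k T).card = Fintype.card (InfinitePlace k) + T.card := by
    simp [SP, Finset.card_disjSum]
  have hn : 1 ≤ (SP k T).card := by
    rw [hcard]
    have : 0 < Fintype.card (InfinitePlace k) := Fintype.card_pos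
    omega
  obtain ⟨A, hAT, hAc, hAb, hA⟩ := exists_aux T h2 (b := Units.mk0 b hb)
    (mem_SU.mpr (by simpa using hbT)) ((SP k T).card - 1) (by omega)
  have hTsub : T ⊆ T ∪ A := Finset.subset_union_left
  -- the map to the completions
  let φ : SU k (T ∪ A) →* ∀ i : {i // i ∈ SP k T}, (PlC k i.1)ˣ :=
    MonoidHom.pi (fun i => (Units.map (plEmb k i.1 : k →* PlC k i.1)).comp (SU k (T ∪ A)).subtype)
  have hφ : ∀ (u : SU k (T ∪ A)) (i : {i // i ∈ SP k T}),
      ((φ u i : (PlC k i.1)ˣ) : PlC k i.1) = plEmb k i.1 ((u : kˣ) : k) := fun u i => rfl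
  let N : ∀ i : {i // i ∈ SP k T}, Subgroup (PlC k i.1)ˣ := fun i => NS (plEmb k i.1 b)
  have hN : ∀ (i : {i // i ∈ SP k T}) (x : (PlC k i.1)ˣ), x ^ 2 ∈ N i := by
    intro i x
    refine mem_NS.mpr (NF.of_isSquare _ ⟨(x : PlC k i.1), ?_⟩)
    rw [Units.val_pow_eq_pow_val, sq]
  have hsq : ∀ u : SU k (T ∪ A), (∀ i, IsSquare (φ u i)) → IsSquare u := by
    intro u hu
    apply isSquare_of_SU
    apply isSquare_of_aux hAT h2 hcl hA u.2
    intro i hi
    obtain ⟨y, hy⟩ := hu ⟨i, hi⟩
    refine ⟨(y : PlC k i), ?_⟩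
    rw [← hφ u ⟨i, hi⟩, hy, Units.val_mul]
  have hU : sqI (SU k (T ∪ A)) = 2 ^ ((SP k T).card + ((SP k T).card - 1)) := by
    rw [sqI_SU, Finset.card_union_of_disjoint hAT.symm, hAc, hcard, add_assoc]
  have hV : ∏ i : {i // i ∈ SP k T}, sqI (PlC k i.1)ˣ = 4 ^ (SP k T).card := by
    rw [← prod_sqI T h2]
    exact Finset.prod_coe_sort (SP k T) (fun i => sqI (PlC k i)ˣ)
  have hfin : sqI (SU k (T ∪ A)) ≠ 0 := by rw [hU]; positivity
  have hVU : ∏ i : {i // i ∈ SP k T}, sqI (PlC k i.1)ˣ = 2 * sqI (SU k (T ∪ A)) := by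
    rw [hV, hU, ← pow_succ']
    have e : (SP k T).card + ((SP k T).card - 1) + 1 = 2 * (SP k T).card := by omega
    rw [e, pow_mul]
    norm_num
  have key := index_preimage φ N hN hsq hfin hVU
  set U' : Subgroup (SU k (T ∪ A)) := ⨅ i, (N i).comap ((Pi.evalMonoidHom _ i).comp φ) with hU'
  have hmemU' : ∀ u : SU k (T ∪ A), u ∈ U' ↔
      ∀ i : {i // i ∈ SP k T}, NF (plEmb k i.1 b) (plEmb k i.1 ((u : kˣ) : k)) := by
    intro u
    rw [hU', Subgroup.mem_iInf]
    rfl
  -- lower bound for the product of the indices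
  have hlow : 2 ^ nsq T b ≤ ∏ i : {i // i ∈ SP k T}, (N i).index := by
    have e1 : ∏ i : {i // i ∈ SP k T}, (N i).index =
        ∏ i ∈ SP k T, (NS (plEmb k i b)).index :=
      Finset.prod_coe_sort (SP k T) (fun i => (NS (plEmb k i b)).index)
    have e2 : 2 ^ nsq T b = ∏ i ∈ SP k T, (if ¬ IsSquare (plEmb k i b) then 2 else 1) := by
      rw [nsq, Finset.prod_ite, Finset.prod_const, Finset.prod_const_one, mul_one]
    rw [e1, e2]
    apply Finset.prod_le_prod'
    intro i hi
    have hne : (NS (plEmb k i b)).index ≠ 0 := by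
      have hle : (powMonoidHom 2 : (PlC k i)ˣ →* (PlC k i)ˣ).range ≤ NS (plEmb k i b) := by
        rintro _ ⟨x, rfl⟩
        exact hN ⟨i, hi⟩ x
      have hd := Subgroup.index_dvd_of_le hle
      intro h0
      rw [h0, zero_dvd_iff] at hd
      have : ∏ i ∈ SP k T, sqI (PlC k i)ˣ = 0 := Finset.prod_eq_zero hi hd
      rw [prod_sqI T h2] at this
      exact absurd this (by positivity)
    split_ifs with hs
    · exact Nat.one_le_iff_ne_zero.mpr hne
    · have h1 : (NS (plEmb k i b)).index ≠ 1 := by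
        intro h1
        rw [Subgroup.index_eq_one] at h1
        obtain ⟨c, hc0, hc⟩ := exists_not_nf i hs
        have : Units.mk0 c hc0 ∈ NS (plEmb k i b) := by rw [h1]; exact Subgroup.mem_top _
        exact hc (mem_NS.mp this)
      have hne' : (NS (plEmb k i b)).index ≠ 0 := hne
      generalize (NS (plEmb k i b)).index = m at *
      omega
  -- the first inequality
  have hnsq : nsq (T ∪ A) b = nsq T b := by
    unfold nsq
    congr 1
    ext i
    rw [Finset.mem_filter, Finset.mem_filter]
    constructor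
    · rintro ⟨hi, hs⟩
      refine ⟨?_, hs⟩
      rcases i with v | w
      · exact mem_SP_inl T v
      · rw [mem_SP_inr] at hi ⊢
        rcases Finset.mem_union.mp hi with h | h
        · exact h
        · exact absurd (hAb w h) hs
    · rintro ⟨hi, hs⟩
      refine ⟨?_, hs⟩
      rcases i with v | w
      · exact mem_SP_inl _ v
      · rw [mem_SP_inr] at hi ⊢
        exact hTsub hi
  obtain ⟨hf0, hf⟩ := first_ineq hbs (T ∪ A) (fun w hw => h2 w fun h => hw (hTsub h))
    (fun w hw => hbT w fun h => hw (hTsub h)) (hcl.mono hTsub)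
  rw [hnsq] at hf
  have hle : (NS b).subgroupOf (SU k (T ∪ A)) ≤ U' := by
    intro u hu
    rw [hmemU']
    intro i
    exact (mem_NS.mp (Subgroup.mem_subgroupOf.mp hu)).map (plEmb k i.1)
  have hrel := Subgroup.relIndex_mul_index hle
  have hUidx : ((NS b).subgroupOf (SU k (T ∪ A))).index ≤ U'.index := by omega
  have hU0 : U'.index ≠ 0 := by
    intro h0
    rw [h0, mul_zero] at hrel
    exact hf0 hrel.symm
  have hrel1 : ((NS b).subgroupOf (SU k (T ∪ A))).relIndex U' = 1 := by
    have h1 : ((NS b).subgroupOf (SU k (T ∪ A))).relIndex U' ≤ 1 := by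
      rw [← hrel] at hUidx
      by_contra hc
      push Not at hc
      have : 2 * U'.index ≤ ((NS b).subgroupOf (SU k (T ∪ A))).relIndex U' * U'.index :=
        Nat.mul_le_mul_right _ hc
      omega
    have h3 : ((NS b).subgroupOf (SU k (T ∪ A))).relIndex U' ≠ 0 := by
      intro h0
      rw [h0, zero_mul] at hrel
      exact hf0 hrel.symm
    omega
  have hfinal := Subgroup.relIndex_eq_one.mp hrel1
  have haU : Units.mk0 a ha ∈ SU k (T ∪ A) := by
    rw [mem_SU]
    intro w hw
    rw [Units.val_mk0]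
    exact haT w fun h => hw (hTsub h)
  have ha' : (⟨Units.mk0 a ha, haU⟩ : SU k (T ∪ A)) ∈ U' := by
    rw [hmemU']
    intro i
    exact h i.1
  exact mem_NS.mp (Subgroup.mem_subgroupOf.mp (hfinal ha'))

end Pool.Agent.Lib.MP_12adaf_nt.HM
end

section

/-!
# Hasse-Minkowski in rank two, three and four
-/

namespace Pool.Agent.Lib.MP_12adaf_nt.HM

open NumberField IsDedekindDomain IsDedekindDomain.HeightOneSpectrum TF Matrix

variable {k : Type*} [Field k] [NumberField k]

private lemma Isot.map {ι K L : Type*} [Fintype ι] [Field K] [Field L] (φ : K →+* L) {a : ι → K}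
    (h : Isot a) : Isot fun j => φ (a j) := by
  obtain ⟨x, hx, hq⟩ := h
  refine ⟨fun j => φ (x j), ?_, ?_⟩
  · intro h0
    apply hx
    funext j
    exact (map_eq_zero φ).mp (congrFun h0 j)
  · have h1 := congrArg φ hq
    rw [map_zero, map_sum] at h1
    rw [← h1]
    exact Finset.sum_congr rfl fun j _ => by rw [map_mul, map_pow]

private lemma q05_sub {K : Type*} [Field K] {a : Fin 4 → K}
    (h : Isot (![a 0, a 1, a 2] : Fin 3 → K)) : Isot a := by
  apply Isot.of_comp (![0, 1, 2] : Fin 3 → Fin 4) (by decide)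
  have e : (fun i => a ((![0, 1, 2] : Fin 3 → Fin 4) i)) = ![a 0, a 1, a 2] := by
    funext i
    fin_cases i <;> rfl
  rw [e]
  exact h

private lemma q05_ne {K : Type*} [Field K] {a : Fin 4 → K} (ha : ∀ i, a i ≠ 0) (i : Fin 3) :
    (![a 0, a 1, a 2] : Fin 3 → K) i ≠ 0 := by
  fin_cases i
  · exact ha 0
  · exact ha 1
  · exact ha 2

private lemma q05_map {K L : Type*} [Field K] [Field L] (φ : K →+* L) (a : Fin 4 → K) :
    (fun j => φ ((![a 0, a 1, a 2] : Fin 3 → K) j)) =
      (![φ (a 0), φ (a 1), φ (a 2)] : Fin 3 → L) := by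
  funext i
  fin_cases i <;> rfl

/-- **Job Q05.** Rank two: `isot_two` and `global_square`. -/
theorem hm_two {a : Fin 2 → k} (ha : ∀ i, a i ≠ 0)
    (h : ∀ i : Pl k, Isot fun j => plEmb k i (a j)) : Isot a := by
  rw [isot_two ha]
  refine global_square ∅ ?_
  intro w _
  have h1 := h (Sum.inr w)
  have h2 : ∀ j, plEmb k (Sum.inr w) (a j) ≠ 0 := fun j => (map_ne_zero _).mpr (ha j)
  rw [isot_two h2] at h1
  have h3 : plEmb k (Sum.inr w) (-(a 0 * a 1)) =
      -(plEmb k (Sum.inr w) (a 0) * plEmb k (Sum.inr w) (a 1)) := by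
    rw [map_neg, map_mul]
  rw [← h3] at h1
  exact h1

/-- Rank three: `isot_three` and `norm_theorem`. (Same job.) -/
theorem hm_three {a : Fin 3 → k} (ha : ∀ i, a i ≠ 0)
    (h : ∀ i : Pl k, Isot fun j => plEmb k i (a j)) : Isot a := by
  rw [isot_three two_ne_zero ha]
  apply norm_theorem (neg_ne_zero.mpr (mul_ne_zero (ha 0) (ha 2)))
    (neg_ne_zero.mpr (mul_ne_zero (ha 0) (ha 1)))
  intro i
  have h1 := h i
  have h2 : ∀ j, plEmb k i (a j) ≠ 0 := fun j => (map_ne_zero _).mpr (ha j)
  rw [isot_three two_ne_zero h2] at h1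
  rw [map_neg, map_mul, map_neg, map_mul]
  exact h1

/-- Rank four. (Same job.)

Proof. Let `D = a₀ a₁ a₂ a₃`. If `D` is a square: by `isot_four_sq` the ternary subform
`<a₀, a₁, a₂>` is isotropic at every place, so over `k` by `hm_three` (and `Isot.of_comp`).
Otherwise let `L = k(√D)` (`exists_qext`). At every place of `L` the form is isotropic
(`exists_map_place`, map an isotropic vector), and `D` is a square, so `<a₀, a₁, a₂>` is isotropic
at every place of `L` (`isot_four_sq`), so over `L` (`hm_three` for the number field `L`), so `a` is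
isotropic over `L` (`Isot.of_comp`) and over `k` by `isot_four_ext`. -/
theorem hm_four {a : Fin 4 → k} (ha : ∀ i, a i ≠ 0)
    (h : ∀ i : Pl k, Isot fun j => plEmb k i (a j)) : Isot a := by
  by_cases hD : IsSquare (a 0 * a 1 * a 2 * a 3)
  · refine q05_sub (hm_three (fun i => q05_ne ha i) fun i => ?_)
    have h2 : ∀ j, plEmb k i (a j) ≠ 0 := fun j => (map_ne_zero _).mpr (ha j)
    have h3 : IsSquare (plEmb k i (a 0) * plEmb k i (a 1) * plEmb k i (a 2) * plEmb k i (a 3)) := by
      rw [← map_mul, ← map_mul, ← map_mul]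
      exact hD.map _
    have h4 := isot_four_sq two_ne_zero h2 h3 (h i)
    rwa [← q05_map (plEmb k i) a] at h4
  · obtain ⟨L, _, _, _, ⟨Q⟩⟩ := exists_qext hD
    have ha' : ∀ i, algebraMap k L (a i) ≠ 0 := fun i => (map_ne_zero _).mpr (ha i)
    apply isot_four_ext ha hD Q
    refine q05_sub (hm_three (fun i => q05_ne ha' i) fun i => ?_)
    obtain ⟨ρ, hρ⟩ := exists_map_place (k := k) i
    have h1 : Isot fun j => plEmb L i (algebraMap k L (a j)) := by
      have h5 := (h (plUnder k i)).map ρ
      simp only [hρ] at h5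
      exact h5
    have h2 : ∀ j, plEmb L i (algebraMap k L (a j)) ≠ 0 := fun j => (map_ne_zero _).mpr (ha' j)
    have h3 : IsSquare (plEmb L i (algebraMap k L (a 0)) * plEmb L i (algebraMap k L (a 1)) *
        plEmb L i (algebraMap k L (a 2)) * plEmb L i (algebraMap k L (a 3))) := by
      rw [← map_mul, ← map_mul, ← map_mul, ← map_mul, ← map_mul, ← map_mul, ← Q.θ_sq, sq, map_mul]
      exact ⟨_, rfl⟩
    have h4 := isot_four_sq two_ne_zero h2 h3 h1
    rwa [← q05_map (plEmb L i) (fun j => algebraMap k L (a j))] at h4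

end Pool.Agent.Lib.MP_12adaf_nt.HM
end

section

/-!
# The theorem of Hasse and Minkowski
-/

namespace Pool.Agent.Lib.MP_12adaf_nt.HM

open NumberField IsDedekindDomain IsDedekindDomain.HeightOneSpectrum TF Matrix

variable {k : Type*} [Field k] [NumberField k]

/-- **Hasse-Minkowski**: a diagonal form of rank at least two over a number field which is
isotropic at all places is isotropic. -/
theorem hasse_minkowski : ∀ {n : ℕ} (_ : 2 ≤ n) {a : Fin n → k} (_ : ∀ i, a i ≠ 0)
    (_ : ∀ i : Pl k, Isot fun j => plEmb k i (a j)), Isot a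
  | 0, h, _, _, _ => absurd h (by norm_num)
  | 1, h, _, _, _ => absurd h (by norm_num)
  | 2, _, _, ha, hl => hm_two ha hl
  | 3, _, _, ha, hl => hm_three ha hl
  | 4, _, _, ha, hl => hm_four ha hl
  | n + 5, _, _, ha, hl => hm_step (n := n + 3) (by omega)
      (fun _ hb hbl => hasse_minkowski (n := n + 4) (by omega) hb hbl) ha hl

end Pool.Agent.Lib.MP_12adaf_nt.HM
end

section

/-!
# The weak Hasse principle for isometry
-/

namespace Pool.Agent.Lib.MP_12adaf_nt.HM

open NumberField IsDedekindDomain IsDedekindDomain.HeightOneSpectrum TF Matrix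

variable {k : Type*} [Field k] [NumberField k]

/-- `Fin (n+1)` as a sum. -/
private def q10e (n : ℕ) : Fin (n + 1) ≃ Fin 1 ⊕ Fin n where
  toFun := Fin.cases (Sum.inl 0) Sum.inr
  invFun := Sum.elim (fun _ => 0) Fin.succ
  left_inv := by
    intro i
    refine Fin.cases ?_ (fun j => ?_) i <;> rfl
  right_inv := by
    rintro (i | i)
    · have : i = 0 := Subsingleton.elim _ _
      subst this
      rfl
    · rfl

private lemma q10L {K : Type*} [Field K] {n : ℕ} (c : K) (u : Fin n → K) :
    CD (Sum.elim (fun _ : Fin 1 => c) u) (Fin.cons c u : Fin (n + 1) → K) := by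
  have h := CD.reindex (Sum.elim (fun _ : Fin 1 => c) u) (q10e n)
  refine h.trans ?_
  have : (fun i => Sum.elim (fun _ : Fin 1 => c) u (q10e n i)) = (Fin.cons c u : Fin (n + 1) → K) := by
    funext i
    refine Fin.cases ?_ (fun j => ?_) i <;> rfl
  rw [this]
  exact CD.refl _

/-- **Job Q10.** Splitting a value off a diagonal form (`exists_split`). -/
theorem exists_cd_of_reps {K : Type*} [Field K] [CharZero K] {n : ℕ} {a : Fin (n + 1) → K}
    (ha : ∀ i, a i ≠ 0) {c : K} (hc : c ≠ 0) (h : Reps a c) :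
    ∃ u : Fin n → K, (∀ i, u i ≠ 0) ∧ CD a (Fin.cons c u : Fin (n + 1) → K) := by
  obtain ⟨x, hx⟩ := h
  have hdet : (diagonal a).det ≠ 0 := by
    rw [det_diagonal]
    exact Finset.prod_ne_zero_iff.2 fun i _ => ha i
  have hv : x ⬝ᵥ (diagonal a *ᵥ x) = c := by
    rw [← hx]
    simp only [dotProduct, mulVec_diagonal]
    refine Finset.sum_congr rfl fun i _ => ?_
    ring
  obtain ⟨u, hu0, hu⟩ := exists_split (diagonal_transpose a) hdet hc hv
  refine ⟨u, hu0, ?_⟩
  have h1 : CD a (Sum.elim (fun _ : Fin 1 => c) u) := by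
    have h2 : osum (sq1 c) (diagonal u) = diagonal (Sum.elim (fun _ : Fin 1 => c) u) :=
      osum_diagonal _ _
    rw [h2] at hu
    exact hu
  exact h1.trans (q10L c u)

/-- Cancellation for `Fin.cons`. (Same job; `witt_sq1` or `CD.cancel`.) -/
theorem CD.of_cons {K : Type*} [Field K] [CharZero K] {n : ℕ} {c : K} (hc : c ≠ 0)
    {a b : Fin n → K} (h : CD (Fin.cons c a : Fin (n + 1) → K) (Fin.cons c b : Fin (n + 1) → K)) :
    CD a b := by
  have h1 : CD (Sum.elim (fun _ : Fin 1 => c) a) (Sum.elim (fun _ : Fin 1 => c) b) :=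
    ((q10L c a).trans h).trans (q10L c b).symm
  exact CD.cancel (fun _ => hc) h1

/-- **Job Q10, main part.** Diagonal forms which are isometric at all places are isometric.

Proof. Induction on `n`; `n = 0` is trivial. For `n + 1`: let `c := a 0`. At every place `i` the form
`b` represents `c` (`CD.reps`, `a` represents `a 0`), so `Fin.cons (-c) b`, of rank `n + 2 ≥ 2`, is
isotropic at every place (`isot_of_reps`), so over `k` by `hasse_minkowski`, so `b` represents `c`
(`reps_of_isot`), `b ≅ Fin.cons c b'` (`exists_cd_of_reps`). At every place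
`Fin.cons c a' ≅ Fin.cons c b'` with `a' = Fin.tail a`, so `a' ≅ b'` at every place (`CD.of_cons`;
`φ (Fin.cons c a' j) = Fin.cons (φ c) (φ ∘ a') j`), so over `k` by induction. -/
theorem cd_of_local : ∀ {n : ℕ} {a b : Fin n → k} (_ : ∀ i, a i ≠ 0) (_ : ∀ i, b i ≠ 0)
    (_ : ∀ i : Pl k, CD (fun j => plEmb k i (a j)) (fun j => plEmb k i (b j))), CD a b := by
  intro n
  induction n with
  | zero =>
    intro a b _ _ _
    have : a = b := Subsingleton.elim _ _
    rw [this]
    exact CD.refl _
  | succ n ih =>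
    intro a b ha hb h
    have hc : a 0 ≠ 0 := ha 0
    -- `b` represents `a 0` at every place
    have hrep : ∀ i : Pl k, Reps (fun j => plEmb k i (b j)) (plEmb k i (a 0)) := by
      intro i
      refine (h i).reps ⟨Pi.single 0 1, ?_⟩
      rw [Finset.sum_eq_single 0]
      · simp
      · intro j _ hj
        rw [Pi.single_eq_of_ne hj]
        ring
      · intro h0
        exact absurd (Finset.mem_univ _) h0
    have hiso : ∀ i : Pl k, Isot fun j => plEmb k i ((Fin.cons (-(a 0)) b : Fin (n + 2) → k) j) := by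
      intro i
      have h1 := isot_of_reps (hrep i)
      have h2 : (fun j => plEmb k i ((Fin.cons (-(a 0)) b : Fin (n + 2) → k) j)) =
          (Fin.cons (-(plEmb k i (a 0))) (fun j => plEmb k i (b j)) : Fin (n + 2) → PlC k i) := by
        funext j
        refine Fin.cases ?_ (fun j => ?_) j
        · simp
        · simp
      rw [h2]
      exact h1
    have hne : ∀ j, (Fin.cons (-(a 0)) b : Fin (n + 2) → k) j ≠ 0 := by
      intro j
      refine Fin.cases ?_ (fun j => ?_) j
      · simpa using hc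
      · simpa using hb j
    have hI := hasse_minkowski (by omega) hne hiso
    have hR := reps_of_isot two_ne_zero hb hc hI
    obtain ⟨u, hu0, hu⟩ := exists_cd_of_reps hb hc hR
    have haeq : (Fin.cons (a 0) (Fin.tail a) : Fin (n + 1) → k) = a := Fin.cons_self_tail a
    have hloc : ∀ i : Pl k, CD (fun j => plEmb k i (Fin.tail a j)) (fun j => plEmb k i (u j)) := by
      intro i
      have h1 := (h i).trans (hu.map (plEmb k i))
      have e1 : (fun j => plEmb k i (a j)) =
          (Fin.cons (plEmb k i (a 0)) (fun j => plEmb k i (Fin.tail a j)) : Fin (n + 1) → PlC k i) := by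
        funext j
        refine Fin.cases ?_ (fun j => ?_) j
        · simp
        · simp [Fin.tail]
      have e2 : (fun j => plEmb k i ((Fin.cons (a 0) u : Fin (n + 1) → k) j)) =
          (Fin.cons (plEmb k i (a 0)) (fun j => plEmb k i (u j)) : Fin (n + 1) → PlC k i) := by
        funext j
        refine Fin.cases ?_ (fun j => ?_) j
        · simp
        · simp
      rw [e1, e2] at h1
      exact CD.of_cons ((map_ne_zero _).2 hc) h1
    have h3 := ih (a := Fin.tail a) (b := u) (fun j => ha _) hu0 hloc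
    have h4 : CD (Sum.elim (fun _ : Fin 1 => a 0) (Fin.tail a)) (Sum.elim (fun _ : Fin 1 => a 0) u) :=
      (CD.refl _).add h3
    have h5 := ((q10L (a 0) (Fin.tail a)).symm.trans h4).trans (q10L (a 0) u)
    rw [haeq] at h5
    exact h5.trans hu.symm

/-- The same for arbitrary finite index types. (Same job: reindex; the cardinalities are equal, as
the local isometries show.) -/
theorem cd_of_local' {ι κ : Type*} [Fintype ι] [DecidableEq ι] [Fintype κ] [DecidableEq κ]
    {a : ι → k} {b : κ → k} (ha : ∀ i, a i ≠ 0) (hb : ∀ i, b i ≠ 0)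
    (h : ∀ i : Pl k, CD (fun j => plEmb k i (a j)) (fun j => plEmb k i (b j))) : CD a b := by
  classical
  obtain ⟨v⟩ := (inferInstance : Nonempty (InfinitePlace k))
  have hcard : Fintype.card ι = Fintype.card κ := by
    obtain ⟨M, M', h1, h2, -⟩ := h (Sum.inl v)
    exact Matrix.square_of_invertible M M' h1 h2
  obtain ⟨e⟩ : Nonempty (Fin (Fintype.card ι) ≃ ι) := ⟨(Fintype.equivFin ι).symm⟩
  obtain ⟨e'⟩ : Nonempty (Fin (Fintype.card ι) ≃ κ) :=
    ⟨(finCongr hcard).trans (Fintype.equivFin κ).symm⟩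
  have h1 := CD.reindex a e
  have h2 := CD.reindex b e'
  refine (h1.trans ?_).trans h2.symm
  refine cd_of_local (fun i => ha _) (fun i => hb _) fun i => ?_
  exact ((CD.reindex (fun j => plEmb k i (a j)) e).symm.trans (h i)).trans
    (CD.reindex (fun j => plEmb k i (b j)) e')

end Pool.Agent.Lib.MP_12adaf_nt.HM
end
end
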