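import Mathlib
import Pool.Agent.Lib.MP_12adaf_nt.HM.Q10
import Pool.Agent.Lib.MP_12adaf_nt.TF.Witt
import Pool.Agent.Lib.MP_12adaf_nt.TF.OWeak
import Pool.Agent.Lib.MP_12adaf_nt.HM.Q08
import Pool.Agent.Lib.MP_12adaf_nt.HM.Q02
import Pool.Agent.Lib.MP_12adaf_nt.HM.Q04

section

/-!
# Trace forms of products
-/

namespace Pool.Agent.Lib.MP_12adaf_nt.TF

set_option linter.unusedSectionVars false
set_option linter.unusedVariables false

open Finset Polynomial Filter Topology Matrix

variable {K : Type*} [Field K] [CharZero K]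

private lemma ptf_inj {L : Type*} [Field L] {n : ℕ} {θ : Fin n → L}
    (h : (nod θ).Separable) : Function.Injective θ := by
  rw [← Matrix.det_vandermonde_ne_zero_iff]
  intro h4
  have h5 := discr_ne_zero_of_separable (nod_monic θ) h
  rw [discr_nod, h4, zero_pow two_ne_zero] at h5
  exact h5 rfl

private lemma ptf_nod {L : Type*} [Field L] {m n : ℕ} (a : Fin m → L) (b : Fin n → L) :
    nod (fun i : Fin (m + n) => Sum.elim a b (finSumFinEquiv.symm i)) = nod a * nod b := by
  rw [nod, nod, nod, ← Equiv.prod_comp finSumFinEquiv, Fintype.prod_sum_type]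
  simp

private lemma ptf_sum {L : Type*} [Field L] {m n : ℕ} (a : Fin m → L) (b : Fin n → L)
    (g : L → L) : ∑ i : Fin (m + n), g (Sum.elim a b (finSumFinEquiv.symm i)) =
      ∑ i, g (a i) + ∑ j, g (b j) := by
  rw [← Equiv.sum_comp finSumFinEquiv, Fintype.sum_sum_type]
  simp

private lemma ptf_one {n : ℕ} {f : K[X]} (hf : f.Monic) (hn : f.natDegree = n) :
    tr n f 1 = n := by
  have h : Mmat n f (1 : K[X]) = 1 := by
    ext i j
    rw [Mmat, Matrix.of_apply, mul_one, (modByMonic_eq_self_iff hf).2, coeff_X_pow,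
      Matrix.one_apply]
    · by_cases hij : i = j
      · rw [if_pos hij, if_pos (by rw [hij])]
      · rw [if_neg hij, if_neg fun h => hij (Fin.ext h)]
    · rw [degree_X_pow, degree_eq_natDegree hf.ne_zero, hn]
      exact_mod_cast j.2
  rw [tr, h, Matrix.trace_one, Fintype.card_fin]

theorem cong_mul {m n : ℕ} {p q : K[X]} (hp : p.Monic) (hq : q.Monic) (hpm : p.natDegree = m)
    (hqn : q.natDegree = n) (hsep : (p * q).Separable) :
    Cong (HH (m + n) (p * q)) (osum (HH m p) (HH n q)) := by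
  have hsp : p.Separable := hsep.of_mul_left
  have hsq : q.Separable := hsep.of_mul_right
  have hpq : (p * q).Monic := hp.mul hq
  have hdeg : (p * q).natDegree = m + n := by rw [hp.natDegree_mul hq, hpm, hqn]
  obtain ⟨u, v, huv⟩ := hsep.isCoprime
  let w : Fin m ⊕ Fin n → K[X] :=
    Sum.elim (fun i => X ^ (i : ℕ) * (v * q)) fun j => X ^ (j : ℕ) * (u * p)
  have h1 := cm_form hpq hdeg hsep w
  have h2 : (Matrix.of fun i j => tr (m + n) (p * q) (w i * w j)) = osum (HH m p) (HH n q) := by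
    let L := AlgebraicClosure K
    let φ : K →+* L := algebraMap K L
    obtain ⟨a, ha, hpa⟩ := exists_nod φ hp hpm hsp
    obtain ⟨b, hb, hqb⟩ := exists_nod φ hq hqn hsq
    have hinj : Function.Injective φ := φ.injective
    have h3 : (p * q).map φ =
        nod (fun i : Fin (m + n) => Sum.elim a b (finSumFinEquiv.symm i)) := by
      rw [ptf_nod, Polynomial.map_mul, hpa, hqb]
    have h4 : Function.Injective
        (fun i : Fin (m + n) => Sum.elim a b (finSumFinEquiv.symm i)) := by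
      apply ptf_inj
      rw [← h3]
      exact hsep.map
    have hpz : ∀ i, (p.map φ).eval (a i) = 0 := fun i => by rw [hpa]; exact eval_nod_self a i
    have hqz : ∀ i, (q.map φ).eval (b i) = 0 := fun i => by rw [hqb]; exact eval_nod_self b i
    have h5 : ∀ z, (u.map φ).eval z * (p.map φ).eval z + (v.map φ).eval z * (q.map φ).eval z =
        1 := by
      intro z
      rw [← eval_mul, ← eval_mul, ← eval_add, ← Polynomial.map_mul, ← Polynomial.map_mul,
        ← Polynomial.map_add, huv, Polynomial.map_one, eval_one]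
    have ha1 : ∀ i, (v.map φ).eval (a i) * (q.map φ).eval (a i) = 1 := fun i => by
      have := h5 (a i)
      rw [hpz i, mul_zero, zero_add] at this
      exact this
    have hb1 : ∀ i, (u.map φ).eval (b i) * (p.map φ).eval (b i) = 1 := fun i => by
      have := h5 (b i)
      rw [hqz i, mul_zero, add_zero] at this
      exact this
    ext i j
    apply hinj
    rw [Matrix.of_apply, map_tr φ hpq, h3, tr_nod h4, ptf_sum a b fun z =>
      ((w i * w j).map φ).eval z]
    rcases i with i | i <;> rcases j with j | j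
    · rw [osum, fromBlocks_apply₁₁, HH, Matrix.of_apply, map_tr φ hp, hpa, tr_nod ha]
      simp only [w, Sum.elim_inl, Polynomial.map_mul, Polynomial.map_pow, Polynomial.map_X,
        eval_mul, eval_pow, eval_X, ha1, hqz, mul_one, mul_zero,
        Finset.sum_const_zero, add_zero, pow_add]
    · rw [osum, fromBlocks_apply₁₂, Matrix.zero_apply, map_zero]
      simp only [w, Sum.elim_inl, Sum.elim_inr, Polynomial.map_mul, Polynomial.map_pow,
        Polynomial.map_X, eval_mul, eval_pow, eval_X, hpz, hqz, mul_zero, zero_mul,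
        Finset.sum_const_zero, add_zero]
    · rw [osum, fromBlocks_apply₂₁, Matrix.zero_apply, map_zero]
      simp only [w, Sum.elim_inl, Sum.elim_inr, Polynomial.map_mul, Polynomial.map_pow,
        Polynomial.map_X, eval_mul, eval_pow, eval_X, hpz, hqz, mul_zero, zero_mul,
        Finset.sum_const_zero, add_zero]
    · rw [osum, fromBlocks_apply₂₂, HH, Matrix.of_apply, map_tr φ hq, hqb, tr_nod hb]
      simp only [w, Sum.elim_inr, Polynomial.map_mul, Polynomial.map_pow, Polynomial.map_X,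
        eval_mul, eval_pow, eval_X, hb1, hpz, mul_one, mul_zero,
        Finset.sum_const_zero, zero_add, pow_add]
  rw [h2] at h1
  have hdet : (osum (HH m p) (HH n q)).det ≠ 0 := by
    rw [det_osum]
    exact mul_ne_zero (det_HH_ne_zero hp hpm hsp) (det_HH_ne_zero hq hqn hsq)
  have h6 : ((osum (HH m p) (HH n q))⁻¹ * (cm (m + n) (p * q) w)ᵀ * HH (m + n) (p * q)) *
      cm (m + n) (p * q) w = 1 := by
    rw [Matrix.mul_assoc, Matrix.mul_assoc, ← Matrix.mul_assoc (cm (m + n) (p * q) w)ᵀ, h1,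
      Matrix.nonsing_inv_mul _ hdet.isUnit]
  exact ⟨_, _, (Matrix.mul_eq_one_comm_of_equiv finSumFinEquiv).1 h6, h6, h1⟩

theorem cong_two {q : K[X]} (hq : q.Monic) (hqn : q.natDegree = 2) (hsep : q.Separable) :
    Cong (HH 2 q) (osum (sq1 2) (sq1 (2 * q.discr))) := by
  have h00 : HH 2 q 0 0 = 2 := by
    rw [HH, Matrix.of_apply]
    simpa using ptf_one hq hqn
  have h := cong_of_partial (n := Fin 2) (m := Fin 1) (by simp) (HH_isSymm 2 q)
    (det_HH_ne_zero hq hqn hsep) (E := !![1; 0]) (D := sq1 2) (by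
      ext i j
      fin_cases i; fin_cases j
      simp [Matrix.mul_apply, Fin.sum_univ_two, h00, sq1]) (by
      rw [det_sq1]; exact two_ne_zero)
  rwa [det_HH hq hqn hsep, det_sq1, mul_comm] at h

theorem HH_le_one {e : ℕ} (he : e ≤ 1) {r : K[X]} (hr : r.Monic) (hre : r.natDegree = e) :
    HH e r = 1 := by
  interval_cases e
  · ext i
    exact i.elim0
  · ext i j
    fin_cases i; fin_cases j
    rw [HH, Matrix.of_apply]
    simpa using ptf_one hr hre

end Pool.Agent.Lib.MP_12adaf_nt.TF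
end

section

/-!
# The form W(c) and the pencil: definitions
-/

namespace Pool.Agent.Lib.MP_12adaf_nt.HM

open TF Matrix Polynomial

variable {R : Type*} [CommRing R]

/-- The matrix of the form `Tr(X x y)` on `R[X] / f`. -/
noncomputable def HH1 (n : ℕ) (f : R[X]) : Matrix (Fin n) (Fin n) R :=
  Matrix.of fun i j => tr n f (X ^ ((i : ℕ) + (j : ℕ) + 1))

/-- The form `W(c) = <2> T ⊥ <-2 t> T` on `F = R[t] / c`. -/
noncomputable def Wf (m : ℕ) (c : R[X]) : Matrix (Fin m ⊕ Fin m) (Fin m ⊕ Fin m) R :=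
  osum ((2 : R) • HH m c) ((-2 : R) • HH1 m c)

/-- The direction of the pencil. -/
noncomputable def Rp (R : Type*) [CommRing R] (m : ℕ) : R[X] :=
  ∏ i ∈ Finset.range (m - 1), (X - C ((i : R) ^ 2))

/-- The polynomial of the critical points of the pencil `c + s R`. -/
noncomputable def Jp (m : ℕ) (c : R[X]) : R[X] :=
  derivative c * Rp R m - c * derivative (Rp R m)

/-- The polynomial of the critical values of the pencil `c + s R` (in the variable `s`). -/
noncomputable def Ep (m : ℕ) (c : R[X]) : R[X] :=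
  resultant ((Jp m c).map C) (c.map C + C X * (Rp R m).map C) (2 * m - 2) m

/-- `Phi m c ≠ 0`: the critical values are distinct. -/
noncomputable def Phi (m : ℕ) (c : R[X]) : R :=
  (Ep m c).coeff (2 * m - 2) *
    resultant (Ep m c) (derivative (Ep m c)) (2 * m - 2) (2 * m - 3)

/-- The members of the pencil. -/
noncomputable def pen (m : ℕ) (c : R[X]) (s : R) : R[X] := c + C s * Rp R m

end Pool.Agent.Lib.MP_12adaf_nt.HM
end

section

/-!
# Approximation by norms
-/

namespace Pool.Agent.Lib.MP_12adaf_nt.HM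

open NumberField IsDedekindDomain IsDedekindDomain.HeightOneSpectrum TF Matrix

variable {k : Type*} [Field k] [NumberField k]

/-- Elements of a completion at a finite place which are close to `1` are squares. -/
private lemma t6_near_one_fin (w : HeightOneSpectrum (𝓞 k)) (y : w.adicCompletion k)
    (hy : ‖y - 1‖ < ‖(4 : w.adicCompletion k)‖) : IsSquare y := by
  have h4 : (4 : w.adicCompletion k) ≠ 0 := by norm_num
  have h4' : 0 < ‖(4 : w.adicCompletion k)‖ := norm_pos_iff.mpr h4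
  have hc : ‖(y - 1) / 4‖ < 1 := by
    rw [norm_div, div_lt_one h4']
    exact hy
  obtain ⟨c, hcc⟩ := (norm_le_one_iff w ((y - 1) / 4)).mp hc.le
  have hcm : c ∈ IsLocalRing.maximalIdeal (w.adicCompletionIntegers k) := by
    rw [IsLocalRing.mem_maximalIdeal, mem_nonunits_iff]
    intro hu
    have h1 := (norm_eq_one_iff w ((y - 1) / 4)).mpr ⟨hu.unit, by rw [← hcc]; rfl⟩
    exact hc.ne h1
  let f : Polynomial (w.adicCompletionIntegers k) :=
    Polynomial.X ^ 2 + Polynomial.X - Polynomial.C c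
  have hf : f.Monic := by
    simp only [f]
    monicity!
  obtain ⟨t, ht, -⟩ := HenselianLocalRing.is_henselian f hf 0 (by simpa [f] using hcm)
    (by simp [f])
  have ht' : t ^ 2 + t - c = 0 := by
    simpa [f, Polynomial.IsRoot] using ht
  refine ⟨1 + 2 * algebraMap (w.adicCompletionIntegers k) (w.adicCompletion k) t, ?_⟩
  have h5 := congrArg (algebraMap (w.adicCompletionIntegers k) (w.adicCompletion k)) ht'
  rw [map_sub, map_add, map_pow, map_zero, hcc] at h5
  field_simp at h5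
  linear_combination -h5

/-- Elements of a completion which are close to `1` are squares. -/
private lemma t6_near_one (i : Pl k) :
    ∃ ε : ℝ, 0 < ε ∧ ε ≤ 1 ∧ ∀ y : PlC k i, ‖y - 1‖ < ε → IsSquare y := by
  rcases i with v | w
  · refine ⟨1, one_pos, le_rfl, ?_⟩
    intro y hy
    change v.Completion at y
    change ‖(y : v.Completion) - 1‖ < 1 at hy
    change IsSquare (y : v.Completion)
    rcases exists_equiv_real_or_complex v with ⟨e, he⟩ | ⟨e, he⟩
    · have h1 : |e y - 1| < 1 := by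
        rw [← he, map_sub, map_one, Real.norm_eq_abs] at hy
        exact hy
      have h2 : 0 ≤ e y := by
        have := (abs_lt.mp h1).1
        linarith
      have h3 : IsSquare (e y) := ⟨Real.sqrt (e y), (Real.mul_self_sqrt h2).symm⟩
      have h4 := h3.map e.symm
      rwa [RingEquiv.symm_apply_apply] at h4
    · have h3 : IsSquare (e y) := by
        obtain ⟨z, hz⟩ := IsAlgClosed.exists_pow_nat_eq (e y) (n := 2) (by norm_num)
        exact ⟨z, by rw [← hz, sq]⟩
      have h4 := h3.map e.symm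
      rwa [RingEquiv.symm_apply_apply] at h4
  · have h4 : 0 < ‖(4 : w.adicCompletion k)‖ := norm_pos_iff.mpr (by norm_num)
    refine ⟨min 1 ‖(4 : w.adicCompletion k)‖, lt_min one_pos h4, min_le_left _ _, ?_⟩
    intro y hy
    exact t6_near_one_fin w y (lt_of_lt_of_le hy (min_le_right _ _))

/-- **Job T6.** Let `a` be a norm from `k_i(√D)` for the places `i` of a finite set `S`. Then there
is a norm `n` from `k(√D)` such that `a n` is arbitrarily close to `1` at the places of `S`.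

Proof. At `i ∈ S`: `a⁻¹ = x_i² - D y_i²` (`NF.inv`). By weak approximation (`denseRange_places`)
choose `x, y ∈ k` close to `x_i, y_i`; `n := x² - D y²` is close to `a⁻¹`, so `a n` is close to `1`.
`n ≠ 0`: if `S` is not empty and `ε ≤ 1` it follows from `‖a n - 1‖ < 1`; replace `ε` by
`min ε 1`; if `S` is empty take `n = 1`. -/
theorem exists_norm_near (S : Finset (Pl k)) {D a : k} (ha : a ≠ 0)
    (h : ∀ i ∈ S, NF (plEmb k i D) (plEmb k i a)) {ε : ℝ} (hε : 0 < ε) :
    ∃ n : k, n ≠ 0 ∧ NF D n ∧ ∀ i ∈ S, ‖plEmb k i (a * n) - 1‖ < ε := by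
  classical
  rcases S.eq_empty_or_nonempty with rfl | hS
  · exact ⟨1, one_ne_zero, NF.one D, by simp⟩
  obtain ⟨i₀, hi₀⟩ := hS
  have hloc : ∀ i : Pl k, ∃ x y : PlC k i, i ∈ S →
      (plEmb k i a)⁻¹ = x ^ 2 - plEmb k i D * y ^ 2 := by
    intro i
    by_cases hi : i ∈ S
    · obtain ⟨x, y, hxy⟩ := (h i hi).inv
      exact ⟨x, y, fun _ => hxy⟩
    · exact ⟨0, 0, fun h' => absurd h' hi⟩
  choose X Y hXY using hloc
  set η : ℝ := min ε 1 with hη
  have hη0 : 0 < η := lt_min hε one_pos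
  have hδ : ∀ i : Pl k, ∃ δ : ℝ, 0 < δ ∧ (i ∈ S → ∀ u v : PlC k i, dist u (X i) < δ →
      dist v (Y i) < δ → ‖plEmb k i a * (u ^ 2 - plEmb k i D * v ^ 2) - 1‖ < η) := by
    intro i
    by_cases hi : i ∈ S
    · have hc : Continuous fun p : PlC k i × PlC k i =>
          plEmb k i a * (p.1 ^ 2 - plEmb k i D * p.2 ^ 2) := by fun_prop
      have hc1 := Metric.continuousAt_iff.1 (hc.continuousAt (x := (X i, Y i))) η hη0
      obtain ⟨δ, hδ, h1⟩ := hc1
      refine ⟨δ, hδ, fun _ u v hu hv => ?_⟩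
      have h2 := h1 (x := (u, v)) (by rw [Prod.dist_eq]; exact max_lt hu hv)
      have h3 : plEmb k i a * (X i ^ 2 - plEmb k i D * Y i ^ 2) = 1 := by
        rw [← hXY i hi, mul_inv_cancel₀]
        exact (map_ne_zero (plEmb k i)).2 ha
      simp only at h2
      rw [h3, dist_eq_norm] at h2
      exact h2
    · exact ⟨1, one_pos, fun h' => absurd h' hi⟩
  choose δ hδ0 hδ1 using hδ
  obtain ⟨d, hd, hdle⟩ : ∃ d : ℝ, 0 < d ∧ ∀ i ∈ S, d ≤ δ i := by
    obtain ⟨j, hj, hmin⟩ := S.exists_min_image δ ⟨i₀, hi₀⟩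
    exact ⟨δ j, hδ0 j, hmin⟩
  let f : {i // i ∈ S} → Pl k := Subtype.val
  have hf : Function.Injective f := Subtype.val_injective
  obtain ⟨x, hx⟩ := (denseRange_places k f hf).exists_dist_lt (fun i => X (f i)) hd
  obtain ⟨y, hy⟩ := (denseRange_places k f hf).exists_dist_lt (fun i => Y (f i)) hd
  rw [dist_pi_lt_iff hd] at hx hy
  have hclose : ∀ i ∈ S, ‖plEmb k i (a * (x ^ 2 - D * y ^ 2)) - 1‖ < η := by
    intro i hi
    have h1 := hx ⟨i, hi⟩
    have h2 := hy ⟨i, hi⟩
    rw [dist_comm] at h1 h2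
    have h3 := hδ1 i hi (plEmb k i x) (plEmb k i y) (lt_of_lt_of_le h1 (hdle i hi))
      (lt_of_lt_of_le h2 (hdle i hi))
    rw [map_mul, map_sub, map_mul, map_pow, map_pow]
    exact h3
  refine ⟨x ^ 2 - D * y ^ 2, ?_, ⟨x, y, rfl⟩, fun i hi =>
    lt_of_lt_of_le (hclose i hi) (min_le_left _ _)⟩
  intro h0
  have h1 := hclose i₀ hi₀
  rw [h0, mul_zero, map_zero, zero_sub, norm_neg, norm_one] at h1
  exact absurd (min_le_right ε 1) (not_le.mpr h1)

/-- Elements close to `1` are squares, in all completions. (Same job; see the proof of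
`exists_sq_class`.) -/
theorem exists_near_one_sq (i : Pl k) :
    ∃ δ : ℝ, 0 < δ ∧ ∀ x : PlC k i, ‖x - 1‖ < δ → ∃ y, y ≠ 0 ∧ x = y ^ 2 := by
  obtain ⟨ε, hε, hε1, hsq⟩ := t6_near_one i
  refine ⟨ε, hε, fun x hx => ?_⟩
  obtain ⟨y, hy⟩ := hsq x hx
  refine ⟨y, ?_, by rw [hy, sq]⟩
  rintro rfl
  rw [hy, mul_zero, zero_sub, norm_neg, norm_one] at hx
  exact absurd hε1 (not_le.mpr hx)

end Pool.Agent.Lib.MP_12adaf_nt.HM
end

section

section

/-!
# Two-fold Pfister forms are round
-/

namespace Pool.Agent.Lib.MP_12adaf_nt.HM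

open TF Matrix

variable {K : Type*} [Field K] [CharZero K]

/-- The norm form of the quaternion algebra `(x, y)`. -/
def qn (x y : K) : Fin 4 → K := ![1, -x, -y, x * y]

/-- left multiplication by a quaternion -/
private def t2M (x y a b c d : K) : Matrix (Fin 4) (Fin 4) K :=
  !![a, x * b, y * c, -(x * y * d); b, a, y * d, -(y * c); c, -(x * d), a, x * b; d, -c, b, a]

omit [CharZero K] in
private lemma t2M_mul (x y a b c d : K) : t2M x y a b c d * t2M x y a (-b) (-c) (-d) =
    diagonal fun _ => a ^ 2 - x * b ^ 2 - y * c ^ 2 + x * y * d ^ 2 := by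
  ext i j
  fin_cases i <;> fin_cases j <;>
    simp [t2M, Matrix.mul_apply, Fin.sum_univ_four] <;> ring

omit [CharZero K] in
private lemma t2M_form (x y a b c d : K) :
    (t2M x y a b c d)ᵀ * diagonal (qn x y) * t2M x y a b c d =
    diagonal fun i => (a ^ 2 - x * b ^ 2 - y * c ^ 2 + x * y * d ^ 2) * qn x y i := by
  ext i j
  fin_cases i <;> fin_cases j <;>
    simp [t2M, qn, Matrix.mul_apply, Fin.sum_univ_four] <;> ring

/-- **Job T2.** The nonzero values of the norm form of a quaternion algebra are similarity factors.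

Proof. Let `q = (q₀, q₁, q₂, q₃)` with `q₀² - x q₁² - y q₂² + x y q₃² = c`. Left multiplication by
the quaternion `q₀ + q₁ i + q₂ j + q₃ i j` (`i² = x, j² = y, ij = -ji`) has the matrix
`M = !![q₀, x q₁, y q₂, -x y q₃; q₁, q₀, y q₃, -y q₂; q₂, -x q₃, q₀, x q₁; q₃, -q₂, q₁, q₀]`
(check the signs) and satisfies `Mᵀ N M = c N` with `N = diagonal (qn x y)`, `det M = c² ≠ 0`; the
inverse is the matrix of the conjugate quaternion divided by `c`. -/
theorem qn_round {x y c : K} (hx : x ≠ 0) (hy : y ≠ 0) (hc : c ≠ 0) (h : Reps (qn x y) c) :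
    CD (fun i => c * qn x y i) (qn x y) := by
  obtain ⟨q, hq⟩ := h
  have hc' : q 0 ^ 2 - x * q 1 ^ 2 - y * q 2 ^ 2 + x * y * q 3 ^ 2 = c := by
    rw [← hq, Fin.sum_univ_four]
    simp [qn]
    ring
  apply CD.symm
  refine ⟨t2M x y (q 0) (q 1) (q 2) (q 3),
    (diagonal fun _ => c⁻¹) * t2M x y (q 0) (-q 1) (-q 2) (-q 3), ?_, ?_, ?_⟩
  · have h1 := t2M_mul x y (q 0) (q 1) (q 2) (q 3)
    rw [hc'] at h1
    have h2 : (diagonal fun _ => c⁻¹) * t2M x y (q 0) (-q 1) (-q 2) (-q 3) =
        t2M x y (q 0) (-q 1) (-q 2) (-q 3) * (diagonal fun _ => c⁻¹) := by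
      ext i j
      rw [diagonal_mul, mul_diagonal, mul_comm]
    rw [h2, ← Matrix.mul_assoc, h1, diagonal_mul_diagonal, ← diagonal_one]
    congr 1
    ext i
    exact mul_inv_cancel₀ hc
  · have h1 := t2M_mul x y (q 0) (-q 1) (-q 2) (-q 3)
    simp only [neg_neg, neg_sq, hc'] at h1
    rw [Matrix.mul_assoc, h1, diagonal_mul_diagonal, ← diagonal_one]
    congr 1
    ext i
    exact inv_mul_cancel₀ hc
  · rw [t2M_form, hc']

/-- The values of `qn` form a group. (Same job: consequence of `qn_round`; `qn x y` represents `1`.) -/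
theorem qn_div {x y c c' : K} (hx : x ≠ 0) (hy : y ≠ 0) (hc : c ≠ 0) (hc' : c' ≠ 0)
    (h : Reps (qn x y) c) (h' : Reps (qn x y) c') : Reps (qn x y) (c / c') := by
  have h1 := qn_round hx hy hc' h'
  have h2 : Reps (fun i => c' * qn x y i) (c' * c) := by
    obtain ⟨v, hv⟩ := h
    refine ⟨v, ?_⟩
    rw [← hv, Finset.mul_sum]
    exact Finset.sum_congr rfl fun i _ => by ring
  obtain ⟨v, hv⟩ := h1.reps h2
  refine ⟨fun i => v i / c', ?_⟩
  have h3 : ∀ i, qn x y i * (v i / c') ^ 2 = qn x y i * v i ^ 2 / c' ^ 2 := by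
    intro i
    ring
  rw [Finset.sum_congr rfl fun i _ => h3 i, ← Finset.sum_div, hv]
  field_simp

/-- A quaternary form with square discriminant is a multiple of a norm form. (Same job.)

Proof. `l = θ₀`, `x = -θ₁ / θ₀`, `y = -θ₂ / θ₀`; `θ₃` is `l x y` times a nonzero square. -/
theorem exists_qn {θ : Fin 4 → K} (hθ : ∀ i, θ i ≠ 0) (h : IsSquare (θ 0 * θ 1 * θ 2 * θ 3)) :
    ∃ l x y : K, l ≠ 0 ∧ x ≠ 0 ∧ y ≠ 0 ∧ CD θ (fun i => l * qn x y i) := by
  obtain ⟨s, hs⟩ := h
  have h0 := hθ 0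
  have h1 := hθ 1
  have h2 := hθ 2
  have h3 := hθ 3
  have hs0 : s ≠ 0 := by
    rintro rfl
    rw [mul_zero] at hs
    exact mul_ne_zero (mul_ne_zero (mul_ne_zero h0 h1) h2) h3 hs
  refine ⟨θ 0, -θ 1 / θ 0, -θ 2 / θ 0, h0, div_ne_zero (neg_ne_zero.2 h1) h0,
    div_ne_zero (neg_ne_zero.2 h2) h0, ?_⟩
  have key := CD.mul_sq θ ![1, 1, 1, θ 1 * θ 2 / s] (by
    intro i
    fin_cases i
    · exact one_ne_zero
    · exact one_ne_zero
    · exact one_ne_zero
    · exact div_ne_zero (mul_ne_zero h1 h2) hs0)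
  have e : (fun i => θ i * ![1, 1, 1, θ 1 * θ 2 / s] i ^ 2) =
      fun i => θ 0 * qn (-θ 1 / θ 0) (-θ 2 / θ 0) i := by
    funext i
    fin_cases i
    · simp [qn]
    · simp [qn]
      field_simp
    · simp [qn]
      field_simp
    · simp [qn]
      field_simp
      linear_combination hs
  rw [e] at key
  exact key

end Pool.Agent.Lib.MP_12adaf_nt.HM
end

section

/-!
# Hyperbolic forms
-/

namespace Pool.Agent.Lib.MP_12adaf_nt.HM

open TF Matrix

variable {K : Type*} [Field K] [CharZero K]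

/-- **Job T1.** `<u, -u> ≅ <1, -1>`: `u x² - u y² = (x + y) u (x - y)`. -/
theorem cd_pair {u : K} (hu : u ≠ 0) : CD (![u, -u] : Fin 2 → K) (![1, -1] : Fin 2 → K) := by
  refine ⟨!![(1 + u⁻¹) / 2, (1 - u⁻¹) / 2; (1 - u⁻¹) / 2, (1 + u⁻¹) / 2],
    !![(1 + u) / 2, (1 - u) / 2; (1 - u) / 2, (1 + u) / 2], ?_, ?_, ?_⟩
  · ext i j
    fin_cases i <;> fin_cases j <;> simp [Matrix.mul_apply, Fin.sum_univ_two] <;> field_simp <;>
      ring
  · ext i j
    fin_cases i <;> fin_cases j <;> simp [Matrix.mul_apply, Fin.sum_univ_two] <;> field_simp <;>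
      ring
  · ext i j
    fin_cases i <;> fin_cases j <;> simp [Matrix.mul_apply, Fin.sum_univ_two] <;> field_simp <;>
      ring

private lemma t1_self {ι : Type*} [Fintype ι] [DecidableEq ι] {a : ι → K} (ha : ∀ i, a i ≠ 0) :
    CD (Sum.elim a fun i => -(a i)) (Sum.elim (fun _ : ι => (1 : K)) fun _ : ι => -1) := by
  refine ⟨fromBlocks (diagonal fun i => (1 + (a i)⁻¹) / 2) (diagonal fun i => (1 - (a i)⁻¹) / 2)
      (diagonal fun i => (1 - (a i)⁻¹) / 2) (diagonal fun i => (1 + (a i)⁻¹) / 2),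
    fromBlocks (diagonal fun i => (1 + a i) / 2) (diagonal fun i => (1 - a i) / 2)
      (diagonal fun i => (1 - a i) / 2) (diagonal fun i => (1 + a i) / 2), ?_, ?_, ?_⟩
  · rw [fromBlocks_multiply]
    simp only [diagonal_mul_diagonal, diagonal_add]
    rw [← fromBlocks_one]
    congr 1
    · rw [← diagonal_one]; congr 1; ext i; have := ha i; field_simp; ring
    · rw [← diagonal_zero]; congr 1; ext i; have := ha i; field_simp; ring
    · rw [← diagonal_zero]; congr 1; ext i; have := ha i; field_simp; ring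
    · rw [← diagonal_one]; congr 1; ext i; have := ha i; field_simp; ring
  · rw [fromBlocks_multiply]
    simp only [diagonal_mul_diagonal, diagonal_add]
    rw [← fromBlocks_one]
    congr 1
    · rw [← diagonal_one]; congr 1; ext i; have := ha i; field_simp; ring
    · rw [← diagonal_zero]; congr 1; ext i; have := ha i; field_simp; ring
    · rw [← diagonal_zero]; congr 1; ext i; have := ha i; field_simp; ring
    · rw [← diagonal_one]; congr 1; ext i; have := ha i; field_simp; ring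
  · rw [← fromBlocks_diagonal, ← fromBlocks_diagonal, fromBlocks_transpose, fromBlocks_multiply,
      fromBlocks_multiply]
    simp only [diagonal_transpose, diagonal_mul_diagonal, diagonal_add, Matrix.mul_zero,
      add_zero, zero_add]
    congr 1
    · congr 1; ext i; have := ha i; field_simp; ring
    · rw [← diagonal_zero]; congr 1; ext i; have := ha i; field_simp; ring
    · rw [← diagonal_zero]; congr 1; ext i; have := ha i; field_simp; ring
    · congr 1; ext i; have := ha i; field_simp; ring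

/-- `a ⊥ -a` is hyperbolic. (Same job.) -/
theorem cd_self {n : ℕ} {a : Fin n → K} (ha : ∀ i, a i ≠ 0) :
    CD (Sum.elim a fun i => -(a i)) (hy n) := t1_self ha

/-- The same for arbitrary index types. (Same job.) -/
theorem cd_self' {ι : Type*} [Fintype ι] [DecidableEq ι] {a : ι → K} (ha : ∀ i, a i ≠ 0) :
    CD (Sum.elim a fun i => -(a i)) (hy (Fintype.card ι)) := by
  refine (t1_self ha).trans ?_
  let e : Fin (Fintype.card ι) ≃ ι := (Fintype.equivFin ι).symm
  refine (CD.reindex _ (Equiv.sumCongr e e)).trans ?_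
  have : (fun i => Sum.elim (fun _ : ι => (1 : K)) (fun _ : ι => -1) (Equiv.sumCongr e e i)) =
      hy (Fintype.card ι) := by
    ext i
    rcases i with i | i <;> rfl
  rw [this]
  exact CD.refl _

/-- Sums of hyperbolic forms. (Same job.) -/
theorem cd_hy_add (r s : ℕ) : CD (Sum.elim (hy r) (hy s) : _ → K) (hy (r + s)) := by
  let e : Fin (r + s) ⊕ Fin (r + s) ≃ (Fin r ⊕ Fin r) ⊕ (Fin s ⊕ Fin s) :=
    (Equiv.sumCongr finSumFinEquiv.symm finSumFinEquiv.symm).trans
      (Equiv.sumSumSumComm (Fin r) (Fin s) (Fin r) (Fin s))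
  refine (CD.reindex _ e).trans ?_
  have : (fun i => (Sum.elim (hy r) (hy s) : _ → K) (e i)) = hy (r + s) := by
    ext i
    rcases i with i | i
    · simp only [e, Equiv.trans_apply, Equiv.sumCongr_apply, Sum.map_inl]
      rcases finSumFinEquiv.symm i with j | j <;> rfl
    · simp only [e, Equiv.trans_apply, Equiv.sumCongr_apply, Sum.map_inr]
      rcases finSumFinEquiv.symm i with j | j <;> rfl
  rw [this]
  exact CD.refl _

/-- Multiples of hyperbolic forms. (Same job.) -/
theorem cd_hy_mul {c : K} (hc : c ≠ 0) (r : ℕ) : CD (fun i => c * hy r i) (hy r) := by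
  have h := cd_self (n := r) (a := fun _ => c) fun _ => hc
  have : (fun i => c * hy r i) = Sum.elim (fun _ : Fin r => c) fun _ : Fin r => -c := by
    ext i
    rcases i with i | i <;> simp [hy]
  rw [this]
  exact h

lemma hy_ne_zero (r : ℕ) (i : Fin r ⊕ Fin r) : (hy r i : K) ≠ 0 := by
  rcases i with i | i <;> simp [hy]

/-- Hyperbolic forms of positive rank are isotropic. (Same job.) -/
theorem isot_hy (r : ℕ) : Isot (hy (r + 1) : _ → K) := by
  refine Isot.of_comp (Sum.map (fun _ : Fin 1 => (0 : Fin (r + 1))) fun _ : Fin 1 => 0) ?_ ?_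
  · refine Function.Injective.sumMap ?_ ?_ <;>
      exact fun i j _ => Subsingleton.elim i j
  · refine ⟨fun _ => 1, ?_, ?_⟩
    · intro h
      exact one_ne_zero (congrFun h (Sum.inl 0))
    · simp [Fintype.sum_sum_type, hy]

omit [CharZero K] in
private lemma t1_cons {n : ℕ} (c : K) (v : Fin n → K) :
    CD (Fin.cons c v : Fin (n + 1) → K) (Sum.elim (fun _ : Fin 1 => c) v) := by
  let e : Fin 1 ⊕ Fin n ≃ Fin (n + 1) := finSumFinEquiv.trans (finCongr (Nat.add_comm 1 n))
  refine (CD.reindex _ e).trans ?_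
  have : (fun i => (Fin.cons c v : Fin (n + 1) → K) (e i)) = Sum.elim (fun _ : Fin 1 => c) v := by
    ext i
    rcases i with i | i
    · have h1 : e (Sum.inl i) = 0 := by
        apply Fin.ext
        simp [e]
      rw [h1]
      rfl
    · have h1 : e (Sum.inr i) = i.succ := by
        apply Fin.ext
        simp [e]
      rw [h1]
      rfl
  rw [this]
  exact CD.refl _

/-- An isotropic form splits off a hyperbolic plane. (Same job.)

Proof. `a` is universal (`Isot.reps`), so it represents `1`: `a ≅ <1> ⊥ u` with `u` of rank `n + 1`.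
As `a` is isotropic, so is `<1> ⊥ u`; so `u` represents `-1`: if the isotropic vector has first
coordinate `t ≠ 0` divide by it, if `t = 0` then `u` is isotropic, hence universal. So
`u ≅ <-1> ⊥ u'` (`exists_cd_of_reps`). -/
theorem split_hyp {n : ℕ} {a : Fin (n + 2) → K} (ha : ∀ i, a i ≠ 0) (h : Isot a) :
    ∃ u : Fin n → K, (∀ i, u i ≠ 0) ∧ CD a (Sum.elim (hy 1) u) := by
  obtain ⟨v, hv, hc1⟩ := exists_cd_of_reps ha one_ne_zero (h.reps two_ne_zero ha 1)
  have h1 := hc1.isot h
  have h2 : Reps v (-1) := by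
    refine reps_of_isot two_ne_zero hv (neg_ne_zero.2 one_ne_zero) ?_
    rw [neg_neg]
    exact h1
  obtain ⟨u, hu, hc2⟩ := exists_cd_of_reps hv (neg_ne_zero.2 one_ne_zero) h2
  refine ⟨u, hu, ?_⟩
  refine hc1.trans ((t1_cons 1 v).trans ?_)
  refine ((CD.refl _).add (hc2.trans (t1_cons (-1) u))).trans ?_
  exact (CD.assoc _ _ _).symm

end Pool.Agent.Lib.MP_12adaf_nt.HM
end

section

/-!
# Splitting hyperbolic planes over a number field
-/

namespace Pool.Agent.Lib.MP_12adaf_nt.HM

open NumberField IsDedekindDomain IsDedekindDomain.HeightOneSpectrum TF Matrix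

variable {k : Type*} [Field k] [NumberField k]

/-- **Job T4.** A form over `k` of rank `2 s + 4` which is hyperbolic at the places of `S` (all the
infinite ones, all the dyadic ones) splits off `s` hyperbolic planes.

Proof. Induction on `s`; `s = 0`: `ρ = ξ`. For `s + 1`: the rank is `≥ 6`, `ξ` is isotropic at the
places of `S` (`isot_hy`, `CD.isot`) and at the others (`isot_fin_five`), so over `k`
(`hasse_minkowski`), so `ξ ≅ hy 1 ⊥ u` (`split_hyp`). At `i ∈ S`:
`hy 1 ⊥ u ≅ hy (s + 3) ≅ hy 1 ⊥ hy (s + 2)`, so `u ≅ hy (s + 2)` (`CD.cancel`). By induction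
`u ≅ hy s ⊥ ρ`, and `ξ ≅ hy 1 ⊥ hy s ⊥ ρ ≅ hy (s + 1) ⊥ ρ`. -/
theorem split_global {S : Finset (Pl k)} (hinf : ∀ v : InfinitePlace k, Sum.inl v ∈ S)
    (h2 : ∀ w : HeightOneSpectrum (𝓞 k), Sum.inr w ∉ S → w.valuation k 2 = 1) (s : ℕ)
    {ξ : Fin (2 * s + 4) → k} (hξ : ∀ j, ξ j ≠ 0)
    (hS : ∀ i ∈ S, CD (fun j => plEmb k i (ξ j)) (hy (s + 2))) :
    ∃ ρ : Fin 4 → k, (∀ j, ρ j ≠ 0) ∧ CD ξ (Sum.elim (hy s) ρ) := by
  induction s with
  | zero =>
    refine ⟨ξ, hξ, ?_⟩
    have h := CD.reindex (ξ : Fin 4 → k) (Equiv.emptySum (Fin 0 ⊕ Fin 0) (Fin 4))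
    refine CD.trans h ?_
    have e : (fun i => (ξ : Fin 4 → k) ((Equiv.emptySum (Fin 0 ⊕ Fin 0) (Fin 4)) i)) =
        Sum.elim (hy 0) (ξ : Fin 4 → k) := by
      funext i
      rcases i with i | i
      · exact (IsEmpty.false i).elim
      · rfl
    rw [e]
    exact CD.refl _
  | succ s ih =>
    have hiso : Isot ξ := by
      refine hasse_minkowski (by omega) hξ fun i => ?_
      by_cases hi : i ∈ S
      · exact (hS i hi).symm.isot (isot_hy (s + 2))
      · rcases i with v | w
        · exact absurd (hinf v) hi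
        · refine isot_fin_five (h2 w hi) ?_ (fun j => plEmb k (Sum.inr w) (ξ j)) fun j => ?_
          · rw [Fintype.card_fin]
            omega
          · exact (map_ne_zero (plEmb k (Sum.inr w))).2 (hξ j)
    obtain ⟨u, hu0, hu⟩ := split_hyp (n := 2 * s + 4) (a := ξ) hξ hiso
    have hloc : ∀ i ∈ S, CD (fun j => plEmb k i (u j)) (hy (s + 2)) := by
      intro i hi
      have h1 := (CD.map (plEmb k i) hu).symm.trans (hS i hi)
      have e : (fun j => plEmb k i (Sum.elim (hy 1) u j)) =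
          Sum.elim (hy 1) (fun j => plEmb k i (u j)) := by
        funext j
        rcases j with (j | j) | j
        · exact map_one (plEmb k i)
        · change plEmb k i (-1) = -1
          rw [map_neg, map_one]
        · rfl
      rw [e] at h1
      have h3 : CD (hy (s + 1 + 2) : _ → PlC k i) (Sum.elim (hy 1) (hy (s + 2))) :=
        ((CD.comm _ _).trans (cd_hy_add (s + 2) 1)).symm
      exact CD.cancel (hy_ne_zero 1) (h1.trans h3)
    obtain ⟨ρ, hρ0, hρ⟩ := ih hu0 hloc
    refine ⟨ρ, hρ0, ?_⟩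
    have h4 : CD (Sum.elim (hy 1) (Sum.elim (hy s) ρ) : _ → k) (Sum.elim (hy (s + 1)) ρ) :=
      (CD.assoc _ _ _).symm.trans (((CD.comm _ _).trans (cd_hy_add s 1)).add (CD.refl _))
    exact (hu.trans ((CD.refl _).add hρ)).trans h4

end Pool.Agent.Lib.MP_12adaf_nt.HM
end

section

/-!
# Quaternary forms which are hyperbolic over a quadratic extension
-/

namespace Pool.Agent.Lib.MP_12adaf_nt.HM

open TF Matrix

private lemma t5_four {K : Type*} [Field K] (a b : Fin 2 → K) :
    CD (Sum.elim a b) (![a 0, a 1, b 0, b 1] : Fin 4 → K) := by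
  refine (CD.reindex _ (finSumFinEquiv (m := 2) (n := 2)).symm).trans ?_
  have : (fun i => Sum.elim a b ((finSumFinEquiv (m := 2) (n := 2)).symm i)) =
      (![a 0, a 1, b 0, b 1] : Fin 4 → K) := by
    ext i
    fin_cases i <;> rfl
  rw [this]
  exact CD.refl _

/-- **Job T5.** An anisotropic quaternary form with square discriminant which is isotropic over
`K(√D)` is `μ <1, -D> ⊗ <1, -a>`.

Proof. `exists_split_ext`: `ρ ≅ <μ, -D μ, u₀, u₁>`. Determinants (`Cong.det_eq`):
`-D μ² u₀ u₁` is a square, so `u₁ = -D u₀ * square` (nonzero). Put `a = -u₀ / μ`. -/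
theorem exists_quat {K L : Type*} [Field K] [CharZero K] [Field L] [Algebra K L] {D : K}
    (hD0 : D ≠ 0) (hD : ¬ IsSquare D) (Q : QExt K L D) {ρ : Fin 4 → K} (hρ : ∀ i, ρ i ≠ 0)
    (hsq : IsSquare (∏ i, ρ i)) (h : ¬ Isot ρ) (hL : Isot fun i => algebraMap K L (ρ i)) :
    ∃ μ a : K, μ ≠ 0 ∧ a ≠ 0 ∧ CD ρ ![μ, -(D * μ), -(μ * a), D * (μ * a)] := by
  obtain ⟨μ, u, hμ, hu, hc⟩ := exists_split_ext hD Q hρ h hL
  obtain ⟨c, hc0, hdet⟩ := Cong.det_eq hc
  rw [det_diagonal, det_diagonal, Fintype.prod_sum_type] at hdet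
  simp only [Sum.elim_inl, Sum.elim_inr, Fin.prod_univ_two, Fin.isValue,
    cons_val_zero, cons_val_one] at hdet
  obtain ⟨s, hs⟩ := hsq
  have hs0 : s ≠ 0 := by
    rintro rfl
    rw [mul_zero] at hs
    exact Finset.prod_ne_zero_iff.2 (fun i _ => hρ i) hs
  rw [hs] at hdet
  have hu0 := hu 0
  have hu1 := hu 1
  refine ⟨μ, -u 0 / μ, hμ, div_ne_zero (neg_ne_zero.2 hu0) hμ, ?_⟩
  have k1 := CD.mul_sq u ![1, D * μ * u 0 / (s * c)] (by
    intro i
    fin_cases i
    · exact one_ne_zero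
    · exact div_ne_zero (mul_ne_zero (mul_ne_zero hD0 hμ) hu0) (mul_ne_zero hs0 hc0))
  have k2 := hc.trans (((CD.refl _).add k1).trans (t5_four _ _))
  have e : (![(![μ, -(D * μ)] : Fin 2 → K) 0, (![μ, -(D * μ)] : Fin 2 → K) 1,
      u 0 * (![1, D * μ * u 0 / (s * c)] : Fin 2 → K) 0 ^ 2,
      u 1 * (![1, D * μ * u 0 / (s * c)] : Fin 2 → K) 1 ^ 2] : Fin 4 → K) =
      ![μ, -(D * μ), -(μ * (-u 0 / μ)), D * (μ * (-u 0 / μ))] := by
    ext i
    fin_cases i
    · rfl
    · rfl
    · simp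
      field_simp
    · simp
      field_simp
      linear_combination (-1) * hdet
  rw [e] at k2
  exact k2

/-- An isotropic quaternary form with square discriminant is hyperbolic. (Same job: `split_hyp`, and
the remaining binary form has discriminant `-1` up to squares.) -/
theorem cd_hy_of_isot_four {K : Type*} [Field K] [CharZero K] {ρ : Fin 4 → K} (hρ : ∀ i, ρ i ≠ 0)
    (hsq : IsSquare (∏ i, ρ i)) (h : Isot ρ) : CD ρ (hy 2) := by
  obtain ⟨u, hu, hc⟩ := split_hyp hρ h
  obtain ⟨c, hc0, hdet⟩ := Cong.det_eq hc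
  rw [det_diagonal, det_diagonal, Fintype.prod_sum_type] at hdet
  simp only [Sum.elim_inl, Sum.elim_inr, Fin.prod_univ_two, Fin.isValue] at hdet
  obtain ⟨s, hs⟩ := hsq
  have hs0 : s ≠ 0 := by
    rintro rfl
    rw [mul_zero] at hs
    exact Finset.prod_ne_zero_iff.2 (fun i _ => hρ i) hs
  rw [hs] at hdet
  have hy1 : ∏ i : Fin 1 ⊕ Fin 1, (hy 1 i : K) = -1 := by
    simp [Fintype.prod_sum_type, hy]
  rw [hy1] at hdet
  have hu0 := hu 0
  have hu1 := hu 1
  have k1 := CD.mul_sq u ![1, u 0 / (s * c)] (by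
    intro i
    fin_cases i
    · exact one_ne_zero
    · exact div_ne_zero hu0 (mul_ne_zero hs0 hc0))
  have e : (fun i => u i * (![1, u 0 / (s * c)] : Fin 2 → K) i ^ 2) = ![u 0, -u 0] := by
    ext i
    fin_cases i
    · simp
    · simp
      field_simp
      linear_combination (-1) * hdet
  rw [e] at k1
  have k2 : CD (![1, -1] : Fin 2 → K) (hy 1) := by
    refine (CD.reindex _ (finSumFinEquiv (m := 1) (n := 1))).trans ?_
    have : (fun i => (![1, -1] : Fin 2 → K) ((finSumFinEquiv (m := 1) (n := 1)) i)) = hy 1 := by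
      ext i
      rcases i with i | i <;> fin_cases i <;> rfl
    rw [this]
    exact CD.refl _
  exact hc.trans (((CD.refl _).add (k1.trans ((cd_pair hu0).trans k2))).trans (cd_hy_add 1 1))

/-- If `μ <1, -D> ⊗ <1, -a>` is isotropic then `a` is a norm from `K(√D)`. (Same job.)

Proof. `μ (x² - D y²) = μ a (z² - D t²)` with `(x, y, z, t) ≠ 0`. If `D` is a square use
`NF.of_left_isSquare`. Otherwise both norms are nonzero, `a = (x² - D y²) / (z² - D t²)`, `NF.mul`,
`NF.inv`. -/
theorem nf_of_isot {K : Type*} [Field K] [CharZero K] {D μ a : K} (hD : D ≠ 0) (hμ : μ ≠ 0)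
    (ha : a ≠ 0) (h : Isot (![μ, -(D * μ), -(μ * a), D * (μ * a)] : Fin 4 → K)) : NF D a := by
  by_cases hsq : IsSquare D
  · exact NF.of_left_isSquare two_ne_zero hD hsq a
  obtain ⟨x, hx, hq⟩ := h
  rw [Fin.sum_univ_four] at hq
  simp only [Fin.isValue, cons_val_zero, cons_val_one, cons_val] at hq
  have h1 : x 0 ^ 2 - D * x 1 ^ 2 = a * (x 2 ^ 2 - D * x 3 ^ 2) := by
    apply mul_left_cancel₀ hμ
    linear_combination hq
  have key : ∀ y z : K, y ^ 2 - D * z ^ 2 = 0 → y = 0 ∧ z = 0 := by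
    intro y z hyz
    by_cases hz : z = 0
    · subst hz
      refine ⟨?_, rfl⟩
      have : y ^ 2 = 0 := by linear_combination hyz
      exact pow_eq_zero_iff (two_ne_zero) |>.1 this
    · exfalso
      apply hsq
      refine ⟨y / z, ?_⟩
      field_simp
      linear_combination (-1) * hyz
  have h2 : x 2 ^ 2 - D * x 3 ^ 2 ≠ 0 := by
    intro h0
    rw [h0, mul_zero] at h1
    obtain ⟨a1, a2⟩ := key _ _ h0
    obtain ⟨a3, a4⟩ := key _ _ h1
    apply hx
    ext i
    fin_cases i
    · exact a3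
    · exact a4
    · exact a1
    · exact a2
  have h3 : a = (x 0 ^ 2 - D * x 1 ^ 2) * (x 2 ^ 2 - D * x 3 ^ 2)⁻¹ := by
    rw [h1, mul_assoc, mul_inv_cancel₀ h2, mul_one]
  have n1 : NF D (x 0 ^ 2 - D * x 1 ^ 2) := ⟨_, _, rfl⟩
  have n2 : NF D (x 2 ^ 2 - D * x 3 ^ 2) := ⟨_, _, rfl⟩
  rw [h3]
  exact n1.mul n2.inv

/-- Changing `a` by a norm. (Same job: `n <1, -D> ≅ <1, -D>` for a norm `n ≠ 0`; `cong_binary`, or
multiplication by `x + y √D`.) -/
theorem cd_quat_mul {K : Type*} [Field K] [CharZero K] {D μ a n : K} (hD : D ≠ 0) (hμ : μ ≠ 0)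
    (ha : a ≠ 0) (hn0 : n ≠ 0) (hn : NF D n) :
    CD (![μ, -(D * μ), -(μ * a), D * (μ * a)] : Fin 4 → K)
      ![μ, -(D * μ), -(μ * (a * n)), D * (μ * (a * n))] := by
  obtain ⟨p, q, hpq⟩ := hn
  have k1 : CD (![-(μ * a), -D * -(μ * a)] : Fin 2 → K)
      ![-(μ * (a * n)), -D * -(μ * (a * n))] := by
    refine cong_binary (r := μ * a * p) (s := μ * a * q) (c := 1)
      (neg_ne_zero.2 (mul_ne_zero hμ ha)) (neg_ne_zero.2 (mul_ne_zero hμ (mul_ne_zero ha hn0)))
      one_ne_zero ?_
    rw [hpq]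
    ring
  have k2 := ((t5_four ![μ, -(D * μ)] ![-(μ * a), -D * -(μ * a)]).symm.trans
    ((CD.refl _).add k1)).trans (t5_four _ _)
  have e1 : (![(![μ, -(D * μ)] : Fin 2 → K) 0, (![μ, -(D * μ)] : Fin 2 → K) 1,
      (![-(μ * a), -D * -(μ * a)] : Fin 2 → K) 0, (![-(μ * a), -D * -(μ * a)] : Fin 2 → K) 1] :
      Fin 4 → K) = ![μ, -(D * μ), -(μ * a), D * (μ * a)] := by
    ext i
    fin_cases i
    · rfl
    · rfl
    · rfl
    · simp
  have e2 : (![(![μ, -(D * μ)] : Fin 2 → K) 0, (![μ, -(D * μ)] : Fin 2 → K) 1,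
      (![-(μ * (a * n)), -D * -(μ * (a * n))] : Fin 2 → K) 0,
      (![-(μ * (a * n)), -D * -(μ * (a * n))] : Fin 2 → K) 1] :
      Fin 4 → K) = ![μ, -(D * μ), -(μ * (a * n)), D * (μ * (a * n))] := by
    ext i
    fin_cases i
    · rfl
    · rfl
    · rfl
    · simp
  rw [e1, e2] at k2
  exact k2

end Pool.Agent.Lib.MP_12adaf_nt.HM
end

section

/-!
# Three-fold products over fields with isotropic forms of rank five
-/

namespace Pool.Agent.Lib.MP_12adaf_nt.HM

open TF Matrix

variable {K : Type*} [Field K] [CharZero K]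

private lemma t3_diag {μ : Type*} [Fintype μ] [DecidableEq μ] (c : K) (w : μ → K) :
    diagonal (fun i => c * w i) = c • diagonal w := by
  ext i j
  by_cases hij : i = j
  · subst hij; simp
  · simp [hij]

private lemma t3_smul {ι κ : Type*} [Fintype ι] [DecidableEq ι] [Fintype κ] [DecidableEq κ]
    (c : K) {u : ι → K} {v : κ → K} (h : CD u v) : CD (fun i => c * u i) (fun i => c * v i) := by
  obtain ⟨M, M', h1, h2, h3⟩ := h
  refine ⟨M, M', h1, h2, ?_⟩
  rw [t3_diag, t3_diag, ← h3, Matrix.mul_smul, Matrix.smul_mul]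

private lemma t3_dbl {ι κ : Type*} [Fintype ι] [DecidableEq ι] [Fintype κ] [DecidableEq κ]
    (a : K) {u : ι → K} {v : κ → K} (h : CD u v) :
    CD (Sum.elim u fun i => -(a * u i)) (Sum.elim v fun i => -(a * v i)) := by
  have h1 := t3_smul (-a) h
  simp only [neg_mul] at h1
  exact h.add h1

private lemma t3_sum {ι κ : Type*} [Fintype ι] [DecidableEq ι] [Fintype κ] [DecidableEq κ]
    (a : K) (u : ι → K) (v : κ → K) :
    CD (Sum.elim (Sum.elim u v) fun i => -(a * Sum.elim u v i))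
      (Sum.elim (Sum.elim u fun i => -(a * u i)) (Sum.elim v fun i => -(a * v i))) := by
  have h := CD.reindex (Sum.elim (Sum.elim u v) fun i => -(a * Sum.elim u v i))
    (Equiv.sumSumSumComm ι ι κ κ)
  refine h.trans ?_
  have e : (fun i => (Sum.elim (Sum.elim u v) fun i => -(a * Sum.elim u v i))
      ((Equiv.sumSumSumComm ι ι κ κ) i)) =
      (Sum.elim (Sum.elim u fun i => -(a * u i)) (Sum.elim v fun i => -(a * v i))) := by
    funext i
    rcases i with (i | i) | (i | i) <;> rfl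
  rw [e]
  exact CD.refl _

private lemma t3_step {ι κ : Type*} [Fintype ι] [DecidableEq ι] [Fintype κ] [DecidableEq κ]
    {a : K} (ha : a ≠ 0) {r : ℕ} {θ : ι → K} {u : κ → K} (h : CD θ (Sum.elim (hy 1) u))
    (hu : CD (Sum.elim u fun i => -(a * u i)) (hy r)) :
    CD (Sum.elim θ fun i => -(a * θ i)) (hy (r + 2)) := by
  refine (t3_dbl a h).trans ((t3_sum a (hy 1) u).trans ?_)
  have h1 : CD (Sum.elim (hy 1) fun i => -(a * hy 1 i)) (hy 2 : _ → K) := by
    have h2 := cd_hy_mul (K := K) (neg_ne_zero.mpr ha) 1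
    simp only [neg_mul] at h2
    exact ((CD.refl _).add h2).trans (cd_hy_add 1 1)
  exact ((h1.add hu).trans (CD.comm _ _)).trans (cd_hy_add r 2)

omit [CharZero K] in
private lemma t3_disc {n r : ℕ} {θ : Fin (n + 2) → K} {u : Fin n → K}
    (h : CD θ (Sum.elim (hy 1) u)) (hd : IsSquare ((-1) ^ (r + 1) * ∏ i, θ i)) :
    IsSquare ((-1) ^ r * ∏ i, u i) := by
  obtain ⟨c, -, hc⟩ := Cong.det_eq h
  rw [det_diagonal, det_diagonal, Fintype.prod_sum_type, Fintype.prod_sum_type] at hc
  simp only [hy, Sum.elim_inl, Sum.elim_inr, Finset.prod_const_one, Finset.prod_const,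
    Finset.card_univ, Fintype.card_fin, pow_one, one_mul] at hc
  obtain ⟨s, hs⟩ := hd
  refine ⟨s * c, ?_⟩
  rw [pow_succ] at hs
  linear_combination (-1) ^ r * (-1) * hc + c ^ 2 * hs

/-- **Job T3.** Over a field where all forms of rank five are isotropic, `<1, -a> ⊗ θ` is hyperbolic
for every form `θ` of even rank and trivial signed discriminant.

Proof. Induction on `r`. `r = 0`: empty forms. `r = 1`: `-(θ₀ θ₁)` is a square, so
`θ ≅ <θ₀, -θ₀>` is a hyperbolic plane, and `<1, -a> ⊗ H = H ⊥ -a H ≅ H ⊥ H` (`cd_hy_mul`).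
`r ≥ 3`: `θ` has rank at least five so it is isotropic (restrict to five variables,
`Isot.of_comp`), `θ ≅ H ⊥ θ'` (`split_hyp`) where `θ'` has rank `2 (r - 1)` and trivial signed
discriminant (`Cong.det_eq`; `det H = -1`); induction.
`r = 2`: if `θ` is isotropic, the same argument. Otherwise `θ ≅ l qn x y` (`exists_qn`). The form
`<1, -a> ⊗ θ` of rank eight is isotropic: `θ(u) = a θ(w)` with `(u, w) ≠ 0`; as `θ` is anisotropic
and `a ≠ 0`, `u, w ≠ 0` and `θ(u), θ(w) ≠ 0`. So `a = θ(u) / θ(w)` is a quotient of two nonzero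
values of `qn x y`, so it is a value of `qn x y` (`qn_div`), so `a qn x y ≅ qn x y` (`qn_round`), so
`a θ ≅ θ` and `<1, -a> ⊗ θ = θ ⊥ -a θ ≅ θ ⊥ -θ ≅ hy 4` (`cd_self`). -/
theorem triple_hyp (h5 : ∀ a : Fin 5 → K, (∀ i, a i ≠ 0) → Isot a) (r : ℕ) {θ : Fin (2 * r) → K}
    (hθ : ∀ i, θ i ≠ 0) (hdisc : IsSquare ((-1) ^ r * ∏ i, θ i)) {a : K} (ha : a ≠ 0) :
    CD (Sum.elim θ fun i => -(a * θ i)) (hy (2 * r)) := by
  induction r with
  | zero =>
    have e : IsEmpty (Fin (2 * 0)) := by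
      rw [Nat.mul_zero]
      infer_instance
    have h := CD.reindex (Sum.elim θ fun i => -(a * θ i)) (Equiv.equivOfIsEmpty
      (Fin (2 * 0) ⊕ Fin (2 * 0)) (Fin (2 * 0) ⊕ Fin (2 * 0)))
    refine h.trans ?_
    have e2 : (fun i => (Sum.elim θ fun i => -(a * θ i)) ((Equiv.equivOfIsEmpty
      (Fin (2 * 0) ⊕ Fin (2 * 0)) (Fin (2 * 0) ⊕ Fin (2 * 0))) i)) = hy (2 * 0) := by
      funext i
      exact (IsEmpty.false i).elim
    rw [e2]
    exact CD.refl _
  | succ r ih =>
    by_cases hiso : Isot θ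
    · obtain ⟨u, hu0, hu⟩ := split_hyp (n := 2 * r) (a := θ) hθ hiso
      exact t3_step ha hu (ih hu0 (t3_disc hu hdisc))
    -- anisotropic
    match r, θ, hθ, hdisc, hiso with
    | 0, θ, hθ, hdisc, hiso =>
      exfalso
      apply hiso
      obtain ⟨s, hs⟩ := hdisc
      have e : ∏ i, θ i = θ 0 * θ 1 := Fin.prod_univ_two θ
      rw [e] at hs
      refine ⟨![s, θ 0], ?_, ?_⟩
      · intro h0
        have h1 := congrFun h0 1
        exact hθ 0 h1
      · have e3 : ∑ i, θ i * (![s, θ 0] : Fin 2 → K) i ^ 2 = θ 0 * s ^ 2 + θ 1 * θ 0 ^ 2 := by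
          rw [Fin.sum_univ_two]
          rfl
        refine Eq.trans e3 ?_
        linear_combination (- θ 0) * hs
    | 1, θ, hθ, hdisc, hiso =>
      have hsq : IsSquare (θ 0 * θ 1 * θ 2 * θ 3) := by
        have e : ∏ i, θ i = θ 0 * θ 1 * θ 2 * θ 3 := Fin.prod_univ_four θ
        rw [e] at hdisc
        obtain ⟨s, hs⟩ := hdisc
        exact ⟨s, by linear_combination hs⟩
      obtain ⟨l, x, y, hl, hx, hy', hcd⟩ := exists_qn (θ := θ) hθ hsq
      have han : ∀ z : Fin 4 → K, z ≠ 0 → ∑ i, θ i * z i ^ 2 ≠ 0 := fun z hz h =>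
        hiso ⟨z, hz, h⟩
      -- the form of rank eight is isotropic
      have h8 : Isot (Sum.elim θ fun i => -(a * θ i) : Fin 4 ⊕ Fin 4 → K) := by
        let f : Fin 5 → Fin 4 ⊕ Fin 4 := Fin.cons (Sum.inr 0) Sum.inl
        have hf : Function.Injective f := by
          rw [Fin.cons_injective_iff]
          refine ⟨?_, Sum.inl_injective⟩
          rintro ⟨i, hi⟩
          exact absurd hi (by simp)
        refine Isot.of_comp f hf (h5 _ fun i => ?_)
        rcases f i with j | j
        · exact hθ j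
        · exact neg_ne_zero.mpr (mul_ne_zero ha (hθ j))
      obtain ⟨z, hz, hz0⟩ := h8
      rw [Fintype.sum_sum_type] at hz0
      simp only [Sum.elim_inl, Sum.elim_inr] at hz0
      have hz1 : ∑ i, θ i * z (Sum.inl i) ^ 2 = a * ∑ i, θ i * z (Sum.inr i) ^ 2 := by
        rw [Finset.mul_sum]
        have e4 : ∑ i : Fin 4, -(a * θ i) * z (Sum.inr i) ^ 2 =
            - ∑ i : Fin 4, a * (θ i * z (Sum.inr i) ^ 2) := by
          rw [← Finset.sum_neg_distrib]
          exact Finset.sum_congr rfl fun i _ => by ring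
        have hz2 : ∑ i : Fin 4, θ i * z (Sum.inl i) ^ 2 +
            ∑ i : Fin 4, -(a * θ i) * z (Sum.inr i) ^ 2 = 0 := hz0
        rw [e4] at hz2
        exact add_neg_eq_zero.mp hz2
      have hw : ∑ i : Fin 4, θ i * z (Sum.inr i) ^ 2 ≠ 0 := by
        intro h0
        have hu0 : (fun i : Fin 4 => z (Sum.inl i)) = 0 := by
          by_contra hne
          apply han _ hne
          have hz3 : ∑ i : Fin 4, θ i * z (Sum.inl i) ^ 2 = a * ∑ i : Fin 4, θ i * z (Sum.inr i) ^ 2 :=
            hz1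
          rw [h0, mul_zero] at hz3
          exact hz3
        have hw0 : (fun i : Fin 4 => z (Sum.inr i)) = 0 := by
          by_contra hne
          exact han _ hne h0
        apply hz
        funext i
        rcases i with i | i
        · exact congrFun hu0 i
        · exact congrFun hw0 i
      have hu : ∑ i : Fin 4, θ i * z (Sum.inl i) ^ 2 ≠ 0 := by
        have hz3 : ∑ i : Fin 4, θ i * z (Sum.inl i) ^ 2 = a * ∑ i : Fin 4, θ i * z (Sum.inr i) ^ 2 :=
          hz1
        rw [hz3]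
        exact mul_ne_zero ha hw
      -- values of the norm form
      have hval : ∀ t : Fin 4 → K, Reps (qn x y) ((∑ i, θ i * t i ^ 2) / l) := by
        intro t
        have h1 : Reps (fun i => l * qn x y i) (∑ i, θ i * t i ^ 2) := CD.reps hcd ⟨t, rfl⟩
        obtain ⟨v, hv⟩ := h1
        refine ⟨v, ?_⟩
        rw [← hv, eq_div_iff hl, Finset.sum_mul]
        exact Finset.sum_congr rfl fun i _ => by ring
      have hRa : Reps (qn x y) a := by
        have h1 := qn_div hx hy' (div_ne_zero hu hl) (div_ne_zero hw hl)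
          (hval fun i => z (Sum.inl i)) (hval fun i => z (Sum.inr i))
        have h2 : (∑ i : Fin 4, θ i * z (Sum.inl i) ^ 2) / l /
            ((∑ i : Fin 4, θ i * z (Sum.inr i) ^ 2) / l) = a := by
          have hz3 : ∑ i : Fin 4, θ i * z (Sum.inl i) ^ 2 =
            a * ∑ i : Fin 4, θ i * z (Sum.inr i) ^ 2 := hz1
          rw [hz3]
          field_simp
        rw [← h2]
        exact h1
      have hround := qn_round hx hy' ha hRa
      -- `a θ ≅ θ`
      have h1 : CD (fun i : Fin 4 => a * θ i) θ := by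
        refine (t3_smul a hcd).trans ?_
        have e5 : (fun i => a * (l * qn x y i)) = fun i => l * (a * qn x y i) := by
          funext i; ring
        rw [e5]
        exact (t3_smul l hround).trans hcd.symm
      have h2 : CD (fun i : Fin 4 => -(a * θ i)) (fun i : Fin 4 => -(θ i)) := by
        have h3 := t3_smul (-1) h1
        simp only [neg_mul, one_mul] at h3
        exact h3
      exact ((CD.refl θ).add h2).trans (cd_self hθ)
    | r + 2, θ, hθ, hdisc, hiso =>
      exfalso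
      apply hiso
      exact Isot.of_comp (Fin.castLE (by omega : 5 ≤ 2 * (r + 2 + 1))) (Fin.castLE_injective _)
        (h5 _ fun i => hθ _)

end Pool.Agent.Lib.MP_12adaf_nt.HM
end

section

/-!
# The local computation at the odd places
-/

namespace Pool.Agent.Lib.MP_12adaf_nt.HM

open TF Matrix

variable {K : Type*} [Field K] [CharZero K]

/-- **Job T7.** The local computation.

Write `-f` for the form with coefficients `-(f i)`. Given `b ⊥ -p ⊥ -q ≅ hy (4 l + 2) ⊥ ρ` with
`ρ = μ <1, -D> ⊗ <1, -a>`, `p, q` of rank `m = 2 l + 2` and `D = (-1)^(l+1) det q` up to squares,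
over a field where forms of rank five are isotropic, `b ≅ p ⊥ a q`.

Proof. Let `X := b ⊥ -p ⊥ -(a q)`. Then
`X ⊥ (q ⊥ -q) ≅ (b ⊥ -p ⊥ -q) ⊥ (q ⊥ -(a q)) ≅ hy (4 l + 2) ⊥ ρ ⊥ q ⊥ -(a q)`, and
`ρ ⊥ q ⊥ -(a q) ≅ θ ⊥ -(a θ)` with `θ := <μ, -D μ> ⊥ q` of rank `2 l + 4 = 2 (l + 2)` and signed
discriminant `(-1)^(l+2) (-D μ²) det q = (-1)^(l+1) D det q μ²`, a square. By T3
`θ ⊥ -(a θ) ≅ hy (2 l + 4)`. So `X ⊥ hy (2 l + 2) ≅ hy (6 l + 6)` (`cd_self` for `q`), and by
cancellation (`CD.cancel`, `cd_hy_add`) `X ≅ hy (4 l + 4) ≅ (p ⊥ a q) ⊥ -(p ⊥ a q)` (`cd_self'`),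
and cancelling `-p ⊥ -(a q)` we get `b ≅ p ⊥ a q`. -/
theorem local_twist (h5 : ∀ a : Fin 5 → K, (∀ i, a i ≠ 0) → Isot a) {l : ℕ}
    {p q : Fin (2 * l + 2) → K} (hp : ∀ i, p i ≠ 0) (hq : ∀ i, q i ≠ 0) {ι : Type*} [Fintype ι]
    [DecidableEq ι] {b : ι → K} (hb : ∀ i, b i ≠ 0) {D μ a c : K} (hD : D ≠ 0) (hμ : μ ≠ 0)
    (ha : a ≠ 0) (hc : c ≠ 0) (hdisc : D = (-1) ^ (l + 1) * (∏ i, q i) * c ^ 2)
    (h : CD (Sum.elim b (Sum.elim (fun i => -(p i)) fun i => -(q i)))
      (Sum.elim (hy (4 * l + 2)) (![μ, -(D * μ), -(μ * a), D * (μ * a)] : Fin 4 → K))) :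
    CD b (Sum.elim p fun i => a * q i) := by
  classical
  -- the form `θ`
  let e1 : Fin (2 * (l + 2)) ≃ Fin 2 ⊕ Fin (2 * l + 2) :=
    (finCongr (by ring : 2 * (l + 2) = 2 + (2 * l + 2))).trans finSumFinEquiv.symm
  let θ' : Fin 2 ⊕ Fin (2 * l + 2) → K := Sum.elim ![μ, -(D * μ)] q
  let θ : Fin (2 * (l + 2)) → K := fun i => θ' (e1 i)
  have hθ' : ∀ i, θ' i ≠ 0 := by
    rintro (i | i)
    · fin_cases i
      · simpa [θ'] using hμ
      · simpa [θ'] using ⟨hD, hμ⟩
    · simpa [θ'] using hq i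
  have hθ : ∀ i, θ i ≠ 0 := fun i => hθ' _
  have hprod : ∏ i, θ i = (μ * -(D * μ)) * ∏ i, q i := by
    have h1 : ∏ i, θ i = ∏ i, θ' i := Fintype.prod_equiv e1 _ _ (fun i => rfl)
    rw [h1, Fintype.prod_sum_type]
    simp [θ', Fin.prod_univ_two]
  have hsq : IsSquare ((-1) ^ (l + 2) * ∏ i, θ i) := by
    rw [hprod]
    refine ⟨D * μ * c⁻¹, ?_⟩
    have hq2 : (-1) ^ (l + 1) * ∏ i, q i = D * (c⁻¹) ^ 2 := by
      rw [hdisc]; field_simp
    have : (-1) ^ (l + 2) * (μ * -(D * μ) * ∏ i, q i)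
        = D * μ ^ 2 * ((-1) ^ (l + 1) * ∏ i, q i) := by ring
    rw [this, hq2]; ring
  have hT3 := triple_hyp h5 (l + 2) hθ hsq ha
  -- `ρ ⊥ q ⊥ -(a q) ≅ θ ⊥ -(a θ)`
  have hθ2 : CD (Sum.elim (![μ, -(D * μ), -(μ * a), D * (μ * a)] : Fin 4 → K)
      (Sum.elim q fun i => -(a * q i))) (Sum.elim θ fun i => -(a * θ i)) := by
    have h1 : CD (Sum.elim θ' fun i => -(a * θ' i)) (Sum.elim θ fun i => -(a * θ i)) :=
      CD.add (CD.reindex _ e1) (CD.reindex (fun i => -(a * θ' i)) e1)
    refine CD.trans ?_ h1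
    let e2 : ((Fin 2 ⊕ Fin (2 * l + 2)) ⊕ (Fin 2 ⊕ Fin (2 * l + 2))) ≃
        (Fin 4 ⊕ (Fin (2 * l + 2) ⊕ Fin (2 * l + 2))) :=
      (Equiv.sumSumSumComm (Fin 2) (Fin (2 * l + 2)) (Fin 2) (Fin (2 * l + 2))).trans
        (Equiv.sumCongr (finSumFinEquiv (m := 2) (n := 2)) (Equiv.refl _))
    have h2 := CD.reindex (Sum.elim (![μ, -(D * μ), -(μ * a), D * (μ * a)] : Fin 4 → K)
      (Sum.elim q fun i => -(a * q i))) e2
    refine h2.trans ?_
    have : (fun i => Sum.elim (![μ, -(D * μ), -(μ * a), D * (μ * a)] : Fin 4 → K)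
      (Sum.elim q fun i => -(a * q i)) (e2 i)) = Sum.elim θ' fun i => -(a * θ' i) := by
      ext i
      rcases i with (i | i) | (i | i)
      · fin_cases i <;> simp [e2, θ'] <;> rfl
      · simp [e2, θ']
      · fin_cases i
        · simp [e2, θ']
          show -(μ * a) = -(a * μ)
          ring
        · simp [e2, θ']
          show D * (μ * a) = a * (D * μ)
          ring
      · simp [e2, θ']
    rw [this]
    exact CD.refl _
  have hρ := hθ2.trans hT3
  -- the big computation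
  set np : Fin (2 * l + 2) → K := fun i => -(p i) with hnp
  set nq : Fin (2 * l + 2) → K := fun i => -(q i) with hnq
  set naq : Fin (2 * l + 2) → K := fun i => -(a * q i) with hnaq
  set ρ : Fin 4 → K := ![μ, -(D * μ), -(μ * a), D * (μ * a)] with hρdef
  have hX : CD (Sum.elim (hy (2 * l + 2)) (Sum.elim b (Sum.elim np naq)))
      (Sum.elim (hy (2 * l + 2)) (hy (4 * l + 4))) := by
    have s1 : CD (Sum.elim (hy (2 * l + 2)) (Sum.elim b (Sum.elim np naq)))
        (Sum.elim (Sum.elim q nq) (Sum.elim b (Sum.elim np naq))) :=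
      CD.add (cd_self hq).symm (CD.refl _)
    have s2 : CD (Sum.elim (Sum.elim q nq) (Sum.elim b (Sum.elim np naq)))
        (Sum.elim (Sum.elim b (Sum.elim np nq)) (Sum.elim q naq)) := by
      let e3 : ((ι ⊕ (Fin (2 * l + 2) ⊕ Fin (2 * l + 2))) ⊕ (Fin (2 * l + 2) ⊕ Fin (2 * l + 2)))
          ≃ ((Fin (2 * l + 2) ⊕ Fin (2 * l + 2)) ⊕ (ι ⊕ (Fin (2 * l + 2) ⊕ Fin (2 * l + 2)))) :=
        { toFun := fun x => match x with
            | Sum.inl (Sum.inl i) => Sum.inr (Sum.inl i)
            | Sum.inl (Sum.inr (Sum.inl i)) => Sum.inr (Sum.inr (Sum.inl i))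
            | Sum.inl (Sum.inr (Sum.inr i)) => Sum.inl (Sum.inr i)
            | Sum.inr (Sum.inl i) => Sum.inl (Sum.inl i)
            | Sum.inr (Sum.inr i) => Sum.inr (Sum.inr (Sum.inr i))
          invFun := fun x => match x with
            | Sum.inr (Sum.inl i) => Sum.inl (Sum.inl i)
            | Sum.inr (Sum.inr (Sum.inl i)) => Sum.inl (Sum.inr (Sum.inl i))
            | Sum.inl (Sum.inr i) => Sum.inl (Sum.inr (Sum.inr i))
            | Sum.inl (Sum.inl i) => Sum.inr (Sum.inl i)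
            | Sum.inr (Sum.inr (Sum.inr i)) => Sum.inr (Sum.inr i)
          left_inv := by rintro ((i | (i | i)) | (i | i)) <;> rfl
          right_inv := by rintro ((i | i) | (i | (i | i))) <;> rfl }
      have h3 := CD.reindex (Sum.elim (Sum.elim q nq) (Sum.elim b (Sum.elim np naq))) e3
      refine h3.trans ?_
      have : (fun i => Sum.elim (Sum.elim q nq) (Sum.elim b (Sum.elim np naq)) (e3 i))
          = Sum.elim (Sum.elim b (Sum.elim np nq)) (Sum.elim q naq) := by
        ext i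
        rcases i with (i | (i | i)) | (i | i) <;> rfl
      rw [this]
      exact CD.refl _
    have s3 : CD (Sum.elim (Sum.elim b (Sum.elim np nq)) (Sum.elim q naq))
        (Sum.elim (Sum.elim (hy (4 * l + 2)) ρ) (Sum.elim q naq)) :=
      CD.add h (CD.refl _)
    have s4 : CD (Sum.elim (Sum.elim (hy (4 * l + 2)) ρ) (Sum.elim q naq))
        (Sum.elim (hy (4 * l + 2)) (hy (2 * (l + 2)))) :=
      (CD.assoc _ _ _).trans (CD.add (CD.refl _) hρ)
    have s5 : CD (Sum.elim (hy (4 * l + 2)) (hy (2 * (l + 2)) : _ → K))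
        (Sum.elim (hy (2 * l + 2)) (hy (4 * l + 4))) := by
      have t1 := cd_hy_add (K := K) (4 * l + 2) (2 * (l + 2))
      have t2 := cd_hy_add (K := K) (2 * l + 2) (4 * l + 4)
      have e4 : 4 * l + 2 + 2 * (l + 2) = 2 * l + 2 + (4 * l + 4) := by ring
      rw [e4] at t1
      exact t1.trans t2.symm
    exact (((s1.trans s2).trans s3).trans s4).trans s5
  have hX2 := CD.cancel (fun i => hy_ne_zero _ i) hX
  -- `(p ⊥ a q) ⊥ -(p ⊥ a q)`
  have hY : CD (Sum.elim (Sum.elim p fun i => a * q i) (Sum.elim np naq)) (hy (4 * l + 4)) := by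
    have t1 := cd_self' (a := Sum.elim p fun i => a * q i) (by
      rintro (i | i)
      · exact hp i
      · exact mul_ne_zero ha (hq i))
    have e5 : Fintype.card (Fin (2 * l + 2) ⊕ Fin (2 * l + 2)) = 4 * l + 4 := by
      simp; ring
    rw [e5] at t1
    have e6 : (fun i => -((Sum.elim p fun i => a * q i) i)) = Sum.elim np naq := by
      ext i
      rcases i with i | i <;> rfl
    rw [e6] at t1
    exact t1
  have hfin : CD (Sum.elim (Sum.elim np naq) b)
      (Sum.elim (Sum.elim np naq) (Sum.elim p fun i => a * q i)) :=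
    ((CD.comm _ _).trans (hX2.trans hY.symm)).trans (CD.comm _ _)
  refine CD.cancel ?_ hfin
  rintro (i | i)
  · exact neg_ne_zero.mpr (hp i)
  · exact neg_ne_zero.mpr (mul_ne_zero ha (hq i))

end Pool.Agent.Lib.MP_12adaf_nt.HM
end

section

/-!
# Twisting over a number field
-/

namespace Pool.Agent.Lib.MP_12adaf_nt.HM

open NumberField IsDedekindDomain IsDedekindDomain.HeightOneSpectrum TF Matrix

variable {k : Type*} [Field k] [NumberField k]

/-- a small bound below finitely many positive bounds -/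
private lemma t8_min {α : Type*} (S : Finset α) (δ : α → ℝ) (hδ : ∀ i, 0 < δ i) {ε : ℝ}
    (hε : 0 < ε) : ∃ η : ℝ, 0 < η ∧ η ≤ ε ∧ ∀ i ∈ S, η ≤ δ i := by
  classical
  induction S using Finset.induction_on with
  | empty => exact ⟨ε, hε, le_rfl, by simp⟩
  | insert j T _ ih =>
    obtain ⟨η, h1, h2, h3⟩ := ih
    refine ⟨min η (δ j), lt_min h1 (hδ j), (min_le_left _ _).trans h2, ?_⟩
    intro i hi
    rcases Finset.mem_insert.1 hi with rfl | hi
    · exact min_le_right _ _
    · exact (min_le_left _ _).trans (h3 i hi)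

/-- transporting the rank of a hyperbolic form -/
private lemma t8_hy {K : Type*} [Field K] {ι : Type*} [Fintype ι] [DecidableEq ι] {a : ι → K}
    {r s : ℕ} (h : r = s) (hc : CD a (hy r)) : CD a (hy s) := by
  subst h
  exact hc

private lemma t8_neg {K : Type*} [Field K] {α β : Type*} (p : α → K) (q : β → K) :
    Sum.elim (fun i => -(p i)) (fun i => -(q i)) = fun j => -(Sum.elim p q j) := by
  funext j
  rcases j with j | j <;> rfl

private lemma t8_map {K L : Type*} [Field K] [Field L] (φ : K →+* L) {α β : Type*} (p : α → K)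
    (q : β → K) : (fun j => φ (Sum.elim p q j)) = Sum.elim (fun i => φ (p i)) fun i => φ (q i) := by
  funext j
  rcases j with j | j <;> rfl

private lemma t8_map_hy {K L : Type*} [Field K] [Field L] (φ : K →+* L) (r : ℕ) :
    (fun j => φ (hy r j)) = (hy r : _ → L) := by
  funext j
  rcases j with j | j <;> simp [hy]

/-- the difference form is hyperbolic where the forms are isometric -/
private lemma t8_diff {K : Type*} [Field K] [CharZero K] {ι : Type*} [Fintype ι] [DecidableEq ι]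
    {l : ℕ} {p q : Fin (2 * l + 2) → K} (hp : ∀ i, p i ≠ 0) (hq : ∀ i, q i ≠ 0) {b : ι → K}
    (h : CD (Sum.elim p q) b) :
    CD (Sum.elim b (Sum.elim (fun i => -(p i)) fun i => -(q i))) (hy (4 * l + 2 + 2)) := by
  rw [t8_neg]
  have h1 : CD (Sum.elim b fun j => -(Sum.elim p q j))
      (Sum.elim (Sum.elim p q) fun j => -(Sum.elim p q j)) := h.symm.add (CD.refl _)
  have h2 := cd_self' (a := Sum.elim p q) (by
    rintro (i | i)
    · exact hp i
    · exact hq i)
  refine t8_hy ?_ (h1.trans h2)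
  simp only [Fintype.card_sum, Fintype.card_fin]
  omega

private lemma t8_vec {K L : Type*} [Field K] [Field L] (φ : K →+* L) (D μ a : K) :
    (fun j => φ ((![μ, -(D * μ), -(μ * a), D * (μ * a)] : Fin 4 → K) j)) =
      ![φ μ, -(φ D * φ μ), -(φ μ * φ a), φ D * (φ μ * φ a)] := by
  funext j
  fin_cases j <;> simp

/-- the difference form is hyperbolic after embeddings where the forms are isometric -/
private lemma t8_xi {K L : Type*} [Field K] [CharZero K] [Field L] [CharZero L] (φ : K →+* L)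
    {ι κ : Type*} [Fintype ι] [DecidableEq ι] [Fintype κ] [DecidableEq κ] {l : ℕ}
    {p q : Fin (2 * l + 2) → K} (hp : ∀ i, p i ≠ 0) (hq : ∀ i, q i ≠ 0) {b : ι → K} {ξ' : κ → K}
    (hcong : CD (Sum.elim b (Sum.elim (fun i => -(p i)) fun i => -(q i))) ξ')
    (h : CD (fun j => φ (Sum.elim p q j)) fun j => φ (b j)) :
    CD (fun j => φ (ξ' j)) (hy (4 * l + 2 + 2)) := by
  have h1 := (hcong.map φ).symm
  refine h1.trans ?_
  have h3 : (fun j => φ (Sum.elim b (Sum.elim (fun i => -(p i)) fun i => -(q i)) j)) =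
      Sum.elim (fun j => φ (b j)) (Sum.elim (fun i => -(φ (p i))) fun i => -(φ (q i))) := by
    funext j
    rcases j with j | j | j
    · rfl
    · exact map_neg φ _
    · exact map_neg φ _
  rw [h3]
  rw [t8_map] at h
  exact t8_diff (fun i => by simpa using hp i) (fun i => by simpa using hq i) h

/-- the quaternary part is hyperbolic after embeddings where the forms are isometric -/
private lemma t8_rho {K L : Type*} [Field K] [CharZero K] [Field L] [CharZero L] (φ : K →+* L)
    {ι κ : Type*} [Fintype ι] [DecidableEq ι] [Fintype κ] [DecidableEq κ] {l : ℕ}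
    {p q : Fin (2 * l + 2) → K} (hp : ∀ i, p i ≠ 0) (hq : ∀ i, q i ≠ 0) {b : ι → K} {ξ' : κ → K}
    (hcong : CD (Sum.elim b (Sum.elim (fun i => -(p i)) fun i => -(q i))) ξ')
    {ρ : Fin 4 → K} (hcρ : CD ξ' (Sum.elim (hy (4 * l + 2)) ρ))
    (h : CD (fun j => φ (Sum.elim p q j)) fun j => φ (b j)) :
    CD (fun j => φ (ρ j)) (hy 2) := by
  have h1 := t8_xi φ hp hq hcong h
  have h3 := hcρ.map φ
  rw [t8_map, t8_map_hy] at h3
  have h4 : CD (Sum.elim (hy (4 * l + 2)) (hy 2) : _ → L) (hy (4 * l + 2 + 2)) := cd_hy_add _ _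
  exact CD.cancel (fun j => hy_ne_zero _ j) ((h3.symm.trans h1).trans h4.symm)

/-- **Job T8.** The twisting theorem.

Let `b`, `p`, `q` be diagonal forms over the number field `k`, `p`, `q` of even rank `m = 2 l + 2`,
`D` the signed discriminant of `q`, not a square, `det b = det p det q` up to squares, `b ≅ p ⊥ q`
at the places of `S` (containing the infinite and the dyadic places) and over `E = k(√D)`. Then there
is `a` close to `1` at the places of `S` with `p ⊥ a q ≅ b` over `k`.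

Proof. Let `ξ := b ⊥ -p ⊥ -q`, of rank `8 l + 8 = 2 (4 l + 2) + 4`, with square determinant.
At `i ∈ S`: `ξ ≅ p ⊥ q ⊥ -(p ⊥ q) ≅ hy (4 l + 4)`; over `E` too. By T4 (reindex `ξ`)
`ξ ≅ hy (4 l + 2) ⊥ ρ`, `ρ` quaternary with square determinant (`(-1)^(4 l + 2) = 1`), and by
cancellation `ρ ≅ hy 2` at `i ∈ S` and over `E`.
If `ρ` is isotropic then `ρ ≅ hy 2` (`cd_hy_of_isot_four`), `ξ ≅ hy (4 l + 4)
≅ (p ⊥ q) ⊥ -(p ⊥ q)`, and cancelling `-p ⊥ -q`: `b ≅ p ⊥ q`: take `a = 1`.
Otherwise T5: `ρ ≅ ![μ, -(D μ), -(μ a₀), D μ a₀]`, and `NF D a₀` at `i ∈ S` (`nf_of_isot`, `ρ` is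
isotropic at `i`). By T6 there is `n ≠ 0` with `NF D n` and `a := a₀ n` close to `1` at `S`; closer
than `ε` and than the `δ` of `exists_near_one_sq` for all `i ∈ S`. `cd_quat_mul`:
`ρ ≅ ![μ, -(D μ), -(μ a), D μ a]`.
Local isometry `p ⊥ a q ≅ b` at every place `i`: for `i ∈ S`, `a` is a nonzero square at `i`, so
`p ⊥ a q ≅ p ⊥ q ≅ b` (`CD.mul_sq`). For `i ∉ S`, `i` is a finite place `w` with
`w.valuation 2 = 1`, and T7 applies in the completion (`isot_fin_five`; map the isometry
`ξ ≅ hy (4 l + 2) ⊥ ρ` to the completion). By `cd_of_local'` `p ⊥ a q ≅ b` over `k`. -/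
theorem twist {S : Finset (Pl k)} (hinf : ∀ v : InfinitePlace k, Sum.inl v ∈ S)
    (h2 : ∀ w : HeightOneSpectrum (𝓞 k), Sum.inr w ∉ S → w.valuation k 2 = 1) {l : ℕ}
    {p q : Fin (2 * l + 2) → k} (hp : ∀ i, p i ≠ 0) (hq : ∀ i, q i ≠ 0) {ι : Type*} [Fintype ι]
    [DecidableEq ι] {b : ι → k} (hb : ∀ i, b i ≠ 0) {D c c' : k} (hD0 : D ≠ 0)
    (hD : ¬ IsSquare D) (hc : c ≠ 0) (hdisc : D = (-1) ^ (l + 1) * (∏ i, q i) * c ^ 2)
    (hc' : c' ≠ 0) (hdet : ∏ i, b i = (∏ i, p i) * (∏ i, q i) * c' ^ 2)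
    (hS : ∀ i ∈ S, CD (fun j => plEmb k i (Sum.elim p q j)) fun j => plEmb k i (b j))
    {E : Type*} [Field E] [NumberField E] [Algebra k E] (Q : QExt k E D)
    (hE : CD (fun j => algebraMap k E (Sum.elim p q j)) fun j => algebraMap k E (b j))
    {ε : ℝ} (hε : 0 < ε) :
    ∃ a : k, a ≠ 0 ∧ (∀ i ∈ S, ‖plEmb k i a - 1‖ < ε) ∧
      CD (Sum.elim p fun j => a * q j) b := by
  classical
  -- the difference form
  have hpq : ∀ j, Sum.elim p q j ≠ 0 := by
    rintro (i | i)
    · exact hp i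
    · exact hq i
  have hcard : Fintype.card ι = 4 * l + 4 := by
    obtain ⟨M, M', h1, h2', -⟩ := hE
    have := Matrix.square_of_invertible M M' h1 h2'
    rw [← this]
    simp only [Fintype.card_sum, Fintype.card_fin]
    omega
  let ξ : ι ⊕ (Fin (2 * l + 2) ⊕ Fin (2 * l + 2)) → k :=
    Sum.elim b (Sum.elim (fun i => -(p i)) fun i => -(q i))
  have hξ : ∀ j, ξ j ≠ 0 := by
    rintro (i | i | i)
    · exact hb i
    · exact neg_ne_zero.2 (hp i)
    · exact neg_ne_zero.2 (hq i)
  let e : Fin (2 * (4 * l + 2) + 4) ≃ ι ⊕ (Fin (2 * l + 2) ⊕ Fin (2 * l + 2)) :=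
    Fintype.equivOfCardEq (by
      simp only [Fintype.card_sum, Fintype.card_fin, hcard]
      omega)
  let ξ' : Fin (2 * (4 * l + 2) + 4) → k := fun j => ξ (e j)
  have hξ' : ∀ j, ξ' j ≠ 0 := fun j => hξ _
  have hcong : CD ξ ξ' := CD.reindex ξ e
  obtain ⟨ρ, hρ, hcρ⟩ := split_global hinf h2 (4 * l + 2) hξ' fun i hi => by
    have := t8_xi (plEmb k i) hp hq hcong (hS i hi)
    exact this
  -- its determinant is a square
  have hsq : IsSquare (∏ i, ρ i) := by
    obtain ⟨c₁, hc₁, h3⟩ := Cong.det_eq (hcong.trans hcρ)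
    rw [det_diagonal, det_diagonal, Fintype.prod_sum_type] at h3
    have h4 : ∏ i, (hy (4 * l + 2) i : k) = 1 := by
      rw [Fintype.prod_sum_type]
      simp only [hy, Sum.elim_inl, Sum.elim_inr, Finset.prod_const_one, Finset.prod_const,
        Finset.card_univ, Fintype.card_fin, one_mul]
      exact Even.neg_one_pow ⟨2 * l + 1, by ring⟩
    simp only [Sum.elim_inl, Sum.elim_inr] at h3
    rw [h4, one_mul] at h3
    have h5 : ∏ j, ξ j = (∏ i, b i) * ((∏ i, p i) * (∏ i, q i)) := by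
      show ∏ j, Sum.elim b (Sum.elim (fun i => -(p i)) fun i => -(q i)) j = _
      rw [Fintype.prod_sum_type, Fintype.prod_sum_type]
      simp only [Sum.elim_inl, Sum.elim_inr]
      rw [Finset.prod_neg, Finset.prod_neg]
      simp only [Finset.card_univ, Fintype.card_fin]
      have h6 : (-1 : k) ^ (2 * l + 2) = 1 := Even.neg_one_pow ⟨l + 1, by ring⟩
      rw [h6, one_mul, one_mul]
    rw [h5, hdet] at h3
    exact ⟨(∏ i, p i) * (∏ i, q i) * c' * c₁, by rw [h3]; ring⟩
  by_cases hiso : Isot ρ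
  · -- `b ≅ p ⊥ q`
    refine ⟨1, one_ne_zero, fun i _ => by rw [map_one, sub_self, norm_zero]; exact hε, ?_⟩
    have h3 := cd_hy_of_isot_four hρ hsq hiso
    have h4 : CD (Sum.elim (hy (4 * l + 2)) ρ) (hy (4 * l + 2 + 2)) :=
      ((CD.refl _).add h3).trans (cd_hy_add _ _)
    have h5 : CD ξ (hy (4 * l + 2 + 2)) := (hcong.trans hcρ).trans h4
    have h6 : CD (Sum.elim (Sum.elim p q) fun j => -(Sum.elim p q j)) (hy (4 * l + 2 + 2)) :=
      t8_hy (by simp only [Fintype.card_sum, Fintype.card_fin]; omega) (cd_self' hpq)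
    have h7 : ξ = Sum.elim b fun j => -(Sum.elim p q j) := by
      show Sum.elim b (Sum.elim (fun i => -(p i)) fun i => -(q i)) = _
      rw [t8_neg]
    rw [h7] at h5
    have h8 : CD (Sum.elim (fun j => -(Sum.elim p q j)) (Sum.elim p q))
        (Sum.elim (fun j => -(Sum.elim p q j)) b) :=
      (CD.comm _ _).trans ((h6.trans h5.symm).trans (CD.comm _ _))
    have h9 := CD.cancel (fun j => neg_ne_zero.2 (hpq j)) h8
    simpa using h9
  · have hEρ := t8_rho (algebraMap k E) hp hq hcong hcρ hE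
    have hLiso : Isot fun i => algebraMap k E (ρ i) := CD.isot hEρ.symm (isot_hy 1)
    obtain ⟨μ, a₀, hμ, ha₀, hρa⟩ := exists_quat hD0 hD Q hρ hsq hiso hLiso
    have hNF : ∀ i ∈ S, NF (plEmb k i D) (plEmb k i a₀) := by
      intro i hi
      have h3 := t8_rho (plEmb k i) hp hq hcong hcρ (hS i hi)
      have h4 := hρa.map (plEmb k i)
      rw [t8_vec] at h4
      have h5 : Isot (![plEmb k i μ, -(plEmb k i D * plEmb k i μ), -(plEmb k i μ * plEmb k i a₀),
          plEmb k i D * (plEmb k i μ * plEmb k i a₀)] : Fin 4 → PlC k i) :=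
        CD.isot (h3.symm.trans h4) (isot_hy 1)
      exact nf_of_isot (by simpa using hD0) (by simpa using hμ) (by simpa using ha₀) h5
    choose δ hδ hδ' using fun i : Pl k => exists_near_one_sq i
    obtain ⟨η, hη, hηε, hηδ⟩ := t8_min S δ hδ hε
    obtain ⟨n, hn, hnN, hnear⟩ := exists_norm_near S ha₀ hNF hη
    have hρn : CD ρ ![μ, -(D * μ), -(μ * (a₀ * n)), D * (μ * (a₀ * n))] :=
      hρa.trans (cd_quat_mul hD0 hμ ha₀ hn hnN)
    refine ⟨a₀ * n, mul_ne_zero ha₀ hn, fun i hi => (hnear i hi).trans_le hηε, ?_⟩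
    have hne : ∀ j, Sum.elim p (fun j => a₀ * n * q j) j ≠ 0 := by
      rintro (j | j)
      · exact hp j
      · exact mul_ne_zero (mul_ne_zero ha₀ hn) (hq j)
    refine cd_of_local' hne hb fun i => ?_
    rw [t8_map]
    by_cases hi : i ∈ S
    · obtain ⟨y, hy0, hy⟩ := hδ' i (plEmb k i (a₀ * n)) ((hnear i hi).trans_le (hηδ i hi))
      have h3 := hS i hi
      rw [t8_map] at h3
      refine CD.trans ?_ h3
      refine (CD.refl _).add ?_
      have h4 := (CD.mul_sq (fun j => plEmb k i (q j)) (fun _ => y) fun _ => hy0).symm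
      have h5 : (fun j => plEmb k i (a₀ * n * q j)) = fun j => plEmb k i (q j) * y ^ 2 := by
        funext j
        rw [map_mul, hy, mul_comm]
      rw [h5]
      exact h4
    · rcases i with v | w
      · exact absurd (hinf v) hi
      · have h3 := (hcong.trans (hcρ.trans ((CD.refl _).add hρn))).map (plEmb k (Sum.inr w))
        have h4 : (fun j => plEmb k (Sum.inr w) (ξ j)) = Sum.elim (fun j => plEmb k (Sum.inr w) (b j))
            (Sum.elim (fun i => -(plEmb k (Sum.inr w) (p i)))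
              fun i => -(plEmb k (Sum.inr w) (q i))) := by
          funext j
          rcases j with j | j | j
          · rfl
          · exact map_neg _ _
          · exact map_neg _ _
        rw [h4, t8_map, t8_map_hy, t8_vec] at h3
        have h5 : ∀ a : Fin 5 → PlC k (Sum.inr w), (∀ i, a i ≠ 0) → Isot a := fun a ha =>
          isot_fin_five (h2 w hi) (by simp) a ha
        have h6 := local_twist h5 (l := l) (p := fun i => plEmb k (Sum.inr w) (p i))
          (q := fun i => plEmb k (Sum.inr w) (q i)) (fun i => by simpa using hp i)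
          (fun i => by simpa using hq i) (b := fun i => plEmb k (Sum.inr w) (b i))
          (fun i => by simpa using hb i) (D := plEmb k (Sum.inr w) D)
          (μ := plEmb k (Sum.inr w) μ) (a := plEmb k (Sum.inr w) (a₀ * n))
          (c := plEmb k (Sum.inr w) c) (by simpa using hD0) (by simpa using hμ)
          (by simpa using mul_ne_zero ha₀ hn) (by simpa using hc) (by
            rw [hdisc]
            simp only [map_mul, map_pow, map_neg, map_one, map_prod]) h3
        have h7 : (fun j => plEmb k (Sum.inr w) (a₀ * n * q j)) =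
            fun j => plEmb k (Sum.inr w) (a₀ * n) * plEmb k (Sum.inr w) (q j) := by
          funext j
          rw [map_mul]
        rw [h7]
        exact h6.symm

end Pool.Agent.Lib.MP_12adaf_nt.HM
end
end
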