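import Mathlib
import Pool.Agent.Lib.MP_12adaf_nt.TF.OWeak
import Pool.Agent.Lib.MP_12adaf_nt.HM.Q02
import Pool.Agent.Lib.MP_12adaf_nt.HM.T8

section

/-!
# Unimodular forms over Henselian rings of odd residue characteristic
-/

namespace Pool.Agent.Lib.MP_12adaf_nt.HM

open IsLocalRing TF Matrix Polynomial

section DVR

variable {O K : Type*} [CommRing O] [IsDomain O] [IsDiscreteValuationRing O]
  [HenselianLocalRing O] [Finite (ResidueField O)] [Field K] [Algebra O K] [IsFractionRing O K]

/-- every unit form of rank two represents one -/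
private theorem c05_rep (h2 : IsUnit (2 : O)) (u v : Oˣ) :
    ∃ x y : O, (u : O) * x ^ 2 + v * y ^ 2 = 1 := by
  classical
  have : Fintype (ResidueField O) := Fintype.ofFinite _
  have h2' : (2 : ResidueField O) ≠ 0 := by
    have h := h2.map (residue O)
    rw [map_ofNat] at h
    exact h.ne_zero
  have hodd : Fintype.card (ResidueField O) % 2 = 1 := by
    refine FiniteField.odd_card_of_char_ne_two fun hc => h2' ?_
    have : CharP (ResidueField O) 2 := ringChar.of_eq hc
    exact_mod_cast CharP.cast_eq_zero (ResidueField O) 2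
  have hne : ∀ w : Oˣ, residue O (w : O) ≠ 0 := fun w => by
    have h := w.isUnit.map (residue O)
    exact h.ne_zero
  -- one coefficient at a time
  have key : ∀ (u v : Oˣ) (a b : ResidueField O), a ≠ 0 →
      residue O (u : O) * a ^ 2 + residue O (v : O) * b ^ 2 = 1 →
      ∃ x y : O, (u : O) * x ^ 2 + v * y ^ 2 = 1 := by
    intro u v a b ha hab
    obtain ⟨y, rfl⟩ := residue_surjective (R := O) b
    set t : O := ((u⁻¹ : Oˣ) : O) * (1 - v * y ^ 2) with ht
    have hres : residue O t = a ^ 2 := by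
      have hu1 : residue O ((u⁻¹ : Oˣ) : O) * residue O (u : O) = 1 := by
        rw [← map_mul, Units.inv_mul, map_one]
      rw [ht, map_mul, map_sub, map_one, map_mul, map_pow]
      have : 1 - residue O (v : O) * residue O y ^ 2 = residue O (u : O) * a ^ 2 := by
        rw [← hab]; ring
      rw [this, ← mul_assoc, hu1, one_mul]
    have htu : IsUnit t := by
      by_contra hn
      have h0 : residue O t = 0 := by
        rw [residue_eq_zero_iff, mem_maximalIdeal]
        exact hn
      rw [hres] at h0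
      exact ha (pow_eq_zero_iff (two_ne_zero) |>.1 h0)
    obtain ⟨w, hw⟩ := htu
    obtain ⟨x, hx⟩ := isSquare_of_residue h2 w ⟨a, by rw [hw, hres, pow_two]⟩
    refine ⟨x, y, ?_⟩
    have h3 : x ^ 2 = t := by rw [pow_two, ← hx, hw]
    rw [h3, ht, ← mul_assoc, Units.mul_inv, one_mul]
    ring
  obtain ⟨a, b, hab⟩ := FiniteField.exists_root_sum_quadratic
    (f := C (residue O (u : O)) * X ^ 2 - 1) (g := C (residue O (v : O)) * X ^ 2)
    (by
      have e1 : (C (residue O (u : O)) * X ^ 2 - 1 : (ResidueField O)[X]) =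
          C (residue O (u : O)) * X ^ 2 + C 0 * X + C (-1) := by simp [sub_eq_add_neg]
      rw [e1]
      exact degree_quadratic (hne u))
    (by
      have e1 : (C (residue O (v : O)) * X ^ 2 : (ResidueField O)[X]) =
          C (residue O (v : O)) * X ^ 2 + C 0 * X + C 0 := by simp
      rw [e1]
      exact degree_quadratic (hne v)) hodd
  simp only [eval_sub, eval_mul, eval_C, eval_pow, eval_X, eval_one] at hab
  have hab' : residue O (u : O) * a ^ 2 + residue O (v : O) * b ^ 2 = 1 := by
    linear_combination hab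
  by_cases ha : a = 0
  · have hb : b ≠ 0 := by
      rintro rfl
      rw [ha] at hab'
      simp at hab'
    obtain ⟨y, x, h⟩ := key v u b a hb (by rw [add_comm]; exact hab')
    exact ⟨x, y, by rw [add_comm]; exact h⟩
  · exact key u v a b ha hab'

private theorem c05_two (h2 : IsUnit (2 : O)) (u v : Oˣ) :
    Cong (osum (sq1 (u : O)) (sq1 (v : O))) (osum (sq1 (1 : O)) (sq1 ((u : O) * v))) := by
  obtain ⟨x, y, h⟩ := c05_rep h2 u v
  refine ⟨fromBlocks (sq1 x) (sq1 (-((v : O) * y))) (sq1 y) (sq1 ((u : O) * x)),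
    fromBlocks (sq1 ((u : O) * x)) (sq1 ((v : O) * y)) (sq1 (-y)) (sq1 x), ?_, ?_, ?_⟩
  · rw [fromBlocks_multiply, ← fromBlocks_one]
    simp only [sq1, diagonal_mul_diagonal, diagonal_add, ← diagonal_one]
    congr 1
    · congr 1; funext i; linear_combination h
    · rw [← diagonal_zero]; congr 1; funext i; ring
    · rw [← diagonal_zero]; congr 1; funext i; ring
    · congr 1; funext i; linear_combination h
  · rw [fromBlocks_multiply, ← fromBlocks_one]
    simp only [sq1, diagonal_mul_diagonal, diagonal_add, ← diagonal_one]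
    congr 1
    · congr 1; funext i; linear_combination h
    · rw [← diagonal_zero]; congr 1; funext i; ring
    · rw [← diagonal_zero]; congr 1; funext i; ring
    · congr 1; funext i; linear_combination h
  · rw [osum, osum, fromBlocks_transpose, fromBlocks_multiply, fromBlocks_multiply]
    simp only [sq1, diagonal_mul_diagonal, diagonal_add, diagonal_transpose, Matrix.mul_zero,
      zero_add, add_zero]
    congr 1
    · congr 1; funext i; linear_combination h
    · rw [← diagonal_zero]; congr 1; funext i; ring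
    · rw [← diagonal_zero]; congr 1; funext i; ring
    · congr 1; funext i; linear_combination ((u : O) * v) * h

private theorem c05_cons {R : Type*} [CommRing R] {n : ℕ} (u : Fin (n + 1) → R) :
    Cong (diagonal u) (osum (sq1 (u 0)) (diagonal fun i : Fin n => u i.succ)) := by
  have e : Fin 1 ⊕ Fin n ≃ Fin (n + 1) := finSumFinEquiv.trans (finCongr (by omega))
  let f : Fin 1 ⊕ Fin n ≃ Fin (n + 1) :=
    { toFun := Sum.elim (fun _ => 0) Fin.succ
      invFun := Fin.cases (Sum.inl 0) Sum.inr
      left_inv := by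
        rintro (i | i)
        · have : i = 0 := Subsingleton.elim _ _
          subst this; rfl
        · rfl
      right_inv := by
        intro i
        refine Fin.cases rfl (fun j => rfl) i }
  have h := Cong.diagonal_equiv u f
  refine h.trans (Cong.of_eq ?_)
  rw [sq1, osum_diagonal]
  congr 1
  funext i
  rcases i with i | i <;> rfl

/-- unimodular diagonal forms -/
private theorem c05_norm (h2 : IsUnit (2 : O)) (n : ℕ) (u : Fin (n + 1) → Oˣ) :
    Cong (diagonal fun i => (u i : O))
      (osum (diagonal fun _ : Fin n => (1 : O)) (sq1 (∏ i, (u i : O)))) := by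
  induction n with
  | zero =>
    refine (c05_cons _).trans ((Cong.osum_comm _ _).trans (Cong.of_eq ?_))
    congr 1
    · ext i
      exact i.elim0
    · simp
  | succ n ih =>
    refine (c05_cons _).trans ?_
    refine (Cong.osum (Cong.refl _) (ih fun i => u i.succ)).trans ?_
    -- `<u0> ⊥ (1 ⊥ <P>)` to `(1 ⊥ <P>) ⊥ <u0>` to `1 ⊥ (<P> ⊥ <u0>)`
    refine (Cong.osum_comm _ _).trans ((Cong.osum_assoc _ _ _).trans ?_)
    have hP : ((∏ i : Fin (n + 1), u i.succ : Oˣ) : O) = ∏ i : Fin (n + 1), (u i.succ : O) := by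
      rw [Units.coe_prod]
    rw [← hP]
    refine (Cong.osum (Cong.refl _) (c05_two h2 _ _)).trans ?_
    refine (Cong.osum_assoc _ _ _).symm.trans ?_
    refine Cong.osum ?_ (Cong.of_eq ?_)
    · refine (Cong.osum_comm _ _).trans (Cong.trans (Cong.of_eq ?_)
        (c05_cons (fun _ : Fin (n + 1) => (1 : O))).symm)
      rfl
    · rw [hP, Fin.prod_univ_succ (fun i => ((u i : Oˣ) : O)), mul_comm]

/-- **Job C05.** Unimodular forms are classified by their determinant.

Proof. For units `u, v` the form `<u, v>` represents `1`: `u x² + v y² ≡ 1` has a solution modulo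
the maximal ideal (counting, `FiniteField.exists_root_sum_quadratic`), `x`, say, a unit (or `y`); lift
by `isSquare_of_residue`. So `<u, v> ≅ <1, u v>` (determinants, `exists_split`), and by induction a
form with unit coefficients is isometric to `<1, ..., 1, ∏ u>`. -/
theorem cd_of_units (h2 : IsUnit (2 : O)) [CharZero K] {ι : Type*} [Fintype ι] [DecidableEq ι]
    (u v : ι → Oˣ) (h : IsSquare (algebraMap O K ((∏ i, (u i : O)) * ∏ i, (v i : O)))) :
    CD (fun i => algebraMap O K (u i : O)) fun i => algebraMap O K (v i : O) := by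
  rcases isEmpty_or_nonempty ι with hι | hι
  · have e : (fun i => algebraMap O K (u i : O)) = fun i => algebraMap O K (v i : O) :=
      funext fun i => (hι.false i).elim
    rw [e]
    exact CD.refl _
  · obtain ⟨n, hn⟩ : ∃ n, Fintype.card ι = n + 1 := ⟨Fintype.card ι - 1, by
      have := Fintype.card_pos (α := ι)
      omega⟩
    let e : Fin (n + 1) ≃ ι := (Fintype.equivFinOfCardEq hn).symm
    have key : ∀ w : ι → Oˣ, Cong (diagonal fun i => algebraMap O K (w i : O))
        (osum (diagonal fun _ : Fin n => (1 : K)) (sq1 (algebraMap O K (∏ i, (w i : O))))) := by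
      intro w
      have h1 := Cong.map (algebraMap O K) (c05_norm h2 n fun i => w (e i))
      have h3 : (diagonal fun i => ((w (e i) : Oˣ) : O)).map (algebraMap O K) =
          diagonal fun i => algebraMap O K (w (e i) : O) := by
        rw [diagonal_map (map_zero _)]
      have h4 : (diagonal fun _ : Fin n => (1 : O)).map (algebraMap O K) =
          diagonal fun _ : Fin n => (1 : K) := by
        rw [diagonal_map (map_zero _)]
        simp only [map_one]
      rw [h3, map_osum, h4, map_sq1, e.prod_comp fun i => (w i : O)] at h1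
      exact (Cong.diagonal_equiv (fun i => algebraMap O K (w i : O)) e).trans h1
    obtain ⟨s, hs⟩ := h
    have hinj : Function.Injective (algebraMap O K) := IsFractionRing.injective O K
    have hU : algebraMap O K (∏ i, (u i : O)) ≠ 0 := by
      intro h0
      have := hinj (h0.trans (map_zero _).symm)
      rw [Finset.prod_eq_zero_iff] at this
      obtain ⟨i, -, hi⟩ := this
      exact (u i).ne_zero hi
    have hV : algebraMap O K (∏ i, (v i : O)) ≠ 0 := by
      intro h0
      have := hinj (h0.trans (map_zero _).symm)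
      rw [Finset.prod_eq_zero_iff] at this
      obtain ⟨i, -, hi⟩ := this
      exact (v i).ne_zero hi
    rw [map_mul] at hs
    have hs0 : s ≠ 0 := by
      rintro rfl
      rw [mul_zero] at hs
      exact (mul_ne_zero hU hV) hs
    refine (key u).trans (Cong.trans (Cong.osum (Cong.refl _) ?_) (key v).symm)
    refine Cong.sq1_of_eq (c := s / algebraMap O K (∏ i, (u i : O))) (div_ne_zero hs0 hU) ?_
    rw [div_pow, pow_two s, ← hs]
    field_simp

private theorem c05_rank_add {k : Type*} [Field k] {m n : Type*} [Fintype m] [Fintype n]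
    [DecidableEq n] (A B : Matrix m n k) : (A + B).rank ≤ A.rank + B.rank := by
  unfold Matrix.rank
  have h : LinearMap.range (A + B).mulVecLin ≤
      LinearMap.range A.mulVecLin ⊔ LinearMap.range B.mulVecLin := by
    rintro _ ⟨x, rfl⟩
    rw [mulVecLin_add, LinearMap.add_apply]
    exact Submodule.add_mem_sup ⟨x, rfl⟩ ⟨x, rfl⟩
  exact (Submodule.finrank_mono h).trans (Submodule.finrank_add_le_finrank_add_finrank _ _)

private theorem c05_rank_cong {k : Type*} [Field k] {m n : Type*} [Fintype m] [Fintype n]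
    [DecidableEq m] [DecidableEq n] {A : Matrix m m k} {B : Matrix n n k} (h : Cong A B) :
    A.rank ≤ B.rank := by
  obtain ⟨M, M', h1, h2, rfl⟩ := h
  have h3 : M'ᵀ * (Mᵀ * A * M) * M' = A := by
    have h4 : M'ᵀ * Mᵀ = 1 := by rw [← transpose_mul, h1, transpose_one]
    calc M'ᵀ * (Mᵀ * A * M) * M' = (M'ᵀ * Mᵀ) * A * (M * M') := by
          simp only [Matrix.mul_assoc]
      _ = A := by rw [h4, h1, Matrix.one_mul, Matrix.mul_one]
  calc A.rank = (M'ᵀ * (Mᵀ * A * M) * M').rank := by rw [h3]
    _ ≤ (M'ᵀ * (Mᵀ * A * M)).rank := rank_mul_le_left _ _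
    _ ≤ (Mᵀ * A * M).rank := rank_mul_le_right _ _

private theorem c05_rank_osum {k : Type*} [Field k] {n : ℕ} (a : k)
    (B : Matrix (Fin n) (Fin n) k) : (osum (sq1 a) B).rank ≤ 1 + B.rank := by
  have h1 : osum (sq1 a) B = (fromRows (sq1 a) 0) * (fromCols (1 : Matrix (Fin 1) (Fin 1) k) 0) +
      (fromRows (0 : Matrix (Fin 1) (Fin n) k) 1) * (B * fromCols (0 : Matrix (Fin n) (Fin 1) k) 1) := by
    rw [osum, Matrix.mul_fromCols B, fromRows_mul_fromCols, fromRows_mul_fromCols, fromBlocks_add]
    simp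
  rw [h1]
  refine (c05_rank_add _ _).trans (Nat.add_le_add ?_ ?_)
  · refine (rank_mul_le_left _ _).trans ?_
    simpa using rank_le_card_width (fromRows (sq1 a) (0 : Matrix (Fin n) (Fin 1) k))
  · exact (rank_mul_le_right _ _).trans (rank_mul_le_left _ _)

/-- splitting off a unit -/
private theorem c05_split0 {n : ℕ} {G : Matrix (Fin (n + 1)) (Fin (n + 1)) O} (hG : G.IsSymm)
    (w : Oˣ) (hw : G 0 0 = w) :
    ∃ S : Matrix (Fin n) (Fin n) O, S.IsSymm ∧ Cong G (osum (sq1 (w : O)) S) := by
  let f : Fin 1 ⊕ Fin n ≃ Fin (n + 1) :=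
    { toFun := Sum.elim (fun _ => 0) Fin.succ
      invFun := Fin.cases (Sum.inl 0) Sum.inr
      left_inv := by
        rintro (i | i)
        · have : i = 0 := Subsingleton.elim _ _
          subst this; rfl
        · rfl
      right_inv := by
        intro i
        refine Fin.cases rfl (fun j => rfl) i }
  have h1 := Cong.submatrix G f
  set H := G.submatrix f f with hH
  have hHs : H.IsSymm := by
    rw [hH]
    unfold Matrix.IsSymm
    rw [transpose_submatrix, hG.eq]
  have hA : H.toBlocks₁₁ = sq1 (w : O) := by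
    ext i j
    have hi : i = 0 := Subsingleton.elim _ _
    have hj : j = 0 := Subsingleton.elim _ _
    subst hi; subst hj
    show G 0 0 = sq1 (w : O) 0 0
    rw [hw, sq1, diagonal_apply_eq]
  have hHT : Hᵀ = H := hHs
  have hC : H.toBlocks₂₁ = H.toBlocks₁₂ᵀ := by
    ext i j
    show H (Sum.inr i) (Sum.inl j) = H (Sum.inl j) (Sum.inr i)
    conv_lhs => rw [← hHT]
    rfl
  have hD : H.toBlocks₂₂ᵀ = H.toBlocks₂₂ := by
    ext i j
    show H (Sum.inr j) (Sum.inr i) = H (Sum.inr i) (Sum.inr j)
    conv_lhs => rw [← hHT]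
    rfl
  set B := H.toBlocks₁₂ with hB
  set D := H.toBlocks₂₂ with hD'
  have hHb : H = fromBlocks (sq1 (w : O)) B Bᵀ D := by
    rw [← hA, ← hC, fromBlocks_toBlocks]
  have hsqT : (sq1 ((w⁻¹ : Oˣ) : O))ᵀ = sq1 ((w⁻¹ : Oˣ) : O) := sq1_isSymm _
  have hww : sq1 (w : O) * sq1 ((w⁻¹ : Oˣ) : O) = 1 := by
    rw [sq1, sq1, diagonal_mul_diagonal, Units.mul_inv, ← diagonal_one]
  have hww' : sq1 ((w⁻¹ : Oˣ) : O) * sq1 (w : O) = 1 := by
    rw [sq1, sq1, diagonal_mul_diagonal, Units.inv_mul, ← diagonal_one]
  set W := sq1 ((w⁻¹ : Oˣ) : O) with hWd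
  refine ⟨D - Bᵀ * W * B, ?_, h1.trans ?_⟩
  · unfold Matrix.IsSymm
    rw [transpose_sub, transpose_mul, transpose_mul, transpose_transpose, hsqT, hD,
      Matrix.mul_assoc]
  · refine ⟨fromBlocks 1 (-(W * B)) 0 1, fromBlocks 1 (W * B) 0 1, ?_, ?_, ?_⟩
    · rw [fromBlocks_multiply, ← fromBlocks_one]
      simp
    · rw [fromBlocks_multiply, ← fromBlocks_one]
      simp
    · rw [hHb, fromBlocks_transpose, fromBlocks_multiply, fromBlocks_multiply, osum]
      simp only [transpose_one, Matrix.one_mul, Matrix.mul_one, transpose_zero, Matrix.zero_mul,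
        Matrix.mul_zero, add_zero, transpose_neg, transpose_mul, hsqT]
      have e1 : -(Bᵀ * W) * sq1 (w : O) + Bᵀ = 0 := by
        rw [Matrix.neg_mul, Matrix.mul_assoc, hww', Matrix.mul_one, neg_add_cancel]
      have e2 : sq1 (w : O) * -(W * B) + B = 0 := by
        rw [Matrix.mul_neg, ← Matrix.mul_assoc, hww, Matrix.one_mul, neg_add_cancel]
      rw [e1, e2, Matrix.zero_mul, zero_add]
      congr 1
      rw [Matrix.neg_mul]
      abel

/-- splitting off a unit, second form -/
private theorem c05_split (h2 : IsUnit (2 : O)) {n : ℕ}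
    {G : Matrix (Fin (n + 1)) (Fin (n + 1)) O} (hG : G.IsSymm)
    (hne : G.map (residue O) ≠ 0) :
    ∃ (w : Oˣ) (S : Matrix (Fin n) (Fin n) O), S.IsSymm ∧ Cong G (osum (sq1 (w : O)) S) := by
  -- a unit on the diagonal
  have step : ∀ {G : Matrix (Fin (n + 1)) (Fin (n + 1)) O}, G.IsSymm → ∀ i, IsUnit (G i i) →
      ∃ (w : Oˣ) (S : Matrix (Fin n) (Fin n) O), S.IsSymm ∧ Cong G (osum (sq1 (w : O)) S) := by
    intro G hG i hi
    obtain ⟨w, hw⟩ := hi
    have h1 := Cong.submatrix G (Equiv.swap 0 i)
    have hs : (G.submatrix (Equiv.swap 0 i) (Equiv.swap 0 i)).IsSymm := by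
      unfold Matrix.IsSymm
      rw [transpose_submatrix, hG.eq]
    obtain ⟨S, hS, h3⟩ := c05_split0 hs w (by
      rw [submatrix_apply, Equiv.swap_apply_left, hw])
    exact ⟨w, S, hS, h1.trans h3⟩
  by_cases hd : ∃ i, IsUnit (G i i)
  · obtain ⟨i, hi⟩ := hd
    exact step hG i hi
  · push Not at hd
    obtain ⟨i, j, hij⟩ : ∃ i j, IsUnit (G i j) := by
      by_contra hcon
      push Not at hcon
      apply hne
      ext i j
      rw [map_apply, Matrix.zero_apply, residue_eq_zero_iff, mem_maximalIdeal]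
      exact hcon i j
    have hne' : i ≠ j := by
      rintro rfl
      exact hd i hij
    have hT : G j i = G i j := by
      conv_lhs => rw [← hG.eq]
      rfl
    -- add column `j` to column `i`
    let P : Matrix (Fin (n + 1)) (Fin (n + 1)) O := transvection j i 1
    have hP1 : P * transvection j i (-1) = 1 := by
      rw [transvection_mul_transvection_same _ _ hne'.symm]
      simp
    have hP2 : transvection j i (-1) * P = 1 := by
      rw [transvection_mul_transvection_same _ _ hne'.symm]
      simp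
    have hC : Cong G (Pᵀ * G * P) := ⟨P, transvection j i (-1), hP1, hP2, rfl⟩
    have hS : (Pᵀ * G * P).IsSymm := hC.symmetric hG
    have hval : (Pᵀ * G * P) i i = G i i + 2 * G i j + G j j := by
      have e1 : ∀ (A : Matrix (Fin (n + 1)) (Fin (n + 1)) O) a, (A * P) a i = A a i + A a j := by
        intro A a
        have h5 : (A * P) a i = A a i + 1 * A a j :=
          mul_transvection_apply_same j i a 1 A
        rw [one_mul] at h5
        exact h5
      have e2 : ∀ (A : Matrix (Fin (n + 1)) (Fin (n + 1)) O) a, (Pᵀ * A) i a = A i a + A j a := by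
        intro A a
        have h3 : (Pᵀ * A) i a = (Aᵀ * P) a i := by
          rw [← transpose_apply (Pᵀ * A), transpose_mul, transpose_transpose]
        rw [h3, e1]
        rfl
      rw [e1, e2, e2, hT]
      ring
    have hu : IsUnit ((Pᵀ * G * P) i i) := by
      rw [hval]
      by_contra hn
      have m1 : G i i ∈ maximalIdeal O := hd i
      have m2 : G j j ∈ maximalIdeal O := hd j
      have m3 : G i i + 2 * G i j + G j j ∈ maximalIdeal O := hn
      have m4 : 2 * G i j ∈ maximalIdeal O := by
        have := Ideal.sub_mem _ (Ideal.sub_mem _ m3 m2) m1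
        convert this using 1
        ring
      exact m4 (h2.mul hij)
    obtain ⟨w, S, hS', h4⟩ := step hS i hu
    exact ⟨w, S, hS', hC.trans h4⟩

/-- **Job C05, second part.** Symmetric matrices over `O`: units, and the rest divisible.

If the reduction of the symmetric matrix `G` (of size `n + 1`) has rank at least `n` then over `K`
`G` is congruent to a diagonal matrix with `n` units and `det G` (up to squares).

Proof. Induction on the size: if the reduction of `G` is not zero, there is a vector `x` over `O`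
with `xᵀ G x` a unit (`2` is a unit: `G_ii` or `G_ii + 2 G_ij + G_jj`); split it off over `O`:
`G ≅ <u> ⊥ G'` with `G'` over `O`, the rank of the reduction of `G'` is one less. After `n`
steps a `1 × 1` matrix remains, which is `det G` times a square by determinants (`∏ u` is a unit). -/
theorem cong_of_rank (h2 : IsUnit (2 : O)) [CharZero K] {n : ℕ}
    {G : Matrix (Fin (n + 1)) (Fin (n + 1)) O} (hG : G.IsSymm) (hdet : G.det ≠ 0)
    (hrank : n ≤ (G.map (residue O)).rank) :
    ∃ u : Fin n → Oˣ, Cong (G.map (algebraMap O K))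
      (osum (diagonal fun i => algebraMap O K (u i : O))
        (sq1 (algebraMap O K (G.det * ∏ i, (u i : O))))) := by
  have hinj : Function.Injective (algebraMap O K) := IsFractionRing.injective O K
  induction n with
  | zero =>
    refine ⟨fun _ => 1, ?_⟩
    have h1 : G.map (algebraMap O K) = diagonal fun _ => algebraMap O K G.det := by
      ext i j
      have hi : i = 0 := Fin.fin_one_eq_zero i
      have hj : j = 0 := Fin.fin_one_eq_zero j
      subst hi; subst hj
      rw [map_apply, diagonal_apply_eq, det_fin_one]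
    rw [h1]
    refine (c05_cons (fun _ : Fin (0 + 1) => algebraMap O K G.det)).trans
      ((Cong.osum_comm _ _).trans (Cong.of_eq ?_))
    congr 1
    · ext i
      exact i.elim0
    · simp
  | succ n ih =>
    have hne : G.map (residue O) ≠ 0 := by
      intro h0
      rw [h0, rank_zero] at hrank
      omega
    obtain ⟨w, S, hS, hC⟩ := c05_split h2 hG hne
    obtain ⟨c, hc0, hc⟩ := (Cong.map (algebraMap O K) hC).det_eq
    rw [map_osum, map_sq1, det_osum, det_sq1] at hc
    have hdm : ∀ {m : ℕ} (A : Matrix (Fin m) (Fin m) O), (A.map (algebraMap O K)).det =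
        algebraMap O K A.det := by
      intro m A
      rw [RingHom.map_det]
      rfl
    rw [hdm, hdm] at hc
    have hw0 : algebraMap O K (w : O) ≠ 0 := fun h0 =>
      w.ne_zero (hinj (h0.trans (map_zero _).symm))
    have hSdet : S.det ≠ 0 := by
      intro h0
      rw [h0, map_zero, mul_zero] at hc
      have := mul_eq_zero.1 hc.symm
      rcases this with h | h
      · exact hdet (hinj (h.trans (map_zero _).symm))
      · exact hc0 (pow_eq_zero_iff (two_ne_zero) |>.1 h)
    have hSr : n ≤ (S.map (residue O)).rank := by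
      have h3 := c05_rank_cong (Cong.map (residue O) hC)
      rw [map_osum, map_sq1] at h3
      have h4 := c05_rank_osum (residue O (w : O)) (S.map (residue O))
      omega
    obtain ⟨u, hu⟩ := ih hS hSdet hSr
    refine ⟨Fin.cons w u, ?_⟩
    have h5 := Cong.map (algebraMap O K) hC
    rw [map_osum, map_sq1] at h5
    refine h5.trans ((Cong.osum (Cong.refl _) hu).trans ((Cong.osum_assoc _ _ _).symm.trans
      (Cong.osum ?_ ?_)))
    · refine Cong.trans (Cong.of_eq ?_)
        (c05_cons (fun i : Fin (n + 1) => algebraMap O K ((Fin.cons w u : Fin (n + 1) → Oˣ) i : O))).symm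
      rfl
    · have e : (∏ i : Fin (n + 1), (((Fin.cons w u : Fin (n + 1) → Oˣ) i : Oˣ) : O)) =
          (w : O) * ∏ i, (u i : O) := by
        rw [Fin.prod_univ_succ]
        rfl
      rw [e, map_mul, map_mul, map_mul]
      refine Cong.sq1_of_eq (c := algebraMap O K (w : O) / c) (div_ne_zero hw0 hc0) ?_
      have h6 : algebraMap O K G.det = algebraMap O K (w : O) * algebraMap O K S.det / c ^ 2 := by
        rw [hc]
        field_simp
      rw [h6]
      field_simp

/-- **Job C05, third part.** If moreover the valuation of `det G` is even, `G` is congruent over `K` to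
a diagonal matrix with unit entries. -/
theorem unim_of_rank (h2 : IsUnit (2 : O)) [CharZero K] {n : ℕ}
    {G : Matrix (Fin (n + 1)) (Fin (n + 1)) O} (hG : G.IsSymm)
    (hrank : n ≤ (G.map (residue O)).rank) {p : O} (hp : Irreducible p) {j : ℤ}
    (hord : HasOrd p (algebraMap O K G.det) (2 * j)) :
    ∃ u : Fin (n + 1) → Oˣ, Cong (G.map (algebraMap O K))
      (diagonal fun i => algebraMap O K (u i : O)) := by
  have hinj : Function.Injective (algebraMap O K) := IsFractionRing.injective O K
  have hp0 : algebraMap O K p ≠ 0 := fun h => hp.ne_zero (hinj (by rw [h, map_zero]))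
  obtain ⟨u₀, hu₀⟩ := hord
  have hne : ∀ w : Oˣ, algebraMap O K (w : O) ≠ 0 := fun w h0 =>
    w.ne_zero (hinj (h0.trans (map_zero _).symm))
  have hdet : G.det ≠ 0 := by
    intro h0
    rw [h0, map_zero] at hu₀
    exact mul_ne_zero (zpow_ne_zero _ hp0) (hne u₀) hu₀.symm
  obtain ⟨u, hu⟩ := cong_of_rank (K := K) h2 hG hdet hrank
  have hP : (((∏ i, u i : Oˣ)) : O) = ∏ i, (u i : O) := by rw [Units.coe_prod]
  refine ⟨Fin.cons (u₀ * ∏ i, u i) u, hu.trans ?_⟩
  refine (Cong.osum_comm _ _).trans (Cong.trans (Cong.osum ?_ (Cong.refl _))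
    (c05_cons (fun i : Fin (n + 1) =>
      algebraMap O K ((Fin.cons (u₀ * ∏ i, u i) u : Fin (n + 1) → Oˣ) i : O))).symm)
  show Cong _ (sq1 (algebraMap O K ((u₀ * ∏ i, u i : Oˣ) : O)))
  rw [Units.val_mul, hP, map_mul, map_mul, hu₀]
  refine Cong.sq1_of_eq (c := (algebraMap O K p ^ j)⁻¹) (inv_ne_zero (zpow_ne_zero _ hp0)) ?_
  rw [two_mul, zpow_add₀ hp0]
  have := zpow_ne_zero j hp0
  field_simp

end DVR

end Pool.Agent.Lib.MP_12adaf_nt.HM
end

section

/-!
# Determinants of the trace forms
-/

namespace Pool.Agent.Lib.MP_12adaf_nt.HM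

open TF Matrix Polynomial

variable {K : Type*} [Field K]

private lemma tr_nod_G {L : Type*} [Field L] {m : ℕ} {θ : Fin m → L}
    (hθ : Function.Injective θ) (k : ℕ) : tr m (nod θ) (X ^ k) = ∑ a, θ a ^ k := by
  rw [tr_nod hθ]
  simp only [eval_pow, eval_X]

private lemma HH1_nod {L : Type*} [Field L] {m : ℕ} {θ : Fin m → L}
    (hθ : Function.Injective θ) :
    HH1 m (nod θ) = (Matrix.vandermonde θ)ᵀ * diagonal θ * Matrix.vandermonde θ := by
  ext i j
  rw [HH1, Matrix.of_apply, tr_nod_G hθ, Matrix.mul_apply]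
  refine Finset.sum_congr rfl fun a _ => ?_
  rw [Matrix.mul_diagonal, Matrix.transpose_apply, Matrix.vandermonde_apply,
    Matrix.vandermonde_apply, pow_succ, pow_add]
  ring

private lemma map_HH1_aux {R S : Type*} [CommRing R] [CommRing S] (φ : R →+* S) {c : R[X]}
    (hc : c.Monic) (m : ℕ) : (HH1 m c).map φ = HH1 m (c.map φ) := by
  ext i j
  simp only [HH1, Matrix.map_apply, Matrix.of_apply, map_tr φ hc, Polynomial.map_pow,
    Polynomial.map_X]

/-- **Job C04.** The determinant of the second trace form.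

Proof. `HH1 m c = HH m c * Mmat m c X` (`Tr(X^i X^j X)`), and `det (Mmat m c X) = (-1)^m c(0)`. -/
theorem det_HH1 {m : ℕ} {c : K[X]} (hc : c.Monic) (hd : c.natDegree = m) (hs : c.Separable) :
    (HH1 m c).det = (-1) ^ m * c.coeff 0 * c.discr := by
  let L := AlgebraicClosure K
  let φ : K →+* L := algebraMap K L
  obtain ⟨θ, hθ, h1⟩ := exists_nod φ hc hd hs
  have h2 : φ (c.coeff 0) = (-1) ^ m * ∏ i, θ i := by
    rw [← coeff_map, h1, coeff_zero_eq_eval_zero, nod, eval_prod]
    simp only [eval_sub, eval_X, eval_C, zero_sub]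
    rw [Finset.prod_neg, Finset.card_univ, Fintype.card_fin]
  apply φ.injective
  rw [show φ (HH1 m c).det = ((HH1 m c).map φ).det by rw [RingHom.map_det]; rfl,
    map_HH1_aux φ hc, h1, HH1_nod hθ, det_mul, det_mul, det_transpose, det_diagonal, map_mul,
    map_mul, ← discr_map_monic φ hc, h1, discr_nod, h2, map_pow, map_neg, map_one, ← mul_assoc,
    ← pow_add, ← two_mul, pow_mul, neg_one_sq, one_pow]
  ring

theorem HH1_isSymm {R : Type*} [CommRing R] (m : ℕ) (c : R[X]) : (HH1 m c).IsSymm := by
  ext i j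
  simp only [HH1, Matrix.transpose_apply, Matrix.of_apply]
  rw [add_comm (j : ℕ) (i : ℕ)]

theorem Wf_isSymm {R : Type*} [CommRing R] (m : ℕ) (c : R[X]) : (Wf m c).IsSymm :=
  osum_isSymm ((HH_isSymm m c).smul _) ((HH1_isSymm m c).smul _)

theorem map_HH1 {R S : Type*} [CommRing R] [CommRing S] (φ : R →+* S) {c : R[X]} (hc : c.Monic)
    (m : ℕ) : (HH1 m c).map φ = HH1 m (c.map φ) := map_HH1_aux φ hc m

theorem map_Wf {R S : Type*} [CommRing R] [CommRing S] (φ : R →+* S) {c : R[X]} (hc : c.Monic)
    (m : ℕ) : (Wf m c).map φ = Wf m (c.map φ) := by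
  have h2 : φ 2 = 2 := map_ofNat φ 2
  have h3 : φ (-2) = -2 := by rw [map_neg, h2]
  rw [Wf, Wf, map_osum, ← map_HH φ hc, ← map_HH1 φ hc]
  congr 1
  · ext i j
    simp only [Matrix.map_apply, Matrix.smul_apply, smul_eq_mul, map_mul, h2]
  · ext i j
    simp only [Matrix.map_apply, Matrix.smul_apply, smul_eq_mul, map_mul, h3]

/-- The determinant of `W(c)`. -/
theorem det_Wf {m : ℕ} {c : K[X]} (hc : c.Monic) (hd : c.natDegree = m) (hs : c.Separable) :
    (Wf m c).det = c.coeff 0 * (2 ^ m * c.discr) ^ 2 := by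
  rw [Wf, det_osum, det_smul, det_smul, det_HH hc hd hs, det_HH1 hc hd hs, Fintype.card_fin]
  have h1 : ((-2 : K)) ^ m * (-1) ^ m = 2 ^ m := by
    rw [← mul_pow]
    congr 1
    ring
  calc 2 ^ m * c.discr * ((-2) ^ m * ((-1) ^ m * c.coeff 0 * c.discr))
      = 2 ^ m * c.discr * (((-2) ^ m * (-1) ^ m) * c.coeff 0 * c.discr) := by ring
    _ = _ := by rw [h1]; ring

/-- `W(c)` for a split polynomial. Proof: `HH m c = Vᵀ V`, `HH1 m c = Vᵀ diag(τ) V`, `V` the
Vandermonde matrix (`tr_nod`). -/
theorem cong_Wf_split {m : ℕ} {τ : Fin m → K} (hτ : Function.Injective τ) :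
    Cong (Wf m (∏ i, (X - C (τ i)))) (diagonal (Sum.elim (fun _ : Fin m => (2 : K)) fun i => -2 * τ i)) := by
  have hV : IsUnit (Matrix.vandermonde τ).det :=
    (Matrix.det_vandermonde_ne_zero_iff.mpr hτ).isUnit
  have h1 : Cong (diagonal fun _ : Fin m => (2 : K)) ((2 : K) • HH m (nod τ)) := by
    refine ⟨Matrix.vandermonde τ, (Matrix.vandermonde τ)⁻¹, Matrix.mul_nonsing_inv _ hV,
      Matrix.nonsing_inv_mul _ hV, ?_⟩
    rw [HH_nod hτ]
    ext i j
    rw [Matrix.smul_apply, Matrix.mul_apply, Matrix.mul_apply, smul_eq_mul, Finset.mul_sum]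
    refine Finset.sum_congr rfl fun a _ => ?_
    rw [Matrix.mul_diagonal]
    ring
  have h2 : Cong (diagonal fun i : Fin m => -2 * τ i) ((-2 : K) • HH1 m (nod τ)) := by
    refine ⟨Matrix.vandermonde τ, (Matrix.vandermonde τ)⁻¹, Matrix.mul_nonsing_inv _ hV,
      Matrix.nonsing_inv_mul _ hV, ?_⟩
    rw [HH1_nod hτ]
    ext i j
    rw [Matrix.smul_apply, Matrix.mul_apply, Matrix.mul_apply, smul_eq_mul, Finset.mul_sum]
    refine Finset.sum_congr rfl fun a _ => ?_
    rw [Matrix.mul_diagonal, Matrix.mul_diagonal]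
    ring
  have h3 := (Cong.osum h1 h2).symm
  rw [osum_diagonal] at h3
  exact h3

private lemma scaleRoots_nod {L : Type*} [Field L] {m : ℕ} (θ : Fin m → L) (a : L) :
    scaleRoots (nod θ) a = nod fun i => a * θ i := by
  unfold nod
  induction (Finset.univ : Finset (Fin m)) using Finset.induction_on with
  | empty => rw [Finset.prod_empty, Finset.prod_empty, one_scaleRoots]
  | insert i s hi ih =>
    rw [Finset.prod_insert hi, Finset.prod_insert hi, mul_scaleRoots_of_noZeroDivisors, ih,
      X_sub_C_scaleRoots]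
    try rw [mul_comm (θ i) a]

private lemma tr_scaleRoots {m : ℕ} {c : K[X]} (hc : c.Monic) (hd : c.natDegree = m)
    (hs : c.Separable) {a : K} (ha : a ≠ 0) (k : ℕ) :
    (scaleRoots c a).Separable ∧
      tr m (scaleRoots c a) (X ^ k) = a ^ k * tr m c (X ^ k) := by
  let L := AlgebraicClosure K
  let φ : K →+* L := algebraMap K L
  obtain ⟨θ, hθ, h1⟩ := exists_nod φ hc hd hs
  have hφa : φ a ≠ 0 := (map_ne_zero φ).mpr ha
  have hinj : Function.Injective fun i => φ a * θ i := fun i j h => hθ (mul_left_cancel₀ hφa h)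
  have hm : (scaleRoots c a).Monic := (monic_scaleRoots_iff a).mpr hc
  have h2 : (scaleRoots c a).map φ = nod fun i => φ a * θ i := by
    rw [map_scaleRoots, h1, scaleRoots_nod]
    rw [hc.leadingCoeff, map_one]
    exact one_ne_zero
  constructor
  · rw [← separable_map φ, h2]
    exact (separable_prod_X_sub_C_iff).mpr hinj
  · apply φ.injective
    rw [map_mul, map_pow, map_tr φ hm, map_tr φ hc, h2, h1, Polynomial.map_pow,
      Polynomial.map_X, tr_nod_G hinj, tr_nod_G hθ, Finset.mul_sum]
    refine Finset.sum_congr rfl fun i _ => ?_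
    rw [mul_pow]

/-- Scaling the variable: `c_a(t) = a^m c(t / a)` has `W(c_a) ≅ <2> T ⊥ a <-2 t> T`.

Proof. The roots are multiplied by `a`: `HH m c_a = A (HH m c) A`, `HH1 m c_a = a A (HH1 m c) A`,
`A = diagonal (a ^ i)`. (`Polynomial.scaleRoots c a`.) -/
theorem cong_Wf_scale {m : ℕ} {c : K[X]} (hc : c.Monic) (hd : c.natDegree = m)
    (hs : c.Separable) {a : K} (ha : a ≠ 0) :
    (scaleRoots c a).Monic ∧ (scaleRoots c a).natDegree = m ∧ (scaleRoots c a).Separable ∧
    Cong (Wf m (scaleRoots c a)) (osum ((2 : K) • HH m c) (a • ((-2 : K) • HH1 m c))) := by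
  refine ⟨(monic_scaleRoots_iff a).mpr hc, by rw [natDegree_scaleRoots, hd],
    (tr_scaleRoots hc hd hs ha 0).1, ?_⟩
  have hinv : ∀ i : Fin m, a ^ (i : ℕ) * (a ^ (i : ℕ))⁻¹ = 1 := fun i =>
    mul_inv_cancel₀ (pow_ne_zero _ ha)
  have hA1 : (diagonal fun i : Fin m => a ^ (i : ℕ)) *
      (diagonal fun i : Fin m => (a ^ (i : ℕ))⁻¹) = 1 := by
    rw [diagonal_mul_diagonal, ← diagonal_one]
    congr 1
    ext i
    exact hinv i
  have hA2 : (diagonal fun i : Fin m => (a ^ (i : ℕ))⁻¹) *
      (diagonal fun i : Fin m => a ^ (i : ℕ)) = 1 := by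
    rw [diagonal_mul_diagonal, ← diagonal_one]
    congr 1
    ext i
    rw [mul_comm]
    exact hinv i
  have h1 : Cong ((2 : K) • HH m c) ((2 : K) • HH m (scaleRoots c a)) := by
    refine ⟨_, _, hA1, hA2, ?_⟩
    rw [diagonal_transpose]
    ext i j
    rw [Matrix.mul_diagonal, Matrix.diagonal_mul, Matrix.smul_apply, Matrix.smul_apply, HH, HH,
      Matrix.of_apply, Matrix.of_apply, (tr_scaleRoots hc hd hs ha _).2, pow_add, smul_eq_mul,
      smul_eq_mul]
    ring
  have h2 : Cong (a • ((-2 : K) • HH1 m c)) ((-2 : K) • HH1 m (scaleRoots c a)) := by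
    refine ⟨_, _, hA1, hA2, ?_⟩
    rw [diagonal_transpose]
    ext i j
    rw [Matrix.mul_diagonal, Matrix.diagonal_mul, Matrix.smul_apply, Matrix.smul_apply,
      Matrix.smul_apply, HH1, HH1, Matrix.of_apply, Matrix.of_apply,
      (tr_scaleRoots hc hd hs ha _).2, pow_succ, pow_add, smul_eq_mul, smul_eq_mul, smul_eq_mul]
    ring
  exact (Cong.osum h1 h2).symm

end Pool.Agent.Lib.MP_12adaf_nt.HM
end
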