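import Mathlib
import Pool.Agent.Lib.MP_12adaf_nt.TF.Six

section

/-!
# A criterion for generic members of the pencil
-/

namespace Pool.Agent.Lib.MP_12adaf_nt.HM

open TF Matrix Polynomial

variable {K : Type*} [Field K]

private theorem Ep_eq_prod {m : ℕ} (hm : 2 ≤ m) {c : K[X]}
    (hd : c.natDegree = m) {t : Fin (2 * m - 2) → K} (hJ : Jp m c = ∏ i, (X - C (t i))) :
    Ep m c = ∏ i, (C (c.eval (t i)) + X * C ((Rp K m).eval (t i))) := by
  have hP : (c.map (C : K →+* K[X]) + C X * (Rp K m).map (C : K →+* K[X])).natDegree ≤ m := by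
    refine natDegree_add_le_of_degree_le ?_ ?_
    · exact natDegree_map_le.trans hd.le
    · refine (natDegree_C_mul_le _ _).trans (natDegree_map_le.trans ?_)
      rw [natDegree_Rp]
      omega
  have hJ' : (Jp m c).map (C : K →+* K[X]) = ∏ i, (X - C (C (t i))) := by
    rw [hJ, Polynomial.map_prod]
    refine Finset.prod_congr rfl fun i _ => ?_
    simp
  have hlc : ∏ i : Fin (2 * m - 2), (X - C (C (t i)) : K[X][X]).leadingCoeff ≠ 0 := by
    simp
  have hdeg : (∏ i : Fin (2 * m - 2), (X - C (C (t i)) : K[X][X])).natDegree = 2 * m - 2 := by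
    rw [natDegree_prod_of_monic _ _ fun i _ => monic_X_sub_C _]
    simp
  have h1 := resultant_prod_left Finset.univ (fun i => (X - C (C (t i)) : K[X][X]))
    (c.map (C : K →+* K[X]) + C X * (Rp K m).map (C : K →+* K[X])) m hlc hP
  rw [hdeg] at h1
  unfold Ep
  rw [hJ', h1]
  refine Finset.prod_congr rfl fun i _ => ?_
  rw [natDegree_X_sub_C, resultant_X_sub_C_left _ _ _ hP]
  rw [eval_add, eval_mul, eval_C, eval_map, eval_map, eval₂_hom, eval₂_hom]

/-- **Job C10.** A criterion for `Phi m c ≠ 0`.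

Proof. The resultant of `J = ∏ (X - t i)` (formal degree `2 m - 2`, its degree) and
`P := c + s R` (formal degree `m`) over `K[s]` is `± ∏ P(t i) = ± ∏ (c(t i) + s R(t i))`
(`resultant_prod_left`-type lemmas, or `resultant_eq_prod_roots_eval`; the polynomial `J` is monic, so
the formal degree of `P` does not matter up to sign). So `Ep m c = ± ∏ (C (c(t i)) + X * C (R(t i)))`;
its coefficient of degree `2 m - 2` is `± ∏ R(t i) ≠ 0`, and it is a nonzero constant times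
`∏ (X + C (c(t i) / R(t i)))`, a product of distinct linear factors, hence separable of degree
exactly `2 m - 2`. The resultant of a polynomial `E` of degree exactly `n` and of its derivative (of
formal degree `n - 1`) is not zero if they are coprime (`resultant_add_right_deg` for the formal
degree, `isUnit_resultant_iff_isCoprime`; compare `isCoprime_of_resultant_ne_zero` in
`TF/Seven.lean`). -/
theorem Phi_ne_zero_of_roots {m : ℕ} (hm : 2 ≤ m) {c : K[X]} (hc : c.Monic)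
    (hd : c.natDegree = m) {t : Fin (2 * m - 2) → K} (hJ : Jp m c = ∏ i, (X - C (t i)))
    (hR : ∀ i, (Rp K m).eval (t i) ≠ 0)
    (hinj : Function.Injective fun i => c.eval (t i) / (Rp K m).eval (t i)) : Phi m c ≠ 0 := by
  have hE := Ep_eq_prod hm hd hJ
  set u : Fin (2 * m - 2) → K := fun i => -(c.eval (t i) / (Rp K m).eval (t i)) with hu
  set β : K := ∏ i, (Rp K m).eval (t i) with hβ
  have hβ0 : β ≠ 0 := Finset.prod_ne_zero_iff.mpr fun i _ => hR i
  have hE2 : Ep m c = C β * ∏ i, (X - C (u i)) := by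
    rw [hE, hβ, map_prod, ← Finset.prod_mul_distrib]
    refine Finset.prod_congr rfl fun i _ => ?_
    have h : c.eval (t i) = (Rp K m).eval (t i) * (c.eval (t i) / (Rp K m).eval (t i)) := by
      field_simp [hR i]
    rw [hu]
    simp only [map_neg, sub_neg_eq_add]
    rw [mul_add, ← C_mul, ← h]
    ring
  have huinj : Function.Injective u := by
    intro i j hij
    apply hinj
    simpa [hu] using hij
  have hmon : (∏ i, (X - C (u i)) : K[X]).Monic :=
    monic_prod_of_monic _ _ fun i _ => monic_X_sub_C _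
  have hdeg : (∏ i, (X - C (u i)) : K[X]).natDegree = 2 * m - 2 := by
    rw [natDegree_prod_of_monic _ _ fun i _ => monic_X_sub_C _]
    simp
  have hEdeg : (Ep m c).natDegree = 2 * m - 2 := by
    rw [hE2, natDegree_C_mul hβ0, hdeg]
  have hElc : (Ep m c).coeff (2 * m - 2) = β := by
    have h1 := hmon.coeff_natDegree
    rw [hdeg] at h1
    rw [hE2, coeff_C_mul, h1, mul_one]
  have hsep : (Ep m c).Separable := by
    rw [hE2]
    have h1 : (∏ i, (X - C (u i)) : K[X]).Separable :=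
      separable_prod_X_sub_C_iff.mpr huinj
    exact h1.unit_mul (isUnit_C.mpr (isUnit_iff_ne_zero.mpr hβ0))
  have hres : resultant (Ep m c) (derivative (Ep m c)) ≠ 0 := resultant_ne_zero _ _ hsep
  have hder : (derivative (Ep m c)).natDegree ≤ 2 * m - 3 := by
    refine (natDegree_derivative_le _).trans ?_
    rw [hEdeg]
    omega
  obtain ⟨k, hk⟩ := Nat.exists_eq_add_of_le hder
  unfold Phi
  rw [hElc, hk, resultant_add_right_deg _ _ _ _ _ le_rfl, hElc]
  rw [hEdeg] at hres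
  exact mul_ne_zero hβ0 (mul_ne_zero (pow_ne_zero _ hβ0) hres)

end Pool.Agent.Lib.MP_12adaf_nt.HM
end

section

/-!
# Critical points of a rational function
-/

namespace Pool.Agent.Lib.MP_12adaf_nt.HM

open TF Matrix Polynomial

private lemma c11_logder (a : ℕ → ℝ) (t : ℝ) (s : Finset ℕ) (h : ∀ i ∈ s, t ≠ a i) :
    (∏ i ∈ s, (X - C (a i))).eval t ≠ 0 ∧
    (derivative (∏ i ∈ s, (X - C (a i)))).eval t =
      (∏ i ∈ s, (X - C (a i))).eval t * ∑ i ∈ s, 1 / (t - a i) ∧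
    (derivative (derivative (∏ i ∈ s, (X - C (a i))))).eval t *
      (∏ i ∈ s, (X - C (a i))).eval t - (derivative (∏ i ∈ s, (X - C (a i)))).eval t ^ 2 =
      -((∏ i ∈ s, (X - C (a i))).eval t ^ 2 * ∑ i ∈ s, 1 / (t - a i) ^ 2) := by
  classical
  induction s using Finset.induction_on with
  | empty => simp
  | insert i s his ih =>
    obtain ⟨h1, h2, h3⟩ := ih fun j hj => h j (Finset.mem_insert_of_mem hj)
    have hi : t - a i ≠ 0 := sub_ne_zero.mpr (h i (Finset.mem_insert_self i s))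
    obtain ⟨P, hP⟩ : ∃ P, P = ∏ i ∈ s, (X - C (a i)) := ⟨_, rfl⟩
    rw [← hP] at h1 h2 h3
    rw [Finset.prod_insert his, Finset.sum_insert his, Finset.sum_insert his, ← hP]
    have d1 : (derivative ((X - C (a i)) * P)).eval t =
        P.eval t + (t - a i) * (derivative P).eval t := by
      simp [derivative_mul]
    have d2 : (derivative (derivative ((X - C (a i)) * P))).eval t =
        2 * (derivative P).eval t + (t - a i) * (derivative (derivative P)).eval t := by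
      simp [derivative_mul]
      ring
    have d0 : ((X - C (a i)) * P).eval t = (t - a i) * P.eval t := by simp
    rw [d0, d1, d2]
    refine ⟨mul_ne_zero hi h1, ?_, ?_⟩
    · rw [h2]
      field_simp
    · have e1 : (2 * (derivative P).eval t + (t - a i) * (derivative (derivative P)).eval t) *
          ((t - a i) * P.eval t) - (P.eval t + (t - a i) * (derivative P).eval t) ^ 2 =
          (t - a i) ^ 2 * ((derivative (derivative P)).eval t * P.eval t -
            (derivative P).eval t ^ 2) - P.eval t ^ 2 := by ring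
      rw [e1, h3]
      field_simp
      ring

private lemma c11_dist {i j : ℕ} (h : j ≠ i) : (1 : ℝ) ≤ |(i : ℝ) ^ 2 - (j : ℝ) ^ 2| := by
  have h1 : (i : ℤ) ^ 2 - (j : ℤ) ^ 2 ≠ 0 := by
    intro h0
    have h2 : i ^ 2 = j ^ 2 := by
      have h3 : (i : ℤ) ^ 2 = (j : ℤ) ^ 2 := by linarith
      exact_mod_cast h3
    exact h ((Nat.pow_left_injective (n := 2) (by norm_num)) h2).symm
  have h2 : (1 : ℤ) ≤ |(i : ℤ) ^ 2 - (j : ℤ) ^ 2| := Int.one_le_abs h1
  exact_mod_cast h2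

private lemma c11_loc {m : ℕ} (hm : 2 ≤ m) {i : ℕ} (hi : i < m - 1) {σ : ℝ}
    (hσ : σ = 1 ∨ σ = -1) {ε : ℝ} (hε : ε = 1 / (16 * (m : ℝ))) :
    ∃ t : ℝ, (∀ j ∈ Finset.range (m - 1), t ≠ (j : ℝ) ^ 2) ∧
      1 - ε ^ 2 * ∑ j ∈ Finset.range (m - 1), 1 / (t - (j : ℝ) ^ 2) ^ 2 = 0 ∧
      3 / 2 * ε ≤ σ * (t + ε ^ 2 * (∑ j ∈ Finset.range (m - 1), 1 / (t - (j : ℝ) ^ 2)) -
        (i : ℝ) ^ 2) ∧
      σ * (t + ε ^ 2 * (∑ j ∈ Finset.range (m - 1), 1 / (t - (j : ℝ) ^ 2)) -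
        (i : ℝ) ^ 2) ≤ 3 * ε := by
  classical
  have hm' : (2 : ℝ) ≤ m := by exact_mod_cast hm
  have hε0 : 0 < ε := by
    rw [hε]
    positivity
  have hεm : ε * m = 1 / 16 := by
    rw [hε]
    field_simp
  have hε1 : ε ≤ 1 / 32 := by nlinarith
  have hσ2 : σ ^ 2 = 1 := by rcases hσ with h | h <;> rw [h] <;> norm_num
  have hσa : |σ| = 1 := by rcases hσ with h | h <;> rw [h] <;> norm_num
  have hmem : i ∈ Finset.range (m - 1) := Finset.mem_range.mpr hi
  -- distances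
  have hfar : ∀ δ : ℝ, 0 ≤ δ → δ ≤ 2 * ε → ∀ j : ℕ, j ≠ i →
      1 / 2 ≤ |(i : ℝ) ^ 2 + σ * δ - (j : ℝ) ^ 2| := by
    intro δ hδ0 hδ1 j hj
    have h1 := c11_dist hj
    have h2 : |σ * δ| ≤ 1 / 16 := by
      rw [abs_mul, hσa, one_mul, abs_of_nonneg hδ0]
      linarith
    have h3 : |(i : ℝ) ^ 2 - (j : ℝ) ^ 2| ≤
        |(i : ℝ) ^ 2 + σ * δ - (j : ℝ) ^ 2| + |σ * δ| := by
      have := abs_sub ((i : ℝ) ^ 2 + σ * δ - (j : ℝ) ^ 2) (σ * δ)
      have e : (i : ℝ) ^ 2 + σ * δ - (j : ℝ) ^ 2 - σ * δ = (i : ℝ) ^ 2 - (j : ℝ) ^ 2 := by ring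
      rwa [e] at this
    linarith
  have hcard : ((Finset.range (m - 1)).erase i).card ≤ m := by
    refine (Finset.card_le_card (Finset.erase_subset _ _)).trans ?_
    rw [Finset.card_range]
    omega
  have hcard' : (((Finset.range (m - 1)).erase i).card : ℝ) ≤ m := by exact_mod_cast hcard
  have hsum2 : ∀ δ : ℝ, 0 ≤ δ → δ ≤ 2 * ε →
      ∑ j ∈ (Finset.range (m - 1)).erase i, 1 / ((i : ℝ) ^ 2 + σ * δ - (j : ℝ) ^ 2) ^ 2 ≤
        (m : ℝ) * 4 := by
    intro δ hδ0 hδ1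
    refine (Finset.sum_le_card_nsmul _ _ 4 fun j hj => ?_).trans ?_
    · have h1 := hfar δ hδ0 hδ1 j (Finset.ne_of_mem_erase hj)
      have h2 : (1 / 2 : ℝ) ^ 2 ≤ ((i : ℝ) ^ 2 + σ * δ - (j : ℝ) ^ 2) ^ 2 := by
        rw [← sq_abs ((i : ℝ) ^ 2 + σ * δ - (j : ℝ) ^ 2)]
        exact pow_le_pow_left₀ (by norm_num) h1 2
      rw [div_le_iff₀ (by linarith)]
      linarith
    · rw [nsmul_eq_mul]
      exact mul_le_mul_of_nonneg_right hcard' (by norm_num)
  have hsum2' : ∀ δ : ℝ,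
      0 ≤ ∑ j ∈ (Finset.range (m - 1)).erase i, 1 / ((i : ℝ) ^ 2 + σ * δ - (j : ℝ) ^ 2) ^ 2 :=
    fun δ => Finset.sum_nonneg fun j _ => by positivity
  have hsum1 : ∀ δ : ℝ, 0 ≤ δ → δ ≤ 2 * ε →
      |∑ j ∈ (Finset.range (m - 1)).erase i, 1 / ((i : ℝ) ^ 2 + σ * δ - (j : ℝ) ^ 2)| ≤
        (m : ℝ) * 2 := by
    intro δ hδ0 hδ1
    refine (Finset.abs_sum_le_sum_abs _ _).trans ?_
    refine (Finset.sum_le_card_nsmul _ _ 2 fun j hj => ?_).trans ?_
    · have h1 := hfar δ hδ0 hδ1 j (Finset.ne_of_mem_erase hj)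
      rw [abs_div, abs_one, div_le_iff₀ (by linarith)]
      linarith
    · rw [nsmul_eq_mul]
      exact mul_le_mul_of_nonneg_right hcard' (by norm_num)
  -- the derivative
  let G : ℝ → ℝ := fun δ => 1 - ε ^ 2 * ∑ j ∈ Finset.range (m - 1),
    1 / ((i : ℝ) ^ 2 + σ * δ - (j : ℝ) ^ 2) ^ 2
  have hG : ∀ δ : ℝ, 0 < δ → G δ = 1 - ε ^ 2 * (1 / δ ^ 2 +
      ∑ j ∈ (Finset.range (m - 1)).erase i, 1 / ((i : ℝ) ^ 2 + σ * δ - (j : ℝ) ^ 2) ^ 2) := by
    intro δ hδ
    show 1 - ε ^ 2 * ∑ j ∈ Finset.range (m - 1),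
      1 / ((i : ℝ) ^ 2 + σ * δ - (j : ℝ) ^ 2) ^ 2 = _
    rw [← Finset.add_sum_erase _ _ hmem]
    have e : ((i : ℝ) ^ 2 + σ * δ - (i : ℝ) ^ 2) ^ 2 = δ ^ 2 := by
      have : (i : ℝ) ^ 2 + σ * δ - (i : ℝ) ^ 2 = σ * δ := by ring
      rw [this, mul_pow, hσ2, one_mul]
    rw [e]
  have hcont : ContinuousOn G (Set.Icc (3 / 4 * ε) (2 * ε)) := by
    refine continuousOn_const.sub (continuousOn_const.mul ?_)
    refine continuousOn_finsetSum _ fun j _ => ?_
    refine ContinuousOn.div continuousOn_const (by fun_prop) fun δ hδ => ?_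
    have hδ0 : 0 < δ := lt_of_lt_of_le (by positivity) hδ.1
    by_cases hj : j = i
    · rw [hj]
      have : (i : ℝ) ^ 2 + σ * δ - (i : ℝ) ^ 2 = σ * δ := by ring
      rw [this, mul_pow, hσ2, one_mul]
      positivity
    · have h1 := hfar δ hδ0.le hδ.2 j hj
      have h2 : (i : ℝ) ^ 2 + σ * δ - (j : ℝ) ^ 2 ≠ 0 := by
        intro h0
        rw [h0, abs_zero] at h1
        linarith
      exact pow_ne_zero 2 h2
  have hGa : G (3 / 4 * ε) ≤ 0 := by
    rw [hG _ (by positivity)]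
    have h1 := mul_nonneg (sq_nonneg ε) (hsum2' (3 / 4 * ε))
    have h2 : ε ^ 2 * (1 / (3 / 4 * ε) ^ 2) = 16 / 9 := by
      field_simp
      norm_num
    rw [mul_add, h2]
    linarith
  have hGb : 0 ≤ G (2 * ε) := by
    rw [hG _ (by positivity)]
    have h1 := mul_le_mul_of_nonneg_left (hsum2 (2 * ε) (by positivity) le_rfl) (sq_nonneg ε)
    have h2 : ε ^ 2 * (1 / (2 * ε) ^ 2) = 1 / 4 := by
      field_simp
      norm_num
    have h3 : ε ^ 2 * (m * 4) = ε / 4 := by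
      have : ε ^ 2 * (m * 4) = 4 * ε * (ε * m) := by ring
      rw [this, hεm]
      ring
    rw [mul_add, h2]
    linarith
  obtain ⟨δ, hδ, hGδ⟩ := intermediate_value_Icc (by linarith : 3 / 4 * ε ≤ 2 * ε) hcont
    (show (0 : ℝ) ∈ Set.Icc (G (3 / 4 * ε)) (G (2 * ε)) from ⟨hGa, hGb⟩)
  have hδ0 : 0 < δ := lt_of_lt_of_le (by positivity) hδ.1
  refine ⟨(i : ℝ) ^ 2 + σ * δ, ?_, hGδ, ?_⟩
  · intro j _ h0
    by_cases hj : j = i
    · rw [hj] at h0
      have h1 : σ * δ = 0 := by linarith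
      have h2 : |σ * δ| = δ := by rw [abs_mul, hσa, one_mul, abs_of_pos hδ0]
      rw [h1, abs_zero] at h2
      linarith
    · have h1 := hfar δ hδ0.le hδ.2 j hj
      rw [h0, sub_self, abs_zero] at h1
      linarith
  · rw [← Finset.add_sum_erase _ _ hmem]
    have hρ := hsum1 δ hδ0.le hδ.2
    obtain ⟨ρ, hρdef⟩ : ∃ ρ, ρ = ∑ j ∈ (Finset.range (m - 1)).erase i,
      1 / ((i : ℝ) ^ 2 + σ * δ - (j : ℝ) ^ 2) := ⟨_, rfl⟩
    rw [← hρdef] at hρ ⊢
    have e1 : (i : ℝ) ^ 2 + σ * δ - (i : ℝ) ^ 2 = σ * δ := by ring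
    rw [e1]
    have e2 : σ * (1 / (σ * δ)) = 1 / δ := by
      have hσ0 : σ ≠ 0 := by
        intro h0
        rw [h0, abs_zero] at hσa
        norm_num at hσa
      field_simp
    have e3 : σ * ((i : ℝ) ^ 2 + σ * δ + ε ^ 2 * (1 / (σ * δ) + ρ) - (i : ℝ) ^ 2) =
        δ + ε ^ 2 * (1 / δ) + ε ^ 2 * (σ * ρ) := by
      calc _ = σ ^ 2 * δ + ε ^ 2 * (σ * (1 / (σ * δ))) + ε ^ 2 * (σ * ρ) := by ring
        _ = _ := by rw [hσ2, e2, one_mul]
    rw [e3]
    have h4 : |ε ^ 2 * (σ * ρ)| ≤ ε / 8 := by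
      rw [abs_mul, abs_mul, hσa, one_mul, abs_of_nonneg (sq_nonneg ε)]
      have h5 := mul_le_mul_of_nonneg_left hρ (sq_nonneg ε)
      have h6 : ε ^ 2 * (m * 2) = ε / 8 := by
        have : ε ^ 2 * (m * 2) = 2 * ε * (ε * m) := by ring
        rw [this, hεm]
        ring
      linarith
    obtain ⟨h5, h6⟩ := abs_le.mp h4
    have h7 : δ + ε ^ 2 * (1 / δ) = (δ ^ 2 + ε ^ 2) / δ := by
      field_simp
    have h8 : 2 * ε ≤ (δ ^ 2 + ε ^ 2) / δ := by
      rw [le_div_iff₀ hδ0]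
      nlinarith [sq_nonneg (δ - ε)]
    have h9 : (δ ^ 2 + ε ^ 2) / δ ≤ 5 / 2 * ε := by
      rw [div_le_iff₀ hδ0]
      have := mul_nonneg (sub_nonneg.mpr hδ.2) (by linarith [hδ.1] : 0 ≤ δ - ε / 2)
      nlinarith
    rw [h7]
    constructor <;> linarith

/-- **Job C11.** A polynomial with many real critical points and distinct critical values.

Proof. Let `R = ∏_{i < m-1} (X - i²)`, `R_i = R / (X - i²)`, `ε > 0` rational and small
(`ε ≤ 1 / (16 m)` is enough), and `c := X * R + ε² * ∑_{i < m-1} R_i`, monic of degree `m`. For real `t`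
with `R(t) ≠ 0` let `g(t) := c(t) / R(t) = t + ε² ∑_i 1 / (t - i²)`; then
`J = c' R - c R' = R² g'` and `g'(t) = 1 - ε² ∑_i 1 / (t - i²)²`, so
`J(t) = R(t)² - ε² ∑_i R_i(t)²`.
For `i < m - 1` and a sign `±` consider `t = i² ± δ`, `0 < δ ≤ 2 ε ≤ 1/2`. For `j ≠ i`:
`|t - j²| ≥ 1 - 1/2 = 1/2`. At `δ = 3 ε / 4`: `g' ≤ 1 - ε² / δ² = 1 - 16/9 < 0`. At `δ = 2 ε`:
`g' ≥ 1 - 1/4 - 4 m ε² > 0`. So by the intermediate value theorem (for `J`, or for `g'`) there is
`δ ∈ (3 ε / 4, 2 ε)` with `J(i² ± δ) = 0`, `R(i² ± δ) ≠ 0`. The value there is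
`g(i² ± δ) = i² ± (δ + ε² / δ) + ρ`, `|ρ| ≤ ε² * 2 m ≤ ε / 8`, and
`2 ε ≤ δ + ε² / δ ≤ 2.5 ε` (`δ + ε² / δ ≥ 2 ε` always; on `[3 ε / 4, 2 ε]` the maximum of this convex
function is attained at an end: `(3/4 + 4/3) ε < 2.5 ε`, `(2 + 1/2) ε`). So the value lies in
`i² ± [1.5 ε, 3 ε]`, and these `2 (m - 1)` intervals are disjoint, as `3 ε < 1/2`. -/
theorem exists_critical {m : ℕ} (hm : 2 ≤ m) :
    ∃ c : ℚ[X], c.Monic ∧ c.natDegree = m ∧ ∃ t : Fin (m - 1) × Bool → ℝ,
      (∀ i, (Jp m (c.map (algebraMap ℚ ℝ))).eval (t i) = 0) ∧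
      (∀ i, (Rp ℝ m).eval (t i) ≠ 0) ∧
      Function.Injective fun i => (c.map (algebraMap ℚ ℝ)).eval (t i) / (Rp ℝ m).eval (t i) := by
  classical
  obtain ⟨e, he⟩ : ∃ e : ℚ, e = 1 / (16 * (m : ℚ)) := ⟨_, rfl⟩
  obtain ⟨ε, hε⟩ : ∃ ε : ℝ, ε = 1 / (16 * (m : ℝ)) := ⟨_, rfl⟩
  have hm' : (2 : ℝ) ≤ m := by exact_mod_cast hm
  have heε : (e : ℝ) = ε := by
    rw [he, hε]
    push_cast
    rfl
  have hε0 : 0 < ε := by
    rw [hε]
    positivity
  have hεm : ε * m = 1 / 16 := by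
    rw [hε]
    field_simp
  have hε1 : ε ≤ 1 / 32 := by nlinarith
  -- the polynomial
  obtain ⟨c, hc⟩ : ∃ c : ℚ[X], c = X * Rp ℚ m + C (e ^ 2) * derivative (Rp ℚ m) := ⟨_, rfl⟩
  have hXR : (X * Rp ℚ m).Monic := monic_X.mul (Rp_monic m)
  have hXRd : (X * Rp ℚ m).natDegree = m := by
    rw [monic_X.natDegree_mul (Rp_monic m), natDegree_X, natDegree_Rp]
    omega
  have hdeg : degree (C (e ^ 2) * derivative (Rp ℚ m)) < degree (X * Rp ℚ m) := by
    rw [degree_eq_natDegree hXR.ne_zero, hXRd]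
    refine lt_of_le_of_lt degree_le_natDegree ?_
    have h1 : (C (e ^ 2) * derivative (Rp ℚ m)).natDegree ≤ m - 1 := by
      refine (natDegree_C_mul_le _ _).trans ((natDegree_derivative_le _).trans ?_)
      rw [natDegree_Rp]
      omega
    exact_mod_cast (by omega : (C (e ^ 2) * derivative (Rp ℚ m)).natDegree < m)
  have hcmap : c.map (algebraMap ℚ ℝ) = X * Rp ℝ m + C (ε ^ 2) * derivative (Rp ℝ m) := by
    rw [hc, Polynomial.map_add, Polynomial.map_mul, Polynomial.map_mul, map_X, map_C, map_Rp,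
      ← derivative_map, map_Rp]
    congr 2
    rw [map_pow, ← heε]
    rfl
  have hloc := fun q : Fin (m - 1) × Bool => c11_loc hm q.1.2
    (σ := if q.2 then 1 else -1) (by by_cases h : q.2 = true <;> simp [h]) hε
  choose t ht1 ht2 ht3 ht4 using hloc
  have hRp : Rp ℝ m = ∏ i ∈ Finset.range (m - 1), (X - C ((fun i : ℕ => (i : ℝ) ^ 2) i)) := rfl
  have hval : ∀ q, (c.map (algebraMap ℚ ℝ)).eval (t q) / (Rp ℝ m).eval (t q) =
      t q + ε ^ 2 * ∑ j ∈ Finset.range (m - 1), 1 / (t q - (j : ℝ) ^ 2) := by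
    intro q
    obtain ⟨h1, h2, -⟩ := c11_logder (fun i : ℕ => (i : ℝ) ^ 2) (t q) _ (ht1 q)
    rw [← hRp] at h1 h2
    rw [hcmap, eval_add, eval_mul, eval_mul, eval_X, eval_C, h2]
    field_simp
  refine ⟨c, ?_, ?_, t, fun q => ?_, fun q => ?_, ?_⟩
  · rw [hc]
    exact hXR.add_of_left hdeg
  · rw [hc, natDegree_add_eq_left_of_degree_lt hdeg, hXRd]
  · obtain ⟨h1, h2, h3⟩ := c11_logder (fun i : ℕ => (i : ℝ) ^ 2) (t q) _ (ht1 q)
    rw [← hRp] at h1 h2 h3
    have e1 : (Jp m (c.map (algebraMap ℚ ℝ))).eval (t q) = (Rp ℝ m).eval (t q) ^ 2 +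
        ε ^ 2 * ((derivative (derivative (Rp ℝ m))).eval (t q) * (Rp ℝ m).eval (t q) -
          (derivative (Rp ℝ m)).eval (t q) ^ 2) := by
      unfold Jp
      rw [hcmap]
      simp only [derivative_add, derivative_mul, derivative_X, derivative_C, eval_sub, eval_add,
        eval_mul, eval_X, eval_C, one_mul, zero_mul, zero_add]
      ring
    rw [e1, h3]
    have e2 := ht2 q
    have e3 : (Rp ℝ m).eval (t q) ^ 2 + ε ^ 2 * -((Rp ℝ m).eval (t q) ^ 2 *
        ∑ j ∈ Finset.range (m - 1), 1 / (t q - (j : ℝ) ^ 2) ^ 2) =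
        (Rp ℝ m).eval (t q) ^ 2 *
          (1 - ε ^ 2 * ∑ j ∈ Finset.range (m - 1), 1 / (t q - (j : ℝ) ^ 2) ^ 2) := by ring
    rw [e3, e2, mul_zero]
  · obtain ⟨h1, -, -⟩ := c11_logder (fun i : ℕ => (i : ℝ) ^ 2) (t q) _ (ht1 q)
    rw [← hRp] at h1
    exact h1
  · rintro ⟨i, b⟩ ⟨i', b'⟩ hii
    simp only [hval] at hii
    have h3 := ht3 (i, b)
    have h4 := ht4 (i, b)
    have h3' := ht3 (i', b')
    have h4' := ht4 (i', b')
    obtain ⟨V, hV⟩ : ∃ V, V = t (i, b) + ε ^ 2 *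
      ∑ j ∈ Finset.range (m - 1), 1 / (t (i, b) - (j : ℝ) ^ 2) := ⟨_, rfl⟩
    rw [← hV] at h3 h4 hii
    rw [← hii] at h3' h4'
    have key : ∀ (b : Bool) (a : ℝ), 3 / 2 * ε ≤ (if b then 1 else -1) * (V - a) →
        (if b then 1 else -1) * (V - a) ≤ 3 * ε → |V - a| ≤ 3 * ε := by
      intro b a k1 k2
      cases b
      · simp only [Bool.false_eq_true, if_false] at k1 k2
        rw [abs_le]
        constructor <;> linarith
      · simp only [if_true] at k1 k2
        rw [abs_le]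
        constructor <;> linarith
    have k1 := key b _ h3 h4
    have k2 := key b' _ h3' h4'
    have hi : i = i' := by
      by_contra hne
      have h5 := c11_dist (i := i) (j := i') fun h => hne (Fin.ext h).symm
      have h6 : |((i : ℕ) : ℝ) ^ 2 - ((i' : ℕ) : ℝ) ^ 2| ≤ 6 * ε := by
        have h7 := abs_sub (V - ((i' : ℕ) : ℝ) ^ 2) (V - ((i : ℕ) : ℝ) ^ 2)
        have h8 : V - ((i' : ℕ) : ℝ) ^ 2 - (V - ((i : ℕ) : ℝ) ^ 2) =
          ((i : ℕ) : ℝ) ^ 2 - ((i' : ℕ) : ℝ) ^ 2 := by ring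
        rw [h8] at h7
        linarith
      linarith
    subst hi
    have hb : b = b' := by
      cases b <;> cases b' <;> simp only [Bool.false_eq_true, if_false, if_true] at h3 h3' ⊢
      · linarith
      · linarith
    rw [hb]

end Pool.Agent.Lib.MP_12adaf_nt.HM
end

section

/-!
# Generic polynomials exist
-/

namespace Pool.Agent.Lib.MP_12adaf_nt.HM

open TF Matrix Polynomial

/-- **Job C12.** Generic rational polynomials.

Proof. `exists_critical`; the points `t i` are distinct (their values are), there are `2 m - 2` of them,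
and `J` is monic of degree `2 m - 2` (`Jp_monic`), so `J = ∏ (X - t i)` (reindex by
`Fin (2 * m - 2)`), and `Phi_ne_zero_of_roots` over `ℝ`; `map_Phi` for `ℚ → ℝ`. -/
theorem exists_generic {m : ℕ} (hm : 2 ≤ m) :
    ∃ c : ℚ[X], c.Monic ∧ c.natDegree = m ∧ Phi m c ≠ 0 := by
  classical
  obtain ⟨c, hc, hd, t, hJ, hR, hinj⟩ := exists_critical hm
  refine ⟨c, hc, hd, ?_⟩
  have hcr : (c.map (algebraMap ℚ ℝ)).Monic := hc.map _
  have hdr : (c.map (algebraMap ℚ ℝ)).natDegree = m := by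
    rw [hc.natDegree_map, hd]
  have hcard : Fintype.card (Fin (m - 1) × Bool) = 2 * m - 2 := by
    rw [Fintype.card_prod, Fintype.card_fin, Fintype.card_bool]
    omega
  let e : Fin (m - 1) × Bool ≃ Fin (2 * m - 2) := Fintype.equivFinOfCardEq hcard
  obtain ⟨t', ht'⟩ : ∃ t' : Fin (2 * m - 2) → ℝ, t' = fun i => t (e.symm i) := ⟨_, rfl⟩
  have hinj' : Function.Injective fun i =>
      (c.map (algebraMap ℚ ℝ)).eval (t' i) / (Rp ℝ m).eval (t' i) := by
    rw [ht']
    exact hinj.comp e.symm.injective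
  have htinj : Function.Injective t' := by
    intro i j hij
    apply hinj'
    simp only [hij]
  obtain ⟨hJm, hJd⟩ := Jp_monic hm hcr hdr
  have hPm : (∏ i : Fin (2 * m - 2), (X - C (t' i))).Monic :=
    monic_prod_of_monic _ _ fun i _ => monic_X_sub_C _
  have hPd : (∏ i : Fin (2 * m - 2), (X - C (t' i))).natDegree = 2 * m - 2 := by
    rw [natDegree_prod_of_monic _ _ fun i _ => monic_X_sub_C _]
    simp
  have hJP : Jp m (c.map (algebraMap ℚ ℝ)) = ∏ i : Fin (2 * m - 2), (X - C (t' i)) := by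
    refine eq_of_degree_sub_lt_of_eval_index_eq Finset.univ htinj.injOn ?_ fun i _ => ?_
    · have h1 : (Jp m (c.map (algebraMap ℚ ℝ))).degree =
          (∏ i : Fin (2 * m - 2), (X - C (t' i))).degree := by
        rw [degree_eq_natDegree hJm.ne_zero, degree_eq_natDegree hPm.ne_zero, hJd, hPd]
      have h2 := degree_sub_lt_left h1 hJm.ne_zero (by rw [hJm.leadingCoeff, hPm.leadingCoeff])
      rw [degree_eq_natDegree hJm.ne_zero, hJd] at h2
      rw [Finset.card_univ, Fintype.card_fin]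
      exact h2
    · rw [eval_prod, Finset.prod_eq_zero (Finset.mem_univ i) (by simp), ht']
      exact hJ _
  have hPhi := Phi_ne_zero_of_roots hm hcr hdr hJP (by rw [ht']; exact fun i => hR _) hinj'
  intro h0
  apply hPhi
  rw [← map_Phi, h0, map_zero]

private theorem c12_shift {A B : Type*} [CommRing A] [CommRing B] (φ : A →+* B) (p : A[X])
    (a : A) : (p + C a).map φ = p.map φ + C (φ a) := by
  rw [Polynomial.map_add, map_C]

theorem c12_monic {A : Type*} [CommRing A] [Nontrivial A] {m : ℕ} (hm : 2 ≤ m) {p : A[X]}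
    (hp : p.Monic) (hd : p.natDegree = m) (a : A) :
    (p + C a).Monic ∧ (p + C a).natDegree = m ∧ (p + C a).coeff 0 = p.coeff 0 + a := by
  have hdeg : degree (C a) < degree p := by
    rw [degree_eq_natDegree hp.ne_zero, hd]
    refine lt_of_le_of_lt degree_C_le ?_
    exact_mod_cast (by omega : 0 < m)
  refine ⟨hp.add_of_left hdeg, ?_, ?_⟩
  · rw [natDegree_add_eq_left_of_degree_lt hdeg, hd]
  · simp

/-- **Job C12, second part.** Generic polynomials with constant coefficient in `d * squares`.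

Proof. Let `c_g` be the image in `k[X]` of the polynomial of `exists_generic`, `γ = c_g(0)`. Let
`A = k[Z]` (a polynomial ring) and `c_Z := c_g - γ + d Z² ∈ A[X]`. `Phi m c_Z ∈ A` is a polynomial in
`Z`; its value at `z` (in any field extension) is `Phi m (c_g - γ + d z²)` (`map_Phi` for the
evaluation). At `z = √(γ / d)` in the algebraic closure of `k` the value is `Phi m c_g ≠ 0`. So
`Phi m c_Z ≠ 0`, and, `k` being infinite, there is `z ∈ k`, `z ≠ 0`, with
`Phi m (c_g - γ + d z²) ≠ 0`. -/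
theorem exists_generic_point {k : Type*} [Field k] [CharZero k] {m : ℕ} (hm : 2 ≤ m) {d : k}
    (hd : d ≠ 0) :
    ∃ (c : k[X]) (z : k), c.Monic ∧ c.natDegree = m ∧ c.coeff 0 = d * z ^ 2 ∧ z ≠ 0 ∧
      Phi m c ≠ 0 := by
  obtain ⟨c0, hc0, hd0, hP0⟩ := exists_generic hm
  obtain ⟨cg, hcg⟩ : ∃ cg : k[X], cg = c0.map (algebraMap ℚ k) := ⟨_, rfl⟩
  have hcgm : cg.Monic := by rw [hcg]; exact hc0.map _
  have hcgd : cg.natDegree = m := by rw [hcg, hc0.natDegree_map, hd0]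
  have hcgP : Phi m cg ≠ 0 := by
    rw [hcg, ← map_Phi]
    exact (map_ne_zero_iff _ (algebraMap ℚ k).injective).mpr hP0
  obtain ⟨γ, hγ⟩ : ∃ γ, γ = cg.coeff 0 := ⟨_, rfl⟩
  obtain ⟨cZ, hcZ⟩ : ∃ cZ : k[X][X], cZ = cg.map C + C (C d * X ^ 2 - C γ) := ⟨_, rfl⟩
  -- the generic value is not zero
  have hne : Phi m cZ ≠ 0 := by
    obtain ⟨z, hz⟩ := IsAlgClosed.exists_pow_nat_eq
      (algebraMap k (AlgebraicClosure k) (γ / d)) (n := 2) (by norm_num)
    intro h0
    have h1 := map_Phi (eval₂RingHom (algebraMap k (AlgebraicClosure k)) z) m cZ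
    rw [h0, map_zero, hcZ, c12_shift, Polynomial.map_map] at h1
    have h2 : (eval₂RingHom (algebraMap k (AlgebraicClosure k)) z).comp C =
        algebraMap k (AlgebraicClosure k) := by
      ext a
      simp
    have h3 : (eval₂RingHom (algebraMap k (AlgebraicClosure k)) z) (C d * X ^ 2 - C γ) = 0 := by
      have h4 : (eval₂RingHom (algebraMap k (AlgebraicClosure k)) z) (C d * X ^ 2 - C γ) =
          algebraMap k (AlgebraicClosure k) d * z ^ 2 - algebraMap k (AlgebraicClosure k) γ := by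
        simp
      rw [h4, hz, ← map_mul, mul_div_cancel₀ γ hd, sub_self]
    rw [h2, h3, C_0, add_zero, ← map_Phi] at h1
    exact hcgP ((map_eq_zero_iff _ (algebraMap k (AlgebraicClosure k)).injective).mp h1.symm)
  obtain ⟨z, hz⟩ : ∃ z : k, (Phi m cZ * X).eval z ≠ 0 := by
    by_contra hcon
    push Not at hcon
    have h1 : Phi m cZ * X = 0 := Polynomial.funext fun z => by rw [hcon z, eval_zero]
    rcases mul_eq_zero.mp h1 with h2 | h2
    · exact hne h2
    · exact X_ne_zero h2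
  rw [eval_mul, eval_X] at hz
  have hz0 : z ≠ 0 := right_ne_zero_of_mul hz
  have hz1 : (Phi m cZ).eval z ≠ 0 := left_ne_zero_of_mul hz
  obtain ⟨g1, g2, g3⟩ := c12_monic hm hcgm hcgd (d * z ^ 2 - γ)
  refine ⟨cg + C (d * z ^ 2 - γ), z, g1, g2, ?_, hz0, ?_⟩
  · rw [g3, hγ]
    ring
  · have h1 := map_Phi (evalRingHom z) m cZ
    have h2 : (evalRingHom z).comp C = RingHom.id k := by
      ext a
      simp
    have h3 : (evalRingHom z) (C d * X ^ 2 - C γ) = d * z ^ 2 - γ := by simp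
    rw [hcZ, c12_shift, Polynomial.map_map, h2, Polynomial.map_id, h3] at h1
    rw [← h1, ← hcZ]
    exact hz1

end Pool.Agent.Lib.MP_12adaf_nt.HM
end

section

/-!
# Generic polynomials near local ones
-/

namespace Pool.Agent.Lib.MP_12adaf_nt.HM

open NumberField IsDedekindDomain IsDedekindDomain.HeightOneSpectrum TF Matrix Polynomial Filter Topology

variable {k : Type*} [Field k] [NumberField k]

/-- Simultaneous approximation. -/
private lemma c13_approx (S : Finset (Pl k)) (ε : Pl k → ℝ) (hε : ∀ i, 0 < ε i)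
    (c : ∀ i : Pl k, PlC k i) : ∃ q : k, ∀ i ∈ S, ‖plEmb k i q - c i‖ < ε i := by
  classical
  rcases S.eq_empty_or_nonempty with rfl | hS
  · exact ⟨0, by simp⟩
  let f : {i // i ∈ S} → Pl k := Subtype.val
  have hf : Function.Injective f := Subtype.val_injective
  obtain ⟨δ, hδ, hδle⟩ : ∃ δ : ℝ, 0 < δ ∧ ∀ i ∈ S, δ ≤ ε i := by
    obtain ⟨j, hj, hmin⟩ := S.exists_min_image ε hS
    exact ⟨ε j, hε j, hmin⟩
  obtain ⟨q, hq⟩ := (denseRange_places k f hf).exists_dist_lt (fun i => c (f i)) hδ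
  rw [dist_pi_lt_iff hδ] at hq
  refine ⟨q, fun i hi => ?_⟩
  have h1 := hq ⟨i, hi⟩
  rw [dist_comm, dist_eq_norm] at h1
  exact lt_of_lt_of_le h1 (hδle i hi)

/-- small nonzero elements -/
private lemma c13_small (i : Pl k) {δ : ℝ} (hδ : 0 < δ) : ∃ t : k, t ≠ 0 ∧ ‖plEmb k i t‖ < δ := by
  obtain ⟨x, hx0, hx1⟩ := plAbv_isNontrivial k i
  obtain ⟨y, hy0, hy1⟩ : ∃ y : k, y ≠ 0 ∧ ‖plEmb k i y‖ < 1 := by
    rcases lt_or_gt_of_ne hx1 with h | h
    · exact ⟨x, hx0, by rw [norm_plEmb]; exact h⟩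
    · refine ⟨x⁻¹, inv_ne_zero hx0, ?_⟩
      rw [norm_plEmb, map_inv₀]
      exact inv_lt_one_of_one_lt₀ h
  obtain ⟨N, hN⟩ := exists_pow_lt_of_lt_one hδ hy1
  refine ⟨y ^ N, pow_ne_zero _ hy0, ?_⟩
  rw [map_pow, norm_pow]
  exact hN

/-- simultaneously small nonzero elements -/
private lemma c13_small' {S : Finset (Pl k)} (hS : S.Nonempty) (δ : Pl k → ℝ)
    (hδ : ∀ i, 0 < δ i) : ∃ l : k, l ≠ 0 ∧ ∀ i ∈ S, ‖plEmb k i l‖ < δ i := by
  choose t ht0 ht using fun i : Pl k => c13_small i (half_pos (hδ i))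
  obtain ⟨l, hl⟩ := c13_approx S (fun i => min (δ i / 2) ‖plEmb k i (t i)‖)
    (fun i => lt_min (half_pos (hδ i)) (norm_pos_iff.mpr
      ((map_ne_zero_iff _ (plEmb k i).injective).mpr (ht0 i)))) (fun i => plEmb k i (t i))
  refine ⟨l, ?_, fun i hi => ?_⟩
  · rintro rfl
    obtain ⟨i, hi⟩ := hS
    have h1 := hl i hi
    rw [map_zero, zero_sub, norm_neg, lt_min_iff] at h1
    exact lt_irrefl _ h1.2
  · have h1 := (lt_min_iff.mp (hl i hi)).1
    have h2 := ht i
    have h3 := norm_add_le (plEmb k i l - plEmb k i (t i)) (plEmb k i (t i))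
    rw [sub_add_cancel] at h3
    linarith

private lemma c13_delta (i : Pl k) (B : Finset k) :
    ∃ δ : ℝ, 0 < δ ∧ ∀ b ∈ B, b ≠ 0 → δ ≤ ‖plEmb k i b‖ := by
  classical
  induction B using Finset.induction_on with
  | empty => exact ⟨1, one_pos, by simp⟩
  | insert a B ha ih =>
    obtain ⟨δ, hδ, h⟩ := ih
    by_cases ha0 : a = 0
    · refine ⟨δ, hδ, fun b hb hb0 => ?_⟩
      rcases Finset.mem_insert.mp hb with h1 | h1
      · exact absurd (h1.trans ha0) hb0
      · exact h b h1 hb0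
    · refine ⟨min δ ‖plEmb k i a‖, lt_min hδ (norm_pos_iff.mpr
        ((map_ne_zero_iff _ (plEmb k i).injective).mpr ha0)), fun b hb hb0 => ?_⟩
      rcases Finset.mem_insert.mp hb with h1 | h1
      · rw [h1]
        exact min_le_right _ _
      · exact (min_le_left _ _).trans (h b h1 hb0)

private lemma c13_poly {K : Type*} [Field K] {m : ℕ} (b : ℕ → K) :
    ∃ q : K[X], q.Monic ∧ q.natDegree = m ∧ ∀ j < m, q.coeff j = b j := by
  classical
  have hcoef : ∀ n, (∑ j ∈ Finset.range m, C (b j) * X ^ j : K[X]).coeff n =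
      if n < m then b n else 0 := by
    intro n
    rw [finsetSum_coeff]
    simp only [coeff_C_mul_X_pow]
    by_cases hn : n < m
    · rw [if_pos hn, Finset.sum_eq_single n]
      · simp
      · intro c _ hc
        rw [if_neg hc.symm]
      · intro h
        exact absurd (Finset.mem_range.mpr hn) h
    · rw [if_neg hn]
      apply Finset.sum_eq_zero
      intro c hc
      rw [if_neg]
      rintro rfl
      exact hn (Finset.mem_range.mp hc)
  have hdeg : degree (∑ j ∈ Finset.range m, C (b j) * X ^ j : K[X]) < m := by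
    rw [degree_lt_iff_coeff_zero]
    intro n hn
    rw [hcoef, if_neg (by omega)]
  refine ⟨X ^ m + ∑ j ∈ Finset.range m, C (b j) * X ^ j, monic_X_pow_add hdeg, ?_, ?_⟩
  · have h1 : degree (∑ j ∈ Finset.range m, C (b j) * X ^ j : K[X]) < degree (X ^ m : K[X]) := by
      rw [degree_X_pow]
      exact hdeg
    rw [natDegree_add_eq_left_of_degree_lt h1, natDegree_X_pow]
  · intro j hj
    rw [coeff_add, coeff_X_pow, if_neg (by omega), zero_add, hcoef, if_pos hj]

private lemma c13_high {K L : Type*} [Field K] [Field L] (φ : K →+* L) {m : ℕ} {c : K[X]}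
    {c' : L[X]} (hc : c.Monic) (hd : c.natDegree = m) (hc' : c'.Monic) (hd' : c'.natDegree = m)
    {j : ℕ} (hj : m ≤ j) : φ (c.coeff j) - c'.coeff j = 0 := by
  rcases hj.lt_or_eq with h | h
  · rw [coeff_eq_zero_of_natDegree_lt (by omega), coeff_eq_zero_of_natDegree_lt (by omega),
      map_zero, sub_zero]
  · have h1 : c.coeff j = 1 := by rw [← h, ← hd]; exact hc.coeff_natDegree
    have h2 : c'.coeff j = 1 := by rw [← h, ← hd']; exact hc'.coeff_natDegree
    rw [h1, h2, map_one, sub_self]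

/-- the first approximation -/
private lemma c13_first (S : Finset (Pl k)) {m : ℕ} (hm : 2 ≤ m) (d : k)
    (cv : ∀ i : Pl k, (PlC k i)[X]) (zv : ∀ i : Pl k, PlC k i)
    (hcm : ∀ i ∈ S, (cv i).Monic) (hcd : ∀ i ∈ S, (cv i).natDegree = m)
    (hc0 : ∀ i ∈ S, (cv i).coeff 0 = plEmb k i d * zv i ^ 2) {ε : ℝ} (hε : 0 < ε) :
    ∃ (c : k[X]) (z : k), c.Monic ∧ c.natDegree = m ∧ c.coeff 0 = d * z ^ 2 ∧
      ∀ i ∈ S, (∀ j, ‖plEmb k i (c.coeff j) - (cv i).coeff j‖ < ε) ∧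
        ‖plEmb k i z - zv i‖ < ε := by
  classical
  have hz : ∀ i : Pl k, ∃ δ : ℝ, 0 < δ ∧ ∀ z' : PlC k i, ‖z' - zv i‖ < δ →
      ‖plEmb k i d * z' ^ 2 - plEmb k i d * zv i ^ 2‖ < ε := by
    intro i
    have hc : ContinuousAt (fun z : PlC k i => plEmb k i d * z ^ 2) (zv i) := by
      apply Continuous.continuousAt
      fun_prop
    obtain ⟨δ, hδ, H⟩ := Metric.continuousAt_iff.mp hc ε hε
    refine ⟨δ, hδ, fun z' hz' => ?_⟩
    have h1 := H (x := z') (by rw [dist_eq_norm]; exact hz')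
    rw [dist_eq_norm] at h1
    exact h1
  choose δ hδ hδ' using hz
  obtain ⟨z, hz⟩ := c13_approx S (fun i => min ε (δ i)) (fun i => lt_min hε (hδ i)) zv
  choose a ha using fun j : ℕ => c13_approx S (fun _ => ε) (fun _ => hε) fun i => (cv i).coeff j
  obtain ⟨q, hq1, hq2, hq3⟩ := c13_poly (m := m) fun j => if j = 0 then d * z ^ 2 else a j
  refine ⟨q, z, hq1, hq2, ?_, fun i hi => ⟨fun j => ?_, (lt_min_iff.mp (hz i hi)).1⟩⟩
  · rw [hq3 0 (by omega), if_pos rfl]
  · by_cases hj : j < m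
    · rw [hq3 j hj]
      by_cases hj0 : j = 0
      · rw [if_pos hj0, hj0, hc0 i hi, map_mul, map_pow]
        exact hδ' i _ (lt_min_iff.mp (hz i hi)).2
      · rw [if_neg hj0]
        exact ha j i hi
    · rw [c13_high (plEmb k i) hq1 hq2 (hcm i hi) (hcd i hi) (by omega), norm_zero]
      exact hε

/-- **Job C13.** Generic polynomials near local ones.

Proof. If `S` is empty use `exists_generic_point`. By weak approximation (`denseRange_places`; compare
the private lemma `q08_approx` in Q08) choose `z₀ ∈ k` close to `zv i` and coefficients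
`a_j ∈ k`, `1 ≤ j < m`, close to the coefficients of `cv i`, for all `i ∈ S`, and let
`c₀ = X^m + ∑ a_j X^j + d z₀²`: `c₀(0) = d z₀²` is close to `d (zv i)²` by continuity. Let
`(c¹, z¹)` be a generic point (`exists_generic_point`). For `l ∈ k` put `z_l := z₀ + l (z¹ - z₀)`,
`c_l := (c₀ - c₀(0)) + l ((c¹ - c¹(0)) - (c₀ - c₀(0))) + d z_l²`, monic of degree `m`. `Phi m c_l` and
`z_l` are polynomials in `l` (`map_Phi`, as in C12), not zero at `l = 1`, so they have finitely many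
zeros. Let `i₀ ∈ S`; the nonzero zeros have norm `≥ δ' > 0` at `i₀`. Choose `l ≠ 0` in `k` close to `0`
at all the places of `S`, with norm `< δ'` at `i₀`; then `Phi m c_l ≠ 0`, `z_l ≠ 0`, and `c_l`, `z_l`
are close to `c₀`, `z₀`. -/
theorem exists_near_generic (S : Finset (Pl k)) {m : ℕ} (hm : 2 ≤ m) {d : k} (hd : d ≠ 0)
    (cv : ∀ i : Pl k, (PlC k i)[X]) (zv : ∀ i : Pl k, PlC k i)
    (hcm : ∀ i ∈ S, (cv i).Monic) (hcd : ∀ i ∈ S, (cv i).natDegree = m)
    (hc0 : ∀ i ∈ S, (cv i).coeff 0 = plEmb k i d * zv i ^ 2) {ε : ℝ} (hε : 0 < ε) :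
    ∃ (c : k[X]) (z : k), c.Monic ∧ c.natDegree = m ∧ c.coeff 0 = d * z ^ 2 ∧ z ≠ 0 ∧
      Phi m c ≠ 0 ∧ ∀ i ∈ S, (∀ j, ‖plEmb k i (c.coeff j) - (cv i).coeff j‖ < ε) ∧
        ‖plEmb k i z - zv i‖ < ε := by
  classical
  obtain ⟨c1, z1, hc1m, hc1d, hc10, hz1, hP1⟩ := exists_generic_point hm hd
  rcases S.eq_empty_or_nonempty with rfl | hS
  · exact ⟨c1, z1, hc1m, hc1d, hc10, hz1, hP1, by simp⟩
  obtain ⟨c₀, z₀, hc₀m, hc₀d, hc₀0, happ⟩ := c13_first S hm d cv zv hcm hcd hc0 (half_pos hε)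
  obtain ⟨w, hw⟩ : ∃ w, w = z1 - z₀ := ⟨_, rfl⟩
  obtain ⟨D, hD⟩ : ∃ D, D = c1 - c₀ - C (c1.coeff 0 - c₀.coeff 0) := ⟨_, rfl⟩
  have hDdeg : degree D < m := by
    have h1 : degree (c1 - c₀) < m := by
      have h2 : degree c1 = degree c₀ := by
        rw [degree_eq_natDegree hc1m.ne_zero, degree_eq_natDegree hc₀m.ne_zero, hc1d, hc₀d]
      have h3 := degree_sub_lt_left h2 hc1m.ne_zero (by rw [hc1m.leadingCoeff, hc₀m.leadingCoeff])
      rw [degree_eq_natDegree hc1m.ne_zero, hc1d] at h3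
      exact h3
    have h2 : degree (C (c1.coeff 0 - c₀.coeff 0)) < m := by
      refine lt_of_le_of_lt degree_C_le ?_
      exact_mod_cast (by omega : 0 < m)
    rw [hD]
    exact lt_of_le_of_lt (degree_sub_le _ _) (max_lt h1 h2)
  have hD0 : D.coeff 0 = 0 := by
    rw [hD]
    simp
  -- the path
  obtain ⟨cL, hcL⟩ : ∃ cL : k[X][X], cL = c₀.map C + C X * D.map C +
    C (C d * (C z₀ + X * C w) ^ 2 - C (d * z₀ ^ 2)) := ⟨_, rfl⟩
  have hev : ∀ l : k, cL.map (evalRingHom l) =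
      c₀ + C l * D + C (d * (z₀ + l * w) ^ 2 - d * z₀ ^ 2) := by
    intro l
    have h2 : (evalRingHom l).comp C = RingHom.id k := by
      ext a
      simp
    rw [hcL, Polynomial.map_add, Polynomial.map_add, Polynomial.map_mul, map_C, map_C,
      Polynomial.map_map, Polynomial.map_map, h2, Polynomial.map_id, Polynomial.map_id]
    have h3 : (evalRingHom l) X = l := by simp
    have h4 : (evalRingHom l) (C d * (C z₀ + X * C w) ^ 2 - C (d * z₀ ^ 2)) =
        d * (z₀ + l * w) ^ 2 - d * z₀ ^ 2 := by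
      rw [coe_evalRingHom]
      simp only [eval_sub, eval_mul, eval_pow, eval_add, eval_C, eval_X]
    rw [h3, h4]
  have hgood : ∀ l : k, (cL.map (evalRingHom l)).Monic ∧ (cL.map (evalRingHom l)).natDegree = m ∧
      (cL.map (evalRingHom l)).coeff 0 = d * (z₀ + l * w) ^ 2 := by
    intro l
    have h1 : degree (C l * D) < degree c₀ := by
      rw [degree_eq_natDegree hc₀m.ne_zero, hc₀d, degree_lt_iff_coeff_zero]
      intro n hn
      rw [coeff_C_mul, (degree_lt_iff_coeff_zero _ _).mp hDdeg n hn, mul_zero]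
    have h2 : (c₀ + C l * D).Monic := hc₀m.add_of_left h1
    have h3 : (c₀ + C l * D).natDegree = m := by
      rw [natDegree_add_eq_left_of_degree_lt h1, hc₀d]
    obtain ⟨g1, g2, g3⟩ := c12_monic hm h2 h3 (d * (z₀ + l * w) ^ 2 - d * z₀ ^ 2)
    rw [hev]
    refine ⟨g1, g2, ?_⟩
    rw [g3, coeff_add, coeff_C_mul, hD0, hc₀0]
    ring
  obtain ⟨Ψ, hΨ⟩ : ∃ Ψ : k[X], Ψ = Phi m cL * (C z₀ + X * C w) := ⟨_, rfl⟩
  have hΨev : ∀ l : k, Ψ.eval l = Phi m (cL.map (evalRingHom l)) * (z₀ + l * w) := by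
    intro l
    rw [hΨ, eval_mul, ← map_Phi, coe_evalRingHom]
    simp only [eval_mul, eval_add, eval_C, eval_X]
  have hΨ0 : Ψ ≠ 0 := by
    intro h0
    have h1 := hΨev 1
    have h2 : cL.map (evalRingHom (1 : k)) = c1 := by
      rw [hev, hD, hw, hc10, hc₀0]
      simp only [C_1, one_mul, C_sub]
      ring_nf
    rw [h0, eval_zero, h2, hw] at h1
    have h3 : z₀ + 1 * (z1 - z₀) = z1 := by ring
    rw [h3] at h1
    exact mul_ne_zero hP1 hz1 h1.symm
  -- the size of `l`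
  obtain ⟨i₀, hi₀⟩ := hS
  obtain ⟨δ', hδ'0, hδ'⟩ := c13_delta i₀ Ψ.roots.toFinset
  obtain ⟨M, hM⟩ : ∃ M : Pl k → ℝ, M = fun i => (∑ j ∈ Finset.range (m + 1),
    ‖plEmb k i (D.coeff j)‖) + ‖plEmb k i (d * (2 * z₀ * w))‖ + ‖plEmb k i (d * w ^ 2)‖ +
    ‖plEmb k i w‖ + 1 := ⟨_, rfl⟩
  have hsumnn : ∀ i : Pl k, 0 ≤ ∑ j ∈ Finset.range (m + 1), ‖plEmb k i (D.coeff j)‖ :=
    fun i => Finset.sum_nonneg fun j _ => norm_nonneg _
  have hM0 : ∀ i, 0 < M i := by
    intro i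
    have := hsumnn i
    rw [hM]
    positivity
  obtain ⟨l, hl0, hl⟩ := c13_small' ⟨i₀, hi₀⟩ (fun i => min δ' (min 1 (ε / (2 * M i))))
    (fun i => by
      have := hM0 i
      exact lt_min hδ'0 (lt_min one_pos (by positivity)))
  obtain ⟨g1, g2, g3⟩ := hgood l
  have hΨl : Ψ.eval l ≠ 0 := by
    intro h0
    have h1 : l ∈ Ψ.roots.toFinset := by
      rw [Multiset.mem_toFinset, mem_roots hΨ0]
      exact h0
    have h2 := hδ' l h1 hl0
    have h3 := (lt_min_iff.mp (hl i₀ hi₀)).1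
    linarith
  rw [hΨev] at hΨl
  refine ⟨cL.map (evalRingHom l), z₀ + l * w, g1, g2, g3, right_ne_zero_of_mul hΨl,
    left_ne_zero_of_mul hΨl, fun i hi => ?_⟩
  obtain ⟨hl1, hl2⟩ := lt_min_iff.mp (lt_min_iff.mp (hl i hi)).2
  have hMi := hM0 i
  have hlM : ‖plEmb k i l‖ * M i < ε / 2 := by
    rw [lt_div_iff₀ (by positivity)] at hl2
    linarith
  obtain ⟨happ1, happ2⟩ := happ i hi
  have hdiff : ∀ j, ‖plEmb k i ((cL.map (evalRingHom l)).coeff j) - plEmb k i (c₀.coeff j)‖ ≤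
      ‖plEmb k i l‖ * M i := by
    intro j
    have e1 : (cL.map (evalRingHom l)).coeff j - c₀.coeff j = l * D.coeff j +
        (C (d * (z₀ + l * w) ^ 2 - d * z₀ ^ 2)).coeff j := by
      rw [hev, coeff_add, coeff_add, coeff_C_mul]
      ring
    rw [← map_sub, e1]
    by_cases hj0 : j = 0
    · rw [hj0, hD0, mul_zero, zero_add, coeff_C_zero]
      have e2 : d * (z₀ + l * w) ^ 2 - d * z₀ ^ 2 =
        l * (d * (2 * z₀ * w)) + l * (l * (d * w ^ 2)) := by ring
      rw [e2, map_add, map_mul (plEmb k i) l (d * (2 * z₀ * w)),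
        map_mul (plEmb k i) l (l * (d * w ^ 2)), map_mul (plEmb k i) l (d * w ^ 2)]
      have e3 := norm_add_le (plEmb k i l * plEmb k i (d * (2 * z₀ * w)))
        (plEmb k i l * (plEmb k i l * plEmb k i (d * w ^ 2)))
      rw [norm_mul, norm_mul, norm_mul] at e3
      have e4 : ‖plEmb k i l‖ * ‖plEmb k i (d * w ^ 2)‖ ≤ ‖plEmb k i (d * w ^ 2)‖ := by
        have := mul_le_mul_of_nonneg_right hl1.le (norm_nonneg (plEmb k i (d * w ^ 2)))
        linarith
      have e5 := mul_le_mul_of_nonneg_left e4 (norm_nonneg (plEmb k i l))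
      have e6 : ‖plEmb k i (d * (2 * z₀ * w))‖ + ‖plEmb k i (d * w ^ 2)‖ ≤ M i := by
        have h7 := hsumnn i
        have h8 := norm_nonneg (plEmb k i w)
        rw [hM]
        linarith
      have e7 := mul_le_mul_of_nonneg_left e6 (norm_nonneg (plEmb k i l))
      linarith
    · rw [coeff_C_of_ne_zero hj0, add_zero, map_mul, norm_mul]
      apply mul_le_mul_of_nonneg_left _ (norm_nonneg _)
      by_cases hjm : j < m + 1
      · have e2 := Finset.single_le_sum (f := fun j => ‖plEmb k i (D.coeff j)‖)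
          (fun j _ => norm_nonneg _) (Finset.mem_range.mpr hjm)
        have h8 := norm_nonneg (plEmb k i w)
        have h9 := norm_nonneg (plEmb k i (d * (2 * z₀ * w)))
        have h10 := norm_nonneg (plEmb k i (d * w ^ 2))
        rw [hM]
        simp only at e2 ⊢
        linarith
      · have e2 : D.coeff j = 0 := coeff_eq_zero_of_degree_lt (lt_of_lt_of_le hDdeg (by
          exact_mod_cast (by omega : m ≤ j)))
        rw [e2, map_zero, norm_zero]
        exact hMi.le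
  refine ⟨fun j => ?_, ?_⟩
  · have e1 := norm_add_le (plEmb k i ((cL.map (evalRingHom l)).coeff j) -
      plEmb k i (c₀.coeff j)) (plEmb k i (c₀.coeff j) - (cv i).coeff j)
    rw [sub_add_sub_cancel] at e1
    have e2 := hdiff j
    have e3 := happ1 j
    linarith
  · have e1 : plEmb k i (z₀ + l * w) - zv i = plEmb k i l * plEmb k i w +
        (plEmb k i z₀ - zv i) := by
      rw [map_add, map_mul]
      ring
    rw [e1]
    have e2 := norm_add_le (plEmb k i l * plEmb k i w) (plEmb k i z₀ - zv i)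
    rw [norm_mul] at e2
    have e3 : ‖plEmb k i w‖ ≤ M i := by
      have h7 := hsumnn i
      have h9 := norm_nonneg (plEmb k i (d * (2 * z₀ * w)))
      have h10 := norm_nonneg (plEmb k i (d * w ^ 2))
      rw [hM]
      linarith
    have e4 := mul_le_mul_of_nonneg_left e3 (norm_nonneg (plEmb k i l))
    linarith

end Pool.Agent.Lib.MP_12adaf_nt.HM
end
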