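import Mathlib
import Pool.Agent.Lib.MP_12adaf_nt.HM.T8
import Pool.Agent.Lib.MP_12adaf_nt.HM.C04
import Pool.Agent.Lib.MP_12adaf_nt.TF.Six
import Pool.Agent.Lib.MP_12adaf_nt.OddNF
import Pool.Agent.Lib.MP_12adaf_nt.CM.Main
import Pool.Agent.Lib.MP_12adaf_nt.HM.Q10

section

/-!
# Products of quadratic algebras
-/

namespace Pool.Agent.Lib.MP_12adaf_nt.HM

open TF Matrix Polynomial

private lemma v3_diag {K : Type*} [Field K] [CharZero K] {a b c : K} (hc : c ≠ 0) :
    Cong (osum (osum (sq1 2) (sq1 (2 * (4 * a)))) (osum (sq1 2) (sq1 (2 * (4 * (b * c ^ 2))))))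
      (diagonal ![2, 2 * a, 2, 2 * b]) := by
  have h1 : Cong (sq1 (2 * (4 * a))) (sq1 (2 * a)) :=
    (Cong.sq1_of_eq (c := 2) two_ne_zero (by ring)).symm
  have h2 : Cong (sq1 (2 * (4 * (b * c ^ 2)))) (sq1 (2 * b)) :=
    (Cong.sq1_of_eq (c := 2 * c) (mul_ne_zero two_ne_zero hc) (by ring)).symm
  refine (Cong.osum (Cong.osum (Cong.refl _) h1) (Cong.osum (Cong.refl _) h2)).trans ?_
  simp only [sq1, osum_diagonal]
  let e : (Fin 1 ⊕ Fin 1) ⊕ (Fin 1 ⊕ Fin 1) ≃ Fin 4 :=
    (Equiv.sumCongr finSumFinEquiv finSumFinEquiv).trans finSumFinEquiv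
  refine (Cong.trans (Cong.diagonal_equiv ![2, 2 * a, 2, 2 * b] e) (Cong.of_eq ?_)).symm
  congr 1
  funext i
  rcases i with (i | i) | (i | i) <;> (have : i = 0 := Subsingleton.elim _ _) <;> subst this <;> rfl

private lemma v3_discr {K : Type*} [Field K] (a : K) :
    (X ^ 2 - C a : K[X]).discr = 4 * a := by
  have hd : (X ^ 2 - C a : K[X]).degree = 2 := degree_X_pow_sub_C two_pos a
  rw [discr_of_degree_eq_two hd]
  simp [coeff_X_pow, coeff_C]

private lemma v3_nod {K : Type*} [Field K] {M : ℕ} {s : Fin M → K} (hs : Function.Injective s) :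
    Cong (HH M (nod s)) (1 : Matrix (Fin M) (Fin M) K) := by
  have hV : IsUnit (Matrix.vandermonde s).det :=
    (Matrix.det_vandermonde_ne_zero_iff.mpr hs).isUnit
  refine Cong.symm ⟨Matrix.vandermonde s, (Matrix.vandermonde s)⁻¹, Matrix.mul_nonsing_inv _ hV,
    Matrix.nonsing_inv_mul _ hV, ?_⟩
  rw [Matrix.mul_one, HH_nod hs]

/-- **Job V3.** The trace form of `K(√a) × K(√b) × K^(N-4)`.

Proof. Choose a natural number `μ ≠ 0` with `b μ² ≠ a` and `N - 4` distinct natural numbers `s_j` with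
`s_j² ≠ a`, `s_j² ≠ b μ²`, and `F := (X² - a) (X² - b μ²) ∏ (X - s_j)`, separable (distinct roots
in the closure; or products of coprime separable polynomials). `cong_mul`, `cong_two` (the
discriminants are `4 a`, `4 b μ²`), and for the linear factors `HH_le_one` by induction, or
`HH n (nod s) = Vᵀ V ≅ 1` (`HH_nod`, Vandermonde). -/
theorem exists_quad_poly {K : Type*} [Field K] [CharZero K] {N : ℕ} (hN : 4 ≤ N) {a b : K}
    (ha : a ≠ 0) (hb : b ≠ 0) :
    ∃ F : K[X], F.Monic ∧ F.natDegree = N ∧ F.Separable ∧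
      Cong (HH N F) (osum (diagonal ![2, 2 * a, 2, 2 * b])
        (1 : Matrix (Fin (N - 4)) (Fin (N - 4)) K)) := by
  classical
  obtain ⟨M, rfl⟩ : ∃ M, N = M + 4 := ⟨N - 4, by omega⟩
  rw [Nat.add_sub_cancel]
  obtain ⟨c, hc, hne⟩ : ∃ c : K, c ≠ 0 ∧ b * c ^ 2 ≠ a := by
    by_cases h : b = a
    · refine ⟨2, two_ne_zero, fun h' => ?_⟩
      rw [h] at h'
      have h3 : a * 3 = 0 := by linear_combination h'
      rcases mul_eq_zero.1 h3 with h4 | h4
      · exact ha h4
      · exact three_ne_zero h4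
    · exact ⟨1, one_ne_zero, by simpa using h⟩
  have hbc : b * c ^ 2 ≠ 0 := mul_ne_zero hb (pow_ne_zero _ hc)
  have hpm : (X ^ 2 - C a : K[X]).Monic := monic_X_pow_sub_C a two_ne_zero
  have hqm : (X ^ 2 - C (b * c ^ 2) : K[X]).Monic := monic_X_pow_sub_C _ two_ne_zero
  have hpd : (X ^ 2 - C a : K[X]).natDegree = 2 := natDegree_X_pow_sub_C
  have hqd : (X ^ 2 - C (b * c ^ 2) : K[X]).natDegree = 2 := natDegree_X_pow_sub_C
  have hps : (X ^ 2 - C a : K[X]).Separable :=
    separable_X_pow_sub_C a (by norm_num) ha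
  have hqs : (X ^ 2 - C (b * c ^ 2) : K[X]).Separable :=
    separable_X_pow_sub_C _ (by norm_num) hbc
  have hco : IsCoprime (X ^ 2 - C a : K[X]) (X ^ 2 - C (b * c ^ 2)) := by
    have hd : b * c ^ 2 - a ≠ 0 := sub_ne_zero.2 hne
    refine ⟨C (b * c ^ 2 - a)⁻¹, -C (b * c ^ 2 - a)⁻¹, ?_⟩
    have h1 : C (b * c ^ 2 - a)⁻¹ * (C (b * c ^ 2) - C a) = (1 : K[X]) := by
      rw [← C_sub, ← C_mul, inv_mul_cancel₀ hd, C_1]
    linear_combination h1
  have hpqs : ((X ^ 2 - C a) * (X ^ 2 - C (b * c ^ 2)) : K[X]).Separable := hps.mul hqs hco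
  have hpqm : ((X ^ 2 - C a) * (X ^ 2 - C (b * c ^ 2)) : K[X]).Monic := hpm.mul hqm
  have hfin : Set.Finite {x : K | ((X ^ 2 - C a) * (X ^ 2 - C (b * c ^ 2)) : K[X]).IsRoot x} := by
    have h := ((X ^ 2 - C a) * (X ^ 2 - C (b * c ^ 2)) : K[X]).roots.toFinset.finite_toSet
    refine h.subset fun x hx => ?_
    rw [Finset.mem_coe, Multiset.mem_toFinset, mem_roots hpqm.ne_zero]
    exact hx
  have hinf := hfin.infinite_compl
  obtain ⟨s, hs, hsr⟩ : ∃ s : Fin M → K, Function.Injective s ∧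
      ∀ j, ¬ ((X ^ 2 - C a) * (X ^ 2 - C (b * c ^ 2)) : K[X]).IsRoot (s j) := by
    have : Infinite ↥({x : K | ((X ^ 2 - C a) * (X ^ 2 - C (b * c ^ 2)) : K[X]).IsRoot x}ᶜ) :=
      hinf.to_subtype
    let f := Infinite.natEmbedding
      ↥({x : K | ((X ^ 2 - C a) * (X ^ 2 - C (b * c ^ 2)) : K[X]).IsRoot x}ᶜ)
    refine ⟨fun j => (f (j : ℕ) : K), fun i j h => ?_, fun j => (f (j : ℕ)).2⟩
    exact Fin.ext (f.injective (Subtype.ext h))
  have hcos : IsCoprime (nod s) ((X ^ 2 - C a) * (X ^ 2 - C (b * c ^ 2)) : K[X]) := by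
    rw [nod]
    refine IsCoprime.prod_left fun j _ => ?_
    rw [(irreducible_X_sub_C (s j)).coprime_iff_not_dvd, dvd_iff_isRoot]
    exact hsr j
  have hns : (nod s).Separable := separable_prod_X_sub_C_iff.2 hs
  have hall : (nod s * ((X ^ 2 - C a) * (X ^ 2 - C (b * c ^ 2)))).Separable :=
    hns.mul hpqs hcos
  have hnd : (nod s).natDegree = M := by
    rw [nod, natDegree_prod_of_monic _ _ fun j _ => monic_X_sub_C _]
    simp
  have hpqd : ((X ^ 2 - C a) * (X ^ 2 - C (b * c ^ 2)) : K[X]).natDegree = 4 := by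
    rw [hpm.natDegree_mul hqm, hpd, hqd]
  refine ⟨nod s * ((X ^ 2 - C a) * (X ^ 2 - C (b * c ^ 2))), (nod_monic s).mul hpqm, ?_, hall, ?_⟩
  · rw [(nod_monic s).natDegree_mul hpqm, hnd, hpqd]
  · refine (cong_mul (nod_monic s) hpqm hnd hpqd hall).trans ?_
    refine (Cong.osum_comm _ _).trans (Cong.osum ?_ (v3_nod hs))
    refine Cong.trans (cong_mul (m := 2) (n := 2) hpm hqm hpd hqd hpqs) ?_
    refine (Cong.osum (cong_two hpm hpd hps) (cong_two hqm hqd hqs)).trans ?_
    rw [v3_discr, v3_discr]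
    exact v3_diag hc

end Pool.Agent.Lib.MP_12adaf_nt.HM
end

section

/-!
# Existence of local polynomials at the odd places
-/

namespace Pool.Agent.Lib.MP_12adaf_nt.HM

open IsLocalRing TF Matrix Polynomial

private lemma v4_pair {K : Type*} [Field K] [CharZero K] {a : K} (ha : a ≠ 0) :
    CD (Sum.elim (fun _ : Fin 1 => a) fun _ : Fin 1 => -a)
      (Sum.elim (fun _ : Fin 1 => (1 : K)) fun _ : Fin 1 => -1) := by
  refine ⟨fromBlocks (diagonal fun _ => (1 + a⁻¹) / 2) (diagonal fun _ => (1 - a⁻¹) / 2)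
      (diagonal fun _ => (1 - a⁻¹) / 2) (diagonal fun _ => (1 + a⁻¹) / 2),
    fromBlocks (diagonal fun _ => (1 + a) / 2) (diagonal fun _ => (1 - a) / 2)
      (diagonal fun _ => (1 - a) / 2) (diagonal fun _ => (1 + a) / 2), ?_, ?_, ?_⟩
  · rw [fromBlocks_multiply]
    simp only [diagonal_mul_diagonal, diagonal_add]
    rw [← fromBlocks_one]
    congr 1
    · rw [← diagonal_one]; congr 1; ext i; field_simp; ring
    · rw [← diagonal_zero]; congr 1; ext i; field_simp; ring
    · rw [← diagonal_zero]; congr 1; ext i; field_simp; ring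
    · rw [← diagonal_one]; congr 1; ext i; field_simp; ring
  · rw [fromBlocks_multiply]
    simp only [diagonal_mul_diagonal, diagonal_add]
    rw [← fromBlocks_one]
    congr 1
    · rw [← diagonal_one]; congr 1; ext i; field_simp; ring
    · rw [← diagonal_zero]; congr 1; ext i; field_simp; ring
    · rw [← diagonal_zero]; congr 1; ext i; field_simp; ring
    · rw [← diagonal_one]; congr 1; ext i; field_simp; ring
  · rw [← fromBlocks_diagonal, ← fromBlocks_diagonal, fromBlocks_transpose, fromBlocks_multiply,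
      fromBlocks_multiply]
    simp only [diagonal_transpose, diagonal_mul_diagonal, diagonal_add, Matrix.mul_zero,
      add_zero, zero_add]
    congr 1
    · congr 1; ext i; field_simp; ring
    · rw [← diagonal_zero]; congr 1; ext i; field_simp; ring
    · rw [← diagonal_zero]; congr 1; ext i; field_simp; ring
    · congr 1; ext i; field_simp; ring

section DVR

variable {O K : Type*} [CommRing O] [IsDomain O] [IsDiscreteValuationRing O]
  [HenselianLocalRing O] [Finite (ResidueField O)] [Field K] [Algebra O K] [IsFractionRing O K]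

/-- **Job V4.** Let `u ⊥ <e>` be isometric to a form of rank `N + 1 ≥ 5` with unit coefficients. Then
`u` is a unit form of rank `N - 1` plus a form of rank one.

Proof. Let `e = p ^ n * unit` (`p` a uniformizer). If `n` is even then up to a square `e` is a unit
`ε`; by `cd_of_units` `v ≅ <ε> ⊥ v'` with units `v' = (∏ v / ε, 1, ..., 1)` (determinants), so by
cancellation `u ≅ v'` (all units, of rank `N`). If `n` is odd, by `cd_of_units`
`v ≅ <1, -1> ⊥ v'`, `v' = (-∏ v, 1, ..., 1)` of rank `N - 1`, and `<1, -1> ≅ <e, -e>`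
(`x² - y² = e` is solvable and determinants; `CD.cancel` ...), so `u ≅ <-e> ⊥ v'`. -/
theorem exists_unit_part (h2 : IsUnit (2 : O)) [CharZero K] {N : ℕ} (hN : 4 ≤ N) {u : Fin N → K}
    (hu : ∀ i, u i ≠ 0) {e : K} (he : e ≠ 0) {v : Fin (N + 1) → Oˣ}
    (h : CD (Sum.elim u fun _ : Fin 1 => e) fun i => algebraMap O K (v i : O)) :
    ∃ (β : K) (v' : Fin (N - 1) → Oˣ), β ≠ 0 ∧
      CD u (Sum.elim (fun _ : Fin 1 => β) fun i => algebraMap O K (v' i : O)) := by
  obtain ⟨M, rfl⟩ : ∃ M, N = M + 2 := ⟨N - 2, by omega⟩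
  let P : Oˣ := ∏ i, v i
  let v' : Fin (M + 1) → Oˣ := Fin.cons (-P) fun _ => 1
  refine ⟨-e, v', neg_ne_zero.2 he, ?_⟩
  -- the form `<1, -1> ⊥ v'`
  let w : (Fin 1 ⊕ Fin 1) ⊕ Fin (M + 1) → Oˣ :=
    Sum.elim (Sum.elim (fun _ => 1) fun _ => -1) v'
  let f : (Fin 1 ⊕ Fin 1) ⊕ Fin (M + 1) ≃ Fin (M + 2 + 1) :=
    (Equiv.sumCongr finSumFinEquiv (Equiv.refl _)).trans
      (finSumFinEquiv.trans (finCongr (by omega)))
  have hPw : (∏ i, (w i : O)) = (P : O) := by
    rw [Fintype.prod_sum_type, Fintype.prod_sum_type]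
    simp only [w, v', Sum.elim_inl, Sum.elim_inr, Fin.prod_univ_succ (n := M), Fin.cons_zero,
      Fin.cons_succ]
    simp
  have hPv : (∏ i, (v (f i) : O)) = (P : O) := by
    rw [f.prod_comp fun i => (v i : O)]
    simp [P]
  have h1 : CD (fun i => algebraMap O K (v i : O)) (fun i => algebraMap O K (w i : O)) := by
    refine (CD.reindex (fun i => algebraMap O K (v i : O)) f).trans ?_
    refine cd_of_units h2 (fun i => v (f i)) w ?_
    rw [hPv, hPw]
    exact ⟨algebraMap O K P, by rw [map_mul]⟩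
  have h3 : (fun i => algebraMap O K (w i : O)) =
      Sum.elim (Sum.elim (fun _ : Fin 1 => (1 : K)) fun _ : Fin 1 => -1)
        (fun i => algebraMap O K (v' i : O)) := by
    funext i
    rcases i with (i | i) | i
    · simp [w]
    · simp [w]
    · simp [w]
  rw [h3] at h1
  have h4 : CD (Sum.elim u fun _ : Fin 1 => e)
      (Sum.elim (Sum.elim (fun _ : Fin 1 => e) fun _ : Fin 1 => -e)
        (fun i => algebraMap O K (v' i : O))) :=
    (h.trans h1).trans ((v4_pair he).symm.add (CD.refl _))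
  have h5 : CD (Sum.elim (fun _ : Fin 1 => e) u)
      (Sum.elim (fun _ : Fin 1 => e) (Sum.elim (fun _ : Fin 1 => -e)
        (fun i => algebraMap O K (v' i : O)))) :=
    ((CD.comm _ _).trans h4).trans (CD.assoc _ _ _)
  exact CD.cancel (fun _ => he) h5

/-- **Job V4, second part.** Such a form is a trace form.

Proof. By `exists_unit_part` `u ≅ <β> ⊥ v'`. Let `a := 2 ∏ v'` (a unit), `b := β / 2`, and `F` from
`exists_quad_poly`: `HH N F ≅ <2, 2 a, 2, 2 b> ⊥ (N - 4) <1> ≅ <β> ⊥ (<2, 2 a, 2> ⊥ (N - 4) <1>)`, and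
`<2, 2 a, 2> ⊥ (N - 4) <1> ≅ v'` by `cd_of_units` (rank `N - 1`, determinant
`8 a = 16 ∏ v'`). -/
theorem exists_poly_unit (h2 : IsUnit (2 : O)) [CharZero K] {N : ℕ} (hN : 4 ≤ N) {u : Fin N → K}
    (hu : ∀ i, u i ≠ 0) {e : K} (he : e ≠ 0) {v : Fin (N + 1) → Oˣ}
    (h : CD (Sum.elim u fun _ : Fin 1 => e) fun i => algebraMap O K (v i : O)) :
    ∃ F : K[X], F.Monic ∧ F.natDegree = N ∧ F.Separable ∧ Cong (HH N F) (diagonal u) := by
  obtain ⟨β, v', hβ, hv'⟩ := exists_unit_part h2 hN hu he h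
  obtain ⟨two, htwo⟩ := h2
  have h2 : IsUnit (2 : O) := ⟨two, htwo⟩
  let P : Oˣ := ∏ i, v' i
  have hinj : Function.Injective (algebraMap O K) := IsFractionRing.injective O K
  have hP0 : algebraMap O K (P : O) ≠ 0 := fun h0 => P.ne_zero (hinj (h0.trans (map_zero _).symm))
  obtain ⟨F, hF, hFd, hFs, hFc⟩ := exists_quad_poly (K := K) hN
    (a := 2 * algebraMap O K (P : O)) (b := β / 2) (mul_ne_zero two_ne_zero hP0)
    (div_ne_zero hβ two_ne_zero)
  refine ⟨F, hF, hFd, hFs, hFc.trans ?_⟩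
  rw [← diagonal_one, osum_diagonal]
  change CD _ u
  refine CD.trans ?_ hv'.symm
  -- reorder
  let f : Fin 1 ⊕ (Fin 3 ⊕ Fin (N - 4)) ≃ Fin 4 ⊕ Fin (N - 4) :=
    (Equiv.sumAssoc _ _ _).symm.trans
      (Equiv.sumCongr ((Equiv.sumComm _ _).trans (finSumFinEquiv (m := 3) (n := 1)))
        (Equiv.refl _))
  refine (CD.reindex _ f).trans ?_
  let w : Fin 3 ⊕ Fin (N - 4) → Oˣ := Sum.elim ![two, two * (two * P), two] fun _ => 1
  have h2K : algebraMap O K (two : O) = 2 := by rw [htwo, map_ofNat]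
  have h3 : (fun i => Sum.elim (![2, 2 * (2 * algebraMap O K (P : O)), 2, 2 * (β / 2)] : Fin 4 → K)
      (fun _ : Fin (N - 4) => (1 : K)) (f i)) =
      Sum.elim (fun _ : Fin 1 => β) (fun i => algebraMap O K (w i : O)) := by
    funext i
    rcases i with i | (i | i)
    · have : i = 0 := Subsingleton.elim _ _
      subst this
      change 2 * (β / 2) = β
      field_simp
    · fin_cases i
      · change (2 : K) = algebraMap O K (two : O)
        rw [h2K]
      · change 2 * (2 * algebraMap O K (P : O)) = algebraMap O K ((two * (two * P) : Oˣ) : O)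
        rw [Units.val_mul, Units.val_mul, map_mul, map_mul, h2K]
      · change (2 : K) = algebraMap O K (two : O)
        rw [h2K]
    · change (1 : K) = algebraMap O K ((1 : Oˣ) : O)
      rw [Units.val_one, map_one]
  rw [h3]
  refine CD.add (CD.refl _) ?_
  let g : Fin 3 ⊕ Fin (N - 4) ≃ Fin (N - 1) := finSumFinEquiv.trans (finCongr (by omega))
  refine CD.trans ?_ (CD.reindex (fun i => algebraMap O K (v' i : O)) g).symm
  refine cd_of_units h2 w (fun i => v' (g i)) ?_
  have hPv : (∏ i, (v' (g i) : O)) = (P : O) := by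
    rw [g.prod_comp fun i => (v' i : O)]
    simp [P]
  have hPw : (∏ i, (w i : O)) = (two : O) ^ 4 * P := by
    rw [Fintype.prod_sum_type]
    simp only [w, Sum.elim_inl, Sum.elim_inr, Fin.prod_univ_three]
    simp
    ring
  rw [hPv, hPw]
  exact ⟨algebraMap O K ((two : O) ^ 2 * P), by rw [← map_mul]; congr 1; ring⟩

end DVR

end Pool.Agent.Lib.MP_12adaf_nt.HM
end

section

/-!
# The trace form along the even pencil
-/

namespace Pool.Agent.Lib.MP_12adaf_nt.HM

open TF Matrix Polynomial Finset Filter Topology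

/-- `F` is obtained from the member `t` of the pencil of `g` by the change of generator `T`. -/
def WData {K : Type*} [Field K] (N : ℕ) (F g : K[X]) (t : K) (T : K[X]) : Prop :=
  g.Monic ∧ g.natDegree = N ∧ g.Separable ∧ g.eval 0 ≠ 0 ∧
    (Lmat N g).det ≠ 0 ∧ resultant g (hpoly N g) N N ≠ 0 ∧ (fpoly N g t).Separable ∧
    T.degree < ((N + 2 : ℕ) : WithBot ℕ) ∧ charT (N + 2) (fpoly N g t) T = F

/-- **Job V1.** The trace form of the members of the pencil.

Proof. The same as the proofs of `cong_fds` and `cong_charT_fds` in `TF/Six.lean`, with `4` replaced by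
the even number `N` (`cong_W` and `discr_fds` are stated for general `N`). -/
theorem cong_charT_fds' {K : Type*} [Field K] [CharZero K] {N : ℕ} (hN : Even N) {D : K}
    (hD : D ≠ 0) {g : K[X]} (hg : g.Monic) (hgN : g.natDegree = N) (hsep : g.Separable)
    (h0 : g.eval 0 ≠ 0) (hL : (Lmat N g).det ≠ 0) (hR : resultant g (hpoly N g) N N ≠ 0) {s : K}
    (hfs : (fds N (2 * D) g s).Separable) {T : K[X]}
    (hT : (charT (N + 2) (fds N (2 * D) g s) T).Separable) :
    Cong (HH (N + 2) (charT (N + 2) (fds N (2 * D) g s) T))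
      (osum (sq1 2) (osum (HH N g) (sq1 (D * g.discr)))) := by
  have hm := fpoly_monic hg hgN (tpar N (2 * D) g s)
  refine ((cong_charT hm.1 hm.2 hfs hT).symm.trans ?_).trans (cong_six_reorder _ _ _)
  have hw := wronskian_fpoly hg hgN hsep h0 hL (tpar N (2 * D) g s)
  have hcop : IsCoprime g (hpoly N g) := by
    have h1 : resultant g (hpoly N g) ≠ 0 := by
      intro h2
      obtain ⟨e, he⟩ := Nat.exists_eq_add_of_le (natDegree_hpoly_le hg hgN)
      apply hR
      have h3 : resultant g (hpoly N g) N N =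
          resultant g (hpoly N g) g.natDegree ((hpoly N g).natDegree + e) := by
        rw [hgN, ← he]
      rw [h3, resultant_add_right_deg _ _ _ _ _ le_rfl, h2, mul_zero]
    exact (isUnit_resultant_iff_isCoprime hg).mp (isUnit_iff_ne_zero.mpr h1)
  have h1 := cong_W hm.1 hg hm.2 hgN (natDegree_hpoly_le hg hgN) hfs hsep hcop h0 hw
  refine h1.trans ((Cong.refl _).osum ?_)
  have hd := discr_fds hN hg hgN hsep h0 hL hR (2 * D) s
  have hd0 := discr_ne_zero_of_separable hm.1 hfs
  have hy : yds N (2 * D) g s ≠ 0 := by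
    intro h
    change (fds N (2 * D) g s).discr ≠ 0 at hd0
    rw [hd, h] at hd0
    simp at hd0
  refine (Cong.sq1_of_eq (c := 2 * yds N (2 * D) g s)
    (mul_ne_zero two_ne_zero hy) ?_).symm
  change 2 * (fds N (2 * D) g s).discr * g.discr = _
  rw [hd]
  ring

/-- **Job V1, second part.** The companion of a local polynomial, `4 ∤ N + 2`.

Proof. `locW_place` (`EvenNF.lean`, with `exists_factor_of_not_dvd` in `Places.lean`) gives
`g, t, T` with `WData`; `LocW.exists_s` (`Global.lean`) for `d = 2 D` gives `s` with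
`tpar N (2 D) g s = t`, so `fds N (2 D) g s = fpoly N g t`; then `cong_charT_fds'`. -/
theorem exists_W {k : Type*} [Field k] [NumberField k] (i : Pl k) {N : ℕ} (hN : Even N)
    (h4 : ¬ 4 ∣ N + 2) {F : (PlC k i)[X]} (hF : F.Monic) (hdeg : F.natDegree = N + 2)
    (hsep : F.Separable) {D Y : PlC k i} (hD : D ≠ 0) (hY : Y ≠ 0)
    (hdisc : F.discr = 2 * D * Y ^ 2) :
    ∃ (g : (PlC k i)[X]) (t : PlC k i) (T : (PlC k i)[X]), WData N F g t T ∧
      Cong (HH (N + 2) F) (osum (sq1 2) (osum (HH N g) (sq1 (D * g.discr)))) := by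
  obtain ⟨g, t, T, hg, hgN, hgs, h0, hL, hR, hfs, hTd, hch⟩ := locW_place i hN hF hdeg hsep
    (exists_factor_of_not_dvd _ hF hdeg (by rw [hdeg]; exact h4))
  have h2D : (2 : PlC k i) * D ≠ 0 := mul_ne_zero two_ne_zero hD
  obtain ⟨s, hs, -⟩ := LocW.exists_s hN hg hgN hgs h0 hL hR hfs hY h2D (T := T)
    (by rw [hch, hdisc])
  have he : fds N (2 * D) g s = fpoly N g t := by rw [fds, hs]
  refine ⟨g, t, T, ⟨hg, hgN, hgs, h0, hL, hR, hfs, hTd, hch⟩, ?_⟩
  have h1 := cong_charT_fds' hN hD hg hgN hgs h0 hL hR (s := s) (by rw [he]; exact hfs) (T := T)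
    (by rw [he, hch]; exact hsep)
  rw [he, hch] at h1
  exact h1

end Pool.Agent.Lib.MP_12adaf_nt.HM
end

section

/-!
# The even step
-/

namespace Pool.Agent.Lib.MP_12adaf_nt.HM

open TF Matrix Polynomial Finset Filter Topology

/-- **Job V2.** The step from degree `N` to degree `N + 2`.

Proof. The same as the proof of `six_approx` in `TF/Six.lean`, without the perturbation of the companions
(`g' = g`) and with `N` in place of `4`: `s i` from `LocW.exists_s`; sequences `gq j → g i` from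
`happ` with `ε = 1 / (j + 1)` (as in the proof of `odd_step` in `TF/Seven.lean`), `Tq j → T i`,
`us j → s i` by weak approximation; `P := charT (N + 2) (fds N (2 D) (gq j) (us j)) (Tq j)`,
`y := yds N (2 D) (gq j) (us j) * (Bmat (N + 2) (fds ..) (Tq j)).det`; `Cong (HH (N + 2) P) ..` by
`cong_charT_fds'` and `happ`. -/
theorem w_step {k : Type*} [Field k] [CharZero k] {ι : Type*} [Fintype ι] [Nonempty ι]
    {K : ι → Type*} [∀ i, NormedField (K i)] [∀ i, CharZero (K i)] {φ : ∀ i, k →+* K i}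
    (hdense : DenseRange (fun (q : k) (i : ι) => φ i q)) {N : ℕ} (hN : Even N) {D : k}
    (hD : D ≠ 0) (F : ∀ i, (K i)[X]) (Y : ∀ i, K i)
    (hdisc : ∀ i, (F i).discr = φ i (2 * D) * Y i ^ 2) (hY : ∀ i, Y i ≠ 0)
    (g : ∀ i, (K i)[X]) (t : ∀ i, K i) (T : ∀ i, (K i)[X])
    (hloc : ∀ i, WData N (F i) (g i) (t i) (T i)) {μ : Type*} [Fintype μ] [DecidableEq μ]
    {B : Matrix μ μ k}
    (happ : ∀ ε : ℝ, 0 < ε → ∃ gq : k[X], gq.Monic ∧ gq.natDegree = N ∧ gq.Separable ∧
      Cong (osum (HH N gq) (sq1 (D * gq.discr))) B ∧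
      ∀ i, ∀ m, ‖φ i (gq.coeff m) - (g i).coeff m‖ < ε) :
    ApF φ (N + 2) (2 * D) (osum (sq1 2) B) F Y := by
  intro ε hε
  have hseq : ∀ x : ∀ i, K i, ∃ u : ℕ → k, ∀ i, Tendsto (fun j => φ i (u j)) atTop (𝓝 (x i)) := by
    intro x
    have hx : x ∈ closure (Set.range fun (q : k) (i : ι) => φ i q) := hdense x
    obtain ⟨w, hw, hlim⟩ := mem_closure_iff_seq_limit.mp hx
    choose u hu using hw
    refine ⟨u, fun i => ?_⟩
    have := (tendsto_pi_nhds.mp hlim) i
    refine this.congr fun j => ?_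
    rw [← hu j]
  have hφD : ∀ i, φ i D ≠ 0 := fun i => (_root_.map_ne_zero (φ i)).mpr hD
  have hφ2 : ∀ i, φ i (2 * D) = 2 * φ i D := fun i => by rw [map_mul, map_ofNat]
  have h2D : (2 * D : k) ≠ 0 := mul_ne_zero two_ne_zero hD
  have hφd : ∀ i, 2 * φ i D ≠ 0 := fun i => mul_ne_zero two_ne_zero (hφD i)
  choose hg hgN hsep he0 hL hR hfs hT hch using hloc
  have hs : ∀ i, ∃ s : K i, tpar N (2 * φ i D) (g i) s = t i ∧
      yds N (2 * φ i D) (g i) s * (Bmat (N + 2) (fds N (2 * φ i D) (g i) s) (T i)).det = Y i := by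
    intro i
    refine LocW.exists_s hN (hg i) (hgN i) (hsep i) (he0 i) (hL i) (hR i) (hfs i) (hY i)
      (hφd i) ?_
    rw [hch i, hdisc i, hφ2]
  choose s hs1 hs2 using hs
  have hfds : ∀ i, fds N (2 * φ i D) (g i) (s i) = fpoly N (g i) (t i) := fun i => by
    rw [fds, hs1 i]
  have hchT : ∀ i, charT (N + 2) (fds N (2 * φ i D) (g i) (s i)) (T i) = F i := fun i => by
    rw [hfds i, hch i]
  -- approximating sequences
  have happ' : ∀ j : ℕ, ∃ gq : k[X], gq.Monic ∧ gq.natDegree = N ∧ gq.Separable ∧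
      Cong (osum (HH N gq) (sq1 (D * gq.discr))) B ∧
      ∀ i, ∀ m, ‖φ i (gq.coeff m) - (g i).coeff m‖ < 1 / ((j : ℝ) + 1) :=
    fun j => happ _ (by positivity)
  choose gq hgqm hgqd hgqs hgqB hgz using happ'
  have hsmall : Tendsto (fun j : ℕ => 1 / ((j : ℝ) + 1)) atTop (𝓝 0) :=
    tendsto_one_div_add_atTop_nhds_zero_nat
  have hconv : ∀ (i : ι) (u : ℕ → K i) (u0 : K i), (∀ j : ℕ, ‖u j - u0‖ < 1 / ((j : ℝ) + 1)) →
      Tendsto u atTop (𝓝 u0) := by
    intro i u u0 h
    rw [tendsto_iff_norm_sub_tendsto_zero]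
    exact squeeze_zero (fun _ => norm_nonneg _) (fun j => (h j).le) hsmall
  choose uT huT using fun m : Fin (N + 2) => hseq fun i => (T i).coeff m
  obtain ⟨us, hus⟩ := hseq s
  let Tq : ℕ → k[X] := fun j => toPoly fun m => uT m j
  -- convergence at each place
  have hCTg : ∀ i, CTB atTop (fun j => (gq j).map (φ i)) (g i) := by
    intro i
    refine ⟨fun m => ?_, N, fun j => ?_, (hgN i).le⟩
    · simp only [coeff_map]
      exact hconv i _ _ fun j => hgz j i m
    · rw [natDegree_map, hgqd]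
  have hCTT : ∀ i, CTB atTop (fun j => (Tq j).map (φ i)) (T i) := by
    intro i
    have h1 : ∀ j, (Tq j).map (φ i) = ∑ m : Fin (N + 2), C (φ i (uT m j)) * X ^ (m : ℕ) := by
      intro j
      rw [show Tq j = toPoly fun m => uT m j from rfl, map_toPoly]
      rfl
    rw [← toPoly_coeff (hT i)]
    simp only [h1]
    exact CTB.sum _ fun m _ => (CTB.C (huT m i)).mul (CTB.const _)
  have hm' : ∀ i j, ((gq j).map (φ i)).Monic := fun i j => (hgqm j).map _
  have hd' : ∀ i j, ((gq j).map (φ i)).natDegree = N := fun i j => by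
    rw [natDegree_map, hgqd]
  have hCTf : ∀ i, CTB atTop (fun j => (fds N (2 * D) (gq j) (us j)).map (φ i))
      (fds N (2 * φ i D) (g i) (s i)) := by
    intro i
    simp only [map_fds (φ i) (hgqm _), hφ2]
    exact ctb_fds (hCTg i) (hm' i) (hd' i) (hg i) (hgN i) (hL i) (he0 i) (2 * φ i D) (hus i)
  have hfm : ∀ j, (fds N (2 * D) (gq j) (us j)).Monic ∧
      (fds N (2 * D) (gq j) (us j)).natDegree = N + 2 :=
    fun j => fpoly_monic (hgqm j) (hgqd j) _
  have hfm0 : ∀ i, (fds N (2 * φ i D) (g i) (s i)).Monic ∧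
      (fds N (2 * φ i D) (g i) (s i)).natDegree = N + 2 :=
    fun i => fpoly_monic (hg i) (hgN i) _
  have hCTP : ∀ i, CT atTop
      (fun j => (charT (N + 2) (fds N (2 * D) (gq j) (us j)) (Tq j)).map (φ i)) (F i) := by
    intro i
    have h1 := ctb_charT (n := N + 2) (hCTf i) (fun j => (hfm j).1.map _)
      (fun j => by rw [natDegree_map]; exact (hfm j).2) (hfm0 i).1 (hfm0 i).2 (hCTT i)
    rw [hchT i] at h1
    intro m
    refine (h1 m).congr fun j => ?_
    dsimp only
    rw [map_charT (φ i) (hfm j).1]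
  let yq : ℕ → k := fun j => yds N (2 * D) (gq j) (us j) *
    (Bmat (N + 2) (fds N (2 * D) (gq j) (us j)) (Tq j)).det
  have hyq : ∀ i, Tendsto (fun j => φ i (yq j)) atTop (𝓝 (Y i)) := by
    intro i
    have h1 := tendsto_yds (hCTg i) (hm' i) (hd' i) (hg i) (hgN i) (hL i) (he0 i) (hR i)
      (2 * φ i D) (hus i)
    have h2 := tendsto_det_Bmat (n := N + 2) (hCTf i) (fun j => (hfm j).1.map _)
      (fun j => by rw [natDegree_map]; exact (hfm j).2) (hfm0 i).1 (hfm0 i).2 (hCTT i)
    have h3 := h1.mul h2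
    rw [hs2 i] at h3
    refine h3.congr fun j => ?_
    rw [map_mul, map_yds (φ i) (hgqm j), map_det_Bmat (φ i) (hfm j).1, hφ2]
  -- choose a good index
  obtain ⟨i₀⟩ := ‹Nonempty ι›
  have ev1 : ∀ᶠ j in atTop, yq j ≠ 0 := by
    have := (hyq i₀).eventually_ne (hY i₀)
    filter_upwards [this] with j hj h
    exact hj (by rw [h, map_zero])
  have ev2 : ∀ᶠ j in atTop, (Lmat N (gq j)).det ≠ 0 := by
    have h1 := (tendsto_det (tendsto_Lmat (hCTg i₀) (hm' i₀) (hd' i₀) (hg i₀)
      (hgN i₀))).eventually_ne (hL i₀)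
    filter_upwards [h1] with j hj h
    apply hj
    rw [map_Lmat (φ i₀) (hgqm j)]
    rw [show ((Lmat N (gq j)).map (φ i₀)).det = φ i₀ (Lmat N (gq j)).det from by
      rw [RingHom.map_det]; rfl, h, map_zero]
  have ev3 : ∀ᶠ j in atTop, (gq j).eval 0 ≠ 0 := by
    have h1 := ((hCTg i₀).eval (z := fun _ => 0) tendsto_const_nhds).eventually_ne (he0 i₀)
    filter_upwards [h1] with j hj h
    apply hj
    rw [eval_zero_map, h, map_zero]
  have ev4 : ∀ᶠ j in atTop, resultant (gq j) (hpoly N (gq j)) N N ≠ 0 := by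
    have h1 := (tendsto_resultant_hpoly (hCTg i₀) (hm' i₀) (hd' i₀) (hg i₀) (hgN i₀)
      (hL i₀)).eventually_ne (hR i₀)
    filter_upwards [h1] with j hj h
    apply hj
    rw [← map_hpoly (φ i₀) (hgqm j), resultant_map_map, h, map_zero]
  have ev6 : ∀ᶠ j in atTop, ∀ i, ‖φ i (yq j) - Y i‖ < ε := by
    rw [eventually_all]
    intro i
    have := (Metric.tendsto_nhds.mp (hyq i)) ε hε
    simpa only [dist_eq_norm] using this
  have ev7 : ∀ᶠ j in atTop, ∀ i, ∀ m : Fin (N + 3),
      ‖φ i ((charT (N + 2) (fds N (2 * D) (gq j) (us j)) (Tq j)).coeff m) -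
        (F i).coeff m‖ < ε := by
    rw [eventually_all]
    intro i
    rw [eventually_all]
    intro m
    have := (Metric.tendsto_nhds.mp (hCTP i m)) ε hε
    simpa only [dist_eq_norm, coeff_map] using this
  obtain ⟨j, hj1, hj2, hj3, hj4, hj6, hj7⟩ :=
    (ev1.and (ev2.and (ev3.and (ev4.and (ev6.and ev7))))).exists
  have hfd := discr_fds hN (hgqm j) (hgqd j) (hgqs j) hj3 hj2 hj4 (2 * D) (us j)
  have hy1 : yds N (2 * D) (gq j) (us j) ≠ 0 := left_ne_zero_of_mul hj1
  have hfsep : (fds N (2 * D) (gq j) (us j)).Separable := by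
    apply separable_of_discr_ne_zero (hfm j).1
    rw [hfd]
    exact mul_ne_zero h2D (pow_ne_zero 2 hy1)
  have hPd : (charT (N + 2) (fds N (2 * D) (gq j) (us j)) (Tq j)).discr =
      2 * D * yq j ^ 2 := by
    rw [discr_charT (hfm j).1 (hfm j).2 hfsep, hfd]
    ring
  have hPsep : (charT (N + 2) (fds N (2 * D) (gq j) (us j)) (Tq j)).Separable := by
    apply separable_of_discr_ne_zero (charT_monic _ _ _)
    rw [hPd]
    exact mul_ne_zero h2D (pow_ne_zero 2 hj1)
  refine ⟨charT (N + 2) (fds N (2 * D) (gq j) (us j)) (Tq j), yq j, charT_monic _ _ _,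
    natDegree_charT _ _ _, hPd, hj1, ?_, fun i => ⟨fun m => ?_, hj6 i⟩⟩
  · have h1 := cong_charT_fds' hN hD (hgqm j) (hgqd j) (hgqs j) hj3 hj2 hj4 hfsep hPsep
    exact h1.trans ((Cong.refl _).osum (hgqB j))
  · by_cases hm : m < N + 3
    · exact hj7 i ⟨m, hm⟩
    · have h1 : (charT (N + 2) (fds N (2 * D) (gq j) (us j)) (Tq j)).coeff m = 0 := by
        apply coeff_eq_zero_of_natDegree_lt
        rw [natDegree_charT]; omega
      have h2 : (F i).coeff m = 0 := by
        apply coeff_eq_zero_of_natDegree_lt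
        rw [← hch i, natDegree_charT]; omega
      rw [h1, h2, map_zero, sub_zero, norm_zero]
      exact hε

end Pool.Agent.Lib.MP_12adaf_nt.HM
end

section

/-!
# The trace form in terms of the Calogero-Moser parameters
-/

namespace Pool.Agent.Lib.MP_12adaf_nt.HM

open TF Matrix Polynomial

variable {K : Type*} [Field K] [CharZero K]

private lemma a1_nod {L : Type*} [Field L] [CharZero L] {n : ℕ} {x : Fin n → L}
    (hx : Function.Injective x)
    (hpar : (nod x).comp (-X) = (-1) ^ n * nod x) {q : L[X]} (hq : q.comp (-X) = q)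
    {y : Fin n → L} (hy : Function.Injective y) (hf : (Xmat n (nod x) q).charpoly = nod y) :
    (Krm (Xmat n (nod x) q)).transpose * Amat n (nod x) * Krm (Xmat n (nod x) q) =
      HH n (nod y) := by
  rw [HH_nod hy]
  set M := Xmat n (nod x) q with hM
  ext i j
  rw [Krm_form_self (Amat_transpose_nod hx hpar) (Amat_mul_Xmat_nod hx hpar hq)
    (Amat_e0 n (nod x)) i j, ← trace_pow_X (Xmat_comm_nod hx hpar q), ← hM,
    trace_pow_of_charpoly hy hf, Matrix.mul_apply]
  refine Finset.sum_congr rfl fun k _ => ?_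
  rw [Matrix.transpose_apply, Matrix.vandermonde_apply, Matrix.vandermonde_apply, pow_add]

/-- **Job A1.** The isometry given by the Krylov matrix.

Proof. `(Krm M)ᵀ * Amat n g * Krm M = HH n M.charpoly` for `M = Xmat n g q`: see the proof of
`discr_Xmat_nod` in `CM/Duality.lean` (the identity `h1` there, for the roots) and of `discr_Xmat`
(the descent from the algebraic closure: `map_Krm`, `map_Xmat`, `map_Amat`, `map_HH`, `HH_nod`, all
entries; a matrix identity may be checked after the injective map to the closure). The determinant of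
the right hand side is not zero (`det_HH_ne_zero`), so `Krm M` is invertible. -/
theorem cong_Xmat {n : ℕ} {g q : K[X]} (hg : g.Monic) (hn : g.natDegree = n) (hs : g.Separable)
    (hpar : g.comp (-X) = (-1) ^ n * g) (hq : q.comp (-X) = q)
    (hf : (Xmat n g q).charpoly.Separable) :
    Cong (Amat n g) (HH n (Xmat n g q).charpoly) := by
  let L := AlgebraicClosure K
  let φ : K →+* L := algebraMap K L
  have : CharZero L := charZero_of_injective_algebraMap (algebraMap K L).injective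
  have hcd : (Xmat n g q).charpoly.natDegree = n := by
    rw [Matrix.charpoly_natDegree_eq_dim, Fintype.card_fin]
  obtain ⟨x, hx, h1⟩ := exists_nod φ hg hn hs
  obtain ⟨y, hy, h2⟩ := exists_nod φ (Matrix.charpoly_monic _) hcd hf
  have hpar' : (nod x).comp (-X) = (-1) ^ n * nod x := by
    have := congrArg (Polynomial.map φ) hpar
    rw [Polynomial.map_comp, Polynomial.map_neg, Polynomial.map_X, Polynomial.map_mul,
      Polynomial.map_pow, Polynomial.map_neg, Polynomial.map_one, h1] at this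
    exact this
  have hq' : (q.map φ).comp (-X) = q.map φ := by
    have := congrArg (Polynomial.map φ) hq
    rwa [Polynomial.map_comp, Polynomial.map_neg, Polynomial.map_X] at this
  have h3 : (Xmat n (nod x) (q.map φ)).charpoly = nod y := by
    rw [← h2, ← Matrix.charpoly_map, map_Xmat φ hg, h1]
  have key : (Krm (Xmat n g q)).transpose * Amat n g * Krm (Xmat n g q) =
      HH n (Xmat n g q).charpoly := by
    apply Matrix.map_injective φ.injective
    show ((Krm (Xmat n g q)).transpose * Amat n g * Krm (Xmat n g q)).map φ =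
      (HH n (Xmat n g q).charpoly).map φ
    rw [Matrix.map_mul, Matrix.map_mul, Matrix.transpose_map, map_Krm, map_Amat φ hg,
      map_Xmat φ hg, h1, map_HH φ (Matrix.charpoly_monic _), h2]
    exact a1_nod hx hpar' hq' hy h3
  have hdet : (Krm (Xmat n g q)).det ≠ 0 := by
    intro h0
    have h4 := det_HH_ne_zero (Matrix.charpoly_monic _) hcd hf
    rw [← key, Matrix.det_mul, h0, mul_zero] at h4
    exact h4 rfl
  exact ⟨Krm (Xmat n g q), (Krm (Xmat n g q))⁻¹, Matrix.mul_nonsing_inv _ hdet.isUnit,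
    Matrix.nonsing_inv_mul _ hdet.isUnit, key⟩

end Pool.Agent.Lib.MP_12adaf_nt.HM
end

section

/-!
# Twisted trace forms of even and odd polynomials
-/

namespace Pool.Agent.Lib.MP_12adaf_nt.HM

open TF Matrix Polynomial

variable {K : Type*} [Field K] [CharZero K]

private lemma a2_roots {L : Type*} [Field L] [IsAlgClosed L] [CharZero L] {m : ℕ} {θ : Fin m → L}
    (hθ : Function.Injective θ) (h0 : ∀ i, θ i ≠ 0) :
    ∃ (y : Fin m → L) (x : Fin (2 * m) → L), Function.Injective x ∧ (∀ i, x i ≠ 0) ∧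
      expand L 2 (nod θ) = nod x ∧
      (∀ f : L → L, ∑ i, f (x i) = ∑ i, f (y i) + ∑ i, f (- y i)) ∧ ∀ i, y i ^ 2 = θ i := by
  have hsq : ∀ i, ∃ s : L, s ^ 2 = θ i := fun i => IsAlgClosed.exists_pow_nat_eq _ (by norm_num)
  choose y hy using hsq
  let e : Fin (2 * m) ≃ Fin m ⊕ Fin m := (finCongr (two_mul m)).trans finSumFinEquiv.symm
  have hy0 : ∀ i, y i ≠ 0 := fun i h => h0 i (by rw [← hy i, h, zero_pow two_ne_zero])
  have hs : Function.Injective (Sum.elim y fun i => - y i) := by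
    rintro (i | i) (j | j) h <;> simp only [Sum.elim_inl, Sum.elim_inr] at h
    · exact congrArg _ (hθ (by rw [← hy i, ← hy j, h]))
    · exfalso
      have hij : i = j := hθ (by rw [← hy i, ← hy j, h, neg_sq])
      subst hij
      have h2 : 2 * y i = 0 := by linear_combination h
      exact hy0 i ((mul_eq_zero.mp h2).resolve_left two_ne_zero)
    · exfalso
      have hij : i = j := hθ (by rw [← hy i, ← hy j, ← h, neg_sq])
      subst hij
      have h2 : 2 * y i = 0 := by linear_combination -h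
      exact hy0 i ((mul_eq_zero.mp h2).resolve_left two_ne_zero)
    · exact congrArg _ (hθ (by rw [← hy i, ← hy j, neg_injective h]))
  refine ⟨y, fun i => Sum.elim y (fun i => - y i) (e i), hs.comp e.injective, ?_, ?_, ?_, hy⟩
  · intro i
    have h4 : ∀ j : Fin m ⊕ Fin m, Sum.elim y (fun i => - y i) j ≠ 0 := by
      rintro (j | j)
      · exact hy0 j
      · exact neg_ne_zero.mpr (hy0 j)
    exact h4 (e i)
  · have h1 : nod (fun i => Sum.elim y (fun i => - y i) (e i)) =
        nod (Sum.elim y fun i => - y i) := by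
      rw [nod, nod]
      exact Equiv.prod_comp e fun i => (X - C (Sum.elim y (fun i => - y i) i))
    rw [h1, nod, nod, map_prod, Fintype.prod_sum_type, ← Finset.prod_mul_distrib]
    refine Finset.prod_congr rfl fun i _ => ?_
    rw [Sum.elim_inl, Sum.elim_inr, map_sub, expand_X, expand_C, ← hy i, C_pow, C_neg]
    ring
  · intro f
    have h1 := Equiv.sum_comp e fun i => f (Sum.elim y (fun i => - y i) i)
    rw [h1, Fintype.sum_sum_type]
    rfl

private lemma a2_ne {L : Type*} [Field L] {m : ℕ} {θ : Fin m → L} {φ : K →+* L} {c : K[X]}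
    (h : c.map φ = nod θ) (h0 : c.coeff 0 ≠ 0) (i : Fin m) : θ i ≠ 0 := by
  intro h1
  have h2 : (c.map φ).eval 0 = 0 := by
    have h3 := eval_nod_self θ i
    rwa [h1, ← h] at h3
  rw [← coeff_zero_eq_eval_zero, coeff_map] at h2
  exact h0 ((map_eq_zero φ).mp h2)

/-- **Job A2.** Power sums of `c(X²)`.

Proof. Over the algebraic closure `c = nod θ` (`exists_nod`), with distinct nonzero `θ i`; choose `y i`
with `y i ^ 2 = θ i`; the roots of `expand K 2 c` are `± y i`, all distinct: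
`expand 2 c = ∏ (X ^ 2 - θ i) = ∏ (X - y i) (X + y i)`, the `nod` of a family indexed by `Fin (2 m)`.
`pS_nod`/`tr_nod`, and the maps `map_tr`. -/
theorem pS_expand {m : ℕ} {c : K[X]} (hc : c.Monic) (hd : c.natDegree = m) (hs : c.Separable)
    (h0 : c.coeff 0 ≠ 0) (k : ℕ) :
    pS (2 * m) (expand K 2 c) (2 * k) = 2 * tr m c (X ^ k) ∧
      pS (2 * m) (expand K 2 c) (2 * k + 1) = 0 := by
  let L := AlgebraicClosure K
  let φ : K →+* L := algebraMap K L
  have : CharZero L := charZero_of_injective_algebraMap (algebraMap K L).injective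
  obtain ⟨θ, hθ, h1⟩ := exists_nod φ hc hd hs
  obtain ⟨y, x, hx, hx0, h2, h3, hy⟩ := a2_roots hθ (a2_ne h1 h0)
  have hE : (expand K 2 c).Monic := hc.expand two_pos
  have hm : (expand K 2 c).map φ = nod x := by rw [map_expand, h1, h2]
  constructor
  · apply φ.injective
    rw [map_pS φ hE, hm, pS_nod hx, map_mul, map_ofNat, map_tr φ hc, Polynomial.map_pow, map_X, h1,
      tr_nod hθ, h3 (fun t => t ^ (2 * k)), ← Finset.sum_add_distrib, Finset.mul_sum]
    refine Finset.sum_congr rfl fun i _ => ?_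
    rw [eval_pow, eval_X, ← hy i, ← pow_mul, Even.neg_pow ⟨k, two_mul k⟩]
    ring
  · apply φ.injective
    rw [map_pS φ hE, hm, pS_nod hx, map_zero, h3 (fun t => t ^ (2 * k + 1)),
      ← Finset.sum_add_distrib]
    refine Finset.sum_eq_zero fun i _ => ?_
    rw [Odd.neg_pow ⟨k, rfl⟩, add_neg_cancel]

private def a2_e (m : ℕ) : Fin m ⊕ Fin m → Fin (2 * m) :=
  Sum.elim (fun a => ⟨2 * a, by omega⟩) (fun a => ⟨2 * a + 1, by omega⟩)

private lemma a2_bij (m : ℕ) : Function.Bijective (a2_e m) := by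
  rw [Fintype.bijective_iff_injective_and_card]
  constructor
  · rintro (i | i) (j | j) h <;> simp only [a2_e, Sum.elim_inl, Sum.elim_inr, Fin.mk.injEq] at h
    · exact congrArg _ (Fin.ext (by omega))
    · omega
    · omega
    · exact congrArg _ (Fin.ext (by omega))
  · simp [two_mul]

/-- **Job A2, even case.** `Amat (2 m) (c(X²)) ≅ W(c)`.

Proof. `gof (2 m) c = expand K 2 c`. Let `e : Fin m ⊕ Fin m ≃ Fin (2 m)`, `inl a ↦ 2 a`,
`inr a ↦ 2 a + 1`. Then `(Amat ..).submatrix e e = Wf m c` entrywise by `pS_expand`: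
`(2a, 2b)`: `pS (2 (a + b)) = 2 Tr(t^(a+b))`; `(2a+1, 2b+1)`: `- pS (2 (a+b+1)) = -2 Tr(t^(a+b+1))`;
mixed: `0`. `Cong.submatrix`. -/
theorem cong_Amat_even {m : ℕ} {c : K[X]} (hc : c.Monic) (hd : c.natDegree = m)
    (hs : c.Separable) (h0 : c.coeff 0 ≠ 0) :
    Cong (Amat (2 * m) (gof (2 * m) c)) (Wf m c) := by
  let e := Equiv.ofBijective _ (a2_bij m)
  refine (Cong.submatrix _ e).trans (Cong.of_eq ?_)
  have hg : gof (2 * m) c = expand K 2 c := by rw [gof, Nat.mul_mod_right, pow_zero, mul_one]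
  ext (i | i) (j | j)
  · show (-1) ^ (2 * (j : ℕ)) * pS (2 * m) (gof (2 * m) c) (2 * i + 2 * j) =
      2 * tr m c (X ^ ((i : ℕ) + (j : ℕ)))
    rw [hg, show 2 * (i : ℕ) + 2 * j = 2 * (i + j) by ring, (pS_expand hc hd hs h0 _).1, pow_mul,
      neg_one_sq, one_pow, one_mul]
  · show (-1) ^ (2 * (j : ℕ) + 1) * pS (2 * m) (gof (2 * m) c) (2 * i + (2 * j + 1)) = 0
    rw [hg, show 2 * (i : ℕ) + (2 * j + 1) = 2 * (i + j) + 1 by ring,
      (pS_expand hc hd hs h0 _).2, mul_zero]
  · show (-1) ^ (2 * (j : ℕ)) * pS (2 * m) (gof (2 * m) c) (2 * i + 1 + 2 * j) = 0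
    rw [hg, show 2 * (i : ℕ) + 1 + 2 * j = 2 * (i + j) + 1 by ring,
      (pS_expand hc hd hs h0 _).2, mul_zero]
  · show (-1) ^ (2 * (j : ℕ) + 1) * pS (2 * m) (gof (2 * m) c) (2 * i + 1 + (2 * j + 1)) =
      -2 * tr m c (X ^ ((i : ℕ) + (j : ℕ) + 1))
    rw [hg, show 2 * (i : ℕ) + 1 + (2 * j + 1) = 2 * (i + j + 1) by ring,
      (pS_expand hc hd hs h0 _).1, pow_succ, pow_mul, neg_one_sq, one_pow]
    ring

private lemma a2_det {m : ℕ} {c : K[X]} (hc : c.Monic) (hd : c.natDegree = m)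
    (hs : c.Separable) (h0 : c.coeff 0 ≠ 0) : (Amat (2 * m) (gof (2 * m) c)).det ≠ 0 := by
  let L := AlgebraicClosure K
  let φ : K →+* L := algebraMap K L
  have hd' : c.natDegree = 2 * m / 2 := by rw [hd]; omega
  have hgm := gof_monic (2 * m) hc
  have hgs := separable_gof hc hd' hs h0
  obtain ⟨x, hx, h1⟩ := exists_nod φ hgm (natDegree_gof hc hd') hgs
  intro h
  have h2 : φ (Amat (2 * m) (gof (2 * m) c)).det = (Amat (2 * m) (nod x)).det := by
    rw [← h1, ← map_Amat φ hgm]
    exact RingHom.map_det φ _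
  rw [h, map_zero, det_Amat_nod hx] at h2
  have h3 := discr_ne_zero_of_separable (hgm.map φ) hgs.map
  rw [h1] at h3
  exact mul_ne_zero (pow_ne_zero _ (neg_ne_zero.mpr one_ne_zero)) h3 h2.symm

/-- The twisted form in terms of polynomials. -/
private lemma a2_form {L : Type*} [Field L] {n : ℕ} {x : Fin n → L}
    (hx : Function.Injective x) (hpar : (nod x).comp (-X) = (-1) ^ n * nod x)
    {J : Type*} [Fintype J] (w : J → L[X]) :
    (cm n (nod x) w)ᵀ * Amat n (nod x) * cm n (nod x) w =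
      Matrix.of fun i j => ∑ a, (w i).eval (x a) * (w j).eval (- x a) := by
  have h1 := vandermonde_mul_cm (fun i => - x i) w
  rw [nod_neg_of_parity hpar] at h1
  have h2 : (cm n (nod x) w)ᵀ * Amat n (nod x) * cm n (nod x) w =
      (Matrix.vandermonde x * cm n (nod x) w)ᵀ *
        (Matrix.vandermonde (fun i => - x i) * cm n (nod x) w) := by
    rw [← vandermonde_transpose_mul_neg hx, transpose_mul]
    simp only [Matrix.mul_assoc]
  rw [h2, h1, vandermonde_mul_cm]
  ext i j
  rw [Matrix.mul_apply, Matrix.of_apply]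
  refine Finset.sum_congr rfl fun a _ => ?_
  rw [Matrix.transpose_apply, Matrix.of_apply, Matrix.of_apply]

private noncomputable def a2_w (m : ℕ) (c : K[X]) : Fin (2 * m) ⊕ Fin 1 → K[X] :=
  Sum.elim (fun j => X ^ (j : ℕ) * (1 - C ((c.coeff 0)⁻¹) * expand K 2 c))
    fun _ => C ((c.coeff 0)⁻¹) * expand K 2 c

/-- **Job A2, odd case.** `Amat (2 m + 1) (X c(X²)) ≅ W(c) ⊥ <1>`.

Proof. Let `g = gof (2 m + 1) c = c(X²) X`, `n = 2 m + 1`. For polynomials `w j` (`j` in a finite index
type) let `P := cm n g w` (the matrix of their remainders). Then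
`Pᵀ * Amat n g * P = of fun i j => tr n g (w i * (w j).comp (-X))`: as `cm_form` in
`TF/HHBasic.lean`; over the closure, `g = nod x`,
`Amat n (nod x) = V(x)ᵀ * V(-x)` (see `CM/Forms.lean`, `vandermonde_transpose_mul_neg`), and
`V(x) * cm n (nod x) w = of fun a j => (w j).eval (x a)` (`vandermonde_mul_cm`), similarly for `-x`,
as `nod (-x) = nod x` (`nod_neg_of_parity`). Take the index type `Fin (2 m) ⊕ Fin 1`,
`w (inl j) = X ^ j * (1 - C (c(0)⁻¹) * c(X²))`, `w (inr _) = C (c(0)⁻¹) * c(X²)`. At the root `0` of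
`g` the values are `0` and `1`, at the other roots `x ^ j` and `0`. So the matrix of
`tr n g (w i * w j(-X))` is `osum (Amat (2 m) (c(X²))) (sq1 1)`, whose determinant is not zero, so `P`
is invertible (square: reindex by `Fin n`). Conclude by the even case. -/
theorem cong_Amat_odd {m : ℕ} {c : K[X]} (hc : c.Monic) (hd : c.natDegree = m)
    (hs : c.Separable) (h0 : c.coeff 0 ≠ 0) :
    Cong (Amat (2 * m + 1) (gof (2 * m + 1) c)) (osum (Wf m c) (sq1 1)) := by
  refine Cong.trans ?_ ((cong_Amat_even hc hd hs h0).osum (Cong.refl _))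
  let L := AlgebraicClosure K
  let φ : K →+* L := algebraMap K L
  have : CharZero L := charZero_of_injective_algebraMap (algebraMap K L).injective
  have hd' : c.natDegree = (2 * m + 1) / 2 := by rw [hd]; omega
  have hgm := gof_monic (2 * m + 1) hc
  have hgs := separable_gof hc hd' hs h0
  have hg : gof (2 * m + 1) c = expand K 2 c * X := by
    rw [gof, show (2 * m + 1) % 2 = 1 by omega, pow_one]
  have hg2 : gof (2 * m) c = expand K 2 c := by rw [gof, Nat.mul_mod_right, pow_zero, mul_one]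
  have hE : (expand K 2 c).Monic := hc.expand two_pos
  obtain ⟨θ, hθ, h1⟩ := exists_nod φ hc hd hs
  obtain ⟨y, x, hx, hx0, h2, h3, hy⟩ := a2_roots hθ (a2_ne h1 h0)
  have hm : (expand K 2 c).map φ = nod x := by rw [map_expand, h1, h2]
  let x' : Fin (2 * m + 1) → L := Fin.cons 0 x
  have hx' : Function.Injective x' := by
    rw [Fin.cons_injective_iff]
    exact ⟨fun ⟨i, hi⟩ => hx0 i hi, hx⟩
  have hm' : (gof (2 * m + 1) c).map φ = nod x' := by
    rw [hg, Polynomial.map_mul, hm, map_X, nod, nod, Fin.prod_univ_succ]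
    simp only [x', Fin.cons_zero, Fin.cons_succ, C_0, sub_zero]
    rw [mul_comm]
  have hpar : (nod x').comp (-X) = (-1) ^ (2 * m + 1) * nod x' := by
    have := congrArg (Polynomial.map φ) (gof_comp_neg (2 * m + 1) c)
    rw [Polynomial.map_comp, Polynomial.map_neg, Polynomial.map_X, Polynomial.map_mul,
      Polynomial.map_pow, Polynomial.map_neg, Polynomial.map_one, hm'] at this
    exact this
  have key : (cm (2 * m + 1) (gof (2 * m + 1) c) (a2_w m c))ᵀ *
      Amat (2 * m + 1) (gof (2 * m + 1) c) * cm (2 * m + 1) (gof (2 * m + 1) c) (a2_w m c) =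
      osum (Amat (2 * m) (gof (2 * m) c)) (sq1 1) := by
    apply Matrix.map_injective φ.injective
    change ((cm (2 * m + 1) (gof (2 * m + 1) c) (a2_w m c))ᵀ *
      Amat (2 * m + 1) (gof (2 * m + 1) c) * cm (2 * m + 1) (gof (2 * m + 1) c)
        (a2_w m c)).map φ = (osum (Amat (2 * m) (gof (2 * m) c)) (sq1 1)).map φ
    rw [Matrix.map_mul, Matrix.map_mul, transpose_map, map_cm φ hgm, map_Amat φ hgm, hm',
      a2_form hx' hpar, map_osum, map_sq1, map_one, map_Amat φ (gof_monic _ hc), hg2, hm]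
    have hc0 : φ (c.coeff 0) ≠ 0 := (_root_.map_ne_zero φ).mpr h0
    have e1 : ∀ t : L, ((expand K 2 c).map φ).eval (-t) = ((expand K 2 c).map φ).eval t := by
      intro t
      rw [map_expand, expand_eval, expand_eval, neg_sq]
    have e2 : ((expand K 2 c).map φ).eval 0 = φ (c.coeff 0) := by
      rw [map_expand, expand_eval, zero_pow two_ne_zero, ← coeff_zero_eq_eval_zero, coeff_map]
    have e3 : ∀ i, ((expand K 2 c).map φ).eval (x i) = 0 := fun i => by
      rw [hm, eval_nod_self]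
    have w1 : ∀ (j : Fin (2 * m)) (t : L), ((a2_w m c (Sum.inl j)).map φ).eval t =
        t ^ (j : ℕ) * (1 - (φ (c.coeff 0))⁻¹ * ((expand K 2 c).map φ).eval t) := by
      intro j t
      simp [a2_w]
    have w2 : ∀ (j : Fin 1) (t : L), ((a2_w m c (Sum.inr j)).map φ).eval t =
        (φ (c.coeff 0))⁻¹ * ((expand K 2 c).map φ).eval t := by
      intro j t
      simp [a2_w]
    ext (i | i) (j | j)
    · rw [Matrix.of_apply, Fin.sum_univ_succ]
      simp only [w1, x', Fin.cons_zero, Fin.cons_succ, e1, e2, e3, neg_zero,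
        inv_mul_cancel₀ hc0, sub_self, mul_zero, sub_zero, mul_one, zero_add]
      show _ = (-1) ^ (j : ℕ) * pS (2 * m) (nod x) ((i : ℕ) + j)
      rw [pS_nod hx, Finset.mul_sum]
      refine Finset.sum_congr rfl fun a _ => ?_
      rw [pow_add, neg_pow (x a) (j : ℕ)]
      ring
    · rw [Matrix.of_apply, Fin.sum_univ_succ]
      simp only [w1, w2, x', Fin.cons_zero, Fin.cons_succ, e1, e2, e3, neg_zero,
        inv_mul_cancel₀ hc0, sub_self, mul_zero, sub_zero, mul_one, zero_add, zero_mul,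
        Finset.sum_const_zero]
      rfl
    · rw [Matrix.of_apply, Fin.sum_univ_succ]
      simp only [w1, w2, x', Fin.cons_zero, Fin.cons_succ, e1, e2, e3, neg_zero,
        inv_mul_cancel₀ hc0, sub_self, mul_zero, sub_zero, mul_one, zero_add, zero_mul,
        Finset.sum_const_zero]
      rfl
    · rw [Matrix.of_apply, Fin.sum_univ_succ]
      simp only [w2, x', Fin.cons_zero, Fin.cons_succ, e1, e2, e3, neg_zero,
        inv_mul_cancel₀ hc0, mul_zero, mul_one, Finset.sum_const_zero, add_zero]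
      have hi : i = j := Subsingleton.elim _ _
      subst hi
      show _ = (diagonal fun _ => (1 : L)) i i
      rw [diagonal_apply_eq]
  set P := cm (2 * m + 1) (gof (2 * m + 1) c) (a2_w m c) with hP
  let e : Fin (2 * m + 1) ≃ Fin (2 * m) ⊕ Fin 1 := finSumFinEquiv.symm
  let P' : Matrix (Fin (2 * m + 1)) (Fin (2 * m + 1)) K := P.submatrix id e
  have key' : P'ᵀ * Amat (2 * m + 1) (gof (2 * m + 1) c) * P' =
      (osum (Amat (2 * m) (gof (2 * m) c)) (sq1 1)).submatrix e e := by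
    rw [← key]
    rfl
  have hdet : P'.det ≠ 0 := by
    intro h4
    have h5 := congrArg Matrix.det key'
    rw [Matrix.det_mul, h4, mul_zero, det_submatrix_equiv_self, det_osum, det_sq1, mul_one] at h5
    exact a2_det hc hd hs h0 h5.symm
  exact Cong.trans ⟨P', P'⁻¹, Matrix.mul_nonsing_inv _ hdet.isUnit,
    Matrix.nonsing_inv_mul _ hdet.isUnit, key'⟩ (Cong.submatrix _ e).symm

end Pool.Agent.Lib.MP_12adaf_nt.HM
end

section

/-!
# The trace form in terms of the Calogero-Moser parameters: conclusion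
-/

namespace Pool.Agent.Lib.MP_12adaf_nt.HM

open TF Matrix Polynomial

/-- `W(c)` or `W(c) ⊥ <1>`. -/
noncomputable def We {R : Type*} [CommRing R] (e m : ℕ) (c : R[X]) :
    Matrix ((Fin m ⊕ Fin m) ⊕ Fin e) ((Fin m ⊕ Fin m) ⊕ Fin e) R :=
  osum (Wf m c) (1 : Matrix (Fin e) (Fin e) R)

lemma We_isSymm {R : Type*} [CommRing R] (e m : ℕ) (c : R[X]) : (We e m c).IsSymm :=
  osum_isSymm (Wf_isSymm m c) (by ext i j; simp [Matrix.one_apply, eq_comm])

variable {K : Type*} [Field K] [CharZero K]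

/-- **Job A3.** The trace form of `fcp n c p`, `n = 2 m + e`, `e ≤ 1`.

Proof. `fcp n c p = (Xmat n (gof n c) (expand K 2 p)).charpoly` by definition; `cong_Xmat`
(`gof_monic`, `natDegree_gof`, `separable_gof`, `gof_comp_neg`, `expand_two_comp_neg`; `n / 2 = m`) and
`cong_Amat_even`, `cong_Amat_odd` (for `e = 0`: `osum A 1 ≅ A` with the empty block,
`cong_osum_empty` in `TF/Six.lean`; for `e = 1`: `1 = sq1 1`). -/
theorem cong_fcp {m e : ℕ} (he : e ≤ 1) {c p : K[X]} (hc : c.Monic) (hd : c.natDegree = m)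
    (hs : c.Separable) (h0 : c.coeff 0 ≠ 0) (hf : (fcp (2 * m + e) c p).Separable) :
    Cong (HH (2 * m + e) (fcp (2 * m + e) c p)) (We e m c) := by
  have hd' : c.natDegree = (2 * m + e) / 2 := by rw [hd]; omega
  have h1 := cong_Xmat (gof_monic (2 * m + e) hc) (natDegree_gof hc hd')
    (separable_gof hc hd' hs h0) (gof_comp_neg (2 * m + e) c) (expand_two_comp_neg p) hf
  have h2 : Cong (Amat (2 * m + e) (gof (2 * m + e) c)) (We e m c) := by
    rcases Nat.le_one_iff_eq_zero_or_eq_one.mp he with rfl | rfl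
    · exact (cong_Amat_even hc hd hs h0).trans (cong_osum_empty _).symm
    · have h3 : (sq1 1 : Matrix (Fin 1) (Fin 1) K) = 1 := diagonal_one
      rw [We, ← h3]
      exact cong_Amat_odd hc hd hs h0
  exact h1.symm.trans h2

/-- **Job A3, second part.** The parameters of a polynomial.

Proof. The private lemma `cm_local` in `CM/Main.lean` (copy its proof, from `exists_cpT`), and
`cong_charT` (`TF/HHBasic.lean`) with `cong_fcp`. (`z ≠ 0` as `c(0) ≠ 0`; `n / 2 = m` for
`n = 2 m + e`.) -/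
theorem exists_cm {m e : ℕ} (he : e ≤ 1) {F : K[X]} {d Y : K} (hF : F.Monic)
    (hn : F.natDegree = 2 * m + e) (hd : d ≠ 0) (hY : Y ≠ 0) (hdisc : F.discr = d * Y ^ 2) :
    ∃ c p T : K[X], ∃ z : K, c.Monic ∧ c.natDegree = m ∧ c.Separable ∧ z ≠ 0 ∧
      c.coeff 0 = d * z ^ 2 ∧ p.degree < (((2 * m + e + 1) / 2 : ℕ) : WithBot ℕ) ∧
      T.degree < ((2 * m + e : ℕ) : WithBot ℕ) ∧ (fcp (2 * m + e) c p).Separable ∧
      charT (2 * m + e) (fcp (2 * m + e) c p) T = F ∧
      z * kcp (2 * m + e) c p * (Bmat (2 * m + e) (fcp (2 * m + e) c p) T).det = Y ∧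
      Cong (HH (2 * m + e) F) (We e m c) := by
  have hdY : d * Y ^ 2 ≠ 0 := mul_ne_zero hd (pow_ne_zero 2 hY)
  have hs : F.Separable := separable_of_discr_ne_zero hF (by rw [hdisc]; exact hdY)
  obtain ⟨c, p, T, hc, hcd, hcs, hc0, hp, hT, hfs, hch⟩ := exists_cpT hF hn hs
  have hm : (fcp (2 * m + e) c p).Monic := Matrix.charpoly_monic _
  have hdg : (fcp (2 * m + e) c p).natDegree = 2 * m + e := by
    rw [fcp, Matrix.charpoly_natDegree_eq_dim, Fintype.card_fin]
  have hcd' : c.natDegree = m := by rw [hcd]; omega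
  have h1 : F.discr = c.coeff 0 * kcp (2 * m + e) c p ^ 2 *
      (Bmat (2 * m + e) (fcp (2 * m + e) c p) T).det ^ 2 := by
    rw [← hch, discr_charT hm hdg hfs, discr_fcp hc hcd hcs hc0 hfs]
  have hcong : Cong (HH (2 * m + e) F) (We e m c) := by
    have h2 := cong_charT hm hdg hfs (T := T) (by rw [hch]; exact hs)
    rw [hch] at h2
    exact h2.symm.trans (cong_fcp he hc hcd' hcs hc0 hfs)
  rw [hdisc] at h1
  obtain ⟨k, hk⟩ : ∃ k : K, k = kcp (2 * m + e) c p := ⟨_, rfl⟩
  obtain ⟨B, hB⟩ : ∃ B : K, B = (Bmat (2 * m + e) (fcp (2 * m + e) c p) T).det := ⟨_, rfl⟩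
  rw [← hk, ← hB] at h1
  have hk0 : k ≠ 0 := by
    intro h; rw [h] at h1; apply hdY; rw [h1]; ring
  have hB0 : B ≠ 0 := by
    intro h; rw [h] at h1; apply hdY; rw [h1]; ring
  refine ⟨c, p, T, Y / (k * B), hc, hcd', hcs, div_ne_zero hY (mul_ne_zero hk0 hB0), ?_, hp, hT,
    hfs, hch, ?_, hcong⟩
  · field_simp
    linear_combination -h1
  · rw [← hk, ← hB]
    field_simp

end Pool.Agent.Lib.MP_12adaf_nt.HM
end

section

/-!
# From the parameters to the polynomials
-/

namespace Pool.Agent.Lib.MP_12adaf_nt.HM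

open TF Matrix Polynomial Finset Filter Topology

/-- **Job A4.** Approximation of polynomials from approximation of the parameter `c`.

Proof. The same as the proof of `global_CM` in `CM/Main.lean`, where the sequence `c_j` of parameters is not
obtained by weak approximation of the coefficients but from `hcore` with `ε = 1 / (j + 1)`: local
parameters `c i, p i, T i, z i` from `exists_cm`; `hcore` gives `cq j`, `zq j` over `k` with
`cq j → c i`, `zq j → z i` at all `i`, `cq j (0) = d (zq j)²`, `Cong (We e m (cq j)) B`; approximate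
`p i`, `T i` by sequences `pq j`, `Tq j` over `k` (weak approximation of the coefficients). Then
`P := charT n (fcp n (cq j) (pq j)) (Tq j)` and
`y := zq j * kcp n (cq j) (pq j) * (Bmat n (fcp ..) (Tq j)).det` (`n = 2 m + e`) converge to `F i`,
`Y i` (`ct_fcp`, `map_fcp`, `ctb_charT`, `tendsto_det_Bmat`), `P.discr = d y²` as there
(`discr_charT`, `discr_fcp`), and `Cong (HH n P) B` by `cong_charT` and `cong_fcp` for large `j`. -/
theorem cm_approx {k : Type*} [Field k] [CharZero k] {ι : Type*} [Fintype ι] [Nonempty ι]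
    {K : ι → Type*} [∀ i, NormedField (K i)] [∀ i, CharZero (K i)] {φ : ∀ i, k →+* K i}
    (hdense : DenseRange (fun (q : k) (i : ι) => φ i q)) {m e : ℕ} (hm : 1 ≤ m) (he : e ≤ 1)
    {d : k} (hd : d ≠ 0) (F : ∀ i, (K i)[X]) (Y : ∀ i, K i) (hF : ∀ i, (F i).Monic)
    (hFn : ∀ i, (F i).natDegree = 2 * m + e) (hdisc : ∀ i, (F i).discr = φ i d * Y i ^ 2)
    (hY : ∀ i, Y i ≠ 0) {μ : Type*} [Fintype μ] [DecidableEq μ] {B : Matrix μ μ k}
    (hcore : ∀ (c : ∀ i, (K i)[X]) (z : ∀ i, K i), (∀ i, (c i).Monic) →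
      (∀ i, (c i).natDegree = m) → (∀ i, (c i).Separable) → (∀ i, z i ≠ 0) →
      (∀ i, (c i).coeff 0 = φ i d * z i ^ 2) →
      (∀ i, Cong (HH (2 * m + e) (F i)) (We e m (c i))) → ∀ ε : ℝ, 0 < ε →
      ∃ (c' : k[X]) (z' : k), c'.Monic ∧ c'.natDegree = m ∧ c'.Separable ∧ z' ≠ 0 ∧
        c'.coeff 0 = d * z' ^ 2 ∧ Cong (We e m c') B ∧
        ∀ i, (∀ j, ‖φ i (c'.coeff j) - (c i).coeff j‖ < ε) ∧ ‖φ i z' - z i‖ < ε) :
    ApF φ (2 * m + e) d B F Y := by
  intro ε hε
  have hn2 : (2 * m + e) / 2 = m := by omega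
  have hseq : ∀ x : ∀ i, K i, ∃ u : ℕ → k, ∀ i, Tendsto (fun j => φ i (u j)) atTop (𝓝 (x i)) := by
    intro x
    have hx : x ∈ closure (Set.range fun (q : k) (i : ι) => φ i q) := hdense x
    obtain ⟨w, hw, hlim⟩ := mem_closure_iff_seq_limit.mp hx
    choose u hu using hw
    refine ⟨u, fun i => ?_⟩
    have := (tendsto_pi_nhds.mp hlim) i
    refine this.congr fun j => ?_
    rw [← hu j]
  have hφd : ∀ i, φ i d ≠ 0 := fun i => (_root_.map_ne_zero (φ i)).mpr hd
  choose c p T z hc hcd hcs hz0 hcz hp hT hfs hch hzY hcg using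
    fun i => exists_cm he (hF i) (hFn i) (hφd i) (hY i) (hdisc i)
  have hc0 : ∀ i, (c i).coeff 0 ≠ 0 := fun i => by
    rw [hcz i]
    exact mul_ne_zero (hφd i) (pow_ne_zero 2 (hz0 i))
  have hcore' : ∀ j : ℕ, ∃ (c' : k[X]) (z' : k), c'.Monic ∧ c'.natDegree = m ∧ c'.Separable ∧
      z' ≠ 0 ∧ c'.coeff 0 = d * z' ^ 2 ∧ Cong (We e m c') B ∧
      ∀ i, (∀ l, ‖φ i (c'.coeff l) - (c i).coeff l‖ < 1 / ((j : ℝ) + 1)) ∧
        ‖φ i z' - z i‖ < 1 / ((j : ℝ) + 1) :=
    fun j => hcore c z hc hcd hcs hz0 hcz hcg _ (by positivity)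
  choose cq zq hcqm hcqd hcqs hzq0 hcq0 hcqB hcqz using hcore'
  have hsmall : Tendsto (fun j : ℕ => 1 / ((j : ℝ) + 1)) atTop (𝓝 0) :=
    tendsto_one_div_add_atTop_nhds_zero_nat
  have hconv : ∀ (i : ι) (u : ℕ → K i) (u0 : K i), (∀ j : ℕ, ‖u j - u0‖ < 1 / ((j : ℝ) + 1)) →
      Tendsto u atTop (𝓝 u0) := by
    intro i u u0 h
    rw [tendsto_iff_norm_sub_tendsto_zero]
    exact squeeze_zero (fun _ => norm_nonneg _) (fun j => (h j).le) hsmall
  have hus : ∀ i, Tendsto (fun j => φ i (zq j)) atTop (𝓝 (z i)) :=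
    fun i => hconv i _ _ fun j => (hcqz j i).2
  choose up hup using fun l : Fin ((2 * m + e + 1) / 2) => hseq fun i => (p i).coeff l
  choose uT huT using fun l : Fin (2 * m + e) => hseq fun i => (T i).coeff l
  obtain ⟨pq, hpq⟩ : ∃ pq : ℕ → k[X], pq = fun j => toPoly fun l => up l j := ⟨_, rfl⟩
  obtain ⟨Tq, hTq⟩ : ∃ Tq : ℕ → k[X], Tq = fun j => toPoly fun l => uT l j := ⟨_, rfl⟩
  -- convergence at each place
  have hCc : ∀ i, CTB atTop (fun j => (cq j).map (φ i)) (c i) := by
    intro i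
    refine ⟨fun l => ?_, m, fun j => ?_, (hcd i).le⟩
    · simp only [coeff_map]
      exact hconv i _ _ fun j => (hcqz j i).1 l
    · rw [natDegree_map, hcqd]
  have htp : ∀ (i : ι) {N : ℕ} {u : Fin N → ℕ → k} {a : Fin N → K i},
      (∀ l, Tendsto (fun j => φ i (u l j)) atTop (𝓝 (a l))) →
      CTB atTop (fun j => (toPoly fun l => u l j).map (φ i)) (toPoly a) := by
    intro i N u a h
    have h1 : ∀ j, (toPoly fun l => u l j).map (φ i) =
        ∑ l : Fin N, C (φ i (u l j)) * X ^ (l : ℕ) := by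
      intro j
      rw [map_toPoly]
      rfl
    simp only [h1]
    exact CTB.sum _ fun l _ => (CTB.C (h l)).mul (CTB.const _)
  have hCp : ∀ i, CTB atTop (fun j => (pq j).map (φ i)) (p i) := by
    intro i
    rw [← toPoly_coeff (hp i), hpq]
    exact htp i fun l => hup l i
  have hCT : ∀ i, CTB atTop (fun j => (Tq j).map (φ i)) (T i) := by
    intro i
    rw [← toPoly_coeff (hT i), hTq]
    exact htp i fun l => huT l i
  clear hpq hTq
  have hm' : ∀ i j, ((cq j).map (φ i)).Monic := fun i j => (hcqm j).map _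
  have hd' : ∀ i j, ((cq j).map (φ i)).natDegree = (2 * m + e) / 2 := fun i j => by
    rw [natDegree_map, hcqd, hn2]
  have hcd2 : ∀ i, (c i).natDegree = (2 * m + e) / 2 := fun i => by rw [hcd, hn2]
  have hcqd2 : ∀ j, (cq j).natDegree = (2 * m + e) / 2 := fun j => by rw [hcqd, hn2]
  have hfm : ∀ j, (fcp (2 * m + e) (cq j) (pq j)).Monic := fun j => Matrix.charpoly_monic _
  have hfd : ∀ j, (fcp (2 * m + e) (cq j) (pq j)).natDegree = 2 * m + e := fun j => by
    rw [fcp, Matrix.charpoly_natDegree_eq_dim, Fintype.card_fin]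
  have hfm0 : ∀ i, (fcp (2 * m + e) (c i) (p i)).Monic := fun i => Matrix.charpoly_monic _
  have hfd0 : ∀ i, (fcp (2 * m + e) (c i) (p i)).natDegree = 2 * m + e := fun i => by
    rw [fcp, Matrix.charpoly_natDegree_eq_dim, Fintype.card_fin]
  have hcf := fun i => ct_fcp (hCc i) (hCp i) (hm' i) (hd' i) (hc i) (hcd2 i) (hcs i) (hc0 i)
  have hCf : ∀ i, CTB atTop (fun j => (fcp (2 * m + e) (cq j) (pq j)).map (φ i))
      (fcp (2 * m + e) (c i) (p i)) := by
    intro i
    simp only [(map_fcp (φ i) (hcqm _)).1]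
    exact (hcf i).1
  have hCP : ∀ i, CT atTop
      (fun j => (charT (2 * m + e) (fcp (2 * m + e) (cq j) (pq j)) (Tq j)).map (φ i)) (F i) := by
    intro i
    have h1 := ctb_charT (n := 2 * m + e) (hCf i) (fun j => (hfm j).map _)
      (fun j => by rw [natDegree_map]; exact hfd j) (hfm0 i) (hfd0 i) (hCT i)
    rw [hch i] at h1
    intro l
    refine (h1 l).congr fun j => ?_
    dsimp only
    rw [map_charT (φ i) (hfm j)]
  obtain ⟨yq, hyq⟩ : ∃ yq : ℕ → k, yq = fun j => zq j * kcp (2 * m + e) (cq j) (pq j) *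
    (Bmat (2 * m + e) (fcp (2 * m + e) (cq j) (pq j)) (Tq j)).det := ⟨_, rfl⟩
  have hyY : ∀ i, Tendsto (fun j => φ i (yq j)) atTop (𝓝 (Y i)) := by
    intro i
    have h2 := tendsto_det_Bmat (n := 2 * m + e) (hCf i) (fun j => (hfm j).map _)
      (fun j => by rw [natDegree_map]; exact hfd j) (hfm0 i) (hfd0 i) (hCT i)
    have h3 := ((hus i).mul (hcf i).2).mul h2
    rw [hzY i] at h3
    refine h3.congr fun j => ?_
    rw [hyq]
    dsimp only
    rw [map_mul, map_mul, (map_fcp (φ i) (hcqm j)).2, map_det_Bmat (φ i) (hfm j)]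
  -- choose a good index
  obtain ⟨i₀⟩ := ‹Nonempty ι›
  have ev1 : ∀ᶠ j in atTop, yq j ≠ 0 := by
    have := (hyY i₀).eventually_ne (hY i₀)
    filter_upwards [this] with j hj h
    exact hj (by rw [h, map_zero])
  have ev3 : ∀ᶠ j in atTop, (fcp (2 * m + e) (cq j) (pq j)).discr ≠ 0 := by
    have h1 := ((hCf i₀).1.discr (fun j => (hfm j).map _)
      (fun j => by rw [natDegree_map]; exact hfd j) (hfm0 i₀) (hfd0 i₀)).eventually_ne
      (discr_ne_zero_of_separable (hfm0 i₀) (hfs i₀))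
    filter_upwards [h1] with j hj h
    apply hj
    rw [discr_map_monic (φ i₀) (hfm j), h, map_zero]
  have ev4 : ∀ᶠ j in atTop, ∀ i, ‖φ i (yq j) - Y i‖ < ε := by
    rw [eventually_all]
    intro i
    have := (Metric.tendsto_nhds.mp (hyY i)) ε hε
    simpa only [dist_eq_norm] using this
  have ev5 : ∀ᶠ j in atTop, ∀ i, ∀ l : Fin (2 * m + e + 1),
      ‖φ i ((charT (2 * m + e) (fcp (2 * m + e) (cq j) (pq j)) (Tq j)).coeff l) -
        (F i).coeff l‖ < ε := by
    rw [eventually_all]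
    intro i
    rw [eventually_all]
    intro l
    have := (Metric.tendsto_nhds.mp (hCP i l)) ε hε
    simpa only [dist_eq_norm, coeff_map] using this
  obtain ⟨j, hj1, hj3, hj4, hj5⟩ := (ev1.and (ev3.and (ev4.and ev5))).exists
  have hcq0' : (cq j).coeff 0 ≠ 0 := by
    rw [hcq0 j]; exact mul_ne_zero hd (pow_ne_zero 2 (hzq0 j))
  have hfsep : (fcp (2 * m + e) (cq j) (pq j)).Separable :=
    separable_of_discr_ne_zero (hfm j) hj3
  have hPd : (charT (2 * m + e) (fcp (2 * m + e) (cq j) (pq j)) (Tq j)).discr =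
      d * yq j ^ 2 := by
    rw [discr_charT (hfm j) (hfd j) hfsep,
      discr_fcp (hcqm j) (hcqd2 j) (hcqs j) hcq0' hfsep, hcq0 j, hyq]
    ring
  have hPsep : (charT (2 * m + e) (fcp (2 * m + e) (cq j) (pq j)) (Tq j)).Separable := by
    apply separable_of_discr_ne_zero (charT_monic _ _ _)
    rw [hPd]
    exact mul_ne_zero hd (pow_ne_zero 2 hj1)
  refine ⟨charT (2 * m + e) (fcp (2 * m + e) (cq j) (pq j)) (Tq j), yq j, charT_monic _ _ _,
    natDegree_charT _ _ _, hPd, hj1, ?_, fun i => ⟨fun l => ?_, hj4 i⟩⟩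
  · have c1 := cong_charT (hfm j) (hfd j) hfsep hPsep
    have c2 := cong_fcp he (hcqm j) (hcqd j) (hcqs j) hcq0' hfsep
    exact c1.symm.trans (c2.trans (hcqB j))
  · by_cases hl : l < 2 * m + e + 1
    · exact hj5 i ⟨l, hl⟩
    · have h1 : (charT (2 * m + e) (fcp (2 * m + e) (cq j) (pq j)) (Tq j)).coeff l = 0 := by
        apply coeff_eq_zero_of_natDegree_lt
        rw [natDegree_charT]; omega
      have h2 : (F i).coeff l = 0 := by
        apply coeff_eq_zero_of_natDegree_lt
        rw [hFn i]; omega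
      rw [h1, h2, map_zero, sub_zero, norm_zero]
      exact hε

end Pool.Agent.Lib.MP_12adaf_nt.HM
end

section

/-!
# The weak Hasse principle for symmetric matrices
-/

namespace Pool.Agent.Lib.MP_12adaf_nt.HM

open NumberField IsDedekindDomain IsDedekindDomain.HeightOneSpectrum TF Matrix

variable {k : Type*} [Field k] [NumberField k]

/-- `Fin (n+1)` as a sum. -/
private def c18e (n : ℕ) : Fin (n + 1) ≃ Fin n ⊕ Fin 1 where
  toFun := Fin.cases (Sum.inr 0) Sum.inl
  invFun := Sum.elim Fin.succ (fun _ => 0)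
  left_inv := by
    intro i
    refine Fin.cases ?_ (fun j => ?_) i <;> rfl
  right_inv := by
    rintro (i | i)
    · rfl
    · have : i = 0 := Subsingleton.elim _ _
      subst this
      rfl

private lemma c18L {K : Type*} [Field K] {n : ℕ} (c : K) (u : Fin n → K) :
    CD (Fin.cons c u : Fin (n + 1) → K) (Sum.elim u (fun _ : Fin 1 => c)) := by
  have h := CD.reindex (Sum.elim u (fun _ : Fin 1 => c)) (c18e n)
  refine CD.symm (h.trans ?_)
  have : (fun i => Sum.elim u (fun _ : Fin 1 => c) (c18e n i)) = (Fin.cons c u : Fin (n + 1) → K) := by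
    funext i
    refine Fin.cases ?_ (fun j => ?_) i <;> rfl
  rw [this]
  exact CD.refl _

private lemma c18_reps {K : Type*} [Field K] {ι : Type*} [Fintype ι] [DecidableEq ι] {r : ℕ}
    {a : ι → K} {B : Matrix (Fin r) (Fin r) K} {c : K}
    (h : Cong (diagonal a) (osum B (sq1 c))) : Reps a c := by
  obtain ⟨M, M', -, -, h1⟩ := h
  refine ⟨fun j => M j (Sum.inr 0), ?_⟩
  have h2 := congrFun (congrFun h1 (Sum.inr 0)) (Sum.inr 0)
  have h3 : (osum B (sq1 c)) (Sum.inr 0) (Sum.inr 0) = c := by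
    simp [osum, sq1]
  rw [h3] at h2
  rw [← h2, Matrix.mul_assoc, mul_apply]
  refine Finset.sum_congr rfl fun j _ => ?_
  rw [diagonal_mul, transpose_apply]
  show a j * M j (Sum.inr 0) ^ 2 = M j (Sum.inr 0) * (a j * M j (Sum.inr 0))
  ring

/-- **Job C18.** Symmetric matrices which are congruent at all places are congruent.

Proof. Diagonalise both (`exists_diagonal`, in `TF/Witt.lean`) and use `cd_of_local'` (`Cong.map`,
`diagonal_map`, `Cong.trans`). -/
theorem cong_of_local {ι κ : Type*} [Fintype ι] [DecidableEq ι] [Fintype κ] [DecidableEq κ]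
    {A : Matrix ι ι k} {B : Matrix κ κ k} (hA : A.IsSymm) (hB : B.IsSymm) (hA0 : A.det ≠ 0)
    (hB0 : B.det ≠ 0) (h : ∀ i : Pl k, Cong (A.map (plEmb k i)) (B.map (plEmb k i))) :
    Cong A B := by
  obtain ⟨u, hu0, hu⟩ := exists_diagonal hA hA0
  obtain ⟨v, hv0, hv⟩ := exists_diagonal hB hB0
  have h1 : CD u v := by
    refine cd_of_local' hu0 hv0 fun i => ?_
    have h2 := Cong.map (plEmb k i) hu
    have h3 := Cong.map (plEmb k i) hv
    rw [diagonal_map (map_zero _)] at h2 h3
    exact (h2.symm.trans (h i)).trans h3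
  exact (hu.trans h1).trans hv.symm

/-- **Job C18, second part.** Splitting off a value which is represented at all places.

Proof. Let `u` be a diagonalisation of `A` (`exists_diagonal`; reindex by `Fin (r + 1)`). At every
place the form `u` represents `c` (the form `osum B (sq1 c)` does), so `Sum.elim u (-c)` of rank
`r + 2 ≥ 2` is isotropic at every place (`isot_of_reps`), so over `k` (`hasse_minkowski`), so `u`
represents `c` (`reps_of_isot`), and `exists_cd_of_reps` (Q10). -/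
theorem exists_split_of_local {ι : Type*} [Fintype ι] [DecidableEq ι] {r : ℕ}
    (hι : Fintype.card ι = r + 1) {A : Matrix ι ι k} (hA : A.IsSymm) (hA0 : A.det ≠ 0) {c : k}
    (hc : c ≠ 0)
    (h : ∀ i : Pl k, ∃ B : Matrix (Fin r) (Fin r) (PlC k i),
      Cong (A.map (plEmb k i)) (osum B (sq1 (plEmb k i c)))) :
    ∃ u : Fin r → k, (∀ j, u j ≠ 0) ∧ Cong A (osum (diagonal u) (sq1 c)) := by
  classical
  obtain ⟨u, hu0, hu⟩ := exists_diagonal hA hA0
  let e : Fin (r + 1) ≃ ι := (Fintype.equivFinOfCardEq hι).symm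
  have hu' : Cong A (diagonal fun j => u (e j)) := hu.trans (CD.reindex u e)
  have hiso : ∀ i : Pl k,
      Isot fun j => plEmb k i ((Fin.cons (-c) (fun j => u (e j)) : Fin (r + 2) → k) j) := by
    intro i
    obtain ⟨B, hB⟩ := h i
    have h2 := Cong.map (plEmb k i) hu'
    rw [diagonal_map (map_zero _)] at h2
    have h3 := isot_of_reps (c18_reps (h2.symm.trans hB))
    have h4 : (fun j => plEmb k i ((Fin.cons (-c) (fun j => u (e j)) : Fin (r + 2) → k) j)) =
        (Fin.cons (-(plEmb k i c)) (fun j => plEmb k i (u (e j))) : Fin (r + 2) → PlC k i) := by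
      funext j
      refine Fin.cases ?_ (fun j => ?_) j
      · simp
      · simp
    rw [h4]
    exact h3
  have hne : ∀ j, (Fin.cons (-c) (fun j => u (e j)) : Fin (r + 2) → k) j ≠ 0 := by
    intro j
    refine Fin.cases ?_ (fun j => ?_) j
    · simpa using hc
    · simpa using hu0 (e j)
  have hI := hasse_minkowski (by omega) hne hiso
  have hR := reps_of_isot two_ne_zero (fun j => hu0 (e j)) hc hI
  obtain ⟨w, hw0, hw⟩ := exists_cd_of_reps (fun j => hu0 (e j)) hc hR
  refine ⟨w, hw0, ?_⟩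
  have h5 : osum (diagonal w) (sq1 c) = diagonal (Sum.elim w fun _ : Fin 1 => c) :=
    osum_diagonal _ _
  rw [h5]
  exact (hu'.trans hw).trans (c18L c w)

end Pool.Agent.Lib.MP_12adaf_nt.HM
end

section

/-!
# W(c) is locally constant
-/

namespace Pool.Agent.Lib.MP_12adaf_nt.HM

open NumberField IsDedekindDomain IsDedekindDomain.HeightOneSpectrum TF Matrix Polynomial Filter Topology

variable {k : Type*} [Field k] [NumberField k]

private lemma c14_smul {K : Type*} [Field K] {p q : Type*} [Fintype p] [DecidableEq p]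
    [Fintype q] [DecidableEq q] {A : Matrix p p K} {B : Matrix q q K} (h : Cong A B) (a : K) :
    Cong (a • A) (a • B) := by
  obtain ⟨M, M', h1, h2, rfl⟩ := h
  exact ⟨M, M', h1, h2, by rw [Matrix.mul_smul, Matrix.smul_mul]⟩

private lemma c14_ev {K : Type*} [NormedField K] (hop : OpenCong K) {m : ℕ}
    {S : Matrix (Fin m) (Fin m) K} (hS : S.IsSymm) (hd : S.det ≠ 0)
    {H : ℕ → Matrix (Fin m) (Fin m) K} (hH : ∀ N, (H N).IsSymm)
    (hlim : ∀ i j, Tendsto (fun N => H N i j) atTop (𝓝 (S i j)))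
    (hne : ∀ᶠ N in atTop, (H N).det ≠ 0) : ∀ᶠ N in atTop, Cong (H N) S := by
  obtain ⟨δ, hδ, hopen⟩ := hop m S hS hd 1 one_pos
  have h1 : ∀ᶠ N in atTop, ∀ i j, ‖H N i j - S i j‖ < δ := by
    rw [eventually_all]
    intro i
    rw [eventually_all]
    intro j
    have := (Metric.tendsto_nhds.mp (hlim i j)) δ hδ
    simpa only [dist_eq_norm] using this
  filter_upwards [h1, hne] with N hN h2
  obtain ⟨Y, -, hY⟩ := hopen _ (hH N) hN
  have h3 : Y.det ≠ 0 := by
    intro h4
    rw [← hY, det_mul, h4, mul_zero] at h2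
    exact h2 rfl
  have h5 : Cong S (H N) :=
    ⟨Y, Y⁻¹, Matrix.mul_nonsing_inv _ h3.isUnit, Matrix.nonsing_inv_mul _ h3.isUnit, hY⟩
  exact h5.symm

/-- **Job C14.** `W(c)` is locally constant.

Proof. `openCong_place` for `HH m c` and for `HH1 m c` (symmetric, invertible: `det_HH`, `det_HH1`,
`c(0) ≠ 0`) and the continuity of `HH m c'`, `HH1 m c'` and of the discriminant in the coefficients
of `c'` (`tendsto_HH`, `tendsto_tr`, `CT`; `CT.discr`; see the proofs in `TF/Six.lean`: from a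
sequence of polynomials whose coefficients converge; argue by contradiction: if no `δ = 1/(j+1)`
works, take a sequence of counterexamples). `discr c' ≠ 0` gives separability. Scale by `2` and `-2`,
and `Cong.osum`. -/
theorem open_Wf (i : Pl k) {m : ℕ} {c : (PlC k i)[X]} (hc : c.Monic) (hd : c.natDegree = m)
    (hs : c.Separable) (h0 : c.coeff 0 ≠ 0) :
    ∃ δ : ℝ, 0 < δ ∧ ∀ c' : (PlC k i)[X], c'.Monic → c'.natDegree = m →
      (∀ j, ‖c'.coeff j - c.coeff j‖ < δ) → c'.Separable ∧ Cong (Wf m c') (Wf m c) := by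
  by_contra hcon
  push Not at hcon
  choose F hFm hFd hFc hF using fun N : ℕ => hcon (1 / ((N : ℝ) + 1)) Nat.one_div_pos_of_nat
  have hop := openCong_place i
  have hCT : CT atTop F c := by
    intro j
    rw [tendsto_iff_norm_sub_tendsto_zero]
    exact squeeze_zero (fun N => norm_nonneg _) (fun N => (hFc N j).le)
      tendsto_one_div_add_atTop_nhds_zero_nat
  have hdisc : c.discr ≠ 0 := discr_ne_zero_of_separable hc hs
  have ev1 : ∀ᶠ N in atTop, (F N).Separable := by
    have h1 := (hCT.discr hFm hFd hc hd).eventually_ne hdisc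
    filter_upwards [h1] with N hN
    exact separable_of_discr_ne_zero (hFm N) hN
  have ev2 : ∀ᶠ N in atTop, (F N).coeff 0 ≠ 0 := (hCT 0).eventually_ne h0
  have ev3 : ∀ᶠ N in atTop, Cong (HH m (F N)) (HH m c) := by
    refine c14_ev hop (HH_isSymm m c) (det_HH_ne_zero hc hd hs) (fun N => HH_isSymm m _)
      (fun a b => tendsto_HH hCT hFm hFd hc hd a b) ?_
    filter_upwards [ev1] with N hN
    exact det_HH_ne_zero (hFm N) (hFd N) hN
  have hne1 : ∀ {q : (PlC k i)[X]}, q.Monic → q.natDegree = m → q.Separable → q.coeff 0 ≠ 0 →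
      (HH1 m q).det ≠ 0 := by
    intro q h1 h2 h3 h4
    rw [det_HH1 h1 h2 h3]
    exact mul_ne_zero (mul_ne_zero (pow_ne_zero _ (neg_ne_zero.mpr one_ne_zero)) h4)
      (discr_ne_zero_of_separable h1 h3)
  have ev4 : ∀ᶠ N in atTop, Cong (HH1 m (F N)) (HH1 m c) := by
    refine c14_ev hop (HH1_isSymm m c) (hne1 hc hd hs h0) (fun N => HH1_isSymm m _)
      (fun a b => ?_) ?_
    · exact tendsto_tr hCT hFm hFd hc hd (CTB.const _)
    · filter_upwards [ev1, ev2] with N hN hN2
      exact hne1 (hFm N) (hFd N) hN hN2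
  obtain ⟨N, h1, h3, h4⟩ := (ev1.and (ev3.and ev4)).exists
  exact hF N h1 ((c14_smul h3 2).osum (c14_smul h4 (-2)))

end Pool.Agent.Lib.MP_12adaf_nt.HM
end
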