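import Mathlib
import Pool.Agent.Lib.MP_12adaf_nt.TF.Six
import Pool.Agent.Lib.MP_12adaf_nt.HM.T8
import Pool.Agent.Lib.MP_12adaf_nt.HM.C04
import Pool.Agent.Lib.MP_12adaf_nt.TF.OWeak
import Pool.Agent.Lib.MP_12adaf_nt.HM.Q02

section

/-!
# The pencil: multiple roots of the members
-/

namespace Pool.Agent.Lib.MP_12adaf_nt.HM

open TF Matrix Polynomial

variable {L : Type*} [Field L] [IsAlgClosed L]

private theorem c02_roots {n : ℕ} {f : L[X]} (hf : f.Monic) (hn : f.natDegree = n) :
    ∃ θ : Fin n → L, f = ∏ i, (X - C (θ i)) := by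
  have hs : f.Splits := IsAlgClosed.splits f
  have h1 : f = (f.roots.map (fun a => X - C a)).prod := hs.eq_prod_roots_of_monic hf
  have h2 : Multiset.card f.roots = n := by rw [← hs.natDegree_eq_card_roots, hn]
  obtain ⟨l, hl⟩ := Quot.exists_rep f.roots
  have hl' : f.roots = (l : Multiset L) := hl.symm
  have hlen : l.length = n := by rw [← h2, hl']; rfl
  subst hlen
  refine ⟨l.get, ?_⟩
  rw [h1, hl', Multiset.map_coe, Multiset.prod_coe, ← List.prod_ofFn]
  congr 1
  apply List.ext_get
  · simp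
  · intro i h1 h2
    simp

/-- The factors of the polynomial of the critical values. -/
private noncomputable def c02E (m : ℕ) (c : L[X]) (t : L) : L[X] :=
  C (c.eval t) + X * C ((Rp L m).eval t)

omit [IsAlgClosed L] in
private theorem c02_Ep {m : ℕ} (hm : 2 ≤ m) {c : L[X]} (hd : c.natDegree = m)
    {t : Fin (2 * m - 2) → L} (ht : Jp m c = ∏ i, (X - C (t i))) :
    Ep m c = ∏ i, c02E m c (t i) := by
  unfold Ep
  have hg : (c.map (C : L →+* L[X]) + C X * (Rp L m).map (C : L →+* L[X])).natDegree ≤ m := by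
    refine (natDegree_add_le _ _).trans (max_le ?_ ?_)
    · exact natDegree_map_le.trans hd.le
    · refine (natDegree_C_mul_le _ _).trans (natDegree_map_le.trans ?_)
      rw [natDegree_Rp]
      omega
  have hJ : (Jp m c).map (C : L →+* L[X]) = ∏ i, (X - C (C (t i))) := by
    rw [ht, Polynomial.map_prod]
    refine Finset.prod_congr rfl fun i _ => ?_
    rw [Polynomial.map_sub, map_X, map_C]
  have hdeg : (∏ i, (X - C (C (t i))) : L[X][X]).natDegree = 2 * m - 2 := by
    rw [natDegree_prod_of_monic _ _ fun i _ => monic_X_sub_C _]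
    simp only [natDegree_X_sub_C, Finset.sum_const, Finset.card_univ, Fintype.card_fin,
      smul_eq_mul, mul_one]
  have key := resultant_prod_left Finset.univ (fun i => X - C (C (t i))) _ m
    (by simp only [leadingCoeff_X_sub_C, Finset.prod_const_one]; exact one_ne_zero) hg
  rw [hdeg] at key
  rw [hJ, key]
  refine Finset.prod_congr rfl fun i _ => ?_
  rw [natDegree_X_sub_C, resultant_X_sub_C_left _ _ _ hg]
  unfold c02E
  rw [eval_add, eval_mul, eval_C, eval_map, eval_map]
  congr 1
  · rw [eval₂_at_apply]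
  · rw [eval₂_at_apply]

omit [IsAlgClosed L] in
private theorem c02E_natDegree (m : ℕ) (c : L[X]) (t : L) : (c02E m c t).natDegree ≤ 1 := by
  unfold c02E
  refine (natDegree_add_le _ _).trans (max_le ?_ ?_)
  · rw [natDegree_C]
    exact Nat.zero_le _
  · refine natDegree_mul_le.trans ?_
    rw [natDegree_C]
    exact natDegree_X_le

omit [IsAlgClosed L] in
private theorem c02E_eval (m : ℕ) (c : L[X]) (t s : L) :
    (c02E m c t).eval s = (pen m c s).eval t := by
  unfold c02E pen
  simp only [eval_add, eval_mul, eval_C, eval_X]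

omit [IsAlgClosed L] in
/-- Different critical points have different critical values. -/
private theorem c02_inj {m : ℕ} (hm : 2 ≤ m) {c : L[X]} (hd : c.natDegree = m)
    {t : Fin (2 * m - 2) → L} (ht : Jp m c = ∏ i, (X - C (t i))) (hPhi : Phi m c ≠ 0) (s : L)
    {i j : Fin (2 * m - 2)} (hi : (pen m c s).eval (t i) = 0) (hj : (pen m c s).eval (t j) = 0) :
    i = j := by
  classical
  by_contra hij
  apply hPhi
  unfold Phi
  have hE := c02_Ep hm hd ht
  have hdeg : (Ep m c).natDegree ≤ 2 * m - 2 := by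
    rw [hE]
    refine (natDegree_prod_le _ _).trans ?_
    refine (Finset.sum_le_card_nsmul _ _ 1 fun i _ => c02E_natDegree m c (t i)).trans ?_
    simp
  have hdeg' : (derivative (Ep m c)).natDegree ≤ 2 * m - 3 := by
    refine (natDegree_derivative_le _).trans ?_
    omega
  obtain ⟨p, q, -, -, hpq⟩ := exists_mul_add_mul_eq_C_resultant (Ep m c) (derivative (Ep m c))
    hdeg hdeg' (by omega)
  have hsplit : Ep m c = c02E m c (t i) * ∏ k ∈ Finset.univ.erase i, c02E m c (t k) := by
    rw [hE, Finset.mul_prod_erase _ (fun k => c02E m c (t k)) (Finset.mem_univ i)]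
  have h1 : (c02E m c (t i)).eval s = 0 := by rw [c02E_eval, hi]
  have h2 : (∏ k ∈ Finset.univ.erase i, c02E m c (t k)).eval s = 0 := by
    rw [eval_prod]
    apply Finset.prod_eq_zero (i := j) (Finset.mem_erase.mpr ⟨fun h => hij h.symm, Finset.mem_univ j⟩)
    rw [c02E_eval, hj]
  have h3 : (Ep m c).eval s = 0 := by rw [hsplit, eval_mul, h1, zero_mul]
  have h4 : (derivative (Ep m c)).eval s = 0 := by
    rw [hsplit, derivative_mul, eval_add, eval_mul, eval_mul, h1, h2, mul_zero, zero_mul, add_zero]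
  have h5 := congrArg (eval s) hpq
  rw [eval_add, eval_mul, eval_mul, h3, h4, zero_mul, zero_mul, add_zero, eval_C] at h5
  rw [← h5, mul_zero]

/-- **Job C02.** If `Phi m c ≠ 0` then every member of the pencil has at most one multiple root, and
it is a double root.

Proof. Write `J = Jp m c = ∏_{i < 2m-2} (X - t_i)` (monic, algebraically closed field). The resultant
with a product of linear factors: `Ep m c = ± ∏_i (c(t_i) + s R(t_i))` as polynomials in `s` (the
resultant of a monic polynomial of degree exactly `2m-2` and `P` of degree at most `m`: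
`resultant_eq_prod_eval`-type lemmas, over the domain of polynomials in `s`). Its coefficient of `s ^ (2m-2)` is
`± ∏ R(t_i) ≠ 0`. So `Ep m c` is a constant times `∏ (s - s_i)`, `s_i = -c(t_i) / R(t_i)`, of degree
exactly `2m-2`, and its resultant with its derivative is not zero, so it is separable and the
`s_i` are distinct (in particular the `t_i`). Let `f = pen m c s`.
- If `t` is a multiple root of `f`: `c(t) + s R(t) = 0`, `c'(t) + s R'(t) = 0`, so `J(t) = 0`
  (`Jp_pen`: `J = f' R - f R'`), `t = t_i`, `R(t) ≠ 0` and `s = s_i`. So there is at most one `i`,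
  i.e. at most one multiple root.
- If `t` is a root of multiplicity `≥ 3` of `f` then `(X - t)²` divides `f'` and `f`, so `J`:
  two of the `t_i` are equal: contradiction.
So the roots of `f` with multiplicity are distinct except that one may occur twice: remove one copy
(or any one root if all are distinct): `f = (X - σ) ∏_{i < m-1} (X - τ_i)`, `τ` injective. -/
theorem exists_roots {m : ℕ} (hm : 2 ≤ m) {c : L[X]} (hc : c.Monic) (hd : c.natDegree = m)
    (hPhi : Phi m c ≠ 0) (s : L) :
    ∃ (τ : Fin (m - 1) → L) (σ : L), Function.Injective τ ∧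
      pen m c s = (X - C σ) * ∏ i, (X - C (τ i)) := by
  classical
  obtain ⟨hJm, hJd⟩ := Jp_monic hm hc hd
  obtain ⟨t, ht⟩ := c02_roots hJm hJd
  obtain ⟨hfm, hfd⟩ := pen_monic hm hc hd s
  -- a multiple root is a critical point
  have hcrit : ∀ u : L, (pen m c s).eval u = 0 → (derivative (pen m c s)).eval u = 0 →
      ∃ i, t i = u := by
    intro u h1 h2
    have h3 : (Jp m c).eval u = 0 := by
      rw [← Jp_pen m c s]
      unfold Jp
      rw [eval_sub, eval_mul, eval_mul, h1, h2, zero_mul, zero_mul, sub_zero]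
    rw [ht, eval_prod, Finset.prod_eq_zero_iff] at h3
    obtain ⟨i, -, hi⟩ := h3
    refine ⟨i, ?_⟩
    rw [eval_sub, eval_X, eval_C, sub_eq_zero] at hi
    exact hi.symm
  -- triple roots do not exist
  have htriple : ∀ (u : L) (g : L[X]), pen m c s ≠ (X - C u) ^ 3 * g := by
    intro u g hg
    have hX : eval u (X - C u) = 0 := by rw [eval_sub, eval_X, eval_C, sub_self]
    have h1 : (pen m c s).eval u = 0 := by rw [hg, eval_mul, eval_pow, hX]; ring
    have hder : derivative (pen m c s) = (X - C u) ^ 2 * (3 * g + (X - C u) * derivative g) := by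
      rw [hg, derivative_mul, derivative_pow, derivative_sub, derivative_X, derivative_C]
      have : (C ((3 : ℕ) : L) : L[X]) = 3 := by
        rw [Nat.cast_ofNat]
        exact map_ofNat C 3
      rw [this]
      ring
    have h2 : (derivative (pen m c s)).eval u = 0 := by
      rw [hder, eval_mul, eval_pow, hX]
      ring
    obtain ⟨i, hi⟩ := hcrit u h1 h2
    have hJ : Jp m c = (X - C u) ^ 2 * ((3 * g + (X - C u) * derivative g) * Rp L m -
        (X - C u) * g * derivative (Rp L m)) := by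
      rw [← Jp_pen m c s]
      unfold Jp
      rw [hder]
      nth_rewrite 1 [hg]
      ring
    have hJ' : (derivative (Jp m c)).eval u = 0 := by
      rw [hJ, derivative_mul, derivative_pow, eval_add, eval_mul, eval_mul, eval_mul, eval_mul,
        eval_pow, eval_pow, hX]
      ring
    have hsp : Jp m c = (X - C (t i)) * ∏ k ∈ Finset.univ.erase i, (X - C (t k)) := by
      rw [ht, Finset.mul_prod_erase _ (fun k => X - C (t k)) (Finset.mem_univ i)]
    rw [hsp, derivative_mul, derivative_sub, derivative_X, derivative_C, hi, eval_add, eval_mul,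
      eval_mul, hX, zero_mul, add_zero, sub_zero, eval_one, one_mul, eval_prod,
      Finset.prod_eq_zero_iff] at hJ'
    obtain ⟨j, hj, hj'⟩ := hJ'
    rw [eval_sub, eval_X, eval_C, sub_eq_zero] at hj'
    have hne := (Finset.mem_erase.mp hj).1
    apply hne
    exact c02_inj hm hd ht hPhi s (by rw [← hj', h1]) (by rw [hi, h1])
  obtain ⟨r, hr⟩ := c02_roots hfm hfd
  -- double roots of `f` from equal indices
  have hpair : ∀ x y : Fin m, x ≠ y → r x = r y →
      (pen m c s).eval (r x) = 0 ∧ (derivative (pen m c s)).eval (r x) = 0 := by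
    intro x y hxy h
    have hX : eval (r x) (X - C (r x)) = 0 := by rw [eval_sub, eval_X, eval_C, sub_self]
    have hsp : pen m c s = (X - C (r x)) * ∏ k ∈ Finset.univ.erase x, (X - C (r k)) := by
      rw [hr, Finset.mul_prod_erase _ (fun k => X - C (r k)) (Finset.mem_univ x)]
    have h2 : (∏ k ∈ Finset.univ.erase x, (X - C (r k))).eval (r x) = 0 := by
      rw [eval_prod]
      apply Finset.prod_eq_zero (i := y)
        (Finset.mem_erase.mpr ⟨fun h' => hxy h'.symm, Finset.mem_univ y⟩)
      rw [eval_sub, eval_X, eval_C, h, sub_self]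
    constructor
    · rw [hsp, eval_mul, hX, zero_mul]
    · rw [hsp, derivative_mul, eval_add, eval_mul, eval_mul, hX, h2, mul_zero, zero_mul, add_zero]
  obtain ⟨k, rfl⟩ : ∃ k, m = k + 1 := ⟨m - 1, by omega⟩
  show ∃ (τ : Fin k → L) (σ : L), Function.Injective τ ∧
    pen (k + 1) c s = (X - C σ) * ∏ i, (X - C (τ i))
  by_cases hinj : Function.Injective r
  · refine ⟨fun i => r i.succ, r 0, fun i j hij => Fin.succ_injective _ (hinj hij), ?_⟩
    rw [hr, Fin.prod_univ_succ]
  · rw [Function.Injective] at hinj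
    push Not at hinj
    obtain ⟨a, b, hab, hne⟩ := hinj
    refine ⟨fun i => r (a.succAbove i), r a, ?_, ?_⟩
    · intro x' y' hxy
      by_contra hxy'
      set x := a.succAbove x' with hx
      set y := a.succAbove y' with hy
      have hxne : x ≠ a := Fin.succAbove_ne a x'
      have hyne : y ≠ a := Fin.succAbove_ne a y'
      have hxyne : x ≠ y := fun h => hxy' (Fin.succAbove_right_injective h)
      have hxy2 : r x = r y := hxy
      obtain ⟨h1, h2⟩ := hpair a b hne hab
      obtain ⟨h3, h4⟩ := hpair x y hxyne hxy2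
      obtain ⟨i, hi⟩ := hcrit _ h1 h2
      obtain ⟨j, hj⟩ := hcrit _ h3 h4
      have hij : i = j := c02_inj hm hd ht hPhi s (by rw [hi, h1]) (by rw [hj, h3])
      have hax : r a = r x := by rw [← hi, ← hj, hij]
      apply htriple (r a) (∏ l ∈ ((Finset.univ.erase a).erase x).erase y, (X - C (r l)))
      rw [hr, ← Finset.mul_prod_erase _ (fun l => X - C (r l)) (Finset.mem_univ a),
        ← Finset.mul_prod_erase _ (fun l => X - C (r l))
          (Finset.mem_erase.mpr ⟨hxne, Finset.mem_univ x⟩),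
        ← Finset.mul_prod_erase _ (fun l => X - C (r l))
          (Finset.mem_erase.mpr ⟨hxyne.symm, Finset.mem_erase.mpr ⟨hyne, Finset.mem_univ y⟩⟩),
        ← hxy2, ← hax]
      ring
    · rw [hr, Fin.prod_univ_succAbove _ a]

end Pool.Agent.Lib.MP_12adaf_nt.HM
end

section

section

/-!
# Traces and roots with multiplicities
-/

namespace Pool.Agent.Lib.MP_12adaf_nt.HM

open TF Matrix Polynomial

/-- **Job C03.** The traces of powers are the power sums of the roots.

Proof. The universal case: over the field of fractions `F` of `A := MvPolynomial (Fin m) ℤ` the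
variables are distinct, so `tr_nod` applies (`nod θ` is this product); the identity holds in `A`, since
`A → F` is injective (`map_tr`, the product is monic), and it specialises to `K` along
`MvPolynomial.eval₂Hom (Int.castRingHom K) θ` (`map_tr` again). -/
theorem tr_of_roots {K : Type*} [Field K] {m : ℕ} (θ : Fin m → K) (k : ℕ) :
    tr m (∏ i, (X - C (θ i))) (X ^ k) = ∑ i, θ i ^ k := by
  have key : tr m (∏ i, (X - C (MvPolynomial.X i : MvPolynomial (Fin m) ℤ))) (X ^ k) =
      ∑ i, (MvPolynomial.X i : MvPolynomial (Fin m) ℤ) ^ k := by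
    have hinj := IsFractionRing.injective (MvPolynomial (Fin m) ℤ)
      (FractionRing (MvPolynomial (Fin m) ℤ))
    apply hinj
    rw [map_tr _ (monic_prod_of_monic _ _ fun _ _ => monic_X_sub_C _), Polynomial.map_prod,
      Polynomial.map_pow, map_X, map_sum]
    have h1 : (∏ i, ((X - C (MvPolynomial.X i : MvPolynomial (Fin m) ℤ)).map
        (algebraMap (MvPolynomial (Fin m) ℤ) (FractionRing (MvPolynomial (Fin m) ℤ))))) =
        nod fun i => algebraMap (MvPolynomial (Fin m) ℤ) (FractionRing (MvPolynomial (Fin m) ℤ))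
          (MvPolynomial.X i) := by
      unfold nod
      refine Finset.prod_congr rfl fun i _ => ?_
      rw [Polynomial.map_sub, map_X, map_C]
    rw [h1, tr_nod fun i j hij => MvPolynomial.X_injective (hinj hij)]
    refine Finset.sum_congr rfl fun i _ => ?_
    rw [eval_pow, eval_X, map_pow]
  have h2 := congrArg (MvPolynomial.eval₂Hom (Int.castRingHom K) θ) key
  rw [map_tr _ (monic_prod_of_monic _ _ fun _ _ => monic_X_sub_C _), Polynomial.map_prod,
    Polynomial.map_pow, map_X, map_sum] at h2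
  have h3 : (∏ i, ((X - C (MvPolynomial.X i : MvPolynomial (Fin m) ℤ)).map
      (MvPolynomial.eval₂Hom (Int.castRingHom K) θ))) = ∏ i, (X - C (θ i)) := by
    refine Finset.prod_congr rfl fun i _ => ?_
    rw [Polynomial.map_sub, map_X, map_C, MvPolynomial.coe_eval₂Hom, MvPolynomial.eval₂_X]
  rw [h3] at h2
  rw [h2]
  refine Finset.sum_congr rfl fun i _ => ?_
  rw [map_pow, MvPolynomial.coe_eval₂Hom, MvPolynomial.eval₂_X]

private theorem c03_rank {L : Type*} [Field L] {r m : ℕ} (hrm : r ≤ m) {τ : Fin r → L}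
    (hτ : Function.Injective τ) {w : Fin r → L} (hw : ∀ i, w i ≠ 0) :
    r ≤ (Matrix.of fun i j : Fin m => ∑ a, w a * τ a ^ ((i : ℕ) + (j : ℕ))).rank := by
  set V : Matrix (Fin r) (Fin m) L := Matrix.of fun i j => τ i ^ (j : ℕ) with hV
  have hB : (Matrix.of fun i j : Fin m => ∑ a, w a * τ a ^ ((i : ℕ) + (j : ℕ))) =
      Vᵀ * (diagonal w * V) := by
    ext i j
    rw [Matrix.mul_apply, Matrix.of_apply]
    refine Finset.sum_congr rfl fun a _ => ?_
    rw [diagonal_mul, transpose_apply, hV, Matrix.of_apply, Matrix.of_apply, pow_add]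
    ring
  have hdet : IsUnit (vandermonde τ).det := (det_vandermonde_ne_zero_iff.mpr hτ).isUnit
  let E : Matrix (Fin m) (Fin r) L := Matrix.of fun j i => if j = Fin.castLE hrm i then 1 else 0
  have hVE : V * E = vandermonde τ := by
    ext a i
    rw [Matrix.mul_apply, Finset.sum_eq_single (Fin.castLE hrm i)]
    · simp [E, hV, vandermonde_apply]
    · intro j _ hj
      simp [E, hj]
    · intro h
      exact absurd (Finset.mem_univ _) h
  have hVQ : V * (E * (vandermonde τ)⁻¹) = 1 := by
    rw [← Matrix.mul_assoc, hVE, Matrix.mul_nonsing_inv _ hdet]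
  have hQ : (E * (vandermonde τ)⁻¹)ᵀ * ((Vᵀ * (diagonal w * V)) * (E * (vandermonde τ)⁻¹)) =
      diagonal w := by
    have h1 : (Vᵀ * (diagonal w * V)) * (E * (vandermonde τ)⁻¹) = Vᵀ * diagonal w := by
      rw [Matrix.mul_assoc, Matrix.mul_assoc, hVQ, Matrix.mul_one]
    rw [h1, ← Matrix.mul_assoc, ← transpose_mul, hVQ, transpose_one, Matrix.one_mul]
  have hr : (diagonal w).rank = r := by
    have h1 : IsUnit (diagonal w) := by
      rw [Matrix.isUnit_iff_isUnit_det, det_diagonal]
      exact (Finset.prod_ne_zero_iff.mpr fun i _ => hw i).isUnit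
    rw [rank_of_isUnit _ h1, Fintype.card_fin]
  rw [hB]
  calc r = (diagonal w).rank := hr.symm
    _ = ((E * (vandermonde τ)⁻¹)ᵀ *
        ((Vᵀ * (diagonal w * V)) * (E * (vandermonde τ)⁻¹))).rank := by rw [hQ]
    _ ≤ ((Vᵀ * (diagonal w * V)) * (E * (vandermonde τ)⁻¹)).rank := rank_mul_le_right _ _
    _ ≤ (Vᵀ * (diagonal w * V)).rank := rank_mul_le_left _ _

private theorem c03_gen {L : Type*} [Field L] (h2 : (2 : L) ≠ 0) {k : ℕ}
    {τ : Fin k → L} (hτ : Function.Injective τ) (σ : L) (g : L → L) (hσ : g σ ≠ 0)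
    (h0 : ∀ i, g (τ i) ≠ 0) :
    k ≤ (Matrix.of fun i j : Fin (k + 1) => g σ * σ ^ ((i : ℕ) + (j : ℕ)) +
      ∑ a, g (τ a) * τ a ^ ((i : ℕ) + (j : ℕ))).rank := by
  by_cases h : ∃ b, τ b = σ
  · obtain ⟨b, hb⟩ := h
    have h1 := c03_rank (Nat.le_succ k) hτ (w := fun a => (if a = b then 2 else 1) * g (τ a)) (by
      intro a
      refine mul_ne_zero ?_ (h0 a)
      split_ifs
      · exact h2
      · exact one_ne_zero)
    refine h1.trans (le_of_eq ?_)
    congr 1
    ext i j
    rw [Matrix.of_apply, Matrix.of_apply]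
    have h3 : ∀ a, (if a = b then (2 : L) else 1) * g (τ a) * τ a ^ ((i : ℕ) + (j : ℕ)) =
        (if a = b then g (τ a) * τ a ^ ((i : ℕ) + (j : ℕ)) else 0) +
          g (τ a) * τ a ^ ((i : ℕ) + (j : ℕ)) := by
      intro a
      split_ifs <;> ring
    rw [Finset.sum_congr rfl fun a _ => h3 a, Finset.sum_add_distrib, Finset.sum_ite_eq' Finset.univ b,
      if_pos (Finset.mem_univ b), hb]
  · have hinj : Function.Injective (Fin.cons σ τ : Fin (k + 1) → L) := by
      rw [Fin.cons_injective_iff]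
      refine ⟨?_, hτ⟩
      rintro ⟨b, hb⟩
      exact h ⟨b, hb⟩
    have h1 := c03_rank (le_refl (k + 1)) hinj
      (w := fun a => g ((Fin.cons σ τ : Fin (k + 1) → L) a)) (by
      intro a
      refine Fin.cases ?_ (fun a => ?_) a
      · exact hσ
      · exact h0 a)
    refine (Nat.le_succ k).trans (h1.trans (le_of_eq ?_))
    congr 1
    ext i j
    rw [Matrix.of_apply, Matrix.of_apply, Fin.sum_univ_succ]
    simp only [Fin.cons_zero, Fin.cons_succ]

private theorem c03_tr {L : Type*} [Field L] {k : ℕ} (τ : Fin k → L) (σ : L) (l : ℕ) :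
    tr (k + 1) ((X - C σ) * ∏ i, (X - C (τ i))) (X ^ l) = σ ^ l + ∑ a, τ a ^ l := by
  have h1 := tr_of_roots (Fin.cons σ τ : Fin (k + 1) → L) l
  rw [Fin.prod_univ_succ, Fin.sum_univ_succ] at h1
  simpa only [Fin.cons_zero, Fin.cons_succ] using h1

/-- **Job C03, second part.** The rank of the trace forms for at most one double root, in odd
characteristic or characteristic zero.

Proof. Let `f = (X - σ) ∏_{i < m-1} (X - τ_i)`. `HH m f = ∑_roots v(θ) v(θ)ᵀ` with
`v(θ) = (1, θ, ..., θ^(m-1))` (roots with multiplicity), `HH1 m f = ∑ θ v(θ) v(θ)ᵀ`. The vectors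
`v(τ_i)`, `i < m - 1`, are linearly independent. If `σ` is one of the `τ_i` then
`HH m f = Vᵀ D V`, `V` the `(m-1) × m` matrix with rows `v(τ_i)`, of rank `m - 1`, `D` diagonal with
entries `1` and one `2`, so the rank of `Vᵀ D V` is `m - 1`. If `σ` is different from all `τ_i` the
same with `m` rows: rank `m`. For `HH1` the diagonal entries are multiplied by the roots, which are
not zero. -/
theorem rank_HH {L : Type*} [Field L] (h2 : (2 : L) ≠ 0) {m : ℕ} (hm : 1 ≤ m)
    {τ : Fin (m - 1) → L} (hτ : Function.Injective τ) (σ : L) :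
    m - 1 ≤ (HH m ((X - C σ) * ∏ i, (X - C (τ i)))).rank := by
  obtain ⟨k, rfl⟩ : ∃ k, m = k + 1 := ⟨m - 1, by omega⟩
  have h1 := c03_gen h2 (k := k) (τ := τ) hτ σ (fun _ => 1) one_ne_zero fun _ => one_ne_zero
  refine h1.trans (le_of_eq ?_)
  congr 1
  ext i j
  rw [HH, Matrix.of_apply, Matrix.of_apply]
  have h3 := c03_tr (k := k) τ σ ((i : ℕ) + (j : ℕ))
  simp only [one_mul]
  exact h3.symm

theorem rank_HH1 {L : Type*} [Field L] (h2 : (2 : L) ≠ 0) {m : ℕ} (hm : 1 ≤ m)
    {τ : Fin (m - 1) → L} (hτ : Function.Injective τ) (σ : L) (hσ : σ ≠ 0) (h0 : ∀ i, τ i ≠ 0) :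
    m - 1 ≤ (HH1 m ((X - C σ) * ∏ i, (X - C (τ i)))).rank := by
  obtain ⟨k, rfl⟩ : ∃ k, m = k + 1 := ⟨m - 1, by omega⟩
  have h1 := c03_gen h2 (k := k) (τ := τ) hτ σ (fun x => x) hσ h0
  refine h1.trans (le_of_eq ?_)
  congr 1
  ext i j
  rw [HH1, Matrix.of_apply, Matrix.of_apply]
  have h3 := c03_tr (k := k) τ σ ((i : ℕ) + (j : ℕ) + 1)
  simp only [pow_succ'] at h3 ⊢
  exact h3.symm

end Pool.Agent.Lib.MP_12adaf_nt.HM
end

section

/-!
# Members of the pencil with a large parameter
-/

namespace Pool.Agent.Lib.MP_12adaf_nt.HM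

set_option linter.unusedSectionVars false

open IsLocalRing TF Matrix Polynomial

section Hensel

variable {O : Type*} [CommRing O] [HenselianLocalRing O]

private theorem c07_unit_add {u z : O} (hu : IsUnit u) (hz : z ∈ maximalIdeal O) : IsUnit (u + z) := by
  by_contra h
  have h1 : u + z ∈ maximalIdeal O := h
  have h2 : u ∈ maximalIdeal O := by
    have := sub_mem h1 hz
    rwa [add_sub_cancel_right] at this
  exact h2 hu

private theorem c07_eval_mem {G : O[X]} (hG : ∀ i, G.coeff i ∈ maximalIdeal O) (a : O) :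
    G.eval a ∈ maximalIdeal O := by
  rw [eval_eq_sum_range]
  exact sum_mem fun i _ => Ideal.mul_mem_right _ _ (hG i)

/-- Hensel's lemma for polynomials which are not monic. -/
private theorem c07_hensel (f : O[X]) (a₀ : O) (h1 : f.eval a₀ ∈ maximalIdeal O)
    (h2 : IsUnit (f.derivative.eval a₀)) : ∃ a, f.eval a = 0 ∧ a - a₀ ∈ maximalIdeal O := by
  set g : O[X] := taylor a₀ f with hg
  set k := g.natDegree with hk
  obtain ⟨v, hv⟩ := h2
  have hv1 : g.coeff 1 * (v⁻¹ : Oˣ) = 1 := by
    rw [hg, taylor_coeff_one, ← hv, Units.mul_inv]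
  have hc0 : g.coeff 0 ∈ maximalIdeal O := by
    rw [hg, taylor_coeff_zero]
    exact h1
  set w : O := ((v⁻¹ : Oˣ) : O) with hw
  set c₀ := g.coeff 0 with hc₀
  set S : O[X] := ∑ j ∈ Finset.range (k + 1), C (c₀ ^ (j + 1) * g.coeff (j + 2) * w ^ (j + 2)) * X ^ (k - j)
    with hS
  have hSd : S.degree < ((k + 1 : ℕ) : WithBot ℕ) := by
    refine (degree_sum_le _ _).trans_lt ?_
    rw [Finset.sup_lt_iff (WithBot.bot_lt_coe _)]
    intro j hj
    refine (degree_C_mul_X_pow_le _ _).trans_lt ?_
    exact_mod_cast (by omega : k - j < k + 1)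
  have hSc : ∀ i, S.coeff i ∈ maximalIdeal O := by
    intro i
    rw [hS, finsetSum_coeff]
    refine sum_mem fun j _ => ?_
    rw [coeff_C_mul, pow_succ]
    refine Ideal.mul_mem_right _ _ (Ideal.mul_mem_right _ _ (Ideal.mul_mem_right _ _ ?_))
    exact Ideal.mul_mem_left _ _ hc0
  have hq : (X ^ (k + 1) + S : O[X]).degree < ((k + 2 : ℕ) : WithBot ℕ) := by
    refine (degree_add_le _ _).trans_lt (max_lt ?_ ?_)
    · refine (degree_X_pow_le _).trans_lt ?_
      exact_mod_cast (by omega : k + 1 < k + 2)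
    · refine hSd.trans ?_
      exact_mod_cast (by omega : k + 1 < k + 2)
  obtain ⟨s, hs1, hs2⟩ := HenselianLocalRing.is_henselian (X ^ (k + 2) + (X ^ (k + 1) + S))
    (monic_X_pow_add hq) (-1) (by
      have h3 := c07_eval_mem hSc (-1)
      simp only [eval_add, eval_pow, eval_X]
      have h4 : ((-1 : O)) ^ (k + 2) + ((-1) ^ (k + 1) + eval (-1) S) = eval (-1) S := by ring
      rw [h4]
      exact h3) (by
      have h3 : (derivative S).eval (-1) ∈ maximalIdeal O := by
        refine c07_eval_mem (fun i => ?_) (-1)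
        rw [coeff_derivative]
        exact Ideal.mul_mem_right _ _ (hSc _)
      have h4 : eval (-1) (derivative (X ^ (k + 2) + (X ^ (k + 1) + S))) =
          (-1 : O) ^ (k + 1) + (derivative S).eval (-1) := by
        simp only [derivative_add, derivative_X_pow, eval_add, eval_mul, eval_C, eval_pow, eval_X,
          Nat.cast_add, Nat.cast_one, Nat.cast_ofNat]
        have h5 : k + 2 - 1 = k + 1 := by omega
        have h6 : k + 1 - 1 = k := by omega
        rw [h5, h6]
        ring
      rw [h4]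
      exact c07_unit_add ((isUnit_one.neg).pow _) h3)
  have hsu : IsUnit s := by
    have h3 := c07_unit_add (isUnit_one.neg : IsUnit (-1 : O)) hs2
    have h4 : (-1 : O) + (s - -1) = s := by ring
    rwa [h4] at h3
  obtain ⟨s', hs'⟩ := hsu
  set r : O := ((s'⁻¹ : Oˣ) : O) with hr
  have hsr : s * r = 1 := by rw [← hs', hr, Units.mul_inv]
  have hroot : s ^ (k + 2) + (s ^ (k + 1) +
      ∑ j ∈ Finset.range (k + 1), c₀ ^ (j + 1) * g.coeff (j + 2) * w ^ (j + 2) * s ^ (k - j)) = 0 := by
    have h3 := hs1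
    rw [IsRoot.def, eval_add, eval_add, hS, eval_finsetSum] at h3
    simpa only [eval_mul, eval_C, eval_pow, eval_X] using h3
  refine ⟨c₀ * w * r + a₀, ?_, ?_⟩
  · rw [← taylor_eval, ← hg, eval_eq_sum_range' (n := k + 3) (by omega), Finset.sum_range_succ',
      Finset.sum_range_succ']
    have h3 : r ^ (k + 2) * (s ^ (k + 2) + (s ^ (k + 1) +
      ∑ j ∈ Finset.range (k + 1), c₀ ^ (j + 1) * g.coeff (j + 2) * w ^ (j + 2) * s ^ (k - j))) = 0 := by
      rw [hroot, mul_zero]
    have h4 : ∀ i j : ℕ, i ≤ j → r ^ j * s ^ (j - i) = r ^ i := by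
      intro i j hij
      obtain ⟨l, rfl⟩ := Nat.exists_eq_add_of_le hij
      rw [Nat.add_sub_cancel_left, pow_add, mul_assoc, ← mul_pow, mul_comm r s, hsr, one_pow, mul_one]
    rw [mul_add, mul_add, Finset.mul_sum] at h3
    have h5 : r ^ (k + 2) * s ^ (k + 2) = 1 := by
      rw [← mul_pow, mul_comm, hsr, one_pow]
    have h6 : r ^ (k + 2) * s ^ (k + 1) = r := by
      have := h4 1 (k + 2) (by omega)
      rwa [pow_one] at this
    rw [h5, h6] at h3
    have h7 : ∑ j ∈ Finset.range (k + 1), g.coeff (j + 1 + 1) * (c₀ * w * r) ^ (j + 1 + 1) =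
        c₀ * ∑ j ∈ Finset.range (k + 1),
          r ^ (k + 2) * (c₀ ^ (j + 1) * g.coeff (j + 2) * w ^ (j + 2) * s ^ (k - j)) := by
      rw [Finset.mul_sum]
      refine Finset.sum_congr rfl fun j hj => ?_
      have h8 := h4 (j + 2) (k + 2) (by have := Finset.mem_range.1 hj; omega)
      have h9 : k + 2 - (j + 2) = k - j := by omega
      rw [h9] at h8
      have h10 : j + 1 + 1 = j + 2 := rfl
      rw [h10, mul_pow, mul_pow, ← h8]
      ring
    rw [h7]
    have h11 : ∑ j ∈ Finset.range (k + 1),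
          r ^ (k + 2) * (c₀ ^ (j + 1) * g.coeff (j + 2) * w ^ (j + 2) * s ^ (k - j)) = -1 - r := by
      linear_combination h3
    rw [h11]
    have h12 : g.coeff (0 + 1) * (c₀ * w * r) ^ (0 + 1) = c₀ * r := by
      rw [zero_add, pow_one]
      linear_combination (c₀ * r) * hv1
    rw [h12, pow_zero, mul_one, ← hc₀]
    ring
  · rw [add_sub_cancel_right]
    exact Ideal.mul_mem_right _ _ (Ideal.mul_mem_right _ _ hc0)

end Hensel

section DVR

variable {O K : Type*} [CommRing O] [IsDomain O] [IsDiscreteValuationRing O]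
  [HenselianLocalRing O] [Finite (ResidueField O)] [Field K] [Algebra O K] [IsFractionRing O K]

private theorem c07_ne (O : Type*) [CommRing O] {m : ℕ}
    (hR : ∀ i j : ℕ, i < j → j < m - 1 → IsUnit ((j : O) ^ 2 - (i : O) ^ 2))
    {i j : ℕ} (hij : i ≠ j) (hi : i < m - 1) (hj : j < m - 1) : IsUnit ((i : O) ^ 2 - (j : O) ^ 2) := by
  rcases lt_or_gt_of_ne hij with h | h
  · have := (hR i j h hj).neg
    rwa [neg_sub] at this
  · exact hR j i h hi

private theorem c07_der {m : ℕ} (O : Type*) [CommRing O] {i : ℕ} (hi : i < m - 1) :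
    (derivative (Rp O m)).eval ((i : O) ^ 2) =
      ∏ j ∈ (Finset.range (m - 1)).erase i, ((i : O) ^ 2 - (j : O) ^ 2) := by
  rw [Rp, ← Finset.mul_prod_erase _ _ (Finset.mem_range.2 hi), derivative_mul, eval_add, eval_mul,
    eval_mul, derivative_sub, derivative_X, derivative_C, sub_zero, eval_one, one_mul, eval_sub,
    eval_X, eval_C, sub_self, zero_mul, add_zero, eval_prod]
  refine Finset.prod_congr rfl fun j _ => ?_
  rw [eval_sub, eval_X, eval_C]

/-- **Job C07.** Roots of the pencil near infinity.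

`R = ∏_{i < m-1} (X - i²)`, `G = x c₁` has all coefficients in the maximal ideal, leading
coefficient `x`. Then `R + G` has `m - 1` roots in `O`, congruent to the `i²` modulo the maximal
ideal (Hensel: the reduction of `R + G` is that of `R`, with simple roots). -/
theorem exists_hensel_roots {m : ℕ} (hR : ∀ i j : ℕ, i < j → j < m - 1 → IsUnit ((j : O) ^ 2 - (i : O) ^ 2))
    {G : O[X]} (hG : ∀ i, G.coeff i ∈ maximalIdeal O) :
    ∃ τ : Fin (m - 1) → O, ∀ i, (Rp O m + G).eval (τ i) = 0 ∧
      τ i - ((i : ℕ) : O) ^ 2 ∈ maximalIdeal O := by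
  have h : ∀ i : Fin (m - 1), ∃ a, (Rp O m + G).eval a = 0 ∧ a - ((i : ℕ) : O) ^ 2 ∈ maximalIdeal O := by
    intro i
    refine c07_hensel _ _ ?_ ?_
    · rw [eval_add]
      have h1 : (Rp O m).eval (((i : ℕ) : O) ^ 2) = 0 := by
        rw [Rp, eval_prod]
        refine Finset.prod_eq_zero (Finset.mem_range.2 i.2) ?_
        rw [eval_sub, eval_X, eval_C, sub_self]
      rw [h1, zero_add]
      exact c07_eval_mem hG _
    · rw [derivative_add, eval_add, c07_der O i.2]
      refine c07_unit_add ?_ (c07_eval_mem (fun l => ?_) _)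
      · rw [IsUnit.prod_iff]
        intro j hj
        rw [Finset.mem_erase, Finset.mem_range] at hj
        exact c07_ne O hR (Ne.symm hj.1) i.2 hj.2
      · rw [coeff_derivative]
        exact Ideal.mul_mem_right _ _ (hG _)
  choose τ hτ using h
  exact ⟨τ, hτ⟩


private theorem c07_split (h2 : IsUnit (2 : O)) [CharZero K] {k : ℕ} (hk : Even k)
    (hR : ∀ i j : ℕ, i < j → j < k + 2 - 1 → IsUnit ((j : O) ^ 2 - (i : O) ^ 2))
    {x : O} (hx : x ∈ maximalIdeal O) {y : K} (hy : y ≠ 0) (hxy : algebraMap O K x = y ^ 2)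
    {c₁ : K[X]} (hc : c₁.Monic) (hd : c₁.natDegree = k + 2) {d z : K} (hd0 : d ≠ 0) (hz : z ≠ 0)
    (hc0 : c₁.coeff 0 = d * z ^ 2) {G : O[X]} (hG : ∀ i, G.coeff i ∈ maximalIdeal O)
    (hG1 : G.map (algebraMap O K) = C (algebraMap O K x) * c₁)
    {τ : Fin (k + 1) → O} (hτ : ∀ i, (Rp O (k + 2) + G).eval (τ i) = 0 ∧
      τ i - ((i : ℕ) : O) ^ 2 ∈ maximalIdeal O) :
    ∃ (t : Fin k → K) (a b : K), a ≠ 0 ∧ b ≠ 0 ∧ (∀ i, t i ≠ 0) ∧
      Function.Injective (Sum.elim (fun i => t i ^ 2) ![-(d * a ^ 2), -(b ^ 2)]) ∧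
      pen (k + 2) c₁ (y ^ 2)⁻¹ =
        (∏ i, (X - C (t i ^ 2))) * (X - C (-(d * a ^ 2))) * (X - C (-(b ^ 2))) := by
  have hinj : Function.Injective (algebraMap O K) := IsFractionRing.injective O K
  have h2k : 2 ≤ k + 2 := by omega
  have hkk : k + 2 - 1 = k + 1 := by omega
  set φ := algebraMap O K with hφ
  set F : O[X] := Rp O (k + 2) + G with hF
  set c : K[X] := pen (k + 2) c₁ (y ^ 2)⁻¹ with hcdef
  have hy2 : y ^ 2 ≠ 0 := pow_ne_zero 2 hy
  obtain ⟨hcm, hcd⟩ := pen_monic h2k hc hd (y ^ 2)⁻¹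
  rw [← hcdef] at hcm hcd
  have hFm : F.map φ = C (y ^ 2) * c := by
    rw [hF, Polynomial.map_add, map_Rp, hG1, hxy, hcdef, pen, mul_add, ← mul_assoc, ← C_mul,
      mul_inv_cancel₀ hy2, C_1, one_mul, add_comm]
  -- the roots
  have hne : ∀ i j : Fin (k + 1), i ≠ j → IsUnit (τ i - τ j) := by
    intro i j hij
    have h3 : IsUnit (((i : ℕ) : O) ^ 2 - ((j : ℕ) : O) ^ 2) :=
      c07_ne O hR (fun h => hij (Fin.ext h)) (by omega) (by omega)
    have h4 := c07_unit_add h3 (sub_mem (hτ i).2 (hτ j).2)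
    have h5 : ((i : ℕ) : O) ^ 2 - ((j : ℕ) : O) ^ 2 +
      (τ i - ((i : ℕ) : O) ^ 2 - (τ j - ((j : ℕ) : O) ^ 2)) = τ i - τ j := by ring
    rwa [h5] at h4
  have hσ : Function.Injective fun i => φ (τ i) := by
    intro i j hij
    by_contra hne'
    have h3 := hne i j hne'
    rw [sub_eq_zero.2 (hinj hij)] at h3
    exact not_isUnit_zero h3
  have hroot : ∀ i, c.IsRoot (φ (τ i)) := by
    intro i
    have h3 : (F.map φ).eval (φ (τ i)) = 0 := by
      rw [eval_map, eval₂_at_apply, (hτ i).1, map_zero]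
    rw [hFm, eval_mul, eval_C] at h3
    exact (mul_eq_zero.1 h3).resolve_left hy2
  have hdvd : (∏ i : Fin (k + 1), (X - C (φ (τ i)))) ∣ c :=
    Finset.prod_dvd_of_coprime (fun i _ j _ hij => pairwise_coprime_X_sub_C hσ hij)
      fun i _ => dvd_iff_isRoot.2 (hroot i)
  obtain ⟨Q, hQ⟩ := hdvd
  have hPm : (∏ i : Fin (k + 1), (X - C (φ (τ i)))).Monic := monic_prod_X_sub_C _ _
  have hPd : (∏ i : Fin (k + 1), (X - C (φ (τ i)))).natDegree = k + 1 := by
    rw [natDegree_finsetProd_X_sub_C_eq_card, Finset.card_univ, Fintype.card_fin]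
  have hQm : Q.Monic := by
    rw [hQ] at hcm
    exact hPm.of_mul_monic_left hcm
  have hQd : Q.natDegree = 1 := by
    rw [hQ, hPm.natDegree_mul hQm, hPd] at hcd
    omega
  set e : K := -Q.coeff 0 with he
  have hQe : Q = X - C e := by
    have h3 := hQm.eq_X_add_C hQd
    rw [he, C_neg, sub_neg_eq_add]
    exact h3
  -- the last root is not integral
  have hnotint : ∀ t : O, φ t ≠ e := by
    intro t ht
    have h3 : F = C x * ((∏ i : Fin (k + 1), (X - C (τ i))) * (X - C t)) := by
      apply Polynomial.map_injective φ hinj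
      rw [hFm, hQ, hQe, ← ht, ← hxy, Polynomial.map_mul, map_C, Polynomial.map_mul, Polynomial.map_prod]
      simp only [Polynomial.map_sub, map_X, map_C]
    have h4 : F.coeff (k + 1) ∈ maximalIdeal O := by
      rw [h3, coeff_C_mul]
      exact Ideal.mul_mem_right _ _ hx
    have h5 : (Rp O (k + 2)).coeff (k + 1) = 1 := by
      have h6 := Rp_monic (R := O) (k + 2)
      have h7 := natDegree_Rp (R := O) (k + 2)
      rw [hkk] at h7
      rw [Monic, leadingCoeff, h7] at h6
      exact h6
    rw [hF, coeff_add, h5] at h4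
    have h6 : IsUnit ((1 : O) + G.coeff (k + 1)) := c07_unit_add isUnit_one (hG _)
    exact h4 h6
  -- the unit roots are squares
  have hunit : ∀ i : ℕ, i < k → IsUnit (((i + 1 : ℕ) : O)) := by
    intro i hi
    have h3 := hR 0 (i + 1) (by omega) (by omega)
    rw [Nat.cast_zero, zero_pow two_ne_zero, sub_zero] at h3
    exact (isUnit_pow_iff two_ne_zero).1 h3
  have hsq : ∀ i : Fin k, ∃ t : O, IsUnit t ∧ τ i.succ = t ^ 2 := by
    intro i
    have h3 := (hτ i.succ).2
    rw [Fin.val_succ] at h3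
    have h4 : IsUnit (τ i.succ) := by
      have h5 := c07_unit_add ((hunit i i.2).pow 2) h3
      rwa [add_sub_cancel] at h5
    obtain ⟨u, hu⟩ := h4
    have h5 : residue O (τ i.succ) = residue O (((i + 1 : ℕ) : O)) ^ 2 := by
      rw [← map_pow, ← sub_eq_zero, ← map_sub, residue_eq_zero_iff]
      exact h3
    obtain ⟨t, ht⟩ := isSquare_of_residue h2 u (by
      rw [hu, h5]
      exact ⟨_, sq _⟩)
    refine ⟨t, ?_, by rw [← hu, ht, sq]⟩
    have h6 : IsUnit (t * t) := by rw [← ht]; exact u.isUnit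
    exact isUnit_of_mul_isUnit_left h6
  choose t htu hts using hsq
  -- the small root
  set Q₀ : O[X] := ∏ i ∈ Finset.range k, (X - C (((i + 1 : ℕ) : O) ^ 2)) with hQ₀
  have hRp : Rp O (k + 2) = Q₀ * X := by
    rw [Rp, hkk, Finset.prod_range_succ', hQ₀, Nat.cast_zero, zero_pow two_ne_zero, C_0, sub_zero]
  have hτ0 : τ 0 ∈ maximalIdeal O := by
    have h3 := (hτ 0).2
    rw [Fin.val_zero, Nat.cast_zero, zero_pow two_ne_zero, sub_zero] at h3
    exact h3
  have hsmall : ∃ p : O, IsUnit p ∧ p ^ 2 * τ 0 + G.coeff 0 = 0 := by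
    have h3 : (Q₀.eval (τ 0) + G.divX.eval (τ 0)) * τ 0 + G.coeff 0 = 0 := by
      have h4 := (hτ 0).1
      rw [hF, hRp, ← divX_mul_X_add G] at h4
      simp only [eval_add, eval_mul, eval_X, eval_C] at h4
      linear_combination h4
    set w : O := ∏ i ∈ Finset.range k, ((i + 1 : ℕ) : O) with hw
    have hwu : IsUnit w := by
      rw [hw, IsUnit.prod_iff]
      exact fun i hi => hunit i (Finset.mem_range.1 hi)
    have hQ00 : Q₀.eval 0 = w ^ 2 := by
      rw [hQ₀, eval_prod]
      simp only [eval_sub, eval_X, eval_C, zero_sub]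
      rw [Finset.prod_neg, Finset.card_range, hk.neg_one_pow, one_mul, Finset.prod_pow]
    have h4 : G.divX.eval (τ 0) ∈ maximalIdeal O :=
      c07_eval_mem (fun i => by rw [coeff_divX]; exact hG _) _
    have h5 : Q₀.eval (τ 0) - w ^ 2 ∈ maximalIdeal O := by
      rw [← hQ00]
      obtain ⟨r, hr⟩ := sub_dvd_eval_sub (τ 0) 0 Q₀
      rw [hr, sub_zero]
      exact Ideal.mul_mem_right _ _ hτ0
    have h6 : (Q₀.eval (τ 0) + G.divX.eval (τ 0)) - w ^ 2 ∈ maximalIdeal O := by
      have h7 := add_mem h5 h4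
      have h8 : Q₀.eval (τ 0) - w ^ 2 + G.divX.eval (τ 0) =
        (Q₀.eval (τ 0) + G.divX.eval (τ 0)) - w ^ 2 := by ring
      rwa [h8] at h7
    have h7 : IsUnit (Q₀.eval (τ 0) + G.divX.eval (τ 0)) := by
      have h8 := c07_unit_add (hwu.pow 2) h6
      rwa [add_sub_cancel] at h8
    obtain ⟨u, hu⟩ := h7
    obtain ⟨p, hp⟩ := isSquare_of_residue h2 u (by
      have h9 : residue O (u : O) = residue O w ^ 2 := by
        rw [hu, ← map_pow, ← sub_eq_zero, ← map_sub, residue_eq_zero_iff]
        exact h6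
      rw [h9]
      exact ⟨_, sq _⟩)
    refine ⟨p, ?_, ?_⟩
    · have h6 : IsUnit (p * p) := by rw [← hp]; exact u.isUnit
      exact isUnit_of_mul_isUnit_left h6
    · rw [sq, ← hp, hu]
      exact h3
  obtain ⟨p, hpu, hp⟩ := hsmall
  have hp0 : φ p ≠ 0 := (hpu.map φ).ne_zero
  have ht0 : ∀ i, φ (t i) ≠ 0 := fun i => ((htu i).map φ).ne_zero
  set a : K := y * z / φ p with ha
  have ha0 : a ≠ 0 := div_ne_zero (mul_ne_zero hy hz) hp0
  have hG0 : φ (G.coeff 0) = y ^ 2 * (d * z ^ 2) := by
    rw [← coeff_map, hG1, coeff_C_mul, hc0, hxy]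
  have hτa : φ (τ 0) = -(d * a ^ 2) := by
    have h3 := congrArg φ hp
    rw [map_add, map_mul, map_pow, map_zero, hG0] at h3
    rw [ha]
    field_simp
    linear_combination h3
  set T : K := ∏ i, φ (t i) with hT
  have hT0 : T ≠ 0 := Finset.prod_ne_zero_iff.2 fun i _ => ht0 i
  set b : K := z / (a * T) with hb
  have hb0 : b ≠ 0 := div_ne_zero hz (mul_ne_zero ha0 hT0)
  have hprod : (∏ i : Fin (k + 1), (X - C (φ (τ i)))) =
      (X - C (-(d * a ^ 2))) * ∏ i : Fin k, (X - C (φ (t i) ^ 2)) := by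
    rw [Fin.prod_univ_succ, hτa]
    congr 1
    refine Finset.prod_congr rfl fun i _ => ?_
    rw [hts, map_pow]
  have heb : e = -(b ^ 2) := by
    have h3 : c.coeff 0 = d * z ^ 2 := by
      rw [hcdef, pen_coeff_zero h2k, hc0]
    have h4 : c.coeff 0 = (d * a ^ 2) * T ^ 2 * (-e) := by
      rw [hQ, hQe, hprod, mul_coeff_zero, mul_coeff_zero, coeff_zero_eq_eval_zero,
        coeff_zero_eq_eval_zero, coeff_zero_eq_eval_zero, eval_prod]
      simp only [eval_sub, eval_X, eval_C, zero_sub, neg_neg]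
      rw [Finset.prod_neg, Finset.card_univ, Fintype.card_fin, hk.neg_one_pow, one_mul,
        Finset.prod_pow]
    rw [h3] at h4
    have h5 : d * z ^ 2 = d * (a ^ 2 * T ^ 2 * -e) := by rw [h4]; ring
    have h6 := mul_left_cancel₀ hd0 h5
    rw [hb, div_pow, ← neg_div, eq_div_iff (pow_ne_zero 2 (mul_ne_zero ha0 hT0))]
    linear_combination h6
  refine ⟨fun i => φ (t i), a, b, ha0, hb0, ht0, ?_, ?_⟩
  · -- injectivity
    have h3 : ∀ i, φ (t i) ^ 2 = φ (τ i.succ) := fun i => by rw [hts, map_pow]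
    have h4 : ∀ i j : Fin k, φ (τ i.succ) = φ (τ j.succ) → i = j := fun i j hij =>
      Fin.succ_injective _ (hσ hij)
    rintro (i | i) (j | j) hij
    · simp only [Sum.elim_inl, h3] at hij
      rw [h4 i j hij]
    · exfalso
      simp only [Sum.elim_inl, Sum.elim_inr, h3] at hij
      fin_cases j
      · change φ (τ i.succ) = -(d * a ^ 2) at hij
        rw [← hτa] at hij
        exact Fin.succ_ne_zero i (hσ hij)
      · change φ (τ i.succ) = -(b ^ 2) at hij
        rw [← heb] at hij
        exact hnotint _ hij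
    · exfalso
      simp only [Sum.elim_inl, Sum.elim_inr, h3] at hij
      fin_cases i
      · change -(d * a ^ 2) = φ (τ j.succ) at hij
        rw [← hτa] at hij
        exact Fin.succ_ne_zero j (hσ hij.symm)
      · change -(b ^ 2) = φ (τ j.succ) at hij
        rw [← heb] at hij
        exact hnotint _ hij.symm
    · simp only [Sum.elim_inr] at hij
      fin_cases i <;> fin_cases j
      · rfl
      · exfalso
        change -(d * a ^ 2) = -(b ^ 2) at hij
        rw [← hτa, ← heb] at hij
        exact hnotint _ hij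
      · exfalso
        change -(b ^ 2) = -(d * a ^ 2) at hij
        rw [← hτa, ← heb] at hij
        exact hnotint _ hij.symm
      · rfl
  · rw [hQ, hQe, hprod, heb]
    ring

/-- **Job C07, main part.** For a large square parameter the member of the pencil splits, with known
square classes of the roots.

Proof. Let `x = y²` (`y ∈ K`, `y ≠ 0`, `x` in the maximal ideal), `s = 1 / x`, `c = pen m c₁ s`. Then
`x c = R + G`, `G = x c₁`. By the first part there are roots `τ_i ∈ O`, `i < m - 1`, with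
`τ_i ≡ i²`; they are distinct (the `i²` are distinct modulo the maximal ideal). So
`c = (X - τ_∞) ∏ (X - τ_i)` with `τ_∞ ∈ K`.
For `1 ≤ i`: `i` is a unit (`i² - 0²` is a unit), so `τ_i` is a unit with square residue, so it is a
nonzero square in `O` (`isSquare_of_residue`).
`τ_0` is in the maximal ideal; `τ_0 (∏_{1 ≤ i} (τ_0 - i²)) = -G(τ_0)`, `G(0) = x d z²`; write
`R + G = G(0) + X * P`, `P ∈ O[X]`, `P(0) ≡ ∏_{1 ≤ i < m-1} (-i²)` modulo the maximal ideal, which is
the square of a unit, as `m - 2` is even: so `P(τ_0)` is a unit with square residue, a square, and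
`τ_0 = -G(0) / P(τ_0) = -d x z² / P(τ_0)`: so `τ_0 = -d * (nonzero square)`.
Finally `c(0) = c₁(0) = d z²` is the product of all the roots (`m` is even), so
`τ_∞ = d z² / (τ_0 ∏ τ_i) = -(nonzero square)`.
`τ_∞` is different from the `τ_i`: it is not in `O`. [`x c` has leading coefficient `x` in the
maximal ideal: `x ∏(...)`: if `τ_∞ ∈ O`, then `x c = x ∏ (X - roots)` would be zero modulo the
maximal ideal, but `R + G` is not.] -/
theorem exists_split_pen (h2 : IsUnit (2 : O)) [CharZero K] {m : ℕ} (hm : 2 ≤ m) (hme : Even m)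
    (hR : ∀ i j : ℕ, i < j → j < m - 1 → IsUnit ((j : O) ^ 2 - (i : O) ^ 2))
    {x : O} (hx : x ∈ maximalIdeal O) {y : K} (hy : y ≠ 0) (hxy : algebraMap O K x = y ^ 2)
    {c₁ : K[X]} (hc : c₁.Monic) (hd : c₁.natDegree = m) {d z : K} (hd0 : d ≠ 0) (hz : z ≠ 0)
    (hc0 : c₁.coeff 0 = d * z ^ 2) {G : O[X]} (hG : ∀ i, G.coeff i ∈ maximalIdeal O)
    (hG1 : G.map (algebraMap O K) = C (algebraMap O K x) * c₁) :
    ∃ (τ : Fin (m - 2) → K) (a b : K), a ≠ 0 ∧ b ≠ 0 ∧ (∀ i, τ i ≠ 0) ∧
      Function.Injective (Sum.elim (fun i => τ i ^ 2) ![-(d * a ^ 2), -(b ^ 2)]) ∧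
      pen m c₁ (y ^ 2)⁻¹ = (∏ i, (X - C (τ i ^ 2))) * (X - C (-(d * a ^ 2))) * (X - C (-(b ^ 2))) := by
  obtain ⟨τ, hτ⟩ := exists_hensel_roots hR hG
  obtain ⟨k, rfl⟩ : ∃ k, m = k + 2 := ⟨m - 2, by omega⟩
  have hk : Even k := by
    rcases hme with ⟨r, hr⟩
    exact ⟨r - 1, by omega⟩
  exact c07_split h2 hk hR hx hy hxy hc hd hd0 hz hc0 hG hG1 hτ

/-- **Job C07, last part.** So the form `W(c)` is known (`cong_Wf_split`, `CD.mul_sq`, reindexing). -/
theorem cong_split_pen (h2 : IsUnit (2 : O)) [CharZero K] {m : ℕ} (hm : 2 ≤ m) (hme : Even m)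
    (hR : ∀ i j : ℕ, i < j → j < m - 1 → IsUnit ((j : O) ^ 2 - (i : O) ^ 2))
    {x : O} (hx : x ∈ maximalIdeal O) {y : K} (hy : y ≠ 0) (hxy : algebraMap O K x = y ^ 2)
    {c₁ : K[X]} (hc : c₁.Monic) (hd : c₁.natDegree = m) {d : Oˣ} {z : K} (hz : z ≠ 0)
    (hc0 : c₁.coeff 0 = algebraMap O K (d : O) * z ^ 2) {G : O[X]}
    (hG : ∀ i, G.coeff i ∈ maximalIdeal O)
    (hG1 : G.map (algebraMap O K) = C (algebraMap O K x) * c₁) :
    (pen m c₁ (y ^ 2)⁻¹).Separable ∧
    ∃ u : Fin m ⊕ Fin m → Oˣ, Cong (Wf m (pen m c₁ (y ^ 2)⁻¹))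
      (diagonal fun i => algebraMap O K (u i : O)) := by
  have hinj : Function.Injective (algebraMap O K) := IsFractionRing.injective O K
  have hd0 : algebraMap O K (d : O) ≠ 0 := (d.isUnit.map (algebraMap O K)).ne_zero
  obtain ⟨τ, a, b, ha, hb, hτ, hin, hpen⟩ :=
    exists_split_pen h2 hm hme hR hx hy hxy hc hd hd0 hz hc0 hG hG1
  set σ : Fin (m - 2) ⊕ Fin 2 → K :=
    Sum.elim (fun i => τ i ^ 2) ![-(algebraMap O K (d : O) * a ^ 2), -(b ^ 2)] with hσ
  have hprod : pen m c₁ (y ^ 2)⁻¹ = ∏ i, (X - C (σ i)) := by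
    rw [hpen, Fintype.prod_sum_type, Fin.prod_univ_two, mul_assoc]
    rfl
  refine ⟨by rw [hprod]; exact separable_prod_X_sub_C_iff.2 hin, ?_⟩
  -- reindex
  have hcard : Fintype.card (Fin m) = Fintype.card (Fin (m - 2) ⊕ Fin 2) := by
    rw [Fintype.card_sum, Fintype.card_fin, Fintype.card_fin, Fintype.card_fin]
    omega
  set e : Fin m ≃ Fin (m - 2) ⊕ Fin 2 := Fintype.equivOfCardEq hcard with he
  have hprod2 : pen m c₁ (y ^ 2)⁻¹ = ∏ i : Fin m, (X - C ((σ ∘ e) i)) := by
    rw [hprod]
    exact (Equiv.prod_comp e fun i => X - C (σ i)).symm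
  have hcong := cong_Wf_split (hin.comp e.injective : Function.Injective (σ ∘ e))
  rw [← hprod2] at hcong
  obtain ⟨two, htwo⟩ := h2
  set us : Fin (m - 2) ⊕ Fin 2 → Oˣ := Sum.elim (fun _ => -two) ![two * d, two] with hus
  set cs : Fin (m - 2) ⊕ Fin 2 → K := Sum.elim τ ![a, b] with hcs
  have hcs0 : ∀ i, cs i ≠ 0 := by
    rintro (i | i)
    · exact hτ i
    · fin_cases i
      · exact ha
      · exact hb
  have h2K : algebraMap O K (two : O) = 2 := by rw [htwo, map_ofNat]
  have hmul : ∀ i, -2 * σ i = algebraMap O K (us i : O) * cs i ^ 2 := by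
    rintro (i | i)
    · show -2 * (τ i ^ 2) = algebraMap O K ((-two : Oˣ) : O) * τ i ^ 2
      rw [Units.val_neg, map_neg, h2K]
    · fin_cases i
      · show -2 * (-(algebraMap O K (d : O) * a ^ 2)) = algebraMap O K ((two * d : Oˣ) : O) * a ^ 2
        rw [Units.val_mul, map_mul, h2K]
        ring
      · show -2 * (-(b ^ 2)) = algebraMap O K (two : O) * b ^ 2
        rw [h2K]
        ring
  refine ⟨Sum.elim (fun _ => two) fun i => us (e i), ?_⟩
  refine hcong.trans ?_
  have h3 := CD.mul_sq (fun i : Fin m ⊕ Fin m =>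
      algebraMap O K ((Sum.elim (fun _ => two) (fun i => us (e i)) i : Oˣ) : O))
    (Sum.elim (fun _ => 1) fun i => cs (e i)) (by
      rintro (i | i)
      · exact one_ne_zero
      · exact hcs0 _)
  refine Cong.symm ?_
  have h4 : (fun i : Fin m ⊕ Fin m =>
      algebraMap O K ((Sum.elim (fun _ => two) (fun i => us (e i)) i : Oˣ) : O) *
        (Sum.elim (fun _ => (1 : K)) (fun i => cs (e i)) i) ^ 2) =
      Sum.elim (fun _ : Fin m => (2 : K)) fun i => -2 * (σ ∘ e) i := by
    funext i
    rcases i with i | i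
    · show algebraMap O K (two : O) * (1 : K) ^ 2 = 2
      rw [h2K]
      ring
    · show algebraMap O K (us (e i) : O) * cs (e i) ^ 2 = -2 * σ (e i)
      rw [hmul]
  rw [h4] at h3
  exact h3

end DVR

end Pool.Agent.Lib.MP_12adaf_nt.HM
end

section

/-!
# The choice of the parameter of the pencil
-/

namespace Pool.Agent.Lib.MP_12adaf_nt.HM

open NumberField IsDedekindDomain IsDedekindDomain.HeightOneSpectrum TF Matrix Polynomial Filter Topology

section Def

variable {F : Type*} [Field F] [NumberField F]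

/-- The parameter `r ^ 2` is large at `w`, compared with the coefficients of `c`. -/
def LargeAt (w : HeightOneSpectrum (𝓞 F)) (c : F[X]) (r : F) : Prop :=
  1 < w.valuation F r ∧ ∀ j, w.valuation F (c.coeff j) < w.valuation F (r ^ 2)

/-- The pencil has good reduction at `w`, and the parameter is integral. -/
def GoodAt (m : ℕ) (w : HeightOneSpectrum (𝓞 F)) (c : F[X]) (r : F) : Prop :=
  w.valuation F r ≤ 1 ∧ (∀ j, w.valuation F (c.coeff j) ≤ 1) ∧ w.valuation F (c.coeff 0) = 1 ∧
    w.valuation F (Phi m c) = 1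

end Def

variable {k : Type*} [Field k] [NumberField k]

/-- Simultaneous approximation. -/
private lemma c15_approx (S : Finset (Pl k)) (ε : Pl k → ℝ) (hε : ∀ i, 0 < ε i)
    (c : ∀ i : Pl k, PlC k i) : ∃ q : k, ∀ i ∈ S, ‖plEmb k i q - c i‖ < ε i := by
  classical
  rcases S.eq_empty_or_nonempty with rfl | hS
  · exact ⟨0, by simp⟩
  let f : {i // i ∈ S} → Pl k := Subtype.val
  have hf : Function.Injective f := Subtype.val_injective
  obtain ⟨δ, hδ, hδle⟩ : ∃ δ : ℝ, 0 < δ ∧ ∀ i ∈ S, δ ≤ ε i := by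
    obtain ⟨j, hj, hmin⟩ := S.exists_min_image ε hS
    exact ⟨ε j, hε j, hmin⟩
  obtain ⟨q, hq⟩ := (denseRange_places k f hf).exists_dist_lt (fun i => c (f i)) hδ
  rw [dist_pi_lt_iff hδ] at hq
  refine ⟨q, fun i hi => ?_⟩
  have h1 := hq ⟨i, hi⟩
  rw [dist_comm, dist_eq_norm] at h1
  exact lt_of_lt_of_le h1 (hδle i hi)

private lemma c15_v (w : HeightOneSpectrum (𝓞 k)) (x : w.adicCompletion k) :
    ‖x‖ < 1 ↔ Valued.v x < 1 := Valued.toNormedField.norm_lt_one_iff

/-- The norm and the valuation. -/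
private lemma c15_lt_one (w : HeightOneSpectrum (𝓞 k)) (x : k) :
    ‖plEmb k (Sum.inr w) x‖ < 1 ↔ w.valuation k x < 1 := by
  have h1 : ‖plEmb k (Sum.inr w) x‖ < 1 ↔ Valued.v (algebraMap k (w.adicCompletion k) x) < 1 :=
    c15_v w (algebraMap k (w.adicCompletion k) x)
  rw [h1]
  have := valuedAdicCompletion_eq_valuation' (v := w) x
  change Valued.v (algebraMap k (w.adicCompletion k) x) = _ at this
  rw [this]

/-- An element with a large valuation. -/
private lemma c15_large (w : HeightOneSpectrum (𝓞 k)) (c : k[X]) :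
    ∃ a : k, 1 < w.valuation k a ∧ ∀ j, w.valuation k (c.coeff j) < w.valuation k a := by
  classical
  obtain ⟨g, hg1, hg⟩ : ∃ g : WithZero (Multiplicative ℤ), 1 ≤ g ∧
      ∀ j, w.valuation k (c.coeff j) ≤ g := by
    refine ⟨max 1 ((Finset.range (c.natDegree + 1)).sup fun j => w.valuation k (c.coeff j)),
      le_max_left _ _, fun j => ?_⟩
    by_cases hj : j < c.natDegree + 1
    · exact le_max_of_le_right
        (Finset.le_sup (f := fun j => w.valuation k (c.coeff j)) (Finset.mem_range.mpr hj))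
    · rw [coeff_eq_zero_of_natDegree_lt (by omega), map_zero]
      exact zero_le
  obtain ⟨π, hπ⟩ := w.valuation_exists_uniformizer k
  obtain ⟨b, hb⟩ := w.valuation_surjective k g
  have hg0 : (0 : WithZero (Multiplicative ℤ)) < g := lt_of_lt_of_le zero_lt_one hg1
  have h1 : w.valuation k (b * π⁻¹) = g * WithZero.exp (1 : ℤ) := by
    rw [map_mul, map_inv₀, hb, hπ, WithZero.exp_neg, inv_inv]
  have h2 : (1 : WithZero (Multiplicative ℤ)) < WithZero.exp (1 : ℤ) := by
    rw [← WithZero.exp_zero, WithZero.exp_lt_exp]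
    norm_num
  have h3 : g < g * WithZero.exp (1 : ℤ) := lt_mul_of_one_lt_right hg0 h2
  refine ⟨b * π⁻¹, ?_, fun j => ?_⟩
  · rw [h1]
    exact lt_of_le_of_lt hg1 h3
  · rw [h1]
    exact lt_of_le_of_lt (hg j) h3

/-- Small nonzero elements at an infinite place. -/
private lemma c15_inf (v : InfinitePlace k) (n : ℕ) :
    ‖plEmb k (Sum.inl v) (((n : k) + 1)⁻¹)‖ = ((n : ℝ) + 1)⁻¹ := by
  rw [norm_plEmb]
  change v.1 (((n : k) + 1)⁻¹) = _
  rw [map_inv₀]
  have h := v.map_natCast (n + 1)
  change v.1 (((n + 1 : ℕ) : k)) = _ at h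
  push_cast at h
  rw [h]

/-- **Job C15.** The choice of the parameter.

Proof. Let `S₁` be the finite set of the finite places `w` with `Sum.inr w ∉ S` where a coefficient of `c` is
not integral, or `c(0)` or `Phi m c` is not a unit (finitely many: see the construction of `T` in
`hm_step`, Q08: the set of `w` with `w.valuation k x ≠ 1` is finite for `x ≠ 0`). By weak
approximation (`denseRange_places`) choose `r ≠ 0` in `k` with norm `< δ` at the places of `S`, and
at the places `w ∈ S₁` with norm `> max 1 (norms of the coefficients of c)`; so `1 < w.valuation r`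
and `w.valuation (c.coeff j) < w.valuation r ≤ w.valuation (r ^ 2)` (norm and valuation are in
order preserving correspondence: `norm_le_one_iff`, `valuation_eq_one_iff` (H23), or
`Valued.toNormedField.norm_le_one_iff` applied to quotients). At the other `w`: if
`w.valuation r ≤ 1` then `GoodAt`; otherwise all the coefficients have valuation
`≤ 1 < w.valuation r`: `LargeAt`. (`r ≠ 0`: if all the sets are empty take `r = 1`... or note that the
infinite places may not be in `S`: add one place to make `r ≠ 0`, for instance approximate a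
nonzero element at an infinite place.) -/
theorem exists_r (S : Finset (Pl k)) {m : ℕ} {c : k[X]} (h0 : c.coeff 0 ≠ 0)
    (hPhi : Phi m c ≠ 0) {δ : ℝ} (hδ : 0 < δ) :
    ∃ r : k, r ≠ 0 ∧ (∀ i ∈ S, ‖plEmb k i r‖ < δ) ∧
      ∀ w : HeightOneSpectrum (𝓞 k), Sum.inr w ∉ S → LargeAt w c r ∨ GoodAt m w c r := by
  classical
  -- the bad places
  have hcoef : ∀ j, {w : HeightOneSpectrum (𝓞 k) | 1 < w.valuation k (c.coeff j)}.Finite := by
    intro j
    by_cases h : c.coeff j = 0
    · rw [h]
      simp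
    · exact (finite_valuation_ne_one h).subset fun w hw => ne_of_gt hw
  set T : Finset (HeightOneSpectrum (𝓞 k)) :=
    ((finite_valuation_ne_one h0).toFinset ∪ (finite_valuation_ne_one hPhi).toFinset) ∪
      (Finset.range (c.natDegree + 1)).biUnion fun j => (hcoef j).toFinset with hT
  have hT0 : ∀ w ∉ T, w.valuation k (c.coeff 0) = 1 := by
    intro w hw
    by_contra hne
    exact hw (by simp [hT, hne])
  have hTP : ∀ w ∉ T, w.valuation k (Phi m c) = 1 := by
    intro w hw
    by_contra hne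
    exact hw (by simp [hT, hne])
  have hTc : ∀ w ∉ T, ∀ j, w.valuation k (c.coeff j) ≤ 1 := by
    intro w hw j
    by_cases hj : j < c.natDegree + 1
    · by_contra hne
      rw [not_le] at hne
      apply hw
      refine Finset.mem_union_right _ (Finset.mem_biUnion.mpr ⟨j, Finset.mem_range.mpr hj, ?_⟩)
      rw [Set.Finite.mem_toFinset]
      exact hne
    · rw [coeff_eq_zero_of_natDegree_lt (by omega), map_zero]
      exact zero_le
  choose a ha1 ha using fun w => c15_large (k := k) w c
  obtain ⟨v₀⟩ := (inferInstance : Nonempty (InfinitePlace k))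
  obtain ⟨n, hn⟩ := exists_nat_one_div_lt (show (0 : ℝ) < δ / 2 by positivity)
  have hn' : ((n : ℝ) + 1)⁻¹ < δ / 2 := by
    rw [← one_div]
    exact hn
  have hnpos : (0 : ℝ) < ((n : ℝ) + 1)⁻¹ := by positivity
  -- the targets
  let z : ∀ i : Pl k, k := fun i =>
    if i = Sum.inl v₀ then ((n : k) + 1)⁻¹ else
      if i ∈ S then 0 else
        match i with
        | .inl _ => 0
        | .inr w => a w
  set ε : ℝ := min (min δ 1) (((n : ℝ) + 1)⁻¹ / 2) with hεdef
  have hε : 0 < ε := lt_min (lt_min hδ one_pos) (by positivity)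
  have hεδ : ε ≤ δ := (min_le_left _ _).trans (min_le_left _ _)
  have hε1 : ε ≤ 1 := (min_le_left _ _).trans (min_le_right _ _)
  have hεn : ε ≤ ((n : ℝ) + 1)⁻¹ / 2 := min_le_right _ _
  obtain ⟨r, hr⟩ := c15_approx (insert (Sum.inl v₀) (S ∪ T.image Sum.inr)) (fun _ => ε)
    (fun _ => hε) (fun i => plEmb k i (z i))
  have hr0 : r ≠ 0 := by
    intro h
    have h1 := hr (Sum.inl v₀) (Finset.mem_insert_self _ _)
    have h2 : z (Sum.inl v₀) = ((n : k) + 1)⁻¹ := if_pos rfl
    rw [h, map_zero, zero_sub, norm_neg, h2, c15_inf] at h1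
    linarith
  refine ⟨r, hr0, fun i hi => ?_, fun w hw => ?_⟩
  · have h1 := hr i (Finset.mem_insert_of_mem (Finset.mem_union_left _ hi))
    by_cases h : i = Sum.inl v₀
    · subst h
      have h2 : z (Sum.inl v₀) = ((n : k) + 1)⁻¹ := if_pos rfl
      rw [h2] at h1
      have h3 : ‖plEmb k (Sum.inl v₀) r‖ ≤ ‖plEmb k (Sum.inl v₀) r -
          plEmb k (Sum.inl v₀) (((n : k) + 1)⁻¹)‖ +
          ‖plEmb k (Sum.inl v₀) (((n : k) + 1)⁻¹)‖ := by
        have := norm_add_le (plEmb k (Sum.inl v₀) r -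
          plEmb k (Sum.inl v₀) (((n : k) + 1)⁻¹)) (plEmb k (Sum.inl v₀) (((n : k) + 1)⁻¹))
        rwa [sub_add_cancel] at this
      rw [c15_inf] at h3
      linarith
    · have h2 : z i = 0 := by
        show (if i = Sum.inl v₀ then ((n : k) + 1)⁻¹ else if i ∈ S then 0 else _) = 0
        rw [if_neg h, if_pos hi]
      rw [h2, map_zero, sub_zero] at h1
      linarith
  · by_cases hwT : w ∈ T
    · left
      have h1 := hr (Sum.inr w) (Finset.mem_insert_of_mem (Finset.mem_union_right _
        (Finset.mem_image_of_mem _ hwT)))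
      have h2 : z (Sum.inr w) = a w := by
        show (if (Sum.inr w : Pl k) = Sum.inl v₀ then ((n : k) + 1)⁻¹ else
          if (Sum.inr w : Pl k) ∈ S then 0 else a w) = a w
        rw [if_neg (by simp), if_neg hw]
      rw [h2, ← map_sub] at h1
      have h3 : w.valuation k (r - a w) < 1 := (c15_lt_one w _).mp (lt_of_lt_of_le h1 hε1)
      have h4 : w.valuation k r = w.valuation k (a w) := by
        have h5 := Valuation.map_add_eq_of_lt_left (w.valuation k) (h3.trans (ha1 w))
        rwa [add_sub_cancel] at h5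
      refine ⟨by rw [h4]; exact ha1 w, fun j => ?_⟩
      rw [map_pow, h4]
      refine (ha w j).trans_le ?_
      exact le_self_pow₀ (ha1 w).le two_ne_zero
    · by_cases h : w.valuation k r ≤ 1
      · right
        exact ⟨h, hTc w hwT, hT0 w hwT, hTP w hwT⟩
      · left
        rw [not_le] at h
        refine ⟨h, fun j => (hTc w hwT j).trans_lt ?_⟩
        rw [map_pow]
        exact one_lt_pow₀ h two_ne_zero

variable {F : Type*} [Field F] [NumberField F] [Algebra k F]

/-- Valuations of elements of `k` in `F`. -/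
private lemma c15_under (w : HeightOneSpectrum (𝓞 F)) : ∃ e : ℕ, e ≠ 0 ∧
    ∀ x : k, w.valuation F (algebraMap k F x) = (w.under (𝓞 k)).valuation k x ^ e := by
  have : w.asIdeal.LiesOver (w.under (𝓞 k)).asIdeal := ⟨rfl⟩
  exact ⟨_, Ideal.IsDedekindDomain.ramificationIdx'_ne_zero_of_liesOver w.asIdeal
    (w.under (𝓞 k)).ne_bot, fun x => (valuation_liesOver (K := k) F (w.under (𝓞 k)) w x).symm⟩

/-- `LargeAt` in extensions (`valuation_liesOver`, see H33: the valuation of an element of `k` at `w`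
is a positive power of its valuation at the place under `w`). (Same job.) -/
theorem LargeAt.lift {w : HeightOneSpectrum (𝓞 F)} {c : k[X]} {r : k}
    (h : LargeAt (w.under (𝓞 k)) c r) :
    LargeAt w (c.map (algebraMap k F)) (algebraMap k F r) := by
  obtain ⟨e, he, hv⟩ := c15_under (k := k) w
  refine ⟨?_, fun j => ?_⟩
  · rw [hv]
    exact one_lt_pow₀ h.1 he
  · rw [coeff_map, ← map_pow, hv, hv]
    exact pow_lt_pow_left₀ (h.2 j) zero_le he

/-- `GoodAt` in extensions. (Same job; `map_Phi`.) -/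
theorem GoodAt.lift {m : ℕ} {w : HeightOneSpectrum (𝓞 F)} {c : k[X]} {r : k}
    (h : GoodAt m (w.under (𝓞 k)) c r) :
    GoodAt m w (c.map (algebraMap k F)) (algebraMap k F r) := by
  obtain ⟨e, he, hv⟩ := c15_under (k := k) w
  refine ⟨?_, fun j => ?_, ?_, ?_⟩
  · rw [hv]
    exact pow_le_one₀ zero_le h.1
  · rw [coeff_map, hv]
    exact pow_le_one₀ zero_le (h.2.1 j)
  · rw [coeff_map, hv, h.2.2.1, one_pow]
  · rw [← map_Phi, hv, h.2.2.2, one_pow]

end Pool.Agent.Lib.MP_12adaf_nt.HM
end

section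

/-!
# W(c) at places with good reduction of the pencil
-/

namespace Pool.Agent.Lib.MP_12adaf_nt.HM

open IsLocalRing TF Matrix Polynomial

section DVR

variable {O K : Type*} [CommRing O] [IsDomain O] [IsDiscreteValuationRing O]
  [HenselianLocalRing O] [Finite (ResidueField O)] [Field K] [Algebra O K] [IsFractionRing O K]

private lemma resultant_deriv_monic_G {R : Type*} [CommRing R] [Nontrivial R] {f : R[X]}
    (hf : f.Monic) : resultant f (derivative f) f.natDegree (f.natDegree - 1) =
      (-1) ^ (f.natDegree * (f.natDegree - 1) / 2) * f.discr := by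
  by_cases h0 : 0 < f.degree
  · rw [resultant_deriv h0, hf.leadingCoeff, mul_one]
  · have h1 : f.natDegree = 0 := by
      by_contra h
      exact h0 (natDegree_pos_iff_degree_pos.mp (Nat.pos_of_ne_zero h))
    have h2 : f = 1 := hf.natDegree_eq_zero.mp h1
    subst h2
    have h3 : discr (1 : R[X]) = 1 := by
      have := discr_C (1 : R)
      simpa using this
    simp [h3]

private lemma discr_map_G {R S : Type*} [CommRing R] [Nontrivial R] [CommRing S] [IsDomain S]
    (φ : R →+* S) {f : R[X]} (hf : f.Monic) : (f.map φ).discr = φ f.discr := by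
  have h1 := resultant_deriv_monic_G hf
  have h2 := resultant_deriv_monic_G (hf.map φ)
  rw [hf.natDegree_map, derivative_map, resultant_map_map, h1, map_mul, map_pow, map_neg,
    map_one] at h2
  exact (mul_left_cancel₀ (pow_ne_zero _ (neg_ne_zero.mpr one_ne_zero)) h2).symm

/-- the rank does not grow under field extensions -/
private lemma rank_map_le_G {F E : Type*} [Field F] [Field E] (φ : F →+* E) {m : ℕ}
    (G : Matrix (Fin m) (Fin m) F) : (G.map φ).rank ≤ G.rank := by
  classical
  rw [Matrix.rank_eq_finrank_span_cols (G.map φ), Matrix.rank_eq_finrank_span_cols G]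
  set W := Submodule.span F (Set.range Gᵀ) with hW
  set b := Module.finBasis F W with hb
  have hle : Submodule.span E (Set.range (G.map φ)ᵀ) ≤
      Submodule.span E (Set.range fun k : Fin (Module.finrank F W) =>
        (fun i => φ ((b k : Fin m → F) i) : Fin m → E)) := by
    refine Submodule.span_le.mpr ?_
    rintro _ ⟨j, rfl⟩
    have hj : Gᵀ j ∈ W := Submodule.subset_span ⟨j, rfl⟩
    have h1 : Gᵀ j = ∑ k, (b.repr ⟨Gᵀ j, hj⟩ k) • (b k : Fin m → F) := by
      have h2 := congrArg (Subtype.val) (b.sum_repr ⟨Gᵀ j, hj⟩)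
      rw [Submodule.coe_sum] at h2
      simpa using h2.symm
    have h3 : (G.map φ)ᵀ j = ∑ k, φ (b.repr ⟨Gᵀ j, hj⟩ k) •
        (fun i => φ ((b k : Fin m → F) i) : Fin m → E) := by
      funext i
      have h4 := congrFun h1 i
      rw [Finset.sum_apply] at h4 ⊢
      rw [Matrix.transpose_apply, Matrix.map_apply]
      rw [Matrix.transpose_apply] at h4
      rw [h4, map_sum]
      refine Finset.sum_congr rfl fun k _ => ?_
      rw [Pi.smul_apply, Pi.smul_apply, smul_eq_mul, smul_eq_mul, map_mul]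
    rw [SetLike.mem_coe, h3]
    exact Submodule.sum_mem _ fun k _ => Submodule.smul_mem _ _ (Submodule.subset_span ⟨k, rfl⟩)
  refine (Submodule.finrank_mono hle).trans ?_
  refine (finrank_range_le_card _).trans ?_
  rw [Fintype.card_fin]
  exact le_rfl

private lemma rank_smul_G {F : Type*} [Field F] {m : ℕ} {a : F} (ha : a ≠ 0)
    (G : Matrix (Fin m) (Fin m) F) : G.rank ≤ (a • G).rank := by
  have h1 : G = (a⁻¹ • (1 : Matrix (Fin m) (Fin m) F)) * (a • G) := by
    rw [smul_mul_assoc, Matrix.one_mul, smul_smul, inv_mul_cancel₀ ha, one_smul]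
  conv_lhs => rw [h1]
  exact Matrix.rank_mul_le_right _ _

/-- **Job C06.** Integral members of the pencil with discriminant of even valuation.

Proof. Let `c = pen m c₁ s`, monic of degree `m` over `O`, `c(0) = c₁(0)` a unit. Let `κ` be the
residue field, `Ω` an algebraic closure of `κ`. `Phi m (c₁ mod 𝔪) ≠ 0` (`map_Phi`). By
`exists_roots` over `Ω` the reduction of `c` is `(X - σ) ∏ (X - τ_i)`, with nonzero roots
(`c(0)` is a unit), so by `rank_HH`, `rank_HH1` the reductions of `G₀ := 2 HH m c` and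
`G₁ := -2 HH1 m c` have rank at least `m - 1` over `Ω`, hence over `κ` (the rank does not change
under field extensions: a nonzero minor; `Matrix.rank_map`-type lemma). Their determinants are
`2^m disc c` and `2^m c(0) disc c` (`det_HH`, `det_HH1` over `K`; `c` is separable over `K`, since
its discriminant is not zero), of the same valuation `2 j` as `disc c`. So `unim_of_rank`. -/
theorem unim_pen (h2 : IsUnit (2 : O)) [CharZero K] {m : ℕ} (hm : 2 ≤ m) {c₁ : O[X]}
    (hc : c₁.Monic) (hd : c₁.natDegree = m) (h0 : IsUnit (c₁.coeff 0)) (hPhi : IsUnit (Phi m c₁))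
    (s : O) {p : O} (hp : Irreducible p) {j : ℤ}
    (hord : HasOrd p (algebraMap O K (pen m c₁ s).discr) (2 * j)) :
    ∃ u : Fin m ⊕ Fin m → Oˣ, Cong (Wf m ((pen m c₁ s).map (algebraMap O K)))
      (diagonal fun i => algebraMap O K (u i : O)) := by
  classical
  obtain ⟨n, rfl⟩ : ∃ n, m = n + 1 := ⟨m - 1, by omega⟩
  set c : O[X] := pen (n + 1) c₁ s with hcdef
  obtain ⟨hcm, hcd⟩ := pen_monic hm hc hd s
  rw [← hcdef] at hcm hcd
  have hc0 : c.coeff 0 = c₁.coeff 0 := pen_coeff_zero hm c₁ s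
  have hinjK : Function.Injective (algebraMap O K) := IsFractionRing.injective O K
  -- over `K`
  set cK : K[X] := c.map (algebraMap O K) with hcK
  have hcKm : cK.Monic := hcm.map _
  have hcKd : cK.natDegree = n + 1 := by rw [hcK, hcm.natDegree_map, hcd]
  have hdisc : cK.discr = algebraMap O K c.discr := discr_map_G (algebraMap O K) hcm
  have hdisc0 : cK.discr ≠ 0 := by
    rw [hdisc]
    obtain ⟨u, hu⟩ := hord
    rw [hu]
    refine mul_ne_zero (zpow_ne_zero _ ?_) ?_
    · exact (map_ne_zero_iff _ hinjK).mpr hp.ne_zero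
    · exact (map_ne_zero_iff _ hinjK).mpr u.ne_zero
  have hcKs : cK.Separable := separable_of_discr_ne_zero hcKm hdisc0
  -- over the algebraic closure of the residue field
  set Ω := AlgebraicClosure (ResidueField O) with hΩ
  set ψ : ResidueField O →+* Ω := algebraMap (ResidueField O) Ω with hψ
  set φ : O →+* Ω := ψ.comp (residue O) with hφ
  have h2Ω : (2 : Ω) ≠ 0 := by
    have h3 : φ 2 = 2 := map_ofNat φ 2
    rw [← h3]
    exact (h2.map φ).ne_zero
  have hPhiΩ : Phi (n + 1) (c₁.map φ) ≠ 0 := by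
    rw [← map_Phi]
    exact (hPhi.map φ).ne_zero
  obtain ⟨τ, σ, hτ, hroots⟩ := exists_roots hm (hc.map φ) (by rw [hc.natDegree_map, hd]) hPhiΩ
    (φ s)
  rw [← map_pen, ← hcdef] at hroots
  have hcoef0 : (c.map φ).coeff 0 ≠ 0 := by
    rw [coeff_map, hc0]
    exact (h0.map φ).ne_zero
  have hcoef : (c.map φ).coeff 0 = -σ * ∏ i, (- τ i) := by
    rw [hroots, coeff_zero_eq_eval_zero, eval_mul, eval_prod]
    simp only [eval_sub, eval_X, eval_C, zero_sub]
  rw [hcoef] at hcoef0
  have hσ : σ ≠ 0 := by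
    intro h
    rw [h, neg_zero, zero_mul] at hcoef0
    exact hcoef0 rfl
  have hτ0 : ∀ i, τ i ≠ 0 := by
    intro i h
    refine (right_ne_zero_of_mul hcoef0) (Finset.prod_eq_zero (Finset.mem_univ i) ?_)
    rw [h, neg_zero]
  have hr0 : n ≤ (((2 : O) • HH (n + 1) c).map (residue O)).rank := by
    refine le_trans ?_ (rank_map_le_G ψ _)
    have h3 : (((2 : O) • HH (n + 1) c).map (residue O)).map ψ =
        (2 : Ω) • HH (n + 1) (c.map φ) := by
      rw [← map_HH φ hcm]
      ext i j
      simp only [Matrix.map_apply, Matrix.smul_apply, smul_eq_mul, map_mul, map_ofNat]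
      rfl
    rw [h3]
    refine le_trans ?_ (rank_smul_G h2Ω _)
    rw [hroots]
    exact rank_HH h2Ω (by omega) hτ σ
  have hr1 : n ≤ (((-2 : O) • HH1 (n + 1) c).map (residue O)).rank := by
    refine le_trans ?_ (rank_map_le_G ψ _)
    have h3 : (((-2 : O) • HH1 (n + 1) c).map (residue O)).map ψ =
        (-2 : Ω) • HH1 (n + 1) (c.map φ) := by
      rw [← map_HH1 φ hcm]
      ext i j
      simp only [Matrix.map_apply, Matrix.smul_apply, smul_eq_mul, map_mul, map_neg, map_ofNat]
      rfl
    rw [h3]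
    refine le_trans ?_ (rank_smul_G (neg_ne_zero.mpr h2Ω) _)
    rw [hroots]
    exact rank_HH1 h2Ω (by omega) hτ σ hσ hτ0
  -- the determinants
  have hm0 : ((2 : O) • HH (n + 1) c).map (algebraMap O K) = (2 : K) • HH (n + 1) cK := by
    rw [hcK, ← map_HH (algebraMap O K) hcm]
    ext i j
    simp only [Matrix.map_apply, Matrix.smul_apply, smul_eq_mul, map_mul, map_ofNat]
  have hm1 : ((-2 : O) • HH1 (n + 1) c).map (algebraMap O K) = (-2 : K) • HH1 (n + 1) cK := by
    rw [hcK, ← map_HH1 (algebraMap O K) hcm]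
    ext i j
    simp only [Matrix.map_apply, Matrix.smul_apply, smul_eq_mul, map_mul, map_neg, map_ofNat]
  have hd0 : algebraMap O K ((2 : O) • HH (n + 1) c).det = 2 ^ (n + 1) * cK.discr := by
    rw [RingHom.map_det, RingHom.mapMatrix_apply, hm0, det_smul, det_HH hcKm hcKd hcKs,
      Fintype.card_fin]
  have hd1 : algebraMap O K ((-2 : O) • HH1 (n + 1) c).det =
      2 ^ (n + 1) * algebraMap O K (c₁.coeff 0) * cK.discr := by
    rw [RingHom.map_det, RingHom.mapMatrix_apply, hm1, det_smul, det_HH1 hcKm hcKd hcKs,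
      Fintype.card_fin]
    have h3 : cK.coeff 0 = algebraMap O K (c₁.coeff 0) := by rw [hcK, coeff_map, hc0]
    have h4 : ((-2 : K)) ^ (n + 1) * (-1) ^ (n + 1) = 2 ^ (n + 1) := by
      rw [← mul_pow]
      congr 1
      ring
    rw [h3, ← h4]
    ring
  obtain ⟨u, hu⟩ := hord
  obtain ⟨t2, ht2⟩ := h2
  obtain ⟨t0, ht0⟩ := h0
  have ho0 : HasOrd p (algebraMap O K ((2 : O) • HH (n + 1) c).det) (2 * j) := by
    refine ⟨t2 ^ (n + 1) * u, ?_⟩
    rw [hd0, hdisc, hu, Units.val_mul, Units.val_pow_eq_pow_val, ht2, map_mul, map_pow,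
      map_ofNat]
    ring
  have ho1 : HasOrd p (algebraMap O K ((-2 : O) • HH1 (n + 1) c).det) (2 * j) := by
    refine ⟨t2 ^ (n + 1) * t0 * u, ?_⟩
    rw [hd1, hdisc, hu, Units.val_mul, Units.val_mul, Units.val_pow_eq_pow_val, ht2, ht0,
      map_mul, map_mul, map_pow, map_ofNat]
    ring
  obtain ⟨u0, hu0⟩ := unim_of_rank (K := K) ⟨t2, ht2⟩
    ((HH_isSymm (n + 1) c).smul (2 : O)) hr0 hp ho0
  obtain ⟨u1, hu1⟩ := unim_of_rank (K := K) ⟨t2, ht2⟩
    ((HH1_isSymm (n + 1) c).smul (-2 : O)) hr1 hp ho1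
  refine ⟨Sum.elim u0 u1, ?_⟩
  rw [hm0] at hu0
  rw [hm1] at hu1
  have h3 := Cong.osum hu0 hu1
  rw [osum_diagonal] at h3
  have h4 : (Sum.elim (fun i => algebraMap O K (u0 i : O)) fun i => algebraMap O K (u1 i : O)) =
      fun i => algebraMap O K ((Sum.elim u0 u1 i : Oˣ) : O) := by
    ext i
    rcases i with i | i <;> rfl
  rw [h4] at h3
  exact h3

end DVR

end Pool.Agent.Lib.MP_12adaf_nt.HM
end

section

/-!
# W(c) at the odd places
-/

set_option linter.unusedVariables false

namespace Pool.Agent.Lib.MP_12adaf_nt.HM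

open NumberField IsDedekindDomain IsDedekindDomain.HeightOneSpectrum TF Matrix Polynomial Filter Topology

section DVR

variable {O K : Type*} [CommRing O] [IsDomain O] [IsDiscreteValuationRing O]
  [HenselianLocalRing O] [Finite (IsLocalRing.ResidueField O)] [Field K] [Algebra O K]
  [IsFractionRing O K]

private theorem c16_fin (h2 : IsUnit (2 : O)) [CharZero K] {m : ℕ} {c : K[X]} (hc : c.Monic)
    (hd : c.natDegree = m) (hs : c.Separable) {d z : K} (hc0 : c.coeff 0 = d * z ^ 2)
    {u : Fin m ⊕ Fin m → Oˣ}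
    (hcong : Cong (Wf m c) (diagonal fun i => algebraMap O K (u i : O)))
    {v : Fin m ⊕ Fin m → Oˣ} {e : K} (hv : ∏ i, algebraMap O K (v i : O) = d * e ^ 2) :
    Cong (Wf m c) (diagonal fun i => algebraMap O K (v i : O)) := by
  refine hcong.trans (cd_of_units h2 u v ?_)
  obtain ⟨f, -, hf⟩ := hcong.det_eq
  rw [det_diagonal, det_Wf hc hd hs, hc0] at hf
  refine ⟨d * z * (2 ^ m * c.discr) * f * e, ?_⟩
  rw [map_mul, map_prod, map_prod, hf, hv]
  ring

private lemma c16_res {R : Type*} [CommRing R] [Nontrivial R] {f : R[X]}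
    (hf : f.Monic) : resultant f (derivative f) f.natDegree (f.natDegree - 1) =
      (-1) ^ (f.natDegree * (f.natDegree - 1) / 2) * f.discr := by
  by_cases h0 : 0 < f.degree
  · rw [resultant_deriv h0, hf.leadingCoeff, mul_one]
  · have h1 : f.natDegree = 0 := by
      by_contra h
      exact h0 (natDegree_pos_iff_degree_pos.mp (Nat.pos_of_ne_zero h))
    have h2 : f = 1 := hf.natDegree_eq_zero.mp h1
    subst h2
    have h3 : discr (1 : R[X]) = 1 := by
      have := discr_C (1 : R)
      simpa using this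
    simp [h3]

private lemma c16_discr {R S : Type*} [CommRing R] [Nontrivial R] [CommRing S] [IsDomain S]
    (φ : R →+* S) {f : R[X]} (hf : f.Monic) : (f.map φ).discr = φ f.discr := by
  have h1 := c16_res hf
  have h2 := c16_res (hf.map φ)
  rw [hf.natDegree_map, derivative_map, resultant_map_map, h1, map_mul, map_pow, map_neg,
    map_one] at h2
  exact (mul_left_cancel₀ (pow_ne_zero _ (neg_ne_zero.mpr one_ne_zero)) h2).symm

private theorem c16_good (h2 : IsUnit (2 : O)) [CharZero K] {m : ℕ} (hm : 2 ≤ m) {c₁ : O[X]}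
    (hc : c₁.Monic) (hd : c₁.natDegree = m) (h0 : IsUnit (c₁.coeff 0)) (hPhi : IsUnit (Phi m c₁))
    (s : O) {d z : K} (hc0 : algebraMap O K (c₁.coeff 0) = d * z ^ 2) {u : Oˣ} {θ : K}
    (hθ : θ ≠ 0) (hdisc : ((pen m c₁ s).map (algebraMap O K)).discr = algebraMap O K u * θ ^ 2)
    {v : Fin m ⊕ Fin m → Oˣ} {e : K} (hv : ∏ i, algebraMap O K (v i : O) = d * e ^ 2) :
    Cong (Wf m ((pen m c₁ s).map (algebraMap O K)))
      (diagonal fun i => algebraMap O K (v i : O)) := by
  obtain ⟨hcm, hcd⟩ := pen_monic hm hc hd s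
  obtain ⟨p, hp⟩ := IsDiscreteValuationRing.exists_irreducible O
  obtain ⟨j, t, ht⟩ := exists_hasOrd hp hθ
  have hu0 : algebraMap O K (u : O) ≠ 0 := (u.isUnit.map (algebraMap O K)).ne_zero
  have hp0 : algebraMap O K p ≠ 0 :=
    (map_ne_zero_iff _ (IsFractionRing.injective O K)).2 hp.ne_zero
  have hord : HasOrd p (algebraMap O K (pen m c₁ s).discr) (2 * j) := by
    refine ⟨u * t ^ 2, ?_⟩
    have h2z : (algebraMap O K p ^ j) ^ (2 : ℤ) = (algebraMap O K p ^ j) ^ (2 : ℕ) :=
      zpow_ofNat _ 2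
    rw [← c16_discr (algebraMap O K) hcm, hdisc, ht, Units.val_mul, Units.val_pow_eq_pow_val,
      map_mul, map_pow, mul_comm 2 j, _root_.zpow_mul, h2z, mul_pow]
    ring
  obtain ⟨w, hw⟩ := unim_pen (K := K) h2 hm hc hd h0 hPhi s hp hord
  have hsep : ((pen m c₁ s).map (algebraMap O K)).Separable := by
    refine separable_of_discr_ne_zero (hcm.map _) ?_
    rw [hdisc]
    exact mul_ne_zero hu0 (pow_ne_zero 2 hθ)
  refine c16_fin h2 (hcm.map _) ?_ hsep (d := d) (z := z) ?_ hw hv
  · rw [hcm.natDegree_map, hcd]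
  · rw [coeff_map, pen_coeff_zero hm, hc0]

end DVR

variable {F : Type*} [Field F] [NumberField F]

section Place

variable (w : HeightOneSpectrum (𝓞 F))

private theorem c16_v (q : F) :
    Valued.v (algebraMap F (w.adicCompletion F) q) = w.valuation F q := by
  have := valuedAdicCompletion_eq_valuation' (v := w) q
  change Valued.v (algebraMap F (w.adicCompletion F) q) = _ at this
  exact this

private theorem c16_int {q : F} (hq : w.valuation F q ≤ 1) :
    ∃ x : w.adicCompletionIntegers F,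
      algebraMap (w.adicCompletionIntegers F) (w.adicCompletion F) x =
        algebraMap F (w.adicCompletion F) q := by
  refine ⟨⟨algebraMap F (w.adicCompletion F) q, ?_⟩, rfl⟩
  rw [mem_adicCompletionIntegers, c16_v]
  exact hq

private theorem c16_unit {x : w.adicCompletionIntegers F} {q : F}
    (h : algebraMap (w.adicCompletionIntegers F) (w.adicCompletion F) x =
      algebraMap F (w.adicCompletion F) q)
    (hq : w.valuation F q = 1) : IsUnit x := by
  rw [adicCompletionIntegers.isUnit_iff_valued_eq_one]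
  have h1 : Valued.v (algebraMap (w.adicCompletionIntegers F) (w.adicCompletion F) x) = 1 := by
    rw [h, c16_v, hq]
  exact h1

private theorem c16_units {q : F} (hq : w.valuation F q = 1) :
    ∃ u : (w.adicCompletionIntegers F)ˣ,
      algebraMap (w.adicCompletionIntegers F) (w.adicCompletion F)
        (u : w.adicCompletionIntegers F) = algebraMap F (w.adicCompletion F) q := by
  obtain ⟨x, hx⟩ := c16_int w hq.le
  obtain ⟨u, hu⟩ := c16_unit w hx hq
  exact ⟨u, by rw [hu, hx]⟩

private theorem c16_max {x : w.adicCompletionIntegers F} {q : F}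
    (h : algebraMap (w.adicCompletionIntegers F) (w.adicCompletion F) x =
      algebraMap F (w.adicCompletion F) q)
    (hq : w.valuation F q < 1) : x ∈ IsLocalRing.maximalIdeal (w.adicCompletionIntegers F) := by
  rw [IsLocalRing.mem_maximalIdeal, mem_nonunits_iff,
    adicCompletionIntegers.isUnit_iff_valued_eq_one]
  have h1 : Valued.v (algebraMap (w.adicCompletionIntegers F) (w.adicCompletion F) x) < 1 := by
    rw [h, c16_v]
    exact hq
  exact h1.ne

private theorem c16_lift {P : F[X]} (hP : ∀ j, w.valuation F (P.coeff j) ≤ 1) :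
    ∃ G : (w.adicCompletionIntegers F)[X],
      G.map (algebraMap (w.adicCompletionIntegers F) (w.adicCompletion F)) =
        P.map (algebraMap F (w.adicCompletion F)) := by
  have h : P.map (algebraMap F (w.adicCompletion F)) ∈
      lifts (algebraMap (w.adicCompletionIntegers F) (w.adicCompletion F)) := by
    rw [lifts_iff_coeff_lifts]
    intro n
    obtain ⟨x, hx⟩ := c16_int w (hP n)
    exact ⟨x, by rw [hx, coeff_map]⟩
  exact (mem_lifts _).1 h

private theorem c16_charZero : CharZero (w.adicCompletion F) :=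
  charZero_of_injective_algebraMap (algebraMap F (w.adicCompletion F)).injective

end Place

/-- **Job C16.** `W(c)` at the places where the parameter is large.

Proof. Apply `cong_split_pen` to `O = w.adicCompletionIntegers F`, `K = w.adicCompletion F`, the image of `c`,
`y := r⁻¹` (so `(y ^ 2)⁻¹ = r ^ 2`), `x ∈ O` with image `y ^ 2` (in the maximal ideal, since
`‖r‖ > 1`), `G := x c` (its coefficients `c_j / r²` have norm `< 1`, so lie in the maximal ideal);
`d` is a unit of `O` (H23). So `W(c)` is isometric over `K` to a diagonal form with unit entries `u`. The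
entries of `b` are units of `O` too (H23). The determinants agree up to squares
(`Cong.det_eq`, `det_Wf`: `det W = c(0) (2^m disc)²`, `c(0) = d z²`, `∏ b = d e²`), so
`cd_of_units`. -/
theorem cong_of_large {w : HeightOneSpectrum (𝓞 F)} (h2 : w.valuation F 2 = 1) {m : ℕ}
    (hm : 2 ≤ m) (hme : Even m)
    (hR : ∀ i j : ℕ, i < j → j < m - 1 → w.valuation F ((j : F) ^ 2 - (i : F) ^ 2) = 1)
    {c : F[X]} (hc : c.Monic) (hcd : c.natDegree = m) {d z : F} (hd : w.valuation F d = 1)
    (hz : z ≠ 0) (hc0 : c.coeff 0 = d * z ^ 2) {r : F} (hr : LargeAt w c r)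
    {b : Fin m ⊕ Fin m → F} (hb : ∀ i, w.valuation F (b i) = 1) {e : F} (he : e ≠ 0)
    (hbd : ∏ i, b i = d * e ^ 2) :
    Cong ((Wf m (pen m c (r ^ 2))).map (plEmb F (Sum.inr w)))
      (diagonal fun i => plEmb F (Sum.inr w) (b i)) := by
  have hcz : CharZero (w.adicCompletion F) := c16_charZero w
  obtain ⟨hr1, hrj⟩ := hr
  have hr0 : r ≠ 0 := by
    rintro rfl
    rw [map_zero] at hr1
    exact not_lt_of_ge zero_le hr1
  have hvr0 : w.valuation F r ≠ 0 := (Valuation.ne_zero_iff _).2 hr0
  have hP : ∀ j, w.valuation F ((C ((r⁻¹) ^ 2) * c).coeff j) < 1 := by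
    intro j
    have h1 := hrj j
    rw [coeff_C_mul, map_mul, map_pow, map_inv₀, inv_pow]
    rw [map_pow] at h1
    exact (inv_mul_lt_one₀ (zero_lt_iff.2 (pow_ne_zero 2 hvr0))).2 h1
  obtain ⟨G, hG⟩ := c16_lift w (P := C ((r⁻¹) ^ 2) * c) fun j => (hP j).le
  have hq : w.valuation F ((r⁻¹) ^ 2) < 1 := by
    rw [map_pow, map_inv₀]
    exact pow_lt_one₀ zero_le (inv_lt_one_of_one_lt₀ hr1) two_ne_zero
  obtain ⟨x, hx⟩ := c16_int w hq.le
  obtain ⟨dU, hdU⟩ := c16_units w hd
  choose v hv using fun i => c16_units w (hb i)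
  set φ : F →+* w.adicCompletion F := algebraMap F (w.adicCompletion F) with hφ
  have hc1 : (c.map φ).Monic := hc.map φ
  have hcd1 : (c.map φ).natDegree = m := by rw [natDegree_map, hcd]
  have hy : φ r⁻¹ ≠ 0 := (map_ne_zero φ).2 (inv_ne_zero hr0)
  have hzz : φ z ≠ 0 := (map_ne_zero φ).2 hz
  have hc00 : (c.map φ).coeff 0 =
      algebraMap (w.adicCompletionIntegers F) (w.adicCompletion F)
        (dU : w.adicCompletionIntegers F) * φ z ^ 2 := by
    rw [coeff_map, hc0, map_mul, map_pow, hdU]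
  obtain ⟨hsep, u, hu⟩ := cong_split_pen (O := w.adicCompletionIntegers F)
    (K := w.adicCompletion F) (isUnit_two_fin h2) hm hme (fun i j hij hj => by
      refine c16_unit w (q := (j : F) ^ 2 - (i : F) ^ 2) ?_ (hR i j hij hj)
      simp only [map_sub, map_pow, map_natCast]) (c16_max w hx hq) hy
    (by rw [hx, map_pow]) hc1 hcd1 hzz hc00 (G := G) (fun i => by
      refine c16_max w (q := (C ((r⁻¹) ^ 2) * c).coeff i) ?_ (hP i)
      rw [← coeff_map, hG, coeff_map]) (by
      rw [hG, Polynomial.map_mul, map_C, hx])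
  have hpm := pen_monic hm hc1 hcd1 (φ r⁻¹ ^ 2)⁻¹
  have hfin := c16_fin (O := w.adicCompletionIntegers F) (K := w.adicCompletion F)
    (isUnit_two_fin h2) hpm.1 hpm.2 hsep (d := φ d) (z := φ z)
    (by rw [pen_coeff_zero hm, coeff_map, hc0, map_mul, map_pow]) hu (v := v) (e := φ e)
    (by rw [← map_pow, ← map_mul, ← hbd, map_prod]; exact Finset.prod_congr rfl fun i _ => hv i)
  have e1 : (Wf m (pen m c (r ^ 2))).map φ = Wf m (pen m (c.map φ) (φ r⁻¹ ^ 2)⁻¹) := by
    rw [map_Wf φ (pen_monic hm hc hcd (r ^ 2)).1, map_pen, map_inv₀, inv_pow, inv_inv, map_pow]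
  have e2 : (fun i => φ (b i)) = fun i => algebraMap (w.adicCompletionIntegers F)
      (w.adicCompletion F) (v i : w.adicCompletionIntegers F) := funext fun i => (hv i).symm
  rw [← e1, ← e2] at hfin
  exact hfin

/-- **Job C16, second part.** `W(c)` at the places where the pencil has good reduction and the
discriminant of the member is a square times a unit.

Proof. Let `O`, `K` be as above. `c` is the image of a monic polynomial `c₁` over `O`, `r` the image of
`s ∈ O`; `c₁(0)` and `Phi m c₁` are units (`map_Phi`). The discriminant of `pen m c₁ (s ^ 2)` maps to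
`u θ²`, `u` a unit, `θ ≠ 0`, `θ = p ^ j * unit`, so `HasOrd p (disc) (2 j)` for an irreducible `p`.
`unim_pen` gives unit entries, and conclude as above (`pen m c (r^2)` is separable as its discriminant is
not zero). -/
theorem cong_of_good {w : HeightOneSpectrum (𝓞 F)} (h2 : w.valuation F 2 = 1) {m : ℕ}
    (hm : 2 ≤ m) {c : F[X]} (hc : c.Monic) (hcd : c.natDegree = m) {d z : F}
    (hd : w.valuation F d = 1) (hz : z ≠ 0) (hc0 : c.coeff 0 = d * z ^ 2) {r : F}
    (hr : GoodAt m w c r) {u θ : F} (hu : w.valuation F u = 1) (hθ : θ ≠ 0)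
    (hdisc : (pen m c (r ^ 2)).discr = u * θ ^ 2) {b : Fin m ⊕ Fin m → F}
    (hb : ∀ i, w.valuation F (b i) = 1) {e : F} (he : e ≠ 0) (hbd : ∏ i, b i = d * e ^ 2) :
    Cong ((Wf m (pen m c (r ^ 2))).map (plEmb F (Sum.inr w)))
      (diagonal fun i => plEmb F (Sum.inr w) (b i)) := by
  have hcz : CharZero (w.adicCompletion F) := c16_charZero w
  obtain ⟨hr1, hcj, hcu, hPu⟩ := hr
  obtain ⟨c₁, hc₁⟩ := c16_lift w (P := c) hcj
  obtain ⟨s, hs⟩ := c16_int w hr1
  obtain ⟨uU, huU⟩ := c16_units w hu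
  choose v hv using fun i => c16_units w (hb i)
  set φ : F →+* w.adicCompletion F := algebraMap F (w.adicCompletion F) with hφ
  set ψ : w.adicCompletionIntegers F →+* w.adicCompletion F :=
    algebraMap (w.adicCompletionIntegers F) (w.adicCompletion F) with hψ
  have hinj : Function.Injective ψ :=
    IsFractionRing.injective (w.adicCompletionIntegers F) (w.adicCompletion F)
  have hm1 : c₁.Monic := by
    refine monic_of_injective hinj ?_
    rw [hc₁]
    exact hc.map φ
  have hd1 : c₁.natDegree = m := by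
    rw [← natDegree_map_eq_of_injective hinj, hc₁, natDegree_map, hcd]
  have e0 : (pen m c₁ (s ^ 2)).map ψ = (pen m c (r ^ 2)).map φ := by
    rw [map_pen, map_pen, hc₁, map_pow, map_pow, hs]
  have hpm := pen_monic hm hc hcd (r ^ 2)
  have hfin := c16_good (O := w.adicCompletionIntegers F) (K := w.adicCompletion F)
    (isUnit_two_fin h2) hm hm1 hd1
    (c16_unit w (q := c.coeff 0) (by rw [← coeff_map, ← hψ, hc₁, coeff_map]) hcu)
    (c16_unit w (q := Phi m c) (by rw [← hψ, map_Phi, hc₁, ← map_Phi]) hPu) (s ^ 2)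
    (d := φ d) (z := φ z) (by rw [← hψ, ← coeff_map, hc₁, coeff_map, hc0, map_mul, map_pow])
    (u := uU) (θ := φ θ) ((map_ne_zero φ).2 hθ)
    (by rw [← hψ, e0, c16_discr φ hpm.1, hdisc, map_mul, map_pow, huU]) (v := v) (e := φ e)
    (by rw [← map_pow, ← map_mul, ← hbd, map_prod]; exact Finset.prod_congr rfl fun i _ => hv i)
  have e1 : (Wf m (pen m c (r ^ 2))).map φ = Wf m ((pen m c₁ (s ^ 2)).map ψ) := by
    rw [map_Wf φ hpm.1, e0]
  have e2 : (fun i => φ (b i)) = fun i => ψ (v i : w.adicCompletionIntegers F) :=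
    funext fun i => (hv i).symm
  rw [← hψ, ← e1, ← e2] at hfin
  exact hfin

end Pool.Agent.Lib.MP_12adaf_nt.HM
end
end
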