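import Mathlib
import Pool.Agent.Lib.MP_12adaf_nt.HM.Basic

/-!
# Nonsquare units
-/

namespace Pool.Agent.Lib.MP_12adaf_nt.HM

open IsLocalRing

section DVR

variable {O K : Type*} [CommRing O] [IsDomain O] [IsDiscreteValuationRing O]
  [HenselianLocalRing O] [Finite (ResidueField O)] [Field K] [Algebra O K] [IsFractionRing O K]

/-- **Job HM-13.** There is a nonsquare unit, odd residue characteristic.
(`FiniteField.exists_nonsquare`; a unit which is a square in `K` is a square in `O`, as `O` is
integrally closed, hence its residue is a square.) -/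
theorem exists_unit_not_isSquare (h2 : IsUnit (2 : O)) :
    ∃ u : Oˣ, ¬ IsSquare (algebraMap O K (u : O)) := by
  classical
  have : Fintype (ResidueField O) := Fintype.ofFinite _
  have hchar : ringChar (ResidueField O) ≠ 2 := by
    intro h
    have h1 : (2 : ResidueField O) = 0 := by
      have := ringChar.Nat.cast_ringChar (R := ResidueField O)
      rw [h] at this
      exact_mod_cast this
    have h3 : IsUnit (residue O 2) := h2.map _
    rw [map_ofNat, h1] at h3
    exact not_isUnit_zero h3
  obtain ⟨a, ha⟩ := FiniteField.exists_nonsquare hchar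
  obtain ⟨u, rfl⟩ := residue_surjective a
  have hu : IsUnit u := by
    by_contra hn
    apply ha
    have h0 : residue O u = 0 := by
      rw [residue_eq_zero_iff, mem_maximalIdeal]
      exact hn
    rw [h0]
    exact ⟨0, by ring⟩
  refine ⟨hu.unit, ?_⟩
  rintro ⟨x, hx⟩
  have hint : IsIntegral O (x ^ 2) := by
    rw [sq, ← hx]
    exact isIntegral_algebraMap
  obtain ⟨y, hy⟩ := IsIntegrallyClosed.exists_algebraMap_eq_of_isIntegral_pow (by norm_num) hint
  apply ha
  refine ⟨residue O y, ?_⟩
  rw [← map_mul]
  congr 1
  apply IsFractionRing.injective O K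
  rw [map_mul, hy, ← hx, IsUnit.unit_spec]

end DVR

end Pool.Agent.Lib.MP_12adaf_nt.HM
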