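import Mathlib
import Pool.Agent.Lib.MP_12adaf_nt.HM.Q10
import Pool.Agent.Lib.MP_12adaf_nt.HM.T8
import Pool.Agent.Lib.MP_12adaf_nt.HM.C14
import Pool.Agent.Lib.MP_12adaf_nt.HM.C16
import Pool.Agent.Lib.MP_12adaf_nt.HM.C04
import Pool.Agent.Lib.MP_12adaf_nt.HM.H32
import Pool.Agent.Lib.MP_12adaf_nt.HM.C13
import Pool.Agent.Lib.MP_12adaf_nt.TF.NF
import Pool.Agent.Lib.MP_12adaf_nt.TF.OWeak
import Pool.Agent.Lib.MP_12adaf_nt.OddNF

section

/-!
# Splitting with prescribed local components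
-/

namespace Pool.Agent.Lib.MP_12adaf_nt.HM

open NumberField IsDedekindDomain IsDedekindDomain.HeightOneSpectrum TF Matrix Polynomial Filter Topology

variable {k : Type*} [Field k] [NumberField k]

/-- Elements near a nonzero element are in its square class. -/
private lemma v5_near (i : Pl k) {t : PlC k i} (ht : t ≠ 0) :
    ∃ δ : ℝ, 0 < δ ∧ ∀ t' : PlC k i, ‖t' - t‖ < δ → ∃ s : PlC k i, s ≠ 0 ∧ t' = t * s ^ 2 := by
  obtain ⟨δ, hδ, H⟩ := exists_near_one_sq i
  have ht' : 0 < ‖t‖ := norm_pos_iff.2 ht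
  refine ⟨δ * ‖t‖, mul_pos hδ ht', fun t' h => ?_⟩
  obtain ⟨y, hy, hy2⟩ := H (t' / t) (by
    have h1 : t' / t - 1 = (t' - t) / t := by field_simp
    rw [h1, norm_div, div_lt_iff₀ ht']
    exact h)
  refine ⟨y, hy, ?_⟩
  rw [← hy2]
  field_simp

/-- Simultaneous approximation. -/
private lemma v5_approx (S : Finset (Pl k)) (ε : S → ℝ) (hε : ∀ i, 0 < ε i)
    (c : ∀ i : S, PlC k i.1) : ∃ q : k, ∀ i : S, ‖plEmb k i.1 q - c i‖ < ε i := by
  classical
  rcases isEmpty_or_nonempty S with hS | hS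
  · exact ⟨0, fun i => (hS.false i).elim⟩
  have hf : Function.Injective (Subtype.val : S → Pl k) := Subtype.val_injective
  obtain ⟨δ, hδ, hδle⟩ : ∃ δ : ℝ, 0 < δ ∧ ∀ i : S, δ ≤ ε i := by
    obtain ⟨j, hmin⟩ := Finite.exists_min ε
    exact ⟨ε j, hε j, hmin⟩
  obtain ⟨q, hq⟩ := (denseRange_places k (Subtype.val : S → Pl k) hf).exists_dist_lt c hδ
  rw [dist_pi_lt_iff hδ] at hq
  refine ⟨q, fun i => ?_⟩
  have h1 := hq i
  rw [dist_comm, dist_eq_norm] at h1
  exact lt_of_lt_of_le h1 (hδle i)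

/-- The diagonal form is continuous. -/
private lemma v5_cont {K : Type*} [NormedField K] {n : ℕ} (a x : Fin n → K) {δ : ℝ} (hδ : 0 < δ) :
    ∃ ε : ℝ, 0 < ε ∧ ∀ x' : Fin n → K, (∀ j, ‖x' j - x j‖ < ε) →
      ‖∑ j, a j * x' j ^ 2 - ∑ j, a j * x j ^ 2‖ < δ := by
  have hc : ContinuousAt (fun p : Fin n → K => ∑ j, a j * p j ^ 2) x := by
    apply Continuous.continuousAt
    fun_prop
  obtain ⟨ε, hε, H⟩ := Metric.continuousAt_iff.mp hc δ hδ
  refine ⟨ε, hε, fun x' hx => ?_⟩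
  have h1 : dist x' x < ε := by
    rw [dist_pi_lt_iff hε]
    intro j
    rw [dist_eq_norm]
    exact hx j
  have h3 := H h1
  rw [dist_eq_norm] at h3
  exact h3

private def v5e (n : ℕ) : Fin (n + 1) ≃ Fin 1 ⊕ Fin n where
  toFun := Fin.cases (Sum.inl 0) Sum.inr
  invFun := Sum.elim (fun _ => 0) Fin.succ
  left_inv := by
    intro i
    refine Fin.cases ?_ (fun j => ?_) i <;> rfl
  right_inv := by
    rintro (i | i)
    · have : i = 0 := Subsingleton.elim _ _
      subst this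
      rfl
    · rfl

private lemma v5L {K : Type*} [Field K] {n : ℕ} (c : K) (u : Fin n → K) :
    CD (Sum.elim (fun _ : Fin 1 => c) u) (Fin.cons c u : Fin (n + 1) → K) := by
  have h := CD.reindex (Sum.elim (fun _ : Fin 1 => c) u) (v5e n)
  refine h.trans ?_
  have : (fun i => Sum.elim (fun _ : Fin 1 => c) u (v5e n i)) = (Fin.cons c u : Fin (n + 1) → K) := by
    funext i
    refine Fin.cases ?_ (fun j => ?_) i <;> rfl
  rw [this]
  exact CD.refl _

private lemma v5_reps {K : Type*} [Field K] {N : ℕ} {v : Fin (N + 1) → K}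
    {T : Matrix (Fin N) (Fin N) K} {e : K} (h : Cong (osum T (sq1 e)) (diagonal v)) :
    Reps v e := by
  obtain ⟨P, P', -, -, h3⟩ := h.symm
  refine ⟨fun j => P j (Sum.inr 0), ?_⟩
  have h4 := congrFun (congrFun h3 (Sum.inr 0)) (Sum.inr 0)
  rw [osum, fromBlocks_apply₂₂, sq1, diagonal_apply_eq, Matrix.mul_apply] at h4
  rw [← h4]
  refine Finset.sum_congr rfl fun j _ => ?_
  rw [Matrix.mul_diagonal, transpose_apply]
  ring

/-- **Job V5.** Splitting with prescribed local components.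

Proof. For `i ∈ S` the form `v` represents `ev i` over `PlC k i`, at a vector `x_i`. By weak approximation
(`denseRange_places`, as in Q08) choose `x` over `k` close to `x_i`, `i ∈ S`; `e := ∑ v_j x_j²` is close
to `ev i`, so `e = ev i * s²`, `s ≠ 0` (`exists_near_one_sq`, T6), and `e ≠ 0` (if `S` is empty take
`x` a basis vector). By `exists_cd_of_reps` (Q10) `v ≅ Fin.cons e u`, i.e. `v ≅ Sum.elim u e`. At
`i ∈ S`: `osum (T i) (sq1 (ev i)) ≅ v ≅ osum (diagonal u) (sq1 e) ≅ osum (diagonal u) (sq1 (ev i))`,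
so `T i ≅ diagonal u` by cancellation (`witt_sq1`, `Cong.osum_comm`). -/
theorem exists_split_near {N : ℕ} {v : Fin (N + 1) → k} (hv : ∀ j, v j ≠ 0) (S : Finset (Pl k))
    (T : ∀ i : S, Matrix (Fin N) (Fin N) (PlC k i.1)) (hT : ∀ i, (T i).IsSymm)
    (ev : ∀ i : S, PlC k i.1) (hev : ∀ i, ev i ≠ 0)
    (h : ∀ i : S, Cong (osum (T i) (sq1 (ev i))) (diagonal fun j => plEmb k i.1 (v j))) :
    ∃ (u : Fin N → k) (e : k), (∀ j, u j ≠ 0) ∧ e ≠ 0 ∧
      CD (Sum.elim u fun _ : Fin 1 => e) v ∧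
      ∀ i : S, Cong (T i) (diagonal fun j => plEmb k i.1 (u j)) := by
  classical
  have hreps : ∀ i : S, Reps (fun j => plEmb k i.1 (v j)) (ev i) := fun i => v5_reps (h i)
  choose x hx using hreps
  choose δ hδ hnear using fun i : S => v5_near i.1 (hev i)
  choose ε hε hcont using fun i : S =>
    v5_cont (fun j => plEmb k i.1 (v j)) (x i) (hδ i)
  -- the global vector
  obtain ⟨e, he, hrep, hS⟩ : ∃ e : k, e ≠ 0 ∧ Reps v e ∧
      ∀ i : S, ∃ s : PlC k i.1, s ≠ 0 ∧ plEmb k i.1 e = ev i * s ^ 2 := by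
    rcases isEmpty_or_nonempty S with hemp | ⟨⟨i₀⟩⟩
    · refine ⟨v 0, hv 0, ⟨fun j => if j = 0 then 1 else 0, ?_⟩, fun i => (hemp.false i).elim⟩
      rw [Finset.sum_eq_single 0]
      · simp
      · intro j _ hj
        simp [hj]
      · simp
    · choose q hq using fun j : Fin (N + 1) => v5_approx S ε hε fun i => x i j
      have hval : ∀ i : S, ∃ s : PlC k i.1, s ≠ 0 ∧
          plEmb k i.1 (∑ j, v j * q j ^ 2) = ev i * s ^ 2 := by
        intro i
        apply hnear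
        have h1 := hcont i (fun j => plEmb k i.1 (q j)) fun j => hq j i
        rw [hx i] at h1
        rw [map_sum]
        simp only [map_mul, map_pow]
        exact h1
      refine ⟨∑ j, v j * q j ^ 2, ?_, ⟨q, rfl⟩, hval⟩
      intro h0
      obtain ⟨s, hs, h1⟩ := hval i₀
      rw [h0, map_zero] at h1
      exact mul_ne_zero (hev i₀) (pow_ne_zero _ hs) h1.symm
  obtain ⟨u, hu, huv⟩ := exists_cd_of_reps hv he hrep
  have hcd : CD (Sum.elim u fun _ : Fin 1 => e) v :=
    ((CD.comm _ _).trans (v5L e u)).trans huv.symm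
  refine ⟨u, e, hu, he, hcd, fun i => ?_⟩
  obtain ⟨s, hs, hes⟩ := hS i
  have h1 : Cong (diagonal fun j => plEmb k i.1 (v j))
      (osum (diagonal fun j => plEmb k i.1 (u j)) (sq1 (plEmb k i.1 e))) := by
    have h2 := (hcd.map (plEmb k i.1)).symm
    refine Cong.trans h2 (Cong.of_eq ?_)
    rw [sq1, osum_diagonal]
    congr 1
    funext j
    rcases j with j | j <;> rfl
  have h2 : Cong (sq1 (plEmb k i.1 e)) (sq1 (ev i)) := (Cong.sq1_of_eq hs hes).symm
  have h3 : Cong (osum (T i) (sq1 (ev i)))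
      (osum (diagonal fun j => plEmb k i.1 (u j)) (sq1 (ev i))) :=
    ((h i).trans h1).trans (Cong.osum (Cong.refl _) h2)
  exact witt_sq1 (hev i) (hT i) (diagonal_transpose _)
    (((Cong.osum_comm _ _).trans h3).trans (Cong.osum_comm _ _))

end Pool.Agent.Lib.MP_12adaf_nt.HM
end

section

/-!
# W(c) over extensions where the discriminant is a square
-/

namespace Pool.Agent.Lib.MP_12adaf_nt.HM

open NumberField IsDedekindDomain IsDedekindDomain.HeightOneSpectrum TF Matrix Polynomial Filter Topology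


variable {k : Type*} [Field k] [NumberField k]

variable {F : Type*} [Field F] [NumberField F] [Algebra k F]

/-- **Job C19.** `W(c)` over extensions where the signed discriminant is a square.

Proof. `cong_of_local` over `F` (`Wf_isSymm`, `map_Wf`, `det_Wf`: the determinant is not zero). Let `i`
be a place of `F`. If the place `plUnder k i` is in `S`, map the isometry `hS` along
`exists_map_place` (`Cong.map`, and the composition of maps). Otherwise `i = Sum.inr w` (all infinite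
places under `i` are in `S`) and `Sum.inr (w.under) ∉ S`; the conditions lift: `w.valuation F` of `2`,
of `j² - i²`, of `d`, of the `b i` are one (`valuation_one_iff_under`, H33), `LargeAt.lift`,
`GoodAt.lift`, and the image of `c` in `F[X]` is monic of degree `m` with `c(0) = d z²`; `map_pen`,
`map_Wf`. In the first case use `cong_of_large`. In the second case `cong_of_good`: over `F`
`(-1)^(m/2) d disc(pen m c (r²)) = θ * θ`, so `disc = u θ²` with `u = ((-1)^(m/2) d)⁻¹`, of valuation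
one (`discr_map_monic` for the image of the discriminant); `θ ≠ 0` as `disc ≠ 0`. -/
theorem cong_of_sq {m : ℕ} (hm : 2 ≤ m) (hme : Even m)
    {S : Finset (Pl k)} (hinf : ∀ v : InfinitePlace k, Sum.inl v ∈ S)
    (h2 : ∀ w : HeightOneSpectrum (𝓞 k), Sum.inr w ∉ S → w.valuation k 2 = 1)
    (hR : ∀ w : HeightOneSpectrum (𝓞 k), Sum.inr w ∉ S → ∀ i j : ℕ, i < j → j < m - 1 →
      w.valuation k ((j : k) ^ 2 - (i : k) ^ 2) = 1)
    {c : k[X]} (hc : c.Monic) (hcd : c.natDegree = m) {d z : k} (hd0 : d ≠ 0)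
    (hd : ∀ w : HeightOneSpectrum (𝓞 k), Sum.inr w ∉ S → w.valuation k d = 1) (hz : z ≠ 0)
    (hc0 : c.coeff 0 = d * z ^ 2) {r : k}
    (hr : ∀ w : HeightOneSpectrum (𝓞 k), Sum.inr w ∉ S → LargeAt w c r ∨ GoodAt m w c r)
    {b : Fin m ⊕ Fin m → k} (hb0 : ∀ i, b i ≠ 0)
    (hb : ∀ w : HeightOneSpectrum (𝓞 k), Sum.inr w ∉ S → ∀ i, w.valuation k (b i) = 1)
    {e : k} (he : e ≠ 0) (hbd : ∏ i, b i = d * e ^ 2) (hsep : (pen m c (r ^ 2)).Separable)
    (hS : ∀ i ∈ S, Cong ((Wf m (pen m c (r ^ 2))).map (plEmb k i))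
      (diagonal fun j => plEmb k i (b j)))
    (hsq : IsSquare (algebraMap k F ((-1) ^ (m / 2) * d * (pen m c (r ^ 2)).discr))) :
    Cong ((Wf m (pen m c (r ^ 2))).map (algebraMap k F))
      (diagonal fun j => algebraMap k F (b j)) := by
  obtain ⟨hpm, hpd⟩ := pen_monic hm hc hcd (r ^ 2)
  have hp0 : (pen m c (r ^ 2)).coeff 0 = d * z ^ 2 := by rw [pen_coeff_zero hm, hc0]
  have hdz : d * z ^ 2 ≠ 0 := mul_ne_zero hd0 (pow_ne_zero 2 hz)
  have hdisc0 : (pen m c (r ^ 2)).discr ≠ 0 := discr_ne_zero_of_separable hpm hsep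
  have h20 : (2 : k) ≠ 0 := two_ne_zero
  have hdet : (Wf m (pen m c (r ^ 2))).det ≠ 0 := by
    rw [det_Wf hpm hpd hsep, hp0]
    exact mul_ne_zero hdz (pow_ne_zero 2 (mul_ne_zero (pow_ne_zero m h20) hdisc0))
  have hφ : ∀ x : k, x ≠ 0 → algebraMap k F x ≠ 0 := fun x hx =>
    (map_ne_zero (algebraMap k F)).mpr hx
  apply cong_of_local
  · exact (Wf_isSymm m _).map _
  · exact Matrix.isSymm_diagonal _
  · have e : ((Wf m (pen m c (r ^ 2))).map (algebraMap k F)).det =
        algebraMap k F (Wf m (pen m c (r ^ 2))).det := by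
      rw [RingHom.map_det]; rfl
    rw [e]
    exact hφ _ hdet
  · rw [det_diagonal]
    exact Finset.prod_ne_zero_iff.mpr fun i _ => hφ _ (hb0 i)
  intro i
  by_cases hi : plUnder k i ∈ S
  · obtain ⟨ρ, hρ⟩ := exists_map_place (k := k) i
    have h := (hS _ hi).map ρ
    have e1 : ((Wf m (pen m c (r ^ 2))).map (plEmb k (plUnder k i))).map ρ =
        ((Wf m (pen m c (r ^ 2))).map (algebraMap k F)).map (plEmb F i) := by
      ext a b
      simp only [Matrix.map_apply]
      exact hρ _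
    have e2 : (diagonal fun j => plEmb k (plUnder k i) (b j)).map ρ =
        (diagonal fun j => algebraMap k F (b j)).map (plEmb F i) := by
      rw [diagonal_map (map_zero ρ), diagonal_map (map_zero (plEmb F i))]
      congr 1
      funext j
      exact hρ _
    rw [e1, e2] at h
    exact h
  · rcases i with v | w
    · exact absurd (hinf _) hi
    have hw : Sum.inr (w.under (𝓞 k)) ∉ S := hi
    have hval : ∀ x : k, (w.under (𝓞 k)).valuation k x = 1 →
        w.valuation F (algebraMap k F x) = 1 := fun x hx =>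
      (valuation_one_iff_under (k := k) w x).mpr hx
    have h2' : w.valuation F 2 = 1 := by
      have := hval 2 (h2 _ hw)
      rwa [map_ofNat] at this
    have hR' : ∀ i j : ℕ, i < j → j < m - 1 → w.valuation F ((j : F) ^ 2 - (i : F) ^ 2) = 1 := by
      intro i j hij hj
      have := hval _ (hR _ hw i j hij hj)
      rwa [map_sub, map_pow, map_pow, map_natCast, map_natCast] at this
    have hd' := hval d (hd _ hw)
    have hz' := hφ z hz
    have he' := hφ e he
    have hc' : (c.map (algebraMap k F)).Monic := hc.map _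
    have hcd' : (c.map (algebraMap k F)).natDegree = m := by rw [hc.natDegree_map, hcd]
    have hc0' : (c.map (algebraMap k F)).coeff 0 = algebraMap k F d * algebraMap k F z ^ 2 := by
      rw [coeff_map, hc0, map_mul, map_pow]
    have hb' : ∀ i, w.valuation F (algebraMap k F (b i)) = 1 := fun i => hval _ (hb _ hw i)
    have hbd' : ∏ i, algebraMap k F (b i) = algebraMap k F d * algebraMap k F e ^ 2 := by
      rw [← map_prod, hbd, map_mul, map_pow]
    have hWp : (Wf m (pen m c (r ^ 2))).map (algebraMap k F) =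
        Wf m (pen m (c.map (algebraMap k F)) (algebraMap k F r ^ 2)) := by
      rw [map_Wf _ hpm, map_pen, map_pow]
    rw [hWp, diagonal_map (map_zero (plEmb F (Sum.inr w)))]
    rcases hr _ hw with hl | hg
    · exact cong_of_large h2' hm hme hR' hc' hcd' hd' hz' hc0' hl.lift hb' he' hbd'
    · obtain ⟨θ, hθ⟩ := hsq
      obtain ⟨q, hq⟩ : ∃ q : k, q = (-1) ^ (m / 2) * d := ⟨_, rfl⟩
      rw [← hq, map_mul] at hθ
      have hq0 : q ≠ 0 := by
        rw [hq]
        exact mul_ne_zero (pow_ne_zero _ (neg_ne_zero.mpr one_ne_zero)) hd0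
      have hqv : w.valuation F (algebraMap k F q) = 1 := by
        rw [hq, map_mul, map_mul, hd', mul_one, map_pow, map_pow, map_neg, map_one,
          Valuation.map_neg, map_one, one_pow]
      have hu : w.valuation F (algebraMap k F q)⁻¹ = 1 := by
        rw [map_inv₀, hqv, inv_one]
      have hθ0 : θ ≠ 0 := by
        rintro rfl
        rw [mul_zero] at hθ
        exact mul_ne_zero (hφ _ hq0) (hφ _ hdisc0) hθ
      have hdisc : (pen m (c.map (algebraMap k F)) (algebraMap k F r ^ 2)).discr =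
          (algebraMap k F q)⁻¹ * θ ^ 2 := by
        have e1 : pen m (c.map (algebraMap k F)) (algebraMap k F r ^ 2) =
            (pen m c (r ^ 2)).map (algebraMap k F) := by
          rw [map_pen, map_pow]
        rw [e1, discr_map_monic _ hpm, pow_two θ, ← hθ, inv_mul_cancel_left₀ (hφ _ hq0)]
      exact cong_of_good h2' hm hc' hcd' hd' hz' hc0' hg.lift hu hθ0 hdisc hb' he' hbd'

end Pool.Agent.Lib.MP_12adaf_nt.HM
end

section

/-!
# Twisting the member of the pencil
-/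

namespace Pool.Agent.Lib.MP_12adaf_nt.HM

open NumberField IsDedekindDomain IsDedekindDomain.HeightOneSpectrum TF Matrix Polynomial Filter Topology


universe u

variable {k : Type u} [Field k] [NumberField k]

/-- **Job C21.** The twist.

Proof. Let `D := (-1)^(m/2) d disc(c)`, `≠ 0`. If `D` is a square in `k`, `hF` for `F = k` gives
`W(c) ≅ b`; take `a = 1` (`scaleRoots c 1 = c`). Otherwise let `E = k(√D)`, `Q : QExt k E D`
(`exists_qext`, H30); `hF` for `E` (`D = θ²` in `E`). Let `m = 2 l + 2`. Diagonalise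
`2 HH m c ≅ diagonal p` and `-2 HH1 m c ≅ diagonal q` (`exists_diagonal`; both are symmetric with nonzero
determinant: `det_HH`, `det_HH1`), `p, q : Fin (2 l + 2) → k`. `W(c) = osum .. ≅ Sum.elim p q`.
`∏ q = det(-2 HH1) * square = 2^m c(0) disc(c) * square = d disc(c) * square`, so
`D = (-1)^(l+1) (∏ q) * square`; `∏ b = d e²` and `(∏ p) (∏ q) = det W(c) * square = d * square`. So
the hypotheses of `twist` (T8) are satisfied, and there is `a ≠ 0` close to `1` at `S` with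
`Sum.elim p (a q) ≅ b`. By `cong_Wf_scale`
`W(scaleRoots c a) ≅ osum (2 HH m c) (a • (-2 HH1 m c)) ≅ Sum.elim p (a q) ≅ b`. -/
theorem core_twist {m : ℕ} (hm : 2 ≤ m) (hme : Even m)
    {S : Finset (Pl k)} (hinf : ∀ v : InfinitePlace k, Sum.inl v ∈ S)
    (h2 : ∀ w : HeightOneSpectrum (𝓞 k), Sum.inr w ∉ S → w.valuation k 2 = 1)
    {d : k} (hd0 : d ≠ 0) {b : Fin m ⊕ Fin m → k} (hb0 : ∀ i, b i ≠ 0)
    {e : k} (he : e ≠ 0) (hbd : ∏ i, b i = d * e ^ 2) {c : k[X]} {z : k} (hc : c.Monic)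
    (hcd : c.natDegree = m) (hcs : c.Separable) (hz : z ≠ 0) (hc0 : c.coeff 0 = d * z ^ 2)
    (hS : ∀ i ∈ S, Cong ((Wf m c).map (plEmb k i)) (diagonal fun j => plEmb k i (b j)))
    (hF : ∀ (F : Type u) [Field F] [NumberField F] [Algebra k F],
        IsSquare (algebraMap k F ((-1) ^ (m / 2) * d * c.discr)) →
        Cong ((Wf m c).map (algebraMap k F)) (diagonal fun j => algebraMap k F (b j)))
    {ε : ℝ} (hε : 0 < ε) :
    ∃ a : k, a ≠ 0 ∧ (∀ i ∈ S, ‖plEmb k i a - 1‖ < ε) ∧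
      Cong (Wf m (scaleRoots c a)) (diagonal b) := by
  have hdisc0 : c.discr ≠ 0 := discr_ne_zero_of_separable hc hcs
  obtain ⟨l, rfl⟩ : ∃ l, m = 2 * l + 2 := by
    obtain ⟨j, hj⟩ := hme
    exact ⟨j - 1, by omega⟩
  have hdiv : (2 * l + 2) / 2 = l + 1 := by omega
  by_cases hD : IsSquare ((-1 : k) ^ ((2 * l + 2) / 2) * d * c.discr)
  · refine ⟨1, one_ne_zero, fun i _ => by rw [map_one, sub_self, norm_zero]; exact hε, ?_⟩
    rw [scaleRoots_one]
    have h := hF k (by rw [Algebra.algebraMap_self, RingHom.id_apply]; exact hD)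
    rw [Algebra.algebraMap_self] at h
    have e1 : (Wf (2 * l + 2) c).map (RingHom.id k) = Wf (2 * l + 2) c := by
      ext i j; rfl
    rw [e1] at h
    exact h
  obtain ⟨E, iE, iN, iA, ⟨Q⟩⟩ := exists_qext hD
  have hEc := hF E (by
    refine ⟨Q.θ, ?_⟩
    rw [← Q.θ_sq, sq])
  have h20 : (2 : k) ≠ 0 := two_ne_zero
  have hc00 : c.coeff 0 ≠ 0 := by
    rw [hc0]
    exact mul_ne_zero hd0 (pow_ne_zero 2 hz)
  have hdetp : ((2 : k) • HH (2 * l + 2) c).det ≠ 0 := by
    rw [det_smul, det_HH hc hcd hcs]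
    exact mul_ne_zero (pow_ne_zero _ h20) hdisc0
  have hdetq' : ((-2 : k) • HH1 (2 * l + 2) c).det =
      d * c.discr * (2 ^ (l + 1) * z) ^ 2 := by
    rw [det_smul, det_HH1 hc hcd hcs, Fintype.card_fin, hc0]
    have e1 : (-2 : k) ^ (2 * l + 2) = (2 ^ (l + 1)) ^ 2 := by
      rw [show 2 * l + 2 = 2 * (l + 1) by ring, pow_mul, neg_sq, ← pow_mul, ← pow_mul]
      congr 1
      ring
    have e2 : (-1 : k) ^ (2 * l + 2) = 1 := by
      rw [show 2 * l + 2 = 2 * (l + 1) by ring, pow_mul, neg_one_sq, one_pow]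
    rw [e1, e2]
    ring
  have h2z : (2 : k) ^ (l + 1) * z ≠ 0 := mul_ne_zero (pow_ne_zero _ h20) hz
  have hdetq : ((-2 : k) • HH1 (2 * l + 2) c).det ≠ 0 := by
    rw [hdetq']
    exact mul_ne_zero (mul_ne_zero hd0 hdisc0) (pow_ne_zero 2 h2z)
  obtain ⟨p, hp, hpc⟩ := exists_diagonal ((HH_isSymm (2 * l + 2) c).smul (2 : k)) hdetp
  obtain ⟨q, hq, hqc⟩ := exists_diagonal ((HH1_isSymm (2 * l + 2) c).smul (-2 : k)) hdetq
  have hW : Cong (Wf (2 * l + 2) c) (diagonal (Sum.elim p q)) := by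
    have h := Cong.osum hpc hqc
    rw [osum_diagonal] at h
    exact h
  obtain ⟨c₁, hc₁, hc₁'⟩ := hqc.det_eq
  rw [det_diagonal, hdetq'] at hc₁'
  obtain ⟨c₃, hc₃, hc₃'⟩ := hW.det_eq
  rw [det_diagonal, Fintype.prod_sum_type, det_Wf hc hcd hcs, hc0] at hc₃'
  simp only [Sum.elim_inl, Sum.elim_inr] at hc₃'
  have hne : ∀ φ : k →+* E, ∀ x : k, x ≠ 0 → φ x ≠ 0 := fun φ x hx => (map_ne_zero φ).mpr hx
  have hX0 : z * (2 ^ (2 * l + 2) * c.discr) * c₃ ≠ 0 :=
    mul_ne_zero (mul_ne_zero hz (mul_ne_zero (pow_ne_zero _ h20) hdisc0)) hc₃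
  have hY0 : 2 ^ (l + 1) * z * c₁ ≠ 0 := mul_ne_zero h2z hc₁
  have hmapW : ∀ {L : Type _} [Field L] (φ : k →+* L),
      Cong ((Wf (2 * l + 2) c).map φ) (diagonal fun j => φ (Sum.elim p q j)) := by
    intro L _ φ
    have h := hW.map φ
    rw [diagonal_map (map_zero φ)] at h
    exact h
  obtain ⟨a, ha0, haS, ha⟩ := twist (l := l) (p := p) (q := q) (b := b) (c := (2 ^ (l + 1) * z * c₁)⁻¹)
    (c' := e / (z * (2 ^ (2 * l + 2) * c.discr) * c₃)) hinf h2 hp hq hb0
    (D := (-1 : k) ^ ((2 * l + 2) / 2) * d * c.discr)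
    (mul_ne_zero (mul_ne_zero (pow_ne_zero _ (neg_ne_zero.mpr one_ne_zero)) hd0) hdisc0) hD
    (inv_ne_zero hY0) (by
      rw [hc₁', hdiv]
      field_simp) (div_ne_zero he hX0) (by
      rw [hbd, hc₃']
      field_simp) (fun i hi => (hmapW (plEmb k i)).symm.trans (hS i hi)) Q
    ((hmapW (algebraMap k E)).symm.trans hEc) hε
  refine ⟨a, ha0, haS, ?_⟩
  refine (cong_Wf_scale hc hcd hcs ha0).2.2.2.trans ?_
  have hqa : Cong (a • ((-2 : k) • HH1 (2 * l + 2) c)) (diagonal fun j => a * q j) := by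
    obtain ⟨M, M', h1, h2, h3⟩ := hqc
    refine ⟨M, M', h1, h2, ?_⟩
    rw [Matrix.mul_smul, Matrix.smul_mul, h3, ← diagonal_smul]
    rfl
  have h5 := Cong.osum hpc hqa
  rw [osum_diagonal] at h5
  exact h5.trans ha

/-- Scaling the roots by an element close to `1`. (Same job; continuity: the `j`-th coefficient of
`scaleRoots c a` is `a ^ (m - j) c_j`.) -/
theorem near_scale (S : Finset (Pl k)) {m : ℕ} {c : k[X]} (hc : c.Monic) (hcd : c.natDegree = m)
    (z : k) {ε : ℝ} (hε : 0 < ε) :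
    ∃ δ : ℝ, 0 < δ ∧ ∀ a : k, (∀ i ∈ S, ‖plEmb k i a - 1‖ < δ) → ∀ i ∈ S,
      (∀ j, ‖plEmb k i ((scaleRoots c a).coeff j) - plEmb k i (c.coeff j)‖ < ε) ∧
        ‖plEmb k i (a ^ (m / 2) * z) - plEmb k i z‖ < ε := by
  classical
  have key : ∀ i : Pl k, ∃ δ : ℝ, 0 < δ ∧ ∀ a : k, ‖plEmb k i a - 1‖ < δ →
      (∀ j, ‖plEmb k i ((scaleRoots c a).coeff j) - plEmb k i (c.coeff j)‖ < ε) ∧
        ‖plEmb k i (a ^ (m / 2) * z) - plEmb k i z‖ < ε := by
    intro i
    have hc1 : ∀ j : ℕ, ∀ᶠ x in 𝓝 (1 : PlC k i),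
        ‖plEmb k i (c.coeff j) * x ^ (m - j) - plEmb k i (c.coeff j)‖ < ε := by
      intro j
      have hcont : Continuous fun x : PlC k i =>
          ‖plEmb k i (c.coeff j) * x ^ (m - j) - plEmb k i (c.coeff j)‖ := by fun_prop
      apply hcont.continuousAt.eventually_lt continuousAt_const
      simp only [one_pow, mul_one, sub_self, norm_zero]
      exact hε
    have hc2 : ∀ᶠ x in 𝓝 (1 : PlC k i), ‖x ^ (m / 2) * plEmb k i z - plEmb k i z‖ < ε := by
      have hcont : Continuous fun x : PlC k i =>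
          ‖x ^ (m / 2) * plEmb k i z - plEmb k i z‖ := by fun_prop
      apply hcont.continuousAt.eventually_lt continuousAt_const
      simp only [one_pow, one_mul, sub_self, norm_zero]
      exact hε
    have hc3 : ∀ᶠ x in 𝓝 (1 : PlC k i), ∀ j ∈ Finset.range (m + 1),
        ‖plEmb k i (c.coeff j) * x ^ (m - j) - plEmb k i (c.coeff j)‖ < ε :=
      (Finset.range (m + 1)).eventually_all.mpr fun j _ => hc1 j
    obtain ⟨δ, hδ, h⟩ := Metric.eventually_nhds_iff.mp (hc3.and hc2)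
    refine ⟨δ, hδ, fun a ha => ?_⟩
    obtain ⟨h1, h2⟩ := h (y := plEmb k i a) (by rw [dist_eq_norm]; exact ha)
    constructor
    · intro j
      rw [coeff_scaleRoots, hcd, map_mul, map_pow]
      by_cases hj : j ∈ Finset.range (m + 1)
      · exact h1 j hj
      · rw [Finset.mem_range] at hj
        have h3 : c.coeff j = 0 := coeff_eq_zero_of_natDegree_lt (by omega)
        rw [h3, map_zero, zero_mul, sub_zero, norm_zero]
        exact hε
    · rw [map_mul, map_pow]
      exact h2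
  choose δ hδ h using key
  have hmin : ∀ T : Finset (Pl k), ∃ η : ℝ, 0 < η ∧ ∀ i ∈ T, η ≤ δ i := by
    intro T
    induction T using Finset.induction_on with
    | empty => exact ⟨1, one_pos, by simp⟩
    | insert j T _ ih =>
      obtain ⟨η, h1, h2⟩ := ih
      refine ⟨min η (δ j), lt_min h1 (hδ j), fun i hi => ?_⟩
      rcases Finset.mem_insert.1 hi with rfl | hi
      · exact min_le_right _ _
      · exact (min_le_left _ _).trans (h2 i hi)
  obtain ⟨η, hη, hηS⟩ := hmin S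
  exact ⟨η, hη, fun a ha i hi => h i a ((ha i hi).trans_le (hηS i hi))⟩

end Pool.Agent.Lib.MP_12adaf_nt.HM
end

section

/-!
# The member of the pencil
-/

namespace Pool.Agent.Lib.MP_12adaf_nt.HM

open NumberField IsDedekindDomain IsDedekindDomain.HeightOneSpectrum TF Matrix Polynomial Filter Topology


universe u

variable {k : Type u} [Field k] [NumberField k]

/-- **Job C20.** The choice of a member of the pencil.

Proof. For `i ∈ S` let `δ i` be the radius of `open_Wf` for `cv i`, and `ε₁ > 0` smaller than `ε` and all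
the `δ i`. By `exists_near_generic` there are `c₁, z` over `k`, generic, within `ε₁ / 2` of `cv i`,
`zv i`. By `exists_r` (for `c₁`; `c₁(0) = d z² ≠ 0`) there is `r` with `‖r‖` so small at `S` that all
the coefficients of `r² R` have norm `< ε₁ / 2` at the places of `S`. Let
`c := pen m c₁ (r ^ 2)`: monic of degree `m`, `c(0) = c₁(0)` (`pen_monic`, `pen_coeff_zero`), within
`ε₁` of `cv i` at `i ∈ S`, so by `open_Wf` separable (at some place of `S`, which is not empty, hence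
over `k`) and `W(c) ≅ W(cv i) ≅ b` at `i ∈ S` (`map_Wf`). The last property is `cong_of_sq`. -/
theorem core_one {m : ℕ} (hm : 2 ≤ m) (hme : Even m)
    {S : Finset (Pl k)} (hinf : ∀ v : InfinitePlace k, Sum.inl v ∈ S)
    (h2 : ∀ w : HeightOneSpectrum (𝓞 k), Sum.inr w ∉ S → w.valuation k 2 = 1)
    (hR : ∀ w : HeightOneSpectrum (𝓞 k), Sum.inr w ∉ S → ∀ i j : ℕ, i < j → j < m - 1 →
      w.valuation k ((j : k) ^ 2 - (i : k) ^ 2) = 1)
    {d : k} (hd0 : d ≠ 0)
    (hd : ∀ w : HeightOneSpectrum (𝓞 k), Sum.inr w ∉ S → w.valuation k d = 1)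
    {b : Fin m ⊕ Fin m → k} (hb0 : ∀ i, b i ≠ 0)
    (hb : ∀ w : HeightOneSpectrum (𝓞 k), Sum.inr w ∉ S → ∀ i, w.valuation k (b i) = 1)
    {e : k} (he : e ≠ 0) (hbd : ∏ i, b i = d * e ^ 2)
    (cv : ∀ i : Pl k, (PlC k i)[X]) (zv : ∀ i : Pl k, PlC k i)
    (hcm : ∀ i ∈ S, (cv i).Monic) (hcd : ∀ i ∈ S, (cv i).natDegree = m)
    (hcs : ∀ i ∈ S, (cv i).Separable) (hz : ∀ i ∈ S, zv i ≠ 0)
    (hc0 : ∀ i ∈ S, (cv i).coeff 0 = plEmb k i d * zv i ^ 2)
    (hcong : ∀ i ∈ S, Cong (Wf m (cv i)) (diagonal fun j => plEmb k i (b j)))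
    {ε : ℝ} (hε : 0 < ε) :
    ∃ (c : k[X]) (z : k), c.Monic ∧ c.natDegree = m ∧ c.Separable ∧ z ≠ 0 ∧
      c.coeff 0 = d * z ^ 2 ∧
      (∀ i ∈ S, Cong ((Wf m c).map (plEmb k i)) (diagonal fun j => plEmb k i (b j))) ∧
      (∀ i ∈ S, (∀ j, ‖plEmb k i (c.coeff j) - (cv i).coeff j‖ < ε) ∧
        ‖plEmb k i z - zv i‖ < ε) ∧
      ∀ (F : Type u) [Field F] [NumberField F] [Algebra k F],
        IsSquare (algebraMap k F ((-1) ^ (m / 2) * d * c.discr)) →
        Cong ((Wf m c).map (algebraMap k F)) (diagonal fun j => algebraMap k F (b j)) := by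
  classical
  obtain ⟨v0⟩ := (inferInstance : Nonempty (InfinitePlace k))
  have hv0 : (Sum.inl v0 : Pl k) ∈ S := hinf v0
  have hop : ∀ i : Pl k, ∃ δ : ℝ, 0 < δ ∧ (i ∈ S → ∀ c' : (PlC k i)[X], c'.Monic →
      c'.natDegree = m → (∀ j, ‖c'.coeff j - (cv i).coeff j‖ < δ) →
        c'.Separable ∧ Cong (Wf m c') (Wf m (cv i))) := by
    intro i
    by_cases hi : i ∈ S
    · have h0 : (cv i).coeff 0 ≠ 0 := by
        rw [hc0 i hi]
        exact mul_ne_zero ((_root_.map_ne_zero _).2 hd0) (pow_ne_zero 2 (hz i hi))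
      obtain ⟨δ, hδ, h⟩ := open_Wf i (hcm i hi) (hcd i hi) (hcs i hi) h0
      exact ⟨δ, hδ, fun _ => h⟩
    · exact ⟨1, one_pos, fun h => absurd h hi⟩
  choose δ hδ hop using hop
  obtain ⟨ε₁, hε1, hε1ε, hε1δ⟩ : ∃ ε₁ : ℝ, 0 < ε₁ ∧ ε₁ ≤ ε ∧ ∀ i ∈ S, ε₁ ≤ δ i := by
    obtain ⟨j, hj, hmin⟩ := S.exists_min_image δ ⟨_, hv0⟩
    exact ⟨min ε (δ j), lt_min hε (hδ j), min_le_left _ _,
      fun i hi => (min_le_right _ _).trans (hmin i hi)⟩
  obtain ⟨c₁, z, hc1m, hc1d, hc10, hz0, hPhi, hclose⟩ :=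
    exists_near_generic S hm hd0 cv zv hcm hcd hc0 (half_pos hε1)
  have h10 : c₁.coeff 0 ≠ 0 := by
    rw [hc10]
    exact mul_ne_zero hd0 (pow_ne_zero 2 hz0)
  obtain ⟨K, hK, hKb⟩ : ∃ K : ℝ, 0 < K ∧ ∀ i ∈ S, ∀ j, ‖plEmb k i ((Rp k m).coeff j)‖ ≤ K := by
    refine ⟨1 + ∑ i ∈ S, ∑ j ∈ Finset.range ((Rp k m).natDegree + 1),
      ‖plEmb k i ((Rp k m).coeff j)‖, ?_, fun i hi j => ?_⟩
    · have : 0 ≤ ∑ i ∈ S, ∑ j ∈ Finset.range ((Rp k m).natDegree + 1),
        ‖plEmb k i ((Rp k m).coeff j)‖ :=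
        Finset.sum_nonneg fun i _ => Finset.sum_nonneg fun j _ => norm_nonneg _
      linarith
    · by_cases hj : j < (Rp k m).natDegree + 1
      · have h1 : ‖plEmb k i ((Rp k m).coeff j)‖ ≤ ∑ j ∈ Finset.range ((Rp k m).natDegree + 1),
            ‖plEmb k i ((Rp k m).coeff j)‖ :=
          Finset.single_le_sum (f := fun j => ‖plEmb k i ((Rp k m).coeff j)‖)
            (fun j _ => norm_nonneg _) (Finset.mem_range.2 hj)
        have h2 : ∑ j ∈ Finset.range ((Rp k m).natDegree + 1), ‖plEmb k i ((Rp k m).coeff j)‖ ≤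
            ∑ i ∈ S, ∑ j ∈ Finset.range ((Rp k m).natDegree + 1),
              ‖plEmb k i ((Rp k m).coeff j)‖ :=
          Finset.single_le_sum (f := fun i => ∑ j ∈ Finset.range ((Rp k m).natDegree + 1),
            ‖plEmb k i ((Rp k m).coeff j)‖)
            (fun i _ => Finset.sum_nonneg fun j _ => norm_nonneg _) hi
        linarith
      · rw [coeff_eq_zero_of_natDegree_lt (by omega), map_zero, norm_zero]
        have : 0 ≤ ∑ i ∈ S, ∑ j ∈ Finset.range ((Rp k m).natDegree + 1),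
          ‖plEmb k i ((Rp k m).coeff j)‖ :=
          Finset.sum_nonneg fun i _ => Finset.sum_nonneg fun j _ => norm_nonneg _
        linarith
  obtain ⟨r, hr0, hr1, hr⟩ := exists_r S h10 hPhi (δ := min 1 (ε₁ / (2 * K)))
    (lt_min one_pos (by positivity))
  obtain ⟨hpm, hpd⟩ := pen_monic hm hc1m hc1d (r ^ 2)
  have hp0 : (pen m c₁ (r ^ 2)).coeff 0 = d * z ^ 2 := by rw [pen_coeff_zero hm, hc10]
  have hsmall : ∀ i ∈ S, ∀ j, ‖plEmb k i (r ^ 2 * (Rp k m).coeff j)‖ < ε₁ / 2 := by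
    intro i hi j
    have h1 := hr1 i hi
    rw [lt_min_iff] at h1
    have h3 : ‖plEmb k i r‖ ^ 2 ≤ ‖plEmb k i r‖ := by
      nlinarith [norm_nonneg (plEmb k i r), h1.1]
    rw [map_mul, map_pow, norm_mul, norm_pow]
    calc ‖plEmb k i r‖ ^ 2 * ‖plEmb k i ((Rp k m).coeff j)‖ ≤ ‖plEmb k i r‖ * K :=
          mul_le_mul h3 (hKb i hi j) (norm_nonneg _) (norm_nonneg _)
      _ < ε₁ / (2 * K) * K := mul_lt_mul_of_pos_right h1.2 hK
      _ = ε₁ / 2 := by field_simp
  have hnear : ∀ i ∈ S, ∀ j,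
      ‖plEmb k i ((pen m c₁ (r ^ 2)).coeff j) - (cv i).coeff j‖ < ε₁ := by
    intro i hi j
    have h1 := (hclose i hi).1 j
    have h3 := hsmall i hi j
    have e1 : plEmb k i ((pen m c₁ (r ^ 2)).coeff j) - (cv i).coeff j =
        (plEmb k i (c₁.coeff j) - (cv i).coeff j) + plEmb k i (r ^ 2 * (Rp k m).coeff j) := by
      rw [pen, coeff_add, coeff_C_mul, map_add]
      ring
    rw [e1]
    have h4 := norm_add_le (plEmb k i (c₁.coeff j) - (cv i).coeff j)
      (plEmb k i (r ^ 2 * (Rp k m).coeff j))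
    linarith
  have hloc : ∀ i ∈ S, ((pen m c₁ (r ^ 2)).map (plEmb k i)).Separable ∧
      Cong ((Wf m (pen m c₁ (r ^ 2))).map (plEmb k i)) (diagonal fun j => plEmb k i (b j)) := by
    intro i hi
    obtain ⟨h1, h3⟩ := hop i hi ((pen m c₁ (r ^ 2)).map (plEmb k i)) (hpm.map _)
      (by rw [natDegree_map, hpd]) (fun j => by
        rw [coeff_map]
        exact (hnear i hi j).trans_le (hε1δ i hi))
    refine ⟨h1, ?_⟩
    rw [map_Wf _ hpm]
    exact h3.trans (hcong i hi)
  have hsep : (pen m c₁ (r ^ 2)).Separable := separable_map _ |>.1 (hloc _ hv0).1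
  refine ⟨pen m c₁ (r ^ 2), z, hpm, hpd, hsep, hz0, hp0, fun i hi => (hloc i hi).2,
    fun i hi => ⟨fun j => (hnear i hi j).trans_le hε1ε, ?_⟩, ?_⟩
  · have := (hclose i hi).2
    linarith
  · intro F _ _ _ hsq
    exact cong_of_sq hm hme hinf h2 hR hc1m hc1d hd0 hd hz0 hc10 hr hb0 hb he hbd hsep
      (fun i hi => (hloc i hi).2) hsq

end Pool.Agent.Lib.MP_12adaf_nt.HM
end

section

/-!
# Approximation at finite sets of places: formalities
-/

namespace Pool.Agent.Lib.MP_12adaf_nt.HM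

open NumberField IsDedekindDomain IsDedekindDomain.HeightOneSpectrum TF Matrix Polynomial Filter Topology

variable {k : Type*} [Field k] [NumberField k]

/-- `F` is a local polynomial of degree `n` with trace form `Q`. -/
def LocPt {μ : Type*} [Fintype μ] [DecidableEq μ] (n : ℕ) (Q : Matrix μ μ k) (i : Pl k)
    (F : (PlC k i)[X]) : Prop :=
  F.Monic ∧ F.natDegree = n ∧ F.Separable ∧ Cong (HH n F) (Q.map (plEmb k i))

/-- Local polynomials with trace form `Q` at the places of `S`, with square roots of their discriminants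
divided by `det Q`, are approximated by global ones. -/
def AppAt {μ : Type*} [Fintype μ] [DecidableEq μ] (n : ℕ) (Q : Matrix μ μ k)
    (S : Finset (Pl k)) : Prop :=
  ∀ (F : ∀ i : S, (PlC k i.1)[X]) (Y : ∀ i : S, PlC k i.1), (∀ i, LocPt n Q i.1 (F i)) →
    (∀ i, Y i ≠ 0) → (∀ i, (F i).discr = plEmb k i.1 Q.det * Y i ^ 2) →
    ApF (fun i : S => plEmb k i.1) n Q.det Q F Y

section

variable {μ μ' : Type*} [Fintype μ] [DecidableEq μ] [Fintype μ'] [DecidableEq μ']

/-- **Job A5.** Passage to a smaller set of places.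

Proof. Given `F, Y` on `S`, extend them to `S'`: at `i ∈ S' \ S` choose `F i` by `hloc`, and `Y i` from the
determinants: `Cong.det_eq` for `HH n F ≅ Q.map`, `det_HH` (`disc F ≠ 0`). Apply `h'` and restrict. -/
theorem AppAt.of_superset {n : ℕ} {Q : Matrix μ μ k} (hloc : ∀ i : Pl k, ∃ F, LocPt n Q i F)
    {S S' : Finset (Pl k)} (h : S ⊆ S') (h' : AppAt n Q S') : AppAt n Q S := by
  classical
  intro F Y hF hY hdisc
  have key : ∀ i : Pl k, ∃ (G : (PlC k i)[X]) (y : PlC k i), LocPt n Q i G ∧ y ≠ 0 ∧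
      G.discr = plEmb k i Q.det * y ^ 2 ∧ ∀ hi : i ∈ S, G = F ⟨i, hi⟩ ∧ y = Y ⟨i, hi⟩ := by
    intro i
    by_cases hi : i ∈ S
    · exact ⟨F ⟨i, hi⟩, Y ⟨i, hi⟩, hF _, hY _, hdisc _, fun _ => ⟨rfl, rfl⟩⟩
    · obtain ⟨G, hG⟩ := hloc i
      obtain ⟨c, hc, hcd⟩ := hG.2.2.2.det_eq
      have h1 : (Q.map (plEmb k i)).det = plEmb k i Q.det := by
        rw [RingHom.map_det]
        rfl
      rw [h1, det_HH hG.1 hG.2.1 hG.2.2.1] at hcd
      refine ⟨G, c⁻¹, hG, inv_ne_zero hc, ?_, fun hi' => absurd hi' hi⟩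
      rw [hcd]
      field_simp
  choose G y hG hy hd hGy using key
  have h2 := h' (fun i => G i.1) (fun i => y i.1) (fun i => hG i.1) (fun i => hy i.1)
    (fun i => hd i.1)
  intro ε hε
  obtain ⟨P, z, h3, h4, h5, h6, h7, h8⟩ := h2 ε hε
  refine ⟨P, z, h3, h4, h5, h6, h7, fun i => ?_⟩
  have h9 := h8 ⟨i.1, h i.2⟩
  obtain ⟨e1, e2⟩ := hGy i.1 i.2
  simp only [e1, e2] at h9
  exact h9

/-- Isometric forms. (Same job; `nf_apF_change`, `Cong.det_eq`, `Cong.map`.) -/
theorem AppAt.congr {n : ℕ} {Q : Matrix μ μ k} {Q' : Matrix μ' μ' k} (h : Cong Q Q')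
    {S : Finset (Pl k)} (h' : AppAt n Q' S) : AppAt n Q S := by
  intro F Y hF hY hdisc
  obtain ⟨c, hc, hcd⟩ := h.det_eq
  have hφc : ∀ i : S, plEmb k i.1 c ≠ 0 := fun i => (_root_.map_ne_zero _).mpr hc
  refine nf_apF_change hc hcd h (h' F (fun i => Y i / plEmb k i.1 c) (fun i => ?_)
    (fun i => div_ne_zero (hY i) (hφc i)) fun i => ?_)
  · exact ⟨(hF i).1, (hF i).2.1, (hF i).2.2.1, (hF i).2.2.2.trans (h.map _)⟩
  · have := hφc i
    rw [hdisc i, hcd, map_mul, map_pow]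
    field_simp

theorem LocPt.congr {n : ℕ} {Q : Matrix μ μ k} {Q' : Matrix μ' μ' k} (h : Cong Q Q') {i : Pl k}
    {F : (PlC k i)[X]} (h' : LocPt n Q i F) : LocPt n Q' i F :=
  ⟨h'.1, h'.2.1, h'.2.2.1, h'.2.2.2.trans (h.map _)⟩

end

/-- `S` contains the infinite places, the dyadic ones, and those where the points `i²`, `i < m - 1` are
not distinct. -/
def Big (m : ℕ) (S : Finset (Pl k)) : Prop :=
  (∀ v : InfinitePlace k, Sum.inl v ∈ S) ∧
  (∀ w : HeightOneSpectrum (𝓞 k), Sum.inr w ∉ S → w.valuation k 2 = 1) ∧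
  ∀ w : HeightOneSpectrum (𝓞 k), Sum.inr w ∉ S → ∀ i j : ℕ, i < j → j < m - 1 →
    w.valuation k ((j : k) ^ 2 - (i : k) ^ 2) = 1

/-- Enlarging a finite set of places. (Same job: finitely many places have `w.valuation x ≠ 1` for a given
`x ≠ 0`, see the construction of `T` in `hm_step`, Q08.) -/
theorem exists_big (m : ℕ) (S : Finset (Pl k)) {ι : Type*} [Finite ι] (x : ι → k)
    (hx : ∀ i, x i ≠ 0) :
    ∃ S' : Finset (Pl k), S ⊆ S' ∧ Big m S' ∧
      ∀ w : HeightOneSpectrum (𝓞 k), Sum.inr w ∉ S' → ∀ i, w.valuation k (x i) = 1 := by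
  classical
  have hfin : ({w : HeightOneSpectrum (𝓞 k) | w.valuation k (2 : k) ≠ 1} ∪
      ((⋃ i : ι, {w : HeightOneSpectrum (𝓞 k) | w.valuation k (x i) ≠ 1}) ∪
      ⋃ p : {p : Fin (m - 1) × Fin (m - 1) // p.1 < p.2},
        {w : HeightOneSpectrum (𝓞 k) |
          w.valuation k (((p.1.2 : ℕ) : k) ^ 2 - ((p.1.1 : ℕ) : k) ^ 2) ≠ 1})).Finite := by
    refine Set.Finite.union (finite_valuation_ne_one two_ne_zero) (Set.Finite.union
      (Set.finite_iUnion fun i => finite_valuation_ne_one (hx i))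
      (Set.finite_iUnion fun p => finite_valuation_ne_one ?_))
    have hlt : (p.1.1 : ℕ) < (p.1.2 : ℕ) := p.2
    intro h0
    have h1 : ((((p.1.2 : ℕ) ^ 2 : ℕ)) : k) = (((p.1.1 : ℕ) ^ 2 : ℕ) : k) := by
      push_cast
      exact sub_eq_zero.mp h0
    have h2 := Nat.cast_injective h1
    have h3 : (p.1.1 : ℕ) ^ 2 < (p.1.2 : ℕ) ^ 2 := Nat.pow_lt_pow_left hlt two_ne_zero
    omega
  have hnot : ∀ w : HeightOneSpectrum (𝓞 k), Sum.inr w ∉ S ∪ SP k hfin.toFinset →
      w.valuation k (2 : k) = 1 ∧ (∀ i, w.valuation k (x i) = 1) ∧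
      ∀ p : {p : Fin (m - 1) × Fin (m - 1) // p.1 < p.2},
        w.valuation k (((p.1.2 : ℕ) : k) ^ 2 - ((p.1.1 : ℕ) : k) ^ 2) = 1 := by
    intro w hw
    rw [Finset.mem_union, not_or, mem_SP_inr, Set.Finite.mem_toFinset, Set.mem_union,
      not_or, Set.mem_union, not_or, Set.mem_iUnion, not_exists, Set.mem_iUnion, not_exists] at hw
    refine ⟨not_not.mp hw.2.1, fun i => not_not.mp (hw.2.2.1 i), fun p => not_not.mp (hw.2.2.2 p)⟩
  refine ⟨S ∪ SP k hfin.toFinset, Finset.subset_union_left, ⟨fun v => ?_, fun w hw => (hnot w hw).1,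
    fun w hw i j hij hj => ?_⟩, fun w hw => (hnot w hw).2.1⟩
  · exact Finset.mem_union_right _ (mem_SP_inl _ v)
  · exact (hnot w hw).2.2 ⟨(⟨i, lt_trans hij hj⟩, ⟨j, hj⟩), hij⟩

end Pool.Agent.Lib.MP_12adaf_nt.HM
end

section

/-!
# The core theorem
-/

namespace Pool.Agent.Lib.MP_12adaf_nt.HM

open NumberField IsDedekindDomain IsDedekindDomain.HeightOneSpectrum TF Matrix Polynomial Filter Topology


universe u

variable {k : Type u} [Field k] [NumberField k]

/-- **Job C22.** The core theorem.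

Proof. `core_one` with `ε / 2`, `near_scale` with `ε / 2` and `core_twist` with its `δ`; the result is
`scaleRoots c a`, `a ^ (m / 2) * z` (`scaleRoots c a` is monic of degree `m`, separable
(`cong_Wf_scale`), with constant coefficient `a ^ m c(0) = d (a ^ (m/2) z)²`, `m` even). -/
theorem core {m : ℕ} (hm : 2 ≤ m) (hme : Even m)
    {S : Finset (Pl k)} (hinf : ∀ v : InfinitePlace k, Sum.inl v ∈ S)
    (h2 : ∀ w : HeightOneSpectrum (𝓞 k), Sum.inr w ∉ S → w.valuation k 2 = 1)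
    (hR : ∀ w : HeightOneSpectrum (𝓞 k), Sum.inr w ∉ S → ∀ i j : ℕ, i < j → j < m - 1 →
      w.valuation k ((j : k) ^ 2 - (i : k) ^ 2) = 1)
    {d : k} (hd0 : d ≠ 0)
    (hd : ∀ w : HeightOneSpectrum (𝓞 k), Sum.inr w ∉ S → w.valuation k d = 1)
    {b : Fin m ⊕ Fin m → k} (hb0 : ∀ i, b i ≠ 0)
    (hb : ∀ w : HeightOneSpectrum (𝓞 k), Sum.inr w ∉ S → ∀ i, w.valuation k (b i) = 1)
    {e : k} (he : e ≠ 0) (hbd : ∏ i, b i = d * e ^ 2)
    (cv : ∀ i : Pl k, (PlC k i)[X]) (zv : ∀ i : Pl k, PlC k i)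
    (hcm : ∀ i ∈ S, (cv i).Monic) (hcd : ∀ i ∈ S, (cv i).natDegree = m)
    (hcs : ∀ i ∈ S, (cv i).Separable) (hz : ∀ i ∈ S, zv i ≠ 0)
    (hc0 : ∀ i ∈ S, (cv i).coeff 0 = plEmb k i d * zv i ^ 2)
    (hcong : ∀ i ∈ S, Cong (Wf m (cv i)) (diagonal fun j => plEmb k i (b j)))
    {ε : ℝ} (hε : 0 < ε) :
    ∃ (c : k[X]) (z : k), c.Monic ∧ c.natDegree = m ∧ c.Separable ∧ z ≠ 0 ∧
      c.coeff 0 = d * z ^ 2 ∧ Cong (Wf m c) (diagonal b) ∧
      ∀ i ∈ S, (∀ j, ‖plEmb k i (c.coeff j) - (cv i).coeff j‖ < ε) ∧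
        ‖plEmb k i z - zv i‖ < ε := by
  obtain ⟨c, z, hc, hcd', hcs', hz', hc0', hloc, hnear, hF⟩ :=
    core_one hm hme hinf h2 hR hd0 hd hb0 hb he hbd cv zv hcm hcd hcs hz hc0 hcong (half_pos hε)
  obtain ⟨δ, hδ, hsc⟩ := near_scale S hc hcd' z (half_pos hε)
  obtain ⟨a, ha0, ha, hcg⟩ :=
    core_twist hm hme hinf h2 hd0 hb0 he hbd hc hcd' hcs' hz' hc0' hloc hF hδ
  obtain ⟨h3, h4, h5, -⟩ := cong_Wf_scale hc hcd' hcs' ha0
  refine ⟨scaleRoots c a, a ^ (m / 2) * z, h3, h4, h5, mul_ne_zero (pow_ne_zero _ ha0) hz', ?_,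
    hcg, fun i hi => ?_⟩
  · rw [coeff_scaleRoots, hc0', hcd', Nat.sub_zero]
    obtain ⟨l, rfl⟩ := hme
    have e1 : (l + l) / 2 = l := by omega
    rw [e1]
    ring
  · obtain ⟨h6, h7⟩ := hsc a ha i hi
    obtain ⟨h8, h9⟩ := hnear i hi
    refine ⟨fun j => ?_, ?_⟩
    · have h10 := norm_add_le (plEmb k i ((scaleRoots c a).coeff j) - plEmb k i (c.coeff j))
        (plEmb k i (c.coeff j) - (cv i).coeff j)
      rw [sub_add_sub_cancel] at h10
      have h11 := h6 j
      have h12 := h8 j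
      linarith
    · have h10 := norm_add_le (plEmb k i (a ^ (m / 2) * z) - plEmb k i z)
        (plEmb k i z - zv i)
      rw [sub_add_sub_cancel] at h10
      linarith

end Pool.Agent.Lib.MP_12adaf_nt.HM
end

section

/-!
# Approximation in degrees 0 and 1 modulo 4
-/

namespace Pool.Agent.Lib.MP_12adaf_nt.HM

open NumberField IsDedekindDomain IsDedekindDomain.HeightOneSpectrum TF Matrix Polynomial Filter Topology

variable {k : Type*} [Field k] [NumberField k]

/-- **Job A6.** The standard form.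

Proof. `e = 0`: `exists_diagonal`, reindexed by `Fin m ⊕ Fin m` (the cardinality of `μ` is `2 m`, as
`Q` is locally congruent to `HH (2 m) F`, at any place), and `osum A 1 ≅ A` (`cong_osum_empty`).
`e = 1`: at every place `Q ≅ HH F ≅ We 1 m c = osum (Wf m c) 1` (`hloc`, `exists_cm` with `d = 1`... any
`d`, for instance `d = disc F`, `Y = 1`), so `exists_split_of_local` (C18) with the value `1`
(reindex `Fin m ⊕ Fin m` by `Fin (2 m)`). -/
theorem exists_std {m e : ℕ} (he : e ≤ 1) {μ : Type*} [Fintype μ] [DecidableEq μ]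
    {Q : Matrix μ μ k} (hQ : Q.IsSymm) (hdet : Q.det ≠ 0)
    (hloc : ∀ i : Pl k, ∃ F, LocPt (2 * m + e) Q i F) :
    ∃ b : Fin m ⊕ Fin m → k, (∀ j, b j ≠ 0) ∧
      Cong Q (osum (diagonal b) (1 : Matrix (Fin e) (Fin e) k)) := by
  classical
  obtain ⟨v₀⟩ : Nonempty (InfinitePlace k) := inferInstance
  obtain ⟨F₀, hF₀m, hF₀d, hF₀s, hF₀c⟩ := hloc (Sum.inl v₀)
  have hcard : Fintype.card μ = 2 * m + e := by
    obtain ⟨M, M', h1, h2, -⟩ := hF₀c
    have h3 := Matrix.square_of_invertible M M' h1 h2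
    rw [Fintype.card_fin] at h3
    exact h3.symm
  rcases Nat.le_one_iff_eq_zero_or_eq_one.mp he with rfl | rfl
  · obtain ⟨u, hu, hc⟩ := exists_diagonal hQ hdet
    have hc2 : Fintype.card (Fin m ⊕ Fin m) = Fintype.card μ := by
      rw [Fintype.card_sum, Fintype.card_fin, hcard]
      omega
    refine ⟨fun j => u (Fintype.equivOfCardEq hc2 j), fun j => hu _, ?_⟩
    exact (hc.trans (Cong.diagonal_equiv u (Fintype.equivOfCardEq hc2))).trans
      (cong_osum_empty _).symm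
  · have hc2 : Fintype.card (Fin (2 * m)) = Fintype.card (Fin m ⊕ Fin m) := by
      rw [Fintype.card_sum, Fintype.card_fin, Fintype.card_fin]
      omega
    have hone : ∀ {R : Type _} [CommRing R], (1 : Matrix (Fin 1) (Fin 1) R) = sq1 1 :=
      fun {R} _ => by
        rw [sq1]
        exact diagonal_one.symm
    have hsplit : ∀ i : Pl k, ∃ B : Matrix (Fin (2 * m)) (Fin (2 * m)) (PlC k i),
        Cong (Q.map (plEmb k i)) (osum B (sq1 (plEmb k i 1))) := by
      intro i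
      obtain ⟨F, hFm, hFd, hFs, hFc⟩ := hloc i
      obtain ⟨c, p, T, z, -, -, -, -, -, -, -, -, -, -, hcg⟩ := exists_cm (le_refl 1) hFm hFd
        (d := F.discr) (Y := 1) (discr_ne_zero_of_separable hFm hFs) one_ne_zero (by ring)
      refine ⟨(Wf m c).submatrix (Fintype.equivOfCardEq hc2) (Fintype.equivOfCardEq hc2), ?_⟩
      refine (hFc.symm.trans hcg).trans ?_
      rw [map_one]
      exact (Cong.submatrix _ (Fintype.equivOfCardEq hc2)).osum (Cong.of_eq hone)
    obtain ⟨u, hu, hc⟩ := exists_split_of_local (r := 2 * m) hcard hQ hdet one_ne_zero hsplit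
    refine ⟨fun j => u ((Fintype.equivOfCardEq hc2).symm j), fun j => hu _, ?_⟩
    exact hc.trans ((Cong.diagonal_equiv u (Fintype.equivOfCardEq hc2).symm).osum
      (Cong.of_eq hone.symm))

/-- **Job A6, main part.** Approximation at a big set of places.

Proof. `S` is not empty (it contains the infinite places). Apply `cm_approx` with `ι = S`
(`denseRange_places` for `Subtype.val`), `d = det Q` and `B = Q`. For `hcore`: let `c i, z i` be given,
`i ∈ S`. `Cong (HH (F i)) (We e m (c i))` and `Cong (HH (F i)) (Q.map)`,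
`Q ≅ osum (diagonal b) 1`, so by cancellation (`witt_diagonal` after `Cong.osum_comm`)
`Cong (Wf m (c i)) (diagonal (b_i))`. `∏ b = det Q * e²` by `Cong.det_eq`. Apply `core` (C22) with
`cv i := if h : i ∈ S then c ⟨i, h⟩ else 0`, `zv` similarly; `Cong (Wf m c') (diagonal b)` gives
`Cong (We e m c') Q`. -/
theorem approx_big {m e : ℕ} (hm : 2 ≤ m) (hme : Even m) (he : e ≤ 1) {μ : Type*} [Fintype μ]
    [DecidableEq μ] {Q : Matrix μ μ k} (hQ : Q.IsSymm) (hdet : Q.det ≠ 0)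
    {b : Fin m ⊕ Fin m → k} (hb0 : ∀ j, b j ≠ 0)
    (hb : Cong Q (osum (diagonal b) (1 : Matrix (Fin e) (Fin e) k))) {S : Finset (Pl k)}
    (hS : Big m S)
    (hSb : ∀ w : HeightOneSpectrum (𝓞 k), Sum.inr w ∉ S → ∀ j, w.valuation k (b j) = 1)
    (hSd : ∀ w : HeightOneSpectrum (𝓞 k), Sum.inr w ∉ S → w.valuation k Q.det = 1) :
    AppAt (2 * m + e) Q S := by
  classical
  intro F Y hF hY hdisc
  obtain ⟨v₀⟩ : Nonempty (InfinitePlace k) := inferInstance
  haveI : Nonempty S := ⟨⟨Sum.inl v₀, hS.1 v₀⟩⟩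
  have hdense := denseRange_places k (Subtype.val : S → Pl k) Subtype.val_injective
  refine cm_approx (φ := fun i : S => plEmb k i.1) hdense (by omega) he hdet F Y
    (fun i => (hF i).1) (fun i => (hF i).2.1) hdisc hY ?_
  intro c z hc hcd hcs hz hcz hcg ε hε
  have hmap : ∀ i : Pl k, (osum (diagonal b) (1 : Matrix (Fin e) (Fin e) k)).map (plEmb k i) =
      osum (diagonal fun j => plEmb k i (b j)) (1 : Matrix (Fin e) (Fin e) (PlC k i)) := by
    intro i
    rw [map_osum, diagonal_map (map_zero _), Matrix.map_one _ (map_zero _) (map_one _)]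
  have hcong : ∀ i : S, Cong (Wf m (c i)) (diagonal fun j => plEmb k i.1 (b j)) := by
    intro i
    have h1 : Cong (osum (Wf m (c i)) (1 : Matrix (Fin e) (Fin e) (PlC k i.1)))
        (osum (diagonal fun j => plEmb k i.1 (b j))
          (1 : Matrix (Fin e) (Fin e) (PlC k i.1))) := by
      have h2 := hb.map (plEmb k i.1)
      rw [hmap] at h2
      exact (hcg i).symm.trans ((hF i).2.2.2.trans h2)
    have h3 : Cong (osum (diagonal fun _ : Fin e => (1 : PlC k i.1)) (Wf m (c i)))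
        (osum (diagonal fun _ : Fin e => (1 : PlC k i.1))
          (diagonal fun j => plEmb k i.1 (b j))) := by
      have e1 : (diagonal fun _ : Fin e => (1 : PlC k i.1)) = 1 := diagonal_one
      rw [e1]
      exact (Cong.osum_comm _ _).trans (h1.trans (Cong.osum_comm _ _))
    exact witt_diagonal (fun _ => one_ne_zero) (Wf_isSymm m _) (diagonal_transpose _) h3
  obtain ⟨e', he', hdet'⟩ := hb.det_eq
  rw [det_osum, det_one, mul_one, det_diagonal] at hdet'
  obtain ⟨cv, hcv⟩ : ∃ cv : ∀ i : Pl k, (PlC k i)[X], ∀ (i : Pl k) (h : i ∈ S),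
      cv i = c ⟨i, h⟩ := ⟨fun i => if h : i ∈ S then c ⟨i, h⟩ else 0, fun i h => dif_pos h⟩
  obtain ⟨zv, hzv⟩ : ∃ zv : ∀ i : Pl k, PlC k i, ∀ (i : Pl k) (h : i ∈ S),
      zv i = z ⟨i, h⟩ := ⟨fun i => if h : i ∈ S then z ⟨i, h⟩ else 0, fun i h => dif_pos h⟩
  obtain ⟨c', z', h1, h2, h3, h4, h5, h6, h7⟩ := core hm hme hS.1 hS.2.1 hS.2.2 hdet hSd hb0 hSb
    he' hdet' cv zv (fun i hi => by rw [hcv i hi]; exact hc _)
    (fun i hi => by rw [hcv i hi]; exact hcd _) (fun i hi => by rw [hcv i hi]; exact hcs _)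
    (fun i hi => by rw [hzv i hi]; exact hz _)
    (fun i hi => by rw [hcv i hi, hzv i hi]; exact hcz _)
    (fun i hi => by rw [hcv i hi]; exact hcong _) hε
  refine ⟨c', z', h1, h2, h3, h4, h5, (h6.osum (Cong.refl _)).trans hb.symm, fun i => ?_⟩
  have h8 := h7 i.1 i.2
  rw [hcv i.1 i.2, hzv i.1 i.2] at h8
  exact h8

/-- **Job A6, last part.** Approximation in degrees `0` and `1` modulo `4`.

Proof. `exists_std`, `exists_big` for the family `b`, `det Q` (index type `Option (Fin m ⊕ Fin m)`),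
`approx_big`, `AppAt.of_superset`. -/
theorem approx01 {m e : ℕ} (hm : 2 ≤ m) (hme : Even m) (he : e ≤ 1) {μ : Type*} [Fintype μ]
    [DecidableEq μ] {Q : Matrix μ μ k} (hQ : Q.IsSymm) (hdet : Q.det ≠ 0)
    (hloc : ∀ i : Pl k, ∃ F, LocPt (2 * m + e) Q i F) (S : Finset (Pl k)) :
    AppAt (2 * m + e) Q S := by
  classical
  obtain ⟨b, hb0, hb⟩ := exists_std he hQ hdet hloc
  obtain ⟨S', hSS', hbig, hval⟩ := exists_big m S
    (fun o : Option (Fin m ⊕ Fin m) => o.elim Q.det b) (by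
      rintro (_ | j)
      · exact hdet
      · exact hb0 j)
  exact (approx_big hm hme he hQ hdet hb0 hb hbig (fun w hw j => hval w hw (some j))
    (fun w hw => hval w hw none)).of_superset hloc hSS'

end Pool.Agent.Lib.MP_12adaf_nt.HM
end

section

/-!
# Approximation in degree 2 modulo 4
-/

namespace Pool.Agent.Lib.MP_12adaf_nt.HM

open NumberField IsDedekindDomain IsDedekindDomain.HeightOneSpectrum TF Matrix Polynomial Filter Topology

variable {k : Type*} [Field k] [NumberField k]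

private lemma v6_card {K μ ν : Type*} [Field K] [Fintype μ] [DecidableEq μ] [Fintype ν]
    [DecidableEq ν] {A : Matrix μ μ K} {B : Matrix ν ν K} (h : Cong A B) :
    Fintype.card μ = Fintype.card ν := by
  obtain ⟨M, M', h1, h2, -⟩ := h
  exact Matrix.square_of_invertible M M' h1 h2

private lemma v6_not4 {m : ℕ} (hme : Even m) : ¬ 4 ∣ 2 * m + 2 := by
  obtain ⟨l, rfl⟩ := hme
  omega

/-- The local decomposition. -/
private lemma v6_W {m : ℕ} (hme : Even m) (i : Pl k) {F : (PlC k i)[X]} (hF : F.Monic)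
    (hdeg : F.natDegree = 2 * m + 2) (hsep : F.Separable) {D Y : PlC k i} (hD : D ≠ 0)
    (hY : Y ≠ 0) (hdisc : F.discr = 2 * D * Y ^ 2) :
    ∃ (g : (PlC k i)[X]) (t : PlC k i) (T : (PlC k i)[X]), WData (2 * m) F g t T ∧
      Cong (HH (2 * m + 2) F) (osum (sq1 2) (osum (HH (2 * m) g) (sq1 (D * g.discr)))) :=
  exists_W i (even_two_mul m) (v6_not4 hme) hF hdeg hsep hD hY hdisc

/-- **Job V6.** The standard form in degree `2` modulo `4`.

Proof. At every place `i`: `F` from `hloc`, `D := F.discr / 2`, `Y = 1`, `exists_W` gives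
`Q ≅ HH F ≅ osum (sq1 2) (osum (HH g) (sq1 ..))` (`4 ∤ 2 m + 2` as `m` is even); reindex
`Fin N ⊕ Fin 1` by `Fin (N + 1)` and apply `exists_split_of_local` (C18) with the value `2`. -/
theorem exists_std_two {m : ℕ} (hme : Even m) {μ : Type*} [Fintype μ] [DecidableEq μ]
    {Q : Matrix μ μ k} (hQ : Q.IsSymm) (hdet : Q.det ≠ 0)
    (hloc : ∀ i : Pl k, ∃ F, LocPt (2 * m + 2) Q i F) :
    ∃ v : Fin (2 * m + 1) → k, (∀ j, v j ≠ 0) ∧ Cong Q (osum (sq1 2) (diagonal v)) := by
  obtain ⟨v0⟩ : Nonempty (InfinitePlace k) := inferInstance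
  obtain ⟨F0, -, -, -, hF0⟩ := hloc (Sum.inl v0)
  have hcard : Fintype.card μ = (2 * m + 1) + 1 := by
    have := v6_card hF0
    rw [Fintype.card_fin] at this
    omega
  obtain ⟨u, hu, hc⟩ := exists_split_of_local hcard hQ hdet (c := (2 : k)) two_ne_zero
    (fun i => by
      obtain ⟨F, hFm, hFd, hFs, hFc⟩ := hloc i
      have hd0 : F.discr ≠ 0 := discr_ne_zero_of_separable hFm hFs
      obtain ⟨g, t, T, -, hcg⟩ := v6_W hme i hFm hFd hFs (D := F.discr / 2) (Y := 1)
        (div_ne_zero hd0 two_ne_zero) one_ne_zero (by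
          rw [one_pow, mul_one, mul_div_cancel₀ _ (two_ne_zero)])
      refine ⟨(osum (HH (2 * m) g) (sq1 (F.discr / 2 * g.discr))).submatrix
        (finSumFinEquiv.symm : Fin (2 * m + 1) ≃ Fin (2 * m) ⊕ Fin 1)
        (finSumFinEquiv.symm : Fin (2 * m + 1) ≃ Fin (2 * m) ⊕ Fin 1), ?_⟩
      rw [map_ofNat]
      refine (hFc.symm.trans hcg).trans ((Cong.osum_comm _ _).trans ?_)
      exact (Cong.submatrix _ _).osum (Cong.refl _))
  exact ⟨u, hu, hc.trans (Cong.osum_comm _ _)⟩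

/-- Local polynomials at the places outside a big set. -/
private lemma v6_unit {m : ℕ} (hm : 2 ≤ m) {v : Fin (2 * m + 1) → k}
    {u : Fin (2 * m) → k} {e : k} (hu : ∀ j, u j ≠ 0) (he : e ≠ 0)
    (hcd : CD (Sum.elim u fun _ : Fin 1 => e) v)
    {w : HeightOneSpectrum (𝓞 k)} (h2 : w.valuation k 2 = 1)
    (hv1 : ∀ j, w.valuation k (v j) = 1) :
    ∃ F : (w.adicCompletion k)[X], F.Monic ∧ F.natDegree = 2 * m ∧ F.Separable ∧
      Cong (HH (2 * m) F) (diagonal fun j => algebraMap k (w.adicCompletion k) (u j)) := by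
  have hv2 : ∀ j, ∃ x : (w.adicCompletionIntegers k)ˣ,
      algebraMap k (w.adicCompletion k) (v j) =
        algebraMap (w.adicCompletionIntegers k) (w.adicCompletion k) x := fun j =>
    (norm_eq_one_iff w _).1 ((valuation_eq_one_iff w _).1 (hv1 j))
  choose x hx using hv2
  have : CharZero (w.adicCompletion k) :=
    charZero_of_injective_algebraMap (algebraMap k (w.adicCompletion k)).injective
  have hinj := (algebraMap k (w.adicCompletion k)).injective
  refine exists_poly_unit (O := w.adicCompletionIntegers k) (isUnit_two_fin h2) (by omega)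
    (fun j => (map_ne_zero_iff _ hinj).2 (hu j))
    (e := algebraMap k (w.adicCompletion k) e) ((map_ne_zero_iff _ hinj).2 he) (v := x) ?_
  have h3 := hcd.map (algebraMap k (w.adicCompletion k))
  have h4 : (fun i => algebraMap k (w.adicCompletion k) ((Sum.elim u fun _ : Fin 1 => e) i)) =
      Sum.elim (fun j => algebraMap k (w.adicCompletion k) (u j))
        fun _ : Fin 1 => algebraMap k (w.adicCompletion k) e := by
    funext i
    rcases i with i | i <;> rfl
  rw [h4] at h3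
  have h5 : (fun i => algebraMap k (w.adicCompletion k) (v i)) = fun i =>
      algebraMap (w.adicCompletionIntegers k) (w.adicCompletion k) (x i) := funext hx
  rw [h5] at h3
  exact h3

omit [NumberField k] in
/-- The form of the global companion. -/
private lemma v6_glob {m : ℕ} {v : Fin (2 * m + 1) → k}
    {u : Fin (2 * m) → k} {e : k} (hu : ∀ j, u j ≠ 0)
    (hcd : CD (Sum.elim u fun _ : Fin 1 => e) v) {P : k[X]} {y : k} (hy : y ≠ 0)
    (hP : P.discr = (∏ j, u j) * y ^ 2) (hPc : Cong (HH (2 * m) P) (diagonal u)) :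
    Cong (osum (HH (2 * m) P) (sq1 ((∏ j, v j) * P.discr))) (diagonal v) := by
  obtain ⟨c, hc0, hc⟩ := Cong.det_eq hcd
  rw [det_diagonal, ← osum_diagonal, det_osum, det_diagonal, det_diagonal] at hc
  have hu0 : (∏ j, u j) ≠ 0 := Finset.prod_ne_zero_iff.2 fun j _ => hu j
  have h1 : (∏ j, v j) * P.discr = e * (c * (∏ j, u j) * y) ^ 2 := by
    rw [hc, hP, Fin.prod_univ_one]
    ring
  have h2 : Cong (sq1 e) (sq1 ((∏ j, v j) * P.discr)) :=
    Cong.sq1_of_eq (mul_ne_zero (mul_ne_zero hc0 hu0) hy) h1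
  have h3 : Cong (osum (HH (2 * m) P) (sq1 ((∏ j, v j) * P.discr)))
      (osum (diagonal u) (sq1 e)) := hPc.osum h2.symm
  refine h3.trans ?_
  rw [sq1, osum_diagonal]
  exact hcd

/-- **Job V6, main part.** Approximation at a big set of places.

Proof. Let `N = 2 m`, `D := ∏ v`; `det (osum (sq1 2) (diagonal v)) = 2 D`. Let `F, Y` be given on `S`
(not empty). By `exists_W` there are `g i, t i, T i` with `WData` and
`HH (F i) ≅ osum (sq1 2) (osum (HH (g i)) (sq1 (D_i disc (g i))))`, so by cancellation (`witt_sq1`)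
`osum (HH N (g i)) (sq1 (D_i disc (g i))) ≅ diagonal v_i`. By `exists_split_near` (V5) there are
`u, e` over `k` with `u ⊥ <e> ≅ v` and `HH N (g i) ≅ diagonal u_i`, `i ∈ S`. So
`LocPt N (diagonal u) i (g i)` for `i ∈ S`; for `i ∉ S`, `i = Sum.inr w` with `w.valuation 2 = 1`,
the `v_j` units at `w`, and `exists_poly_unit` (V4) in the completion gives a local polynomial. So
`approx01` (for `e = 0`, rank `N = 2 m + 0`) gives `AppAt N (diagonal u) S`. For the `g i`, and `z i` with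
`disc (g i) = (∏ u) z i²` (`Cong.det_eq`), it gives for every `ε` a `gq` over `k` with
`HH N gq ≅ diagonal u`, `disc gq = (∏ u) y²`, close to the `g i`. Then
`osum (HH N gq) (sq1 (D disc gq)) ≅ osum (diagonal u) (sq1 e) ≅ diagonal v`, since
`D = ∏ v = (∏ u) e c²` (`Cong.det_eq`), `D disc gq = e (c (∏ u) y)²` (`Cong.sq1_of_eq`). Apply
`w_step` (V2) with `B = diagonal v`. -/
theorem approx_two_big {m : ℕ} (hm : 2 ≤ m) (hme : Even m) {v : Fin (2 * m + 1) → k}
    (hv : ∀ j, v j ≠ 0) {S : Finset (Pl k)} (hS : Big m S)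
    (hSv : ∀ w : HeightOneSpectrum (𝓞 k), Sum.inr w ∉ S → ∀ j, w.valuation k (v j) = 1) :
    AppAt (2 * m + 2) (osum (sq1 2) (diagonal v)) S := by
  intro F Y hF hY hdisc
  have hdet : (osum (sq1 2) (diagonal v)).det = 2 * ∏ j, v j := by
    rw [det_osum, det_sq1, det_diagonal]
  have hD : (∏ j, v j) ≠ 0 := Finset.prod_ne_zero_iff.2 fun j _ => hv j
  rw [hdet] at hdisc ⊢
  obtain ⟨v0⟩ : Nonempty (InfinitePlace k) := inferInstance
  have hne : Nonempty S := ⟨⟨Sum.inl v0, hS.1 v0⟩⟩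
  have hWex : ∀ i : S, ∃ (g : (PlC k i.1)[X]) (t : PlC k i.1) (T : (PlC k i.1)[X]),
      WData (2 * m) (F i) g t T ∧ Cong (HH (2 * m + 2) (F i))
        (osum (sq1 2) (osum (HH (2 * m) g) (sq1 (plEmb k i.1 (∏ j, v j) * g.discr)))) := fun i =>
    v6_W hme i.1 (hF i).1 (hF i).2.1 (hF i).2.2.1
      ((map_ne_zero_iff _ (plEmb k i.1).injective).2 hD) (hY i) (by
        rw [hdisc i, map_mul, map_ofNat])
  choose g t T hW hcg using hWex
  have hgd : ∀ i : S, (g i).discr ≠ 0 := fun i =>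
    discr_ne_zero_of_separable (hW i).1 (hW i).2.2.1
  have hcan : ∀ i : S, Cong (osum (HH (2 * m) (g i))
      (sq1 (plEmb k i.1 (∏ j, v j) * (g i).discr))) (diagonal fun j => plEmb k i.1 (v j)) := by
    intro i
    have h1 := (hcg i).symm.trans (hF i).2.2.2
    rw [map_osum, map_sq1, map_ofNat, diagonal_map (map_zero _)] at h1
    exact witt_sq1 two_ne_zero (osum_isSymm (HH_isSymm _ _) (sq1_isSymm _))
      (diagonal_transpose _) h1
  obtain ⟨u, e, hu, he, hcd, hgu⟩ := exists_split_near hv S (fun i => HH (2 * m) (g i))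
    (fun i => HH_isSymm _ _) (fun i => plEmb k i.1 (∏ j, v j) * (g i).discr)
    (fun i => mul_ne_zero ((map_ne_zero_iff _ (plEmb k i.1).injective).2 hD) (hgd i)) hcan
  have hloc' : ∀ i : Pl k, ∃ G, LocPt (2 * m + 0) (diagonal u) i G := by
    intro i
    by_cases hi : i ∈ S
    · refine ⟨g ⟨i, hi⟩, (hW ⟨i, hi⟩).1, (hW ⟨i, hi⟩).2.1, (hW ⟨i, hi⟩).2.2.1, ?_⟩
      rw [diagonal_map (map_zero _)]
      exact hgu ⟨i, hi⟩
    · rcases i with w | w
      · exact absurd (hS.1 w) hi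
      · obtain ⟨G, hG1, hG2, hG3, hG4⟩ := v6_unit hm hu he hcd (hS.2.1 w hi) (hSv w hi)
        refine ⟨G, hG1, hG2, hG3, ?_⟩
        rw [diagonal_map (map_zero _)]
        exact hG4
  have hu0 : (∏ j, u j) ≠ 0 := Finset.prod_ne_zero_iff.2 fun j _ => hu j
  have happ0 : AppAt (2 * m + 0) (diagonal u) S :=
    approx01 hm hme (Nat.zero_le 1) (diagonal_transpose _) (by rwa [det_diagonal]) hloc' S
  have hz : ∀ i : S, ∃ z : PlC k i.1, z ≠ 0 ∧
      (g i).discr = plEmb k i.1 (diagonal u).det * z ^ 2 := by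
    intro i
    obtain ⟨c, hc0, hc⟩ := (hgu i).symm.det_eq
    refine ⟨c, hc0, ?_⟩
    rw [det_HH (hW i).1 (hW i).2.1 (hW i).2.2.1] at hc
    rw [hc, det_diagonal, det_diagonal, map_prod]
  choose z hz0 hz using hz
  have happ1 := happ0 g z (fun i => ⟨(hW i).1, (hW i).2.1, (hW i).2.2.1, by
    rw [diagonal_map (map_zero _)]
    exact hgu i⟩) hz0 hz
  refine w_step (denseRange_places k (fun i : S => i.1) Subtype.val_injective) (even_two_mul m) hD
    F Y hdisc hY g t T hW ?_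
  intro ε hε
  obtain ⟨P, y, hP1, hP2, hP3, hy, hP4, hP5⟩ := happ1 ε hε
  rw [det_diagonal] at hP3
  refine ⟨P, hP1, hP2, separable_of_discr_ne_zero hP1 ?_, v6_glob hu hcd hy hP3 hP4,
    fun i => (hP5 i).1⟩
  rw [hP3]
  exact mul_ne_zero hu0 (pow_ne_zero _ hy)

/-- **Job V6, last part.** Approximation in degree `2` modulo `4`: `exists_std_two`, `exists_big`,
`approx_two_big`, `AppAt.congr`, `AppAt.of_superset`. -/
theorem approx_two {m : ℕ} (hm : 2 ≤ m) (hme : Even m) {μ : Type*} [Fintype μ]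
    [DecidableEq μ] {Q : Matrix μ μ k} (hQ : Q.IsSymm) (hdet : Q.det ≠ 0)
    (hloc : ∀ i : Pl k, ∃ F, LocPt (2 * m + 2) Q i F) (S : Finset (Pl k)) :
    AppAt (2 * m + 2) Q S := by
  obtain ⟨v, hv, hc⟩ := exists_std_two hme hQ hdet hloc
  obtain ⟨S', hSS', hbig, hSv⟩ := exists_big m S v hv
  exact AppAt.of_superset hloc hSS' (AppAt.congr hc (approx_two_big hm hme hv hbig hSv))

end Pool.Agent.Lib.MP_12adaf_nt.HM
end

section

/-!
# Approximation in degree 3 modulo 4
-/

namespace Pool.Agent.Lib.MP_12adaf_nt.HM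

open NumberField IsDedekindDomain IsDedekindDomain.HeightOneSpectrum TF Matrix Polynomial Filter Topology

variable {k : Type*} [Field k] [NumberField k]

/-- Coprimality from a nonvanishing resultant. -/
private theorem v7_coprime {K : Type*} [Field K] {N : ℕ} {g h : K[X]}
    (hg : g.Monic) (hgN : g.natDegree = N) (hh : h.natDegree ≤ N)
    (hR : resultant g h N N ≠ 0) : IsCoprime g h := by
  subst hgN
  obtain ⟨k, hk⟩ := Nat.exists_eq_add_of_le hh
  have h0 : resultant g h g.natDegree (h.natDegree + k) ≠ 0 := by rwa [← hk]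
  rw [resultant_add_right_deg _ _ _ _ _ le_rfl] at h0
  exact (isUnit_resultant_iff_isCoprime hg).mp (isUnit_iff_ne_zero.mpr (right_ne_zero_of_mul h0))

/-- The trace form along the odd pencil. -/
private theorem v7_cong {K : Type*} [Field K] [CharZero K] {N : ℕ} {g : K[X]} (hg : g.Monic)
    (hgN : g.natDegree = N) (hsep : g.Separable) (hL : (LmatO N g).det ≠ 0)
    (hR : resultant g (hpolyO N g) N N ≠ 0) (t : K) (hfs : (fpolyO N g t).Separable) :
    Cong (HH (N + 1) (fpolyO N g t)) (osum (HH N g) (sq1 1)) := by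
  have hfm := fpolyO_monic hg hgN t
  have hgh : IsCoprime g (hpolyO N g) :=
    v7_coprime hg hgN (natDegree_hpolyO_le hg hgN) hR
  exact cong_O hfm.1 hg hfm.2 hgN (natDegree_hpolyO_le hg hgN) hfs hsep hgh
    (wronskian_fpolyO hg hgN hsep hL t)

/-- **Job V7.** The companion of a local polynomial of odd degree `N + 1`, `4 ∤ N`.

Proof. `locO_place` (`OddNF.lean`), with `OFac F` from the factorisation `F = F * 1`; the isometry is the
private theorem `cong_fpolyO` of `TF/Seven.lean` (copy it) with `cong_charT`; see the proof of `hcg`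
in `seven_approx` there. -/
theorem exists_O (i : Pl k) {N : ℕ} (hN : Even N) (h4 : ¬ 4 ∣ N) {F : (PlC k i)[X]}
    (hF : F.Monic) (hdeg : F.natDegree = N + 1) (hsep : F.Separable) :
    ∃ (g : (PlC k i)[X]) (t : PlC k i) (T : (PlC k i)[X]), OData N F g t T ∧
      Cong (HH (N + 1) F) (osum (HH N g) (sq1 1)) := by
  have hfac : OFac F := by
    refine ⟨F, 1, hF, monic_one, ?_, (mul_one F).symm, Or.inr ?_⟩
    · rw [hdeg]
      exact hN.add_one
    · rw [hdeg, Nat.add_sub_cancel]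
      exact h4
  obtain ⟨g, t, T, hT, hgm, hgN, hgs, -⟩ := locO_place i hN hF hdeg hsep hfac
  refine ⟨g, t, T, hT, ?_⟩
  obtain ⟨h1, h2, h3, h4, h5, h6, h7, h8⟩ := hT
  have hfm := fpolyO_monic h1 h2 t
  have c1 : Cong (HH (N + 1) (fpolyO N g t)) (HH (N + 1) F) := by
    have := cong_charT hfm.1 hfm.2 h6 (T := T) (by rw [h8]; exact hsep)
    rwa [h8] at this
  exact c1.symm.trans (v7_cong h1 h2 h3 h4 h5 t h6)

/-- **Job V7, main part.** Approximation in degree `3` modulo `4`.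

Proof. Let `N = 2 m + 2`, `4 ∤ N`. At every place `Q ≅ HH F ≅ osum (HH N g) (sq1 1)` (`exists_O`), so
`exists_split_of_local` (C18) gives `Q ≅ osum (diagonal u) (sq1 1)`, `u : Fin N → k`; by
`AppAt.congr` we may replace `Q` by `osum (diagonal u) (sq1 1)`, of determinant `∏ u`, and by
`AppAt.of_superset` we may suppose that `S` is not empty (insert an infinite place). By cancellation
(`witt_sq1`) the companions have `HH N g ≅ diagonal u_i`, at all places: `LocPt N (diagonal u) i g`.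
So `approx_two` gives `AppAt N (diagonal u) S`, and `odd_step` (`TF/Seven.lean`), with
`ι = S`, `d = ∏ u`, `B = diagonal u`, gives the result. -/
theorem approx_three {m : ℕ} (hm : 2 ≤ m) (hme : Even m) {μ : Type*} [Fintype μ]
    [DecidableEq μ] {Q : Matrix μ μ k} (hQ : Q.IsSymm) (hdet : Q.det ≠ 0)
    (hloc : ∀ i : Pl k, ∃ F, LocPt (2 * m + 3) Q i F) (S : Finset (Pl k)) :
    AppAt (2 * m + 3) Q S := by
  classical
  obtain ⟨v⟩ : Nonempty (InfinitePlace k) := inferInstance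
  have hNe : Even (2 * m + 2) := ⟨m + 1, by omega⟩
  have hN4 : ¬ 4 ∣ 2 * m + 2 := by
    obtain ⟨r, hr⟩ := hme
    omega
  -- the size of `Q`
  have hcard : Fintype.card μ = (2 * m + 2) + 1 := by
    obtain ⟨F, hF⟩ := hloc (Sum.inl v)
    obtain ⟨M, M', h1, h2, -⟩ := hF.2.2.2
    have := Matrix.square_of_invertible M M' h1 h2
    rw [Fintype.card_fin] at this
    omega
  -- the splitting
  obtain ⟨u, hu, hQu⟩ := exists_split_of_local hcard hQ hdet (one_ne_zero (α := k)) (by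
    intro i
    obtain ⟨F, hF⟩ := hloc i
    obtain ⟨g, t, T, -, hg⟩ := exists_O i hNe hN4 hF.1 hF.2.1 hF.2.2.1
    refine ⟨HH (2 * m + 2) g, ?_⟩
    rw [map_one]
    exact hF.2.2.2.symm.trans hg)
  have hloc' : ∀ i : Pl k, ∃ F, LocPt (2 * m + 3) (osum (diagonal u) (sq1 1)) i F := fun i => by
    obtain ⟨F, hF⟩ := hloc i
    exact ⟨F, hF.congr hQu⟩
  -- the companions
  have hcomp : ∀ (i : Pl k) (F : (PlC k i)[X]),
      LocPt (2 * m + 3) (osum (diagonal u) (sq1 1)) i F →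
      ∃ (g : (PlC k i)[X]) (t : PlC k i) (T : (PlC k i)[X]), OData (2 * m + 2) F g t T ∧
        LocPt (2 * m + 2) (diagonal u) i g := by
    intro i F hF
    obtain ⟨g, t, T, hT, hg⟩ := exists_O i hNe hN4 hF.1 hF.2.1 hF.2.2.1
    refine ⟨g, t, T, hT, hT.1, hT.2.1, hT.2.2.1, ?_⟩
    have h1 : Cong (osum (HH (2 * m + 2) g) (sq1 1))
        (osum ((diagonal u).map (plEmb k i)) (sq1 1)) := by
      refine hg.symm.trans (hF.2.2.2.trans (Cong.of_eq ?_))
      rw [map_osum, map_sq1, map_one]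
    refine witt_sq1 one_ne_zero (HH_isSymm _ _) ?_
      (((Cong.osum_comm _ _).trans h1).trans (Cong.osum_comm _ _))
    rw [diagonal_map (map_zero _)]
    exact diagonal_transpose _
  have hudet : (diagonal u).det ≠ 0 := by
    rw [det_diagonal]
    exact Finset.prod_ne_zero_iff.2 fun j _ => hu j
  have hlocu : ∀ i : Pl k, ∃ F, LocPt (2 * m + 2) (diagonal u) i F := fun i => by
    obtain ⟨F, hF⟩ := hloc' i
    obtain ⟨g, t, T, -, hg⟩ := hcomp i F hF
    exact ⟨g, hg⟩
  refine AppAt.congr hQu (AppAt.of_superset hloc' (Finset.subset_insert (Sum.inl v) S) ?_)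
  have h2 := approx_two hm hme (diagonal_transpose u) hudet hlocu (insert (Sum.inl v) S)
  intro F Y hF hY hdisc
  choose g t T hT hg using fun i => hcomp _ _ (hF i)
  have hne : Nonempty ↥(insert (Sum.inl v) S) := ⟨⟨Sum.inl v, Finset.mem_insert_self _ _⟩⟩
  have hdd : (osum (diagonal u) (sq1 (1 : k))).det = (diagonal u).det := by
    rw [det_osum, det_sq1, mul_one]
  rw [hdd] at hdisc ⊢
  exact odd_step (denseRange_places k (Subtype.val : ↥(insert (Sum.inl v) S) → Pl k)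
    Subtype.val_injective) hNe hudet F Y hdisc hY g t T hT (diagonal u)
    fun z hz1 hz0 => h2 g z hg hz0 hz1

end Pool.Agent.Lib.MP_12adaf_nt.HM
end

section

/-!
# Approximation of polynomials with a given trace form
-/

namespace Pool.Agent.Lib.MP_12adaf_nt.HM

open NumberField IsDedekindDomain IsDedekindDomain.HeightOneSpectrum TF Matrix Polynomial Filter Topology

variable {k : Type*} [Field k] [NumberField k]

/-- **Job V8.** All degrees `n ≥ 4`: `n = 2 m + e` with `m ≥ 2` even and `e ≤ 3`; `approx01`,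
`approx_two`, `approx_three`. -/
theorem approx_all {n : ℕ} (hn : 4 ≤ n) {μ : Type*} [Fintype μ]
    [DecidableEq μ] {Q : Matrix μ μ k} (hQ : Q.IsSymm) (hdet : Q.det ≠ 0)
    (hloc : ∀ i : Pl k, ∃ F, LocPt n Q i F) (S : Finset (Pl k)) : AppAt n Q S := by
  obtain ⟨m, e, hm, hme, he, rfl⟩ : ∃ m e : ℕ, 2 ≤ m ∧ Even m ∧ e < 4 ∧ n = 2 * m + e :=
    ⟨2 * (n / 4), n % 4, by omega, even_two_mul _, Nat.mod_lt _ (by norm_num), by omega⟩
  interval_cases e
  · exact approx01 hm hme (by norm_num) hQ hdet hloc S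
  · exact approx01 hm hme (by norm_num) hQ hdet hloc S
  · exact approx_two hm hme hQ hdet hloc S
  · exact approx_three hm hme hQ hdet hloc S

private lemma v8_cong {K : Type*} [Field K] {n : ℕ} {Q : Matrix (Fin n) (Fin n) K} {F : K[X]}
    {M : Matrix (Fin n) (Fin n) K} (h : TPt n Q F M) : Cong Q (HH n F) := by
  have hM : IsUnit M.det := isUnit_iff_ne_zero.mpr h.det
  exact ⟨M, M⁻¹, Matrix.mul_nonsing_inv _ hM, Matrix.nonsing_inv_mul _ hM, h.eq⟩

private lemma v8_loc {n : ℕ} {Q : Matrix (Fin n) (Fin n) k} {i : Pl k} {F : (PlC k i)[X]}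
    {M : Matrix (Fin n) (Fin n) (PlC k i)} (h : TPt n (Q.map (plEmb k i)) F M) : LocPt n Q i F :=
  ⟨h.monic, h.deg, h.sep, (v8_cong h).symm⟩

private lemma v8_det (n : ℕ) (Q : Matrix (Fin n) (Fin n) k) (i : Pl k) :
    (Q.map (plEmb k i)).det = plEmb k i Q.det := by
  rw [RingHom.map_det]
  rfl

/-- **Job V8, main part.** The points of the variety.

Proof. `Q` is symmetric with nonzero determinant: it is so at one place (an infinite one), where
`M₀ᵀ Q M₀ = HH n F₀` with `M₀` invertible (`HH_isSymm`, `det_HH_ne_zero`; symmetry and the determinant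
can be checked after the injective map). Let `S' = insert v₀ S` be not empty, `F i`, `M i` for the
places of `S'` (from `hloc` outside `S`). `frame_approx` (`TF/Frame.lean`) with `ι = S'`:
`hdense` from `denseRange_places` for `Subtype.val`, `hop` from `openCong_place`; `happ` is
`approx_all` (`AppAt`) for `F` and `Y i = (M i).det`: `LocPt` from the isometry
`Mᵀ Q M = HH n F`, and `disc F = det HH = det Q (det M)²` (`det_HH`); see the proof of
`trace_form_approx` in `TF/NF.lean`. -/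
theorem points_approx {n : ℕ} (hn : 4 ≤ n) {Q : Matrix (Fin n) (Fin n) k}
    (hloc : ∀ i : Pl k, ∃ F M, TPt n (Q.map (plEmb k i)) F M) (S : Finset (Pl k))
    (F : ∀ i : S, (PlC k i.1)[X]) (M : ∀ i : S, Matrix (Fin n) (Fin n) (PlC k i.1))
    (hF : ∀ i, TPt n (Q.map (plEmb k i.1)) (F i) (M i)) {ε : ℝ} (hε : 0 < ε) :
    ∃ (P : k[X]) (N : Matrix (Fin n) (Fin n) k), TPt n Q P N ∧
      ∀ i : S, (∀ m, ‖plEmb k i.1 (P.coeff m) - (F i).coeff m‖ < ε) ∧
        ∀ b c, ‖plEmb k i.1 (N b c) - M i b c‖ < ε := by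
  classical
  obtain ⟨v₀⟩ : Nonempty (Pl k) := ⟨Sum.inl (Classical.arbitrary (InfinitePlace k))⟩
  obtain ⟨F₀, M₀, h₀⟩ := hloc v₀
  have hQ : Q.IsSymm := by
    have h1 : (Q.map (plEmb k v₀)).IsSymm := (v8_cong h₀).symm.symmetric (HH_isSymm _ _)
    have h2 : Qᵀ.map (plEmb k v₀) = Q.map (plEmb k v₀) := h1
    exact Matrix.map_injective (plEmb k v₀).injective h2
  have hQdet : Q.det ≠ 0 := by
    intro h
    have h1 := det_HH_ne_zero h₀.monic h₀.deg h₀.sep
    rw [← h₀.eq, det_mul, det_mul, v8_det, h] at h1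
    simp at h1
  have hloc' : ∀ i : Pl k, ∃ F, LocPt n Q i F := fun i => by
    obtain ⟨F, M, h⟩ := hloc i
    exact ⟨F, v8_loc h⟩
  set S' : Finset (Pl k) := insert v₀ S with hS'
  have hne : Nonempty S' := ⟨⟨v₀, Finset.mem_insert_self _ _⟩⟩
  have hex : ∀ i : S', ∃ (F' : (PlC k i.1)[X]) (M' : Matrix (Fin n) (Fin n) (PlC k i.1)),
      TPt n (Q.map (plEmb k i.1)) F' M' ∧ ∀ h : i.1 ∈ S, F' = F ⟨i.1, h⟩ ∧ M' = M ⟨i.1, h⟩ := by
    intro i
    by_cases h : i.1 ∈ S
    · exact ⟨F ⟨i.1, h⟩, M ⟨i.1, h⟩, hF ⟨i.1, h⟩, fun _ => ⟨rfl, rfl⟩⟩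
    · obtain ⟨F', M', h'⟩ := hloc i.1
      exact ⟨F', M', h', fun h2 => absurd h2 h⟩
  choose F' M' hFM hEq using hex
  have hdense := denseRange_places k (fun i : S' => i.1) Subtype.val_injective
  have hop : ∀ i : S', OpenCong (PlC k i.1) := fun i => openCong_place i.1
  have happ : ApF (fun i : S' => plEmb k i.1) n Q.det Q F' fun i => (M' i).det := by
    refine approx_all hn hQ hQdet hloc' S' F' (fun i => (M' i).det) (fun i => v8_loc (hFM i))
      (fun i => (hFM i).det) fun i => ?_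
    rw [← det_HH (hFM i).monic (hFM i).deg (hFM i).sep, ← (hFM i).eq, det_mul, det_mul,
      det_transpose, v8_det]
    ring
  obtain ⟨P, N, hPN, happr⟩ := frame_approx (φ := fun i : S' => plEmb k i.1) hdense hop (by omega)
    hQ hQdet F' M' hFM happ hε
  refine ⟨P, N, hPN, fun i => ?_⟩
  have h1 := happr ⟨i.1, Finset.mem_insert_of_mem i.2⟩
  obtain ⟨e1, e2⟩ := hEq ⟨i.1, Finset.mem_insert_of_mem i.2⟩ i.2
  rw [e1, e2] at h1
  exact h1

end Pool.Agent.Lib.MP_12adaf_nt.HM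
end
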